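import Pool.Agent.N685.FD.Stm4

/-!
PROJECT FD, part 4, leaf CNTU (helper99): upper bound for the number of the `n ≤ x` which reach
`(-∞, c]` in at most `α log n` steps.
-/

set_option autoImplicit false

namespace Pool.Agent.N685.FD

open Finset

namespace Cntu

/-- the exponent is an affine function of `α` -/
theorem u_affine {p : ℕ} (hp : p = 3 ∨ p = 5) (z : ℝ) {α β : ℝ} (hα : 0 < α) (hβ : 0 < β) :
    β * php p (rp p β) z = α * php p (rp p α) z +
      (β - α) * ((-Real.log z * Real.log p + -Real.log (tt p z) * Real.log 2) / Real.log p) := by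
  have hl := (UL.p_facts hp).2.1
  unfold php rp
  field_simp
  ring

theorem card_le {N : ℝ} (hN : 0 ≤ N) (F : Finset ℤ) (hF : ∀ n ∈ F, 1 ≤ n ∧ (n : ℝ) ≤ N) :
    (F.card : ℝ) ≤ N := by
  have hsub : F ⊆ Finset.Icc 1 ⌊N⌋ := by
    intro n hn
    rw [Finset.mem_Icc]
    exact ⟨(hF n hn).1, Int.le_floor.2 (hF n hn).2⟩
  have h1 := Finset.card_le_card hsub
  rw [Int.card_Icc] at h1
  have h0 : 0 ≤ ⌊N⌋ := Int.floor_nonneg.2 hN
  have h2 : (F.card : ℤ) ≤ ⌊N⌋ := by omega
  have h3 : (F.card : ℝ) ≤ (⌊N⌋ : ℝ) := by exact_mod_cast h2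
  exact h3.trans (Int.floor_le N)

end Cntu

/-- CNTU: upper bound for the number of the `n ≤ x` which reach `(-∞, c]` fast -/
theorem t_CNTU : S_CNTU := by
  classical
  intro p d hA z hQ α hα hU c ε hε
  have hp := hA.1
  have hl2 : 0 < Real.log 2 := Real.log_pos (by norm_num)
  have hl := (UL.p_facts hp).2.1
  have hα0 : 0 < α := lt_trans (by positivity) hα
  obtain ⟨ha, hab⟩ := UL.q_facts hQ
  have hU0 : 0 ≤ α * php p (rp p α) z :=
    mul_nonneg hα0.le (UL.php_nonneg hp hQ (UL.rp_pos hp hα).le (UL.rp_mul_lt hp hα0).le)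
  set U : ℝ := α * php p (rp p α) z with hUdef
  obtain ⟨R, hR⟩ : ∃ R : ℝ, R = (-Real.log z * Real.log p + -Real.log (tt p z) * Real.log 2) /
      Real.log p := ⟨_, rfl⟩
  have hR0 : 0 < R := by rw [hR]; exact div_pos hab hl
  -- the larger slope
  obtain ⟨δ, hδ⟩ : ∃ δ : ℝ, δ = min (ε / 3) (1 - U) / R := ⟨_, rfl⟩
  have hm0 : 0 < min (ε / 3) (1 - U) := lt_min (by positivity) (by linarith)
  have hδ0 : 0 < δ := by rw [hδ]; exact div_pos hm0 hR0
  have hδR : δ * R = min (ε / 3) (1 - U) := by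
    rw [hδ]
    field_simp
  obtain ⟨β, hβ⟩ : ∃ β : ℝ, β = α + δ := ⟨_, rfl⟩
  have hβ0 : 0 < β := by linarith
  have hβ2 : 1 / Real.log 2 < β := by linarith
  have haff := Cntu.u_affine hp z hα0 hβ0
  rw [← hR, ← hUdef] at haff
  have hβα : β - α = δ := by linarith
  rw [hβα, hδR] at haff
  have hV1 : β * php p (rp p β) z ≤ 1 := by
    have := min_le_right (ε / 3) (1 - U)
    linarith
  have hVe : β * php p (rp p β) z ≤ U + ε / 3 := by
    have := min_le_left (ε / 3) (1 - U)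
    linarith
  have hV0 : 0 ≤ β * php p (rp p β) z := by linarith
  obtain ⟨V, hV⟩ : ∃ V : ℝ, V = β * php p (rp p β) z := ⟨_, rfl⟩
  obtain ⟨X₀, hX₀, hmain⟩ := ul_upper hA hQ hβ2 hV1 (show 0 < ε / 3 by positivity)
  rw [← hV] at hV0 hVe hmain
  -- the level
  obtain ⟨y, hy⟩ : ∃ y : ℝ, y = max 1 (c : ℝ) := ⟨_, rfl⟩
  have hy1 : 1 ≤ y := by rw [hy]; exact le_max_left _ _
  have hyc : (c : ℝ) ≤ y := by rw [hy]; exact le_max_right _ _
  have hy0 : 0 < y := by linarith
  have hly : 0 ≤ Real.log y := Real.log_nonneg hy1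
  obtain ⟨N, hN⟩ : ∃ N : ℝ, N = max y (Real.exp (β * Real.log y / δ)) := ⟨_, rfl⟩
  have hNy : y ≤ N := by rw [hN]; exact le_max_left _ _
  have hNe : Real.exp (β * Real.log y / δ) ≤ N := by rw [hN]; exact le_max_right _ _
  have hN0 : 0 < N := by linarith
  have hNy1 : 1 ≤ N + y := by linarith
  refine ⟨max (max X₀ y) ((N + y) ^ (3 / ε)),
    le_max_of_le_left (le_max_of_le_left hX₀), fun x hx F hF => ?_⟩
  have hx1 : X₀ ≤ x := ((le_max_left _ _).trans (le_max_left _ _)).trans hx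
  have hx2 : y ≤ x := ((le_max_right _ _).trans (le_max_left _ _)).trans hx
  have hx3 : (N + y) ^ (3 / ε) ≤ x := (le_max_right _ _).trans hx
  have hx4 : 1 ≤ x := hX₀.trans hx1
  have hx0 : 0 < x := by linarith
  have hsplit : F.card = (F.filter fun n : ℤ => (n : ℝ) ≤ N).card +
      (F.filter fun n : ℤ => ¬ (n : ℝ) ≤ N).card := (Finset.card_filter_add_card_filter_not _).symm
  have h1 : ((F.filter fun n : ℤ => (n : ℝ) ≤ N).card : ℝ) ≤ N := by
    apply Cntu.card_le hN0.le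
    intro n hn
    obtain ⟨h2, h3⟩ := Finset.mem_filter.1 hn
    exact ⟨(hF n h2).1, h3⟩
  have h2 : ((F.filter fun n : ℤ => ¬ (n : ℝ) ≤ N).card : ℝ) ≤
      x ^ (ε / 3) * (y * (x / y) ^ V) := by
    apply hmain x hx1 y hy1 hx2
    intro n hn
    obtain ⟨h3, h4⟩ := Finset.mem_filter.1 hn
    rw [not_le] at h4
    obtain ⟨h5, h6, k, h7, h8⟩ := hF n h3
    refine ⟨by linarith, h6, k, ?_, ?_⟩
    · have h9 : (((T p d)^[k] n : ℤ) : ℝ) ≤ (c : ℝ) := by exact_mod_cast h7
      exact h9.trans hyc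
    · refine h8.trans ?_
      have hn0 : (0 : ℝ) < n := by linarith
      have h10 : β * Real.log y / δ ≤ Real.log n := by
        rw [Real.le_log_iff_exp_le hn0]
        exact hNe.trans h4.le
      rw [div_le_iff₀ hδ0] at h10
      rw [hβ] at h10 ⊢
      nlinarith
  have h3 : (x / y) ^ V ≤ x ^ V :=
    Real.rpow_le_rpow (by positivity) (div_le_self hx0.le hy1) hV0
  have h4 : x ^ (ε / 3) * (y * (x / y) ^ V) ≤ y * x ^ (2 * ε / 3 + U) := by
    have h5 : x ^ (ε / 3) * (y * (x / y) ^ V) ≤ x ^ (ε / 3) * (y * x ^ V) := by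
      refine mul_le_mul_of_nonneg_left (mul_le_mul_of_nonneg_left h3 hy0.le) (by positivity)
    have h6 : x ^ (ε / 3) * (y * x ^ V) = y * x ^ (ε / 3 + V) := by
      rw [Real.rpow_add hx0]
      ring
    rw [h6] at h5
    refine h5.trans (mul_le_mul_of_nonneg_left ?_ hy0.le)
    exact Real.rpow_le_rpow_of_exponent_le hx4 (by linarith)
  have h5 : 1 ≤ x ^ (2 * ε / 3 + U) := Real.one_le_rpow hx4 (by positivity)
  have h6 : N + y ≤ x ^ (ε / 3) := by
    have h7 := Real.rpow_le_rpow (by positivity) hx3 (show 0 ≤ ε / 3 by positivity)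
    rw [← Real.rpow_mul (by linarith)] at h7
    have h8 : 3 / ε * (ε / 3) = 1 := by field_simp
    rwa [h8, Real.rpow_one] at h7
  calc (F.card : ℝ) ≤ N + x ^ (ε / 3) * (y * (x / y) ^ V) := by
        rw [hsplit]
        push_cast
        linarith
    _ ≤ N * x ^ (2 * ε / 3 + U) + y * x ^ (2 * ε / 3 + U) := by
        have h7 : N * 1 ≤ N * x ^ (2 * ε / 3 + U) := mul_le_mul_of_nonneg_left h5 hN0.le
        linarith
    _ = (N + y) * x ^ (2 * ε / 3 + U) := by ring
    _ ≤ x ^ (ε / 3) * x ^ (2 * ε / 3 + U) :=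
        mul_le_mul_of_nonneg_right h6 (by positivity)
    _ = x ^ (U + ε) := by
        rw [← Real.rpow_add hx0]
        congr 1
        ring

end Pool.Agent.N685.FD
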