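import Pool.Agent.N685.FD.Stm4

/-!
# Project FD (helper685), part 4: lower bounds for the levels and for the pressure (helper769)
-/

set_option autoImplicit false

namespace Pool.Agent.N685.FD

open Finset

namespace Levl

lemma p_prime {p : ℕ} {d : ℤ} (hA : Adm p d) : p.Prime := by
  rcases hA.1 with rfl | rfl <;> norm_num

lemma p_ge {p : ℕ} {d : ℤ} (hA : Adm p d) : 3 ≤ p := by
  rcases hA.1 with rfl | rfl <;> norm_num

lemma not_dvd {p : ℕ} {d : ℤ} (hA : Adm p d) {m : ℤ} (hm : ¬ (p : ℤ) ∣ m) (J : ℕ) :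
    ¬ (p : ℤ) ∣ 2 ^ J * m := by
  intro h
  have hp : Prime (p : ℤ) := Nat.prime_iff_prime_int.1 (p_prime hA)
  rcases hp.dvd_or_dvd h with h1 | h1
  · have h2 := hp.dvd_of_dvd_pow h1
    have h3 := p_ge hA
    have h4 := Int.le_of_dvd (by norm_num) h2
    omega
  · exact hm h1

/-- the levels are finite -/
lemma LM_fin {p : ℕ} {d : ℤ} (hA : Adm p d) (A : Set ℤ) (c : ℤ) (hc : ∀ y ∈ A, y ≤ c) (k : ℕ) :
    (LM p d A k).Finite := by
  obtain ⟨K, hK⟩ := hit_size hA (η := 1) one_pos A hc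
  have h1 : LM p d A k ⊆ Set.Icc 1 ⌈Real.exp (k * Real.log 2 + 1 * k + K)⌉ := by
    rintro n ⟨hn, hn2, hn3⟩
    have h2 := hK k (oT p d k n) n ⟨hn, hn2, hn3, rfl⟩
    refine ⟨hn, ?_⟩
    have h3 := (abs_le.1 h2).2
    have h4 : 0 ≤ (oT p d k n : ℝ) * Real.log p :=
      mul_nonneg (Nat.cast_nonneg _) (Real.log_natCast_nonneg _)
    have hn0 : (0 : ℝ) < n := by exact_mod_cast (by omega : 0 < n)
    have h5 : Real.log n ≤ k * Real.log 2 + 1 * k + K := by linarith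
    have h6 : (n : ℝ) ≤ Real.exp (k * Real.log 2 + 1 * k + K) := by
      rw [← Real.exp_log hn0]
      exact Real.exp_le_exp.2 h5
    exact_mod_cast h6.trans (Int.le_ceil _)
  exact (Set.finite_Icc _ _).subset h1

lemma zp_pos {p : ℕ} (hp : 0 < p) (θ : ℝ) : 0 < zp p θ := by
  unfold zp
  have hp' : (0 : ℝ) < p := by exact_mod_cast hp
  positivity

lemma zp_lt {p : ℕ} (hp : 0 < p) (θ : ℝ) : zp p θ < 1 := by
  unfold zp
  have hp' : (0 : ℝ) < p := by exact_mod_cast hp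
  have h : 0 < (p : ℝ) ^ (-θ) := by positivity
  rw [div_lt_one (by positivity)]
  linarith

lemma log_MM {p : ℕ} (hp : 0 < p) (θ : ℝ) :
    Real.log (MM p θ) = -Real.log (zp p θ) + (θ - 1) * Real.log 2 := by
  have hp' : (0 : ℝ) < p := by exact_mod_cast hp
  have h3 : (0 : ℝ) < (p : ℝ) ^ (-θ) := by positivity
  have e : MM p θ = (zp p θ)⁻¹ * (2 : ℝ) ^ (θ - 1) := by
    have e1 : (2 : ℝ) ^ (θ - 1) = (2 : ℝ) ^ θ / 2 := by
      rw [Real.rpow_sub (by norm_num), Real.rpow_one]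
    have e2 : (2 / p : ℝ) ^ θ = (2 : ℝ) ^ θ * (p : ℝ) ^ (-θ) := by
      rw [Real.div_rpow (by norm_num) hp'.le, Real.rpow_neg hp'.le]
      rfl
    unfold MM zp
    rw [e1, e2]
    field_simp
  rw [e, Real.log_mul (inv_pos.2 (zp_pos hp θ)).ne' (by positivity), Real.log_inv,
    Real.log_rpow (by norm_num)]

lemma ident {p : ℕ} (hp : 0 < p) (θ : ℝ) :
    Fp p (1 - zp p θ) + (θ - 1) * (Real.log 2 - (1 - zp p θ) * Real.log p) =
      Real.log (MM p θ) := by
  have hp' : (0 : ℝ) < p := by exact_mod_cast hp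
  have h3 : (0 : ℝ) < (p : ℝ) ^ (-θ) := by positivity
  have hz := zp_pos hp θ
  have hz1 := zp_lt hp θ
  have hr : 1 - zp p θ = (p : ℝ) ^ (-θ) * zp p θ := by
    unfold zp
    field_simp
    ring
  have hlr : Real.log (1 - zp p θ) = -θ * Real.log p + Real.log (zp p θ) := by
    rw [hr, Real.log_mul h3.ne' hz.ne', Real.log_rpow hp']
  rw [log_MM hp]
  unfold Fp Real.binEntropy
  rw [Real.log_inv, Real.log_inv, hlr, sub_sub_cancel]
  ring

end Levl

open Levl

theorem t_LEVL : S_LEVL := by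
  classical
  intro p d hA A c hc m hm hpm hmA r hr0 hr1 hF hrp δ hδ
  have hp3 := p_ge hA
  have hpR : (3 : ℝ) ≤ p := by exact_mod_cast hp3
  have hLp : 0 < Real.log p := Real.log_pos (by linarith)
  have hL2 : 0 < Real.log 2 := Real.log_pos (by norm_num)
  obtain ⟨J, hJ⟩ : ∃ J : ℕ, J = c.toNat := ⟨_, rfl⟩
  obtain ⟨m', hm'⟩ : ∃ m' : ℤ, m' = 2 ^ J * m := ⟨_, rfl⟩
  have hJ2 : (J : ℤ) < 2 ^ J := by exact_mod_cast Nat.lt_two_pow_self
  have hm'1 : (2 : ℤ) ^ J ≤ m' := by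
    rw [hm']
    have : (0 : ℤ) < 2 ^ J := by positivity
    nlinarith
  have hcm : c < m' := by omega
  have hm1 : 1 ≤ m' := by omega
  have hpm' : ¬ (p : ℤ) ∣ m' := by
    rw [hm']
    exact not_dvd hA hpm J
  have hex : ∃ j, (T p d)^[j] m' ∈ A := ⟨J, by rw [hm', LOW.T_pow']; exact hmA⟩
  obtain ⟨j0, hj0⟩ : ∃ j0, j0 = Nat.find hex := ⟨_, rfl⟩
  have hj0A : (T p d)^[j0] m' ∈ A := by rw [hj0]; exact Nat.find_spec hex
  have hj0m : ∀ i < j0, (T p d)^[i] m' ∉ A := fun i hi => by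
    rw [hj0] at hi
    exact Nat.find_min hex hi
  have hj0J : j0 ≤ J := by
    rw [hj0]
    exact Nat.find_min' hex (by rw [hm', LOW.T_pow']; exact hmA)
  obtain ⟨δ', hδ'⟩ : ∃ δ' : ℝ, δ' = δ / (2 * (1 + Real.log p)) := ⟨_, rfl⟩
  have hδ'0 : 0 < δ' := by rw [hδ']; positivity
  have hδ'e : δ' * (1 + Real.log p) = δ / 2 := by
    rw [hδ']
    field_simp
  have hδ'2 : δ' ≤ δ / 2 := by nlinarith
  obtain ⟨k₁, hk₁⟩ := low_main p d hA r hr0 hr1 hF hrp m' hm1 hpm' δ' hδ'0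
  obtain ⟨K, hK⟩ := size_main p d hA δ' hδ'0 m' hm1
  refine ⟨k₁ + J + ⌈2 * (|K| + J * (Real.log 2 + Real.log p) + Fp p r * J) / δ⌉₊, fun k hk => ?_⟩
  have hkk : 2 * (|K| + J * (Real.log 2 + Real.log p) + Fp p r * J) / δ ≤ k :=
    (Nat.le_ceil _).trans (by exact_mod_cast (by omega :
      ⌈2 * (|K| + J * (Real.log 2 + Real.log p) + Fp p r * J) / δ⌉₊ ≤ k))
  rw [div_le_iff₀ hδ] at hkk
  have hJR : (0 : ℝ) ≤ J := Nat.cast_nonneg J
  have hJ3 : 0 ≤ (J : ℝ) * (Real.log 2 + Real.log p) := by positivity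
  have hJ4 : 0 ≤ Fp p r * J := by positivity
  have hK0 := abs_nonneg K
  have hkj : j0 ≤ k := by omega
  obtain ⟨o, F, ho, hcard, hmem⟩ := hk₁ (k - j0) (by omega)
  have hkc : ((k - j0 : ℕ) : ℝ) = k - j0 := Nat.cast_sub hkj
  have hj0R : (j0 : ℝ) ≤ J := by exact_mod_cast hj0J
  have hj00 : (0 : ℝ) ≤ j0 := Nat.cast_nonneg _
  rw [hkc] at ho hcard
  refine ⟨F, le_trans (Real.exp_le_exp.2 ?_) hcard, fun n hn => ?_⟩
  · have h1 : Fp p r * j0 ≤ Fp p r * J := mul_le_mul_of_nonneg_left hj0R hF.le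
    have h2 : 0 ≤ δ' * j0 := by positivity
    have h3 : 0 ≤ (δ / 2 - δ') * k := mul_nonneg (by linarith) (Nat.cast_nonneg k)
    nlinarith
  · obtain ⟨hnL, hnT⟩ := hmem n hn
    have hsz := hK _ _ n hnL
    rw [hkc] at hsz
    obtain ⟨hn1, hn2, -, -⟩ := hnL
    refine ⟨⟨hn1, fun j hj => ?_, ?_⟩, ?_⟩
    · rcases Nat.lt_or_ge j (k - j0) with h | h
      · have h1 := hn2 j h
        intro h2
        have h3 := hc _ h2
        omega
      · obtain ⟨i, rfl⟩ := Nat.exists_eq_add_of_le h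
        rw [add_comm, Function.iterate_add_apply, hnT]
        exact hj0m i (by omega)
    · have e : k = j0 + (k - j0) := by omega
      rw [e, Function.iterate_add_apply, hnT]
      exact hj0A
    · have e : Real.log n - (Real.log 2 - r * Real.log p) * k =
          (Real.log n - ((k - j0 : ℝ) * Real.log 2 - o * Real.log p)) -
            ((o - r * (k - j0 : ℝ)) * Real.log p + j0 * (Real.log 2 - r * Real.log p)) := by ring
      rw [e]
      refine (abs_sub _ _).trans ?_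
      have h1 : |(o - r * (k - j0 : ℝ)) * Real.log p + j0 * (Real.log 2 - r * Real.log p)| ≤
          δ' * (k - j0 : ℝ) * Real.log p + j0 * (Real.log 2 - r * Real.log p) := by
        refine (abs_add_le _ _).trans ?_
        rw [abs_mul, abs_of_pos hLp, abs_of_nonneg (mul_nonneg hj00 (by linarith))]
        exact add_le_add (mul_le_mul_of_nonneg_right ho hLp.le) le_rfl
      have h2 : (j0 : ℝ) * (Real.log 2 - r * Real.log p) ≤ J * (Real.log 2 + Real.log p) := by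
        have h3 : 0 ≤ r * Real.log p := by positivity
        calc (j0 : ℝ) * (Real.log 2 - r * Real.log p) ≤ j0 * (Real.log 2 + Real.log p) :=
              mul_le_mul_of_nonneg_left (by linarith) hj00
          _ ≤ J * (Real.log 2 + Real.log p) := mul_le_mul_of_nonneg_right hj0R (by linarith)
      have h4 := le_abs_self K
      have h5 : δ' * (k - j0 : ℝ) * (1 + Real.log p) ≤ δ / 2 * k := by
        calc δ' * (k - j0 : ℝ) * (1 + Real.log p) = (δ' * (1 + Real.log p)) * (k - j0 : ℝ) := by ring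
          _ = δ / 2 * (k - j0 : ℝ) := by rw [hδ'e]
          _ ≤ δ / 2 * k := by
            refine mul_le_mul_of_nonneg_left ?_ (by positivity)
            linarith
      linarith

theorem t_PRL : S_PRL := by
  classical
  intro p d hA A c hc m hm hpm hmA θ hF hrp ε hε
  have hp3 := p_ge hA
  have hp0 : 0 < p := by omega
  have hz0 := zp_pos hp0 θ
  have hz1 := zp_lt hp0 θ
  obtain ⟨δ, hδ⟩ : ∃ δ : ℝ, δ = ε / (1 + |θ - 1|) := ⟨_, rfl⟩
  have hθ0 := abs_nonneg (θ - 1)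
  have hδ0 : 0 < δ := by rw [hδ]; positivity
  have hδe : δ * (1 + |θ - 1|) = ε := by
    rw [hδ]
    field_simp
  obtain ⟨k₀, hk₀⟩ := t_LEVL p d hA A c hc m hm hpm hmA (1 - zp p θ) (by linarith) (by linarith) hF
    hrp δ hδ0
  refine ⟨k₀, fun k hk => ?_⟩
  obtain ⟨F, hcard, hmem⟩ := hk₀ k hk
  have hfin := LM_fin hA A c hc k
  have hkn : (0 : ℝ) ≤ k := Nat.cast_nonneg k
  unfold PrS
  rw [finsum_mem_eq_finite_toFinset_sum _ hfin]
  have hsub : F ⊆ hfin.toFinset := fun n hn => hfin.mem_toFinset.2 (hmem n hn).1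
  have hpos : ∀ n ∈ hfin.toFinset, 0 ≤ (n : ℝ) ^ (θ - 1) := by
    intro n hn
    have h1 : 1 ≤ n := (hfin.mem_toFinset.1 hn).1
    have h2 : (0 : ℝ) < n := by exact_mod_cast (by omega : 0 < n)
    positivity
  refine le_trans ?_ (sum_le_sum_of_subset_of_nonneg hsub fun n hn _ => hpos n hn)
  have hterm : ∀ n ∈ F, Real.exp ((θ - 1) * ((Real.log 2 - (1 - zp p θ) * Real.log p) * k) -
      |θ - 1| * (δ * k)) ≤ (n : ℝ) ^ (θ - 1) := by
    intro n hn
    obtain ⟨h1, h2⟩ := hmem n hn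
    have h3 : 1 ≤ n := h1.1
    have h4 : (0 : ℝ) < n := by exact_mod_cast (by omega : 0 < n)
    rw [Real.rpow_def_of_pos h4]
    apply Real.exp_le_exp.2
    have h5 : |(θ - 1) * (Real.log n - (Real.log 2 - (1 - zp p θ) * Real.log p) * k)| ≤
        |θ - 1| * (δ * k) := by
      rw [abs_mul]
      exact mul_le_mul_of_nonneg_left h2 hθ0
    have h6 := (abs_le.1 h5).1
    linarith
  refine le_trans ?_ (sum_le_sum hterm)
  rw [sum_const, nsmul_eq_mul]
  refine le_trans ?_ (mul_le_mul_of_nonneg_right hcard (Real.exp_pos _).le)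
  rw [← Real.exp_add]
  apply Real.exp_le_exp.2
  rw [← ident hp0 θ]
  have h7 : ε * k = δ * k + |θ - 1| * (δ * k) := by
    rw [← hδe]
    ring
  linarith

end Pool.Agent.N685.FD
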