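import Pool.Agent.N685.FD.Stm4

/-!
PROJECT FD (helper685), part 4, LEVU: the levels are finite; upper bounds for the numbers of their small and
large members.  By helper488.
-/

set_option autoImplicit false
set_option linter.unusedVariables false

namespace Pool.Agent.N685.FD

open Finset

namespace Levu

/-- the levels are the unions of the sets with a given number of odd steps -/
theorem mem_ht {p : ℕ} {d : ℤ} {A : Set ℤ} {k : ℕ} {n : ℤ} (h : n ∈ LM p d A k) :
    n ∈ HT p d A k (oT p d k n) := ⟨h.1, h.2.1, h.2.2, rfl⟩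

theorem ot_le (p : ℕ) (d : ℤ) (j : ℕ) (n : ℤ) : oT p d j n ≤ j := by
  unfold oT
  exact (card_filter_le _ _).trans (by rw [card_range])

theorem lm_finite {p : ℕ} {d : ℤ} (hA : Adm p d) (A : Set ℤ) {c : ℤ} (hF : ∀ y ∈ A, y ≤ c) (k : ℕ) :
    (LM p d A k).Finite := by
  obtain ⟨K, hK⟩ := hit_size hA (η := 1) one_pos A hF
  have hp : 0 ≤ Real.log p := Real.log_natCast_nonneg p
  refine (Set.finite_Icc (1 : ℤ) ⌊Real.exp (k * Real.log 2 + (k + K))⌋).subset fun n hn => ?_
  have h1 := hK k _ n (mem_ht hn)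
  refine ⟨hn.1, Int.le_floor.2 ?_⟩
  have hn0 : (0 : ℝ) < n := by
    have : (0 : ℤ) < n := lt_of_lt_of_le one_pos hn.1
    exact_mod_cast this
  rw [← Real.log_le_iff_le_exp hn0]
  have h2 := (abs_le.1 h1).2
  have h3 : 0 ≤ (oT p d k n : ℝ) * Real.log p := mul_nonneg (Nat.cast_nonneg _) hp
  linarith

theorem core {p : ℕ} {d : ℤ} {A : Set ℤ} {z b C ε : ℝ} (hC : 0 < C)
    (hup : ∀ (k o : ℕ), (HT p d A k o).Finite ∧
      ((HT p d A k o).ncard : ℝ) ≤ C * Real.exp (ε * k + k * (-Real.log z) + o * b))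
    {R : ℝ} (k : ℕ) (S : Set ℤ)
    (hS : ∀ n ∈ S, n ∈ LM p d A k ∧ (oT p d k n : ℝ) * b ≤ R) :
    (S.ncard : ℝ) ≤ ((k : ℝ) + 1) * (C * Real.exp (ε * k + k * (-Real.log z) + R)) := by
  classical
  set F : Finset ℕ := (range (k + 1)).filter fun o => (o : ℝ) * b ≤ R with hF
  set U : Finset ℤ := F.biUnion fun o => (hup k o).1.toFinset with hU
  have hsub : S ⊆ (U : Set ℤ) := by
    intro n hn
    obtain ⟨h1, h2⟩ := hS n hn
    rw [hU, Finset.mem_coe, mem_biUnion]
    refine ⟨oT p d k n, ?_, ?_⟩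
    · rw [hF, mem_filter, mem_range]
      exact ⟨Nat.lt_succ_of_le (ot_le p d k n), h2⟩
    · rw [Set.Finite.mem_toFinset]
      exact mem_ht h1
  have h1 : S.ncard ≤ U.card := by
    have := Set.ncard_le_ncard hsub U.finite_toSet
    rwa [Set.ncard_coe_finset] at this
  have h2 : U.card ≤ ∑ o ∈ F, (HT p d A k o).ncard := by
    refine card_biUnion_le.trans (sum_le_sum fun o _ => ?_)
    exact (Set.ncard_eq_toFinset_card _ (hup k o).1).ge
  have h3 : (S.ncard : ℝ) ≤ ∑ o ∈ F, ((HT p d A k o).ncard : ℝ) := by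
    exact_mod_cast h1.trans h2
  refine h3.trans ?_
  calc ∑ o ∈ F, ((HT p d A k o).ncard : ℝ)
      ≤ ∑ o ∈ F, C * Real.exp (ε * k + k * (-Real.log z) + R) := by
        refine sum_le_sum fun o ho => ((hup k o).2.trans ?_)
        rw [hF, mem_filter] at ho
        gcongr
        exact ho.2
    _ = F.card * (C * Real.exp (ε * k + k * (-Real.log z) + R)) := by
        rw [sum_const, nsmul_eq_mul]
    _ ≤ ((k : ℝ) + 1) * (C * Real.exp (ε * k + k * (-Real.log z) + R)) := by
        have : F.card ≤ k + 1 := by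
          refine (card_filter_le _ _).trans ?_
          rw [card_range]
        have h4 : (F.card : ℝ) ≤ (k : ℝ) + 1 := by exact_mod_cast this
        gcongr

theorem ev (D : ℝ) {ε : ℝ} (hε : 0 < ε) : ∃ k₀ : ℕ, ∀ k : ℕ, k₀ ≤ k →
    ((k : ℝ) + 1) * D ≤ Real.exp (ε * k) := by
  obtain ⟨k₀, hk₀⟩ := exists_nat_ge (4 * |D| / ε ^ 2)
  refine ⟨max 1 k₀, fun k hk => ?_⟩
  have hk1 : (1 : ℝ) ≤ k := by exact_mod_cast (le_max_left _ _).trans hk
  have hk2 : 4 * |D| / ε ^ 2 ≤ k := hk₀.trans (by exact_mod_cast (le_max_right _ _).trans hk)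
  rw [div_le_iff₀ (by positivity)] at hk2
  have h1 := Real.quadratic_le_exp_of_nonneg (show 0 ≤ ε * k by positivity)
  have h2 : ((k : ℝ) + 1) * D ≤ 2 * k * |D| := by
    have h3 := le_abs_self D
    have h4 := abs_nonneg D
    nlinarith
  have h3 : 2 * (k : ℝ) * |D| ≤ (ε * k) ^ 2 / 2 := by nlinarith
  have h4 : 0 ≤ ε * (k : ℝ) := by positivity
  linarith

end Levu

open Levu in
theorem t_LEVU : S_LEVU := by
  intro p d hA A c hF
  refine ⟨lm_finite hA A hF, fun z hz ρ hρ ε hε => ?_⟩
  have hp : 0 < Real.log p := by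
    have h1 : (1 : ℝ) < p := by
      rcases hA.1 with rfl | rfl <;> norm_num
    exact Real.log_pos h1
  obtain ⟨b, hb⟩ : ∃ b : ℝ, b = -Real.log (tt p z) := ⟨_, rfl⟩
  obtain ⟨C, hC, hup⟩ := hit_upper hA hz A hF (ε := ε / 3) (by positivity)
  rw [← hb] at hup
  have hη : 0 < ε * Real.log p / (3 * (|b| + 1)) := by positivity
  obtain ⟨η, hηd⟩ : ∃ η : ℝ, η = ε * Real.log p / (3 * (|b| + 1)) := ⟨_, rfl⟩
  rw [← hηd] at hη
  obtain ⟨K, hK⟩ := hit_size hA hη A hF
  have hηb : |b| / Real.log p * η ≤ ε / 3 := by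
    rw [hηd]
    have h1 : |b| / Real.log p * (ε * Real.log p / (3 * (|b| + 1))) =
        ε / 3 * (|b| / (|b| + 1)) := by
      field_simp
    rw [h1]
    have h2 : |b| / (|b| + 1) ≤ 1 := by
      rw [div_le_one (by positivity)]
      linarith
    have h3 : 0 < ε / 3 := by positivity
    nlinarith
  obtain ⟨k₀, hk₀⟩ := ev (C * Real.exp (|b| / Real.log p * K)) (show 0 < ε / 3 by positivity)
  have fin : ∀ k : ℕ, k₀ ≤ k → ∀ S : Set ℤ, (∀ n ∈ S, n ∈ LM p d A k ∧
      (oT p d k n : ℝ) * b ≤ ρ * k * b + |b| / Real.log p * (η * k + K)) →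
      (S.ncard : ℝ) ≤ Real.exp ((php p ρ z + ε) * k) := by
    intro k hk S hS
    refine (core hC hup k S hS).trans ?_
    have hkn : (0 : ℝ) ≤ k := Nat.cast_nonneg k
    have e1 : ((k : ℝ) + 1) * (C * Real.exp (ε / 3 * k + k * (-Real.log z) +
        (ρ * k * b + |b| / Real.log p * (η * k + K)))) =
        (((k : ℝ) + 1) * (C * Real.exp (|b| / Real.log p * K))) *
          Real.exp (ε / 3 * k + k * (-Real.log z) + ρ * k * b + |b| / Real.log p * η * k) := by
      have e2 : ε / 3 * k + k * (-Real.log z) + (ρ * k * b + |b| / Real.log p * (η * k + K)) =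
          |b| / Real.log p * K + (ε / 3 * k + k * (-Real.log z) + ρ * k * b +
            |b| / Real.log p * η * k) := by ring
      rw [e2, Real.exp_add]
      ring
    rw [e1]
    refine (mul_le_mul_of_nonneg_right (hk₀ k hk) (Real.exp_pos _).le).trans ?_
    rw [← Real.exp_add]
    apply Real.exp_le_exp.2
    have h3 := mul_le_mul_of_nonneg_right hηb hkn
    unfold php
    rw [← hb]
    linarith
  refine ⟨k₀, fun k hk => ⟨fun ht => fin k hk _ ?_, fun ht => fin k hk _ ?_⟩⟩
  · rintro n ⟨h1, h2⟩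
    refine ⟨h1, ?_⟩
    have h3 := (abs_le.1 (hK k _ n (mem_ht h1))).1
    have hb0 : b ≤ 0 := by
      rw [hb]
      have := Real.log_nonneg ht
      linarith
    have h4 : ρ * k * Real.log p - (η * k + K) ≤ oT p d k n * Real.log p := by linarith
    have h5 : ρ * k - (η * k + K) / Real.log p ≤ oT p d k n := by
      have e : ρ * k - (η * k + K) / Real.log p =
          (ρ * k * Real.log p - (η * k + K)) / Real.log p := by
        field_simp
      rw [e, div_le_iff₀ hp]
      exact h4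
    have h6 := mul_le_mul_of_nonpos_right h5 hb0
    have e : (ρ * k - (η * k + K) / Real.log p) * b =
        ρ * k * b + |b| / Real.log p * (η * k + K) := by
      rw [abs_of_nonpos hb0]
      ring
    rw [e] at h6
    exact h6
  · rintro n ⟨h1, h2⟩
    refine ⟨h1, ?_⟩
    have h3 := (abs_le.1 (hK k _ n (mem_ht h1))).2
    have hz0 := hz.1
    have hz1 := hz.2.1
    have htp : 0 < tt p z := by
      have h9 : (1 : ℝ) < p := by
        rcases hA.1 with rfl | rfl <;> norm_num
      unfold tt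
      have : 0 < 1 - z := by linarith
      positivity
    have hb0 : 0 ≤ b := by
      rw [hb]
      have := Real.log_nonpos htp.le ht
      linarith
    have h4 : oT p d k n * Real.log p ≤ ρ * k * Real.log p + (η * k + K) := by linarith
    have h5 : (oT p d k n : ℝ) ≤ ρ * k + (η * k + K) / Real.log p := by
      have e : ρ * k + (η * k + K) / Real.log p =
          (ρ * k * Real.log p + (η * k + K)) / Real.log p := by
        field_simp
      rw [e, le_div_iff₀ hp]
      exact h4
    have h6 := mul_le_mul_of_nonneg_right h5 hb0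
    have e : (ρ * k + (η * k + K) / Real.log p) * b =
        ρ * k * b + |b| / Real.log p * (η * k + K) := by
      rw [abs_of_nonneg hb0]
      ring
    rw [e] at h6
    exact h6

end Pool.Agent.N685.FD
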