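import Pool.Agent.N685.FD.Stm4

/-!
PROJECT FD (helper685), part 4: upper bounds for the pressure of the levels (helper954).
-/

set_option autoImplicit false

namespace Pool.Agent.N685.FD

open Finset

namespace PruAux

theorem zp_pos {p : ℕ} (hp : 0 < (p : ℝ)) (θ : ℝ) : 0 < zp p θ := by
  unfold zp; positivity

theorem log_tt {p : ℕ} (hp : 0 < (p : ℝ)) (θ : ℝ) :
    Real.log (tt p (zp p θ)) = (1 - θ) * Real.log p := by
  have h1 : tt p (zp p θ) = (p : ℝ) ^ (1 - θ) := by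
    unfold tt zp
    have h2 : 0 < (p : ℝ) ^ (-θ) := by positivity
    rw [show (1 - θ) = 1 + (-θ) by ring, Real.rpow_add hp, Real.rpow_one]
    field_simp
    ring
  rw [h1, Real.log_rpow hp]

theorem log_MM {p : ℕ} (hp : 0 < (p : ℝ)) (θ : ℝ) :
    Real.log (MM p θ) = -Real.log (zp p θ) + (θ - 1) * Real.log 2 := by
  have h1 : MM p θ = (2 : ℝ) ^ (θ - 1) / zp p θ := by
    unfold MM zp
    rw [Real.div_rpow (by norm_num) hp.le, Real.rpow_sub (by norm_num), Real.rpow_one,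
      Real.rpow_neg hp.le]
    have h2 : 0 < (p : ℝ) ^ θ := by positivity
    field_simp
  rw [h1, Real.log_div (by positivity) (zp_pos hp θ).ne', Real.log_rpow (by norm_num)]
  ring

/-- linear functions are at most exponential functions -/
theorem lin_exp {ε : ℝ} (hε : 0 < ε) (D : ℝ) (hD : 0 ≤ D) :
    ∃ k₀ : ℕ, ∀ k : ℕ, k₀ ≤ k → ((k : ℝ) + 1) * D ≤ Real.exp (ε * k) := by
  refine ⟨⌈2 / ε * ((2 / ε + 1) * D)⌉₊, fun k hk => ?_⟩
  have hk' : 2 / ε * ((2 / ε + 1) * D) ≤ k := Nat.ceil_le.1 hk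
  have hk0 : (0 : ℝ) ≤ k := Nat.cast_nonneg k
  have h1 : ε / 2 * k + 1 ≤ Real.exp (ε / 2 * k) := Real.add_one_le_exp _
  have h2 : (k : ℝ) + 1 ≤ (2 / ε + 1) * (ε / 2 * k + 1) := by
    have : (2 / ε + 1) * (ε / 2 * k + 1) = k + 1 + (2 / ε + ε / 2 * k) := by field_simp; ring
    rw [this]
    have : 0 ≤ 2 / ε + ε / 2 * k := by positivity
    linarith
  have h3 : (2 / ε + 1) * D ≤ ε / 2 * k := by
    have h4 : (2 / ε + 1) * D = ε / 2 * (2 / ε * ((2 / ε + 1) * D)) := by field_simp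
    rw [h4]
    exact mul_le_mul_of_nonneg_left hk' (by positivity)
  have h4 : (2 / ε + 1) * D ≤ Real.exp (ε / 2 * k) := by linarith
  calc ((k : ℝ) + 1) * D ≤ ((2 / ε + 1) * (ε / 2 * k + 1)) * D := mul_le_mul_of_nonneg_right h2 hD
    _ = (ε / 2 * k + 1) * ((2 / ε + 1) * D) := by ring
    _ ≤ Real.exp (ε / 2 * k) * Real.exp (ε / 2 * k) :=
        mul_le_mul h1 h4 (by positivity) (Real.exp_pos _).le
    _ = Real.exp (ε * k) := by rw [← Real.exp_add]; congr 1; ring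

theorem mem_HT {p : ℕ} {d : ℤ} {A : Set ℤ} {k : ℕ} {n : ℤ} (h : n ∈ LM p d A k) :
    n ∈ HT p d A k (oT p d k n) := ⟨h.1, h.2.1, h.2.2, rfl⟩

/-- members of the levels are bounded -/
theorem bdd {p : ℕ} {d : ℤ} (hA : Adm p d) {η : ℝ} (hη : 0 < η) (A : Set ℤ) {c : ℤ}
    (hF : ∀ y ∈ A, y ≤ c) : ∃ K : ℝ, ∀ (k : ℕ) (n : ℤ), n ∈ LM p d A k →
    |Real.log n - (k * Real.log 2 - oT p d k n * Real.log p)| ≤ η * k + K ∧
    Real.log n ≤ k * (Real.log 2 + η) + K := by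
  obtain ⟨K, hK⟩ := hit_size hA hη A hF
  refine ⟨K, fun k n hn => ?_⟩
  have h1 := hK k _ n (mem_HT hn)
  refine ⟨h1, ?_⟩
  have h2 := (abs_le.1 h1).2
  have h3 : 0 ≤ (oT p d k n : ℝ) * Real.log p :=
    mul_nonneg (Nat.cast_nonneg _) (UL.p_facts hA.1).2.1.le
  linarith

theorem LM_sub {p : ℕ} {d : ℤ} (hA : Adm p d) (A : Set ℤ) {c : ℤ}
    (hF : ∀ y ∈ A, y ≤ c) : ∃ K : ℝ, 0 ≤ K ∧ ∀ k : ℕ,
    LM p d A k ⊆ ((Finset.Icc (1 : ℤ) ((⌊Real.exp (k * (Real.log 2 + 1) + K)⌋₊ : ℕ) : ℤ) : Finset ℤ) : Set ℤ) := by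
  obtain ⟨K, hK⟩ := bdd hA one_pos A hF
  refine ⟨|K|, abs_nonneg _, fun k n hn => ?_⟩
  have h1 := (hK k n hn).2
  have hn1 : 1 ≤ n := hn.1
  have hn0 : (0 : ℝ) < n := by exact_mod_cast (by omega : 0 < n)
  rw [Finset.mem_coe, Finset.mem_Icc]
  refine ⟨hn1, ?_⟩
  have h2 : (n : ℝ) ≤ Real.exp (k * (Real.log 2 + 1) + |K|) := by
    rw [← Real.log_le_iff_le_exp hn0]
    have := le_abs_self K
    linarith
  have h3 : ((n.toNat : ℕ) : ℝ) = n := by
    have : ((n.toNat : ℕ) : ℤ) = n := Int.toNat_of_nonneg (by omega)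
    exact_mod_cast congrArg (fun m : ℤ => (m : ℝ)) this
  have h4 : n.toNat ≤ ⌊Real.exp (k * (Real.log 2 + 1) + |K|)⌋₊ := by
    apply Nat.le_floor
    rw [h3]; exact h2
  omega

theorem LM_fin {p : ℕ} {d : ℤ} (hA : Adm p d) (A : Set ℤ) {c : ℤ}
    (hF : ∀ y ∈ A, y ≤ c) (k : ℕ) : (LM p d A k).Finite := by
  obtain ⟨K, -, hK⟩ := LM_sub hA A hF
  exact (Finset.finite_toSet _).subset (hK k)

theorem PrS_eq {p : ℕ} {d : ℤ} (A : Set ℤ) (θ : ℝ) (k : ℕ) (h : (LM p d A k).Finite) :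
    PrS p d A θ k = ∑ n ∈ h.toFinset, (n : ℝ) ^ (θ - 1) := by
  unfold PrS
  exact finsum_mem_eq_finite_toFinset_sum _ h

end PruAux

open PruAux

/-- the upper bound for the pressure -/
theorem t_PRU : S_PRU := by
  intro p d hA A c hF θ hQ ε hε
  have hp1 := (UL.p_facts hA.1).1
  have hp0 : (0 : ℝ) < p := by linarith
  set η : ℝ := ε / (4 * (|θ - 1| + 1)) with hη
  have hθ0 := abs_nonneg (θ - 1)
  have hη0 : 0 < η := by positivity
  have hηθ : |θ - 1| * η ≤ ε / 4 := by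
    have : η * (|θ - 1| + 1) = ε / 4 := by rw [hη]; field_simp
    nlinarith
  obtain ⟨K, hK⟩ := bdd hA hη0 A hF
  obtain ⟨C, hC, hup⟩ := hit_upper hA hQ A hF (show 0 < ε / 4 by positivity)
  obtain ⟨k₀, hk₀⟩ := lin_exp (show 0 < ε / 2 by positivity) (C * Real.exp (|θ - 1| * K)) (by positivity)
  refine ⟨k₀, fun k hk => ?_⟩
  have hkn : (0 : ℝ) ≤ k := Nat.cast_nonneg k
  classical
  have hfin := LM_fin hA A hF k
  rw [PrS_eq A θ k hfin]
  set F := hfin.toFinset with hFd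
  have hmem : ∀ n ∈ F, n ∈ LM p d A k := fun n hn => hfin.mem_toFinset.1 hn
  have hmaps : ∀ n ∈ F, oT p d k n ∈ range (k + 1) := fun n _ =>
    mem_range.2 (by have := UL.oT_le p d k n; omega)
  rw [← sum_fiberwise_of_maps_to hmaps]
  set L : ℝ := Real.log (MM p θ) with hL
  have hterm : ∀ o ∈ range (k + 1), ∑ n ∈ F.filter (fun n => oT p d k n = o), (n : ℝ) ^ (θ - 1) ≤
      C * Real.exp (ε / 4 * k + L * k + |θ - 1| * (η * k + K)) := by
    intro o ho
    have h1 : ∀ n ∈ F.filter (fun n => oT p d k n = o), (n : ℝ) ^ (θ - 1) ≤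
        Real.exp ((θ - 1) * (k * Real.log 2 - o * Real.log p) + |θ - 1| * (η * k + K)) := by
      intro n hn
      have hn' := hmem n (mem_filter.1 hn).1
      have hb := (hK k n hn').1
      rw [(mem_filter.1 hn).2] at hb
      have hn1 : 1 ≤ n := hn'.1
      have hn0 : (0 : ℝ) < n := by exact_mod_cast (by omega : 0 < n)
      rw [Real.rpow_def_of_pos hn0]
      apply Real.exp_le_exp.2
      have h2 : (θ - 1) * (Real.log n - (k * Real.log 2 - o * Real.log p)) ≤ |θ - 1| * (η * k + K) := by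
        refine (le_abs_self _).trans ?_
        rw [abs_mul]
        exact mul_le_mul_of_nonneg_left hb (abs_nonneg _)
      linarith
    have h2 : ((F.filter (fun n => oT p d k n = o)).card : ℝ) ≤ ((HT p d A k o).ncard : ℝ) := by
      rw [← Set.ncard_coe_finset]
      have : ((F.filter (fun n => oT p d k n = o) : Finset ℤ) : Set ℤ) ⊆ HT p d A k o := by
        intro n hn
        rw [mem_coe, mem_filter] at hn
        have h := mem_HT (hmem n hn.1)
        rw [hn.2] at h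
        exact h
      exact_mod_cast Set.ncard_le_ncard this (hup k o).1
    refine (sum_le_sum h1).trans ?_
    rw [sum_const, nsmul_eq_mul]
    refine (mul_le_mul_of_nonneg_right (h2.trans (hup k o).2) (Real.exp_pos _).le).trans ?_
    rw [mul_assoc, ← Real.exp_add]
    apply mul_le_mul_of_nonneg_left _ hC.le
    apply Real.exp_le_exp.2
    rw [log_tt hp0, hL, log_MM hp0]
    apply le_of_eq
    ring
  refine (sum_le_sum hterm).trans ?_
  rw [sum_const, card_range, nsmul_eq_mul]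
  have h5 := hk₀ k hk
  have h6 : ε / 4 * k + L * k + |θ - 1| * (η * k + K) ≤ (ε / 2 * k + L * k) + |θ - 1| * K := by
    have := mul_le_mul_of_nonneg_right hηθ hkn
    nlinarith
  push_cast
  calc ((k : ℝ) + 1) * (C * Real.exp (ε / 4 * k + L * k + |θ - 1| * (η * k + K)))
      ≤ ((k : ℝ) + 1) * (C * Real.exp ((ε / 2 * k + L * k) + |θ - 1| * K)) := by
        gcongr
    _ = (((k : ℝ) + 1) * (C * Real.exp (|θ - 1| * K))) * Real.exp (ε / 2 * k + L * k) := by
        rw [Real.exp_add]; ring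
    _ ≤ Real.exp (ε / 2 * k) * Real.exp (ε / 2 * k + L * k) :=
        mul_le_mul_of_nonneg_right h5 (Real.exp_pos _).le
    _ = Real.exp ((L + ε) * k) := by rw [← Real.exp_add]; congr 1; ring

/-- the upper bound for `θ = 0` -/
theorem t_PRU0 : S_PRU0 := by
  intro p d hA A c hF ε hε
  obtain ⟨K, hK0, hK⟩ := LM_sub hA A hF
  obtain ⟨k₀, hk₀⟩ := lin_exp hε (2 + K) (by positivity)
  refine ⟨k₀, fun k hk => ?_⟩
  have hkn : (0 : ℝ) ≤ k := Nat.cast_nonneg k
  have hfin := LM_fin hA A hF k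
  rw [PrS_eq A 0 k hfin]
  set N : ℕ := ⌊Real.exp (k * (Real.log 2 + 1) + K)⌋₊ with hN
  have hl2 : 0 < Real.log 2 := Real.log_pos (by norm_num)
  have hl2' : Real.log 2 < 1 := by have := Real.log_two_lt_d9; linarith
  have hsub : hfin.toFinset ⊆ Finset.Icc (1 : ℤ) (N : ℤ) := by
    intro n hn
    have := hK k (hfin.mem_toFinset.1 hn)
    rwa [Finset.mem_coe] at this
  have h1 : ∑ n ∈ hfin.toFinset, (n : ℝ) ^ ((0 : ℝ) - 1) ≤ ∑ n ∈ Finset.Icc (1 : ℤ) (N : ℤ), (1 : ℝ) / n := by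
    have h2 : ∑ n ∈ hfin.toFinset, (n : ℝ) ^ ((0 : ℝ) - 1) = ∑ n ∈ hfin.toFinset, (1 : ℝ) / n := by
      refine sum_congr rfl fun n _ => ?_
      rw [zero_sub, Real.rpow_neg_one, one_div]
    rw [h2]
    refine sum_le_sum_of_subset_of_nonneg hsub fun n hn _ => ?_
    have := (Finset.mem_Icc.1 hn).1
    have : (0 : ℝ) < n := by exact_mod_cast (by omega : 0 < n)
    positivity
  refine h1.trans ((UL.harm N).trans ?_)
  have hN1 : 1 ≤ N := by
    apply Nat.le_floor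
    push_cast
    exact Real.one_le_exp (by positivity)
  have h3 : Real.log N ≤ k * (Real.log 2 + 1) + K := by
    have h4 : (N : ℝ) ≤ Real.exp (k * (Real.log 2 + 1) + K) := Nat.floor_le (Real.exp_pos _).le
    rw [Real.log_le_iff_le_exp (by exact_mod_cast hN1)]
    exact h4
  have h5 := hk₀ k hk
  nlinarith

end Pool.Agent.N685.FD
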