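import Pool.Agent.N685.FD.UN
import Pool.Agent.N685.FD.Levu
import Pool.Agent.N685.FD.Levl
import Pool.Agent.N685.FD.Pru
import Pool.Agent.N685.FD.Cntu

/-! Project FD: general `p`, integers of both signs: counts, levels and pressure of the first hitting
time of a finite set, in a form ready for the maps `5x+d`. -/

set_option autoImplicit false
set_option linter.unusedVariables false

namespace Pool.Agent.N685.FD

open Finset Filter Topology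

namespace DG

open UN

/-- the first time at which the trajectory of `n` is in `A` is `k` -/
def HA (p : ℕ) (d : ℤ) (A : Set ℤ) (n : ℤ) (k : ℕ) : Prop :=
  (∀ j < k, (T p d)^[j] n ∉ A) ∧ (T p d)^[k] n ∈ A

/-- the set `s A` -/
def sA (s : ℤ) (A : Set ℤ) : Set ℤ := {y | s * y ∈ A}

theorem HA_sg {p : ℕ} {d s : ℤ} (hA : Adm p d) (hs : Sg s) {A : Set ℤ} {n : ℤ} {k : ℕ} :
    HA p (s * d) (sA s A) (s * n) k ↔ HA p d A n k := by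
  unfold HA sA
  simp only [Set.mem_ofPred_eq, iter_sg hA hs, sg_sq hs]

theorem exists_first {p : ℕ} {d : ℤ} {A : Set ℤ} {n : ℤ} {k : ℕ} (h : (T p d)^[k] n ∈ A) :
    ∃ j ≤ k, HA p d A n j := by
  classical
  have hex : ∃ j, (T p d)^[j] n ∈ A := ⟨k, h⟩
  exact ⟨Nat.find hex, Nat.find_min' hex h, fun j hj => Nat.find_min hex hj, Nat.find_spec hex⟩

theorem bdd {A : Set ℤ} (hA : A.Finite) : ∃ c : ℤ, ∀ s : ℤ, Sg s → ∀ y ∈ sA s A, y ≤ c := by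
  obtain ⟨c, hc⟩ := hA.bddAbove
  obtain ⟨c', hc'⟩ := hA.bddBelow
  refine ⟨max c (-c'), fun s hs y hy => ?_⟩
  rcases hs with rfl | rfl
  · have h1 : 1 * y ∈ A := hy
    rw [one_mul] at h1
    exact (hc h1).trans (le_max_left _ _)
  · have h1 : -1 * y ∈ A := hy
    have h2 : c' ≤ -1 * y := hc' h1
    exact le_trans (by omega) (le_max_right c (-c'))

/-- `A` finite, with an element `m ≠ 0` prime to `p` -/
def Good (p : ℕ) (A : Set ℤ) : Prop := A.Finite ∧ ∃ m ∈ A, m ≠ 0 ∧ ¬ (p : ℤ) ∣ m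

theorem good_sg {p : ℕ} {A : Set ℤ} (h : Good p A) : ∃ s : ℤ, Sg s ∧ ∃ m ∈ sA s A, 1 ≤ m ∧
    ¬ (p : ℤ) ∣ m := by
  obtain ⟨-, m, hm, hm0, hmp⟩ := h
  rcases lt_or_gt_of_ne hm0 with hneg | hpos
  · refine ⟨-1, Or.inr rfl, -m, ?_, by omega, fun h => hmp ((Int.dvd_neg).1 h)⟩
    change -1 * -m ∈ A
    rwa [neg_one_mul, neg_neg]
  · refine ⟨1, Or.inl rfl, m, ?_, by omega, hmp⟩
    change 1 * m ∈ A
    rwa [one_mul]

/-- the integers `n`, `1 ≤ |n| ≤ x`, which hit `A` at a time at most `α log |n|` -/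
def Ct (p : ℕ) (d : ℤ) (A : Set ℤ) (α x : ℝ) : Set ℤ :=
  {n : ℤ | n ≠ 0 ∧ |(n : ℝ)| ≤ x ∧ ∃ k : ℕ, (T p d)^[k] n ∈ A ∧ (k : ℝ) ≤ α * Real.log |(n : ℝ)|}

theorem ct_lower {p : ℕ} {d : ℤ} (hd : Adm p d) {A : Set ℤ} (hA : Good p A) {α : ℝ}
    (h1 : 1 / Real.log 2 < α) (hF : 0 < Fp p (rp p α)) {ε : ℝ} (hε : 0 < ε) :
    ∃ X₀ : ℝ, 1 ≤ X₀ ∧ ∀ x : ℝ, X₀ ≤ x → x ^ (ex p α - ε) ≤ ((Ct p d A α x).ncard : ℝ) := by
  obtain ⟨s, hs, m, hm, hm1, hmp⟩ := good_sg hA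
  obtain ⟨X₀, hX₀, h⟩ := ucb_main p (s * d) (adm_sg hd hs) α h1 hF m hm1 hmp 1 le_rfl ε hε
  refine ⟨X₀, hX₀, fun x hx => ?_⟩
  obtain ⟨F, hF1, hF2⟩ := h x hx
  rw [one_mul] at hF2
  refine lo_of (x := x) hs (fun n hn => hn.2.1) F ?_ hF2
  intro n hn
  obtain ⟨h3, h4, h5, k, h6, h7, h8⟩ := hF1 n hn
  have hn0 : 0 < n := by omega
  have h9 : 0 < s * (s * n) := by rwa [sg_sq hs]
  have h10 : |((s * n : ℤ) : ℝ)| = n := by rw [abs_sg hs h9, sg_sq hs]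
  refine ⟨?_, by rw [h10]; exact h5, k, ?_, ?_⟩
  · intro h0
    rw [h0] at h9
    simp at h9
  · have h11 := iter_sg hd hs k (s * n)
    rw [sg_sq hs, h6] at h11
    have h12 : (T p d)^[k] (s * n) = s * m := by rw [h11, sg_sq hs]
    rw [h12]
    exact hm
  · rw [h10]
    rw [Real.log_one, sub_zero] at h8
    exact h8

theorem ct_upper {p : ℕ} {d : ℤ} (hd : Adm p d) {A : Set ℤ} (hA : A.Finite) {α e : ℝ}
    (h1 : 1 / Real.log 2 < α) (ht : Tight p α e) (he : e < 1) {ε : ℝ} (hε : 0 < ε) :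
    ∃ X₀ : ℝ, 1 ≤ X₀ ∧ ∀ x : ℝ, X₀ ≤ x → ((Ct p d A α x).ncard : ℝ) ≤ x ^ (e + ε) := by
  obtain ⟨c, hc⟩ := bdd hA
  have he1 : 0 < min (ε / 4) ((1 - e) / 2) := lt_min (by positivity) (by linarith)
  obtain ⟨z, hQ, hU⟩ := ht _ he1
  have hU1 : α * php p (rp p α) z < 1 := by
    have := min_le_right (ε / 4) ((1 - e) / 2)
    linarith
  have hU2 : α * php p (rp p α) z ≤ e + ε / 4 := by
    have := min_le_left (ε / 4) ((1 - e) / 2)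
    linarith
  have key : ∀ s : ℤ, Sg s → ∃ X₀ : ℝ, 1 ≤ X₀ ∧ ∀ x : ℝ, X₀ ≤ x →
      (({n : ℤ | 0 < s * n ∧ n ∈ Ct p d A α x}.ncard : ℕ) : ℝ) ≤ x ^ (e + ε / 2) := by
    intro s hs
    obtain ⟨X₀, hX₀, h⟩ := t_CNTU p (s * d) (adm_sg hd hs) z hQ α h1 hU1 c (ε / 4) (by positivity)
    refine ⟨X₀, hX₀, fun x hx => ?_⟩
    have hx1 : 1 ≤ x := hX₀.trans hx
    refine (up_of hs (fun n hn => hn.2.2.1) _ ?_ (h x hx)).trans
      (Real.rpow_le_rpow_of_exponent_le hx1 (by linarith))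
    rintro n ⟨h2, h3, h4, k, h5, h6⟩
    rw [abs_sg hs h2] at h4 h6
    refine ⟨by omega, h4, k, ?_, h6⟩
    rw [iter_sg hd hs]
    exact hc s hs _ (by
      change s * (s * (T p d)^[k] n) ∈ A
      rwa [sg_sq hs])
  obtain ⟨X₁, hX₁, g1⟩ := key 1 (Or.inl rfl)
  obtain ⟨X₂, hX₂, g2⟩ := key (-1) (Or.inr rfl)
  obtain ⟨X₃, hX₃, g3⟩ := D3.two_pow (a := e) hε
  refine ⟨max X₁ (max X₂ X₃), hX₁.trans (le_max_left _ _), fun x hx => ?_⟩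
  have k1 := g1 x ((le_max_left _ _).trans hx)
  have k2 := g2 x (((le_max_left _ _).trans (le_max_right _ _)).trans hx)
  have k3 := g3 x (((le_max_right _ _).trans (le_max_right _ _)).trans hx)
  have hx1 : 1 ≤ x := hX₁.trans ((le_max_left _ _).trans hx)
  have hsub : Ct p d A α x ⊆ {n : ℤ | 0 < 1 * n ∧ n ∈ Ct p d A α x} ∪
      {n : ℤ | 0 < -1 * n ∧ n ∈ Ct p d A α x} := by
    intro n hn
    rcases lt_or_gt_of_ne hn.1 with h | h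
    · exact Or.inr ⟨by omega, hn⟩
    · exact Or.inl ⟨by omega, hn⟩
  have hfin := fin_of (A := Ct p d A α x) (x := x) (fun n hn => hn.2.1)
  have h2 : (Ct p d A α x).ncard ≤ ({n : ℤ | 0 < 1 * n ∧ n ∈ Ct p d A α x}.ncard) +
      ({n : ℤ | 0 < -1 * n ∧ n ∈ Ct p d A α x}.ncard) := by
    refine (Set.ncard_le_ncard hsub ?_).trans (Set.ncard_union_le _ _)
    exact (hfin.subset fun n hn => hn.2).union (hfin.subset fun n hn => hn.2)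
  have h3 : ((Ct p d A α x).ncard : ℝ) ≤
      (({n : ℤ | 0 < 1 * n ∧ n ∈ Ct p d A α x}.ncard : ℕ) : ℝ) +
      (({n : ℤ | 0 < -1 * n ∧ n ∈ Ct p d A α x}.ncard : ℕ) : ℝ) := by exact_mod_cast h2
  have h4 : 0 ≤ x ^ (e + ε / 2) := by positivity
  linarith

/-- monotonicity in `α` -/
theorem ct_mono {p : ℕ} {d : ℤ} {A : Set ℤ} {α α' x : ℝ} (h : α ≤ α') :
    (Ct p d A α x).ncard ≤ (Ct p d A α' x).ncard := by
  refine Set.ncard_le_ncard ?_ (fin_of (x := x) fun n hn => hn.2.1)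
  rintro n ⟨h1, h2, k, h3, h4⟩
  refine ⟨h1, h2, k, h3, h4.trans (mul_le_mul_of_nonneg_right h ?_)⟩
  apply Real.log_nonneg
  rw [← Int.cast_abs]
  exact_mod_cast Int.one_le_abs h1

/-! ### `p = 5` -/

open Five

/-- **counts for `5x+d`**: for `α ≤ κ` the exponent is `ex 5 α`, for `α ≥ κ` it is `η₅` -/
theorem count5_low {d : ℤ} (hd : Adm 5 d) {A : Set ℤ} (hA : Good 5 A) {η : ℝ} (h : IsEta η) {α : ℝ}
    (h1 : 1 / Real.log 2 < α) (hk : α ≤ kap η) {ε : ℝ} (hε : 0 < ε) :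
    ∃ X₀ : ℝ, 1 ≤ X₀ ∧ ∀ x : ℝ, X₀ ≤ x → x ^ (ex 5 α - ε) ≤ ((Ct 5 d A α x).ncard : ℝ) ∧
      ((Ct 5 d A α x).ncard : ℝ) ≤ x ^ (ex 5 α + ε) := by
  have he : ex 5 α < 1 := lt_of_le_of_lt (ex_le h h1 hk) (by linarith [h.2.1])
  obtain ⟨X₁, hX₁, g1⟩ := ct_lower hd hA h1 (Fp_pos h h1 hk) hε
  obtain ⟨X₂, hX₂, g2⟩ := ct_upper hd hA.1 h1 (tight_low h h1 hk) he hε
  exact ⟨max X₁ X₂, hX₁.trans (le_max_left _ _), fun x hx =>
    ⟨g1 x ((le_max_left _ _).trans hx), g2 x ((le_max_right _ _).trans hx)⟩⟩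

theorem count5_high {d : ℤ} (hd : Adm 5 d) {A : Set ℤ} (hA : Good 5 A) {η : ℝ} (h : IsEta η) {α : ℝ}
    (hk : kap η ≤ α) {ε : ℝ} (hε : 0 < ε) :
    ∃ X₀ : ℝ, 1 ≤ X₀ ∧ ∀ x : ℝ, X₀ ≤ x → x ^ (η - ε) ≤ ((Ct 5 d A α x).ncard : ℝ) ∧
      ((Ct 5 d A α x).ncard : ℝ) ≤ x ^ (η + ε) := by
  have h1 : 1 / Real.log 2 < α := lt_of_lt_of_le (kap_gt h) hk
  obtain ⟨X₁, hX₁, g1⟩ := count5_low hd hA h (kap_gt h) le_rfl hε
  obtain ⟨X₂, hX₂, g2⟩ := ct_upper hd hA.1 h1 (tight h h1) (by linarith [h.2.1]) hε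
  refine ⟨max X₁ X₂, hX₁.trans (le_max_left _ _), fun x hx =>
    ⟨?_, g2 x ((le_max_right _ _).trans hx)⟩⟩
  have := (g1 x ((le_max_left _ _).trans hx)).1
  rw [ex_kap h] at this
  exact this.trans (by exact_mod_cast ct_mono hk)

/-- **the exceptional set for `5x+d`** -/
theorem exc5 {d s : ℤ} (hd : Adm 5 d) (hs : Sg s) {η : ℝ} (h : IsEta η) {α : ℝ} (hk : kap η ≤ α)
    {δ : ℝ} (hδ : 0 < δ) (hδ1 : δ ≤ 1) {ε : ℝ} (hε : 0 < ε) : ∃ X₀ : ℝ, 1 ≤ X₀ ∧ ∀ x : ℝ, X₀ ≤ x →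
    x ^ (1 - δ * (1 - η) - ε) ≤ ((ES 5 d s α δ x).ncard : ℝ) ∧
      ((ES 5 d s α δ x).ncard : ℝ) ≤ x ^ (1 - δ * (1 - η) + ε) := by
  have h1 : 1 / Real.log 2 < α := lt_of_lt_of_le (kap_gt h) hk
  have he1 : ex 5 (kap η) < 1 := by rw [ex_kap h]; linarith [h.2.1]
  obtain ⟨X₁, hX₁, g1⟩ := es_lower hd hs (kap_gt h) (Fp_pos h (kap_gt h) le_rfl)
    (tight_low h (kap_gt h) le_rfl) he1 hδ hδ1 hε
  obtain ⟨X₂, hX₂, g2⟩ := es_upper hd hs h1 (tight h h1) (by linarith [h.2.1]) hδ hδ1 hε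
  refine ⟨max X₁ X₂, hX₁.trans (le_max_left _ _), fun x hx =>
    ⟨?_, g2 x ((le_max_right _ _).trans hx)⟩⟩
  have := g1 x ((le_max_left _ _).trans hx)
  rw [ex_kap h] at this
  exact this.trans (by exact_mod_cast es_mono (kap_pos h).le hk hδ.le)

/-- **the uniform law for `5x+d`** -/
theorem law5 {d s : ℤ} (hd : Adm 5 d) (hs : Sg s) {η : ℝ} (h : IsEta η) {α : ℝ}
    (h1 : 1 / Real.log 2 < α) (hk : α ≤ kap η) {ε : ℝ} (hε : 0 < ε) : ∃ C : ℝ, 1 ≤ C ∧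
    ∀ x y : ℝ, 1 ≤ y → C * y ≤ x → y * (x / y) ^ (ex 5 α - ε) ≤ ((PS 5 d s α x y).ncard : ℝ) ∧
      ((PS 5 d s α x y).ncard : ℝ) ≤ x ^ ε * (y * (x / y) ^ (ex 5 α)) := by
  have he : ex 5 α < 1 := lt_of_le_of_lt (ex_le h h1 hk) (by linarith [h.2.1])
  obtain ⟨Λ₀, hΛ, hlo⟩ := ps_lower hd hs h1 (Fp_pos h h1 hk) hε
  obtain ⟨X₀, hX₀, hup⟩ := ps_upper hd hs h1 (tight_low h h1 hk) he hε
  refine ⟨max (Real.exp Λ₀) X₀, (Real.one_le_exp hΛ).trans (le_max_left _ _), fun x y hy hx => ?_⟩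
  have hy0 : 0 < y := by linarith
  have h3 : Real.exp Λ₀ * y ≤ max (Real.exp Λ₀) X₀ * y :=
    mul_le_mul_of_nonneg_right (le_max_left _ _) hy0.le
  have h4 : X₀ * y ≤ max (Real.exp Λ₀) X₀ * y :=
    mul_le_mul_of_nonneg_right (le_max_right _ _) hy0.le
  have h5 : X₀ ≤ X₀ * y := le_mul_of_one_le_right (by linarith) hy
  have h6 : y ≤ X₀ * y := le_mul_of_one_le_left hy0.le hX₀
  exact ⟨hlo y hy x (by linarith), hup x (by linarith) y hy (by linarith)⟩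

/-- the uniform upper bound for `5x+d`, all `α` -/
theorem law5_upper {d s : ℤ} (hd : Adm 5 d) (hs : Sg s) {η : ℝ} (h : IsEta η) {α : ℝ}
    (h1 : 1 / Real.log 2 < α) {ε : ℝ} (hε : 0 < ε) : ∃ X₀ : ℝ, 1 ≤ X₀ ∧ ∀ x : ℝ, X₀ ≤ x →
    ∀ y : ℝ, 1 ≤ y → y ≤ x → ((PS 5 d s α x y).ncard : ℝ) ≤ x ^ ε * (y * (x / y) ^ η) :=
  ps_upper hd hs h1 (tight h h1) (by linarith [h.2.1]) hε

/-- the existence of the constant -/
theorem exists_eta5 : ∃ η : ℝ, IsEta η := Pool.Agent.H366R2.QA.exists_eta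

end DG

end Pool.Agent.N685.FD
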