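import Pool.Agent.N685.FD.Stm

/-!
PROJECT FD (helper685), part BAD (helper434): heavy blocks meet long pieces
(port of `Pool/Agent/N685/FT/Bad.lean`)
-/

set_option autoImplicit false

namespace Pool.Agent.N685.FD

open Finset
open scoped Classical

namespace BadAux

theorem fin_append (p : ℕ) (d x : ℤ) (u v : List ℕ) :
    fin p d x (u ++ v) = fin p d (fin p d x u) v := by
  induction u generalizing x with
  | nil => rfl
  | cons e u ih => exact ih (st p d e x)

theorem ok_append {p : ℕ} {d x : ℤ} {u v : List ℕ} (h : ok p d x (u ++ v)) :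
    ok p d x u ∧ ok p d (fin p d x u) v := by
  induction u generalizing x with
  | nil => exact ⟨trivial, h⟩
  | cons e u ih =>
    obtain ⟨h1, h2, h3⟩ := h
    exact ⟨⟨h1, h2, (ih h3).1⟩, (ih h3).2⟩

/-- all the points after the start are larger than `c` -/
def abv (p : ℕ) (d c x : ℤ) (w : List ℕ) : Prop :=
  ∀ k, 0 < k → k ≤ w.length → c < fin p d x (w.take k)

theorem abv_cons {p : ℕ} {d c x : ℤ} {e : ℕ} {w : List ℕ} (h : abv p d c x (e :: w)) :
    c < st p d e x ∧ abv p d c (st p d e x) w := by
  constructor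
  · have := h 1 one_pos (by simp)
    simpa [fin] using this
  · intro k hk hk2
    have := h (k + 1) (by omega) (by simpa using hk2)
    simpa [fin] using this

/-- upper bound for the endpoint -/
theorem fin_upper {p : ℕ} (hp : 3 ≤ p) {d c : ℤ} {u : ℝ} (hu1 : u ≤ 1 / 2)
    (hc : ∀ x : ℤ, c < x → ((|d| : ℤ) : ℝ) ≤ u * (p * x)) (x : ℤ) (w : List ℕ)
    (h : abv p d c x w) :
    ((p : ℝ) * (1 - u)) ^ w.length * (fin p d x w : ℝ) ≤ 2 ^ w.sum * (x : ℝ) := by
  induction w generalizing x with
  | nil => simp [fin]
  | cons e w ih =>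
    obtain ⟨h1, h2⟩ := abv_cons h
    have h3 := ih (st p d e x) h2
    have hp0 : (0 : ℝ) < p := by exact_mod_cast (by omega : 0 < p)
    have h4 : (p : ℤ) * st p d e x ≤ 2 ^ e * x - d := by
      unfold st
      exact Int.mul_ediv_self_le (by exact_mod_cast (by omega : p ≠ 0))
    have h4' : (p : ℝ) * (st p d e x : ℝ) ≤ 2 ^ e * x - d := by exact_mod_cast h4
    have h5 := hc _ h1
    have h6 : -((|d| : ℤ) : ℝ) ≤ (d : ℝ) := by
      have : -|d| ≤ d := neg_abs_le d
      exact_mod_cast this
    have h7 : (p : ℝ) * (1 - u) * (st p d e x : ℝ) ≤ 2 ^ e * x := by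
      have : (p : ℝ) * (1 - u) * (st p d e x : ℝ) =
        p * (st p d e x : ℝ) - u * (p * (st p d e x : ℝ)) := by ring
      rw [this]
      linarith
    change ((p : ℝ) * (1 - u)) ^ (w.length + 1) * (fin p d (st p d e x) w : ℝ) ≤
      2 ^ (e + w.sum) * (x : ℝ)
    have h8 : 0 ≤ (p : ℝ) * (1 - u) := mul_nonneg hp0.le (by linarith)
    calc ((p : ℝ) * (1 - u)) ^ (w.length + 1) * (fin p d (st p d e x) w : ℝ)
        = ((p : ℝ) * (1 - u)) * (((p : ℝ) * (1 - u)) ^ w.length *
          (fin p d (st p d e x) w : ℝ)) := by ring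
      _ ≤ ((p : ℝ) * (1 - u)) * (2 ^ w.sum * (st p d e x : ℝ)) :=
          mul_le_mul_of_nonneg_left h3 h8
      _ = 2 ^ w.sum * ((p : ℝ) * (1 - u) * (st p d e x : ℝ)) := by ring
      _ ≤ 2 ^ w.sum * (2 ^ e * x) := mul_le_mul_of_nonneg_left h7 (by positivity)
      _ = 2 ^ (e + w.sum) * (x : ℝ) := by rw [pow_add]; ring

/-- lower bound for the endpoint -/
theorem fin_lower {p : ℕ} (hp : 3 ≤ p) {d c : ℤ} (hd : |d| ≤ c) {x : ℤ} {w : List ℕ}
    (h : ok p d x w) (ha : abv p d c x w) (hx : 1 ≤ x) :
    1 ≤ fin p d x w ∧ x ≤ (p : ℤ) ^ w.length * fin p d x w := by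
  induction w generalizing x with
  | nil => exact ⟨hx, by simp [fin]⟩
  | cons e w ih =>
    obtain ⟨h1, h2, h3⟩ := h
    obtain ⟨ha1, ha2⟩ := abv_cons ha
    have e1 : (p : ℤ) * st p d e x = 2 ^ e * x - d := by
      unfold st
      exact Int.mul_ediv_cancel' h2
    have e2 : (2 : ℤ) ≤ 2 ^ e := by
      calc (2 : ℤ) = 2 ^ 1 := by norm_num
        _ ≤ 2 ^ e := pow_le_pow_right₀ (by norm_num) h1
    have e3 : 2 * x ≤ 2 ^ e * x := mul_le_mul_of_nonneg_right e2 (by omega)
    have hd0 : 0 ≤ |d| := abs_nonneg d
    have hd1 : d ≤ |d| := le_abs_self d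
    have hpz : (3 : ℤ) ≤ p := by exact_mod_cast hp
    have e4 : 1 ≤ st p d e x := by omega
    have e5 : st p d e x ≤ p * st p d e x := by nlinarith
    obtain ⟨h4, h5⟩ := ih h3 ha2 e4
    refine ⟨h4, ?_⟩
    change x ≤ (p : ℤ) ^ (w.length + 1) * fin p d (st p d e x) w
    calc x ≤ p * st p d e x := by omega
      _ ≤ p * ((p : ℤ) ^ w.length * fin p d (st p d e x) w) :=
          mul_le_mul_of_nonneg_left h5 (by omega)
      _ = (p : ℤ) ^ (w.length + 1) * fin p d (st p d e x) w := by ring

theorem pieces_append {p : ℕ} {d c a : ℤ} {P Q : List (List ℕ)} (h : Pieces p d c a (P ++ Q)) :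
    Pieces p d c a P ∧ Pieces p d c (fin p d a P.flatten) Q := by
  induction P generalizing a with
  | nil => exact ⟨trivial, h⟩
  | cons u P ih =>
    obtain ⟨h1, h2⟩ := h
    obtain ⟨h3, h4⟩ := ih h2
    refine ⟨⟨h1, h3⟩, ?_⟩
    rw [List.flatten_cons, fin_append]
    exact h4

theorem pieces_le {p : ℕ} {d c a : ℤ} {P : List (List ℕ)} (h : Pieces p d c a P) :
    a ≤ fin p d a P.flatten := by
  induction P generalizing a with
  | nil => exact le_rfl
  | cons u P ih =>
    obtain ⟨h1, h2⟩ := h
    rw [List.flatten_cons, fin_append]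
    exact h1.2.2.1.le.trans (ih h2)

/-- all points after the start are larger -/
theorem pieces_above {p : ℕ} {d c a : ℤ} {P : List (List ℕ)} (h : Pieces p d c a P) (k : ℕ)
    (hk : 0 < k) (hk2 : k ≤ P.flatten.length) :
    a < fin p d a (P.flatten.take k) ∧ c < fin p d a (P.flatten.take k) := by
  induction P generalizing a k with
  | nil => simp at hk2; omega
  | cons u P ih =>
    obtain ⟨h1, h2⟩ := h
    rw [List.flatten_cons, List.length_append] at hk2
    rw [List.flatten_cons, List.take_append]
    by_cases hku : k ≤ u.length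
    · rw [Nat.sub_eq_zero_of_le hku, List.take_zero, List.append_nil]
      have := h1.2.2.2.2 k hk hku
      exact ⟨h1.2.2.1.trans_le this, h1.2.2.2.1.trans_le this⟩
    · rw [List.take_of_length_le (by omega), fin_append]
      have := ih h2 (k - u.length) (by omega) (by omega)
      exact ⟨h1.2.2.1.trans this.1, this.2⟩

theorem nbn_eq (p : ℕ) (z : ℝ) (b n : ℕ) (w : List ℕ) : nbn p z b n w =
    ((Finset.range n).filter (fun j => 1 < wt p z ((w.drop (j * b)).take b))).card := by
  induction n generalizing w with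
  | zero => rfl
  | succ n ih =>
    change (if 1 < wt p z (w.take b) then 1 else 0) + nbn p z b n (w.drop b) = _
    rw [ih, Finset.card_filter, Finset.card_filter, Finset.sum_range_succ', add_comm]
    congr 1
    · refine Finset.sum_congr rfl fun j _ => ?_
      rw [List.drop_drop]
      have e : b + j * b = (j + 1) * b := by ring
      rw [e]
    · rw [Nat.zero_mul, List.drop_zero]

theorem card_mult (b r l : ℕ) (F : Finset ℕ) (h : ∀ j ∈ F, r ≤ j * b ∧ j * b < r + l) :
    b * F.card ≤ l + b := by
  by_cases hF : F.Nonempty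
  · set m := F.min' hF with hm
    set M := F.max' hF with hM
    have h1 : F ⊆ Finset.Icc m M := fun j hj =>
      Finset.mem_Icc.2 ⟨Finset.min'_le F j hj, Finset.le_max' F j hj⟩
    have h2 := Finset.card_le_card h1
    rw [Nat.card_Icc] at h2
    have h3 := (h m (Finset.min'_mem F hF)).1
    have h4 := (h M (Finset.max'_mem F hF)).2
    have h5 : m ≤ M := Finset.min'_le F M (Finset.max'_mem F hF)
    obtain ⟨d, hd⟩ := Nat.exists_eq_add_of_le h5
    have h6 : F.card ≤ d + 1 := by omega
    have h7 : b * F.card ≤ b * (d + 1) := Nat.mul_le_mul_left _ h6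
    rw [hd] at h4
    have h8 : (m + d) * b = m * b + d * b := by ring
    have h9 : b * (d + 1) = d * b + b := by ring
    omega
  · rw [Finset.not_nonempty_iff_eq_empty] at hF
    rw [hF, Finset.card_empty]
    omega

theorem count_le {b : ℕ} {c : ℝ} (hc : 0 < c) (P : List (List ℕ)) :
    ∀ (r : ℕ) (J : Finset ℕ), (∀ j ∈ J, ∀ (P1 : List (List ℕ)) (u : List ℕ) (P2 : List (List ℕ)),
      P = P1 ++ u :: P2 → r + P1.flatten.length ≤ j * b →
      j * b < r + P1.flatten.length + u.length → ⌈c * b⌉₊ ≤ u.length) →
    ((b * (J.filter (fun j => r ≤ j * b ∧ j * b < r + P.flatten.length)).card : ℕ) : ℝ) ≤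
      (1 + 1 / c) * (((P.map List.length).filter (fun l => ⌈c * b⌉₊ ≤ l)).sum : ℕ) := by
  induction P with
  | nil =>
    intro r J _
    have : J.filter (fun j => r ≤ j * b ∧ j * b < r + ([] : List (List ℕ)).flatten.length) = ∅ := by
      rw [Finset.filter_eq_empty_iff]
      intro j _ hj
      simp only [List.flatten_nil, List.length_nil] at hj
      omega
    rw [this, Finset.card_empty, Nat.mul_zero, Nat.cast_zero]
    simp
  | cons u P ih =>
    intro r J hJ
    have h1 := ih (r + u.length) J (by
      intro j hj P1 u1 P2 hP hle hlt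
      refine hJ j hj (u :: P1) u1 P2 (by rw [hP, List.cons_append]) ?_ ?_
      · rw [List.flatten_cons, List.length_append]
        omega
      · rw [List.flatten_cons, List.length_append]
        omega)
    set F1 := J.filter (fun j => r ≤ j * b ∧ j * b < r + u.length) with hF1
    set F2 := J.filter (fun j => r + u.length ≤ j * b ∧ j * b < r + u.length + P.flatten.length)
      with hF2
    have hsub : J.filter (fun j => r ≤ j * b ∧ j * b < r + (u :: P).flatten.length) ⊆ F1 ∪ F2 := by
      intro j hj
      rw [Finset.mem_filter, List.flatten_cons, List.length_append] at hj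
      rw [Finset.mem_union, hF1, hF2, Finset.mem_filter, Finset.mem_filter]
      by_cases h : j * b < r + u.length
      · exact Or.inl ⟨hj.1, hj.2.1, h⟩
      · exact Or.inr ⟨hj.1, by omega, by omega⟩
    have hcard := (Finset.card_le_card hsub).trans (Finset.card_union_le _ _)
    have h2 : ((b * (J.filter (fun j => r ≤ j * b ∧ j * b < r + (u :: P).flatten.length)).card : ℕ)
        : ℝ) ≤ ((b * F1.card : ℕ) : ℝ) + ((b * F2.card : ℕ) : ℝ) := by
      rw [← Nat.cast_add, ← Nat.mul_add]
      exact_mod_cast Nat.mul_le_mul_left b hcard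
    refine h2.trans ?_
    rw [List.map_cons]
    by_cases hu : ⌈c * b⌉₊ ≤ u.length
    · rw [List.filter_cons_of_pos (by simpa using hu), List.sum_cons, Nat.cast_add, mul_add]
      refine add_le_add ?_ h1
      have h3 := card_mult b r u.length F1 (fun j hj => (Finset.mem_filter.1 hj).2)
      have h4 : c * b ≤ u.length := (Nat.le_ceil _).trans (by exact_mod_cast hu)
      have h5 : (b : ℝ) ≤ u.length / c := by
        rw [le_div_iff₀ hc]
        linarith
      calc ((b * F1.card : ℕ) : ℝ) ≤ ((u.length + b : ℕ) : ℝ) := by exact_mod_cast h3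
        _ = u.length + b := by push_cast; ring
        _ ≤ u.length + u.length / c := by linarith
        _ = (1 + 1 / c) * u.length := by ring
    · rw [List.filter_cons_of_neg (by simpa using hu)]
      have h3 : F1 = ∅ := by
        rw [Finset.eq_empty_iff_forall_notMem]
        intro j hj
        obtain ⟨h4, h5, h6⟩ := Finset.mem_filter.1 hj
        apply hu
        refine hJ j h4 [] u P rfl ?_ ?_
        · simpa using h5
        · simpa using h6
      rw [h3, Finset.card_empty, Nat.mul_zero, Nat.cast_zero, zero_add]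
      exact h1

end BadAux

open BadAux

theorem t_BAD : S_BAD := by
  intro p d hA z hQ
  obtain ⟨hz, hz1, hQ⟩ := hQ
  have hp : 3 ≤ p := by rcases hA.1 with h | h <;> omega
  have hpR : (3 : ℝ) ≤ p := by exact_mod_cast hp
  have htt : 0 < tt p z := by
    unfold tt
    have : 0 < 1 - z := by linarith
    positivity
  set L : ℝ := -Real.log z with hL
  have hL0 : 0 < L := by
    rw [hL, neg_pos]
    exact Real.log_neg hz hz1
  have l2 : 0 < Real.log 2 := Real.log_pos (by norm_num)
  have l3 : 0 < Real.log p := Real.log_pos (by linarith)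
  set m : ℝ := max (Real.log (tt p z)) 0 with hm
  have hm0 : 0 ≤ m := le_max_right _ _
  have hm1 : Real.log (tt p z) ≤ m := le_max_left _ _
  have hkey : Real.log 2 * m < Real.log p * L := by
    rcases max_choice (Real.log (tt p z)) 0 with h | h
    · rw [hm, h, mul_comm (Real.log 2)]
      rw [one_div, Real.log_inv] at hQ
      exact hQ
    · rw [hm, h, mul_zero]
      positivity
  set c1 : ℝ := Real.log p - Real.log 2 * m / L with hc1
  have hc10 : 0 < c1 := by
    rw [hc1, sub_pos, div_lt_iff₀ hL0]
    exact hkey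
  have hc1le : c1 ≤ Real.log p := by
    rw [hc1]
    have : 0 ≤ Real.log 2 * m / L := by positivity
    linarith
  set κ : ℝ := c1 / (2 * Real.log p) with hκ
  have hκ0 : 0 < κ := by positivity
  have hκ1 : κ ≤ 1 := by
    rw [hκ, div_le_one (by positivity)]
    linarith
  -- the constant `u`
  obtain ⟨u, hu0, hu1, hu2⟩ : ∃ u : ℝ, 0 < u ∧ u ≤ 1 / 2 ∧ -Real.log (1 - u) ≤ c1 / 2 := by
    have he : Real.exp (-(c1 / 2)) < 1 := by
      rw [Real.exp_lt_one_iff]
      linarith
    refine ⟨min (1 / 2) (1 - Real.exp (-(c1 / 2))), lt_min (by norm_num) (by linarith),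
      min_le_left _ _, ?_⟩
    have h1 : Real.exp (-(c1 / 2)) ≤ 1 - min (1 / 2) (1 - Real.exp (-(c1 / 2))) := by
      have := min_le_right (1 / 2) (1 - Real.exp (-(c1 / 2)))
      linarith
    have h2 := Real.log_le_log (Real.exp_pos _) h1
    rw [Real.log_exp] at h2
    linarith
  have hpu : 0 < (p : ℝ) * u := by positivity
  set c₀ : ℤ := |d| + 1 + ⌈((|d| : ℤ) : ℝ) / (p * u)⌉ with hc₀
  have hd0 : 0 ≤ |d| := abs_nonneg d
  have hceil0 : 0 ≤ ⌈((|d| : ℤ) : ℝ) / (p * u)⌉ :=
    Int.ceil_nonneg (div_nonneg (by exact_mod_cast hd0) hpu.le)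
  refine ⟨c₀, by omega, κ, hκ0, hκ1, ?_⟩
  intro c a b P hcc hb ha hP
  have hcd : |d| ≤ c := by omega
  have hcu : ∀ x : ℤ, c < x → ((|d| : ℤ) : ℝ) ≤ u * (p * x) := by
    intro x hx
    have h1 : ⌈((|d| : ℤ) : ℝ) / (p * u)⌉ ≤ x := by omega
    have h2 : ((|d| : ℤ) : ℝ) / (p * u) ≤ x := Int.ceil_le.1 h1
    rw [div_le_iff₀ hpu] at h2
    linarith
  set w := P.flatten with hw
  set J := (Finset.range (w.length / b)).filter (fun j => 1 < wt p z ((w.drop (j * b)).take b))
    with hJ
  have hnb : nb p z b w = J.card := nbn_eq _ _ _ _ _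
  have hJb : ∀ j ∈ J, j * b + b ≤ w.length := by
    intro j hj
    have h1 := Finset.mem_range.1 (Finset.mem_filter.1 hj).1
    have h2 : (j + 1) * b ≤ w.length / b * b := Nat.mul_le_mul_right _ (by omega)
    have h3 := Nat.div_mul_le_self w.length b
    have h4 : (j + 1) * b = j * b + b := by ring
    omega
  have hmain := count_le (b := b) hκ0 P 0 J (by
    intro j hj P1 v P2 hPP hle hlt
    rw [Nat.zero_add] at hle hlt
    have hlong := hJb j hj
    have hwt := (Finset.mem_filter.1 hj).2
    rw [hPP] at hP
    obtain ⟨hP1, hP2⟩ := pieces_append hP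
    have hab := pieces_above hP2
    obtain ⟨hv, hP3⟩ := hP2
    set A := P1.flatten with hA
    set a' := fin p d a A with ha'
    have ha1 : 1 ≤ a' := ha.trans (pieces_le hP1)
    obtain ⟨i, hi⟩ := Nat.exists_eq_add_of_le hle
    have hiu : i < v.length := by omega
    set t := v ++ P2.flatten with ht
    have htf : (v :: P2).flatten = t := by rw [List.flatten_cons]
    rw [htf] at hab
    have hwA : w = A ++ t := by
      rw [hw, hPP, List.flatten_append, List.flatten_cons]
    have hdrop : w.drop (j * b) = t.drop i := by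
      rw [hwA, hi, List.drop_append, List.drop_of_length_le (by omega), List.nil_append]
      congr 1
      omega
    rw [hdrop] at hwt
    have htl : t.length = v.length + P2.flatten.length := List.length_append
    have hwl : w.length = A.length + t.length := by rw [hwA, List.length_append]
    set B := (t.drop i).take b with hB
    have hBl : B.length = b := by
      rw [hB, List.length_take, List.length_drop]
      omega
    set y := fin p d a' (v.take i) with hy
    have hyt : ∀ k, fin p d y ((t.drop i).take k) = fin p d a' (t.take (i + k)) := by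
      intro k
      rw [List.take_add, fin_append]
      congr 1
      rw [hy, ht, List.take_append_of_le_length hiu.le]
    have habv : ∀ l, abv p d c y ((t.drop i).take l) := by
      intro l k hk hkl
      rw [List.length_take, List.length_drop] at hkl
      rw [List.take_take, hyt]
      exact (hab (i + min k l) (by omega) (by omega)).2
    have hok := hv.2.1
    have hok2 : ok p d a' (v.take i ++ v.drop i) := by rwa [List.take_append_drop]
    obtain ⟨o1, o2⟩ := ok_append hok2
    have hy1 : 1 ≤ y := by
      rcases Nat.eq_zero_or_pos i with h0 | h0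
      · rw [hy, h0, List.take_zero]
        exact ha1
      · have h1 := (hab i h0 (by omega)).2
        rw [ht, List.take_append_of_le_length hiu.le] at h1
        omega
    have hfu : fin p d a' v = fin p d y (v.drop i) := by
      rw [hy, ← fin_append p d a' (v.take i) (v.drop i), List.take_append_drop]
    have hvd : v.drop i = (t.drop i).take (v.length - i) := by
      rw [ht, List.drop_append_of_le_length hiu.le, List.take_append_of_le_length (by
        rw [List.length_drop])]
      rw [List.take_of_length_le (by rw [List.length_drop])]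
    have h1 := fin_lower hp hcd o2 (by rw [hvd]; exact habv _) hy1
    rw [← hfu, List.length_drop] at h1
    obtain ⟨hf1, hf2⟩ := h1
    have h2 := fin_upper hp hu1 hcu y B (habv b)
    rw [hBl] at h2
    have h3 : fin p d y B = fin p d a' (t.take (i + b)) := hyt b
    have h4 : fin p d a' v ≤ fin p d y B := by
      rw [h3, ht, List.take_append]
      by_cases hk : i + b ≤ v.length
      · rw [Nat.sub_eq_zero_of_le hk, List.take_zero, List.append_nil]
        exact hv.2.2.2.2 (i + b) (by omega) hk
      · rw [List.take_of_length_le (by omega), fin_append]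
        exact (pieces_above hP3 (i + b - v.length) (by omega) (by omega)).1.le
    -- combine
    have hf1R : (1 : ℝ) ≤ (fin p d a' v : ℝ) := by exact_mod_cast hf1
    have hf2R : (y : ℝ) ≤ (p : ℝ) ^ (v.length - i) * (fin p d a' v : ℝ) := by exact_mod_cast hf2
    have h4R : (fin p d a' v : ℝ) ≤ (fin p d y B : ℝ) := by exact_mod_cast h4
    have hpu' : 0 < (p : ℝ) * (1 - u) := mul_pos (by linarith) (by linarith)
    have h5 : ((p : ℝ) * (1 - u)) ^ b * (fin p d a' v : ℝ) ≤
        2 ^ B.sum * (p : ℝ) ^ (v.length - i) * (fin p d a' v : ℝ) := by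
      calc ((p : ℝ) * (1 - u)) ^ b * (fin p d a' v : ℝ)
          ≤ ((p : ℝ) * (1 - u)) ^ b * (fin p d y B : ℝ) :=
            mul_le_mul_of_nonneg_left h4R (by positivity)
        _ ≤ 2 ^ B.sum * (y : ℝ) := h2
        _ ≤ 2 ^ B.sum * ((p : ℝ) ^ (v.length - i) * (fin p d a' v : ℝ)) :=
            mul_le_mul_of_nonneg_left hf2R (by positivity)
        _ = _ := by ring
    have h7 : ((p : ℝ) * (1 - u)) ^ b ≤ 2 ^ B.sum * (p : ℝ) ^ (v.length - i) :=
      le_of_mul_le_mul_right h5 (by linarith)
    have h8 := Real.log_le_log (by positivity) h7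
    have hu3 : (1 - u) ≠ 0 := by
      have : 0 < 1 - u := by linarith
      exact this.ne'
    rw [Real.log_mul (by positivity) (by positivity), Real.log_pow, Real.log_pow, Real.log_pow,
      Real.log_mul (by positivity) hu3] at h8
    have h9 : 0 < (b : ℝ) * Real.log (tt p z) + B.sum * Real.log z := by
      have h10 := Real.log_pos hwt
      unfold wt at h10
      rwa [hBl, Real.log_mul (by positivity) (by positivity), Real.log_pow, Real.log_pow] at h10
    have h11 : (B.sum : ℝ) * L ≤ b * m := by
      have : (b : ℝ) * Real.log (tt p z) ≤ b * m := mul_le_mul_of_nonneg_left hm1 (by positivity)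
      rw [hL]
      linarith
    have h12 : (B.sum : ℝ) ≤ b * (m / L) := by
      rw [← mul_div_assoc, le_div_iff₀ hL0]
      exact h11
    have h13 : (B.sum : ℝ) * Real.log 2 ≤ b * (Real.log 2 * m / L) := by
      calc (B.sum : ℝ) * Real.log 2 ≤ b * (m / L) * Real.log 2 :=
            mul_le_mul_of_nonneg_right h12 l2.le
        _ = b * (Real.log 2 * m / L) := by ring
    have h14 : b * (c1 / 2) ≤ ((v.length - i : ℕ) : ℝ) * Real.log p := by
      have h15 : (b : ℝ) * (-Real.log (1 - u)) ≤ b * (c1 / 2) :=
        mul_le_mul_of_nonneg_left hu2 (by positivity)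
      have h16 : (b : ℝ) * c1 = b * Real.log p - b * (Real.log 2 * m / L) := by rw [hc1]; ring
      linarith
    have h15 : κ * b ≤ v.length := by
      have h16 : ((v.length - i : ℕ) : ℝ) ≤ v.length := by exact_mod_cast Nat.sub_le _ _
      have h17 : κ * b ≤ ((v.length - i : ℕ) : ℝ) := by
        rw [hκ, div_mul_eq_mul_div, div_le_iff₀ (by positivity)]
        linarith
      linarith
    exact Nat.ceil_le.2 h15)
  have hfil : J.filter (fun j => 0 ≤ j * b ∧ j * b < 0 + P.flatten.length) = J := by
    rw [Finset.filter_eq_self]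
    intro j hj
    have := hJb j hj
    rw [← hw]
    omega
  rw [hfil] at hmain
  have hmass : mass ⌈κ * b⌉₊ (w.length + 1) P =
      ((P.map List.length).filter (fun l => ⌈κ * b⌉₊ ≤ l)).sum := by
    unfold mass
    congr 1
    apply List.filter_congr
    intro l hl
    obtain ⟨u, hu, rfl⟩ := List.mem_map.1 hl
    have h1 : u.length ≤ w.length := by
      rw [hw, List.length_flatten]
      exact List.single_le_sum (fun _ _ => Nat.zero_le _) _ hl
    have h2 : u.length < w.length + 1 := by omega
    simp only [h2, and_true]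
  rw [hnb, hmass]
  exact hmain

end Pool.Agent.N685.FD
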