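import Pool.Agent.N685.FD.Stm

/-!
PROJECT FD (helper685), task FD/REC+DCM: decomposition of a path at its records (the last times of
the smallest values), and decomposition into stretches and long pieces (`S_BAD → S_DCM`).
Port of FT/Rec.lean (helper170) and FT/Dcm.lean (helper323), by helper170.
-/

set_option autoImplicit false

namespace Pool.Agent.N685.FD

namespace Rec

lemma fin_append (p : ℕ) (d x : ℤ) (u v : List ℕ) :
    fin p d x (u ++ v) = fin p d (fin p d x u) v := by
  induction u generalizing x with
  | nil => rfl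
  | cons e u ih => simpa [fin] using ih (st p d e x)

lemma ok_append (p : ℕ) (d x : ℤ) (u v : List ℕ) :
    ok p d x (u ++ v) ↔ ok p d x u ∧ ok p d (fin p d x u) v := by
  induction u generalizing x with
  | nil => simp [ok, fin]
  | cons e u ih => simp [ok, fin, ih, and_assoc]

lemma above_iff (p : ℕ) (d c x : ℤ) (w : List ℕ) :
    above p d c x w ↔ ∀ i, 0 < i → i ≤ w.length → c < fin p d x (w.take i) := by
  induction w generalizing x with
  | nil =>
    simp only [above, true_iff, List.length_nil]
    intro i h1 h2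
    omega
  | cons e w ih =>
    simp only [above, ih, List.length_cons]
    constructor
    · rintro ⟨h1, h2⟩ i hi hi2
      obtain ⟨j, rfl⟩ : ∃ j, i = j + 1 := ⟨i - 1, by omega⟩
      simp only [List.take_succ_cons, fin]
      rcases Nat.eq_zero_or_pos j with rfl | hj
      · simpa [fin] using h1
      · exact h2 j hj (by omega)
    · intro h
      refine ⟨by simpa [fin] using h 1 one_pos (by omega), fun i hi hi2 => ?_⟩
      simpa [fin] using h (i + 1) (by omega) (by omega)

theorem aux (p : ℕ) (d c : ℤ) (n : ℕ) : ∀ w : List ℕ, w.length ≤ n → ∀ a : ℤ, ok p d a w →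
    above p d a a w → above p d c a w →
    ∃ P : List (List ℕ), P.flatten = w ∧ Pieces p d c a P := by
  induction n with
  | zero =>
    intro w hw a _ _ _
    have : w = [] := List.length_eq_zero_iff.1 (by omega)
    exact ⟨[], by simp [this], trivial⟩
  | succ n ih =>
    intro w hw a hok hab hac
    rcases Nat.eq_zero_or_pos w.length with h0 | h0
    · have : w = [] := List.length_eq_zero_iff.1 h0
      exact ⟨[], by simp [this], trivial⟩
    rw [above_iff] at hab hac
    -- the last index of the minimum
    obtain ⟨i0, hi0, hmin⟩ := Finset.exists_min_image (Finset.Icc 1 w.length)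
      (fun i => fin p d a (w.take i)) ⟨1, by simp; omega⟩
    obtain ⟨r, hr, hmax⟩ := Finset.exists_max_image
      ((Finset.Icc 1 w.length).filter fun i => fin p d a (w.take i) = fin p d a (w.take i0))
      (fun i => i) ⟨i0, by simpa using hi0⟩
    simp only [Finset.mem_filter, Finset.mem_Icc] at hr hmax hmin hi0
    obtain ⟨⟨hr1, hr2⟩, hr3⟩ := hr
    have hmin' : ∀ i, 1 ≤ i → i ≤ w.length → fin p d a (w.take r) ≤ fin p d a (w.take i) := by
      intro i h1 h2
      rw [hr3]
      exact hmin i ⟨h1, h2⟩
    have hlast : ∀ i, r < i → i ≤ w.length → fin p d a (w.take r) < fin p d a (w.take i) := by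
      intro i h1 h2
      refine lt_of_le_of_ne (hmin' i (by omega) h2) fun h => ?_
      have := hmax i ⟨⟨by omega, h2⟩, by rw [← h, hr3]⟩
      omega
    have hsplit : ok p d a (w.take r ++ w.drop r) := by rwa [List.take_append_drop]
    rw [ok_append] at hsplit
    obtain ⟨P, hP1, hP2⟩ := ih (w.drop r) (by rw [List.length_drop]; omega)
      (fin p d a (w.take r)) hsplit.2 (by
        rw [above_iff]
        intro j hj1 hj2
        rw [List.length_drop] at hj2
        rw [← fin_append, ← List.take_add]
        exact hlast (r + j) (by omega) (by omega)) (by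
        rw [above_iff]
        intro j hj1 hj2
        rw [List.length_drop] at hj2
        rw [← fin_append, ← List.take_add]
        exact hac (r + j) (by omega) (by omega))
    refine ⟨w.take r :: P, by simp [hP1],
      ⟨?_, hsplit.1, hab r hr1 hr2, hac r hr1 hr2, ?_⟩, hP2⟩
    · intro h
      have := congrArg List.length h
      rw [List.length_take, List.length_nil] at this
      omega
    · intro i h1 h2
      rw [List.length_take] at h2
      rw [List.take_take, min_eq_left (by omega)]
      exact hmin' i h1 (by omega)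

end Rec

theorem t_REC : S_REC := fun p d c a w h1 h2 h3 => Rec.aux p d c w.length w le_rfl a h1 h2 h3

namespace Dcm

theorem pieces_append (p : ℕ) (d c : ℤ) (a : ℤ) (P Q : List (List ℕ)) :
    Pieces p d c a (P ++ Q) ↔ Pieces p d c a P ∧ Pieces p d c (fin p d a P.flatten) Q := by
  induction P generalizing a with
  | nil => simp [Pieces, fin]
  | cons u P ih =>
    simp only [List.cons_append, Pieces, List.flatten_cons, Rec.fin_append, ih, and_assoc]

theorem pieces_ok (p : ℕ) (d c : ℤ) (a : ℤ) (P : List (List ℕ)) (h : Pieces p d c a P) :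
    ok p d a P.flatten := by
  induction P generalizing a with
  | nil => simp [ok]
  | cons u P ih =>
    rw [List.flatten_cons, Rec.ok_append]
    exact ⟨h.1.2.1, ih _ h.2⟩

theorem pieces_pos (p : ℕ) (d c : ℤ) (a : ℤ) (P : List (List ℕ)) (h : Pieces p d c a P) :
    a ≤ fin p d a P.flatten := by
  induction P generalizing a with
  | nil => simp [fin]
  | cons u P ih =>
    rw [List.flatten_cons, Rec.fin_append]
    exact h.1.2.2.1.le.trans (ih _ h.2)

theorem mass_cons (lo hi : ℕ) (u : List ℕ) (P : List (List ℕ)) :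
    mass lo hi (u :: P) = (if lo ≤ u.length ∧ u.length < hi then u.length else 0) + mass lo hi P := by
  unfold mass
  rw [List.map_cons, List.filter_cons]
  split_ifs <;> simp_all

theorem mass_append (lo hi : ℕ) (P Q : List (List ℕ)) :
    mass lo hi (P ++ Q) = mass lo hi P + mass lo hi Q := by
  unfold mass
  rw [List.map_append, List.filter_append, List.sum_append]

theorem mass_le (lo hi Λ : ℕ) (P : List (List ℕ)) (h : ∀ u ∈ P, u.length < Λ) :
    mass lo hi P ≤ mass lo Λ P := by
  induction P with
  | nil => simp [mass]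
  | cons u P ih =>
    rw [mass_cons, mass_cons]
    have h1 := h u (by simp)
    have h2 := ih (fun v hv => h v (List.mem_cons_of_mem _ hv))
    split_ifs <;> omega

end Dcm

open Dcm

theorem t_DCM (h : S_BAD) : S_DCM := by
  intro p d hpd z hz
  obtain ⟨c₀, hc₀, c, hc0, hc1, hbad⟩ := h p d hpd z hz
  refine ⟨c₀, hc₀, c, hc0, hc1, ?_⟩
  intro cc a b Λ P hcc hb ha hP
  have hc : (0 : ℝ) ≤ 1 + 1 / c := by positivity
  -- the statement for a stretch of short pieces `P1` followed by `P2`
  have key : ∀ (P2 P1 : List (List ℕ)) (a : ℤ), 1 ≤ a → (∀ u ∈ P1, u.length < Λ) →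
      Pieces p d cc a (P1 ++ P2) → ∃ β : ℕ, Dec p d cc z b Λ a (P1 ++ P2).flatten β ∧
        ((b * β : ℕ) : ℝ) ≤ (1 + 1 / c) * mass ⌈c * b⌉₊ Λ (P1 ++ P2) := by
    intro P2
    induction P2 with
    | nil =>
      intro P1 a ha hl hp
      rw [List.append_nil] at hp ⊢
      refine ⟨nb p z b P1.flatten, Dec.stretch a _ (pieces_ok p d cc a P1 hp), ?_⟩
      refine (hbad cc a b P1 hcc hb ha hp).trans ?_
      apply mul_le_mul_of_nonneg_left _ hc
      exact_mod_cast mass_le _ _ Λ P1 hl
    | cons v P2 ih =>
      intro P1 a ha hl hp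
      by_cases hv : v.length < Λ
      · have e : P1 ++ v :: P2 = (P1 ++ [v]) ++ P2 := by simp
        rw [e] at hp ⊢
        refine ih (P1 ++ [v]) a ha ?_ hp
        intro u hu
        rcases List.mem_append.1 hu with hu | hu
        · exact hl u hu
        · rw [List.mem_singleton.1 hu]; exact hv
      · push Not at hv
        rw [pieces_append] at hp
        obtain ⟨hp1, hpv, hp2⟩ := hp
        have h1 : 1 ≤ fin p d a P1.flatten := ha.trans (pieces_pos p d cc a P1 hp1)
        have h2 : 1 ≤ fin p d (fin p d a P1.flatten) v := h1.trans hpv.2.2.1.le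
        obtain ⟨β, hD, hβ⟩ := ih [] _ h2 (by simp) (by simpa using hp2)
        rw [List.nil_append] at hD hβ
        refine ⟨nb p z b P1.flatten + β, ?_, ?_⟩
        · have e : (P1 ++ v :: P2).flatten = P1.flatten ++ (v ++ P2.flatten) := by simp
          rw [e]
          refine Dec.cons a P1.flatten v P2.flatten β (pieces_ok p d cc a P1 hp1) hv h1 hpv ?_
          rw [Rec.fin_append]
          exact hD
        · have h3 : ((b * nb p z b P1.flatten : ℕ) : ℝ) ≤ (1 + 1 / c) * mass ⌈c * b⌉₊ Λ P1 := by
            refine (hbad cc a b P1 hcc hb ha hp1).trans ?_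
            apply mul_le_mul_of_nonneg_left _ hc
            exact_mod_cast mass_le _ _ Λ P1 hl
          have h4 : mass ⌈c * b⌉₊ Λ P1 + mass ⌈c * b⌉₊ Λ P2 ≤ mass ⌈c * b⌉₊ Λ (P1 ++ v :: P2) := by
            rw [mass_append, mass_cons]
            omega
          have h5 : (mass ⌈c * b⌉₊ Λ P1 : ℝ) + mass ⌈c * b⌉₊ Λ P2 ≤
              mass ⌈c * b⌉₊ Λ (P1 ++ v :: P2) := by exact_mod_cast h4
          calc ((b * (nb p z b P1.flatten + β) : ℕ) : ℝ)
              = ((b * nb p z b P1.flatten : ℕ) : ℝ) + ((b * β : ℕ) : ℝ) := by push_cast; ring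
            _ ≤ (1 + 1 / c) * mass ⌈c * b⌉₊ Λ P1 + (1 + 1 / c) * mass ⌈c * b⌉₊ Λ P2 :=
                add_le_add h3 hβ
            _ = (1 + 1 / c) * ((mass ⌈c * b⌉₊ Λ P1 : ℝ) + mass ⌈c * b⌉₊ Λ P2) := by ring
            _ ≤ _ := mul_le_mul_of_nonneg_left h5 hc
  simpa using key P [] a ha (by simp) (by simpa using hP)

end Pool.Agent.N685.FD
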