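import Pool.Agent.N685.FD.Stm
import Pool.Agent.H320R2.PDWords

/-!
Project FD (helper685), tasks GS and WT (helper306, port of the file FT/GS of helper72): words of any
length, heavy blocks.
-/

set_option autoImplicit false

namespace Pool.Agent.N685.FD

open Finset

namespace GSaux

theorem tt_nonneg {p : ℕ} {z : ℝ} (h0 : 0 < z) (h1 : z < 1) : 0 ≤ tt p z := by
  unfold tt
  have : 0 ≤ 1 - z := by linarith
  positivity

theorem wt_nonneg {p : ℕ} {z : ℝ} (h0 : 0 < z) (h1 : z < 1) (w : List ℕ) : 0 ≤ wt p z w := by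
  have := tt_nonneg (p := p) h0 h1
  unfold wt
  positivity

theorem wt_nil (p : ℕ) (z : ℝ) : wt p z [] = 1 := by simp [wt]

theorem wt_append (p : ℕ) (z : ℝ) (u v : List ℕ) : wt p z (u ++ v) = wt p z u * wt p z v := by
  unfold wt
  rw [List.length_append, List.sum_append, pow_add, pow_add]
  ring

theorem wt_cons (p : ℕ) (z : ℝ) (e : ℕ) (v : List ℕ) :
    wt p z (e :: v) = tt p z * z ^ e * wt p z v := by
  unfold wt
  rw [List.length_cons, List.sum_cons, pow_succ, pow_add]
  ring

theorem length_le_sum (w : List ℕ) (h : ∀ e ∈ w, 1 ≤ e) : w.length ≤ w.sum := by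
  induction w with
  | nil => simp
  | cons e w ih =>
    have h1 := h e (by simp)
    have h2 := ih fun e' he' => h e' (by simp [he'])
    rw [List.length_cons, List.sum_cons]
    omega

theorem wt_le {p : ℕ} {z : ℝ} (h0 : 0 < z) (h1 : z < 1) (w : List ℕ) (h : ∀ e ∈ w, 1 ≤ e) :
    wt p z w ≤ (p : ℝ) ^ w.length := by
  have ht := tt_nonneg (p := p) h0 h1
  unfold wt
  calc tt p z ^ w.length * z ^ w.sum ≤ tt p z ^ w.length * z ^ w.length :=
        mul_le_mul_of_nonneg_left (pow_le_pow_of_le_one h0.le h1.le (length_le_sum w h))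
          (by positivity)
    _ = (tt p z * z) ^ w.length := (mul_pow _ _ _).symm
    _ ≤ (p : ℝ) ^ w.length := by
        apply pow_le_pow_left₀ (by positivity)
        have : tt p z * z = p * (1 - z) := by
          unfold tt
          field_simp
        rw [this]
        have hp : (0 : ℝ) ≤ p := Nat.cast_nonneg p
        nlinarith

theorem twn_nonneg {p : ℕ} {z : ℝ} (h0 : 0 < z) (h1 : z < 1) (b n : ℕ) (w : List ℕ) :
    0 ≤ twn p z b n w := by
  induction n generalizing w with
  | zero => exact wt_nonneg h0 h1 w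
  | succ n ih => exact mul_nonneg (le_min zero_le_one (wt_nonneg h0 h1 _)) (ih _)

theorem wt_le_twn {p : ℕ} {z : ℝ} (h0 : 0 < z) (h1 : z < 1) (b n : ℕ)
    (w : List ℕ) (hw : ∀ e ∈ w, 1 ≤ e) (hl : b * n ≤ w.length) :
    wt p z w ≤ twn p z b n w * (p : ℝ) ^ (b * nbn p z b n w) := by
  classical
  induction n generalizing w with
  | zero => simp [twn, nbn]
  | succ n ih =>
    have hlb : b ≤ w.length := by
      refine le_trans ?_ hl
      exact Nat.le_mul_of_pos_right b (Nat.succ_pos n)
    have hd : b * n ≤ (w.drop b).length := by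
      rw [List.length_drop]
      have : b * (n + 1) = b * n + b := by ring
      omega
    have i := ih (w.drop b) (fun e he => hw e (List.mem_of_mem_drop he)) hd
    have hsplit : wt p z w = wt p z (w.take b) * wt p z (w.drop b) := by
      rw [← wt_append, List.take_append_drop]
    have htake : (w.take b).length = b := by
      rw [List.length_take]; omega
    have k1 : wt p z (w.take b) ≤ (p : ℝ) ^ b := by
      have := wt_le (p := p) h0 h1 (w.take b) (fun e he => hw e (List.mem_of_mem_take he))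
      rwa [htake] at this
    have k0 := wt_nonneg (p := p) h0 h1 (w.take b)
    have k2 : wt p z (w.take b) ≤ min 1 (wt p z (w.take b)) *
        (p : ℝ) ^ (b * (if 1 < wt p z (w.take b) then 1 else 0)) := by
      split_ifs with hc
      · rw [min_eq_left hc.le, one_mul, mul_one]
        exact k1
      · rw [min_eq_right (not_lt.1 hc), mul_zero, pow_zero, mul_one]
    have e1 : twn p z b (n + 1) w = min 1 (wt p z (w.take b)) * twn p z b n (w.drop b) := rfl
    have e2 : nbn p z b (n + 1) w = (if 1 < wt p z (w.take b) then 1 else 0) +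
        nbn p z b n (w.drop b) := by
      simp only [nbn]
    rw [hsplit, e1, e2, mul_add, pow_add]
    calc wt p z (w.take b) * wt p z (w.drop b)
        ≤ (min 1 (wt p z (w.take b)) *
            (p : ℝ) ^ (b * (if 1 < wt p z (w.take b) then 1 else 0))) *
          (twn p z b n (w.drop b) * (p : ℝ) ^ (b * nbn p z b n (w.drop b))) :=
          mul_le_mul k2 i (wt_nonneg h0 h1 _)
            (mul_nonneg (le_min zero_le_one k0) (by positivity))
      _ = _ := by ring

theorem twn_append (p : ℕ) (z : ℝ) (b n : ℕ) (u v : List ℕ) (hu : u.length = b * n) :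
    twn p z b n (u ++ v) = twn p z b n u * wt p z v := by
  induction n generalizing u with
  | zero =>
    have : u = [] := List.length_eq_zero_iff.mp (by simpa using hu)
    subst this
    simp [twn, wt_nil]
  | succ n ih =>
    have hb : b ≤ u.length := by
      rw [hu]
      exact Nat.le_mul_of_pos_right b (Nat.succ_pos n)
    simp only [twn]
    rw [List.take_append_of_le_length hb, List.drop_append_of_le_length hb, ih, mul_assoc]
    rw [List.length_drop, hu, mul_add, mul_one, Nat.add_sub_cancel]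

theorem geom (p : ℕ) (z : ℝ) (h0 : 0 < z) (A : ℕ) :
    ∑ e ∈ Icc 1 A, tt p z * z ^ e = p * (1 - z ^ A) := by
  induction A with
  | zero => simp
  | succ A ih =>
    rw [Finset.sum_Icc_succ_top (by omega), ih]
    unfold tt
    field_simp
    ring

theorem sum_wt_FW {p : ℕ} {z : ℝ} (h0 : 0 < z) (h1 : z < 1) (A r : ℕ) :
    ∑ w ∈ Pool.Agent.H320R2.PD.FW A r, wt p z w ≤ (p : ℝ) ^ r := by
  induction r with
  | zero => rw [Pool.Agent.H320R2.PD.sum_FW_zero, wt_nil, pow_zero]
  | succ r ih =>
    rw [Pool.Agent.H320R2.PD.sum_FW_succ]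
    simp only [wt_cons]
    simp only [← Finset.mul_sum]
    rw [← Finset.sum_mul, geom p z h0, pow_succ']
    have hz : z ^ A ≤ 1 := pow_le_one₀ h0.le h1.le
    have hz0 : 0 ≤ z ^ A := by positivity
    have hp : (0 : ℝ) ≤ p := Nat.cast_nonneg p
    refine mul_le_mul (by nlinarith) ih (Finset.sum_nonneg fun w _ => wt_nonneg h0 h1 w)
      hp

theorem sum_wt_le {p : ℕ} {z : ℝ} (h0 : 0 < z) (h1 : z < 1) (r : ℕ) (V : Finset (List ℕ))
    (hV : ∀ v ∈ V, v.length = r ∧ ∀ e ∈ v, 1 ≤ e) : ∑ v ∈ V, wt p z v ≤ (p : ℝ) ^ r := by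
  set A := V.sup fun v => v.sum with hA
  have hsub : V ⊆ Pool.Agent.H320R2.PD.FW A r := by
    intro v hv
    rw [Pool.Agent.H320R2.PD.mem_FW]
    refine ⟨(hV v hv).1, fun e he => ⟨(hV v hv).2 e he, ?_⟩⟩
    exact (List.le_sum_of_mem he).trans (Finset.le_sup (f := fun v : List ℕ => v.sum) hv)
  exact (Finset.sum_le_sum_of_subset_of_nonneg hsub fun w _ _ => wt_nonneg h0 h1 w).trans
    (sum_wt_FW h0 h1 A r)

theorem ok_letters (p : ℕ) (d x : ℤ) (w : List ℕ) (h : ok p d x w) : ∀ e ∈ w, 1 ≤ e := by
  induction w generalizing x with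
  | nil => simp
  | cons e w ih =>
    obtain ⟨h1, -, h3⟩ := h
    intro e' he'
    rcases List.mem_cons.mp he' with rfl | hm
    · exact h1
    · exact ih _ h3 e' hm

theorem ok_take (p : ℕ) (d x : ℤ) (w : List ℕ) (k : ℕ) (h : ok p d x w) :
    ok p d x (w.take k) := by
  induction w generalizing x k with
  | nil => simpa using h
  | cons e w ih =>
    cases k with
    | zero => simp [ok]
    | succ k =>
      obtain ⟨h1, h2, h3⟩ := h
      exact ⟨h1, h2, ih _ _ h3⟩

end GSaux

open GSaux

theorem t_WT : S_WT := by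
  intro p _ z h0 h1 b hb w hw
  exact wt_le_twn h0 h1 b _ w hw (Nat.mul_div_le _ _)

theorem t_GS (h : S_G) : S_GS := by
  classical
  intro p d hA z h0 h1 b hb ε hε
  have hp1 : (1 : ℝ) ≤ p := by
    rcases hA.1 with h | h <;> rw [h] <;> norm_num
  have hp0 : (0 : ℝ) < p := by linarith
  obtain ⟨C, hC, hG⟩ := h p d hA z h0 h1 b hb ε hε
  refine ⟨C * (p : ℝ) ^ b, by positivity, fun m x S hS => ?_⟩
  set n := m / b with hn
  have hbn : b * n ≤ m := Nat.mul_div_le m b
  have hnm : n ≤ m := Nat.div_le_self m b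
  have hr : m - b * n ≤ b := by
    have := Nat.div_add_mod m b
    have := Nat.mod_lt m (show 0 < b by omega)
    rw [hn]
    omega
  set U := S.image (List.take (b * n)) with hU
  set V := S.image (List.drop (b * n)) with hV
  have hUp : ∀ u ∈ U, u.length = b * n ∧ ok p d x u := by
    intro u hu
    obtain ⟨w, hw, rfl⟩ := Finset.mem_image.1 hu
    refine ⟨?_, ok_take p d x w _ (hS w hw).2⟩
    rw [List.length_take, (hS w hw).1]
    omega
  have hVp : ∀ v ∈ V, v.length = m - b * n ∧ ∀ e ∈ v, 1 ≤ e := by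
    intro v hv
    obtain ⟨w, hw, rfl⟩ := Finset.mem_image.1 hv
    refine ⟨?_, fun e he => ok_letters p d x w (hS w hw).2 e (List.mem_of_mem_drop he)⟩
    rw [List.length_drop, (hS w hw).1]
  have hsum : ∑ w ∈ S, tw p z b w ≤ ∑ q ∈ U ×ˢ V, twn p z b n q.1 * wt p z q.2 := by
    have hinj : Set.InjOn (fun w : List ℕ => (w.take (b * n), w.drop (b * n))) S := by
      intro w1 _ w2 _ h12
      have h3 := (Prod.ext_iff.1 h12).1
      have h4 := (Prod.ext_iff.1 h12).2
      simp only at h3 h4
      rw [← List.take_append_drop (b * n) w1, ← List.take_append_drop (b * n) w2, h3, h4]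
    have e1 : ∑ w ∈ S, tw p z b w =
        ∑ q ∈ S.image (fun w : List ℕ => (w.take (b * n), w.drop (b * n))),
          twn p z b n q.1 * wt p z q.2 := by
      rw [Finset.sum_image hinj]
      refine Finset.sum_congr rfl fun w hw => ?_
      have hl := (hS w hw).1
      have : twn p z b n w = twn p z b n (w.take (b * n)) * wt p z (w.drop (b * n)) := by
        rw [← twn_append, List.take_append_drop]
        rw [List.length_take, hl]
        omega
      rw [← this]
      unfold tw
      rw [hl]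
    rw [e1]
    apply Finset.sum_le_sum_of_subset_of_nonneg
    · intro q hq
      obtain ⟨w, hw, rfl⟩ := Finset.mem_image.1 hq
      exact Finset.mem_product.2 ⟨Finset.mem_image_of_mem _ hw, Finset.mem_image_of_mem _ hw⟩
    · intro q _ _
      exact mul_nonneg (twn_nonneg h0 h1 _ _ _) (wt_nonneg h0 h1 _)
  have hprod : ∑ q ∈ U ×ˢ V, twn p z b n q.1 * wt p z q.2 =
      (∑ u ∈ U, twn p z b n u) * ∑ v ∈ V, wt p z v := by
    rw [Finset.sum_mul_sum, Finset.sum_product]
  have k1 := hG n x U hUp
  have k2 := sum_wt_le (p := p) h0 h1 (m - b * n) V hVp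
  have k3 : (p : ℝ) ^ (m - b * n) ≤ (p : ℝ) ^ b := pow_le_pow_right₀ hp1 hr
  have k4 : Real.exp (ε * n) ≤ Real.exp (ε * m) := by
    apply Real.exp_le_exp.2
    apply mul_le_mul_of_nonneg_left _ hε.le
    exact_mod_cast hnm
  calc ∑ w ∈ S, tw p z b w ≤ (∑ u ∈ U, twn p z b n u) * ∑ v ∈ V, wt p z v := hsum.trans hprod.le
    _ ≤ (C * Real.exp (ε * n)) * (p : ℝ) ^ b :=
        mul_le_mul k1 (k2.trans k3) (Finset.sum_nonneg fun w _ => wt_nonneg h0 h1 w)
          (by positivity)
    _ ≤ (C * Real.exp (ε * m)) * (p : ℝ) ^ b := by gcongr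
    _ = C * (p : ℝ) ^ b * Real.exp (ε * m) := by ring

end Pool.Agent.N685.FD
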