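import Pool.Agent.N685.FD.Stm

/-!
PROJECT FD (helper685), part GEN (helper263; port of FT/Gen.lean by helper521): choice of the scale, main bound.
-/

set_option autoImplicit false

namespace Pool.Agent.N685.FD

open Finset Pool.Agent.H377R2.NK

namespace Gen

lemma mass_nil (lo hi : ℕ) : mass lo hi [] = 0 := by
  unfold mass
  simp

lemma mass_cons (lo hi : ℕ) (u : List ℕ) (P : List (List ℕ)) :
    mass lo hi (u :: P) = (if lo ≤ u.length ∧ u.length < hi then u.length else 0) + mass lo hi P := by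
  unfold mass
  rw [List.map_cons, List.filter_cons]
  by_cases h : lo ≤ u.length ∧ u.length < hi
  · rw [if_pos h, if_pos (by simpa using h), List.sum_cons]
  · rw [if_neg h, if_neg (by simpa using h), zero_add]

lemma mass_mono {lo hi hi' : ℕ} (h : hi ≤ hi') (P : List (List ℕ)) :
    mass lo hi P ≤ mass lo hi' P := by
  induction P with
  | nil => rw [mass_nil, mass_nil]
  | cons u P ih =>
    rw [mass_cons, mass_cons]
    split_ifs <;> omega

lemma mass_add {lo mid hi : ℕ} (h1 : lo ≤ mid) (h2 : mid ≤ hi) (P : List (List ℕ)) :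
    mass lo mid P + mass mid hi P = mass lo hi P := by
  induction P with
  | nil => rw [mass_nil, mass_nil, mass_nil]
  | cons u P ih =>
    rw [mass_cons, mass_cons, mass_cons]
    split_ifs <;> omega

lemma mass_le (lo hi : ℕ) (P : List (List ℕ)) : mass lo hi P ≤ P.flatten.length := by
  induction P with
  | nil => rw [mass_nil]; exact Nat.zero_le _
  | cons u P ih =>
    rw [mass_cons, List.flatten_cons, List.length_append]
    split_ifs <;> omega

lemma sum_mass (lo hi : ℕ → ℕ) (h1 : ∀ i, lo i ≤ hi i) (h2 : ∀ i, hi i ≤ lo (i + 1))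
    (P : List (List ℕ)) (J : ℕ) : ∑ i ∈ range J, mass (lo i) (hi i) P ≤ mass 0 (lo J) P := by
  induction J with
  | zero => simp
  | succ J ih =>
    rw [sum_range_succ]
    have h3 := mass_add (Nat.zero_le (lo J)) (h1 J) P
    have h4 := mass_mono (lo := 0) (h2 J) P
    omega

lemma exists_small (f : ℕ → ℕ) (J N : ℕ) (hJ : 1 ≤ J) (h : ∑ i ∈ range J, f i ≤ N) :
    ∃ i < J, J * f i ≤ N := by
  by_contra hcon
  push Not at hcon
  have h1 : ∑ i ∈ range J, N < ∑ i ∈ range J, J * f i := by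
    refine sum_lt_sum_of_nonempty ⟨0, mem_range.2 (by omega)⟩ fun i hi => hcon i (mem_range.1 hi)
  rw [sum_const, card_range, smul_eq_mul, ← mul_sum] at h1
  have h2 : J * ∑ i ∈ range J, f i ≤ J * N := Nat.mul_le_mul_left J h
  omega

lemma wt_nonneg (p : ℕ) {z : ℝ} (h0 : 0 < z) (h1 : z < 1) (w : List ℕ) : 0 ≤ wt p z w := by
  unfold wt tt
  have : 0 < 1 - z := by linarith
  positivity

end Gen

open Gen in
theorem t_GEN (h1 : S_REC) (h2 : S_DCM) (h3 : S_REN) : S_GEN := by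
  intro p d hpd z hQ
  have hz0 : 0 < z := hQ.1
  have hz1 : z < 1 := hQ.2.1
  have hp1 : (1 : ℝ) < p := by
    rcases hpd.1 with h | h <;> rw [h] <;> norm_num
  have hp0 : (0 : ℝ) < p := by linarith
  obtain ⟨cD, hcD, κ, hκ0, hκ1, hκ⟩ := h2 p d hpd z hQ
  obtain ⟨cR, hcR, hR⟩ := h3 p d hpd z hQ
  refine ⟨max cD cR, hcD.trans (le_max_left _ _), ?_⟩
  intro c hc ε hε
  have hccD : cD ≤ c := (le_max_left _ _).trans hc
  have hccR : cR ≤ c := (le_max_right _ _).trans hc
  set K : ℝ := 1 + 1 / κ with hK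
  have hK0 : 0 < K := by positivity
  have hlog : 0 < Real.log p := Real.log_pos hp1
  -- the number of the scales
  obtain ⟨J, hJ⟩ := exists_nat_gt (K * Real.log p / (ε / 2))
  have hJ0 : (0 : ℝ) < J := lt_of_le_of_lt (by positivity) hJ
  have hJ1 : 1 ≤ J := by exact_mod_cast hJ0
  have hJ2 : K * Real.log p / J ≤ ε / 2 := by
    rw [div_le_iff₀ hJ0]
    rw [div_lt_iff₀ (by positivity)] at hJ
    linarith
  -- the renewal bounds
  have hren := fun b : ℕ => hR c hccR (b + 1) (by omega) (ε / 2) (by positivity)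
  choose Cf Lf hCf0 hCf using hren
  -- the scales
  let hi' : ℕ → ℕ := fun s => max (Lf s) ⌈κ * ((s + 1 : ℕ) : ℝ)⌉₊
  let s : ℕ → ℕ := fun i => Nat.rec 0 (fun _ t => ⌈(hi' t : ℝ) / κ⌉₊) i
  have hs : ∀ i, s (i + 1) = ⌈(hi' (s i) : ℝ) / κ⌉₊ := fun i => rfl
  let lo : ℕ → ℕ := fun i => ⌈κ * ((s i + 1 : ℕ) : ℝ)⌉₊
  let hi : ℕ → ℕ := fun i => hi' (s i)
  have hlohi : ∀ i, lo i ≤ hi i := fun i => le_max_right _ _
  have hhilo : ∀ i, hi i ≤ lo (i + 1) := by
    intro i
    have h4 : (hi i : ℝ) ≤ κ * ((s (i + 1) + 1 : ℕ) : ℝ) := by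
      have h5 : (hi' (s i) : ℝ) / κ ≤ (s (i + 1) : ℝ) := by
        rw [hs]
        exact Nat.le_ceil _
      rw [div_le_iff₀ hκ0] at h5
      push_cast
      show (hi' (s i) : ℝ) ≤ _
      nlinarith
    have h6 : (hi i : ℝ) ≤ ((lo (i + 1) : ℕ) : ℝ) := h4.trans (Nat.le_ceil _)
    exact_mod_cast h6
  refine ⟨∑ i ∈ range J, Cf (s i), sum_pos (fun i _ => hCf0 _) ⟨0, mem_range.2 (by omega)⟩, ?_⟩
  intro N a S ha hS
  have hex : ∀ w, ∃ i β : ℕ, w ∈ S → (i < J ∧ Dec p d c z (s i + 1) (hi i) a w β ∧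
      (((s i + 1) * β : ℕ) : ℝ) ≤ K * N / J) := by
    intro w
    by_cases hw : w ∈ S
    · obtain ⟨hwN, hwok, hwab, hwab2⟩ := hS w hw
      obtain ⟨P, hP, hPP⟩ := h1 p d c a w hwok hwab hwab2
      have h4 := sum_mass lo hi hlohi hhilo P J
      have h5 := mass_le 0 (lo J) P
      rw [hP, hwN] at h5
      obtain ⟨i, hiJ, hi1⟩ := exists_small (fun i => mass (lo i) (hi i) P) J N hJ1 (h4.trans h5)
      obtain ⟨β, hβ, hβ2⟩ := hκ c a (s i + 1) (hi i) P hccD (by omega) ha hPP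
      rw [hP] at hβ
      refine ⟨i, β, fun _ => ⟨hiJ, hβ, hβ2.trans ?_⟩⟩
      have h6 : (J : ℝ) * (mass (lo i) (hi i) P : ℝ) ≤ N := by exact_mod_cast hi1
      rw [le_div_iff₀ hJ0]
      have h7 : K * (mass (lo i) (hi i) P : ℝ) * J ≤ K * N := by
        rw [mul_assoc]
        refine mul_le_mul_of_nonneg_left ?_ hK0.le
        linarith
      exact h7
    · exact ⟨0, 0, fun h => absurd h hw⟩
  choose fi fβ hf using hex
  have hsum : ∑ w ∈ S, wt p z w = ∑ i ∈ range J, ∑ w ∈ S.filter (fun w => fi w = i), wt p z w :=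
    (sum_fiberwise_of_maps_to (fun w hw => mem_range.2 (hf w hw).1) _).symm
  rw [hsum, sum_mul]
  refine sum_le_sum fun i hiJ => ?_
  have h4 : ∀ w ∈ S.filter (fun w => fi w = i), wt p z w ≤
      (wt p z w / (p : ℝ) ^ ((s i + 1) * fβ w)) * Real.exp (ε / 2 * N) := by
    intro w hw
    rw [mem_filter] at hw
    obtain ⟨hwS, hwi⟩ := hw
    obtain ⟨_, _, h5⟩ := hf w hwS
    rw [hwi] at h5
    have h6 : (p : ℝ) ^ ((s i + 1) * fβ w) ≤ Real.exp (ε / 2 * N) := by
      have h7 : (p : ℝ) ^ ((s i + 1) * fβ w) =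
          Real.exp ((((s i + 1) * fβ w : ℕ) : ℝ) * Real.log p) := by
        rw [mul_comm _ (Real.log p), Real.exp_mul, Real.exp_log hp0, Real.rpow_natCast]
      rw [h7]
      apply Real.exp_le_exp.2
      have h8 := mul_le_mul_of_nonneg_right h5 hlog.le
      refine h8.trans ?_
      have h9 : K * N / J * Real.log p = K * Real.log p / J * N := by ring
      rw [h9]
      exact mul_le_mul_of_nonneg_right hJ2 (Nat.cast_nonneg _)
    have h3p : (0 : ℝ) < (p : ℝ) ^ ((s i + 1) * fβ w) := by positivity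
    rw [div_mul_eq_mul_div, le_div_iff₀ h3p]
    exact mul_le_mul_of_nonneg_left h6 (wt_nonneg p hz0 hz1 w)
  refine (sum_le_sum h4).trans ?_
  rw [← sum_mul]
  have h5 := hCf (s i) (hi i) (le_max_left _ _) N a (S.filter (fun w => fi w = i)) fβ (by
    intro w hw
    rw [mem_filter] at hw
    obtain ⟨hwS, hwi⟩ := hw
    obtain ⟨_, h6, _⟩ := hf w hwS
    rw [hwi] at h6
    exact ⟨(hS w hwS).1, h6⟩)
  refine (mul_le_mul_of_nonneg_right h5 (Real.exp_pos _).le).trans (le_of_eq ?_)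
  rw [mul_assoc, ← Real.exp_add]
  congr 2
  ring

end Pool.Agent.N685.FD
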