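import Pool.Agent.N685.FD.Stm

/-!
# (PC) the number of the pieces from `a` of given length and sum

Project FD (helper685); this file is by helper692, after `FT/PC.lean`.
-/

set_option autoImplicit false

namespace Pool.Agent.N685.FD

open Finset Pool.Agent.H377R2.NK

namespace PC

lemma ok_pos (p : ℕ) (d : ℤ) : ∀ (w : List ℕ) (x : ℤ), ok p d x w → ∀ e ∈ w, 1 ≤ e
  | [], _, _, e, he => absurd he (by simp)
  | e' :: w, x, h, e, he => by
      rcases List.mem_cons.1 he with h' | h'
      · rw [h']; exact h.1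
      · exact ok_pos p d w _ h.2.2 e h'

lemma st_eq {p : ℕ} {d : ℤ} {e : ℕ} {x : ℤ} (h : (p : ℤ) ∣ 2 ^ e * x - d) :
    2 ^ e * x = p * st p d e x + d := by
  unfold st
  rw [Int.mul_ediv_cancel' h]
  ring

lemma fin_eq (p : ℕ) (d : ℤ) : ∀ (w : List ℕ) (x : ℤ), ok p d x w →
    2 ^ w.sum * x = p ^ w.length * fin p d x w + d * (Wp p w : ℤ)
  | [], x, _ => by simp [fin, Wp]
  | e :: w, x, h => by
      have h1 := st_eq h.2.1
      have h2 := fin_eq p d w _ h.2.2
      rw [List.sum_cons, List.length_cons, pow_add, pow_succ, Wp, fin]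
      push_cast
      linear_combination (2 : ℤ) ^ w.sum * h1 + (p : ℤ) * h2

/-- the points after the start of the tail -/
lemma tail_pts {p : ℕ} {d b : ℤ} {e : ℕ} {w : List ℕ} {x : ℤ}
    (hp : ∀ i, 0 < i → i ≤ (e :: w).length → b ≤ fin p d x ((e :: w).take i)) :
    b ≤ st p d e x ∧ ∀ i, 0 < i → i ≤ w.length → b ≤ fin p d (st p d e x) (w.take i) := by
  constructor
  · have h4 := hp 1 one_pos (by simp)
    simpa [fin] using h4
  · intro i hi hil
    have h3 := hp (i + 1) (Nat.succ_pos i) (by simpa using hil)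
    rwa [List.take_succ_cons, fin] at h3

/-- the growth along a path with large points -/
lemma grow {p : ℕ} {d b : ℤ} {u : ℝ} (hu : 0 ≤ u) (hb : (|d| : ℝ) ≤ p * b * u) (hp0 : 1 ≤ p) :
    ∀ (w : List ℕ) (x : ℤ), ok p d x w →
    (∀ i, 0 < i → i ≤ w.length → b ≤ fin p d x (w.take i)) →
    (2 : ℝ) ^ w.sum * x ≤ (p * (1 + u)) ^ w.length * fin p d x w
  | [], x, _, _ => by simp [fin]
  | e :: w, x, h, hp => by
      have h1 := st_eq h.2.1
      obtain ⟨h3, hp'⟩ := tail_pts hp
      have h2 := grow hu hb hp0 w (st p d e x) h.2.2 hp'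
      have hp1 : (1 : ℝ) ≤ p := by exact_mod_cast hp0
      have h3' : (b : ℝ) ≤ st p d e x := by exact_mod_cast h3
      have h1' : (2 : ℝ) ^ e * x = p * st p d e x + d := by exact_mod_cast h1
      have h5 : (2 : ℝ) ^ e * x ≤ (p * (1 + u)) * st p d e x := by
        rw [h1']
        have h6 : (d : ℝ) ≤ |(d : ℝ)| := le_abs_self _
        have h7 : (p : ℝ) * b * u ≤ p * st p d e x * u := by gcongr
        linarith
      rw [List.sum_cons, List.length_cons, pow_add, fin]
      calc (2 : ℝ) ^ e * 2 ^ w.sum * x = 2 ^ w.sum * (2 ^ e * x) := by ring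
        _ ≤ 2 ^ w.sum * ((p * (1 + u)) * st p d e x) :=
            mul_le_mul_of_nonneg_left h5 (by positivity)
        _ = (2 ^ w.sum * st p d e x) * (p * (1 + u)) := by ring
        _ ≤ ((p * (1 + u)) ^ w.length * fin p d (st p d e x) w) * (p * (1 + u)) :=
            mul_le_mul_of_nonneg_right h2 (by positivity)
        _ = _ := by rw [pow_succ]; ring

/-- the bound for the constant term -/
lemma Wp_le {p : ℕ} {d : ℤ} {u : ℝ} (hu : 0 ≤ u) (hp0 : 1 ≤ p) {y : ℤ} (hy : 0 < y)
    (hb : (|d| : ℝ) ≤ p * y * u) :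
    ∀ (w : List ℕ) (x : ℤ), ok p d x w → fin p d x w = y →
    (∀ i, 0 < i → i ≤ w.length → y ≤ fin p d x (w.take i)) →
    (Wp p w : ℝ) ≤ w.length * (p * (1 + u)) ^ w.length
  | [], x, _, _, _ => by simp [Wp]
  | e :: w, x, h, hf, hp => by
      obtain ⟨h3, hp'⟩ := tail_pts hp
      rw [fin] at hf
      have h2 := Wp_le hu hp0 hy hb w (st p d e x) h.2.2 hf hp'
      have h4 := grow hu hb hp0 w (st p d e x) h.2.2 hp'
      rw [hf] at h4
      have hp1 : (1 : ℝ) ≤ p := by exact_mod_cast hp0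
      have hy' : (0 : ℝ) < y := by exact_mod_cast hy
      have h3' : (y : ℝ) ≤ st p d e x := by exact_mod_cast h3
      have h5 : (2 : ℝ) ^ w.sum ≤ (p * (1 + u)) ^ w.length := by
        have h6 : (2 : ℝ) ^ w.sum * y ≤ (p * (1 + u)) ^ w.length * y :=
          (mul_le_mul_of_nonneg_left h3' (by positivity)).trans h4
        exact le_of_mul_le_mul_right h6 hy'
      have hq : (1 : ℝ) ≤ p * (1 + u) := by nlinarith
      have hq2 : (p : ℝ) ≤ p * (1 + u) := by nlinarith
      have hQ : (0 : ℝ) ≤ (p * (1 + u)) ^ w.length := by positivity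
      rw [Wp, List.length_cons, pow_succ]
      push_cast
      calc (2 : ℝ) ^ w.sum + p * (Wp p w : ℝ)
          ≤ (p * (1 + u)) ^ w.length + (p * (1 + u)) * (w.length * (p * (1 + u)) ^ w.length) := by
            refine add_le_add h5 ?_
            refine (mul_le_mul_of_nonneg_left h2 (by positivity)).trans ?_
            exact mul_le_mul_of_nonneg_right hq2 (by positivity)
        _ ≤ (p * (1 + u)) ^ w.length * (p * (1 + u)) +
              (p * (1 + u)) * (w.length * (p * (1 + u)) ^ w.length) := by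
            gcongr
            exact le_mul_of_one_le_right hQ hq
        _ = _ := by ring

end PC

open PC in
/-- **(PC)** -/
theorem t_PC : S_PC := by
  intro p d hA δ hδ
  have hp0 : 1 ≤ p := by rcases hA.1 with h | h <;> omega
  have hpo : Odd p := by rcases hA.1 with h | h <;> rw [h] <;> decide
  have hd : d ≠ 0 := by
    intro h
    exact hA.2.1 (h ▸ dvd_zero _)
  have hp1 : (1 : ℝ) ≤ p := by exact_mod_cast hp0
  set u : ℝ := δ / 4 with hu
  have hu0 : 0 < u := by positivity
  set D : ℝ := |(d : ℝ)| with hD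
  have hD0 : 0 ≤ D := abs_nonneg _
  refine ⟨⌈D / u⌉, Int.ceil_nonneg (by positivity), 2 * (D * (4 / δ)) + 1, by positivity, ?_⟩
  intro c a l s S hc ha hl hS
  classical
  -- the endpoints determine the words
  have hinj : Set.InjOn (fin p d a) (S : Set (List ℕ)) := by
    intro v hv w hw hvw
    obtain ⟨hu1, hu2, hu3⟩ := hS v hv
    obtain ⟨hv1, hv2, hv3⟩ := hS w hw
    have h1 := fin_eq p d v a hu3.2.1
    have h2 := fin_eq p d w a hv3.2.1
    rw [hu1, hu2, hvw] at h1
    rw [hv1, hv2] at h2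
    have h3 : d * (Wp p v : ℤ) = d * Wp p w := by linarith
    have h4 : (Wp p v : ℤ) = Wp p w := mul_left_cancel₀ hd h3
    exact Wp_inj (p := p) hpo (ok_pos p d v a hu3.2.1) (ok_pos p d w a hv3.2.1) (by rw [hu1, hv1])
      (by rw [hu2, hv2]) (by exact_mod_cast h4)
  rw [← card_image_of_injOn hinj]
  set B : ℝ := 2 ^ s * a / p ^ l with hB
  set R : ℝ := D * (4 / δ) * Real.exp (δ * l / 2) with hR
  have hR0 : 0 ≤ R := by positivity
  have hsub : S.image (fin p d a) ⊆ Icc ⌈B - R⌉ ⌊B + R⌋ := by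
    intro y hy
    rw [mem_image] at hy
    obtain ⟨w, hw, rfl⟩ := hy
    obtain ⟨h1, h2, hne, hok, hlt, hclt, hmin⟩ := hS w hw
    set y : ℤ := fin p d a w with hydef
    have hy0 : 0 < y := by omega
    have hyc : (D / u : ℝ) ≤ y := by
      have h3 : (⌈D / u⌉ : ℤ) ≤ y := by omega
      exact (Int.le_ceil _).trans (by exact_mod_cast h3)
    have hb : (|d| : ℝ) ≤ p * y * u := by
      have h4 : D ≤ y * u := by
        rw [div_le_iff₀ hu0] at hyc
        exact hyc
      have h5 : (0 : ℝ) ≤ y * u := hD0.trans h4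
      calc (|d| : ℝ) = D := rfl
        _ ≤ y * u := h4
        _ ≤ p * (y * u) := le_mul_of_one_le_left h5 hp1
        _ = p * y * u := by ring
    have hW := Wp_le hu0.le hp0 hy0 hb w a hok rfl hmin
    have hfe := fin_eq p d w a hok
    rw [h1, h2] at hfe
    rw [h1] at hW
    have hfe' : (2 : ℝ) ^ s * a = p ^ l * y + d * (Wp p w : ℝ) := by exact_mod_cast hfe
    have hpl : (0 : ℝ) < (p : ℝ) ^ l := by positivity
    have hBy : B - y = d * (Wp p w : ℝ) / p ^ l := by
      rw [hB, hfe']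
      field_simp
      ring
    have habs : |B - y| ≤ R := by
      rw [hBy, abs_div, abs_mul, abs_of_pos hpl, div_le_iff₀ hpl, Nat.abs_cast, hR]
      have h6 : (1 + u) ^ l ≤ Real.exp (δ * l / 4) := by
        have h7 : 1 + u ≤ Real.exp u := by
          have := Real.add_one_le_exp u
          linarith
        calc (1 + u) ^ l ≤ Real.exp u ^ l := pow_le_pow_left₀ (by positivity) h7 l
          _ = Real.exp (l * u) := by rw [← Real.exp_nat_mul]
          _ = Real.exp (δ * l / 4) := by rw [hu]; congr 1; ring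
      have h8 : (l : ℝ) ≤ 4 / δ * Real.exp (δ * l / 4) := by
        have h9 := Real.add_one_le_exp (δ * l / 4)
        have h10 : (l : ℝ) = 4 / δ * (δ * l / 4) := by field_simp
        calc (l : ℝ) = 4 / δ * (δ * l / 4) := h10
          _ ≤ 4 / δ * Real.exp (δ * l / 4) := by
            refine mul_le_mul_of_nonneg_left ?_ (by positivity)
            linarith
      calc |(d : ℝ)| * (Wp p w : ℝ) ≤ D * (l * (p * (1 + u)) ^ l) :=
            mul_le_mul_of_nonneg_left hW hD0
        _ = D * (l * (1 + u) ^ l) * p ^ l := by rw [mul_pow]; ring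
        _ ≤ D * ((4 / δ * Real.exp (δ * l / 4)) * Real.exp (δ * l / 4)) * p ^ l := by
            gcongr
        _ = D * (4 / δ) * Real.exp (δ * l / 2) * p ^ l := by
            have h11 : Real.exp (δ * l / 2) = Real.exp (δ * l / 4) * Real.exp (δ * l / 4) := by
              rw [← Real.exp_add]; congr 1; ring
            rw [h11]; ring
    obtain ⟨h12, h13⟩ := abs_le.1 habs
    rw [mem_Icc, Int.ceil_le, Int.le_floor]
    constructor <;> linarith
  have hcard := card_le_card hsub
  rw [Int.card_Icc] at hcard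
  have h14 : (((⌊B + R⌋ + 1 - ⌈B - R⌉).toNat : ℕ) : ℝ) ≤ 2 * R + 1 := by
    have h15 : (⌊B + R⌋ : ℝ) ≤ B + R := Int.floor_le _
    have h16 : B - R ≤ (⌈B - R⌉ : ℝ) := Int.le_ceil _
    have h17 : (((⌊B + R⌋ + 1 - ⌈B - R⌉).toNat : ℤ) : ℝ) ≤ 2 * R + 1 := by
      rw [Int.toNat_eq_max]
      push_cast
      refine max_le ?_ (by linarith)
      linarith
    exact_mod_cast h17
  have h18 : ((S.image (fin p d a)).card : ℝ) ≤ 2 * R + 1 :=
    (Nat.cast_le.2 hcard).trans h14
  refine h18.trans ?_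
  have h19 : Real.exp (δ * l / 2) ≤ Real.exp (δ * l) := by
    apply Real.exp_le_exp.2
    have : 0 ≤ δ * l := by positivity
    linarith
  have h20 : 1 ≤ Real.exp (δ * l) := Real.one_le_exp (by positivity)
  calc 2 * R + 1 = 2 * (D * (4 / δ)) * Real.exp (δ * l / 2) + 1 := by rw [hR]; ring
    _ ≤ 2 * (D * (4 / δ)) * Real.exp (δ * l) + Real.exp (δ * l) := by gcongr
    _ = (2 * (D * (4 / δ)) + 1) * Real.exp (δ * l) := by ring

end Pool.Agent.N685.FD
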