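import Pool.Agent.N685.FD.Stm

/-!
# Project FD (helper685), PW (helper650): the total weight of the pieces of given length

Port of the file `Pool.Agent.N685.FT.PW` (helper803).
-/

set_option autoImplicit false

namespace Pool.Agent.N685.FD

namespace PW

open Finset

/-- the endpoint of a valid word whose points after the start are large -/
theorem fin_le {p : ℕ} {d c : ℤ} {ρ : ℝ} (hρ : 0 ≤ ρ) (hc : ∀ x : ℤ, c < x →
    (p : ℝ) * ρ * x ≤ p * x + d) : ∀ (w : List ℕ) (x : ℤ), ok p d x w →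
    (∀ i, 0 < i → i ≤ w.length → c < FD.fin p d x (w.take i)) →
    ((p : ℝ) * ρ) ^ w.length * (FD.fin p d x w : ℝ) ≤ 2 ^ w.sum * x
  | [], x, _, _ => by
    show ((p : ℝ) * ρ) ^ 0 * (x : ℝ) ≤ 2 ^ 0 * x
    simp
  | e :: w, x, h, hi => by
    obtain ⟨h1, h2, h3⟩ := h
    have ih := fin_le hρ hc w (st p d e x) h3 (fun i hi0 hiw => by
      have := hi (i + 1) (by omega) (by simpa using hiw)
      simpa [FD.fin] using this)
    have h4 : (p : ℤ) * st p d e x = 2 ^ e * x - d := Int.mul_ediv_cancel' h2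
    have h4' : (p : ℝ) * (st p d e x : ℝ) = 2 ^ e * x - d := by exact_mod_cast h4
    have h5 : c < st p d e x := by
      have := hi 1 (by norm_num) (by simp)
      simpa [FD.fin] using this
    have h6 := hc _ h5
    show ((p : ℝ) * ρ) ^ (w.length + 1) * (FD.fin p d (st p d e x) w : ℝ) ≤
      2 ^ (e :: w).sum * x
    rw [List.sum_cons, pow_add 2 e w.sum, pow_succ ((p : ℝ) * ρ) w.length]
    have h7 : (0 : ℝ) ≤ (p : ℝ) * ρ := by positivity
    calc ((p : ℝ) * ρ) ^ w.length * ((p : ℝ) * ρ) * (FD.fin p d (st p d e x) w : ℝ)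
        = ((p : ℝ) * ρ) * (((p : ℝ) * ρ) ^ w.length * (FD.fin p d (st p d e x) w : ℝ)) := by ring
      _ ≤ ((p : ℝ) * ρ) * (2 ^ w.sum * (st p d e x : ℝ)) := mul_le_mul_of_nonneg_left ih h7
      _ = 2 ^ w.sum * ((p : ℝ) * ρ * (st p d e x : ℝ)) := by ring
      _ ≤ 2 ^ w.sum * (2 ^ e * x) :=
          mul_le_mul_of_nonneg_left (by linarith) (by positivity)
      _ = _ := by ring

/-- the sum of the letters of a piece is large -/
theorem piece_pow {p : ℕ} {d c a : ℤ} {ρ : ℝ} (hρ : 0 ≤ ρ) (hc : ∀ x : ℤ, c < x →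
    (p : ℝ) * ρ * x ≤ p * x + d) {w : List ℕ} (ha : 1 ≤ a) (h : Piece p d c a w) :
    ((p : ℝ) * ρ) ^ w.length ≤ 2 ^ w.sum := by
  obtain ⟨-, h2, h3, h3', h5⟩ := h
  have h4 := fin_le hρ hc w a h2 (fun i h1 h6 => lt_of_lt_of_le h3' (h5 i h1 h6))
  have ha0 : (0 : ℝ) < a := by exact_mod_cast (by omega : 0 < a)
  have h3r : (a : ℝ) ≤ (FD.fin p d a w : ℝ) := by exact_mod_cast h3.le
  have h7 : ((p : ℝ) * ρ) ^ w.length * a ≤ 2 ^ w.sum * a :=
    (mul_le_mul_of_nonneg_left h3r (by positivity)).trans h4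
  exact le_of_mul_le_mul_right h7 ha0

/-- a finite geometric sum -/
theorem geom_le {z : ℝ} (h0 : 0 < z) (h1 : z < 1) (s0 : ℕ) (I : Finset ℕ) (hI : ∀ s ∈ I, s0 ≤ s) :
    ∑ s ∈ I, z ^ s ≤ z ^ s0 / (1 - z) := by
  have e1 : ∑ s ∈ I, z ^ s = z ^ s0 * ∑ s ∈ I, z ^ (s - s0) := by
    rw [Finset.mul_sum]
    refine Finset.sum_congr rfl fun s hs => ?_
    rw [← pow_add, Nat.add_sub_cancel' (hI s hs)]
  have e2 : ∑ s ∈ I, z ^ (s - s0) = ∑ n ∈ I.image (fun s => s - s0), z ^ n := by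
    rw [Finset.sum_image]
    intro s hs t ht hst
    have h3 := hI s hs
    have h4 := hI t ht
    simp only at hst
    omega
  have e3 : ∑ n ∈ I.image (fun s => s - s0), z ^ n ≤ (1 - z)⁻¹ := by
    rw [← tsum_geometric_of_lt_one h0.le h1]
    exact (summable_geometric_of_lt_one h0.le h1).sum_le_tsum _ fun n _ => by positivity
  rw [e1, e2, div_eq_mul_inv]
  exact mul_le_mul_of_nonneg_left e3 (by positivity)

theorem tt_pos {p : ℕ} (hp : 0 < p) {z : ℝ} (h0 : 0 < z) (h1 : z < 1) : 0 < tt p z := by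
  unfold tt
  have h2 : 0 < 1 - z := by linarith
  have h3 : (0 : ℝ) < p := by exact_mod_cast hp
  positivity

end PW

theorem t_PW (h : S_PC) : S_PW := by
  intro p d hA z hQ
  obtain ⟨hz, h1, hlt⟩ := hQ
  have hp1 : 1 < p := by
    rcases hA.1 with h | h <;> rw [h] <;> norm_num
  have hpr : (1 : ℝ) < p := by exact_mod_cast hp1
  have hz1 : 0 < 1 - z := by linarith
  have hL2 : 0 < Real.log 2 := Real.log_pos (by norm_num)
  have hLz : 0 < Real.log (1 / z) := Real.log_pos (by rw [lt_div_iff₀ hz]; linarith)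
  have htt := PW.tt_pos (by omega : 0 < p) hz h1
  obtain ⟨g, hg⟩ : ∃ g, g = Real.log p * Real.log (1 / z) / Real.log 2 - Real.log (tt p z) :=
    ⟨_, rfl⟩
  have hg0 : 0 < g := by
    rw [hg, sub_pos, lt_div_iff₀ hL2]
    exact hlt
  obtain ⟨c1, hc10, K, hK, hPC⟩ := h p d hA (g / 4) (by positivity)
  -- the factor
  obtain ⟨ρ, hρ⟩ : ∃ ρ, ρ = Real.exp (-(g * Real.log 2 / (4 * Real.log (1 / z)))) := ⟨_, rfl⟩
  have hρ0 : 0 < ρ := by rw [hρ]; exact Real.exp_pos _
  have hρ1 : ρ < 1 := by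
    rw [hρ, Real.exp_lt_one_iff, neg_lt_zero]
    positivity
  have hlρ : Real.log ρ = -(g * Real.log 2 / (4 * Real.log (1 / z))) := by
    rw [hρ, Real.log_exp]
  refine ⟨max c1 ⌈|(d : ℝ)| / (1 - ρ)⌉, le_max_of_le_left hc10, g / 2, K / (1 - z),
    by positivity, by positivity, ?_⟩
  intro c a l S hc ha hl hS
  have hc1 : c1 ≤ c := (le_max_left _ _).trans hc
  have hcx : ∀ x : ℤ, c < x → (p : ℝ) * ρ * x ≤ p * x + d := by
    intro x hx
    have h2 : |(d : ℝ)| / (1 - ρ) ≤ c := by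
      refine (Int.le_ceil _).trans ?_
      exact_mod_cast (le_max_right _ _).trans hc
    have h3 : (c : ℝ) ≤ x := by exact_mod_cast hx.le
    have h4 : |(d : ℝ)| ≤ x * (1 - ρ) := (div_le_iff₀ (by linarith)).1 (h2.trans h3)
    have h5 : 0 ≤ (x : ℝ) * (1 - ρ) := (abs_nonneg _).trans h4
    have h6 : (x : ℝ) * (1 - ρ) ≤ p * (x * (1 - ρ)) := le_mul_of_one_le_left h5 hpr.le
    have h7 := neg_abs_le (d : ℝ)
    nlinarith
  -- the least sum
  obtain ⟨β, hβ⟩ : ∃ β, β = Real.log p + Real.log ρ := ⟨_, rfl⟩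
  obtain ⟨s0, hs0⟩ : ∃ s0 : ℕ, s0 = ⌈(l : ℝ) * β / Real.log 2⌉₊ := ⟨_, rfl⟩
  have e1 : ∑ w ∈ S, wt p z w = tt p z ^ l * ∑ w ∈ S, z ^ w.sum := by
    rw [Finset.mul_sum]
    refine Finset.sum_congr rfl fun w hw => ?_
    unfold wt
    rw [(hS w hw).1]
  have e2 : ∑ w ∈ S, z ^ w.sum ≤ K * Real.exp (g / 4 * l) * ∑ s ∈ S.image List.sum, z ^ s := by
    rw [Finset.sum_comp (fun s => z ^ s) List.sum, Finset.mul_sum]
    refine Finset.sum_le_sum fun s _ => ?_
    rw [nsmul_eq_mul]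
    refine mul_le_mul_of_nonneg_right ?_ (by positivity)
    exact hPC c a l s (S.filter fun w => w.sum = s) hc1 ha hl (by
      intro w hw
      rw [Finset.mem_filter] at hw
      exact ⟨(hS w hw.1).1, hw.2, (hS w hw.1).2⟩)
  have e3 : ∑ s ∈ S.image List.sum, z ^ s ≤ z ^ s0 / (1 - z) := by
    refine PW.geom_le hz h1 s0 _ fun s hs => ?_
    obtain ⟨w, hw, rfl⟩ := Finset.mem_image.1 hs
    have h4 := PW.piece_pow hρ0.le hcx ha (hS w hw).2
    rw [(hS w hw).1] at h4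
    rw [hs0, Nat.ceil_le, div_le_iff₀ hL2]
    have h5 := Real.log_le_log (by positivity) h4
    rw [Real.log_pow, Real.log_pow, Real.log_mul (by positivity) hρ0.ne', ← hβ] at h5
    exact h5
  have e4 : z ^ s0 ≤ Real.exp (-(l * β * Real.log (1 / z) / Real.log 2)) := by
    rw [← Real.exp_log (pow_pos hz s0), Real.exp_le_exp, Real.log_pow]
    have h5 : (l : ℝ) * β / Real.log 2 ≤ s0 := by
      rw [hs0]
      exact Nat.le_ceil _
    have h6 : Real.log z = -Real.log (1 / z) := by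
      rw [one_div, Real.log_inv, neg_neg]
    rw [h6]
    have h7 := mul_le_mul_of_nonneg_right h5 hLz.le
    have h8 : (l : ℝ) * β / Real.log 2 * Real.log (1 / z) =
        l * β * Real.log (1 / z) / Real.log 2 := by ring
    linarith
  have e5 : tt p z ^ l = Real.exp (l * Real.log (tt p z)) := by
    rw [← Real.log_pow, Real.exp_log (pow_pos htt l)]
  have e7 : Real.exp (l * Real.log (tt p z)) * (Real.exp (g / 4 * l) *
      Real.exp (-(l * β * Real.log (1 / z) / Real.log 2))) = Real.exp (-(g / 2 * l)) := by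
    rw [← Real.exp_add, ← Real.exp_add]
    congr 1
    have h8 : Real.log (tt p z) = Real.log p * Real.log (1 / z) / Real.log 2 - g := by
      rw [hg]
      ring
    rw [h8, hβ, hlρ]
    field_simp
    ring
  calc ∑ w ∈ S, wt p z w = tt p z ^ l * ∑ w ∈ S, z ^ w.sum := e1
    _ ≤ tt p z ^ l * (K * Real.exp (g / 4 * l) * (z ^ s0 / (1 - z))) := by
        refine mul_le_mul_of_nonneg_left (e2.trans ?_) (by positivity)
        exact mul_le_mul_of_nonneg_left e3 (by positivity)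
    _ ≤ tt p z ^ l * (K * Real.exp (g / 4 * l) *
          (Real.exp (-(l * β * Real.log (1 / z) / Real.log 2)) / (1 - z))) := by gcongr
    _ = K / (1 - z) * Real.exp (-(g / 2 * l)) := by
        rw [← e7, e5]
        ring

end Pool.Agent.N685.FD
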