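import Pool.Agent.N685.FD.Stm

/-!
PROJECT FD (helper685), part REN (helper284, port of the file of helper227): the renewal inequality
-/

set_option autoImplicit false

namespace Pool.Agent.N685.FD

open Finset
open scoped Classical

namespace RenAux

theorem ok_ge {p : ℕ} {d : ℤ} {x : ℤ} {w : List ℕ} (h : ok p d x w) : ∀ e ∈ w, 1 ≤ e := by
  induction w generalizing x with
  | nil => intro e he; simp at he
  | cons a w ih =>
    obtain ⟨h1, _, h3⟩ := h
    intro e he
    rcases List.mem_cons.1 he with rfl | he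
    · exact h1
    · exact ih h3 e he

theorem wt_append (p : ℕ) (z : ℝ) (u w : List ℕ) : wt p z (u ++ w) = wt p z u * wt p z w := by
  unfold wt
  rw [List.length_append, List.sum_append, pow_add, pow_add]
  ring

theorem tt_pos {p : ℕ} (hp : 1 ≤ p) {z : ℝ} (h0 : 0 < z) (h1 : z < 1) : 0 < tt p z := by
  unfold tt
  have : 0 < 1 - z := by linarith
  have hp' : (0 : ℝ) < p := by exact_mod_cast hp
  positivity

theorem wt_pos {p : ℕ} (hp : 1 ≤ p) {z : ℝ} (h0 : 0 < z) (h1 : z < 1) (w : List ℕ) :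
    0 < wt p z w := by
  unfold wt
  have := tt_pos hp h0 h1
  positivity

theorem twn_pos {p : ℕ} (hp : 1 ≤ p) {z : ℝ} (h0 : 0 < z) (h1 : z < 1) (b n : ℕ) (w : List ℕ) :
    0 < twn p z b n w := by
  induction n generalizing w with
  | zero => exact wt_pos hp h0 h1 w
  | succ n ih => exact mul_pos (lt_min one_pos (wt_pos hp h0 h1 _)) (ih _)

theorem tw_pos {p : ℕ} (hp : 1 ≤ p) {z : ℝ} (h0 : 0 < z) (h1 : z < 1) (b : ℕ) (w : List ℕ) :
    0 < tw p z b w :=
  twn_pos hp h0 h1 _ _ _

theorem dec_cases {p : ℕ} {d c : ℤ} {z : ℝ} {b L : ℕ} {x : ℤ} {w : List ℕ} {n : ℕ}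
    (h : Dec p d c z b L x w n) :
    (ok p d x w ∧ n = nb p z b w) ∨ ∃ (u v w' : List ℕ) (β : ℕ), w = u ++ (v ++ w') ∧ ok p d x u ∧
      L ≤ v.length ∧ 1 ≤ fin p d x u ∧ Piece p d c (fin p d x u) v ∧
      Dec p d c z b L (fin p d x (u ++ v)) w' β ∧ n = nb p z b u + β := by
  cases h with
  | stretch _ _ h => exact Or.inl ⟨h, rfl⟩
  | cons _ u v w' β h1 h2 h3 h4 h5 => exact Or.inr ⟨u, v, w', β, rfl, h1, h2, h3, h4, h5, rfl⟩

theorem regroup (T : Finset (List ℕ)) (U V : List ℕ → List ℕ) (p q g : List ℕ → ℝ)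
    (hp : ∀ w, 0 ≤ p w) (hq : ∀ w, 0 ≤ q w) (A B C : ℝ) (hB0 : 0 ≤ B) (hC0 : 0 ≤ C)
    (hA : ∑ u ∈ T.image U, p u ≤ A)
    (hB : ∀ u ∈ T.image U, ∑ v ∈ (T.filter (fun w => U w = u)).image V, q v ≤ B)
    (hC : ∀ u v, ∑ w ∈ (T.filter (fun w => U w = u)).filter (fun w => V w = v), g w ≤ C) :
    ∑ w ∈ T, p (U w) * (q (V w) * g w) ≤ A * (B * C) := by
  have h1 : ∑ w ∈ T, p (U w) * (q (V w) * g w) =
      ∑ u ∈ T.image U, ∑ w ∈ T.filter (fun w => U w = u), p (U w) * (q (V w) * g w) :=
    (Finset.sum_fiberwise_of_maps_to (fun w hw => Finset.mem_image_of_mem U hw) _).symm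
  have h2 : ∀ u ∈ T.image U, ∑ w ∈ T.filter (fun w => U w = u), p (U w) * (q (V w) * g w) ≤
      p u * (B * C) := by
    intro u hu
    have e1 : ∑ w ∈ T.filter (fun w => U w = u), p (U w) * (q (V w) * g w) =
        p u * ∑ w ∈ T.filter (fun w => U w = u), q (V w) * g w := by
      rw [Finset.mul_sum]
      refine Finset.sum_congr rfl fun w hw => ?_
      rw [(Finset.mem_filter.1 hw).2]
    rw [e1]
    refine mul_le_mul_of_nonneg_left ?_ (hp u)
    have e2 : ∑ w ∈ T.filter (fun w => U w = u), q (V w) * g w =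
        ∑ v ∈ (T.filter (fun w => U w = u)).image V,
          ∑ w ∈ (T.filter (fun w => U w = u)).filter (fun w => V w = v), q (V w) * g w :=
      (Finset.sum_fiberwise_of_maps_to (fun w hw => Finset.mem_image_of_mem V hw) _).symm
    rw [e2]
    have e3 : ∀ v ∈ (T.filter (fun w => U w = u)).image V,
        ∑ w ∈ (T.filter (fun w => U w = u)).filter (fun w => V w = v), q (V w) * g w ≤ q v * C := by
      intro v _
      have e4 : ∑ w ∈ (T.filter (fun w => U w = u)).filter (fun w => V w = v), q (V w) * g w =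
          q v * ∑ w ∈ (T.filter (fun w => U w = u)).filter (fun w => V w = v), g w := by
        rw [Finset.mul_sum]
        refine Finset.sum_congr rfl fun w hw => ?_
        rw [(Finset.mem_filter.1 hw).2]
      rw [e4]
      exact mul_le_mul_of_nonneg_left (hC u v) (hq v)
    refine (Finset.sum_le_sum e3).trans ?_
    rw [← Finset.sum_mul]
    exact mul_le_mul_of_nonneg_right (hB u hu) hC0
  rw [h1]
  refine (Finset.sum_le_sum h2).trans ?_
  rw [← Finset.sum_mul]
  exact mul_le_mul_of_nonneg_right hA (mul_nonneg hB0 hC0)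

theorem geo_le {q : ℝ} (h0 : 0 ≤ q) (h1 : q < 1) (n : ℕ) : ∑ i ∈ Finset.range n, q ^ i ≤ 1 / (1 - q) := by
  have h2 := (summable_geometric_of_lt_one h0 h1).sum_le_tsum (Finset.range n)
    (fun i _ => pow_nonneg h0 i)
  rwa [tsum_geometric_of_lt_one h0 h1, ← one_div] at h2

theorem geo_tail {q : ℝ} (h0 : 0 ≤ q) (h1 : q < 1) (a n : ℕ) :
    ∑ i ∈ Finset.Ico a n, q ^ i ≤ q ^ a * (1 / (1 - q)) := by
  rw [Finset.sum_Ico_eq_sum_range]
  simp only [pow_add]
  rw [← Finset.mul_sum]
  exact mul_le_mul_of_nonneg_left (geo_le h0 h1 _) (pow_nonneg h0 a)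

end RenAux

open RenAux

theorem t_REN (h1 : S_GS) (h2 : S_WT) (h3 : S_PW) : S_REN := by
  intro p d hpd z hQ
  obtain ⟨c₀, hc₀, c2, C2, hc2, hC2, hPW⟩ := h3 p d hpd z hQ
  refine ⟨c₀, hc₀, ?_⟩
  intro c hc b hb ε hε
  have hz : 0 < z := hQ.1
  have hz1 : z < 1 := hQ.2.1
  have hp : 1 ≤ p := by
    rcases hpd.1 with h | h <;> omega
  have hp' : (0 : ℝ) < p := by exact_mod_cast hp
  obtain ⟨C0, hC0, hGS⟩ := h1 p d hpd z hz hz1 b hb (ε / 2) (by linarith)
  set C1 : ℝ := C0 with hC1
  set q1 : ℝ := Real.exp (-(ε / 2)) with hq1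
  set q2 : ℝ := Real.exp (-c2) with hq2
  have q10 : 0 < q1 := Real.exp_pos _
  have q20 : 0 < q2 := Real.exp_pos _
  have q11 : q1 < 1 := by rw [hq1, Real.exp_lt_one_iff]; linarith
  have q21 : q2 < 1 := by rw [hq2, Real.exp_lt_one_iff]; linarith
  have hA1 : 0 < 1 / (1 - q1) := by
    have : 0 < 1 - q1 := by linarith
    positivity
  have hA2 : 0 < 1 / (1 - q2) := by
    have : 0 < 1 - q2 := by linarith
    positivity
  set K : ℝ := C1 * C2 * (1 / (1 - q1)) * (1 / (1 - q2)) with hK
  have hK0 : 0 < K := by positivity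
  obtain ⟨L0, hL0⟩ := exists_pow_lt_of_lt_one (show 0 < 1 / (2 * K) by positivity) q21
  refine ⟨2 * C1, L0 + 1, by positivity, ?_⟩
  intro L hL N
  have hLK : q2 ^ L * K ≤ 1 / 2 := by
    have e1 : q2 ^ L ≤ q2 ^ L0 := pow_le_pow_of_le_one q20.le q21.le (by omega)
    have e2 : q2 ^ L * K ≤ 1 / (2 * K) * K := mul_le_mul_of_nonneg_right (e1.trans hL0.le) hK0.le
    have e3 : 1 / (2 * K) * K = 1 / 2 := by field_simp
    linarith
  induction N using Nat.strong_induction_on with
  | _ N ih =>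
  intro x S β hS
  have hwt : ∀ w, 0 < wt p z w := wt_pos hp hz hz1
  have htw : ∀ w, 0 < tw p z b w := tw_pos hp hz hz1 b
  -- the weight of a stretch
  have hst : ∀ (y : ℤ) (w : List ℕ), ok p d y w → wt p z w / (p : ℝ) ^ (b * nb p z b w) ≤ tw p z b w := by
    intro y w hw
    rw [div_le_iff₀ (by positivity)]
    exact h2 p hp z hz hz1 b hb w (ok_ge hw)
  set S1 := S.filter (fun w => ok p d x w ∧ β w = nb p z b w) with hS1
  set S2 := S.filter (fun w => ¬ (ok p d x w ∧ β w = nb p z b w)) with hS2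
  have hsplit : ∑ w ∈ S, wt p z w / (p : ℝ) ^ (b * β w) =
      ∑ w ∈ S1, wt p z w / (p : ℝ) ^ (b * β w) + ∑ w ∈ S2, wt p z w / (p : ℝ) ^ (b * β w) :=
    (Finset.sum_filter_add_sum_filter_not S _ _).symm
  have b1 : ∑ w ∈ S1, wt p z w / (p : ℝ) ^ (b * β w) ≤ C1 * Real.exp (ε * N) := by
    calc ∑ w ∈ S1, wt p z w / (p : ℝ) ^ (b * β w) ≤ ∑ w ∈ S1, tw p z b w := by
          refine Finset.sum_le_sum fun w hw => ?_
          obtain ⟨_, h4, h5⟩ := Finset.mem_filter.1 hw
          rw [h5]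
          exact hst x w h4
      _ ≤ C1 * Real.exp (ε / 2 * N) := by
          refine hGS N x S1 fun w hw => ?_
          obtain ⟨h4, h5, _⟩ := Finset.mem_filter.1 hw
          exact ⟨(hS w h4).1, h5⟩
      _ ≤ C1 * Real.exp (ε * N) := by
          refine mul_le_mul_of_nonneg_left (Real.exp_le_exp.2 ?_) hC0.le
          have : (0 : ℝ) ≤ N := Nat.cast_nonneg N
          nlinarith
  -- the decomposition
  have hdec : ∀ w : List ℕ, ∃ (u v w' : List ℕ) (β' : ℕ), w ∈ S2 → (w = u ++ (v ++ w') ∧ ok p d x u ∧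
      L ≤ v.length ∧ 1 ≤ fin p d x u ∧ Piece p d c (fin p d x u) v ∧ Dec p d c z b L (fin p d x (u ++ v)) w' β' ∧
      β w = nb p z b u + β') := by
    intro w
    by_cases hw : w ∈ S2
    · obtain ⟨h4, h5⟩ := Finset.mem_filter.1 hw
      rcases dec_cases (hS w h4).2 with h6 | ⟨u, v, w', β', h6⟩
      · exact absurd h6 h5
      · exact ⟨u, v, w', β', fun _ => h6⟩
    · exact ⟨[], [], [], 0, fun h => absurd h hw⟩
  choose U V W B hD using hdec
  have hlen : ∀ w ∈ S2, (U w).length + (V w).length + (W w).length = N := by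
    intro w hw
    have h4 := (hS w (Finset.mem_filter.1 hw).1).1
    have h5 := (hD w hw).1
    have h6 : w.length = (U w).length + ((V w).length + (W w).length) := by
      conv_lhs => rw [h5]
      rw [List.length_append, List.length_append]
    omega
  set M := Finset.range (N + 1) ×ˢ Finset.Ico L (N + 1) with hM
  have hmaps : ∀ w ∈ S2, ((U w).length, (V w).length) ∈ M := by
    intro w hw
    have h4 := hlen w hw
    have h5 := (hD w hw).2.2.1
    rw [hM, Finset.mem_product, Finset.mem_range, Finset.mem_Ico]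
    refine ⟨?_, h5, ?_⟩ <;> simp only <;> omega
  have b2 : ∑ w ∈ S2, wt p z w / (p : ℝ) ^ (b * β w) ≤ C1 * Real.exp (ε * N) := by
    have e1 : ∑ w ∈ S2, wt p z w / (p : ℝ) ^ (b * β w) ≤
        ∑ w ∈ S2, tw p z b (U w) * (wt p z (V w) * (wt p z (W w) / (p : ℝ) ^ (b * B w))) := by
      refine Finset.sum_le_sum fun w hw => ?_
      obtain ⟨h4, h5, _, _, _, _, h6⟩ := hD w hw
      have h7 : wt p z w = wt p z (U w) * (wt p z (V w) * wt p z (W w)) := by
        conv_lhs => rw [h4]
        rw [wt_append, wt_append]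
      have h8 := hst x (U w) h5
      have h9 : wt p z w / (p : ℝ) ^ (b * β w) = (wt p z (U w) / (p : ℝ) ^ (b * nb p z b (U w))) *
          (wt p z (V w) * (wt p z (W w) / (p : ℝ) ^ (b * B w))) := by
        rw [h7, h6, mul_add, pow_add]
        field_simp
      rw [h9]
      refine mul_le_mul_of_nonneg_right h8 ?_
      have := hwt (V w)
      have := hwt (W w)
      positivity
    refine e1.trans ?_
    rw [← Finset.sum_fiberwise_of_maps_to hmaps]
    have e2 : ∀ y ∈ M, ∑ w ∈ S2.filter (fun w => ((U w).length, (V w).length) = y),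
        tw p z b (U w) * (wt p z (V w) * (wt p z (W w) / (p : ℝ) ^ (b * B w))) ≤
        (2 * C1 * C1 * C2 * Real.exp (ε * N)) * (q1 ^ y.1 * q2 ^ y.2) := by
      rintro ⟨m, l⟩ hy
      rw [hM, Finset.mem_product, Finset.mem_range, Finset.mem_Ico] at hy
      simp only at hy
      set T := S2.filter (fun w => ((U w).length, (V w).length) = (m, l)) with hT
      have hT1 : ∀ w ∈ T, w ∈ S2 ∧ (U w).length = m ∧ (V w).length = l := by
        intro w hw
        obtain ⟨h4, h5⟩ := Finset.mem_filter.1 hw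
        rw [Prod.mk.injEq] at h5
        exact ⟨h4, h5⟩
      by_cases hml : m + l ≤ N
      swap
      · have : T = ∅ := by
          rw [Finset.eq_empty_iff_forall_notMem]
          intro w hw
          obtain ⟨h4, h5, h6⟩ := hT1 w hw
          have := hlen w h4
          omega
        rw [this, Finset.sum_empty]
        positivity
      have hR := regroup T U V (fun w => tw p z b w) (fun w => wt p z w)
        (fun w => wt p z (W w) / (p : ℝ) ^ (b * B w)) (fun w => (htw w).le) (fun w => (hwt w).le)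
        (C1 * Real.exp (ε / 2 * m)) (C2 * Real.exp (-(c2 * l)))
        (2 * C1 * Real.exp (ε * ((N - m - l : ℕ) : ℝ))) (by positivity) (by positivity)
        (by
          refine hGS m x _ fun u hu => ?_
          obtain ⟨w, hw, rfl⟩ := Finset.mem_image.1 hu
          obtain ⟨h4, h5, _⟩ := hT1 w hw
          exact ⟨h5, (hD w h4).2.1⟩)
        (by
          intro u hu
          obtain ⟨w0, hw0, rfl⟩ := Finset.mem_image.1 hu
          obtain ⟨g1, g2, g3⟩ := hT1 w0 hw0
          refine hPW c (fin p d x (U w0)) l _ hc (hD w0 g1).2.2.2.1 (by omega) fun v hv => ?_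
          obtain ⟨w, hw, rfl⟩ := Finset.mem_image.1 hv
          obtain ⟨hw1, hw2⟩ := Finset.mem_filter.1 hw
          obtain ⟨h4, h5, h6⟩ := hT1 w hw1
          have h7 := (hD w h4).2.2.2.2.1
          rw [hw2] at h7
          exact ⟨h6, h7⟩)
        (by
          intro u v
          set F := (T.filter (fun w => U w = u)).filter (fun w => V w = v) with hF
          have hF1 : ∀ w ∈ F, w ∈ T ∧ U w = u ∧ V w = v := by
            intro w hw
            obtain ⟨h4, h5⟩ := Finset.mem_filter.1 hw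
            obtain ⟨h6, h7⟩ := Finset.mem_filter.1 h4
            exact ⟨h6, h7, h5⟩
          have hF2 : ∀ w ∈ F, w = u ++ (v ++ W w) := by
            intro w hw
            obtain ⟨h4, h5, h6⟩ := hF1 w hw
            have h7 := (hD w (hT1 w h4).1).1
            rwa [h5, h6] at h7
          have e3 : ∑ w ∈ F, wt p z (W w) / (p : ℝ) ^ (b * B w) =
              ∑ w' ∈ F.image W, wt p z w' / (p : ℝ) ^ (b * B (u ++ (v ++ w'))) := by
            rw [Finset.sum_image]
            · refine Finset.sum_congr rfl fun w hw => ?_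
              rw [← hF2 w hw]
            · intro w hw w1 hw1 h4
              rw [hF2 w hw, hF2 w1 hw1, h4]
          rw [e3]
          refine ih (N - m - l) (by omega) (fin p d x (u ++ v)) _ (fun w' => B (u ++ (v ++ w')))
            fun w' hw' => ?_
          obtain ⟨w, hw, rfl⟩ := Finset.mem_image.1 hw'
          obtain ⟨h4, h5, h6⟩ := hF1 w hw
          obtain ⟨k1, k2, k3⟩ := hT1 w h4
          refine ⟨?_, ?_⟩
          · have := hlen w k1
            omega
          · have h7 := (hD w k1).2.2.2.2.2.1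
            rw [h5, h6] at h7
            rw [← hF2 w hw]
            exact h7)
      refine hR.trans ?_
      have e4 : Real.exp (ε / 2 * m) * Real.exp (ε * ((N - m - l : ℕ) : ℝ)) ≤
          Real.exp (ε * N) * q1 ^ m := by
        rw [hq1, ← Real.exp_nat_mul, ← Real.exp_add, ← Real.exp_add]
        apply Real.exp_le_exp.2
        have e5 : ((N - m - l : ℕ) : ℝ) = (N : ℝ) - m - l := by
          rw [Nat.cast_sub (by omega), Nat.cast_sub (by omega)]
        rw [e5]
        have : (0 : ℝ) ≤ l := Nat.cast_nonneg l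
        nlinarith
      have e6 : Real.exp (-(c2 * l)) = q2 ^ l := by
        rw [hq2, ← Real.exp_nat_mul]
        congr 1
        ring
      rw [e6]
      calc C1 * Real.exp (ε / 2 * m) * (C2 * q2 ^ l * (2 * C1 * Real.exp (ε * ((N - m - l : ℕ) : ℝ))))
          = 2 * C1 * C1 * C2 * q2 ^ l *
            (Real.exp (ε / 2 * m) * Real.exp (ε * ((N - m - l : ℕ) : ℝ))) := by ring
        _ ≤ 2 * C1 * C1 * C2 * q2 ^ l * (Real.exp (ε * N) * q1 ^ m) :=
            mul_le_mul_of_nonneg_left e4 (by positivity)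
        _ = 2 * C1 * C1 * C2 * Real.exp (ε * N) * (q1 ^ m * q2 ^ l) := by ring
    refine (Finset.sum_le_sum e2).trans ?_
    rw [← Finset.mul_sum, hM, Finset.sum_product]
    simp only
    have e7 : ∑ i ∈ Finset.range (N + 1), ∑ j ∈ Finset.Ico L (N + 1), q1 ^ i * q2 ^ j ≤
        (1 / (1 - q1)) * (q2 ^ L * (1 / (1 - q2))) := by
      rw [← Finset.sum_mul_sum]
      refine mul_le_mul (geo_le q10.le q11 _) (geo_tail q20.le q21 _ _) ?_ hA1.le
      exact Finset.sum_nonneg fun i _ => by positivity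
    calc 2 * C1 * C1 * C2 * Real.exp (ε * N) *
          ∑ i ∈ Finset.range (N + 1), ∑ j ∈ Finset.Ico L (N + 1), q1 ^ i * q2 ^ j
        ≤ 2 * C1 * C1 * C2 * Real.exp (ε * N) * ((1 / (1 - q1)) * (q2 ^ L * (1 / (1 - q2)))) :=
          mul_le_mul_of_nonneg_left e7 (by positivity)
      _ = 2 * C1 * Real.exp (ε * N) * (q2 ^ L * K) := by rw [hK]; ring
      _ ≤ 2 * C1 * Real.exp (ε * N) * (1 / 2) := mul_le_mul_of_nonneg_left hLK (by positivity)
      _ = C1 * Real.exp (ε * N) := by ring
  rw [hsplit]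
  linarith

end Pool.Agent.N685.FD
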