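import Pool.Agent.N685.FD.SG
import Pool.Agent.N685.FD.PC
import Pool.Agent.N685.FD.PW
import Pool.Agent.N685.FD.Bad
import Pool.Agent.N685.FD.Dcm
import Pool.Agent.N685.FD.Ren
import Pool.Agent.N685.FD.GS
import Pool.Agent.N685.FD.Gen
import Pool.Agent.N685.WB.Asm

/-! Project FD: assembly of the main bound for the maps `p x + d`. -/

set_option autoImplicit false

namespace Pool.Agent.N685.FD

theorem gen_main : S_GEN :=
  t_GEN t_REC (t_DCM t_BAD) (t_REN (t_GS (t_G WB.t_UP)) t_WT (t_PW t_PC))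

end Pool.Agent.N685.FD
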