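import Pool.Agent.N685.FD.Stm2

/-! PROJECT FD (helper685), part CC (helper507): concatenation of blocks. -/

set_option autoImplicit false

namespace Pool.Agent.N685.FD

open Finset

namespace CC

variable {p : ℕ} {d : ℤ}

theorem ok_append (x : ℤ) (u v : List ℕ) :
    ok p d x (u ++ v) ↔ ok p d x u ∧ ok p d (fin p d x u) v := by
  induction u generalizing x with
  | nil => simp [ok, fin]
  | cons e u ih =>
    show (1 ≤ e ∧ (p : ℤ) ∣ 2 ^ e * x - d ∧ ok p d (st p d e x) (u ++ v)) ↔
      (1 ≤ e ∧ (p : ℤ) ∣ 2 ^ e * x - d ∧ ok p d (st p d e x) u) ∧ ok p d (fin p d (st p d e x) u) v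
    rw [ih]
    tauto

theorem above_append (c x : ℤ) (u v : List ℕ) :
    above p d c x (u ++ v) ↔ above p d c x u ∧ above p d c (fin p d x u) v := by
  induction u generalizing x with
  | nil => simp [above, fin]
  | cons e u ih =>
    show (c < st p d e x ∧ above p d c (st p d e x) (u ++ v)) ↔
      (c < st p d e x ∧ above p d c (st p d e x) u) ∧ above p d c (fin p d (st p d e x) u) v
    rw [ih]
    tauto

/-- thresholds -/
def Mq (p : ℕ) (d c : ℤ) : ℕ → ℤ
  | 0 => |c| + 1
  | n + 1 => p * Mq p d c n + |d|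

theorem Mq_pos (hp : 1 ≤ p) (c : ℤ) (n : ℕ) : |c| + 1 ≤ Mq p d c n := by
  induction n with
  | zero => exact le_rfl
  | succ n ih =>
    have h1 : (1 : ℤ) ≤ p := by exact_mod_cast hp
    have h2 : 0 ≤ |c| := abs_nonneg c
    have h3 : 0 ≤ |d| := abs_nonneg d
    show |c| + 1 ≤ p * Mq p d c n + |d|
    nlinarith

theorem two_pow_ge {e : ℕ} {x : ℤ} (hx : 0 ≤ x) : x ≤ 2 ^ e * x := by
  have h1 : (1 : ℤ) ≤ 2 ^ e := one_le_pow₀ (by norm_num)
  nlinarith

theorem st_eq {e : ℕ} {x : ℤ} (h : (p : ℤ) ∣ 2 ^ e * x - d) : (p : ℤ) * st p d e x = 2 ^ e * x - d :=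
  Int.mul_ediv_cancel' h

theorem above_of_ge (hp : 1 ≤ p) (c : ℤ) (w : List ℕ) (x : ℤ) (hx : Mq p d c w.length ≤ x)
    (hw : ok p d x w) : above p d c x w := by
  induction w generalizing x with
  | nil => trivial
  | cons e w ih =>
    obtain ⟨he, hd, hw⟩ := hw
    have h1 : (1 : ℤ) ≤ p := by exact_mod_cast hp
    have h2 : (p : ℤ) * Mq p d c w.length + |d| ≤ x := hx
    have h3 := Mq_pos (d := d) hp c w.length
    have h4 : 0 ≤ |c| := abs_nonneg c
    have h5 : 0 ≤ |d| := abs_nonneg d
    have hx0 : 0 ≤ x := by nlinarith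
    have h6 := two_pow_ge (e := e) hx0
    have h7 := st_eq hd
    have h8 : d ≤ |d| := le_abs_self d
    have h9 : Mq p d c w.length ≤ st p d e x := by
      by_contra hcon
      push Not at hcon
      have h10 : (p : ℤ) * (st p d e x + 1) ≤ p * Mq p d c w.length :=
        mul_le_mul_of_nonneg_left hcon (by omega)
      nlinarith
    have h10 : c ≤ |c| := le_abs_self c
    exact ⟨by omega, ih _ h9 hw⟩

/-- bound for the additive terms -/
def Bq (p E : ℕ) : ℕ → ℤ
  | 0 => 0
  | n + 1 => 2 ^ (E * n) + p * Bq p E n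

theorem sum_le {E : ℕ} (w : List ℕ) (h : ∀ e ∈ w, e ≤ E) : w.sum ≤ E * w.length := by
  have := List.sum_le_card_nsmul w E h
  rw [smul_eq_mul] at this
  rw [Nat.mul_comm]
  exact this

theorem fin_ge {E : ℕ} (w : List ℕ) (hE : ∀ e ∈ w, e ≤ E) (x : ℤ) (hw : ok p d x w) :
    2 ^ w.sum * x - |d| * Bq p E w.length ≤ (p : ℤ) ^ w.length * fin p d x w := by
  induction w generalizing x with
  | nil => simp [fin, Bq]
  | cons e w ih =>
    obtain ⟨he, hd, hw⟩ := hw
    have h1 := ih (fun a ha => hE a (List.mem_cons_of_mem _ ha)) _ hw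
    have h2 := st_eq hd
    have h3 := sum_le w (fun a ha => hE a (List.mem_cons_of_mem _ ha))
    have h4 : (2 : ℤ) ^ w.sum ≤ 2 ^ (E * w.length) := pow_le_pow_right₀ (by norm_num) h3
    rw [List.sum_cons, List.length_cons, pow_add, pow_succ]
    show 2 ^ e * 2 ^ w.sum * x - |d| * (2 ^ (E * w.length) + p * Bq p E w.length) ≤
      (p : ℤ) ^ w.length * p * fin p d (st p d e x) w
    have h5 := mul_le_mul_of_nonneg_left h1 (Int.natCast_nonneg p)
    have h6 : (p : ℤ) * (2 ^ w.sum * st p d e x - |d| * Bq p E w.length) =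
        2 ^ w.sum * (2 ^ e * x - d) - |d| * (p * Bq p E w.length) := by
      rw [← h2]; ring
    rw [h6] at h5
    have h7 : 2 ^ w.sum * d ≤ 2 ^ (E * w.length) * |d| := by
      calc 2 ^ w.sum * d ≤ 2 ^ w.sum * |d| :=
            mul_le_mul_of_nonneg_left (le_abs_self d) (by positivity)
        _ ≤ _ := mul_le_mul_of_nonneg_right h4 (abs_nonneg d)
    nlinarith

end CC

open CC

theorem t_CC (h : S_LW) : S_CC := by
  classical
  intro p d hA r hr0 hr1 hF hrp δ hδ c
  have hp : 2 ≤ p := by
    rcases hA.1 with h | h <;> omega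
  have hpR : (0 : ℝ) < p := by
    have : 0 < p := by omega
    exact_mod_cast this
  have hl2 : 0 < Real.log 2 := Real.log_pos (by norm_num)
  -- the choice of `δ₁`
  obtain ⟨δ₁, hδ₁, hδ₁δ, hδ₁p⟩ : ∃ δ₁ : ℝ, 0 < δ₁ ∧ δ₁ ≤ δ ∧
      Real.log p < (1 / r - δ₁) * Real.log 2 := by
    have h1 : 0 < Real.log 2 / r - Real.log p := by
      rw [sub_pos, lt_div_iff₀ hr0]
      linarith
    refine ⟨min δ ((Real.log 2 / r - Real.log p) / (2 * Real.log 2)), ?_, min_le_left _ _, ?_⟩
    · exact lt_min hδ (by positivity)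
    · have h2 := min_le_right δ ((Real.log 2 / r - Real.log p) / (2 * Real.log 2))
      have h3 := mul_le_mul_of_nonneg_right h2 hl2.le
      have h4 : (Real.log 2 / r - Real.log p) / (2 * Real.log 2) * Real.log 2 =
          (Real.log 2 / r - Real.log p) / 2 := by field_simp
      rw [h4] at h3
      have h5 : (1 / r - min δ ((Real.log 2 / r - Real.log p) / (2 * Real.log 2))) * Real.log 2 =
          Real.log 2 / r - min δ ((Real.log 2 / r - Real.log p) / (2 * Real.log 2)) * Real.log 2 := by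
        ring
      rw [h5]
      linarith
  obtain ⟨E, n₀, hLW⟩ := h p d hA r hr0 hr1 hF δ₁ hδ₁
  obtain ⟨L, hL⟩ : ∃ L, L = max n₀ 1 := ⟨_, rfl⟩
  have hL1 : 1 ≤ L := by rw [hL]; exact le_max_right _ _
  have hLn : n₀ ≤ L := by rw [hL]; exact le_max_left _ _
  have hLR : (0 : ℝ) < L := by
    have : 0 < L := by omega
    exact_mod_cast this
  have hLW' := hLW L hLn
  clear hLW
  refine ⟨L, max (max 1 (Mq p d c L)) (|d| * Bq p E L), hL1,
    (le_max_left _ _).trans (le_max_left _ _), ?_⟩
  intro N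
  induction N with
  | zero =>
    intro x _ _
    refine ⟨{[]}, ?_, ?_⟩
    · simp
    · intro w hw
      rw [mem_singleton] at hw
      subst hw
      refine ⟨by simp, ?_, trivial, trivial⟩
      simp
  | succ N ih =>
    intro x hx hpx
    obtain ⟨s, S0, hs, hcard, hS0⟩ := hLW' x hpx
    have hM1 : (1 : ℤ) ≤ x := ((le_max_left _ _).trans (le_max_left _ _)).trans hx
    have hMq : Mq p d c L ≤ x := ((le_max_right _ _).trans (le_max_left _ _)).trans hx
    have hB : |d| * Bq p E L ≤ x := (le_max_right _ _).trans hx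
    -- `2 ^ s` is larger than `p ^ L`
    have h2s : (p : ℤ) ^ L + 1 ≤ 2 ^ s := by
      have h1 : (L : ℝ) * Real.log p < s * Real.log 2 := by
        have h3 := (abs_le.1 hs).1
        have h4 : (L : ℝ) * (1 / r - δ₁) ≤ s := by
          have : (L : ℝ) * (1 / r - δ₁) = L / r - δ₁ * L := by ring
          rw [this]
          linarith
        calc (L : ℝ) * Real.log p < L * ((1 / r - δ₁) * Real.log 2) :=
              mul_lt_mul_of_pos_left hδ₁p hLR
          _ = (L * (1 / r - δ₁)) * Real.log 2 := by ring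
          _ ≤ s * Real.log 2 := mul_le_mul_of_nonneg_right h4 hl2.le
      rw [← Real.log_pow, ← Real.log_pow] at h1
      have h2 : (p : ℝ) ^ L < 2 ^ s := by
        exact (Real.log_lt_log_iff (by positivity) (by positivity)).1 h1
      have h3 : p ^ L < 2 ^ s := by exact_mod_cast h2
      have h4 : p ^ L + 1 ≤ 2 ^ s := h3
      exact_mod_cast h4
    have hfin : ∀ u ∈ S0, x ≤ fin p d x u := by
      intro u hu
      obtain ⟨h1, h2, h3, h4, h5⟩ := hS0 u hu
      have h6 := fin_ge u h3 x h4
      rw [h1, h2] at h6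
      have h7 : (p : ℤ) ^ L * x ≤ (p : ℤ) ^ L * fin p d x u := by
        have h8 : ((p : ℤ) ^ L + 1) * x ≤ 2 ^ s * x := mul_le_mul_of_nonneg_right h2s (by omega)
        nlinarith
      have h8 : (0 : ℤ) < (p : ℤ) ^ L := by
        have : (0 : ℤ) < p := by exact_mod_cast (by omega : 0 < p)
        positivity
      exact le_of_mul_le_mul_left h7 h8
    have hex : ∀ u : List ℕ, ∃ Su : Finset (List ℕ), u ∈ S0 →
        (Real.exp ((Fp p r / r - δ) * (L * N : ℕ)) ≤ (Su.card : ℝ) ∧
        ∀ w ∈ Su, w.length = L * N ∧ |(w.sum : ℝ) - (L * N : ℕ) / r| ≤ δ * (L * N : ℕ) ∧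
          ok p d (fin p d x u) w ∧ above p d c (fin p d x u) w) := by
      intro u
      by_cases hu : u ∈ S0
      · obtain ⟨Su, h1, h2⟩ := ih (fin p d x u) (hx.trans (hfin u hu)) (hS0 u hu).2.2.2.2
        exact ⟨Su, fun _ => ⟨h1, h2⟩⟩
      · exact ⟨∅, fun h => absurd h hu⟩
    choose Su hSu using hex
    refine ⟨S0.biUnion fun u => (Su u).image fun v => u ++ v, ?_, ?_⟩
    · have hc : (S0.biUnion fun u => (Su u).image fun v => u ++ v).card =
          ∑ u ∈ S0, (Su u).card := by
        rw [card_biUnion]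
        · refine sum_congr rfl fun u _ => ?_
          exact card_image_of_injective _ fun a b hab => List.append_cancel_left hab
        · intro u hu u' hu' hne
          rw [Function.onFun, Finset.disjoint_left]
          intro w hw hw'
          rw [mem_image] at hw hw'
          obtain ⟨v, _, h1⟩ := hw
          obtain ⟨v', _, h2⟩ := hw'
          apply hne
          have h3 : u ++ v = u' ++ v' := by rw [h1, h2]
          exact (List.append_inj h3 (by rw [(hS0 u hu).1, (hS0 u' hu').1])).1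
      rw [hc, Nat.cast_sum]
      have h1 : ∀ u ∈ S0, Real.exp ((Fp p r / r - δ) * (L * N : ℕ)) ≤ ((Su u).card : ℝ) :=
        fun u hu => (hSu u hu).1
      have h2 := Finset.card_nsmul_le_sum _ _ _ h1
      rw [nsmul_eq_mul] at h2
      refine le_trans ?_ h2
      have h3 : Real.exp ((Fp p r / r - δ) * (L * (N + 1) : ℕ)) =
          Real.exp ((Fp p r / r - δ) * L) * Real.exp ((Fp p r / r - δ) * (L * N : ℕ)) := by
        rw [← Real.exp_add]
        congr 1
        push_cast
        ring
      rw [h3]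
      refine mul_le_mul_of_nonneg_right (le_trans ?_ hcard) (Real.exp_pos _).le
      apply Real.exp_le_exp.2
      apply mul_le_mul_of_nonneg_right _ hLR.le
      linarith
    · intro w hw
      rw [mem_biUnion] at hw
      obtain ⟨u, hu, hw⟩ := hw
      rw [mem_image] at hw
      obtain ⟨v, hv, rfl⟩ := hw
      obtain ⟨h1, h2, h3, h4, h5⟩ := hS0 u hu
      obtain ⟨g1, g2, g3, g4⟩ := (hSu u hu).2 v hv
      refine ⟨?_, ?_, ?_, ?_⟩
      · rw [List.length_append, h1, g1]
        ring
      · rw [List.sum_append, h2]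
        have e : (((s + v.sum : ℕ) : ℝ) - (L * (N + 1) : ℕ) / r) =
            ((s : ℝ) - L / r) + ((v.sum : ℝ) - (L * N : ℕ) / r) := by
          push_cast
          ring
        rw [e]
        refine (abs_add_le _ _).trans ?_
        have e2 : δ * (L * (N + 1) : ℕ) = δ * L + δ * (L * N : ℕ) := by
          push_cast
          ring
        rw [e2]
        refine add_le_add (hs.trans ?_) g2
        exact mul_le_mul_of_nonneg_right hδ₁δ hLR.le
      · rw [ok_append]
        exact ⟨h4, g3⟩
      · rw [above_append]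
        refine ⟨?_, g4⟩
        apply above_of_ge (by omega) c u x _ h4
        rw [h1]
        exact hMq

end Pool.Agent.N685.FD
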