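import Pool.Agent.N685.FD.Stm2

/-!
PROJECT FD (helper685), CODE (helper771): the word of a number whose trajectory is larger than `c`
before the time `k`.
-/

set_option autoImplicit false

namespace Pool.Agent.N685.FD.Code

open Finset

theorem fin_append (p : ℕ) (d : ℤ) (u v : List ℕ) : ∀ x : ℤ,
    fin p d x (u ++ v) = fin p d (fin p d x u) v := by
  induction u with
  | nil => intro x; rfl
  | cons e u ih => intro x; exact ih (st p d e x)

theorem ok_append (p : ℕ) (d : ℤ) (u v : List ℕ) : ∀ x : ℤ,
    ok p d x (u ++ v) ↔ ok p d x u ∧ ok p d (fin p d x u) v := by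
  induction u with
  | nil =>
    intro x
    show ok p d x v ↔ True ∧ ok p d x v
    exact (true_and _).to_iff.symm
  | cons e u ih =>
    intro x
    show (1 ≤ e ∧ (p : ℤ) ∣ 2 ^ e * x - d ∧ ok p d (st p d e x) (u ++ v)) ↔
      (1 ≤ e ∧ (p : ℤ) ∣ 2 ^ e * x - d ∧ ok p d (st p d e x) u) ∧
        ok p d (fin p d (st p d e x) u) v
    rw [ih (st p d e x)]
    tauto

theorem above_append (p : ℕ) (d c : ℤ) (u v : List ℕ) : ∀ x : ℤ,
    above p d c x (u ++ v) ↔ above p d c x u ∧ above p d c (fin p d x u) v := by
  induction u with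
  | nil =>
    intro x
    show above p d c x v ↔ True ∧ above p d c x v
    exact (true_and _).to_iff.symm
  | cons e u ih =>
    intro x
    show (c < st p d e x ∧ above p d c (st p d e x) (u ++ v)) ↔
      (c < st p d e x ∧ above p d c (st p d e x) u) ∧
        above p d c (fin p d (st p d e x) u) v
    rw [ih (st p d e x)]
    tauto

theorem oT_zero (p : ℕ) (d n : ℤ) : oT p d 0 n = 0 := by
  simp [oT]

theorem oT_succ' (p : ℕ) (d : ℤ) (k : ℕ) (n : ℤ) :
    oT p d (k + 1) n = (if n % 2 = 1 then 1 else 0) + oT p d k (T p d n) := by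
  unfold oT
  have e1 : ((range (k + 1)).filter fun i => (T p d)^[i] n % 2 = 1).card =
      ∑ i ∈ range (k + 1), if (T p d)^[i] n % 2 = 1 then 1 else 0 := by
    rw [card_filter]
  have e2 : ((range k).filter fun i => (T p d)^[i] (T p d n) % 2 = 1).card =
      ∑ i ∈ range k, if (T p d)^[i] (T p d n) % 2 = 1 then 1 else 0 := by
    rw [card_filter]
  rw [e1, e2, sum_range_succ', add_comm]
  rfl

theorem code (p : ℕ) (d : ℤ) (had : Adm p d) (c : ℤ) (k : ℕ) : ∀ n : ℤ,
    (∀ j < k, c < (T p d)^[j] n) →
    ∃ w : List ℕ, w.length = oT p d k n ∧ ok p d ((T p d)^[k] n) w ∧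
      above p d c ((T p d)^[k] n) w ∧ w.sum ≤ k ∧
        n = 2 ^ (k - w.sum) * fin p d ((T p d)^[k] n) w := by
  have hp0 : (p : ℤ) ≠ 0 := by
    rcases had.1 with h | h <;> rw [h] <;> norm_num
  induction k with
  | zero =>
    intro n _
    exact ⟨[], by simp [oT_zero], trivial, trivial, by simp, by simp [fin]⟩
  | succ k ih =>
    intro n hn
    have hm : ∀ j < k, c < (T p d)^[j] (T p d n) := by
      intro j hj
      have := hn (j + 1) (by omega)
      rwa [Function.iterate_succ_apply] at this
    have hcn : c < n := hn 0 (by omega)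
    obtain ⟨w, hl, hok, hab, hs, he⟩ := ih (T p d n) hm
    have hit : (T p d)^[k + 1] n = (T p d)^[k] (T p d n) := Function.iterate_succ_apply _ _ _
    rw [hit]
    set m : ℤ := (T p d)^[k] (T p d n) with hmdef
    have e : k + 1 - w.sum = (k - w.sum) + 1 := by omega
    rcases Int.emod_two_eq_zero_or_one n with hpar | hpar
    · refine ⟨w, ?_, hok, hab, by omega, ?_⟩
      · rw [oT_succ', if_neg (by omega), zero_add]
        exact hl
      · have h2 : 2 * T p d n = n := by
          unfold T
          rw [if_pos hpar]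
          omega
        rw [e, pow_succ]
        calc n = 2 * T p d n := h2.symm
          _ = 2 * (2 ^ (k - w.sum) * fin p d m w) := by rw [← he]
          _ = _ := by ring
    · have hpd : (2 : ℤ) ∣ p * n + d := by
        have hpo : (p : ℤ) % 2 = 1 := by
          rcases had.1 with h | h <;> rw [h] <;> norm_num
        have hdo : d % 2 = 1 := by
          have := had.2.1
          omega
        have hmul : ((p : ℤ) * n) % 2 = 1 := by
          rw [Int.mul_emod, hpo, hpar]
          norm_num
        omega
      have h2 : 2 * T p d n = p * n + d := by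
        unfold T
        rw [if_neg (by omega)]
        exact Int.mul_ediv_cancel' hpd
      have h3 : (2 : ℤ) ^ (k + 1 - w.sum) * fin p d m w = p * n + d := by
        rw [← h2, e, pow_succ]
        calc 2 ^ (k - w.sum) * 2 * fin p d m w = 2 * (2 ^ (k - w.sum) * fin p d m w) := by ring
          _ = 2 * T p d n := by rw [← he]
      have h4 : (2 : ℤ) ^ (k + 1 - w.sum) * fin p d m w - d = p * n := by rw [h3]; ring
      have h5 : st p d (k + 1 - w.sum) (fin p d m w) = n := by
        unfold st
        rw [h4]
        exact Int.mul_ediv_cancel_left _ hp0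
      refine ⟨w ++ [k + 1 - w.sum], ?_, ?_, ?_, ?_, ?_⟩
      · rw [List.length_append, hl, oT_succ', if_pos hpar]
        simp
        omega
      · rw [ok_append]
        refine ⟨hok, ?_⟩
        exact ⟨by omega, by rw [h4]; exact dvd_mul_right _ _, trivial⟩
      · rw [above_append]
        refine ⟨hab, ?_⟩
        exact ⟨by rw [h5]; exact hcn, trivial⟩
      · simp
        omega
      · rw [fin_append]
        have e3 : k + 1 - (w ++ [k + 1 - w.sum]).sum = 0 := by simp; omega
        rw [e3]
        show n = 2 ^ 0 * st p d (k + 1 - w.sum) (fin p d m w)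
        rw [h5]
        ring

end Pool.Agent.N685.FD.Code

namespace Pool.Agent.N685.FD

theorem t_CODE : S_CODE := fun p d had c k n hn => Code.code p d had c k n hn

end Pool.Agent.N685.FD
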