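import Pool.Agent.N685.FD.Stm2

/-!
PROJECT FD (helper685), part 2: from large constants to all constants `c ≥ 1`.
-/

set_option autoImplicit false

namespace Pool.Agent.N685.FD

open Finset

namespace ExtAux

variable {p : ℕ} {d : ℤ}

lemma oT_add (i j : ℕ) (n : ℤ) : oT p d (i + j) n = oT p d i n + oT p d j ((T p d)^[i] n) := by
  unfold oT
  rw [card_filter, card_filter, card_filter, sum_range_add]
  congr 1
  refine sum_congr rfl fun x _ => ?_
  rw [add_comm i x, Function.iterate_add_apply]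

lemma oT_le (j : ℕ) (n : ℤ) : oT p d j n ≤ j := by
  unfold oT
  exact (card_filter_le _ _).trans (le_of_eq (card_range j))

/-- a member of a level set of `c` is a member of a neighbouring level set of `c₁` -/
lemma key (p : ℕ) (d c c₁ : ℤ) (hc : c ≤ c₁) : ∃ B : ℕ, ∀ (k o : ℕ) (n : ℤ), n ∈ LT p d c k o →
    ∃ i ≤ B, ∃ j ≤ B, i ≤ k ∧ j ≤ o ∧ n ∈ LT p d c₁ (k - i) (o - j) := by
  classical
  obtain ⟨fp, hfp⟩ : ∃ fp : ℤ → ℕ, ∀ a : ℤ, ∀ j : ℕ, (∀ i < j, c < (T p d)^[i] a) →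
      (T p d)^[j] a ≤ c → j ≤ fp a := by
    refine ⟨fun a => if h : ∃ j, (T p d)^[j] a ≤ c then Nat.find h else 0, fun a j h1 h2 => ?_⟩
    have h3 : ∃ j, (T p d)^[j] a ≤ c := ⟨j, h2⟩
    simp only [dif_pos h3]
    by_contra h4
    push Not at h4
    have h5 := h1 _ h4
    have h6 := Nat.find_spec h3
    omega
  refine ⟨(Icc (c + 1) c₁).sup fp, ?_⟩
  rintro k o n ⟨hn, h1, h2, h3⟩
  have h4 : ∃ j, (T p d)^[j] n ≤ c₁ := ⟨k, h2.trans hc⟩
  obtain ⟨k₁, hk₁⟩ : ∃ k₁, k₁ = Nat.find h4 := ⟨_, rfl⟩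
  have h5 : (T p d)^[k₁] n ≤ c₁ := by
    rw [hk₁]
    exact Nat.find_spec h4
  have h6 : ∀ j < k₁, c₁ < (T p d)^[j] n := by
    intro j hj
    rw [hk₁] at hj
    exact not_le.1 (Nat.find_min h4 hj)
  have h7 : k₁ ≤ k := by
    rw [hk₁]
    exact Nat.find_min' h4 (h2.trans hc)
  have h8 : oT p d k n = oT p d k₁ n + oT p d (k - k₁) ((T p d)^[k₁] n) := by
    rw [← oT_add, Nat.add_sub_cancel' h7]
  have h9 := oT_le (p := p) (d := d) (k - k₁) ((T p d)^[k₁] n)
  have h10 : k - k₁ ≤ (Icc (c + 1) c₁).sup fp := by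
    rcases h7.eq_or_lt with h | h
    · rw [h, Nat.sub_self]
      exact Nat.zero_le _
    · have h11 : (T p d)^[k₁] n ∈ Icc (c + 1) c₁ := by
        rw [mem_Icc]
        have := h1 k₁ h
        exact ⟨by omega, h5⟩
      refine le_trans (hfp _ _ ?_ ?_) (le_sup (f := fp) h11)
      · intro i hi
        rw [← Function.iterate_add_apply]
        exact h1 _ (by omega)
      · rw [← Function.iterate_add_apply, Nat.sub_add_cancel h7]
        exact h2
  refine ⟨k - k₁, h10, oT p d (k - k₁) ((T p d)^[k₁] n), h9.trans h10, by omega, by omega,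
    hn, ?_, ?_, ?_⟩
  · intro j hj
    exact h6 j (by omega)
  · rw [show k - (k - k₁) = k₁ by omega]
    exact h5
  · rw [show k - (k - k₁) = k₁ by omega]
    omega

lemma cast_sub_abs (k i B : ℕ) (h : i ≤ B) : |((k - i : ℕ) : ℝ) - k| ≤ B := by
  have h1 : k ≤ (k - i) + B := by omega
  have h2 : k - i ≤ k := by omega
  have h1' : (k : ℝ) ≤ ((k - i : ℕ) : ℝ) + B := by exact_mod_cast h1
  have h2' : ((k - i : ℕ) : ℝ) ≤ k := by exact_mod_cast h2
  rw [abs_le]
  constructor <;> linarith [(Nat.cast_nonneg B : (0:ℝ) ≤ B)]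

lemma mul_le_of_abs (k k' B X : ℝ) (h : |k' - k| ≤ B) : k' * X ≤ k * X + B * |X| := by
  have h1 : (k' - k) * X ≤ |k' - k| * |X| := by
    rw [← abs_mul]
    exact le_abs_self _
  have h2 : |k' - k| * |X| ≤ B * |X| := mul_le_mul_of_nonneg_right h (abs_nonneg _)
  linarith

end ExtAux

open ExtAux

theorem t_LV (h1 : S_LV0) : S_LV := by
  intro p d hA z hz c hc ε hε
  obtain ⟨c₀, hc₀, h2⟩ := h1 p d hA z hz
  obtain ⟨C, hC, h3⟩ := h2 (max c c₀) (le_max_right _ _) ε hε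
  obtain ⟨B, hB⟩ := key p d c (max c c₀) (le_max_left _ _)
  refine ⟨((B : ℝ) + 1) ^ 2 * (C * Real.exp (B * (ε + |(-Real.log z)| + |(-Real.log (tt p z))|))),
    by positivity, fun k o => ?_⟩
  classical
  obtain ⟨F, hF⟩ : ∃ F : ℕ → ℕ → Finset ℤ, ∀ i j, F i j = (h3 (k - i) (o - j)).1.toFinset :=
    ⟨fun i j => (h3 (k - i) (o - j)).1.toFinset, fun _ _ => rfl⟩
  obtain ⟨U, hU⟩ : ∃ U : Finset ℤ, U = (range (B + 1)).biUnion fun i =>
    (range (B + 1)).biUnion fun j => F i j := ⟨_, rfl⟩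
  have hsub : LT p d c k o ⊆ (U : Set ℤ) := by
    intro n hn
    obtain ⟨i, hi, j, hj, _, _, h4⟩ := hB k o n hn
    rw [hU, Finset.mem_coe, mem_biUnion]
    refine ⟨i, mem_range.2 (by omega), ?_⟩
    rw [mem_biUnion]
    refine ⟨j, mem_range.2 (by omega), ?_⟩
    rw [hF, Set.Finite.mem_toFinset]
    exact h4
  refine ⟨U.finite_toSet.subset hsub, ?_⟩
  have h5 : (LT p d c k o).ncard ≤ U.card := by
    have := Set.ncard_le_ncard hsub U.finite_toSet
    rwa [Set.ncard_coe_finset] at this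
  obtain ⟨M, hM⟩ : ∃ M : ℝ, M = C * Real.exp (B * (ε + |(-Real.log z)| + |(-Real.log (tt p z))|)) *
    Real.exp (ε * k + k * (-Real.log z) + o * (-Real.log (tt p z))) := ⟨_, rfl⟩
  have h6 : ∀ i ∈ range (B + 1), ∀ j ∈ range (B + 1), ((F i j).card : ℝ) ≤ M := by
    intro i hi j hj
    have hi' : i ≤ B := by
      have := mem_range.1 hi
      omega
    have hj' : j ≤ B := by
      have := mem_range.1 hj
      omega
    have h7 := (h3 (k - i) (o - j)).2
    rw [Set.ncard_eq_toFinset_card _ (h3 (k - i) (o - j)).1, ← hF] at h7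
    refine h7.trans ?_
    rw [hM, mul_assoc, ← Real.exp_add]
    refine mul_le_mul_of_nonneg_left (Real.exp_le_exp.2 ?_) hC.le
    have e1 := mul_le_of_abs k _ B (-Real.log z) (cast_sub_abs k i B hi')
    have e2 := mul_le_of_abs o _ B (-Real.log (tt p z)) (cast_sub_abs o j B hj')
    have e3 : ε * ((k - i : ℕ) : ℝ) ≤ ε * k := by
      refine mul_le_mul_of_nonneg_left ?_ hε.le
      exact_mod_cast Nat.sub_le k i
    have e4 : 0 ≤ (B : ℝ) * ε := by positivity
    linarith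
  have h7 : (U.card : ℝ) ≤ ((B : ℝ) + 1) ^ 2 * M := by
    have h8 : U.card ≤ ∑ i ∈ range (B + 1), ∑ j ∈ range (B + 1), (F i j).card := by
      rw [hU]
      refine card_biUnion_le.trans (sum_le_sum fun i _ => card_biUnion_le)
    have h9 : (U.card : ℝ) ≤ ∑ i ∈ range (B + 1), ∑ j ∈ range (B + 1), ((F i j).card : ℝ) := by
      exact_mod_cast h8
    refine h9.trans ((sum_le_sum fun i hi => sum_le_sum fun j hj => h6 i hi j hj).trans
      (le_of_eq ?_))
    simp only [sum_const, card_range, nsmul_eq_mul]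
    push_cast
    ring
  calc ((LT p d c k o).ncard : ℝ) ≤ (U.card : ℝ) := by exact_mod_cast h5
    _ ≤ ((B : ℝ) + 1) ^ 2 * M := h7
    _ = _ := by rw [hM]; ring

theorem t_SIZE (h : S_SIZE0) : S_SIZE := by
  intro p d hA η hη c hc
  obtain ⟨c₀, hc₀, h2⟩ := h p d hA η hη
  obtain ⟨K, h3⟩ := h2 (max c c₀) (le_max_right _ _)
  obtain ⟨B, hB⟩ := key p d c (max c c₀) (le_max_left _ _)
  refine ⟨K + B * (|Real.log 2| + |Real.log p|), fun k o n hn => ?_⟩
  obtain ⟨i, hi, j, hj, hik, hjo, h4⟩ := hB k o n hn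
  have h5 := h3 _ _ n h4
  have h6 := cast_sub_abs k i B hi
  have h7 := cast_sub_abs o j B hj
  have h8 : |((k - i : ℕ) : ℝ) - k| * |Real.log 2| ≤ B * |Real.log 2| :=
    mul_le_mul_of_nonneg_right h6 (abs_nonneg _)
  have h9 : |((o - j : ℕ) : ℝ) - o| * |Real.log p| ≤ B * |Real.log p| :=
    mul_le_mul_of_nonneg_right h7 (abs_nonneg _)
  rw [← abs_mul] at h8 h9
  have h10 : Real.log n - (k * Real.log 2 - o * Real.log p) =
      (Real.log n - (((k - i : ℕ) : ℝ) * Real.log 2 - ((o - j : ℕ) : ℝ) * Real.log p)) +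
        (((k - i : ℕ) : ℝ) - k) * Real.log 2 - (((o - j : ℕ) : ℝ) - o) * Real.log p := by ring
  rw [h10]
  have h11 : η * ((k - i : ℕ) : ℝ) ≤ η * k := by
    refine mul_le_mul_of_nonneg_left ?_ hη.le
    exact_mod_cast Nat.sub_le k i
  refine (abs_sub _ _).trans ?_
  have h12 := abs_add_le (Real.log n - (((k - i : ℕ) : ℝ) * Real.log 2 -
    ((o - j : ℕ) : ℝ) * Real.log p)) ((((k - i : ℕ) : ℝ) - k) * Real.log 2)
  rw [mul_add]
  linarith

end Pool.Agent.N685.FD
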