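import Pool.Agent.N685.FD.Stm2
import Pool.Agent.N685.FD.PC

/-!
# (LOW) lower bound for the joint level sets

Project FD (helper685), part 2; this file is by helper693.
-/

set_option autoImplicit false

namespace Pool.Agent.N685.FD

open Finset Pool.Agent.H377R2.NK

namespace LOW

open PC

lemma oT_succ (p : ℕ) (d : ℤ) (k : ℕ) (x : ℤ) :
    oT p d (k + 1) x = oT p d k x + if (T p d)^[k] x % 2 = 1 then 1 else 0 := by
  unfold oT
  rw [range_add_one, filter_insert]
  split_ifs with h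
  · rw [card_insert_of_notMem (by simp)]
  · simp

lemma oT_add (p : ℕ) (d : ℤ) (a b : ℕ) (x : ℤ) :
    oT p d (a + b) x = oT p d a x + oT p d b ((T p d)^[a] x) := by
  induction b with
  | zero => simp [oT]
  | succ b ih =>
      rw [← add_assoc, oT_succ, ih, oT_succ, add_assoc]
      congr 2
      rw [← Function.iterate_add_apply, add_comm b a]

lemma T_double (p : ℕ) (d y : ℤ) : T p d (2 * y) = y := by
  unfold T
  rw [if_pos (by omega)]
  omega

lemma T_pow (p : ℕ) (d : ℤ) : ∀ (j i : ℕ) (y : ℤ), (T p d)^[j] (2 ^ (j + i) * y) = 2 ^ i * y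
  | 0, i, y => by simp
  | j + 1, i, y => by
      rw [Function.iterate_succ_apply]
      have h : (2 : ℤ) ^ (j + 1 + i) * y = 2 * (2 ^ (j + i) * y) := by
        rw [show j + 1 + i = (j + i) + 1 by omega, pow_succ]
        ring
      rw [h, T_double]
      exact T_pow p d j i y

lemma T_pow' (p : ℕ) (d : ℤ) (t : ℕ) (y : ℤ) : (T p d)^[t] (2 ^ t * y) = y := by
  have := T_pow p d t 0 y
  simpa using this

lemma T_pow'' (p : ℕ) (d : ℤ) {j t : ℕ} (h : j ≤ t) (y : ℤ) :
    (T p d)^[j] (2 ^ t * y) = 2 ^ (t - j) * y := by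
  obtain ⟨i, rfl⟩ := Nat.exists_eq_add_of_le h
  rw [T_pow, Nat.add_sub_cancel_left]

lemma oT_pow (p : ℕ) (d : ℤ) (t : ℕ) (y : ℤ) : oT p d t (2 ^ t * y) = 0 := by
  unfold oT
  rw [card_eq_zero, filter_eq_empty_iff]
  intro j hj
  rw [mem_range] at hj
  rw [T_pow'' p d hj.le]
  obtain ⟨i, hi⟩ : ∃ i, t - j = i + 1 := ⟨t - j - 1, by omega⟩
  rw [hi, pow_succ]
  have : (2 : ℤ) ^ i * 2 * y = 2 * (2 ^ i * y) := by ring
  rw [this]
  omega

lemma letter {p : ℕ} {d : ℤ} (hA : Adm p d) {e : ℕ} {x : ℤ} (he : 1 ≤ e)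
    (hdv : (p : ℤ) ∣ 2 ^ e * x - d) :
    T p d (st p d e x) = 2 ^ (e - 1) * x ∧ st p d e x % 2 = 1 := by
  have h := st_eq hdv
  obtain ⟨i, rfl⟩ : ∃ i, e = i + 1 := ⟨e - 1, by omega⟩
  have h2 : (2 : ℤ) ^ (i + 1) * x = 2 * (2 ^ i * x) := by
    rw [pow_succ]
    ring
  rw [h2] at h
  rw [Nat.add_sub_cancel]
  set y : ℤ := 2 ^ i * x
  set s : ℤ := st p d (i + 1) x
  have hd : d % 2 = 1 := by
    have := hA.2.1
    omega
  rcases hA.1 with rfl | rfl
  · have hs : s % 2 = 1 := by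
      push_cast at h
      omega
    refine ⟨?_, hs⟩
    unfold T
    rw [if_neg (by omega)]
    push_cast at h ⊢
    omega
  · have hs : s % 2 = 1 := by
      push_cast at h
      omega
    refine ⟨?_, hs⟩
    unfold T
    rw [if_neg (by omega)]
    push_cast at h ⊢
    omega

lemma le_pow_mul {x : ℤ} (hx : 0 ≤ x) (i : ℕ) : x ≤ 2 ^ i * x := by
  have h1 : (1 : ℤ) ≤ 2 ^ i := one_le_pow₀ (by norm_num)
  nlinarith

lemma letter_path {p : ℕ} {d : ℤ} (hA : Adm p d) {e : ℕ} {x c : ℤ} (he : 1 ≤ e)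
    (hdv : (p : ℤ) ∣ 2 ^ e * x - d) (hc0 : 0 ≤ c) (hx : c < x) (hy : c < st p d e x) :
    (T p d)^[e] (st p d e x) = x ∧ oT p d e (st p d e x) = 1 ∧
      ∀ j < e, c < (T p d)^[j] (st p d e x) := by
  obtain ⟨h1, h2⟩ := letter hA he hdv
  obtain ⟨i, rfl⟩ : ∃ i, e = i + 1 := ⟨e - 1, by omega⟩
  rw [Nat.add_sub_cancel] at h1
  refine ⟨?_, ?_, ?_⟩
  · rw [Function.iterate_succ_apply, h1, T_pow']
  · rw [add_comm i 1, oT_add, Function.iterate_one, add_comm 1 i, h1, oT_pow, add_zero]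
    have h3 := oT_succ p d 0 (st p d (i + 1) x)
    rw [zero_add, Function.iterate_zero, id, if_pos h2] at h3
    rw [h3]
    simp [oT]
  · intro j hj
    cases j with
    | zero => simpa using hy
    | succ j =>
        rw [Function.iterate_succ_apply, h1, T_pow'' p d (by omega)]
        have := le_pow_mul (x := x) (by omega) (i - j)
        omega

lemma word_path {p : ℕ} {d : ℤ} (hA : Adm p d) {c : ℤ} (hc0 : 0 ≤ c) :
    ∀ (w : List ℕ) (x : ℤ), c < x → ok p d x w → above p d c x w →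
      (T p d)^[w.sum] (fin p d x w) = x ∧ oT p d w.sum (fin p d x w) = w.length ∧
        (∀ j < w.sum, c < (T p d)^[j] (fin p d x w)) ∧ c < fin p d x w
  | [], x, hx, _, _ => by
      refine ⟨rfl, ?_, ?_, hx⟩
      · simp [oT]
      · intro j hj
        simp at hj
  | e :: w, x, hx, hok, hab => by
      obtain ⟨h1, h2, h3, h4⟩ := word_path hA hc0 w (st p d e x) hab.1 hok.2.2 hab.2
      obtain ⟨g1, g2, g3⟩ := letter_path hA hok.1 hok.2.1 hc0 hx hab.1
      have hf : fin p d x (e :: w) = fin p d (st p d e x) w := rfl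
      rw [hf, List.sum_cons, List.length_cons, add_comm e w.sum]
      refine ⟨?_, ?_, ?_, h4⟩
      · rw [add_comm w.sum e, Function.iterate_add_apply, h1, g1]
      · rw [oT_add, h1, h2, g2]
      · intro j hj
        by_cases hj' : j < w.sum
        · exact h3 j hj'
        · obtain ⟨i, rfl⟩ := Nat.exists_eq_add_of_le (not_lt.1 hj')
          rw [add_comm w.sum i, Function.iterate_add_apply, h1]
          exact g3 i (by omega)

lemma fin_odd {p : ℕ} {d : ℤ} (hA : Adm p d) :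
    ∀ (w : List ℕ) (x : ℤ), w ≠ [] → ok p d x w → fin p d x w % 2 = 1
  | [], _, h, _ => absurd rfl h
  | [e], x, _, hok => (letter hA hok.1 hok.2.1).2
  | e :: f :: w, x, _, hok => fin_odd hA (f :: w) (st p d e x) (by simp) hok.2.2

lemma odd_part {a b : ℕ} {u v : ℤ} (hu : u % 2 = 1) (hv : v % 2 = 1)
    (h : (2 : ℤ) ^ a * u = 2 ^ b * v) : a = b ∧ u = v := by
  have key : ∀ {a b : ℕ} {u v : ℤ}, u % 2 = 1 → v % 2 = 1 → (2 : ℤ) ^ a * u = 2 ^ b * v →
      ¬ a < b := by
    intro a b u v hu _ h hab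
    obtain ⟨i, hi⟩ : ∃ i, b = a + (i + 1) := ⟨b - a - 1, by omega⟩
    rw [hi, pow_add, mul_assoc] at h
    have h2 := mul_left_cancel₀ (pow_ne_zero a (by norm_num : (2 : ℤ) ≠ 0)) h
    rw [pow_succ] at h2
    have h3 : (2 : ℤ) ^ i * 2 * v = 2 * (2 ^ i * v) := by ring
    omega
  have hab : a = b := by
    have h1 := key hu hv h
    have h2 := key hv hu h.symm
    omega
  subst hab
  exact ⟨rfl, mul_left_cancel₀ (pow_ne_zero a (by norm_num : (2 : ℤ) ≠ 0)) h⟩

lemma words_inj {p : ℕ} {d : ℤ} (hA : Adm p d) {x : ℤ} {v w : List ℕ} (hv : ok p d x v)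
    (hw : ok p d x w) (hl : v.length = w.length) (hs : v.sum = w.sum)
    (hf : fin p d x v = fin p d x w) : v = w := by
  have hpo : Odd p := by rcases hA.1 with h | h <;> rw [h] <;> decide
  have hd : d ≠ 0 := by
    intro h
    exact hA.2.1 (h ▸ dvd_zero _)
  have h1 := fin_eq p d v x hv
  have h2 := fin_eq p d w x hw
  rw [hl, hs, hf] at h1
  have h3 : d * (Wp p v : ℤ) = d * Wp p w := by linarith
  have h4 : (Wp p v : ℤ) = Wp p w := mul_left_cancel₀ hd h3
  exact Wp_inj (p := p) hpo (ok_pos p d v x hv) (ok_pos p d w x hw) hl hs (by exact_mod_cast h4)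

/-- the trajectory of `2 ^ j * fin (2 ^ t * m) w` -/
lemma full_path {p : ℕ} {d : ℤ} (hA : Adm p d) {c m : ℤ} (hm : 1 ≤ m) (hmc : m ≤ c) {t : ℕ}
    (hx : c < 2 ^ t * m) {w : List ℕ} (hok : ok p d (2 ^ t * m) w)
    (hab : above p d c (2 ^ t * m) w) {k : ℕ} (hk : w.sum + t ≤ k) :
    2 ^ (k - t - w.sum) * fin p d (2 ^ t * m) w ∈ LT p d m k w.length ∧
      (T p d)^[k] (2 ^ (k - t - w.sum) * fin p d (2 ^ t * m) w) = m := by
  obtain ⟨h1, h2, h3, h4⟩ := word_path hA (by omega : (0 : ℤ) ≤ c) w _ hx hok hab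
  set y : ℤ := fin p d (2 ^ t * m) w with hy
  set j : ℕ := k - t - w.sum with hj
  have hkj : k = t + (w.sum + j) := by omega
  have e1 : (T p d)^[k] (2 ^ j * y) = m := by
    rw [hkj, Function.iterate_add_apply, Function.iterate_add_apply, T_pow', h1, T_pow']
  refine ⟨⟨?_, ?_, ?_, ?_⟩, e1⟩
  · have := le_pow_mul (x := y) (by omega) j
    omega
  · intro i hi
    by_cases hi1 : i < j
    · rw [T_pow'' p d hi1.le]
      have := le_pow_mul (x := y) (by omega) (j - i)
      omega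
    · obtain ⟨i', rfl⟩ := Nat.exists_eq_add_of_le (not_lt.1 hi1)
      rw [add_comm j i', Function.iterate_add_apply, T_pow']
      by_cases hi2 : i' < w.sum
      · exact lt_of_le_of_lt hmc (h3 i' hi2)
      · obtain ⟨i'', rfl⟩ := Nat.exists_eq_add_of_le (not_lt.1 hi2)
        rw [add_comm w.sum i'', Function.iterate_add_apply, h1, T_pow'' p d (by omega)]
        obtain ⟨l, hl⟩ : ∃ l, t - i'' = l + 1 := ⟨t - i'' - 1, by omega⟩
        rw [hl, pow_succ]
        have := le_pow_mul (x := m) (by omega) l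
        nlinarith
  · rw [e1]
  · rw [show k = j + (w.sum + t) by omega, oT_add, oT_add, oT_pow, T_pow', h1, oT_pow, h2]
    omega

end LOW

open LOW in
/-- **(LOW)** -/
theorem t_LOW (h1 : S_CC) (_h2 : S_SZ) : S_LOW := by
  intro p d hA r hr0 hr1 hF hrp m hm hpm δ hδ
  set G : ℝ := Fp p r / r with hG
  have hG0 : 0 < G := div_pos hF hr0
  set δ₁ : ℝ := δ / (2 * (G + 1)) with hδ₁
  have hδ₁0 : 0 < δ₁ := by positivity
  have hδ₁' : δ₁ ≤ δ / 2 := by
    rw [hδ₁]
    apply div_le_div_of_nonneg_left hδ.le (by norm_num) (by linarith)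
  obtain ⟨L, M, hL, hM, hCC⟩ := h1 p d hA r hr0 hr1 hF hrp δ₁ hδ₁0 m
  -- the start `2 ^ t * m`
  obtain ⟨t, ht⟩ : ∃ t : ℕ, max M (m + 1) ≤ 2 ^ t * m := by
    obtain ⟨t, ht⟩ := pow_unbounded_of_one_lt (max M (m + 1)) (by norm_num : (1 : ℤ) < 2)
    refine ⟨t, ht.le.trans ?_⟩
    exact le_mul_of_one_le_right (by positivity) hm
  have ht1 : M ≤ 2 ^ t * m := (le_max_left _ _).trans ht
  have ht2 : m < 2 ^ t * m := by
    have := (le_max_right M (m + 1)).trans ht
    omega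
  have hpx : ¬ (p : ℤ) ∣ 2 ^ t * m := by
    intro h
    have hpr : Prime (p : ℤ) := by
      rcases hA.1 with h | h <;> rw [h] <;> exact Nat.prime_iff_prime_int.1 (by norm_num)
    rcases hpr.dvd_or_dvd h with h | h
    · have h3 := hpr.dvd_of_dvd_pow h
      rcases hA.1 with h' | h' <;> rw [h'] at h3 <;> norm_num at h3
    · exact hpm h
  set c : ℝ := 1 / r + δ₁ with hc
  have hc1 : 1 ≤ c := by
    have : 1 ≤ 1 / r := by
      rw [le_div_iff₀ hr0]
      linarith
    linarith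
  have hc0 : 0 < c := by linarith
  have hL1 : (1 : ℝ) ≤ L := by exact_mod_cast hL
  obtain ⟨k₀, hk₀⟩ := exists_nat_ge (max (t + L * c) (max (2 * (t + L) / δ) (2 * (G * (t + L)) / δ)))
  refine ⟨k₀, fun k hk => ?_⟩
  have hk' : (k₀ : ℝ) ≤ k := by exact_mod_cast hk
  have hka : t + L * c ≤ k := (le_max_left _ _).trans (hk₀.trans hk')
  have hkb : 2 * (t + L) / δ ≤ k :=
    ((le_max_left _ _).trans (le_max_right _ _)).trans (hk₀.trans hk')
  have hkc : 2 * (G * (t + L)) / δ ≤ k :=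
    ((le_max_right _ _).trans (le_max_right _ _)).trans (hk₀.trans hk')
  have hkb' : 2 * (t + L) ≤ δ * k := by
    rw [div_le_iff₀ hδ] at hkb
    linarith
  have hkc' : 2 * (G * (t + L)) ≤ δ * k := by
    rw [div_le_iff₀ hδ] at hkc
    linarith
  have hk0 : (0 : ℝ) ≤ k := Nat.cast_nonneg _
  have ht0 : (0 : ℝ) ≤ t := Nat.cast_nonneg _
  have hLc : 0 < L * c := by positivity
  set N : ℕ := ⌊((k : ℝ) - t) / (L * c)⌋₊ with hN
  have hq1 : 1 ≤ ((k : ℝ) - t) / (L * c) := by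
    rw [le_div_iff₀ hLc]
    linarith
  have hN1 : 1 ≤ N := Nat.le_floor (by exact_mod_cast hq1)
  have hN2 : (N : ℝ) ≤ (k - t) / (L * c) := Nat.floor_le (by linarith)
  have hN3 : ((k : ℝ) - t) / (L * c) < N + 1 := Nat.lt_floor_add_one _
  have hN2' : (N : ℝ) * (L * c) ≤ k - t := by rwa [← le_div_iff₀ hLc]
  have hN3' : (k : ℝ) - t < (N + 1) * (L * c) := by rwa [← div_lt_iff₀ hLc]
  obtain ⟨S, hS1, hS2⟩ := hCC N (2 ^ t * m) ht1 hpx
  set n : ℝ := ((L * N : ℕ) : ℝ) with hn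
  have hnLN : n = L * N := by rw [hn]; push_cast; ring
  have hn0 : 0 ≤ n := by rw [hn]; exact Nat.cast_nonneg _
  have hnc : n * c ≤ k - t := by rw [hnLN]; linarith
  have hnc' : (k : ℝ) - t < (n + L) * c := by rw [hnLN]; linarith
  -- comparison of `n` and `r k`
  have hrc : r * c = 1 + r * δ₁ := by
    rw [hc]
    field_simp
  have hup : n ≤ r * k := by
    have h5 : n * c * r ≤ (k - t) * r := mul_le_mul_of_nonneg_right hnc hr0.le
    have h6 : n * c * r = n + n * (r * δ₁) := by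
      rw [mul_assoc, mul_comm c r, hrc]
      ring
    have h7 : 0 ≤ n * (r * δ₁) := by positivity
    nlinarith
  have hlow : r * k - δ₁ * k - (t + L) ≤ n := by
    have h5 : (k : ℝ) / c < n + (t + L) := by
      rw [div_lt_iff₀ hc0]
      nlinarith
    have h6 : r * k - k / c ≤ δ₁ * k := by
      have h7 : r * k - k / c = (r * c - 1) / c * k := by
        field_simp
      rw [h7, hrc]
      apply mul_le_mul_of_nonneg_right _ hk0
      rw [div_le_iff₀ hc0]
      have h8 : r * δ₁ ≤ 1 * δ₁ := mul_le_mul_of_nonneg_right hr1.le hδ₁0.le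
      have h9 : δ₁ * 1 ≤ δ₁ * c := mul_le_mul_of_nonneg_left hc1 hδ₁0.le
      linarith
    linarith
  have hsum : ∀ w ∈ S, w.sum + t ≤ k := by
    intro w hw
    obtain ⟨g1, g2, -, -⟩ := hS2 w hw
    have g3 := (abs_le.1 g2).2
    have g4 : n * c = n / r + δ₁ * n := by
      rw [hc]
      ring
    have g5 : ((w.sum : ℝ)) + t ≤ k := by linarith
    exact_mod_cast g5
  classical
  have hinj : Set.InjOn (fun w : List ℕ => 2 ^ (k - t - w.sum) * fin p d (2 ^ t * m) w)
      (S : Set (List ℕ)) := by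
    intro v hv w hw hvw
    obtain ⟨a1, a2, a3, a4⟩ := hS2 v hv
    obtain ⟨b1, b2, b3, b4⟩ := hS2 w hw
    have hLN : 0 < L * N := Nat.mul_pos hL hN1
    have hv0 : v ≠ [] := by
      rintro rfl
      simp at a1
      omega
    have hw0 : w ≠ [] := by
      rintro rfl
      simp at b1
      omega
    have h5 := odd_part (fin_odd hA v _ hv0 a3) (fin_odd hA w _ hw0 b3) hvw
    have h6 := hsum v hv
    have h7 := hsum w hw
    exact words_inj hA a3 b3 (by rw [a1, b1]) (by omega) h5.2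
  refine ⟨L * N, S.image (fun w : List ℕ => 2 ^ (k - t - w.sum) * fin p d (2 ^ t * m) w),
    ?_, ?_, ?_⟩
  · rw [← hn, abs_le]
    have hδ₁k : δ₁ * k ≤ δ / 2 * k := mul_le_mul_of_nonneg_right hδ₁' hk0
    constructor
    · linarith
    · have : 0 ≤ δ * k := by positivity
      linarith
  · rw [card_image_of_injOn hinj]
    refine le_trans (Real.exp_le_exp.2 ?_) hS1
    rw [← hG]
    have hGr : G * r = Fp p r := by
      rw [hG]
      field_simp
    have h5 : G * (r * k - δ₁ * k - (t + L)) ≤ G * n := mul_le_mul_of_nonneg_left hlow hG0.le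
    have h6 : G * (r * k - δ₁ * k - (t + L)) = Fp p r * k - δ₁ * G * k - G * (t + L) := by
      rw [← hGr]
      ring
    have h7 : δ₁ * n ≤ δ₁ * k := by
      apply mul_le_mul_of_nonneg_left _ hδ₁0.le
      have : r * k ≤ 1 * k := mul_le_mul_of_nonneg_right hr1.le hk0
      linarith
    have h8 : δ₁ * (G + 1) * k = δ / 2 * k := by
      rw [hδ₁]
      field_simp
    have h9 : (G - δ₁) * n = G * n - δ₁ * n := by ring
    have h10 : (Fp p r - δ) * k = Fp p r * k - δ * k := by ring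
    have h11 : δ₁ * (G + 1) * k = δ₁ * G * k + δ₁ * k := by ring
    rw [h9, h10]
    linarith
  · intro y hy
    rw [mem_image] at hy
    obtain ⟨w, hw, rfl⟩ := hy
    obtain ⟨a1, a2, a3, a4⟩ := hS2 w hw
    have h5 := full_path hA hm le_rfl ht2 a3 a4 (hsum w hw)
    rw [a1] at h5
    exact h5

end Pool.Agent.N685.FD
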