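import Pool.Agent.N685.FD.Stm2

/-!
Project FD, part 2 (subtask 4418, helper368): the upper bound for the joint level sets and the sizes
of their members, for large `c`.
-/

set_option autoImplicit false

namespace Pool.Agent.N685.FD

open Finset

namespace Lv0_

variable {p : ℕ} {d : ℤ}

theorem above_mono {c c' : ℤ} (h : c' ≤ c) : ∀ (w : List ℕ) (x : ℤ), above p d c x w →
    above p d c' x w
  | [], _, _ => trivial
  | _ :: w, _, hw => ⟨lt_of_le_of_lt h hw.1, above_mono h w _ hw.2⟩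

theorem tt_pos {z : ℝ} (hp : 1 ≤ p) (h0 : 0 < z) (h1 : z < 1) : 0 < tt p z := by
  unfold tt
  have h2 : (0 : ℝ) < p := by exact_mod_cast hp
  have h3 : 0 < 1 - z := by linarith
  positivity

theorem adm_ge (hA : Adm p d) : 3 ≤ p := by
  rcases hA.1 with rfl | rfl <;> norm_num

theorem oT_le (k : ℕ) (n : ℤ) : oT p d k n ≤ k := by
  unfold oT
  exact (card_filter_le _ _).trans (by simp)

/-- the endpoint is at least `1` -/
theorem end_pos (hA : Adm p d) {c : ℤ} (hc : 1 ≤ c) (hd : |d| ≤ c) {k : ℕ} {n : ℤ} (hn : 1 ≤ n)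
    (h : ∀ j < k, c < (T p d)^[j] n) : 1 ≤ (T p d)^[k] n := by
  have hp := adm_ge hA
  cases k with
  | zero => exact hn
  | succ k =>
    rw [Function.iterate_succ_apply']
    have hx := h k (Nat.lt_succ_self k)
    generalize (T p d)^[k] n = x at hx
    unfold T
    split_ifs with hpar
    · omega
    · have h1 : -c ≤ d := (abs_le.1 hd).1
      have h2 : (3 : ℤ) ≤ p := by exact_mod_cast hp
      have h3 : 3 * x ≤ p * x := mul_le_mul_of_nonneg_right h2 (by omega)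
      generalize (p : ℤ) * x = y at h3
      omega

/-- the word of a member of a level set -/
theorem code (h1 : S_CODE) (hA : Adm p d) {c : ℤ} (hc : 1 ≤ c) (hd : |d| ≤ c) {k o : ℕ} {n : ℤ}
    (hn : n ∈ LT p d c k o) : ∃ w : List ℕ, w.length = o ∧ ok p d ((T p d)^[k] n) w ∧
      above p d c ((T p d)^[k] n) w ∧ w.sum ≤ k ∧
        n = 2 ^ (k - w.sum) * fin p d ((T p d)^[k] n) w ∧ 1 ≤ (T p d)^[k] n ∧
          (T p d)^[k] n ≤ c := by
  obtain ⟨hn1, hn2, hn3, hn4⟩ := hn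
  obtain ⟨w, hw1, hw2, hw3, hw4, hw5⟩ := h1 p d hA c k n hn2
  exact ⟨w, hw1.trans hn4, hw2, hw3, hw4, hw5, end_pos hA hc hd hn1 hn2, hn3⟩

theorem words_fin (k o : ℕ) : {w : List ℕ | w.length = o ∧ w.sum ≤ k}.Finite := by
  refine (Set.finite_range fun g : Fin o → Fin (k + 1) => List.ofFn fun i => (g i : ℕ)).subset ?_
  rintro w ⟨rfl, hw⟩
  refine ⟨fun i => ⟨w[(i : ℕ)], ?_⟩, ?_⟩
  · have h1 : w[(i : ℕ)] ≤ w.sum := List.single_le_sum (fun _ _ => Nat.zero_le _) _
      (List.getElem_mem i.2)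
    omega
  · exact List.ofFn_getElem

theorem LT_fin (h1 : S_CODE) (hA : Adm p d) {c : ℤ} (hc : 1 ≤ c) (hd : |d| ≤ c) (k o : ℕ) :
    (LT p d c k o).Finite := by
  refine (((Set.finite_Icc (1 : ℤ) c).prod (words_fin k o)).image fun q : ℤ × List ℕ =>
    2 ^ (k - q.2.sum) * fin p d q.1 q.2).subset ?_
  intro n hn
  obtain ⟨w, hw1, -, -, hw4, hw5, hw6, hw7⟩ := code h1 hA hc hd hn
  exact ⟨((T p d)^[k] n, w), ⟨⟨hw6, hw7⟩, hw1, hw4⟩, hw5.symm⟩

end Lv0_

open Lv0_

/-- upper bound for the joint level sets, large `c` -/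
theorem t_LV0 (h1 : S_GEN) (h2 : S_CODE) : S_LV0 := by
  classical
  intro p d hA z hQ
  obtain ⟨c₀, hc₀, hG⟩ := h1 p d hA z hQ
  refine ⟨max 1 (max c₀ |d|), le_max_left _ _, fun c hc ε hε => ?_⟩
  have hc1 : 1 ≤ c := (le_max_left _ _).trans hc
  have hcc : c₀ ≤ c := (le_max_left _ _).trans ((le_max_right _ _).trans hc)
  have hcd : |d| ≤ c := (le_max_right _ _).trans ((le_max_right _ _).trans hc)
  obtain ⟨C, hC, hup⟩ := hG c hcc ε hε
  have hcR : (1 : ℝ) ≤ c := by exact_mod_cast hc1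
  have hC' : 0 < C * c := mul_pos hC (by linarith)
  refine ⟨C * c, hC', fun k o => ⟨LT_fin h2 hA hc1 hcd k o, ?_⟩⟩
  obtain ⟨hz0, hz1, -⟩ := hQ
  have hp1 : 1 ≤ p := le_trans (by norm_num) (adm_ge hA)
  have hth0 : 0 < tt p z := tt_pos hp1 hz0 hz1
  have hfin := LT_fin h2 hA hc1 hcd k o
  have hcode : ∀ n : ℤ, ∃ w : List ℕ, n ∈ LT p d c k o → w.length = o ∧
      ok p d ((T p d)^[k] n) w ∧ above p d c ((T p d)^[k] n) w ∧ w.sum ≤ k ∧
        n = 2 ^ (k - w.sum) * fin p d ((T p d)^[k] n) w ∧ 1 ≤ (T p d)^[k] n ∧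
          (T p d)^[k] n ≤ c := by
    intro n
    by_cases hn : n ∈ LT p d c k o
    · obtain ⟨w, hw⟩ := code h2 hA hc1 hcd hn
      exact ⟨w, fun _ => hw⟩
    · exact ⟨[], fun h => absurd h hn⟩
  choose g hg using hcode
  set F : Finset ℤ := hfin.toFinset with hF
  have hmem : ∀ n ∈ F, n ∈ LT p d c k o := fun n hn => hfin.mem_toFinset.1 hn
  have hterm : ∀ n ∈ F, tt p z ^ o * z ^ k ≤ wt p z (g n) := by
    intro n hn
    have h1' := hg n (hmem n hn)
    unfold wt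
    rw [h1'.1]
    apply mul_le_mul_of_nonneg_left _ (by positivity)
    exact pow_le_pow_of_le_one hz0.le hz1.le h1'.2.2.2.1
  have hmaps : ∀ n ∈ F, (T p d)^[k] n ∈ Finset.Icc 1 c := by
    intro n hn
    have h1' := hg n (hmem n hn)
    exact Finset.mem_Icc.2 ⟨h1'.2.2.2.2.2.1, h1'.2.2.2.2.2.2⟩
  have hfib : ∀ a ∈ Finset.Icc 1 c, ∑ n ∈ F with (T p d)^[k] n = a, wt p z (g n) ≤
      C * Real.exp (ε * o) := by
    intro a ha
    obtain ⟨ha1, ha2⟩ := Finset.mem_Icc.1 ha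
    have hinj : Set.InjOn g ((F.filter fun n => (T p d)^[k] n = a : Finset ℤ) : Set ℤ) := by
      intro n hn m hm h
      obtain ⟨hn1, hn2⟩ := Finset.mem_filter.1 (Finset.mem_coe.1 hn)
      obtain ⟨hm1, hm2⟩ := Finset.mem_filter.1 (Finset.mem_coe.1 hm)
      have e1 := (hg n (hmem n hn1)).2.2.2.2.1
      have e2 := (hg m (hmem m hm1)).2.2.2.2.1
      rw [e1, e2, h, hn2, hm2]
    have h3 := hup o a ((F.filter fun n => (T p d)^[k] n = a).image g) ha1 (by
      intro w hw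
      obtain ⟨n, hn, rfl⟩ := mem_image.1 hw
      obtain ⟨hn1, hn2⟩ := Finset.mem_filter.1 hn
      have h4 := hg n (hmem n hn1)
      rw [hn2] at h4
      exact ⟨h4.1, h4.2.1, above_mono ha2 _ _ h4.2.2.1, h4.2.2.1⟩)
    rwa [sum_image hinj] at h3
  have hsum : ∑ n ∈ F, wt p z (g n) ≤ C * c * Real.exp (ε * o) := by
    rw [← Finset.sum_fiberwise_of_maps_to hmaps]
    refine (Finset.sum_le_sum hfib).trans ?_
    rw [Finset.sum_const, nsmul_eq_mul, Int.card_Icc]
    have e : (((c + 1 - 1).toNat : ℕ) : ℝ) = c := by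
      have e1 : (((c + 1 - 1).toNat : ℕ) : ℤ) = c := by
        rw [Int.toNat_of_nonneg (by omega)]
        ring
      exact_mod_cast congrArg (fun t : ℤ => (t : ℝ)) e1
    rw [e]
    apply le_of_eq
    ring
  have h4 : (F.card : ℝ) * (tt p z ^ o * z ^ k) ≤ C * c * Real.exp (ε * o) := by
    refine le_trans ?_ hsum
    rw [← nsmul_eq_mul, ← sum_const]
    exact sum_le_sum hterm
  have hcard : ((LT p d c k o).ncard : ℝ) = F.card := by
    rw [hF, Set.ncard_eq_toFinset_card _ hfin]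
  rw [hcard]
  rcases Nat.eq_zero_or_pos F.card with h0' | hpos
  · rw [h0']
    push_cast
    positivity
  have hok : o ≤ k := by
    obtain ⟨n, hn⟩ := Finset.card_pos.1 hpos
    rw [← (hmem n hn).2.2.2]
    exact oT_le k n
  have h5 : tt p z ^ o * z ^ k =
      Real.exp (-(k * (-Real.log z) + o * (-Real.log (tt p z)))) := by
    have e1 : tt p z ^ o = Real.exp (o * Real.log (tt p z)) := by
      rw [Real.exp_nat_mul, Real.exp_log hth0]
    have e2 : z ^ k = Real.exp (k * Real.log z) := by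
      rw [Real.exp_nat_mul, Real.exp_log hz0]
    rw [e1, e2, ← Real.exp_add]
    congr 1
    ring
  rw [h5, Real.exp_neg, ← div_eq_mul_inv, div_le_iff₀ (Real.exp_pos _)] at h4
  refine h4.trans ?_
  rw [mul_assoc (C * (c : ℝ)), ← Real.exp_add]
  apply mul_le_mul_of_nonneg_left _ hC'.le
  apply Real.exp_le_exp.2
  have : ε * (o : ℝ) ≤ ε * k := mul_le_mul_of_nonneg_left (by exact_mod_cast hok) hε.le
  linarith

/-- sizes of the members of the joint level sets, large `c` -/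
theorem t_SIZE0 (h1 : S_CODE) (h2 : S_SZ) : S_SIZE0 := by
  intro p d hA η hη
  obtain ⟨c₀, hc₀, hS⟩ := h2 p d hA η hη
  refine ⟨max c₀ |d|, hc₀.trans (le_max_left _ _), fun c hc => ⟨Real.log c, ?_⟩⟩
  intro k o n hn
  have hcc : c₀ ≤ c := (le_max_left _ _).trans hc
  have hcd : |d| ≤ c := (le_max_right _ _).trans hc
  have hc1 : 1 ≤ c := hc₀.trans hcc
  obtain ⟨w, hw1, hw2, hw3, hw4, hw5, hw6, hw7⟩ := code h1 hA hc1 hcd hn
  have hok : o ≤ k := by
    rw [← hn.2.2.2]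
    exact oT_le k n
  have hn1 : 1 ≤ n := hn.1
  generalize (T p d)^[k] n = a at hw2 hw3 hw5 hw6 hw7
  have h3 := hS c a w hcc hw6 hw2 hw3
  have hfpos : 0 < fin p d a w := by
    by_contra hneg
    have h4 : 2 ^ (k - w.sum) * fin p d a w ≤ 0 :=
      mul_nonpos_of_nonneg_of_nonpos (by positivity) (not_lt.1 hneg)
    omega
  have hlog : Real.log n = (k - w.sum : ℝ) * Real.log 2 + Real.log (fin p d a w) := by
    have e1 : (n : ℝ) = 2 ^ (k - w.sum) * (fin p d a w : ℝ) := by exact_mod_cast hw5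
    have e2 : (0 : ℝ) < (fin p d a w : ℝ) := by exact_mod_cast hfpos
    rw [e1, Real.log_mul (by positivity) e2.ne', Real.log_pow, Nat.cast_sub hw4]
  have ha : (1 : ℝ) ≤ a := by exact_mod_cast hw6
  have ha0 : 0 ≤ Real.log a := Real.log_nonneg ha
  have ha1 : Real.log a ≤ Real.log c := Real.log_le_log (by linarith) (by exact_mod_cast hw7)
  rw [hw1] at h3
  have h5 : η * (o : ℝ) ≤ η * k := mul_le_mul_of_nonneg_left (by exact_mod_cast hok) hη.le
  obtain ⟨h6, h7⟩ := abs_le.1 h3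
  rw [hlog]
  apply abs_le.2
  constructor <;> nlinarith

end Pool.Agent.N685.FD
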