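import Pool.Agent.N685.FD.Stm2
import Pool.Agent.H422R2.QA.QALD

/-!
Project FD (helper685): lower bound for the number of words (part LW, written by helper49).
-/

set_option autoImplicit false
set_option linter.unusedVariables false

namespace Pool.Agent.N685.FD

open Finset Pool.Agent.H320R2.PD Pool.Agent.H422R2.QA

namespace LWx

theorem st_spec {p : ℕ} {d : ℤ} {e : ℕ} {x : ℤ} (h : (p : ℤ) ∣ 2 ^ e * x - d) :
    (p : ℤ) * st p d e x + d = 2 ^ e * x := by
  unfold st
  rw [Int.mul_ediv_cancel' h]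
  ring

theorem fin_spec {p : ℕ} {d : ℤ} {x : ℤ} {w : List ℕ} (h : ok p d x w) :
    (p : ℤ) ^ w.length * fin p d x w = 2 ^ w.sum * x - d * (Wq p w : ℤ) := by
  induction w generalizing x with
  | nil => simp [fin, Wq]
  | cons e w ih =>
    have h1 := ih h.2.2
    have h2 := st_spec h.2.1
    show (p : ℤ) ^ (e :: w).length * fin p d (st p d e x) w = _
    rw [List.length_cons, List.sum_cons, Wq, pow_succ, pow_add]
    push_cast
    linear_combination (p : ℤ) * h1 + 2 ^ w.sum * h2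

theorem ok_of_dvd {p : ℕ} (hp : p.Prime) (hp2 : ¬ (p : ℤ) ∣ 2) {d : ℤ} {w : List ℕ} :
    ∀ {x : ℤ}, (∀ e ∈ w, 1 ≤ e) → (p : ℤ) ^ w.length ∣ 2 ^ w.sum * x - d * (Wq p w : ℤ) →
      ok p d x w := by
  have hpi : Prime (p : ℤ) := Nat.prime_iff_prime_int.1 hp
  induction w with
  | nil =>
    intro x _ _
    trivial
  | cons e w ih =>
    intro x he hd
    have h0 : (2 : ℤ) ^ (e :: w).sum * x - d * (Wq p (e :: w) : ℤ) =
        2 ^ w.sum * (2 ^ e * x - d) - p * (d * Wq p w) := by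
      rw [List.sum_cons, Wq, pow_add]
      push_cast
      ring
    rw [h0, List.length_cons] at hd
    have h1 : (p : ℤ) ∣ 2 ^ w.sum * (2 ^ e * x - d) := by
      have h2 : (p : ℤ) ∣ 2 ^ w.sum * (2 ^ e * x - d) - p * (d * Wq p w) :=
        (dvd_pow_self (p : ℤ) (Nat.succ_ne_zero _)).trans hd
      have h3 := dvd_add h2 (Dvd.intro (d * (Wq p w : ℤ)) rfl : (p : ℤ) ∣ p * (d * Wq p w))
      rwa [sub_add_cancel] at h3
    have h2 : (p : ℤ) ∣ 2 ^ e * x - d := by
      rcases hpi.dvd_or_dvd h1 with h | h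
      · exact absurd (hpi.dvd_of_dvd_pow h) hp2
      · exact h
    refine ⟨he e (List.mem_cons_self), h2, ih (fun f hf => he f (List.mem_cons_of_mem _ hf)) ?_⟩
    have h3 := st_spec h2
    have h4 : (2 : ℤ) ^ w.sum * (2 ^ e * x - d) - p * (d * Wq p w) =
        p * (2 ^ w.sum * st p d e x - d * Wq p w) := by
      linear_combination (-(2 : ℤ) ^ w.sum) * h3
    rw [h4, pow_succ, mul_comm ((p : ℤ) ^ w.length)] at hd
    exact Int.dvd_of_mul_dvd_mul_left (by exact_mod_cast hp.ne_zero) hd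

end LWx

open LWx

theorem t_LW : S_LW := by
  classical
  intro p d hA r hr0 hr1 hF δ hδ
  have hp : p.Prime := by
    rcases hA.1 with rfl | rfl <;> norm_num
  have hp2 : ¬ (p : ℤ) ∣ 2 := by
    rcases hA.1 with rfl | rfl <;> norm_num
  have hpi : Prime (p : ℤ) := Nat.prime_iff_prime_int.1 hp
  have ha : 1 < 1 / r := by
    rw [lt_div_iff₀ hr0]
    linarith
  have hGa : App.Ga p (1 / r) = Fp p r / r := by
    have h1r : 0 < 1 - r := by linarith
    have e1 : 1 / r - 1 = (1 - r) / r := by field_simp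
    unfold App.Ga Fp Real.binEntropy
    rw [e1, Real.log_div h1r.ne' hr0.ne', Real.log_inv, Real.log_inv, one_div, Real.log_inv]
    field_simp
    ring
  obtain ⟨E, n₀, h⟩ := App.quenched hA.1 ha (by rw [hGa]; exact div_pos hF hr0) hδ
  refine ⟨E, n₀, fun n hn x hx => ?_⟩
  have hcop : IsCoprime ((p : ℤ) ^ (n + 1)) d :=
    ((Prime.coprime_iff_not_dvd hpi).2 hA.2.2).pow_left
  obtain ⟨u, v, huv⟩ := hcop
  have hx' : x - d * (v * x) = (p : ℤ) ^ (n + 1) * (u * x) := by linear_combination (-x) * huv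
  have hpx' : ¬ (p : ℤ) ∣ v * x := by
    intro h1
    refine hx ?_
    have h2 : (p : ℤ) ∣ (p : ℤ) ^ (n + 1) * (u * x) :=
      (dvd_pow_self (p : ℤ) (Nat.succ_ne_zero n)).mul_right _
    have h3 : x = (p : ℤ) ^ (n + 1) * (u * x) + d * (v * x) := by linear_combination hx'
    rw [h3]
    exact dvd_add h2 (h1.mul_left d)
  obtain ⟨s, hs1, hs2⟩ := h n hn (v * x) hpx'
  refine ⟨s, (FW E n).filter (fun w => w.sum = s ∧ Lv p w (v * x)), ?_, ?_, fun w hw => ?_⟩
  · have e1 : (n : ℝ) / r = 1 / r * n := by ring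
    rw [e1]
    exact hs1
  · rw [hGa] at hs2
    unfold Nq at hs2
    exact hs2
  · rw [mem_filter, mem_FW] at hw
    obtain ⟨⟨h1, h2⟩, h3, h4, h5⟩ := hw
    unfold Vd at h4
    have h6 : (p : ℤ) ^ w.length * Ep p w (v * x) = 2 ^ w.sum * (v * x) - Wq p w := by
      unfold Ep
      exact Int.mul_ediv_cancel' h4
    have h7 : (2 : ℤ) ^ w.sum * x - d * (Wq p w : ℤ) =
        (p : ℤ) ^ w.length * (d * Ep p w (v * x) + 2 ^ w.sum * (p * (u * x))) := by
      rw [h1]
      rw [h1] at h6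
      rw [pow_succ] at hx'
      linear_combination (-d) * h6 + 2 ^ w.sum * hx'
    have hok : ok p d x w := ok_of_dvd hp hp2 (fun e he => (h2 e he).1) ⟨_, h7⟩
    refine ⟨h1, h3, fun e he => (h2 e he).2, hok, ?_⟩
    have h8 := fin_spec hok
    rw [h7] at h8
    have h9 : fin p d x w = d * Ep p w (v * x) + 2 ^ w.sum * (p * (u * x)) :=
      mul_left_cancel₀ (pow_ne_zero _ (by exact_mod_cast hp.ne_zero)) h8
    rw [h9]
    intro h10
    have h11 : (p : ℤ) ∣ 2 ^ w.sum * (p * (u * x)) := (Dvd.intro _ rfl : (p : ℤ) ∣ p * (u * x)).mul_left _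
    have h12 : (p : ℤ) ∣ d * Ep p w (v * x) := by
      have := dvd_sub h10 h11
      rwa [add_sub_cancel_right] at this
    rcases hpi.dvd_or_dvd h12 with h | h
    · exact hA.2.2 h
    · exact h5 h

end Pool.Agent.N685.FD
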