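import Pool.Agent.N685.FD.Stm2

/-!
PROJECT FD (helper685), part 2: sizes of the endpoints (helper163).
-/

set_option autoImplicit false

namespace Pool.Agent.N685.FD

namespace Sz

/-- one letter -/
theorem step (p : ℕ) (d : ℤ) (hp : 1 ≤ p) (η : ℝ) (hη : 0 < η) (c0 : ℤ) (hc0 : 1 ≤ c0)
    (hc : 2 * |(d : ℝ)| * (1 + 1 / η) ≤ c0) (x : ℤ) (e : ℕ) (hx : 1 ≤ x)
    (hdvd : (p : ℤ) ∣ 2 ^ e * x - d) (hst : c0 < st p d e x) :
    |Real.log (st p d e x) - (e * Real.log 2 - Real.log p + Real.log x)| ≤ η := by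
  have hp0 : (0 : ℝ) < p := by exact_mod_cast hp
  have hp1 : (1 : ℝ) ≤ p := by exact_mod_cast hp
  have hpx : (p : ℤ) * st p d e x = 2 ^ e * x - d := by
    rw [st]
    exact Int.mul_ediv_cancel' hdvd
  set y : ℤ := st p d e x with hy
  have hx0 : (0 : ℝ) < x := by exact_mod_cast hx
  have hy1 : (c0 : ℝ) < y := by exact_mod_cast hst
  have hc1 : (1 : ℝ) ≤ c0 := by exact_mod_cast hc0
  have hy0 : (0 : ℝ) < y := by linarith
  have hR : (2 : ℝ) ^ e * x = p * y + d := by
    have h : ((p : ℤ) * y : ℤ) = 2 ^ e * x - d := hpx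
    have h2 : ((p : ℝ)) * y = 2 ^ e * x - d := by exact_mod_cast h
    linarith
  have hpy : (0 : ℝ) < p * y := by positivity
  obtain ⟨t, ht⟩ : ∃ t : ℝ, t = d / (p * y) := ⟨_, rfl⟩
  have hratio : (2 : ℝ) ^ e * x = (p * y) * (1 + t) := by
    rw [hR, ht]
    field_simp
  have habs : |t| * (2 * (1 + 1 / η)) ≤ 1 := by
    rw [ht, abs_div, abs_of_pos hpy, div_mul_eq_mul_div, div_le_one hpy]
    have h1 : (c0 : ℝ) ≤ p * y := by nlinarith
    linarith
  have hη' : 0 < 1 / η := by positivity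
  have hta := abs_nonneg t
  have h1 : |t| ≤ 1 / 2 := by nlinarith
  have h2 : 2 * |t| ≤ η := by
    have h3 : |t| * (2 * (1 / η)) ≤ 1 := by nlinarith
    have h4 : |t| * 2 / η ≤ 1 := by
      have e1 : |t| * (2 * (1 / η)) = |t| * 2 / η := by ring
      rw [← e1]
      exact h3
    rw [div_le_one hη] at h4
    linarith
  have ht1 := abs_le.1 h1
  have h1t : 0 < 1 + t := by linarith [ht1.1]
  have hlog : e * Real.log 2 + Real.log x = Real.log p + Real.log y + Real.log (1 + t) := by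
    have h3 := congrArg Real.log hratio
    rw [Real.log_mul (by positivity) hx0.ne', Real.log_pow, Real.log_mul hpy.ne' h1t.ne',
      Real.log_mul hp0.ne' hy0.ne'] at h3
    exact h3
  have hup : Real.log (1 + t) ≤ 2 * |t| := by
    have h3 := Real.log_le_sub_one_of_pos h1t
    have h4 := le_abs_self t
    linarith
  have hlow : -(2 * |t|) ≤ Real.log (1 + t) := by
    have h3 := Real.one_sub_inv_le_log_of_pos h1t
    have h4 : -(2 * |t|) ≤ 1 - (1 + t)⁻¹ := by
      have h5 : (1 + t)⁻¹ ≤ 1 + 2 * |t| := by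
        rw [inv_eq_one_div, div_le_iff₀ h1t]
        have h6 := neg_abs_le t
        nlinarith
      linarith
    linarith
  rw [abs_le]
  constructor <;> linarith

end Sz

theorem t_SZ : S_SZ := by
  intro p d hA η hη
  have hp : 1 ≤ p := by
    rcases hA.1 with h | h <;> omega
  obtain ⟨c1, hc1⟩ := exists_nat_ge (2 * |(d : ℝ)| * (1 + 1 / η))
  refine ⟨(c1 : ℤ) + 1, by omega, ?_⟩
  intro c a w hc ha
  have hcc : 2 * |(d : ℝ)| * (1 + 1 / η) ≤ ((c : ℤ) : ℝ) := by
    have h1 : (((c1 : ℤ) + 1 : ℤ) : ℝ) ≤ c := by exact_mod_cast hc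
    push_cast at h1
    linarith
  have hc' : 1 ≤ c := by omega
  induction w generalizing a with
  | nil =>
    intro _ _
    simp [fin]
  | cons e w ih =>
    intro hok hab
    obtain ⟨_, hdvd, hok'⟩ := hok
    obtain ⟨hst, hab'⟩ := hab
    have h1 := Sz.step p d hp η hη c hc' hcc a e ha hdvd hst
    have h2 := ih (st p d e a) (by omega) hok' hab'
    rw [abs_le] at h1 h2 ⊢
    have e1 : fin p d a (e :: w) = fin p d (st p d e a) w := rfl
    rw [e1, List.sum_cons, List.length_cons, Nat.cast_add, Nat.cast_add, Nat.cast_one]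
    constructor <;> nlinarith [h1.1, h1.2, h2.1, h2.2]

end Pool.Agent.N685.FD
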