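import Pool.Agent.N685.FD.Asm
import Pool.Agent.N685.FD.Code
import Pool.Agent.N685.FD.Sz
import Pool.Agent.N685.FD.Lv0
import Pool.Agent.N685.FD.Ext
import Pool.Agent.N685.FD.Lw
import Pool.Agent.N685.FD.Cc
import Pool.Agent.N685.FD.Low

/-! Project FD: assembly of part 2. -/

set_option autoImplicit false

namespace Pool.Agent.N685.FD

theorem lv_main : S_LV := t_LV (t_LV0 gen_main t_CODE)

theorem size_main : S_SIZE := t_SIZE (t_SIZE0 t_CODE t_SZ)

theorem cc_main : S_CC := t_CC t_LW

theorem low_main : S_LOW := t_LOW cc_main t_SZ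

end Pool.Agent.N685.FD
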