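import Pool.Agent.N685.FD.Stm3

/-!
PROJECT FD (helper685), part 3: the lower bound for bounded `y`, with a fixed target.
-/

set_option autoImplicit false

namespace Pool.Agent.N685.FD

open Finset

namespace Ucb

open Filter Topology

theorem cont_F {p : ℕ} (a : ℝ) (ha : a ≠ 0) : ContinuousAt (fun a => Fp p (rp p a)) a := by
  have h1 : ContinuousAt (fun a : ℝ => rp p a) a := by
    unfold rp
    exact (continuousAt_const.sub (continuousAt_const.div continuousAt_id ha)).div_const _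
  have h2 : Continuous (fun r : ℝ => Fp p r) := by
    unfold Fp
    exact Real.binEntropy_continuous.sub (continuous_id.mul continuous_const)
  exact h2.continuousAt.comp h1

/-- the choice of `α'` -/
theorem exists_alpha {p : ℕ} {α : ℝ} (hα : 1 / Real.log 2 < α) (hF : 0 < Fp p (rp p α)) {ε : ℝ}
    (hε : 0 < ε) : ∃ a : ℝ, a < α ∧ 1 / Real.log 2 < a ∧ 0 < Fp p (rp p a) ∧
      α * Fp p (rp p α) - ε / 2 < a * Fp p (rp p a) := by
  have hl2 : 0 < Real.log 2 := Real.log_pos (by norm_num)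
  have hα0 : 0 < α := lt_trans (by positivity) hα
  have c1 := cont_F (p := p) α hα0.ne'
  have c2 : ContinuousAt (fun a => a * Fp p (rp p a)) α := continuousAt_id.mul c1
  have e1 : ∀ᶠ a in 𝓝 α, 0 < Fp p (rp p a) := c1.eventually (lt_mem_nhds hF)
  have e2 : ∀ᶠ a in 𝓝 α, α * Fp p (rp p α) - ε / 2 < a * Fp p (rp p a) :=
    c2.eventually (lt_mem_nhds (by linarith))
  have e3 : ∀ᶠ a in 𝓝 α, 1 / Real.log 2 < a := lt_mem_nhds hα
  have e4 : ∀ᶠ a in 𝓝[<] α, a < α := self_mem_nhdsWithin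
  obtain ⟨a, ⟨h1, h2, h3⟩, h4⟩ :=
    (((e1.and (e2.and e3)).filter_mono nhdsWithin_le_nhds).and e4).exists
  exact ⟨a, h4, h3, h1, h2⟩

/-- the choice of the small parameter -/
theorem exists_t {F G α a l : ℝ} (hF : 0 < F) (ha : 0 < a) (haα : a < α) (hG : G < a * F) :
    ∃ t : ℝ, 0 < t ∧ t < F ∧ 1 < α * (1 / a - t * l - t) ∧ G * (1 / a + t * l + t) < F - t := by
  have c1 : Continuous fun t : ℝ => α * (1 / a - t * l - t) := by fun_prop
  have c2 : Continuous fun t : ℝ => F - t - G * (1 / a + t * l + t) := by fun_prop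
  have e1 : ∀ᶠ t in 𝓝 (0 : ℝ), 1 < α * (1 / a - t * l - t) := by
    apply c1.continuousAt.eventually (lt_mem_nhds _)
    simp only [zero_mul, sub_zero]
    rw [mul_one_div, lt_div_iff₀ ha]
    linarith
  have e2 : ∀ᶠ t in 𝓝 (0 : ℝ), 0 < F - t - G * (1 / a + t * l + t) := by
    apply c2.continuousAt.eventually (lt_mem_nhds _)
    simp only [zero_mul, sub_zero, add_zero]
    rw [mul_one_div, sub_pos, div_lt_iff₀ ha]
    linarith
  have e3 : ∀ᶠ t in 𝓝 (0 : ℝ), t < F := gt_mem_nhds hF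
  have e4 : ∀ᶠ t in 𝓝[>] (0 : ℝ), 0 < t := self_mem_nhdsWithin
  obtain ⟨t, ⟨h1, h2, h3⟩, h4⟩ :=
    (((e1.and (e2.and e3)).filter_mono nhdsWithin_le_nhds).and e4).exists
  exact ⟨t, h4, h3, h1, by linarith⟩

end Ucb

open Ucb in
theorem t_UCB (h1 : S_LOW) (h2 : S_SIZE) : S_UCB := by
  intro p d hA α hα hF m hm hpm M hM ε hε
  obtain ⟨hp1, hlp, _⟩ := UL.p_facts hA.1
  have hl2 : 0 < Real.log 2 := Real.log_pos (by norm_num)
  have hα0 : 0 < α := lt_trans (by positivity) hα
  obtain ⟨a, ha1, ha2, ha3, ha4⟩ := exists_alpha hα hF hε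
  have ha0 : 0 < a := lt_trans (by positivity) ha2
  set G0 := α * Fp p (rp p α) with hG0
  set r := rp p a with hr
  have hr1 : Real.log 2 - r * Real.log p = 1 / a := by
    rw [hr, rp, div_mul_cancel₀ _ hlp.ne']
    ring
  have h1a : 1 / a < Real.log 2 := by
    rw [div_lt_iff₀ ha0]
    rw [div_lt_iff₀ hl2] at ha2
    linarith
  have h1a0 : 0 < 1 / a := by positivity
  have hr0 : 0 < r := by
    rw [hr, rp]
    exact div_pos (by linarith) hlp
  have hl2p : Real.log 2 < Real.log p := by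
    apply Real.log_lt_log (by norm_num)
    rcases hA.1 with h | h <;> rw [h] <;> norm_num
  have hr2 : r < 1 := by
    rw [hr, rp, div_lt_one hlp]
    linarith
  have hr3 : r * Real.log p < Real.log 2 := by linarith
  obtain ⟨t, ht0, ht1, ht2, ht3⟩ := exists_t (l := Real.log p) ha3 ha0 ha1 ha4
  obtain ⟨k₀, hk₀⟩ := h1 p d hA r hr0 hr2 ha3 hr3 m hm hpm t ht0
  obtain ⟨K₁, hK₁⟩ := h2 p d hA t ht0 m hm
  obtain ⟨K, hKK, hK0⟩ : ∃ K : ℝ, K₁ ≤ K ∧ 0 ≤ K := ⟨max K₁ 0, le_max_left _ _, le_max_right _ _⟩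
  have hlM : 0 ≤ Real.log M := Real.log_nonneg hM
  set A := 1 / a + t * Real.log p + t with hAdef
  have hA0 : 0 < A := by positivity
  set B := α * (1 / a - t * Real.log p - t) - 1 with hBdef
  have hB0 : 0 < B := by linarith
  set L₁ := K + A * (k₀ + 2 + α * (K + Real.log M) / B) with hL₁
  set L₂ := 2 / ε * (Real.log M + (Fp p r - t) + |G0 - ε / 2| * K) with hL₂
  refine ⟨max 1 (Real.exp (max L₁ L₂)), le_max_left _ _, fun x hx => ?_⟩
  have hx1 : 1 ≤ x := (le_max_left _ _).trans hx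
  have hx0 : 0 < x := by linarith
  have hLx : max L₁ L₂ ≤ Real.log x := by
    rw [Real.le_log_iff_exp_le hx0]
    exact (le_max_right _ _).trans hx
  obtain ⟨L, hL⟩ : ∃ L, L = Real.log x := ⟨_, rfl⟩
  rw [← hL] at hLx
  have hLL1 : L₁ ≤ L := (le_max_left _ _).trans hLx
  have hLL2 : L₂ ≤ L := (le_max_right _ _).trans hLx
  obtain ⟨u, hu⟩ : ∃ u, u = (L - K) / A := ⟨_, rfl⟩
  have huA : A * u = L - K := by
    rw [hu, mul_div_cancel₀ _ hA0.ne']
  have hC0 : 0 ≤ α * (K + Real.log M) / B := by positivity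
  have hu1 : (k₀ : ℝ) + 2 + α * (K + Real.log M) / B ≤ u := by
    rw [hu, le_div_iff₀ hA0]
    linarith
  have hu0 : 0 ≤ u := by
    have : (0 : ℝ) ≤ k₀ := Nat.cast_nonneg _
    linarith
  obtain ⟨k, hk⟩ : ∃ k, k = ⌊u⌋₊ := ⟨_, rfl⟩
  have hku : (k : ℝ) ≤ u := by
    rw [hk]
    exact Nat.floor_le hu0
  have hku' : u < k + 1 := by
    rw [hk]
    exact Nat.lt_floor_add_one u
  have hkk0 : k₀ ≤ k := by
    have : (k₀ : ℝ) < k + 1 := by linarith
    have h3 : k₀ < k + 1 := by exact_mod_cast this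
    omega
  have hk1 : 1 ≤ k := by
    have h4 : (0 : ℝ) ≤ k₀ := Nat.cast_nonneg _
    have : (1 : ℝ) < k + 1 := by linarith
    have h3 : 1 < k + 1 := by exact_mod_cast this
    omega
  have hkB : α * (K + Real.log M) ≤ k * B := by
    rw [← div_le_iff₀ hB0]
    have h4 : (0 : ℝ) ≤ k₀ := Nat.cast_nonneg _
    linarith
  obtain ⟨o, F, ho, hc, hFF⟩ := hk₀ k hkk0
  have hk0R : (0 : ℝ) ≤ k := Nat.cast_nonneg _
  obtain ⟨ho1, ho2⟩ := abs_le.1 ho
  have hot : |((k : ℝ) * Real.log 2 - o * Real.log p) - k * (1 / a)| ≤ k * (t * Real.log p) := by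
    rw [← hr1]
    have e : (k : ℝ) * Real.log 2 - o * Real.log p - k * (Real.log 2 - r * Real.log p) =
        -((o - r * k) * Real.log p) := by ring
    rw [e, abs_neg, abs_mul, abs_of_pos hlp]
    calc |(o : ℝ) - r * k| * Real.log p ≤ (t * k) * Real.log p :=
          mul_le_mul_of_nonneg_right ho hlp.le
      _ = k * (t * Real.log p) := by ring
  obtain ⟨hot1, hot2⟩ := abs_le.1 hot
  refine ⟨F, fun n hn => ?_, ?_⟩
  · obtain ⟨hn1, hn2⟩ := hFF n hn
    have hsz := hK₁ k o n hn1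
    obtain ⟨hn3, hn4, hn5, hn6⟩ := hn1
    obtain ⟨hs1, hs2⟩ := abs_le.1 hsz
    have hmn : m < n := hn4 0 (by omega)
    have hn0 : (0 : ℝ) < n := by exact_mod_cast (by omega : (0 : ℤ) < n)
    refine ⟨hn3, by exact_mod_cast hmn, ?_, k, hn2, hn4, ?_⟩
    · have hle : Real.log n ≤ L := by
        have e1 : (k : ℝ) * A ≤ u * A := mul_le_mul_of_nonneg_right hku hA0.le
        have e2 : (k : ℝ) * A = k * (1 / a) + k * (t * Real.log p) + t * k := by
          rw [hAdef]
          ring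
        linarith
      rw [hL] at hle
      exact (Real.log_le_log_iff hn0 hx0).1 hle
    · have hge : k * (1 / a) - k * (t * Real.log p) - t * k - K ≤ Real.log n := by linarith
      have e1 : α * (k * (1 / a) - k * (t * Real.log p) - t * k - K - Real.log M) ≤
          α * (Real.log n - Real.log M) := mul_le_mul_of_nonneg_left (by linarith) hα0.le
      have e2 : α * (k * (1 / a) - k * (t * Real.log p) - t * k - K - Real.log M) =
          k * B + k - α * (K + Real.log M) := by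
        rw [hBdef]
        ring
      linarith
  · refine le_trans ?_ hc
    rw [Real.rpow_def_of_pos hx0, ← hL]
    have hM0 : 0 < M := by linarith
    rw [← Real.exp_log hM0, ← Real.exp_add]
    apply Real.exp_le_exp.2
    have f1 : 0 < Fp p r - t := by linarith
    have f2 : (Fp p r - t) * (u - 1) ≤ (Fp p r - t) * k :=
      mul_le_mul_of_nonneg_left (by linarith) f1.le
    have f3 : (G0 - ε / 2) * A * u ≤ (Fp p r - t) * u :=
      mul_le_mul_of_nonneg_right ht3.le hu0
    have f4 : (G0 - ε / 2) * A * u = (G0 - ε / 2) * L - (G0 - ε / 2) * K := by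
      rw [mul_assoc, huA]
      ring
    have f5 : (G0 - ε / 2) * K ≤ |G0 - ε / 2| * K :=
      mul_le_mul_of_nonneg_right (le_abs_self _) hK0
    have f6 : Real.log M + (Fp p r - t) + |G0 - ε / 2| * K ≤ ε / 2 * L := by
      have := mul_le_mul_of_nonneg_left hLL2 (by positivity : 0 ≤ ε / 2)
      have e : ε / 2 * L₂ = Real.log M + (Fp p r - t) + |G0 - ε / 2| * K := by
        rw [hL₂]
        field_simp
      linarith
    have f7 : (Fp p r - t) * (u - 1) = (Fp p r - t) * u - (Fp p r - t) := by ring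
    have f8 : (G0 - ε / 2) * L = L * (G0 - ε) + ε / 2 * L := by ring
    linarith

end Pool.Agent.N685.FD
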