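import Pool.Agent.N685.FD.UL
import Pool.Agent.Y966.LD.Tilt

/-!
PROJECT FD (helper685): upper bound for the number of the `n ≤ x` whose trajectory is at most `y` at a
time at most `α log (n / y)`, uniformly in `1 ≤ y ≤ x`.
-/

set_option autoImplicit false
set_option linter.unusedVariables false

namespace Pool.Agent.N685.FD

open Finset

namespace UL

theorem rp_spec {p : ℕ} (hp : p = 3 ∨ p = 5) (α : ℝ) :
    1 / α = Real.log 2 - rp p α * Real.log p := by
  have hl := (p_facts hp).2.1
  unfold rp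
  field_simp
  ring

theorem rp_pos {p : ℕ} (hp : p = 3 ∨ p = 5) {α : ℝ} (h : 1 / Real.log 2 < α) : 0 < rp p α := by
  have hl := (p_facts hp).2.1
  have hl2 : 0 < Real.log 2 := Real.log_pos (by norm_num)
  have hα : 0 < α := lt_trans (by positivity) h
  unfold rp
  apply div_pos _ hl
  have : 1 / α < Real.log 2 := by
    rw [div_lt_iff₀ hα]
    rw [div_lt_iff₀ hl2] at h
    linarith
  linarith

theorem rp_mul_lt {p : ℕ} (hp : p = 3 ∨ p = 5) {α : ℝ} (h : 0 < α) :
    rp p α * Real.log p < Real.log 2 := by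
  have h1 := rp_spec hp α
  have : 0 < 1 / α := by positivity
  linarith

/-- the exponent is nonnegative -/
theorem php_nonneg {p : ℕ} (hp : p = 3 ∨ p = 5) {z ρ : ℝ} (hQ : Q p z) (hr0 : 0 ≤ ρ)
    (hr1 : ρ * Real.log p ≤ Real.log 2) : 0 ≤ php p ρ z := by
  obtain ⟨ha, hab⟩ := q_facts hQ
  have hl := (p_facts hp).2.1
  unfold php
  set a : ℝ := -Real.log z
  set b : ℝ := -Real.log (tt p z)
  rcases le_or_gt 0 b with hb | hb
  · have := mul_nonneg hr0 hb
    linarith
  · have h2 : Real.log 2 * b ≤ ρ * Real.log p * b := mul_le_mul_of_nonpos_right hr1 hb.le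
    have h3 : 0 < (a + ρ * b) * Real.log p := by nlinarith
    exact (pos_of_mul_pos_left h3 hl.le).le

/-- the linear function in the triangle, with an error term -/
theorem lin_bound {p : ℕ} (hp : p = 3 ∨ p = 5) {z : ℝ} (hQ : Q p z) {α : ℝ} (hα : 1 / Real.log 2 < α)
    {k o E : ℝ} (h1 : k ≤ α * (k * Real.log 2 - o * Real.log p) + E) :
    k * (-Real.log z) + o * (-Real.log (tt p z)) ≤
      α * php p (rp p α) z * (k * Real.log 2 - o * Real.log p) +
        E * ((-Real.log z * Real.log p + -Real.log (tt p z) * Real.log 2) / Real.log p) := by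
  have hl2 : 0 < Real.log 2 := Real.log_pos (by norm_num)
  have hα0 : 0 < α := lt_trans (by positivity) hα
  obtain ⟨ha, hab⟩ := q_facts hQ
  have hl := (p_facts hp).2.1
  have hspec := rp_spec hp α
  unfold php
  set a : ℝ := -Real.log z with hadef
  set b : ℝ := -Real.log (tt p z) with hbdef
  set ρ := rp p α with hρ
  set R : ℝ := (a * Real.log p + b * Real.log 2) / Real.log p with hR
  have hR0 : 0 < R := div_pos hab hl
  have hRl : R * Real.log p = a * Real.log p + b * Real.log 2 := by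
    rw [hR]
    field_simp
  have h1α : α * (Real.log 2 - ρ * Real.log p) = 1 := by
    rw [← hspec]
    field_simp
  have ht : -(α * Real.log p * (ρ * k - o)) ≤ E := by
    have h2 : k * (α * (Real.log 2 - ρ * Real.log p)) ≤
        α * (k * Real.log 2 - o * Real.log p) + E := by rw [h1α, mul_one]; exact h1
    linarith
  have hkey : α * (a + ρ * b) * (k * Real.log 2 - o * Real.log p) - (k * a + o * b) =
      (ρ * k - o) * (α * (a * Real.log p + b * Real.log 2)) +
      (α * (Real.log 2 - ρ * Real.log p) - 1) * (k * (a + ρ * b) - (ρ * k - o) * b) := by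
    ring
  rw [h1α, sub_self, zero_mul, add_zero, ← hRl] at hkey
  have h5 : -(α * Real.log p * (ρ * k - o)) * R ≤ E * R := mul_le_mul_of_nonneg_right ht hR0.le
  nlinarith

/-- `∑_{a ≤ A} 1 / a ≤ 1 + log A` -/
theorem harm (A : ℕ) : ∑ a ∈ Finset.Icc (1 : ℤ) A, (1 : ℝ) / a ≤ 1 + Real.log A := by
  have h := harmonic_le_one_add_log A
  refine le_trans (le_of_eq ?_) h
  unfold harmonic
  push_cast
  induction A with
  | zero => simp
  | succ A ih =>
    have h' := harmonic_le_one_add_log A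
    have e : Finset.Icc (1 : ℤ) ((A + 1 : ℕ) : ℤ) = insert ((A + 1 : ℕ) : ℤ) (Finset.Icc (1 : ℤ) A) := by
      ext x
      simp only [Finset.mem_Icc, Finset.mem_insert]
      omega
    rw [e, Finset.sum_insert (by simp), Finset.sum_range_succ, ih h']
    push_cast
    ring

end UL

open UL in
/-- **uniform upper bound** -/
theorem ul_upper {p : ℕ} {d : ℤ} (hA : Adm p d) {z : ℝ} (hQ : Q p z) {α : ℝ}
    (hα : 1 / Real.log 2 < α) (hU : α * php p (rp p α) z ≤ 1) {ε : ℝ} (hε : 0 < ε) :
    ∃ X₀ : ℝ, 1 ≤ X₀ ∧ ∀ x : ℝ, X₀ ≤ x → ∀ y : ℝ, 1 ≤ y → y ≤ x → ∀ F : Finset ℤ,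
      (∀ n ∈ F, y < n ∧ (n : ℝ) ≤ x ∧ ∃ k : ℕ, (((T p d)^[k] n : ℤ) : ℝ) ≤ y ∧
        (k : ℝ) ≤ α * (Real.log n - Real.log y)) →
      (F.card : ℝ) ≤ x ^ ε * (y * (x / y) ^ (α * php p (rp p α) z)) := by
  classical
  have hp := hA.1
  have hl2 : 0 < Real.log 2 := Real.log_pos (by norm_num)
  have hl := (p_facts hp).2.1
  have hα0 : 0 < α := lt_trans (by positivity) hα
  obtain ⟨ha, hab⟩ := q_facts hQ
  have hU0 : 0 ≤ α * php p (rp p α) z :=
    mul_nonneg hα0.le (php_nonneg hp hQ (rp_pos hp hα).le (rp_mul_lt hp hα0).le)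
  set U : ℝ := α * php p (rp p α) z with hUdef
  set R : ℝ := (-Real.log z * Real.log p + -Real.log (tt p z) * Real.log 2) / Real.log p with hR
  have hR0 : 0 < R := div_pos hab hl
  -- the small constants
  set η : ℝ := ε / (8 * α * (1 + α * R)) with hη
  have hη0 : 0 < η := by positivity
  obtain ⟨c₁, hc₁, hup0⟩ := at_upper hA hQ
  obtain ⟨c₂, hc₂, hsz0⟩ := at_size hA hη0
  set c : ℤ := max (max c₁ c₂) |d| with hc
  have hcc1 : c₁ ≤ c := (le_max_left _ _).trans (le_max_left _ _)
  have hcc2 : c₂ ≤ c := (le_max_right _ _).trans (le_max_left _ _)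
  have hcd : |d| ≤ c := le_max_right _ _
  have hc1 : 1 ≤ c := hc₁.trans hcc1
  have hcR : (1 : ℝ) ≤ c := by exact_mod_cast hc1
  have hlc : 0 ≤ Real.log (c : ℝ) := Real.log_nonneg hcR
  obtain ⟨C, hC, hup⟩ := hup0 c hcc1 (ε / (8 * α)) (by positivity)
  have hsz := hsz0 c hcc2
  set B : ℝ := α * Real.log c with hB
  have hB0 : 0 ≤ B := by positivity
  -- the polynomial factor
  obtain ⟨K', hK'0, hK'⟩ := Pool.Agent.Y966.LD.log_lin (show 0 < ε / 24 by positivity)
  set G : ℝ := (max 1 α) ^ 2 * C * Real.exp (R * B) * c * (1 + Real.log c) with hG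
  have hG0 : 0 < G := by
    have : (0 : ℝ) < max 1 α := lt_max_of_lt_left one_pos
    positivity
  set L₀ : ℝ := max (2 * Real.log (2 * c) / ε) (4 * (|Real.log (2 * G)| + 3 * K') / ε) with hL₀
  have hL₀0 : 0 ≤ L₀ := le_max_of_le_right (by positivity)
  refine ⟨Real.exp L₀, Real.one_le_exp hL₀0, fun x hx y hy hyx F hF => ?_⟩
  have hx0 : 0 < x := lt_of_lt_of_le (Real.exp_pos _) hx
  have hL : L₀ ≤ Real.log x := by
    rw [Real.le_log_iff_exp_le hx0]
    exact hx
  set L : ℝ := Real.log x with hLdef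
  have hLn : 0 ≤ L := hL₀0.trans hL
  have hy0 : 0 < y := by linarith
  have hly : 0 ≤ Real.log y := Real.log_nonneg hy
  have hlyL : Real.log y ≤ L := Real.log_le_log hy0 hyx
  have hxy : 1 ≤ x / y := by
    rw [le_div_iff₀ hy0]
    linarith
  have hpow1 : 1 ≤ (x / y) ^ U := Real.one_le_rpow hxy hU0
  -- the threshold
  set Y : ℤ := max ⌊y⌋ c with hY
  have hYc : c ≤ Y := le_max_right _ _
  have hYy : y < Y + 1 := by
    have h1 : ⌊y⌋ ≤ Y := le_max_left _ _
    have h2 : (⌊y⌋ : ℝ) ≤ Y := by exact_mod_cast h1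
    have h3 := Int.lt_floor_add_one y
    linarith
  have hYcy : (Y : ℝ) ≤ c * y := by
    rcases max_choice ⌊y⌋ c with h | h
    · rw [hY, h]
      have h1 := Int.floor_le y
      nlinarith
    · rw [hY, h]
      nlinarith
  -- the small members
  have hsplit : F.card = (F.filter fun n => n ≤ Y).card + (F.filter fun n => ¬ n ≤ Y).card :=
    (Finset.card_filter_add_card_filter_not _).symm
  have hsmall : ((F.filter fun n => n ≤ Y).card : ℝ) ≤ c := by
    have hsub : F.filter (fun n => n ≤ Y) ⊆ Finset.Icc 1 c := by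
      intro n hn
      obtain ⟨h1, h2⟩ := Finset.mem_filter.1 hn
      obtain ⟨h3, _, _⟩ := hF n h1
      rw [Finset.mem_Icc]
      have hn1 : (1 : ℝ) < n := by linarith
      have hn1' : 1 < n := by exact_mod_cast hn1
      refine ⟨hn1'.le, ?_⟩
      rcases max_choice ⌊y⌋ c with h | h
      · rw [hY, h] at h2
        have h4 : (n : ℝ) ≤ ⌊y⌋ := by exact_mod_cast h2
        have := Int.floor_le y
        linarith
      · rw [hY, h] at h2
        exact h2
    have h1 := Finset.card_le_card hsub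
    rw [Int.card_Icc] at h1
    have h2 : ((F.filter fun n => n ≤ Y).card : ℤ) ≤ c := by omega
    exact_mod_cast h2
  -- the large members
  set K : ℕ := ⌊α * L⌋₊ with hK
  have hKle : (K : ℝ) ≤ α * L := Nat.floor_le (by positivity)
  set F' := F.filter fun n => ¬ n ≤ Y with hF'
  have hent : ∀ n : ℤ, ∃ k : ℕ, n ∈ F' → (k ≤ K ∧ (k : ℝ) ≤ α * (Real.log n - Real.log y) ∧
      (∀ j < k, Y < (T p d)^[j] n) ∧ 1 ≤ (T p d)^[k] n ∧ (T p d)^[k] n ≤ Y) := by
    intro n
    by_cases hn : n ∈ F'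
    · obtain ⟨h1, h2⟩ := Finset.mem_filter.1 hn
      push Not at h2
      obtain ⟨h3, h4, k, h5, h6⟩ := hF n h1
      have h7 : (T p d)^[k] n ≤ Y := by
        have : (((T p d)^[k] n : ℤ) : ℝ) < Y + 1 := by linarith
        have : (T p d)^[k] n < Y + 1 := by exact_mod_cast this
        omega
      obtain ⟨k', h8, h9, h10, h11⟩ := entrance hA (by omega) (by omega) h2 h7
      have h12 : (k' : ℝ) ≤ α * (Real.log n - Real.log y) := by
        have : (k' : ℝ) ≤ k := by exact_mod_cast h8
        linarith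
      refine ⟨k', fun _ => ⟨?_, h12, h9, h10, h11⟩⟩
      apply Nat.le_floor
      refine h12.trans ?_
      apply mul_le_mul_of_nonneg_left _ hα0.le
      have hn0 : (0 : ℝ) < n := by linarith
      have := Real.log_le_log hn0 h4
      linarith
    · exact ⟨0, fun h => absurd h hn⟩
  choose kf hkf using hent
  set I : Finset (ℤ × ℕ × ℕ) := (Finset.Icc 1 Y) ×ˢ (range (K + 1)) ×ˢ (range (K + 1)) with hI
  set g : ℤ → ℤ × ℕ × ℕ := fun n => ((T p d)^[kf n] n, kf n, oT p d (kf n) n) with hg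
  have hmaps : ∀ n ∈ F', g n ∈ I := by
    intro n hn
    obtain ⟨h1, h2, h3, h4, h5⟩ := hkf n hn
    have h6 := oT_le p d (kf n) n
    simp only [hI, hg, mem_product, mem_Icc, mem_range]
    exact ⟨⟨h4, h5⟩, by omega, by omega⟩
  have hcard : F'.card = ∑ i ∈ I, (F'.filter fun n => g n = i).card :=
    Finset.card_eq_sum_card_fiberwise hmaps
  -- the bound of a class
  set D : ℝ := C * Real.exp (ε / 4 * L + R * B) * (x / y) ^ U * (c * y) with hD
  have hD0 : 0 ≤ D := by positivity
  have hclass : ∀ i ∈ I, ((F'.filter fun n => g n = i).card : ℝ) ≤ D * (1 / (i.1 : ℝ)) := by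
    rintro ⟨a, k, o⟩ hi
    simp only [hI, mem_product, mem_Icc, mem_range] at hi
    obtain ⟨⟨ha1, ha2⟩, hk, ho⟩ := hi
    simp only
    have haR : (1 : ℝ) ≤ a := by exact_mod_cast ha1
    have ha0 : (0 : ℝ) < a := by linarith
    have haY : (a : ℝ) ≤ c * y := le_trans (by exact_mod_cast ha2) hYcy
    set H := F'.filter fun n => g n = (a, k, o) with hH
    rcases H.eq_empty_or_nonempty with he | ⟨n, hn⟩
    · rw [he]
      simp only [card_empty, Nat.cast_zero]
      positivity
    have hmem : ∀ n ∈ H, n ∈ F' ∧ (T p d)^[k] n = a ∧ kf n = k ∧ oT p d k n = o := by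
      intro n hn
      obtain ⟨h1, h2⟩ := Finset.mem_filter.1 hn
      simp only [hg, Prod.mk.injEq] at h2
      obtain ⟨h3, h4, h5⟩ := h2
      rw [h4] at h3 h5
      exact ⟨h1, h3, h4, h5⟩
    have h1 := hup a k o H ha1 (by
      intro n hn
      obtain ⟨h2, h3, h4, h5⟩ := hmem n hn
      obtain ⟨g1, g2, g3, g4, g5⟩ := hkf n h2
      rw [h4] at g3
      exact ⟨h3, fun j hj => ⟨lt_of_le_of_lt hYc (g3 j hj), lt_of_le_of_lt ha2 (g3 j hj)⟩, h5⟩)
    refine h1.trans ?_
    -- the constraint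
    obtain ⟨h2, h3, h4, h5⟩ := hmem n hn
    obtain ⟨g1, g2, g3, g4, g5⟩ := hkf n h2
    obtain ⟨f1, f2⟩ := Finset.mem_filter.1 h2
    obtain ⟨f3, f4, _⟩ := hF n f1
    rw [h4] at g1 g2 g3
    have hn0 : (0 : ℝ) < n := by linarith
    have hs := hsz n k (by rw [h3]; exact ha1) (fun j hj => lt_of_le_of_lt hYc (g3 j hj))
    rw [h3, h5] at hs
    obtain ⟨hs1, hs2⟩ := abs_le.1 hs
    have hkn : (0 : ℝ) ≤ k := Nat.cast_nonneg k
    have hkK : (k : ℝ) ≤ α * L := le_trans (by exact_mod_cast (by omega : k ≤ K)) hKle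
    have hlay : Real.log a ≤ Real.log c + Real.log y := by
      rw [← Real.log_mul (by positivity) hy0.ne']
      exact Real.log_le_log ha0 haY
    have hlnx : Real.log n ≤ L := Real.log_le_log hn0 f4
    have hE : (k : ℝ) ≤ α * (k * Real.log 2 - o * Real.log p) + (α * (η * k) + B) := by
      have h6 : α * (Real.log n - Real.log y) ≤
          α * ((k * Real.log 2 - o * Real.log p) + η * k + Real.log c) := by
        apply mul_le_mul_of_nonneg_left _ hα0.le
        linarith
      rw [hB]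
      linarith
    have h7 := lin_bound hp hQ hα hE
    rw [← hUdef, ← hR] at h7
    have h8 : U * (k * Real.log 2 - o * Real.log p) ≤ U * (L - Real.log a + η * k) := by
      apply mul_le_mul_of_nonneg_left _ hU0
      linarith
    have h9 : U * (η * k) ≤ η * k := mul_le_of_le_one_left (by positivity) hU
    have h10 : ε / (8 * α) * k + η * k + α * (η * k) * R ≤ ε / 4 * L := by
      have e1 : η * k + α * (η * k) * R = ε / (8 * α) * k := by
        rw [hη]
        field_simp
      have e2 : ε / (8 * α) * k ≤ ε / (8 * α) * (α * L) := mul_le_mul_of_nonneg_left hkK (by positivity)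
      have e3 : ε / (8 * α) * (α * L) = ε / 8 * L := by field_simp
      linarith
    have h11 : Real.exp (ε / (8 * α) * k + k * (-Real.log z) + o * (-Real.log (tt p z))) ≤
        Real.exp (ε / 4 * L + R * B) * Real.exp (U * (L - Real.log a)) := by
      rw [← Real.exp_add]
      apply Real.exp_le_exp.2
      have e1 : (α * (η * k) + B) * R = α * (η * k) * R + R * B := by ring
      rw [e1] at h7
      have e2 : U * (L - Real.log a + η * k) = U * (L - Real.log a) + U * (η * k) := by ring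
      rw [e2] at h8
      linarith
    have h12 : Real.exp (U * (L - Real.log a)) ≤ (x / y) ^ U * (c * y / a) := by
      have hcya : 1 ≤ c * y / a := by
        rw [le_div_iff₀ ha0]
        linarith
      have e1 : Real.exp (U * (L - Real.log a)) = (x / a) ^ U := by
        rw [Real.rpow_def_of_pos (by positivity), Real.log_div hx0.ne' ha0.ne', mul_comm]
      have e2 : x / a ≤ (x / y) * (c * y / a) := by
        have : (x / y) * (c * y / a) = c * (x / a) := by field_simp
        rw [this]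
        have : 0 ≤ x / a := by positivity
        nlinarith
      rw [e1]
      calc (x / a) ^ U ≤ ((x / y) * (c * y / a)) ^ U :=
            Real.rpow_le_rpow (by positivity) e2 hU0
        _ = (x / y) ^ U * (c * y / a) ^ U := Real.mul_rpow (by positivity) (by positivity)
        _ ≤ (x / y) ^ U * (c * y / a) ^ (1 : ℝ) :=
            mul_le_mul_of_nonneg_left (Real.rpow_le_rpow_of_exponent_le hcya hU) (by positivity)
        _ = (x / y) ^ U * (c * y / a) := by rw [Real.rpow_one]
    calc C * Real.exp (ε / (8 * α) * k + k * (-Real.log z) + o * (-Real.log (tt p z)))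
        ≤ C * (Real.exp (ε / 4 * L + R * B) * ((x / y) ^ U * (c * y / a))) :=
          mul_le_mul_of_nonneg_left (h11.trans (mul_le_mul_of_nonneg_left h12 (Real.exp_pos _).le)) hC.le
      _ = D * (1 / (a : ℝ)) := by
          rw [hD]
          ring
  have hbig : (F'.card : ℝ) ≤ D * (1 + Real.log Y) * ((K : ℝ) + 1) ^ 2 := by
    have h1 : (F'.card : ℝ) ≤ ∑ i ∈ I, D * (1 / (i.1 : ℝ)) := by
      rw [hcard]
      push_cast
      exact sum_le_sum hclass
    have h2 : ∑ i ∈ I, D * (1 / (i.1 : ℝ)) =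
        D * (∑ a ∈ Finset.Icc (1 : ℤ) Y, (1 : ℝ) / a) * ((K : ℝ) + 1) ^ 2 := by
      rw [hI, sum_product]
      simp only [sum_const, card_product, card_range, nsmul_eq_mul]
      rw [mul_sum, sum_mul]
      refine sum_congr rfl fun a _ => ?_
      push_cast
      ring
    rw [h2] at h1
    refine h1.trans ?_
    apply mul_le_mul_of_nonneg_right _ (by positivity)
    apply mul_le_mul_of_nonneg_left _ hD0
    obtain ⟨A, hAY⟩ : ∃ A : ℕ, Y = (A : ℤ) := ⟨Y.toNat, by omega⟩
    rw [hAY]
    exact_mod_cast harm A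
  -- collect
  have hY0 : (1 : ℝ) ≤ Y := by exact_mod_cast (by omega : (1 : ℤ) ≤ Y)
  have hlogY : Real.log Y ≤ Real.log c + L := by
    have h1 : Real.log (Y : ℝ) ≤ Real.log (c * y) := Real.log_le_log (by linarith) hYcy
    rw [Real.log_mul (by positivity) hy0.ne'] at h1
    linarith
  have hfac : (1 + Real.log Y) * ((K : ℝ) + 1) ^ 2 ≤
      (max 1 α) ^ 2 * (1 + Real.log c) * (L + 1) ^ 3 := by
    have hm1 : (1 : ℝ) ≤ max 1 α := le_max_left _ _
    have hmα : α ≤ max 1 α := le_max_right _ _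
    have h1 : 1 + Real.log Y ≤ (1 + Real.log c) * (L + 1) := by nlinarith
    have h2 : (K : ℝ) + 1 ≤ max 1 α * (L + 1) := by nlinarith
    have h3 : ((K : ℝ) + 1) ^ 2 ≤ (max 1 α * (L + 1)) ^ 2 := by gcongr
    have hlY : 0 ≤ 1 + Real.log Y := by
      have := Real.log_nonneg hY0
      linarith
    calc (1 + Real.log Y) * ((K : ℝ) + 1) ^ 2
        ≤ ((1 + Real.log c) * (L + 1)) * (max 1 α * (L + 1)) ^ 2 := by
          apply mul_le_mul h1 h3 (by positivity) (by positivity)
      _ = _ := by ring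
  have hL3 : (L + 1) ^ 3 ≤ Real.exp (ε / 8 * L + 3 * K') := by
    have h1 := hK' L hLn
    have h2 : (L + 1) ^ 3 = Real.exp (3 * Real.log (L + 1)) := by
      rw [show (3 : ℝ) * Real.log (L + 1) = ((3 : ℕ) : ℝ) * Real.log (L + 1) by norm_num,
        Real.exp_nat_mul, Real.exp_log (by linarith)]
    rw [h2]
    apply Real.exp_le_exp.2
    linarith
  have hxe : x ^ ε = Real.exp (ε * L) := by
    rw [Real.rpow_def_of_pos hx0, mul_comm]
  have hyU : 1 ≤ y * (x / y) ^ U := by nlinarith
  -- the two halves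
  have hhalf1 : (c : ℝ) ≤ 1 / 2 * (x ^ ε * (y * (x / y) ^ U)) := by
    have h1 : 2 * Real.log (2 * c) / ε ≤ L := (le_max_left _ _).trans hL
    rw [div_le_iff₀ hε] at h1
    have hlc2 : 0 ≤ Real.log (2 * (c : ℝ)) := Real.log_nonneg (by linarith)
    have h2 : 2 * (c : ℝ) ≤ x ^ ε := by
      rw [hxe, ← Real.log_le_iff_le_exp (by linarith)]
      linarith
    have hx1 : 0 ≤ x ^ ε := by positivity
    have h3 : x ^ ε * 1 ≤ x ^ ε * (y * (x / y) ^ U) := mul_le_mul_of_nonneg_left hyU hx1
    linarith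
  have hhalf2 : (F'.card : ℝ) ≤ 1 / 2 * (x ^ ε * (y * (x / y) ^ U)) := by
    refine hbig.trans ?_
    have h1 : D * (1 + Real.log Y) * ((K : ℝ) + 1) ^ 2 ≤
        D * ((max 1 α) ^ 2 * (1 + Real.log c) * Real.exp (ε / 8 * L + 3 * K')) := by
      rw [mul_assoc]
      apply mul_le_mul_of_nonneg_left _ hD0
      refine hfac.trans ?_
      apply mul_le_mul_of_nonneg_left hL3
      positivity
    refine h1.trans ?_
    have h2 : D * ((max 1 α) ^ 2 * (1 + Real.log c) * Real.exp (ε / 8 * L + 3 * K')) =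
        (G * (Real.exp (ε / 4 * L) * Real.exp (ε / 8 * L + 3 * K'))) * (y * (x / y) ^ U) := by
      rw [hD, hG, Real.exp_add (ε / 4 * L)]
      ring
    rw [h2, show (1 : ℝ) / 2 * (x ^ ε * (y * (x / y) ^ U)) = (1 / 2 * x ^ ε) * (y * (x / y) ^ U) by ring]
    apply mul_le_mul_of_nonneg_right _ (by positivity)
    have h3 : 2 * G * (Real.exp (ε / 4 * L) * Real.exp (ε / 8 * L + 3 * K')) ≤ x ^ ε := by
      rw [hxe, ← Real.exp_add]
      have e1 : 2 * G = Real.exp (Real.log (2 * G)) := (Real.exp_log (by positivity)).symm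
      rw [e1, ← Real.exp_add]
      apply Real.exp_le_exp.2
      have h4 : 4 * (|Real.log (2 * G)| + 3 * K') / ε ≤ L := (le_max_right _ _).trans hL
      rw [div_le_iff₀ hε] at h4
      have h5 := le_abs_self (Real.log (2 * G))
      nlinarith
    linarith
  rw [hsplit]
  push_cast
  linarith

end Pool.Agent.N685.FD
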