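import Pool.Agent.N685.FD.Stm3
import Pool.Agent.N685.FD.UL2

/-!
PROJECT FD (helper685), part 3, ULB (helper572): the uniform lower bound for large `y`.
-/

set_option autoImplicit false

namespace Pool.Agent.N685.FD

open Finset

namespace Ulb

theorem Fp_cont (p : ℕ) : Continuous (Fp p) := by
  unfold Fp
  exact Real.binEntropy_continuous.sub (continuous_id.mul continuous_const)

/-- choice of `α'` -/
theorem choose_alpha {p : ℕ} {α : ℝ} (hα : 1 / Real.log 2 < α) (hF : 0 < Fp p (rp p α)) {ε : ℝ}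
    (hε : 0 < ε) :
    ∃ α' : ℝ, 1 / Real.log 2 < α' ∧ α' < α ∧ 0 < Fp p (rp p α') ∧
      α * Fp p (rp p α) - ε < α' * Fp p (rp p α') := by
  have hl2 : 0 < Real.log 2 := Real.log_pos (by norm_num)
  have hα0 : 0 < α := lt_trans (by positivity) hα
  have hrc : ContinuousAt (rp p) α := by
    have : rp p = fun t => (Real.log 2 - 1 / t) / Real.log p := rfl
    rw [this]
    exact (continuousAt_const.sub (continuousAt_const.div continuousAt_id hα0.ne')).div_const _
  have hFc : ContinuousAt (fun t => Fp p (rp p t)) α :=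
    ContinuousAt.comp (g := Fp p) (Fp_cont p).continuousAt hrc
  have hGc : ContinuousAt (fun t => t * Fp p (rp p t)) α := continuousAt_id.mul hFc
  have h1 : ∀ᶠ t in nhds α, 1 / Real.log 2 < t := lt_mem_nhds hα
  have h2 : ∀ᶠ t in nhds α, 0 < Fp p (rp p t) := hFc.eventually (lt_mem_nhds hF)
  have h3 : ∀ᶠ t in nhds α, α * Fp p (rp p α) - ε < t * Fp p (rp p t) :=
    hGc.eventually (lt_mem_nhds (by linarith))
  have h4 : ∀ᶠ t in nhdsWithin α (Set.Iio α), t < α := self_mem_nhdsWithin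
  obtain ⟨t, ht⟩ := ((((h1.and h2).and h3).filter_mono nhdsWithin_le_nhds).and h4).exists
  exact ⟨t, ht.1.1.1, ht.2, ht.1.1.2, ht.1.2⟩

/-- choice of `δ` -/
theorem choose_delta {A B R α G : ℝ} (hB : 0 < B) (h1 : R < α * A)
    (h2 : G * A < B) :
    ∃ δ : ℝ, 0 < δ ∧ R + δ < α * (A - 2 * δ) ∧ δ < B ∧ G * (A + 2 * δ) < B - δ := by
  have c1 : Continuous fun δ : ℝ => α * (A - 2 * δ) - (R + δ) := by fun_prop
  have c2 : Continuous fun δ : ℝ => B - δ - G * (A + 2 * δ) := by fun_prop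
  have e1 : ∀ᶠ δ in nhds (0 : ℝ), 0 < α * (A - 2 * δ) - (R + δ) :=
    c1.continuousAt.eventually (lt_mem_nhds (by simp; linarith))
  have e2 : ∀ᶠ δ in nhds (0 : ℝ), 0 < B - δ - G * (A + 2 * δ) :=
    c2.continuousAt.eventually (lt_mem_nhds (by simp; linarith))
  have e3 : ∀ᶠ δ in nhds (0 : ℝ), δ < B := gt_mem_nhds hB
  have e4 : ∀ᶠ δ in nhdsWithin (0 : ℝ) (Set.Ioi 0), 0 < δ := self_mem_nhdsWithin
  obtain ⟨δ, hδ⟩ := ((((e1.and e2).and e3).filter_mono nhdsWithin_le_nhds).and e4).exists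
  exact ⟨δ, hδ.2, by linarith [hδ.1.1.1], hδ.1.2, by linarith [hδ.1.1.2]⟩

/-- many integers prime to `p` in a dyadic interval -/
theorem cnt {p : ℕ} (hp : p = 3 ∨ p = 5) {y : ℝ} (hy : 20 ≤ y) :
    ∃ A : Finset ℤ, (∀ a ∈ A, y / 2 < a ∧ (a : ℝ) ≤ y ∧ ¬ (p : ℤ) ∣ a) ∧
      y / 20 ≤ (A.card : ℝ) := by
  have hp0 : (0 : ℝ) < p := by rcases hp with rfl | rfl <;> norm_num
  have hp5 : (p : ℝ) ≤ 5 := by rcases hp with rfl | rfl <;> norm_num
  have hpz : (p : ℤ) ≠ 0 := by rcases hp with rfl | rfl <;> norm_num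
  refine ⟨(Finset.Ioc ⌊(y / 2 - 1) / p⌋ ⌊(y - 1) / p⌋).image (fun j : ℤ => p * j + 1), ?_, ?_⟩
  · intro a ha
    obtain ⟨j, hj, rfl⟩ := mem_image.1 ha
    rw [mem_Ioc] at hj
    have h1 := Int.floor_lt.1 hj.1
    have h2 := Int.le_floor.1 hj.2
    rw [div_lt_iff₀ hp0] at h1
    rw [le_div_iff₀ hp0] at h2
    push_cast
    refine ⟨by linarith [mul_comm (j : ℝ) p], by linarith [mul_comm (j : ℝ) p], ?_⟩
    intro h
    have h3 := (Int.dvd_add_right (dvd_mul_right _ _)).1 h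
    have h4 := Int.le_of_dvd one_pos h3
    rcases hp with rfl | rfl <;> norm_num at h4
  · rw [card_image_of_injective, Int.card_Ioc]
    · have h1 := Int.sub_one_lt_floor ((y - 1) / p)
      have h2 := Int.floor_le ((y / 2 - 1) / p)
      have h3 : ((⌊(y - 1) / p⌋ - ⌊(y / 2 - 1) / p⌋ : ℤ) : ℝ) ≤
          ((⌊(y - 1) / p⌋ - ⌊(y / 2 - 1) / p⌋).toNat : ℝ) := by
        exact_mod_cast Int.self_le_toNat _
      refine le_trans ?_ h3
      push_cast
      have h4 : (y - 1) / p - (y / 2 - 1) / p = y / 2 / p := by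
        field_simp
        ring
      have h5 : y / 2 / 5 ≤ y / 2 / p := by
        apply div_le_div_of_nonneg_left (by linarith) hp0 hp5
      linarith
    · intro i j hij
      have : (p : ℤ) * i = p * j := by
        have h : (p : ℤ) * i + 1 = p * j + 1 := hij
        linarith
      exact mul_left_cancel₀ hpz this

end Ulb

open Ulb in
/-- **uniform lower bound, large `y`** -/
theorem t_ULB (h1 : S_CC) (h2 : S_SZ) (h3 : S_STEPS) (h4 : S_INJ) : S_ULB := by
  classical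
  intro p d hA α hα hF ε hε
  have hp := hA.1
  have hl2 : 0 < Real.log 2 := Real.log_pos (by norm_num)
  have hl2' : Real.log 2 < 1 := by linarith [Real.log_two_lt_d9]
  have hl := (UL.p_facts hp).2.1
  have hα0 : 0 < α := lt_trans (by positivity) hα
  obtain ⟨α', hα1, hα2, hF', hG⟩ := choose_alpha hα hF (show 0 < ε / 4 by positivity)
  have hα0' : 0 < α' := lt_trans (by positivity) hα1
  set r := rp p α' with hr
  have hr0 : 0 < r := UL.rp_pos hp hα1
  have hrl : r * Real.log p < Real.log 2 := UL.rp_mul_lt hp hα0'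
  have hr1 : r < 1 := by
    have h5 : Real.log 2 < Real.log p :=
      Real.log_lt_log (by norm_num) (by rcases hp with rfl | rfl <;> norm_num)
    by_contra hcon
    push Not at hcon
    nlinarith
  have hspec : 1 / α' = Real.log 2 - r * Real.log p := UL.rp_spec hp α'
  obtain ⟨A, hAdef⟩ : ∃ A : ℝ, A = 1 / (r * α') := ⟨_, rfl⟩
  have hA0 : 0 < A := by rw [hAdef]; positivity
  obtain ⟨B, hBdef⟩ : ∃ B : ℝ, B = Fp p r / r := ⟨_, rfl⟩
  have hB0 : 0 < B := by rw [hBdef]; positivity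
  have hAr : A * r = Real.log 2 - r * Real.log p := by
    rw [← hspec, hAdef]
    field_simp
  have hAα : A * α' = 1 / r := by
    rw [hAdef]
    field_simp
  have hBA : α' * Fp p r * A = B := by
    rw [hBdef, hAdef]
    field_simp
  obtain ⟨δ, hδ0, hδ1, hδ2, hδ3⟩ := choose_delta (A := A) (B := B) (R := 1 / r) (α := α)
    (G := α' * Fp p r - ε / 4) hB0 (by rw [← hAα]; nlinarith)
    (by rw [← hBA]; nlinarith)
  obtain ⟨c₀, hc₀, hSZ⟩ := h2 p d hA δ hδ0
  obtain ⟨L, M, hL, hM, hCC⟩ := h1 p d hA r hr0 hr1 hF' hrl δ hδ0 c₀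
  have hLR : (1 : ℝ) ≤ L := by exact_mod_cast hL
  have hMR : (1 : ℝ) ≤ M := by exact_mod_cast hM
  have hAp : 0 < A + 2 * δ := by linarith
  have hD : 0 < α * (A - 2 * δ) - (1 / r + δ) := by linarith
  obtain ⟨l₀, hl₀⟩ : ∃ l₀ : ℝ, l₀ = α * Real.log 2 / (α * (A - 2 * δ) - (1 / r + δ)) := ⟨_, rfl⟩
  have hl₀0 : 0 ≤ l₀ := by rw [hl₀]; positivity
  have hlog20 : 0 ≤ Real.log 20 := Real.log_nonneg (by norm_num)
  refine ⟨max 20 (2 * M), max ((l₀ + L) * (A + 2 * δ)) (2 * (B * L + Real.log 20) / ε),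
    le_max_of_le_left (by norm_num), le_max_of_le_left (by positivity), ?_⟩
  intro y hy x hx
  have hy20 : 20 ≤ y := (le_max_left _ _).trans hy
  have hyM : 2 * (M : ℝ) ≤ y := (le_max_right _ _).trans hy
  have hy0 : 0 < y := by linarith
  have hx0 : 0 < x := lt_of_lt_of_le (by positivity) hx
  have hxy0 : 0 < x / y := by positivity
  obtain ⟨Λ, hΛ⟩ : ∃ Λ : ℝ, Λ = Real.log (x / y) := ⟨_, rfl⟩
  have hΛx : Real.log x = Real.log y + Λ := by
    rw [hΛ, Real.log_div hx0.ne' hy0.ne']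
    ring
  have hΛ0 : max ((l₀ + L) * (A + 2 * δ)) (2 * (B * L + Real.log 20) / ε) ≤ Λ := by
    rw [hΛ, Real.le_log_iff_exp_le hxy0, le_div_iff₀ hy0]
    linarith
  have hΛ1 : (l₀ + L) * (A + 2 * δ) ≤ Λ := (le_max_left _ _).trans hΛ0
  have hΛ2 : 2 * (B * L + Real.log 20) / ε ≤ Λ := (le_max_right _ _).trans hΛ0
  have hΛn : 0 ≤ Λ := le_trans (by positivity) hΛ1
  obtain ⟨N, hN⟩ : ∃ N : ℕ, N = ⌊Λ / (L * (A + 2 * δ))⌋₊ := ⟨_, rfl⟩
  have hLA : 0 < (L : ℝ) * (A + 2 * δ) := by positivity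
  have hN1 : ((L * N : ℕ) : ℝ) * (A + 2 * δ) ≤ Λ := by
    have h5 : (N : ℝ) ≤ Λ / (L * (A + 2 * δ)) := by
      rw [hN]
      exact Nat.floor_le (by positivity)
    rw [le_div_iff₀ hLA] at h5
    push_cast
    linarith
  have hN2 : Λ < (((L * N : ℕ) : ℝ) + L) * (A + 2 * δ) := by
    have h5 : Λ / (L * (A + 2 * δ)) < N + 1 := by
      rw [hN]
      exact Nat.lt_floor_add_one _
    rw [div_lt_iff₀ hLA] at h5
    push_cast
    linarith
  obtain ⟨l, hl'⟩ : ∃ l : ℝ, l = ((L * N : ℕ) : ℝ) := ⟨_, rfl⟩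
  rw [← hl'] at hN1 hN2
  have hll : l₀ < l := by
    have h5 : (l₀ + L) * (A + 2 * δ) < (l + L) * (A + 2 * δ) := lt_of_le_of_lt hΛ1 hN2
    have h6 := lt_of_mul_lt_mul_right h5 hAp.le
    linarith
  have hl0 : 0 < l := lt_of_le_of_lt hl₀0 hll
  have hkey : l * (1 / r + δ) ≤ α * (l * (A - 2 * δ) - Real.log 2) := by
    have h5 : α * Real.log 2 < l * (α * (A - 2 * δ) - (1 / r + δ)) := by
      rw [hl₀, div_lt_iff₀ hD] at hll
      exact hll
    nlinarith
  -- the starting points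
  obtain ⟨S₀, hS₀, hcard⟩ := cnt hp hy20
  have hS₀' : ∀ a ∈ S₀, M ≤ a := by
    intro a ha
    have h5 := (hS₀ a ha).1
    have h6 : (M : ℝ) < a := by linarith
    exact_mod_cast h6.le
  have hex : ∀ a : ℤ, ∃ S : Finset (List ℕ), a ∈ S₀ →
      Real.exp ((Fp p r / r - δ) * (L * N : ℕ)) ≤ (S.card : ℝ) ∧
      ∀ w ∈ S, w.length = L * N ∧ |(w.sum : ℝ) - (L * N : ℕ) / r| ≤ δ * (L * N : ℕ) ∧
        ok p d a w ∧ above p d c₀ a w := by
    intro a
    by_cases ha : a ∈ S₀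
    · obtain ⟨S, hS⟩ := hCC N a (hS₀' a ha) (hS₀ a ha).2.2
      exact ⟨S, fun _ => hS⟩
    · exact ⟨∅, fun h => absurd h ha⟩
  choose S hS using hex
  obtain ⟨F, hFdef⟩ : ∃ F : Finset ℤ, F = (S₀.sigma S).image (fun q => fin p d q.1 q.2) := ⟨_, rfl⟩
  have hFcard : F.card = ∑ a ∈ S₀, (S a).card := by
    rw [hFdef, card_image_of_injOn, card_sigma]
    rintro ⟨a, w⟩ hq ⟨a', w'⟩ hq' heq
    rw [mem_coe, mem_sigma] at hq hq'
    obtain ⟨ha, hw⟩ := hq
    obtain ⟨ha', hw'⟩ := hq'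
    simp only at ha hw ha' hw' heq
    have hw1 := (hS a ha).2 w hw
    have hw1' := (hS a' ha').2 w' hw'
    have h5 := h4 p d hA y a a' w w' hy0 (hS₀ a ha).1 (hS₀ a ha).2.1 (hS₀ a' ha').1
      (hS₀ a' ha').2.1 hw1.2.2.1 hw1'.2.2.1 (UL.above_mono (by omega) _ _ hw1.2.2.2)
      (UL.above_mono (by omega) _ _ hw1'.2.2.2) (hw1.1.trans hw1'.1.symm) heq
    rw [h5.1, h5.2]
  refine ⟨F, ?_, ?_⟩
  · intro n hn
    rw [hFdef, mem_image] at hn
    obtain ⟨⟨a, w⟩, hq, rfl⟩ := hn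
    rw [mem_sigma] at hq
    obtain ⟨ha, hw⟩ := hq
    simp only at ha hw ⊢
    obtain ⟨hw1, hw2, hw3, hw4⟩ := (hS a ha).2 w hw
    obtain ⟨ha1, ha2, ha3⟩ := hS₀ a ha
    have haM := hS₀' a ha
    have ha1' : 1 ≤ a := by omega
    have ha0 : (0 : ℝ) < a := by exact_mod_cast (by omega : 0 < a)
    have hn1 : 1 ≤ fin p d a w := UL.fin_pos_of_above (by omega) w a ha1' hw4
    have hn0 : (0 : ℝ) < fin p d a w := by exact_mod_cast (by omega : 0 < fin p d a w)
    have hsz := hSZ c₀ a w le_rfl ha1' hw3 hw4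
    rw [hw1, ← hl'] at hsz
    rw [← hl'] at hw2
    rw [abs_le] at hsz hw2
    have hla1 : Real.log a ≤ Real.log y := Real.log_le_log ha0 ha2
    have hla2 : Real.log y - Real.log 2 ≤ Real.log a := by
      rw [← Real.log_div hy0.ne' (by norm_num)]
      exact Real.log_le_log (by positivity) ha1.le
    have hlr : l / r * Real.log 2 - l * Real.log p = l * A := by
      have : l * A = l / r * (A * r) := by field_simp
      rw [this, hAr]
      field_simp
    have hs1 : (w.sum : ℝ) * Real.log 2 ≤ (l / r + δ * l) * Real.log 2 :=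
      mul_le_mul_of_nonneg_right (by linarith) hl2.le
    have hs2 : (l / r - δ * l) * Real.log 2 ≤ (w.sum : ℝ) * Real.log 2 :=
      mul_le_mul_of_nonneg_right (by linarith) hl2.le
    have hδl : δ * l * Real.log 2 ≤ δ * l := by
      have : 0 ≤ δ * l := by positivity
      nlinarith
    have hup : Real.log (fin p d a w) ≤ Real.log y + l * (A + 2 * δ) := by linarith
    have hlow : Real.log y + (l * (A - 2 * δ) - Real.log 2) ≤ Real.log (fin p d a w) := by
      linarith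
    have hpos : 0 < l * (A - 2 * δ) - Real.log 2 := by
      have h5 : 0 < l * (1 / r + δ) := by positivity
      have h6 : 0 < α * (l * (A - 2 * δ) - Real.log 2) := by linarith
      exact (pos_iff_pos_of_mul_pos h6).1 hα0
    obtain ⟨hst, _⟩ := h3 p d hA a w hw3
    refine ⟨?_, ?_, w.sum, ?_, ?_, ?_⟩
    · rw [← Real.log_lt_log_iff hy0 hn0]
      linarith
    · rw [← Real.log_le_log_iff hn0 hx0]
      linarith
    · rw [hst]
      exact ha1'
    · rw [hst]
      exact ha2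
    · have h5 : (w.sum : ℝ) ≤ l * (1 / r + δ) := by
        have : l * (1 / r + δ) = l / r + δ * l := by ring
        linarith
      refine h5.trans (hkey.trans ?_)
      exact mul_le_mul_of_nonneg_left (by linarith) hα0.le
  · rw [hFcard]
    push_cast
    have h5 : ∀ a ∈ S₀, Real.exp ((B - δ) * l) ≤ ((S a).card : ℝ) := by
      intro a ha
      rw [hBdef, hl']
      exact (hS a ha).1
    have h6 : (S₀.card : ℝ) * Real.exp ((B - δ) * l) ≤ ∑ a ∈ S₀, ((S a).card : ℝ) := by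
      rw [← nsmul_eq_mul, ← sum_const]
      exact sum_le_sum h5
    refine le_trans ?_ h6
    have h7 : y / 20 * Real.exp ((B - δ) * l) ≤ (S₀.card : ℝ) * Real.exp ((B - δ) * l) :=
      mul_le_mul_of_nonneg_right hcard (Real.exp_pos _).le
    refine le_trans ?_ h7
    have h8 : (x / y) ^ (α * Fp p (rp p α) - ε) = Real.exp ((α * Fp p (rp p α) - ε) * Λ) := by
      rw [Real.rpow_def_of_pos hxy0, hΛ]
      ring_nf
    rw [h8]
    have h9 : Real.exp ((α * Fp p (rp p α) - ε) * Λ) * 20 ≤ Real.exp ((B - δ) * l) := by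
      have h10 : (20 : ℝ) = Real.exp (Real.log 20) := (Real.exp_log (by norm_num)).symm
      rw [h10, ← Real.exp_add]
      apply Real.exp_le_exp.2
      -- (B - δ) l ≥ (G' - ε/4) Λ - B L
      have h11 : (B - δ) * Λ ≤ (B - δ) * ((l + L) * (A + 2 * δ)) :=
        mul_le_mul_of_nonneg_left hN2.le (by linarith)
      have h12 : (α' * Fp p r - ε / 4) * (A + 2 * δ) * Λ ≤ (B - δ) * Λ :=
        mul_le_mul_of_nonneg_right hδ3.le hΛn
      have h13 : (α' * Fp p r - ε / 4) * Λ ≤ (B - δ) * (l + L) := by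
        have : (α' * Fp p r - ε / 4) * Λ * (A + 2 * δ) ≤ (B - δ) * (l + L) * (A + 2 * δ) := by
          nlinarith
        exact le_of_mul_le_mul_right this hAp
      have h14 : (α * Fp p (rp p α) - ε / 4) * Λ ≤ α' * Fp p r * Λ :=
        mul_le_mul_of_nonneg_right hG.le hΛn
      have h15 : 2 * (B * L + Real.log 20) ≤ Λ * ε := by
        rwa [div_le_iff₀ hε] at hΛ2
      have h16 : 0 ≤ δ * L := by positivity
      nlinarith
    nlinarith

end Pool.Agent.N685.FD
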