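import Pool.Agent.N685.FD.Stm3

/-!
PROJECT FD (helper685), part 3, task Ulc (helper878): assembly of the uniform lower bound.
-/

set_option autoImplicit false

namespace Pool.Agent.N685.FD

open Finset

theorem t_UL (h1 : S_ULB) (h2 : S_UCB) : S_UL := by
  intro p d hA α hα hF ε hε
  have hlog2 : 0 < Real.log 2 := Real.log_pos (by norm_num)
  have hα0 : 0 < α := lt_trans (by positivity) hα
  obtain ⟨e, he⟩ : ∃ e, e = min ε (α * Fp p (rp p α)) := ⟨_, rfl⟩
  have he0 : 0 < e := by
    rw [he]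
    exact lt_min hε (mul_pos hα0 hF)
  have heε : e ≤ ε := by
    rw [he]
    exact min_le_left _ _
  have heF : e ≤ α * Fp p (rp p α) := by
    rw [he]
    exact min_le_right _ _
  obtain ⟨M₁, Λ₁, hM₁, hΛ₁, hB⟩ := h1 p d hA α hα hF e he0
  have hp1 : ¬ (p : ℤ) ∣ 1 := by
    rcases hA.1 with rfl | rfl <;> norm_num
  obtain ⟨X₀, hX₀, hU⟩ := h2 p d hA α hα hF 1 le_rfl hp1 M₁ hM₁ e he0
  refine ⟨max Λ₁ (Real.log X₀), le_max_of_le_left hΛ₁, fun y hy x hx => ?_⟩
  have hy0 : 0 < y := by linarith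
  have hexp : 1 ≤ Real.exp (max Λ₁ (Real.log X₀)) := Real.one_le_exp (le_max_of_le_left hΛ₁)
  have hyx : y ≤ x := le_trans (le_mul_of_one_le_right hy0.le hexp) hx
  have hx0 : 0 < x := lt_of_lt_of_le hy0 hyx
  have hxy : 1 ≤ x / y := by
    rw [le_div_iff₀ hy0]
    linarith
  have hpow : (x / y) ^ (α * Fp p (rp p α) - ε) ≤ (x / y) ^ (α * Fp p (rp p α) - e) :=
    Real.rpow_le_rpow_of_exponent_le hxy (by linarith)
  rcases le_or_gt M₁ y with hyM | hyM
  · obtain ⟨F, hF1, hF2⟩ := hB y hyM x (le_trans (mul_le_mul_of_nonneg_left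
      (Real.exp_le_exp.2 (le_max_left _ _)) hy0.le) hx)
    exact ⟨F, hF1, le_trans (mul_le_mul_of_nonneg_left hpow hy0.le) hF2⟩
  · have hxX : X₀ ≤ x := by
      have h3 : X₀ ≤ Real.exp (max Λ₁ (Real.log X₀)) := by
        calc X₀ = Real.exp (Real.log X₀) := (Real.exp_log (by linarith)).symm
          _ ≤ _ := Real.exp_le_exp.2 (le_max_right _ _)
      have h4 : Real.exp (max Λ₁ (Real.log X₀)) ≤ y * Real.exp (max Λ₁ (Real.log X₀)) :=
        le_mul_of_one_le_left (Real.exp_pos _).le hy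
      linarith
    obtain ⟨F, hF1, hF2⟩ := hU x hxX
    refine ⟨F, fun n hn => ?_, ?_⟩
    · obtain ⟨hn1, hn2, hn3, k, hk1, hk2, hk3⟩ := hF1 n hn
      have hn0 : (0 : ℝ) < n := by
        have : (1 : ℝ) ≤ n := by exact_mod_cast hn1
        linarith
      have hlog : Real.log M₁ ≤ Real.log n := by
        by_contra hcon
        push Not at hcon
        have : α * (Real.log n - Real.log M₁) < 0 := mul_neg_of_pos_of_neg hα0 (by linarith)
        have hk0 : (0 : ℝ) ≤ k := Nat.cast_nonneg k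
        linarith
      have hnM : M₁ ≤ n := (Real.log_le_log_iff (by linarith) hn0).1 hlog
      refine ⟨lt_of_lt_of_le hyM hnM, hn3, k, ?_, ?_, ?_⟩
      · rw [hk1]
      · rw [hk1]
        push_cast
        exact hy
      · refine hk3.trans (mul_le_mul_of_nonneg_left ?_ hα0.le)
        have : Real.log y ≤ Real.log M₁ := Real.log_le_log hy0 hyM.le
        linarith
    · refine le_trans ?_ hF2
      refine le_trans (mul_le_mul_of_nonneg_left hpow hy0.le) ?_
      have h5 : (x / y) ^ (α * Fp p (rp p α) - e) ≤ x ^ (α * Fp p (rp p α) - e) :=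
        Real.rpow_le_rpow (by positivity) (div_le_self hx0.le hy) (by linarith)
      exact mul_le_mul hyM.le h5 (by positivity) (by linarith)

end Pool.Agent.N685.FD
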