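import Pool.Agent.N685.FD.Inj
import Pool.Agent.N685.FD.Ulb
import Pool.Agent.N685.FD.Ucb
import Pool.Agent.N685.FD.Ulc

/-! PROJECT FD, part 3: the uniform lower bound, assembled. -/

namespace Pool.Agent.N685.FD

/-- the lower bound for a fixed target -/
theorem ucb_main : S_UCB := t_UCB low_main size_main

/-- the uniform lower bound -/
theorem ul_main : S_UL := t_UL (t_ULB cc_main t_SZ t_STEPS t_INJ) ucb_main

end Pool.Agent.N685.FD
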