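import Pool.Agent.N685.FD.Stm8

/-!
# Project FD (helper685), part 8: lower bound for every pair `(k, o)` (helper8)
-/

set_option autoImplicit false

namespace Pool.Agent.N685.FD

open Finset

namespace Bivl

variable {p : ℕ} {d : ℤ}

theorem above_mono {c c' : ℤ} (h : c' ≤ c) : ∀ (w : List ℕ) (x : ℤ), above p d c x w →
    above p d c' x w
  | [], _, _ => trivial
  | _ :: w, _, hw => ⟨lt_of_le_of_lt h hw.1, above_mono h w _ hw.2⟩

theorem fin_append (x : ℤ) (u v : List ℕ) :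
    fin p d x (u ++ v) = fin p d (fin p d x u) v := by
  induction u generalizing x with
  | nil => rfl
  | cons e u ih => exact ih (st p d e x)

/-- the points of a short word from a large point are large -/
theorem large (hp : 1 ≤ p) {B : ℤ} (hB : 1 ≤ B) (hdB : |d| ≤ B) : ∀ (w : List ℕ) (x : ℤ),
    (p : ℤ) ^ w.length * B ≤ x → ok p d x w → above p d (B - 1) x w ∧ B ≤ fin p d x w
  | [], x, hx, _ => by
      simp only [List.length_nil, pow_zero, one_mul] at hx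
      exact ⟨trivial, hx⟩
  | e :: w, x, hx, hok => by
      obtain ⟨he, hdv, hok'⟩ := hok
      have hp1 : (1 : ℤ) ≤ p := by exact_mod_cast hp
      have hpw : (1 : ℤ) ≤ (p : ℤ) ^ w.length := one_le_pow₀ hp1
      have h1 := CC.st_eq hdv
      rw [List.length_cons, pow_succ] at hx
      have h3 : B ≤ (p : ℤ) ^ w.length * B := by nlinarith
      have h4 : (p : ℤ) ^ w.length * B ≤ (p : ℤ) ^ w.length * p * B := by
        have h5 : 0 ≤ (p : ℤ) ^ w.length * B := by nlinarith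
        nlinarith
      have hx0 : B ≤ x := by linarith
      have h2 : 2 * x ≤ 2 ^ e * x := by
        have : (2 : ℤ) ^ 1 ≤ 2 ^ e := pow_le_pow_right₀ (by norm_num) he
        nlinarith
      have h6 : d ≤ |d| := le_abs_self d
      have h7 : x ≤ (p : ℤ) * st p d e x := by rw [h1]; linarith
      have h8 : (p : ℤ) * ((p : ℤ) ^ w.length * B) ≤ p * st p d e x := by
        refine le_trans (le_of_eq ?_) (hx.trans h7)
        ring
      have h9 : (p : ℤ) ^ w.length * B ≤ st p d e x := le_of_mul_le_mul_left h8 (by linarith)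
      obtain ⟨g1, g2⟩ := large hp hB hdB w (st p d e x) h9 hok'
      exact ⟨⟨by linarith, g1⟩, g2⟩

/-- numbers with a given word -/
theorem hit (hA : Adm p d) {A : Set ℤ} {c c₁ : ℤ} (hc : ∀ y ∈ A, y ≤ c) (h0 : 0 ≤ c₁)
    (hcc : c ≤ c₁) {x : ℤ} (hx : c₁ < x) {j0 : ℕ} (hj1 : ∀ i < j0, (T p d)^[i] x ∉ A)
    (hj2 : (T p d)^[j0] x ∈ A) (hj3 : oT p d j0 x = 0) {w : List ℕ} (hok : ok p d x w)
    (hab : above p d c₁ x w) {k : ℕ} (hk : w.sum + j0 ≤ k) :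
    2 ^ (k - j0 - w.sum) * fin p d x w ∈ HT p d A k w.length := by
  obtain ⟨h1, h2, h3, h4⟩ := LOW.word_path hA h0 w x hx hok hab
  obtain ⟨y, hy⟩ : ∃ y, y = fin p d x w := ⟨_, rfl⟩
  obtain ⟨j, hj⟩ : ∃ j, j = k - j0 - w.sum := ⟨_, rfl⟩
  rw [← hy] at h1 h2 h3 h4 ⊢
  rw [← hj]
  have hkj : k = j0 + (w.sum + j) := by omega
  refine ⟨?_, ?_, ?_, ?_⟩
  · have := LOW.le_pow_mul (x := y) (by omega) j
    omega
  · intro i hi
    by_cases hi1 : i < j
    · rw [LOW.T_pow'' p d hi1.le]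
      have := LOW.le_pow_mul (x := y) (by omega) (j - i)
      intro hmem
      have := hc _ hmem
      omega
    · obtain ⟨i', rfl⟩ := Nat.exists_eq_add_of_le (not_lt.1 hi1)
      rw [add_comm j i', Function.iterate_add_apply, LOW.T_pow']
      by_cases hi2 : i' < w.sum
      · intro hmem
        have h5 := hc _ hmem
        have h6 := h3 i' hi2
        omega
      · obtain ⟨i'', rfl⟩ := Nat.exists_eq_add_of_le (not_lt.1 hi2)
        rw [add_comm w.sum i'', Function.iterate_add_apply, h1]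
        exact hj1 i'' (by omega)
  · rw [hkj, Function.iterate_add_apply, Function.iterate_add_apply, LOW.T_pow', h1]
    exact hj2
  · rw [show k = j + (w.sum + j0) by omega, LOW.oT_add, LOW.oT_add, LOW.oT_pow, LOW.T_pow', h1,
      h2, hj3]
    omega

/-- the start: a large point from which `A` is reached by even steps -/
theorem start {A : Set ℤ} {m : ℤ} (hm : 1 ≤ m) (hmA : m ∈ A) (K : ℤ) :
    ∃ (t j0 : ℕ), K ≤ 2 ^ t * m ∧ (∀ i < j0, (T p d)^[i] (2 ^ t * m) ∉ A) ∧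
      (T p d)^[j0] (2 ^ t * m) ∈ A ∧ oT p d j0 (2 ^ t * m) = 0 := by
  classical
  obtain ⟨t, ht⟩ := pow_unbounded_of_one_lt K (by norm_num : (1 : ℤ) < 2)
  have hex : ∃ j, (T p d)^[j] (2 ^ t * m) ∈ A := ⟨t, by rw [LOW.T_pow']; exact hmA⟩
  have hle : Nat.find hex ≤ t := Nat.find_min' hex (by rw [LOW.T_pow']; exact hmA)
  refine ⟨t, Nat.find hex, ?_, fun i hi => Nat.find_min hex hi, Nat.find_spec hex, ?_⟩
  · refine ht.le.trans ?_
    exact le_mul_of_one_le_right (by positivity) hm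
  · have h1 := LOW.oT_pow p d t m
    have h2 := LOW.oT_add p d (Nat.find hex) (t - Nat.find hex) (2 ^ t * m)
    rw [Nat.add_sub_cancel' hle, h1] at h2
    omega

/-- the lower bound with fixed frequency -/
theorem loc (hA : Adm p d) {A : Set ℤ} {c : ℤ} (hc : ∀ y ∈ A, y ≤ c) {m : ℤ} (hm : 1 ≤ m)
    (hpm : ¬ (p : ℤ) ∣ m) (hmA : m ∈ A) {r : ℝ} (hr0 : 0 < r) (hr1 : r < 1) (hF : 0 < Fp p r)
    (hrp : r * Real.log p < Real.log 2) {η δ ε : ℝ} (hη : 0 < η) (hδ : 0 < δ) (hε : 0 < ε) :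
    ∃ k₀ : ℕ, ∀ k : ℕ, k₀ ≤ k → ∀ o : ℕ, η * k ≤ o → (o : ℝ) ≤ (r - δ) * k →
      Real.exp (Fp p r / r * o - ε * k) ≤ ((HT p d A k o).ncard : ℝ) := by
  classical
  have hp1 : 1 ≤ p := by rcases hA.1 with h | h <;> omega
  obtain ⟨G, hG⟩ : ∃ G : ℝ, G = Fp p r / r := ⟨_, rfl⟩
  have hG0 : 0 < G := by rw [hG]; exact div_pos hF hr0
  obtain ⟨δ₁, hδ₁⟩ : ∃ δ₁ : ℝ, δ₁ = min (ε / 2) (δ / 2) := ⟨_, rfl⟩
  have hδ₁0 : 0 < δ₁ := by rw [hδ₁]; exact lt_min (by positivity) (by positivity)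
  have hδ₁a : δ₁ ≤ ε / 2 := by rw [hδ₁]; exact min_le_left _ _
  have hδ₁b : δ₁ ≤ δ / 2 := by rw [hδ₁]; exact min_le_right _ _
  obtain ⟨c₁, hc₁⟩ : ∃ c₁ : ℤ, c₁ = max c 0 := ⟨_, rfl⟩
  have hc1a : c ≤ c₁ := by rw [hc₁]; exact le_max_left _ _
  have hc1b : 0 ≤ c₁ := by rw [hc₁]; exact le_max_right _ _
  obtain ⟨L, M, hL, hM, hCC⟩ := cc_main p d hA r hr0 hr1 hF hrp δ₁ hδ₁0 c₁
  obtain ⟨E, n₀, hLW⟩ := t_LW p d hA r hr0 hr1 hF 1 one_pos
  obtain ⟨B, hB⟩ : ∃ B : ℤ, B = max M (max (c₁ + 1) |d|) := ⟨_, rfl⟩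
  have hBM : M ≤ B := by rw [hB]; exact le_max_left _ _
  have hBc : c₁ + 1 ≤ B := by rw [hB]; exact (le_max_left _ _).trans (le_max_right _ _)
  have hBd : |d| ≤ B := by rw [hB]; exact (le_max_right _ _).trans (le_max_right _ _)
  have hB1 : 1 ≤ B := hM.trans hBM
  obtain ⟨t, j0, hx0, hj1, hj2, hj3⟩ := start (p := p) (d := d) hm hmA
    ((p : ℤ) ^ (n₀ + L) * B)
  obtain ⟨x₀, hx₀⟩ : ∃ x₀ : ℤ, x₀ = 2 ^ t * m := ⟨_, rfl⟩
  rw [← hx₀] at hx0 hj1 hj2 hj3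
  have hpx : ¬ (p : ℤ) ∣ x₀ := by rw [hx₀]; exact Levl.not_dvd hA hpm t
  have hp1' : (1 : ℤ) ≤ p := by exact_mod_cast hp1
  have hx0B : B ≤ x₀ := by
    have : (1 : ℤ) ≤ (p : ℤ) ^ (n₀ + L) := one_le_pow₀ hp1'
    nlinarith
  have hc1x : c₁ < x₀ := by linarith
  -- the large constant
  obtain ⟨K, hK⟩ : ∃ K : ℝ, K = (E * (n₀ + L) + j0 : ℕ) + G * (n₀ + L) + (n₀ + 1) := ⟨_, rfl⟩
  have hK0 : 0 ≤ K := by rw [hK]; positivity
  obtain ⟨k₀, hk₀⟩ := exists_nat_ge (max 1 (max (2 * K / δ) (max (2 * K / ε) (K / η))))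
  refine ⟨k₀, fun k hk o ho1 ho2 => ?_⟩
  have hk' : (k₀ : ℝ) ≤ k := by exact_mod_cast hk
  have hkk := hk₀.trans hk'
  have hk1 : (1 : ℝ) ≤ k := (le_max_left _ _).trans hkk
  have hk2 : 2 * K / δ ≤ k := ((le_max_left _ _).trans (le_max_right _ _)).trans hkk
  have hk3 : 2 * K / ε ≤ k := ((le_max_left _ _).trans
    ((le_max_right _ _).trans (le_max_right _ _))).trans hkk
  have hk4 : K / η ≤ k := ((le_max_right _ _).trans
    ((le_max_right _ _).trans (le_max_right _ _))).trans hkk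
  rw [div_le_iff₀ hδ] at hk2
  rw [div_le_iff₀ hε] at hk3
  rw [div_le_iff₀ hη] at hk4
  have hn₀0 : (0 : ℝ) ≤ n₀ := Nat.cast_nonneg _
  have hoK : K ≤ o := by linarith
  have hn0o : n₀ + 1 ≤ o := by
    have h1 : ((n₀ : ℝ) + 1) ≤ o := by
      refine le_trans ?_ hoK
      rw [hK]
      have : 0 ≤ ((E * (n₀ + L) + j0 : ℕ) : ℝ) + G * (n₀ + L) := by positivity
      linarith
    exact_mod_cast h1
  have hL0 : 0 < L := hL
  obtain ⟨N, hN⟩ : ∃ N, N = (o - n₀) / L := ⟨_, rfl⟩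
  obtain ⟨i, hi⟩ : ∃ i, i = (o - n₀) % L := ⟨_, rfl⟩
  have hiL : i < L := by rw [hi]; exact Nat.mod_lt _ hL0
  have hoe : o = n₀ + i + L * N := by
    have := Nat.div_add_mod (o - n₀) L
    rw [← hN, ← hi] at this
    omega
  -- the first word
  obtain ⟨s₁, S₁, -, hS1c, hS1⟩ := hLW (n₀ + i) (by omega) x₀ hpx
  have hS1ne : S₁.Nonempty := by
    rw [← Finset.card_pos]
    have : (0 : ℝ) < S₁.card := lt_of_lt_of_le (Real.exp_pos _) hS1c
    exact_mod_cast this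
  obtain ⟨w₁, hw₁⟩ := hS1ne
  obtain ⟨u1, -, u3, u4, u5⟩ := hS1 w₁ hw₁
  have hsum1 : w₁.sum ≤ E * (n₀ + L) := by
    refine (CC.sum_le w₁ u3).trans ?_
    rw [u1]
    exact Nat.mul_le_mul_left _ (by omega)
  have hlg := large hp1 hB1 hBd w₁ x₀ (by
    refine le_trans ?_ hx0
    rw [u1]
    exact mul_le_mul_of_nonneg_right (pow_le_pow_right₀ hp1' (by omega)) (by linarith)) u4
  have hab1 : above p d c₁ x₀ w₁ := above_mono (by linarith) _ _ hlg.1
  -- the long words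
  obtain ⟨S, hSc, hS⟩ := hCC N (fin p d x₀ w₁) (hBM.trans hlg.2) u5
  obtain ⟨W, hW⟩ : ∃ W : List ℕ → List ℕ, W = fun w => w₁ ++ w := ⟨_, rfl⟩
  have hW1 : ∀ w ∈ S, (W w).length = o ∧ ok p d x₀ (W w) ∧ above p d c₁ x₀ (W w) ∧
      (W w).sum + j0 ≤ k := by
    intro w hw
    obtain ⟨a1, a2, a3, a4⟩ := hS w hw
    have hWw : W w = w₁ ++ w := by rw [hW]
    rw [hWw]
    refine ⟨?_, ?_, ?_, ?_⟩
    · rw [List.length_append, u1, a1, hoe]
    · rw [CC.ok_append]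
      exact ⟨u4, a3⟩
    · rw [CC.above_append]
      exact ⟨hab1, a4⟩
    · rw [List.sum_append]
      have b1 := (abs_le.1 a2).2
      have b2 : ((L * N : ℕ) : ℝ) ≤ o := by
        have : L * N ≤ o := by omega
        exact_mod_cast this
      have b3 : (w.sum : ℝ) ≤ (1 / r + δ₁) * o := by
        have e1 : (w.sum : ℝ) ≤ (1 / r + δ₁) * ((L * N : ℕ) : ℝ) := by
          have e2 : (1 / r + δ₁) * ((L * N : ℕ) : ℝ) =
            ((L * N : ℕ) : ℝ) / r + δ₁ * ((L * N : ℕ) : ℝ) := by ring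
          rw [e2]
          linarith
        exact e1.trans (mul_le_mul_of_nonneg_left b2 (by positivity))
      have b4 : (1 / r + δ₁) * o ≤ (1 - δ / 2) * k := by
        have e1 : (1 / r + δ₁) * o ≤ (1 / r + δ₁) * ((r - δ) * k) :=
          mul_le_mul_of_nonneg_left ho2 (by positivity)
        have e2 : (1 / r + δ₁) * (r - δ) ≤ 1 - δ / 2 := by
          have e3 : (1 / r + δ₁) * (r - δ) = 1 - δ * (1 / r) + δ₁ * (r - δ) := by
            field_simp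
          have e4 : 1 ≤ 1 / r := by
            rw [le_div_iff₀ hr0]
            linarith
          have e5 : δ * 1 ≤ δ * (1 / r) := mul_le_mul_of_nonneg_left e4 hδ.le
          have e6 : δ₁ * (r - δ) ≤ δ₁ * 1 := mul_le_mul_of_nonneg_left (by linarith) hδ₁0.le
          rw [e3]
          linarith
        calc (1 / r + δ₁) * o ≤ (1 / r + δ₁) * ((r - δ) * k) := e1
          _ = ((1 / r + δ₁) * (r - δ)) * k := by ring
          _ ≤ (1 - δ / 2) * k := mul_le_mul_of_nonneg_right e2 (by linarith)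
      have b5 : ((E * (n₀ + L) + j0 : ℕ) : ℝ) ≤ δ / 2 * k := by
        have : ((E * (n₀ + L) + j0 : ℕ) : ℝ) ≤ K := by
          rw [hK]
          have : 0 ≤ G * (n₀ + L) + ((n₀ : ℝ) + 1) := by positivity
          linarith
        linarith
      have b6 : ((w₁.sum + w.sum + j0 : ℕ) : ℝ) ≤ k := by
        have e1 : ((w₁.sum + j0 : ℕ) : ℝ) ≤ ((E * (n₀ + L) + j0 : ℕ) : ℝ) := by
          exact_mod_cast (by omega : w₁.sum + j0 ≤ E * (n₀ + L) + j0)
        have e2 : ((w₁.sum + w.sum + j0 : ℕ) : ℝ) = ((w₁.sum + j0 : ℕ) : ℝ) + (w.sum : ℝ) := by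
          rw [← Nat.cast_add]
          congr 1
          omega
        rw [e2]
        linarith
      exact_mod_cast b6
  obtain ⟨Φ, hΦ⟩ : ∃ Φ : List ℕ → ℤ, Φ = fun w => 2 ^ (k - j0 - (W w).sum) *
    fin p d x₀ (W w) := ⟨_, rfl⟩
  have hinj : Set.InjOn Φ (S : Set (List ℕ)) := by
    intro v hv w hw hvw
    obtain ⟨a1, a2, a3, a4⟩ := hW1 v hv
    obtain ⟨b1, b2, b3, b4⟩ := hW1 w hw
    have hv0 : W v ≠ [] := by
      intro h
      rw [h] at a1
      simp at a1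
      omega
    have hw0 : W w ≠ [] := by
      intro h
      rw [h] at b1
      simp at b1
      omega
    rw [hΦ] at hvw
    have h5 := LOW.odd_part (LOW.fin_odd hA (W v) _ hv0 a2) (LOW.fin_odd hA (W w) _ hw0 b2) hvw
    have h6 := LOW.words_inj hA a2 b2 (by rw [a1, b1]) (by omega) h5.2
    rw [hW] at h6
    exact List.append_cancel_left h6
  have hfin : (HT p d A k o).Finite := (Levl.LM_fin hA A c hc k).subset
    fun n hn => ⟨hn.1, hn.2.1, hn.2.2.1⟩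
  have hsub : ((S.image Φ : Finset ℤ) : Set ℤ) ⊆ HT p d A k o := by
    intro n hn
    rw [Finset.mem_coe, Finset.mem_image] at hn
    obtain ⟨w, hw, rfl⟩ := hn
    obtain ⟨a1, a2, a3, a4⟩ := hW1 w hw
    have := hit hA hc hc1b hc1a hc1x hj1 hj2 hj3 a2 a3 a4
    rw [a1] at this
    rw [hΦ]
    exact this
  have hcard : S.card ≤ (HT p d A k o).ncard := by
    rw [← Finset.card_image_of_injOn hinj, ← Set.ncard_coe_finset]
    exact Set.ncard_le_ncard hsub hfin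
  refine le_trans ?_ (by exact_mod_cast hcard : (S.card : ℝ) ≤ ((HT p d A k o).ncard : ℝ))
  refine le_trans (Real.exp_le_exp.2 ?_) hSc
  rw [← hG]
  have b2 : ((L * N : ℕ) : ℝ) ≤ k := by
    have h1 : ((L * N : ℕ) : ℝ) ≤ o := by
      have : L * N ≤ o := by omega
      exact_mod_cast this
    have h2 : (r - δ) * (k : ℝ) ≤ 1 * k := mul_le_mul_of_nonneg_right (by linarith) (by linarith)
    linarith
  have b3 : (o : ℝ) - (n₀ + L) ≤ ((L * N : ℕ) : ℝ) := by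
    have h1 : o ≤ L * N + (n₀ + L) := by omega
    have h2 : (o : ℝ) ≤ ((L * N + (n₀ + L) : ℕ) : ℝ) := by exact_mod_cast h1
    push_cast at h2 ⊢
    linarith
  have b4 : G * ((o : ℝ) - (n₀ + L)) ≤ G * ((L * N : ℕ) : ℝ) :=
    mul_le_mul_of_nonneg_left b3 hG0.le
  have b5 : δ₁ * ((L * N : ℕ) : ℝ) ≤ δ₁ * k := mul_le_mul_of_nonneg_left b2 hδ₁0.le
  have b6 : δ₁ * (k : ℝ) ≤ ε / 2 * k := mul_le_mul_of_nonneg_right hδ₁a (by linarith)
  have b7 : G * (n₀ + L) ≤ ε / 2 * k := by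
    have : G * (n₀ + L) ≤ K := by
      rw [hK]
      have : 0 ≤ ((E * (n₀ + L) + j0 : ℕ) : ℝ) + ((n₀ : ℝ) + 1) := by positivity
      linarith
    linarith
  have e1 : (G - δ₁) * ((L * N : ℕ) : ℝ) = G * ((L * N : ℕ) : ℝ) - δ₁ * ((L * N : ℕ) : ℝ) := by
    ring
  rw [e1]
  linarith

end Bivl

open Bivl

theorem t_BIVL : S_BIVL := by
  intro p d hA A c hc m hm hpm hmA η ρ₁ hη hρ₁ hF hrp ε hε
  rcases lt_or_ge ρ₁ η with hηρ | hηρ
  · refine ⟨1, fun k hk o h1 h2 => ?_⟩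
    exfalso
    have hk' : (1 : ℝ) ≤ k := by exact_mod_cast hk
    nlinarith
  have hρ0 : 0 < ρ₁ := lt_of_lt_of_le hη hηρ
  have hp3 : 3 ≤ p := Levl.p_ge hA
  have hpR : (3 : ℝ) ≤ p := by exact_mod_cast hp3
  have hlp : 0 < Real.log p := Real.log_pos (by linarith)
  -- positivity beyond `ρ₁`
  obtain ⟨δa, hδa, hFa⟩ := Metric.eventually_nhds_iff.1
    ((Fp_cont p).continuousAt.eventually (lt_mem_nhds hF))
  -- uniform continuity
  have hcont : ContinuousOn (fun x => Fp p x / x) (Set.Icc η 1) :=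
    (Fp_cont p).continuousOn.div continuousOn_id fun x hx => (lt_of_lt_of_le hη hx.1).ne'
  have huc := isCompact_Icc.uniformContinuousOn_of_continuous hcont
  rw [Metric.uniformContinuousOn_iff] at huc
  obtain ⟨δb, hδb, hHb⟩ := huc (ε / 2) (by positivity)
  obtain ⟨δ, hδ⟩ : ∃ δ : ℝ, δ = min (δa / 4) (min (δb / 4) (min ((1 - ρ₁) / 4)
    ((Real.log 2 - ρ₁ * Real.log p) / (4 * Real.log p)))) := ⟨_, rfl⟩
  have hδ0 : 0 < δ := by
    rw [hδ]
    refine lt_min (by positivity) (lt_min (by positivity) (lt_min (by linarith) ?_))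
    exact div_pos (by linarith) (by positivity)
  have d1 : δ ≤ δa / 4 := by rw [hδ]; exact min_le_left _ _
  have d2 : δ ≤ δb / 4 := by rw [hδ]; exact (min_le_right _ _).trans (min_le_left _ _)
  have d3 : δ ≤ (1 - ρ₁) / 4 := by
    rw [hδ]
    exact (min_le_right _ _).trans ((min_le_right _ _).trans (min_le_left _ _))
  have d4 : δ ≤ (Real.log 2 - ρ₁ * Real.log p) / (4 * Real.log p) := by
    rw [hδ]
    exact (min_le_right _ _).trans ((min_le_right _ _).trans (min_le_right _ _))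
  rw [le_div_iff₀ (by positivity)] at d4
  -- the grid
  have hgrid : ∀ i : ℕ, ∃ k₀ : ℕ, (0 < (i : ℝ) * δ ∧ (i : ℝ) * δ < 1 ∧ 0 < Fp p ((i : ℝ) * δ) ∧
      (i : ℝ) * δ * Real.log p < Real.log 2) → ∀ k : ℕ, k₀ ≤ k → ∀ o : ℕ, η * k ≤ o →
        (o : ℝ) ≤ ((i : ℝ) * δ - δ) * k →
        Real.exp (Fp p ((i : ℝ) * δ) / ((i : ℝ) * δ) * o - ε / 2 * k) ≤
          ((HT p d A k o).ncard : ℝ) := by
    intro i
    by_cases h : 0 < (i : ℝ) * δ ∧ (i : ℝ) * δ < 1 ∧ 0 < Fp p ((i : ℝ) * δ) ∧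
      (i : ℝ) * δ * Real.log p < Real.log 2
    · obtain ⟨k₀, hk₀⟩ := loc hA hc hm hpm hmA h.1 h.2.1 h.2.2.1 h.2.2.2 hη hδ0
        (half_pos hε)
      exact ⟨k₀, fun _ => hk₀⟩
    · exact ⟨0, fun h' => absurd h' h⟩
  choose kf hkf using hgrid
  refine ⟨1 + ∑ i ∈ range (⌈1 / δ⌉₊ + 1), kf i, fun k hk o ho1 ho2 => ?_⟩
  have hk1 : 1 ≤ k := by omega
  have hkR : (1 : ℝ) ≤ k := by exact_mod_cast hk1
  have hk0 : (0 : ℝ) < k := by linarith
  obtain ⟨ρ, hρ⟩ : ∃ ρ : ℝ, ρ = (o : ℝ) / k := ⟨_, rfl⟩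
  have hρa : η ≤ ρ := by rw [hρ, le_div_iff₀ hk0]; exact ho1
  have hρb : ρ ≤ ρ₁ := by rw [hρ, div_le_iff₀ hk0]; exact ho2
  have hoρ : (o : ℝ) = ρ * k := by rw [hρ]; field_simp
  rw [← hρ]
  obtain ⟨i, hi⟩ : ∃ i, i = ⌈(ρ + δ) / δ⌉₊ := ⟨_, rfl⟩
  have hρ0' : 0 < ρ := lt_of_lt_of_le hη hρa
  have hi1 : (ρ + δ) / δ ≤ i := by rw [hi]; exact Nat.le_ceil _
  have hi2 : (i : ℝ) < (ρ + δ) / δ + 1 := by
    rw [hi]
    exact Nat.ceil_lt_add_one (by positivity)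
  obtain ⟨r, hr⟩ : ∃ r : ℝ, r = (i : ℝ) * δ := ⟨_, rfl⟩
  have hr1 : ρ + δ ≤ r := by rw [hr, ← div_le_iff₀ hδ0]; exact hi1
  have hr2 : r < ρ + 2 * δ := by
    have h1 : (i : ℝ) * δ < ((ρ + δ) / δ + 1) * δ := mul_lt_mul_of_pos_right hi2 hδ0
    have h2 : ((ρ + δ) / δ + 1) * δ = ρ + 2 * δ := by
      field_simp
      ring
    rw [hr]
    linarith
  have hr0 : 0 < r := by linarith
  have hrlt : r < 1 := by linarith
  have hrp' : r * Real.log p < Real.log 2 := by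
    have h1 : r * Real.log p ≤ (ρ₁ + 2 * δ) * Real.log p :=
      mul_le_mul_of_nonneg_right (by linarith) hlp.le
    nlinarith
  have hFr : 0 < Fp p r := by
    have h1 : 0 < Fp p (ρ₁ + 2 * δ) := by
      refine hFa ?_
      rw [Real.dist_eq, add_sub_cancel_left, abs_of_pos (by positivity)]
      linarith
    exact Fp_pos_of hr0 (by linarith) (by linarith) h1.le
  have hiN : i < ⌈1 / δ⌉₊ + 1 := by
    have h1 : (i : ℝ) < 1 / δ := by
      rw [lt_div_iff₀ hδ0, ← hr]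
      exact hrlt
    have h2 : (i : ℝ) < (⌈1 / δ⌉₊ : ℝ) := lt_of_lt_of_le h1 (Nat.le_ceil _)
    have h3 : i < ⌈1 / δ⌉₊ := by exact_mod_cast h2
    omega
  have hkk : kf i ≤ k := by
    have h1 : kf i ≤ ∑ i ∈ range (⌈1 / δ⌉₊ + 1), kf i :=
      Finset.single_le_sum (f := kf) (fun _ _ => Nat.zero_le _) (mem_range.2 hiN)
    omega
  have hcond : 0 < (i : ℝ) * δ ∧ (i : ℝ) * δ < 1 ∧ 0 < Fp p ((i : ℝ) * δ) ∧
      (i : ℝ) * δ * Real.log p < Real.log 2 := by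
    rw [← hr]
    exact ⟨hr0, hrlt, hFr, hrp'⟩
  have key := hkf i hcond k hkk o ho1 (by
    rw [← hr, hoρ]
    exact mul_le_mul_of_nonneg_right (by linarith) hk0.le)
  refine le_trans (Real.exp_le_exp.2 ?_) key
  rw [← hr, hoρ]
  have hd := hHb r ⟨by linarith, hrlt.le⟩ ρ ⟨hρa, by linarith⟩ (by
    rw [Real.dist_eq, abs_of_pos (by linarith)]
    linarith)
  rw [Real.dist_eq] at hd
  have hd1 := (abs_lt.1 hd).1
  have h1 : Fp p ρ / ρ - ε / 2 ≤ Fp p r / r := by linarith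
  have h2 : (Fp p ρ / ρ - ε / 2) * (ρ * k) ≤ Fp p r / r * (ρ * k) :=
    mul_le_mul_of_nonneg_right h1 (by positivity)
  have h3 : (Fp p ρ / ρ - ε / 2) * (ρ * k) = Fp p ρ * k - ε / 2 * (ρ * k) := by
    field_simp
  have h4 : ε / 2 * (ρ * k) ≤ ε / 2 * (1 * k) :=
    mul_le_mul_of_nonneg_left (mul_le_mul_of_nonneg_right (by linarith) hk0.le) (by positivity)
  rw [h3] at h2
  linarith

end Pool.Agent.N685.FD
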