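import Pool.Agent.N685.FD.Asm
import Pool.Agent.N685.FD.Code
import Pool.Agent.N685.FD.Sz

/-!
PROJECT FD (helper685): upper bound for the number of the `n ≤ x` whose trajectory is at most `y` at a
time at most `α log (n / y)`, uniformly in `1 ≤ y ≤ x`.
-/

set_option autoImplicit false
set_option linter.unusedVariables false

namespace Pool.Agent.N685.FD

open Finset

/-- the odd frequency attached to `α` -/
noncomputable def rp (p : ℕ) (α : ℝ) : ℝ := (Real.log 2 - 1 / α) / Real.log p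

/-- the exponent per step of the tilt `z` at the frequency `ρ` -/
noncomputable def php (p : ℕ) (ρ z : ℝ) : ℝ := -Real.log z + ρ * (-Real.log (tt p z))

namespace UL

theorem p_facts {p : ℕ} (hp : p = 3 ∨ p = 5) : (1 : ℝ) < p ∧ 0 < Real.log p ∧ (3 : ℤ) ≤ p := by
  have h1 : (1 : ℝ) < p := by
    rcases hp with rfl | rfl <;> norm_num
  refine ⟨h1, Real.log_pos h1, ?_⟩
  rcases hp with rfl | rfl <;> norm_num

theorem tt_pos {p : ℕ} (hp : p = 3 ∨ p = 5) {z : ℝ} (h0 : 0 < z) (h1 : z < 1) : 0 < tt p z := by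
  have h := (p_facts hp).1
  unfold tt
  have : 0 < 1 - z := by linarith
  positivity

theorem q_facts {p : ℕ} {z : ℝ} (hQ : Q p z) :
    0 < -Real.log z ∧ 0 < -Real.log z * Real.log p + -Real.log (tt p z) * Real.log 2 := by
  obtain ⟨h0, h1, h2⟩ := hQ
  have hneg := Real.log_neg h0 h1
  refine ⟨by linarith, ?_⟩
  rw [one_div, Real.log_inv] at h2
  linarith

theorem oT_le (p : ℕ) (d : ℤ) (j : ℕ) (n : ℤ) : oT p d j n ≤ j := by
  unfold oT
  exact (card_filter_le _ _).trans (by rw [card_range])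

theorem above_mono {p : ℕ} {d c c' : ℤ} (h : c' ≤ c) : ∀ (w : List ℕ) (x : ℤ), above p d c x w →
    above p d c' x w
  | [], _, _ => trivial
  | e :: w, x, hx => ⟨lt_of_le_of_lt h hx.1, above_mono h w _ hx.2⟩

/-- upper bound for the number of the `n` which reach `a` at the time `k`, after `o` odd steps, all
earlier terms larger than `a` and than `c`; uniform in `a` -/
theorem at_upper {p : ℕ} {d : ℤ} (hA : Adm p d) {z : ℝ} (hQ : Q p z) :
    ∃ c₀ : ℤ, 1 ≤ c₀ ∧ ∀ c : ℤ, c₀ ≤ c → ∀ ε : ℝ, 0 < ε → ∃ C : ℝ, 0 < C ∧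
      ∀ (a : ℤ) (k o : ℕ) (F : Finset ℤ), 1 ≤ a → (∀ n ∈ F, (T p d)^[k] n = a ∧
        (∀ j < k, c < (T p d)^[j] n ∧ a < (T p d)^[j] n) ∧ oT p d k n = o) →
        (F.card : ℝ) ≤ C * Real.exp (ε * k + k * (-Real.log z) + o * (-Real.log (tt p z))) := by
  classical
  obtain ⟨c₀, hc₀, hG⟩ := gen_main p d hA z hQ
  have hz0 := hQ.1
  have hz1 := hQ.2.1
  have hth0 : 0 < tt p z := tt_pos hA.1 hz0 hz1
  refine ⟨max 1 c₀, le_max_left _ _, fun c hc ε hε => ?_⟩
  obtain ⟨C, hC, hup⟩ := hG c ((le_max_right _ _).trans hc) ε hε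
  refine ⟨C, hC, fun a k o F ha hF => ?_⟩
  have hcode : ∀ n : ℤ, ∃ w : List ℕ, n ∈ F → w.length = o ∧ ok p d a w ∧ above p d a a w ∧
      above p d c a w ∧ w.sum ≤ k ∧ n = 2 ^ (k - w.sum) * fin p d a w := by
    intro n
    by_cases hn : n ∈ F
    · obtain ⟨h1, h2, h3⟩ := hF n hn
      obtain ⟨w, hw1, hw2, hw3, hw4, hw5⟩ := t_CODE p d hA c k n fun j hj => (h2 j hj).1
      obtain ⟨w', hw1', hw2', hw3', hw4', hw5'⟩ := t_CODE p d hA (max c a) k n
        fun j hj => max_lt (h2 j hj).1 (h2 j hj).2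
      refine ⟨w', fun _ => ?_⟩
      rw [h1] at hw2' hw3' hw5'
      rw [h3] at hw1'
      exact ⟨hw1', hw2', above_mono (le_max_right _ _) _ _ hw3', above_mono (le_max_left _ _) _ _ hw3',
        hw4', hw5'⟩
    · exact ⟨[], fun h => absurd h hn⟩
  choose f hf using hcode
  have hinj : Set.InjOn f (F : Set ℤ) := by
    intro n hn m hm h
    have h1 := hf n hn
    have h2 := hf m hm
    rw [h1.2.2.2.2.2, h2.2.2.2.2.2, h]
  have hsum := hup o a (F.image f) ha (by
    intro w hw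
    obtain ⟨n, hn, rfl⟩ := mem_image.1 hw
    have h1 := hf n hn
    exact ⟨h1.1, h1.2.1, h1.2.2.1, h1.2.2.2.1⟩)
  rw [sum_image hinj] at hsum
  have hterm : ∀ n ∈ F, tt p z ^ o * z ^ k ≤ wt p z (f n) := by
    intro n hn
    have h1' := hf n hn
    unfold wt
    rw [h1'.1]
    apply mul_le_mul_of_nonneg_left _ (by positivity)
    exact pow_le_pow_of_le_one hz0.le hz1.le h1'.2.2.2.2.1
  have h2 : (F.card : ℝ) * (tt p z ^ o * z ^ k) ≤ C * Real.exp (ε * o) := by
    refine le_trans ?_ hsum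
    rw [← nsmul_eq_mul, ← sum_const]
    exact sum_le_sum hterm
  rcases Nat.eq_zero_or_pos F.card with h0' | hpos
  · rw [h0']
    push_cast
    positivity
  have hok : o ≤ k := by
    obtain ⟨n, hn⟩ := Finset.card_pos.1 hpos
    rw [← (hF n hn).2.2]
    exact oT_le p d k n
  have h5 : tt p z ^ o * z ^ k =
      Real.exp (-(k * (-Real.log z) + o * (-Real.log (tt p z)))) := by
    have e1 : tt p z ^ o = Real.exp (o * Real.log (tt p z)) := by
      rw [Real.exp_nat_mul, Real.exp_log hth0]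
    have e2 : z ^ k = Real.exp (k * Real.log z) := by
      rw [Real.exp_nat_mul, Real.exp_log hz0]
    rw [e1, e2, ← Real.exp_add]
    congr 1
    ring
  rw [h5, Real.exp_neg, ← div_eq_mul_inv, div_le_iff₀ (Real.exp_pos _)] at h2
  refine h2.trans ?_
  rw [mul_assoc, ← Real.exp_add]
  apply mul_le_mul_of_nonneg_left _ hC.le
  apply Real.exp_le_exp.2
  have : ε * (o : ℝ) ≤ ε * k := mul_le_mul_of_nonneg_left (by exact_mod_cast hok) hε.le
  linarith

theorem fin_pos_of_above {p : ℕ} {d c : ℤ} (hc : 0 ≤ c) : ∀ (w : List ℕ) (a : ℤ), 1 ≤ a →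
    above p d c a w → 1 ≤ fin p d a w
  | [], a, ha, _ => ha
  | e :: w, a, ha, h => fin_pos_of_above hc w _ (by have := h.1; omega) h.2

/-- sizes -/
theorem at_size {p : ℕ} {d : ℤ} (hA : Adm p d) {η : ℝ} (hη : 0 < η) : ∃ c₀ : ℤ, 1 ≤ c₀ ∧
    ∀ c : ℤ, c₀ ≤ c → ∀ (n : ℤ) (k : ℕ), 1 ≤ (T p d)^[k] n → (∀ j < k, c < (T p d)^[j] n) →
      |Real.log n - Real.log ((T p d)^[k] n : ℤ) - (k * Real.log 2 - oT p d k n * Real.log p)| ≤
        η * k := by
  obtain ⟨c₀, hc₀, h⟩ := t_SZ p d hA η hη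
  refine ⟨c₀, hc₀, fun c hc n k ha hn => ?_⟩
  obtain ⟨w, hw1, hw2, hw3, hw4, hw5⟩ := t_CODE p d hA c k n hn
  have h1 := h c ((T p d)^[k] n) w hc ha hw2 hw3
  have hfin := fin_pos_of_above (by omega) w _ ha hw3
  have hfin0 : (0 : ℝ) < fin p d ((T p d)^[k] n) w := by exact_mod_cast hfin
  have e : Real.log (n : ℝ) = ((k : ℝ) - w.sum) * Real.log 2 +
      Real.log (fin p d ((T p d)^[k] n) w) := by
    have e1 : (n : ℝ) = 2 ^ (k - w.sum) * (fin p d ((T p d)^[k] n) w : ℝ) := by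
      exact_mod_cast congrArg (fun m : ℤ => (m : ℝ)) hw5
    rw [e1, Real.log_mul (by positivity) hfin0.ne', Real.log_pow, Nat.cast_sub hw4]
  rw [hw1] at h1
  have h2 : η * (oT p d k n : ℝ) ≤ η * k :=
    mul_le_mul_of_nonneg_left (by exact_mod_cast oT_le p d k n) hη.le
  refine le_trans (le_of_eq ?_) (h1.trans h2)
  rw [e]
  congr 1
  ring

/-- the step from a large positive number -/
theorem T_pos {p : ℕ} {d : ℤ} (hA : Adm p d) {x : ℤ} (h1 : 1 ≤ x) (h2 : |d| ≤ x) : 1 ≤ T p d x := by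
  have hp := (p_facts hA.1).2.2
  have hd := neg_abs_le d
  unfold T
  split_ifs with h
  · omega
  · have : 3 * x ≤ p * x := mul_le_mul_of_nonneg_right hp (by omega)
    omega

/-- the first entrance below `Y` -/
theorem entrance {p : ℕ} {d : ℤ} (hA : Adm p d) {Y : ℤ} (h1 : 1 ≤ Y) (h2 : |d| ≤ Y) {n : ℤ}
    (hn : Y < n) {k : ℕ} (hk : (T p d)^[k] n ≤ Y) : ∃ k' : ℕ, k' ≤ k ∧
      (∀ j < k', Y < (T p d)^[j] n) ∧ 1 ≤ (T p d)^[k'] n ∧ (T p d)^[k'] n ≤ Y := by
  classical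
  have hex : ∃ k, (T p d)^[k] n ≤ Y := ⟨k, hk⟩
  have hmin : ∀ j < Nat.find hex, Y < (T p d)^[j] n := fun j hj => not_le.1 (Nat.find_min hex hj)
  refine ⟨Nat.find hex, Nat.find_min' hex hk, hmin, ?_, Nat.find_spec hex⟩
  obtain ⟨m, hm⟩ : ∃ m, Nat.find hex = m + 1 := by
    refine ⟨Nat.find hex - 1, ?_⟩
    have : Nat.find hex ≠ 0 := by
      intro h0
      have := Nat.find_spec hex
      rw [h0] at this
      simp only [Function.iterate_zero, id] at this
      omega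
    omega
  have h3 := hmin m (by omega)
  rw [hm, Function.iterate_succ_apply']
  exact T_pos hA (by omega) (by omega)

end UL

end Pool.Agent.N685.FD
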