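import Pool.Agent.N685.FD.Asm2
import Pool.Agent.N685.FD.UL

/-!
PROJECT FD (helper685), part 2: first hitting times of an arbitrary set which is bounded above.
-/

set_option autoImplicit false
set_option linter.unusedVariables false

namespace Pool.Agent.N685.FD

open Finset

/-- the `n ≥ 1` whose trajectory meets `F` for the first time at the time `k`, after `o` odd steps -/
def HT (p : ℕ) (d : ℤ) (F : Set ℤ) (k o : ℕ) : Set ℤ :=
  {n : ℤ | 1 ≤ n ∧ (∀ j < k, (T p d)^[j] n ∉ F) ∧ (T p d)^[k] n ∈ F ∧ oT p d k n = o}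

namespace Hit

open ExtAux

/-- a member of a level set of `F` is a member of a neighbouring level set of `c` -/
theorem key {p : ℕ} {d : ℤ} (hA : Adm p d) (F : Set ℤ) {c : ℤ} (h1c : 1 ≤ c) (hdc : |d| ≤ c)
    (hF : ∀ y ∈ F, y ≤ c) : ∃ B : ℕ, ∀ (k o : ℕ) (n : ℤ), n ∈ HT p d F k o →
    ∃ i ≤ B, ∃ j ≤ B, i ≤ k ∧ j ≤ o ∧ n ∈ LT p d c (k - i) (o - j) := by
  classical
  obtain ⟨fp, hfp⟩ : ∃ fp : ℤ → ℕ, ∀ a : ℤ, ∀ j : ℕ, (∀ i < j, (T p d)^[i] a ∉ F) →
      (T p d)^[j] a ∈ F → j ≤ fp a := by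
    refine ⟨fun a => if h : ∃ j, (T p d)^[j] a ∈ F then Nat.find h else 0, fun a j h1 h2 => ?_⟩
    have h3 : ∃ j, (T p d)^[j] a ∈ F := ⟨j, h2⟩
    simp only [dif_pos h3]
    by_contra h4
    push Not at h4
    exact h1 _ h4 (Nat.find_spec h3)
  refine ⟨(Icc 1 c).sup fp, ?_⟩
  rintro k o n ⟨hn, h1, h2, h3⟩
  obtain ⟨k₁, h7, h6, h5a, h5⟩ : ∃ k₁ : ℕ, k₁ ≤ k ∧ (∀ j < k₁, c < (T p d)^[j] n) ∧
      1 ≤ (T p d)^[k₁] n ∧ (T p d)^[k₁] n ≤ c := by
    rcases le_or_gt n c with h | h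
    · exact ⟨0, Nat.zero_le _, fun j hj => absurd hj (Nat.not_lt_zero j), hn, h⟩
    · exact UL.entrance hA h1c hdc h (hF _ h2)
  have h8 : oT p d k n = oT p d k₁ n + oT p d (k - k₁) ((T p d)^[k₁] n) := by
    rw [← oT_add, Nat.add_sub_cancel' h7]
  have h9 := oT_le (p := p) (d := d) (k - k₁) ((T p d)^[k₁] n)
  have h10 : k - k₁ ≤ (Icc 1 c).sup fp := by
    have h11 : (T p d)^[k₁] n ∈ Icc 1 c := mem_Icc.2 ⟨h5a, h5⟩
    refine le_trans (hfp _ _ ?_ ?_) (le_sup (f := fp) h11)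
    · intro i hi
      rw [← Function.iterate_add_apply]
      exact h1 _ (by omega)
    · rw [← Function.iterate_add_apply, Nat.sub_add_cancel h7]
      exact h2
  refine ⟨k - k₁, h10, oT p d (k - k₁) ((T p d)^[k₁] n), h9.trans h10, by omega, by omega,
    hn, ?_, ?_, ?_⟩
  · intro j hj
    exact h6 j (by omega)
  · rw [show k - (k - k₁) = k₁ by omega]
    exact h5
  · rw [show k - (k - k₁) = k₁ by omega]
    omega

end Hit

open ExtAux Hit

/-- upper bound for the first hitting times of a set bounded above -/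
theorem hit_upper {p : ℕ} {d : ℤ} (hA : Adm p d) {z : ℝ} (hz : Q p z) (A : Set ℤ) {c : ℤ}
    (hF : ∀ y ∈ A, y ≤ c) {ε : ℝ} (hε : 0 < ε) : ∃ C : ℝ, 0 < C ∧ ∀ (k o : ℕ),
    (HT p d A k o).Finite ∧
    ((HT p d A k o).ncard : ℝ) ≤ C * Real.exp (ε * k + k * (-Real.log z) +
      o * (-Real.log (tt p z))) := by
  obtain ⟨c', hc'⟩ : ∃ c' : ℤ, c' = max (max 1 |d|) c := ⟨_, rfl⟩
  have h1c : 1 ≤ c' := by rw [hc']; exact (le_max_left _ _).trans (le_max_left _ _)
  have hdc : |d| ≤ c' := by rw [hc']; exact (le_max_right _ _).trans (le_max_left _ _)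
  have hcc : c ≤ c' := by rw [hc']; exact le_max_right _ _
  obtain ⟨C, hC, h3⟩ := lv_main p d hA z hz c' h1c ε hε
  obtain ⟨B, hB⟩ := key hA A h1c hdc (fun y hy => (hF y hy).trans hcc)
  refine ⟨((B : ℝ) + 1) ^ 2 * (C * Real.exp (B * (ε + |(-Real.log z)| + |(-Real.log (tt p z))|))),
    by positivity, fun k o => ?_⟩
  classical
  obtain ⟨F, hF⟩ : ∃ F : ℕ → ℕ → Finset ℤ, ∀ i j, F i j = (h3 (k - i) (o - j)).1.toFinset :=
    ⟨fun i j => (h3 (k - i) (o - j)).1.toFinset, fun _ _ => rfl⟩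
  obtain ⟨U, hU⟩ : ∃ U : Finset ℤ, U = (range (B + 1)).biUnion fun i =>
    (range (B + 1)).biUnion fun j => F i j := ⟨_, rfl⟩
  have hsub : HT p d A k o ⊆ (U : Set ℤ) := by
    intro n hn
    obtain ⟨i, hi, j, hj, _, _, h4⟩ := hB k o n hn
    rw [hU, Finset.mem_coe, mem_biUnion]
    refine ⟨i, mem_range.2 (by omega), ?_⟩
    rw [mem_biUnion]
    refine ⟨j, mem_range.2 (by omega), ?_⟩
    rw [hF, Set.Finite.mem_toFinset]
    exact h4
  refine ⟨U.finite_toSet.subset hsub, ?_⟩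
  have h5 : (HT p d A k o).ncard ≤ U.card := by
    have := Set.ncard_le_ncard hsub U.finite_toSet
    rwa [Set.ncard_coe_finset] at this
  obtain ⟨M, hM⟩ : ∃ M : ℝ, M = C * Real.exp (B * (ε + |(-Real.log z)| + |(-Real.log (tt p z))|)) *
    Real.exp (ε * k + k * (-Real.log z) + o * (-Real.log (tt p z))) := ⟨_, rfl⟩
  have h6 : ∀ i ∈ range (B + 1), ∀ j ∈ range (B + 1), ((F i j).card : ℝ) ≤ M := by
    intro i hi j hj
    have hi' : i ≤ B := by
      have := mem_range.1 hi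
      omega
    have hj' : j ≤ B := by
      have := mem_range.1 hj
      omega
    have h7 := (h3 (k - i) (o - j)).2
    rw [Set.ncard_eq_toFinset_card _ (h3 (k - i) (o - j)).1, ← hF] at h7
    refine h7.trans ?_
    rw [hM, mul_assoc, ← Real.exp_add]
    refine mul_le_mul_of_nonneg_left (Real.exp_le_exp.2 ?_) hC.le
    have e1 := mul_le_of_abs k _ B (-Real.log z) (cast_sub_abs k i B hi')
    have e2 := mul_le_of_abs o _ B (-Real.log (tt p z)) (cast_sub_abs o j B hj')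
    have e3 : ε * ((k - i : ℕ) : ℝ) ≤ ε * k := by
      refine mul_le_mul_of_nonneg_left ?_ hε.le
      exact_mod_cast Nat.sub_le k i
    have e4 : 0 ≤ (B : ℝ) * ε := by positivity
    linarith
  have h7 : (U.card : ℝ) ≤ ((B : ℝ) + 1) ^ 2 * M := by
    have h8 : U.card ≤ ∑ i ∈ range (B + 1), ∑ j ∈ range (B + 1), (F i j).card := by
      rw [hU]
      refine card_biUnion_le.trans (sum_le_sum fun i _ => card_biUnion_le)
    have h9 : (U.card : ℝ) ≤ ∑ i ∈ range (B + 1), ∑ j ∈ range (B + 1), ((F i j).card : ℝ) := by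
      exact_mod_cast h8
    refine h9.trans ((sum_le_sum fun i hi => sum_le_sum fun j hj => h6 i hi j hj).trans
      (le_of_eq ?_))
    simp only [sum_const, card_range, nsmul_eq_mul]
    push_cast
    ring
  calc ((HT p d A k o).ncard : ℝ) ≤ (U.card : ℝ) := by exact_mod_cast h5
    _ ≤ ((B : ℝ) + 1) ^ 2 * M := h7
    _ = _ := by rw [hM]; ring

/-- sizes of the numbers which hit a set bounded above at the time `k` -/
theorem hit_size {p : ℕ} {d : ℤ} (hA : Adm p d) {η : ℝ} (hη : 0 < η) (A : Set ℤ) {c : ℤ}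
    (hF : ∀ y ∈ A, y ≤ c) : ∃ K : ℝ, ∀ (k o : ℕ) (n : ℤ), n ∈ HT p d A k o →
    |Real.log n - (k * Real.log 2 - o * Real.log p)| ≤ η * k + K := by
  obtain ⟨c', hc'⟩ : ∃ c' : ℤ, c' = max (max 1 |d|) c := ⟨_, rfl⟩
  have h1c : 1 ≤ c' := by rw [hc']; exact (le_max_left _ _).trans (le_max_left _ _)
  have hdc : |d| ≤ c' := by rw [hc']; exact (le_max_right _ _).trans (le_max_left _ _)
  have hcc : c ≤ c' := by rw [hc']; exact le_max_right _ _
  obtain ⟨K, h3⟩ := size_main p d hA η hη c' h1c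
  obtain ⟨B, hB⟩ := key hA A h1c hdc (fun y hy => (hF y hy).trans hcc)
  refine ⟨K + B * (|Real.log 2| + |Real.log p|), fun k o n hn => ?_⟩
  obtain ⟨i, hi, j, hj, hik, hjo, h4⟩ := hB k o n hn
  have h5 := h3 _ _ n h4
  have h6 := cast_sub_abs k i B hi
  have h7 := cast_sub_abs o j B hj
  have h8 : |((k - i : ℕ) : ℝ) - k| * |Real.log 2| ≤ B * |Real.log 2| :=
    mul_le_mul_of_nonneg_right h6 (abs_nonneg _)
  have h9 : |((o - j : ℕ) : ℝ) - o| * |Real.log p| ≤ B * |Real.log p| :=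
    mul_le_mul_of_nonneg_right h7 (abs_nonneg _)
  rw [← abs_mul] at h8 h9
  have h10 : Real.log n - (k * Real.log 2 - o * Real.log p) =
      (Real.log n - (((k - i : ℕ) : ℝ) * Real.log 2 - ((o - j : ℕ) : ℝ) * Real.log p)) +
        (((k - i : ℕ) : ℝ) - k) * Real.log 2 - (((o - j : ℕ) : ℝ) - o) * Real.log p := by ring
  rw [h10]
  have h11 : η * ((k - i : ℕ) : ℝ) ≤ η * k := by
    refine mul_le_mul_of_nonneg_left ?_ hη.le
    exact_mod_cast Nat.sub_le k i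
  refine (abs_sub _ _).trans ?_
  have h12 := abs_add_le (Real.log n - (((k - i : ℕ) : ℝ) * Real.log 2 -
    ((o - j : ℕ) : ℝ) * Real.log p)) ((((k - i : ℕ) : ℝ) - k) * Real.log 2)
  rw [mul_add]
  linarith

end Pool.Agent.N685.FD
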