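import Pool.Agent.N685.FD.UL2
import Pool.Agent.N685.FD.Hit

/-!
PROJECT FD (helper685), part 4: statements for the first hitting times of a set `A` of integers which
is bounded above, for the maps `T p d`: levels, pressure of the levels and counts.  Positive starting
points; the negative ones are the case of `-d` and `-A`.
-/

set_option autoImplicit false

namespace Pool.Agent.N685.FD

open Finset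

/-- the `n ≥ 1` whose trajectory meets `A` for the first time at the time `k` -/
def LM (p : ℕ) (d : ℤ) (A : Set ℤ) (k : ℕ) : Set ℤ :=
  {n : ℤ | 1 ≤ n ∧ (∀ j < k, (T p d)^[j] n ∉ A) ∧ (T p d)^[k] n ∈ A}

/-- the tilt of the pressure -/
noncomputable def zp (p : ℕ) (θ : ℝ) : ℝ := 1 / (1 + (p : ℝ) ^ (-θ))

/-- `½ (2^θ + (2/p)^θ)` -/
noncomputable def MM (p : ℕ) (θ : ℝ) : ℝ := 1 / 2 * ((2 : ℝ) ^ θ + (2 / p : ℝ) ^ θ)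

/-- the sum of `n ^ (θ - 1)` over the level -/
noncomputable def PrS (p : ℕ) (d : ℤ) (A : Set ℤ) (θ : ℝ) (k : ℕ) : ℝ :=
  ∑ᶠ n ∈ LM p d A k, (n : ℝ) ^ (θ - 1)

/-- LEVU: the levels are finite; upper bounds for the numbers of their small and large members -/
def S_LEVU : Prop := ∀ (p : ℕ) (d : ℤ), Adm p d → ∀ (A : Set ℤ) (c : ℤ), (∀ y ∈ A, y ≤ c) →
  (∀ k : ℕ, (LM p d A k).Finite) ∧
  ∀ z : ℝ, Q p z → ∀ ρ : ℝ, 0 ≤ ρ → ∀ ε : ℝ, 0 < ε → ∃ k₀ : ℕ, ∀ k : ℕ, k₀ ≤ k →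
    (1 ≤ tt p z →
      (({n : ℤ | n ∈ LM p d A k ∧ Real.log n ≤ (Real.log 2 - ρ * Real.log p) * k}.ncard : ℕ) : ℝ) ≤
        Real.exp ((php p ρ z + ε) * k)) ∧
    (tt p z ≤ 1 →
      (({n : ℤ | n ∈ LM p d A k ∧ (Real.log 2 - ρ * Real.log p) * k ≤ Real.log n}.ncard : ℕ) : ℝ) ≤
        Real.exp ((php p ρ z + ε) * k))

/-- LEVL: lower bound for the number of the members of a level of a given size -/
def S_LEVL : Prop := ∀ (p : ℕ) (d : ℤ), Adm p d → ∀ (A : Set ℤ) (c : ℤ), (∀ y ∈ A, y ≤ c) →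
  ∀ m : ℤ, 1 ≤ m → ¬ (p : ℤ) ∣ m → m ∈ A →
  ∀ r : ℝ, 0 < r → r < 1 → 0 < Fp p r → r * Real.log p < Real.log 2 → ∀ δ : ℝ, 0 < δ →
    ∃ k₀ : ℕ, ∀ k : ℕ, k₀ ≤ k → ∃ F : Finset ℤ, Real.exp ((Fp p r - δ) * k) ≤ (F.card : ℝ) ∧
      ∀ n ∈ F, n ∈ LM p d A k ∧ |Real.log n - (Real.log 2 - r * Real.log p) * k| ≤ δ * k

/-- PRU: upper bound for the pressure -/
def S_PRU : Prop := ∀ (p : ℕ) (d : ℤ), Adm p d → ∀ (A : Set ℤ) (c : ℤ), (∀ y ∈ A, y ≤ c) →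
  ∀ θ : ℝ, Q p (zp p θ) → ∀ ε : ℝ, 0 < ε → ∃ k₀ : ℕ, ∀ k : ℕ, k₀ ≤ k →
    PrS p d A θ k ≤ Real.exp ((Real.log (MM p θ) + ε) * k)

/-- PRU0: the trivial upper bound for `θ = 0` -/
def S_PRU0 : Prop := ∀ (p : ℕ) (d : ℤ), Adm p d → ∀ (A : Set ℤ) (c : ℤ), (∀ y ∈ A, y ≤ c) →
  ∀ ε : ℝ, 0 < ε → ∃ k₀ : ℕ, ∀ k : ℕ, k₀ ≤ k → PrS p d A 0 k ≤ Real.exp (ε * k)

/-- PRL: lower bound for the pressure -/
def S_PRL : Prop := ∀ (p : ℕ) (d : ℤ), Adm p d → ∀ (A : Set ℤ) (c : ℤ), (∀ y ∈ A, y ≤ c) →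
  ∀ m : ℤ, 1 ≤ m → ¬ (p : ℤ) ∣ m → m ∈ A →
  ∀ θ : ℝ, 0 < Fp p (1 - zp p θ) → (1 - zp p θ) * Real.log p < Real.log 2 →
    ∀ ε : ℝ, 0 < ε → ∃ k₀ : ℕ, ∀ k : ℕ, k₀ ≤ k →
      Real.exp ((Real.log (MM p θ) - ε) * k) ≤ PrS p d A θ k

/-- CNTU: upper bound for the number of the `n ≤ x` which reach `(-∞, c]` fast -/
def S_CNTU : Prop := ∀ (p : ℕ) (d : ℤ), Adm p d → ∀ z : ℝ, Q p z → ∀ α : ℝ, 1 / Real.log 2 < α →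
  α * php p (rp p α) z < 1 → ∀ c : ℤ, ∀ ε : ℝ, 0 < ε → ∃ X₀ : ℝ, 1 ≤ X₀ ∧ ∀ x : ℝ, X₀ ≤ x →
    ∀ F : Finset ℤ, (∀ n ∈ F, 1 ≤ n ∧ (n : ℝ) ≤ x ∧ ∃ k : ℕ, (T p d)^[k] n ≤ c ∧
      (k : ℝ) ≤ α * Real.log n) → (F.card : ℝ) ≤ x ^ (α * php p (rp p α) z + ε)

end Pool.Agent.N685.FD
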