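import Pool.Agent.N685.FD.Stm5
import Pool.Agent.N685.FD.Stm4
import Pool.Agent.H366R2.QA.Eta5

/-! Project FD: the exponents for `p = 5`. -/

set_option autoImplicit false
set_option linter.unusedVariables false

namespace Pool.Agent.N685.FD

open Finset Filter Topology

/-! ### General `p` -/

theorem php_eq {p : ℕ} (hp : p = 3 ∨ p = 5) {ρ : ℝ} (h0 : 0 < ρ) (h1 : ρ < 1) :
    php p ρ (1 - ρ) = Fp p ρ := by
  have h2 : 0 < 1 - ρ := by linarith
  have hp0 : (0 : ℝ) < p := lt_trans one_pos (UL.p_facts hp).1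
  unfold php Fp tt Real.binEntropy
  have e1 : (p : ℝ) * (1 - (1 - ρ)) / (1 - ρ) = p * ρ / (1 - ρ) := by ring_nf
  rw [e1, Real.log_div (by positivity) h2.ne', Real.log_mul hp0.ne' h0.ne', Real.log_inv,
    Real.log_inv]
  ring

theorem php_cont {p : ℕ} (hp : p = 3 ∨ p = 5) {ρ z₀ : ℝ} (h0 : 0 < z₀) (h1 : z₀ < 1) :
    ContinuousAt (php p ρ) z₀ := by
  have hp0 : (0 : ℝ) < p := lt_trans one_pos (UL.p_facts hp).1
  have h2 : (p : ℝ) * (1 - z₀) / z₀ ≠ 0 := by
    have : 0 < 1 - z₀ := by linarith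
    positivity
  unfold php tt
  refine ContinuousAt.add (Real.continuousAt_log h0.ne').neg ?_
  refine ContinuousAt.mul continuousAt_const ?_
  refine ContinuousAt.neg ?_
  refine ContinuousAt.log ?_ h2
  refine ContinuousAt.div ?_ continuousAt_id h0.ne'
  fun_prop

/-- Gibbs' inequality -/
theorem Fp_le_php {p : ℕ} (hp : p = 3 ∨ p = 5) {ρ z : ℝ} (h0 : 0 < ρ) (h1 : ρ < 1) (hz0 : 0 < z)
    (hz1 : z < 1) : Fp p ρ ≤ php p ρ z := by
  have hp0 : (0 : ℝ) < p := lt_trans one_pos (UL.p_facts hp).1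
  have h1r : 0 < 1 - ρ := by linarith
  have h1z : 0 < 1 - z := by linarith
  have hconc := strictConcaveOn_log_Ioi.concaveOn.2
    (show (z / (1 - ρ)) ∈ Set.Ioi (0 : ℝ) from div_pos hz0 h1r)
    (show ((1 - z) / ρ) ∈ Set.Ioi (0 : ℝ) from div_pos h1z h0)
    h1r.le h0.le (by ring)
  simp only [smul_eq_mul] at hconc
  have e1 : (1 - ρ) * (z / (1 - ρ)) + ρ * ((1 - z) / ρ) = 1 := by
    field_simp
    ring
  rw [e1, Real.log_one, Real.log_div hz0.ne' h1r.ne', Real.log_div h1z.ne' h0.ne'] at hconc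
  unfold php Fp tt Real.binEntropy
  rw [Real.log_div (by positivity) hz0.ne', Real.log_mul hp0.ne' h1z.ne', Real.log_inv,
    Real.log_inv]
  linarith

theorem Fp_cont (p : ℕ) : Continuous (Fp p) := by
  unfold Fp
  fun_prop

/-- strict concavity -/
theorem Fp_pos_of {p : ℕ} {r r' : ℝ} (h0 : 0 < r) (h1 : r < r') (h2 : r' ≤ 1) (h : 0 ≤ Fp p r') :
    0 < Fp p r := by
  have hr' : 0 < r' := h0.trans h1
  have ht0 : 0 < r / r' := div_pos h0 hr'
  have ht1 : r / r' < 1 := (div_lt_one hr').2 h1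
  have hc := Real.strictConcave_binEntropy.2 (show (0 : ℝ) ∈ Set.Icc (0 : ℝ) 1 by simp)
    (show r' ∈ Set.Icc (0 : ℝ) 1 from ⟨hr'.le, h2⟩) hr'.ne
    (show 0 < 1 - r / r' by linarith) ht0 (by ring)
  simp only [smul_eq_mul, mul_zero, zero_add, Real.binEntropy_zero] at hc
  have e1 : r / r' * r' = r := by field_simp
  rw [e1] at hc
  unfold Fp at h ⊢
  have h3 : 0 ≤ r / r' * (Real.binEntropy r' - r' * Real.log p) := mul_nonneg ht0.le h
  have h4 : r / r' * (Real.binEntropy r' - r' * Real.log p) =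
      r / r' * Real.binEntropy r' - r * Real.log p := by
    field_simp
  linarith

/-! ### `p = 5` -/

/-- the constant `η₅`: its defining properties -/
def IsEta (η : ℝ) : Prop := 0.6509 < η ∧ η < 0.65095 ∧ (2 : ℝ) ^ η = 1 + 5 ^ (η - 1)

namespace Five

/-- the critical tilt -/
noncomputable def z0 (η : ℝ) : ℝ := 2 ^ (-η)

/-- the critical slope `9.19…` -/
noncomputable def kap (η : ℝ) : ℝ := 1 / (Real.log 2 - (1 - (2 : ℝ) ^ (-η)) * Real.log 5)

theorem z0_pos (η : ℝ) : 0 < z0 η := by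
  unfold z0
  positivity

theorem z0_lt {η : ℝ} (h : 0 < η) : z0 η < 1 := by
  unfold z0
  exact Real.rpow_lt_one_of_one_lt_of_neg (by norm_num) (by linarith)

theorem z0_bounds {η : ℝ} (h : IsEta η) : 0.63 < z0 η ∧ z0 η < 0.64 := by
  obtain ⟨h1, h2, h3⟩ := h
  constructor
  · have h4 : (2 : ℝ) ^ η < 1.58 := by
      have h5 : (2 : ℝ) ^ η < 2 ^ (((659 : ℕ) : ℝ) / ((1000 : ℕ) : ℝ)) :=
        Real.rpow_lt_rpow_of_exponent_lt (by norm_num) (by push_cast; linarith)
      have h6 : (2 : ℝ) ^ (((659 : ℕ) : ℝ) / ((1000 : ℕ) : ℝ)) ≤ 1.58 := by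
        have h7 : (2 : ℝ) ^ (((659 : ℕ) : ℝ) / ((1000 : ℕ) : ℝ)) < 2 ^ (((29 : ℕ) : ℝ) / ((44 : ℕ) : ℝ)) :=
          Real.rpow_lt_rpow_of_exponent_lt (by norm_num) (by norm_num)
        have h8 : (2 : ℝ) ^ (((29 : ℕ) : ℝ) / ((44 : ℕ) : ℝ)) < 1.58 :=
          Pool.Agent.H366R2.QA.rpow_lt_of_pow (by norm_num) (by norm_num) (by norm_num) (by norm_num)
        linarith
      linarith
    unfold z0
    rw [Real.rpow_neg (by norm_num)]
    have h5 : (0 : ℝ) < 2 ^ η := by positivity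
    rw [lt_inv_comm₀ (by norm_num) h5]
    refine h4.trans ?_
    norm_num
  · have h4 : (1.565 : ℝ) < 2 ^ η := by
      have h5 : (2 : ℝ) ^ (((13 : ℕ) : ℝ) / ((20 : ℕ) : ℝ)) < 2 ^ η :=
        Real.rpow_lt_rpow_of_exponent_lt (by norm_num) (by push_cast; linarith)
      have h6 : (1.565 : ℝ) < (2 : ℝ) ^ (((13 : ℕ) : ℝ) / ((20 : ℕ) : ℝ)) :=
        Pool.Agent.H366R2.QA.lt_rpow_of_pow (by norm_num) (by norm_num) (by norm_num) (by norm_num)
      linarith
    unfold z0
    rw [Real.rpow_neg (by norm_num)]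
    have h5 : (0 : ℝ) < 2 ^ η := by positivity
    rw [inv_lt_comm₀ h5 (by norm_num)]
    refine lt_trans ?_ h4
    norm_num

theorem log_z0 (η : ℝ) : Real.log (z0 η) = -(η * Real.log 2) := by
  unfold z0
  rw [Real.log_rpow (by norm_num)]
  ring

theorem tt_z0 {η : ℝ} (h : IsEta η) : tt 5 (z0 η) = 5 ^ η := by
  obtain ⟨h1, h2, h3⟩ := h
  unfold tt z0
  have h4 : (0 : ℝ) < 2 ^ η := by positivity
  have e5 : (5 : ℝ) ^ η = 5 * 5 ^ (η - 1) := by
    rw [Real.rpow_sub (by norm_num), Real.rpow_one]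
    field_simp
  rw [Real.rpow_neg (by norm_num), e5]
  have e6 : (5 : ℝ) ^ (η - 1) = 2 ^ η - 1 := by linarith
  rw [e6]
  push_cast
  field_simp

theorem log_tt_z0 {η : ℝ} (h : IsEta η) : Real.log (tt 5 (z0 η)) = η * Real.log 5 := by
  rw [tt_z0 h, Real.log_rpow (by norm_num)]

/-- the auxiliary function -/
noncomputable def hh (z : ℝ) : ℝ :=
  (Real.log 2 - Real.log 5) * Real.log z - Real.log 2 * Real.log (1 - z) - Real.log 2 * Real.log 5

theorem Q_iff {z : ℝ} (h0 : 0 < z) (h1 : z < 1) : Q 5 z ↔ 0 < hh z := by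
  have h2 : 0 < 1 - z := by linarith
  have e : Real.log (tt 5 z) = Real.log 5 + Real.log (1 - z) - Real.log z := by
    unfold tt
    rw [Real.log_div (by positivity) h0.ne', Real.log_mul (by norm_num) h2.ne']
    norm_num
  unfold Q hh
  rw [e, one_div, Real.log_inv]
  push_cast
  constructor
  · rintro ⟨-, -, h⟩
    nlinarith
  · intro h
    refine ⟨h0, h1, ?_⟩
    nlinarith

theorem hh_half : hh (1 / 2) = 0 := by
  unfold hh
  have : (1 : ℝ) - 1 / 2 = 1 / 2 := by norm_num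
  rw [this, one_div, Real.log_inv]
  ring

theorem hh_z0 {η : ℝ} (h : IsEta η) : hh (z0 η) = 0 := by
  have h0 := z0_pos η
  have h1 : z0 η < 1 := z0_lt (by linarith [h.1])
  have h2 : 0 < 1 - z0 η := by linarith
  have e : Real.log (tt 5 (z0 η)) = Real.log 5 + Real.log (1 - z0 η) - Real.log (z0 η) := by
    unfold tt
    rw [Real.log_div (by positivity) h0.ne', Real.log_mul (by norm_num) h2.ne']
    norm_num
  rw [log_tt_z0 h] at e
  unfold hh
  rw [log_z0] at e ⊢
  have e2 : Real.log (1 - z0 η) = η * Real.log 5 - Real.log 5 - η * Real.log 2 := by linarith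
  rw [e2]
  ring

theorem q_five {η : ℝ} (h : IsEta η) {z : ℝ} (hz : z0 η < z) (hz1 : z < 1) : Q 5 z := by
  have hb := (z0_bounds h).1
  have h0 : 0 < z := lt_trans (z0_pos η) hz
  rw [Q_iff h0 hz1]
  obtain ⟨t, ht⟩ : ∃ t : ℝ, t = (z0 η - 1 / 2) / (z - 1 / 2) := ⟨_, rfl⟩
  have hz12 : 0 < z - 1 / 2 := by linarith
  have ht0 : 0 < t := by
    rw [ht]
    apply div_pos _ hz12
    linarith
  have ht1 : t < 1 := by
    rw [ht, div_lt_one hz12]
    linarith
  have hconv : (1 - t) * (1 / 2) + t * z = z0 η := by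
    have : t * (z - 1 / 2) = z0 η - 1 / 2 := by
      rw [ht]
      exact div_mul_cancel₀ _ hz12.ne'
    linarith
  have hne : (1 / 2 : ℝ) ≠ z := by
    intro hh
    rw [← hh] at hz12
    linarith
  have c1 := strictConcaveOn_log_Ioi.2 (show (1 / 2 : ℝ) ∈ Set.Ioi (0 : ℝ) by norm_num)
    (show z ∈ Set.Ioi (0 : ℝ) from h0) hne (show 0 < 1 - t by linarith) ht0 (by ring)
  have c2 := strictConcaveOn_log_Ioi.2 (show (1 / 2 : ℝ) ∈ Set.Ioi (0 : ℝ) by norm_num)
    (show 1 - z ∈ Set.Ioi (0 : ℝ) by simp only [Set.mem_Ioi]; linarith) (by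
      intro hh
      apply hne
      linarith) (show 0 < 1 - t by linarith) ht0 (by ring)
  simp only [smul_eq_mul] at c1 c2
  rw [hconv] at c1
  have hconv2 : (1 - t) * (1 / 2) + t * (1 - z) = 1 - z0 η := by linarith
  rw [hconv2] at c2
  have h25 : Real.log 2 < Real.log 5 := Real.log_lt_log (by norm_num) (by norm_num)
  have hl2 : 0 < Real.log 2 := Real.log_pos (by norm_num)
  have e1 := hh_half
  have e2 := hh_z0 h
  unfold hh at e1 e2 ⊢
  have e12 : (1 : ℝ) - 1 / 2 = 1 / 2 := by norm_num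
  rw [e12] at e1
  have c3 : (Real.log 2 - Real.log 5) * Real.log (z0 η) <
      (Real.log 2 - Real.log 5) * ((1 - t) * Real.log (1 / 2) + t * Real.log z) :=
    mul_lt_mul_of_neg_left c1 (by linarith)
  have c4 : -Real.log 2 * Real.log (1 - z0 η) <
      -Real.log 2 * ((1 - t) * Real.log (1 / 2) + t * Real.log (1 - z)) :=
    mul_lt_mul_of_neg_left c2 (by linarith)
  have c5 : 0 < t * ((Real.log 2 - Real.log 5) * Real.log z - Real.log 2 * Real.log (1 - z) -
      Real.log 2 * Real.log 5) := by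
    have c6 : (1 - t) * ((Real.log 2 - Real.log 5) * Real.log (1 / 2) -
      Real.log 2 * Real.log (1 / 2) - Real.log 2 * Real.log 5) = 0 := by rw [e1, mul_zero]
    nlinarith
  exact (pos_iff_pos_of_mul_pos c5).1 ht0

theorem php_z0 {η : ℝ} (h : IsEta η) (ρ : ℝ) :
    php 5 ρ (z0 η) = η * (Real.log 2 - ρ * Real.log 5) := by
  unfold php
  rw [log_tt_z0 h, log_z0]
  ring

theorem ratio {α : ℝ} (hα : 1 / Real.log 2 < α) : Real.log 2 - rp 5 α * Real.log 5 = 1 / α := by
  have h := UL.rp_spec (p := 5) (Or.inr rfl) α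
  push_cast at h
  linarith

theorem php_rp {η : ℝ} (h : IsEta η) {α : ℝ} (hα : 1 / Real.log 2 < α) :
    α * php 5 (rp 5 α) (z0 η) = η := by
  have hl2 : 0 < Real.log 2 := Real.log_pos (by norm_num)
  have hα0 : 0 < α := lt_trans (by positivity) hα
  rw [php_z0 h, ratio hα]
  field_simp

/-- the upper bounds reach `η₅`, for all `α` -/
theorem tight {η : ℝ} (h : IsEta η) {α : ℝ} (hα : 1 / Real.log 2 < α) : Tight 5 α η := by
  intro ε hε
  have hl2 : 0 < Real.log 2 := Real.log_pos (by norm_num)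
  have hα0 : 0 < α := lt_trans (by positivity) hα
  have hz1 : z0 η < 1 := z0_lt (by linarith [h.1])
  have hc : ContinuousAt (fun z => α * php 5 (rp 5 α) z) (z0 η) :=
    (php_cont (Or.inr rfl) (z0_pos η) hz1).const_mul α
  have h2 : ∀ᶠ z in 𝓝[>] (z0 η), α * php 5 (rp 5 α) z < η + ε := by
    refine (hc.mono_left nhdsWithin_le_nhds).eventually (gt_mem_nhds ?_)
    have := php_rp h hα
    simp only
    linarith
  have h3 : ∀ᶠ z in 𝓝[>] (z0 η), z < 1 :=
    (gt_mem_nhds hz1).filter_mono nhdsWithin_le_nhds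
  obtain ⟨z, hz2, hz3, hz4⟩ := (h2.and (h3.and self_mem_nhdsWithin)).exists
  exact ⟨z, q_five h hz4 hz3, hz2.le⟩

theorem log_five_bounds : (1.609 : ℝ) < Real.log 5 ∧ Real.log 5 < 1.61 := by
  constructor
  · rw [Real.lt_log_iff_exp_lt (by norm_num)]
    have h1 : Real.exp (1.609 : ℝ) = Real.exp 1 * Real.exp 0.609 := by
      rw [← Real.exp_add]
      norm_num
    have h2 := Real.exp_one_lt_d9
    have h3 : Real.exp (0.609 : ℝ) < 1.8387 := by
      have h4 := Real.exp_bound' (x := 0.609) (by norm_num) (by norm_num) (n := 8) (by norm_num)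
      refine lt_of_le_of_lt h4 ?_
      norm_num [Finset.sum_range_succ, Nat.factorial]
    rw [h1]
    have h5 := Real.exp_pos (0.609 : ℝ)
    nlinarith
  · rw [Real.log_lt_iff_lt_exp (by norm_num)]
    have h1 : Real.exp (1.61 : ℝ) = Real.exp 1 * Real.exp 0.61 := by
      rw [← Real.exp_add]
      norm_num
    have h2 := Real.exp_one_gt_d9
    have h3 : (1.8404 : ℝ) < Real.exp (0.61 : ℝ) := by
      refine lt_of_lt_of_le ?_ (Real.sum_le_exp_of_nonneg (by norm_num) 8)
      norm_num [Finset.sum_range_succ, Nat.factorial]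
    rw [h1]
    have h5 := Real.exp_pos (0.61 : ℝ)
    nlinarith

theorem slope_bounds {η : ℝ} (h : IsEta η) :
    0.095 < Real.log 2 - (1 - z0 η) * Real.log 5 ∧
      Real.log 2 - (1 - z0 η) * Real.log 5 < Real.log 2 := by
  have h1 := z0_bounds h
  have h2 := log_five_bounds
  have h3 := Real.log_two_gt_d9
  constructor
  · nlinarith
  · nlinarith

theorem kap_pos {η : ℝ} (h : IsEta η) : 0 < kap η := by
  have h1 := (slope_bounds h).1
  unfold z0 at h1
  unfold kap
  apply one_div_pos.2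
  linarith

theorem kap_gt {η : ℝ} (h : IsEta η) : 1 / Real.log 2 < kap η := by
  have h1 := slope_bounds h
  unfold z0 at h1
  unfold kap
  exact one_div_lt_one_div_of_lt (by linarith) h1.2

theorem rp_kap {η : ℝ} (h : IsEta η) : rp 5 (kap η) = 1 - z0 η := by
  have h1 := slope_bounds h
  unfold z0 at h1
  have h2 := ratio (kap_gt h)
  have h3 : 1 / kap η = Real.log 2 - (1 - z0 η) * Real.log 5 := by
    unfold kap z0
    rw [one_div_one_div]
  rw [h3] at h2
  have hl5 : 0 < Real.log 5 := Real.log_pos (by norm_num)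
  have h4 : rp 5 (kap η) * Real.log 5 = (1 - z0 η) * Real.log 5 := by linarith
  exact mul_right_cancel₀ hl5.ne' h4

theorem rp_mono {α α' : ℝ} (h0 : 0 < α) (h : α < α') : rp 5 α < rp 5 α' := by
  unfold rp
  have hl5 : 0 < Real.log ((5 : ℕ) : ℝ) := Real.log_pos (by norm_num)
  apply div_lt_div_of_pos_right _ hl5
  have : 1 / α' < 1 / α := one_div_lt_one_div_of_lt h0 h
  linarith

theorem ex_kap {η : ℝ} (h : IsEta η) : ex 5 (kap η) = η := by
  have hz0 := z0_pos η
  have hz1 : z0 η < 1 := z0_lt (by linarith [h.1])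
  unfold ex
  rw [rp_kap h, ← php_eq (Or.inr rfl) (by linarith) (by linarith)]
  have e : (1 : ℝ) - (1 - z0 η) = z0 η := by ring
  rw [e]
  have := php_rp h (kap_gt h)
  rwa [rp_kap h] at this

theorem rp_pos' {α : ℝ} (hα : 1 / Real.log 2 < α) : 0 < rp 5 α := UL.rp_pos (Or.inr rfl) hα

theorem rp_le {η : ℝ} (h : IsEta η) {α : ℝ} (hα : 1 / Real.log 2 < α) (hk : α ≤ kap η) :
    rp 5 α ≤ 1 - z0 η := by
  have hl2 : 0 < Real.log 2 := Real.log_pos (by norm_num)
  have hα0 : 0 < α := lt_trans (by positivity) hα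
  rcases hk.lt_or_eq with h1 | h1
  · rw [← rp_kap h]
    exact (rp_mono hα0 h1).le
  · rw [h1, rp_kap h]

theorem Fp_kap_pos {η : ℝ} (h : IsEta η) : 0 < Fp 5 (1 - z0 η) := by
  have h1 := ex_kap h
  unfold ex at h1
  rw [rp_kap h] at h1
  have h2 : 0 < kap η * Fp 5 (1 - z0 η) := by
    rw [h1]
    linarith [h.1]
  exact (pos_iff_pos_of_mul_pos h2).1 (kap_pos h)

theorem Fp_pos {η : ℝ} (h : IsEta η) {α : ℝ} (hα : 1 / Real.log 2 < α) (hk : α ≤ kap η) :
    0 < Fp 5 (rp 5 α) := by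
  have h1 := rp_le h hα hk
  rcases h1.lt_or_eq with h2 | h2
  · exact Fp_pos_of (rp_pos' hα) h2 (by linarith [z0_pos η]) (Fp_kap_pos h).le
  · rw [h2]
    exact Fp_kap_pos h

/-- for `α ≤ κ` the upper bounds reach the exponent of the lower bounds -/
theorem tight_low {η : ℝ} (h : IsEta η) {α : ℝ} (hα : 1 / Real.log 2 < α) (hk : α ≤ kap η) :
    Tight 5 α (ex 5 α) := by
  have h1 := rp_le h hα hk
  have hz0 := z0_pos η
  rcases h1.lt_or_eq with h2 | h2
  · intro ε hε
    refine ⟨1 - rp 5 α, q_five h (by linarith) (by linarith [rp_pos' hα]), ?_⟩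
    rw [php_eq (Or.inr rfl) (rp_pos' hα) (by linarith)]
    unfold ex
    linarith
  · have h3 : ex 5 α = η := by
      rcases hk.lt_or_eq with h4 | h4
      · exfalso
        have hl2 : 0 < Real.log 2 := Real.log_pos (by norm_num)
        have := rp_mono (lt_trans (by positivity) hα) h4
        rw [rp_kap h] at this
        linarith
      · rw [h4, ex_kap h]
    rw [h3]
    exact tight h hα

theorem ex_le {η : ℝ} (h : IsEta η) {α : ℝ} (hα : 1 / Real.log 2 < α) (hk : α ≤ kap η) :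
    ex 5 α ≤ η := by
  have hl2 : 0 < Real.log 2 := Real.log_pos (by norm_num)
  have hα0 : 0 < α := lt_trans (by positivity) hα
  have h1 := rp_le h hα hk
  have hz0 := z0_pos η
  have h2 := Fp_le_php (p := 5) (Or.inr rfl) (rp_pos' hα) (by linarith) hz0
    (z0_lt (by linarith [h.1]))
  have h3 := mul_le_mul_of_nonneg_left h2 hα0.le
  rw [php_rp h hα] at h3
  exact h3

theorem ex_pos {η : ℝ} (h : IsEta η) {α : ℝ} (hα : 1 / Real.log 2 < α) (hk : α ≤ kap η) :
    0 < ex 5 α := by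
  have hl2 : 0 < Real.log 2 := Real.log_pos (by norm_num)
  have hα0 : 0 < α := lt_trans (by positivity) hα
  exact mul_pos hα0 (Fp_pos h hα hk)

end Five

end Pool.Agent.N685.FD
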