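import Pool.Agent.N685.FD.Stm8
import Pool.Agent.N685.FD.Hit
import Pool.Agent.N685.FD.Five

/-!
PROJECT FD (helper685), part 8, leaf BIVU (helper803): the upper bound in the bivariate law.
-/

set_option autoImplicit false

namespace Pool.Agent.N685.FD.Bivu

/-- finitely many tilts suffice -/
theorem core {Z : Type} (N : ℕ → ℕ → ℝ) (a b : Z → ℝ) (Q : Z → Prop) (F : ℝ → ℝ)
    (hF : Continuous F) {η ρ₁ : ℝ}
    (h1 : ∀ z, Q z → ∀ ε : ℝ, 0 < ε → ∃ C : ℝ, 0 < C ∧ ∀ k o : ℕ,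
      N k o ≤ C * Real.exp (ε * k + k * a z + o * b z))
    (h2 : ∀ ρ : ℝ, η ≤ ρ → ρ ≤ ρ₁ → ∀ ε : ℝ, 0 < ε → ∃ z, Q z ∧ a z + ρ * b z ≤ F ρ + ε)
    (ε : ℝ) (hε : 0 < ε) :
    ∃ k₀ : ℕ, ∀ k : ℕ, k₀ ≤ k → ∀ o : ℕ, η * k ≤ o → (o : ℝ) ≤ ρ₁ * k →
      N k o ≤ Real.exp ((F ((o : ℝ) / k) + ε) * k) := by
  have key : ∃ k₀ : ℕ, ∀ k : ℕ, k₀ ≤ k → 0 < k → ∀ o : ℕ, (o : ℝ) / k ∈ Set.Icc η ρ₁ →
      N k o ≤ Real.exp ((F ((o : ℝ) / k) + ε) * k) := by
    refine (isCompact_Icc (a := η) (b := ρ₁)).induction_on (p := fun s => ∃ k₀ : ℕ, ∀ k : ℕ,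
      k₀ ≤ k → 0 < k → ∀ o : ℕ, (o : ℝ) / k ∈ s → N k o ≤ Real.exp ((F ((o : ℝ) / k) + ε) * k))
      ?_ ?_ ?_ ?_
    · exact ⟨0, fun k _ _ o ho => absurd ho (Set.notMem_empty _)⟩
    · rintro s t hst ⟨k₀, h⟩
      exact ⟨k₀, fun k hk hk0 o ho => h k hk hk0 o (hst ho)⟩
    · rintro s t ⟨k₀, h⟩ ⟨k₁, h'⟩
      refine ⟨max k₀ k₁, fun k hk hk0 o ho => ?_⟩
      rcases ho with ho | ho
      · exact h k ((le_max_left _ _).trans hk) hk0 o ho
      · exact h' k ((le_max_right _ _).trans hk) hk0 o ho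
    · intro ρ hρ
      obtain ⟨z, hz, hzF⟩ := h2 ρ hρ.1 hρ.2 (ε / 4) (by positivity)
      obtain ⟨C, hC, hN⟩ := h1 z hz (ε / 4) (by positivity)
      have hcont : Continuous fun r : ℝ => a z + r * b z - F r := by fun_prop
      have hopen : IsOpen {r : ℝ | a z + r * b z - F r < ε / 2} :=
        isOpen_lt hcont continuous_const
      refine ⟨{r : ℝ | a z + r * b z - F r < ε / 2}, mem_nhdsWithin_of_mem_nhds
        (hopen.mem_nhds ?_), ⌈Real.log C / (ε / 4)⌉₊, ?_⟩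
      · change a z + ρ * b z - F ρ < ε / 2
        linarith
      · intro k hk hk0 o ho
        have hk0' : (0 : ℝ) < k := by exact_mod_cast hk0
        have ho' : a z + (o : ℝ) / k * b z - F ((o : ℝ) / k) < ε / 2 := ho
        have hkC : Real.log C ≤ ε / 4 * k := by
          have h3 : Real.log C / (ε / 4) ≤ k := (Nat.le_ceil _).trans (by exact_mod_cast hk)
          rw [div_le_iff₀ (by positivity)] at h3
          linarith
        refine (hN k o).trans ?_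
        rw [← Real.exp_log hC, ← Real.exp_add]
        apply Real.exp_le_exp.2
        have h4 : (o : ℝ) * b z = (o : ℝ) / k * b z * k := by field_simp
        rw [h4]
        nlinarith
  obtain ⟨k₀, h⟩ := key
  refine ⟨max k₀ 1, fun k hk o ho1 ho2 => ?_⟩
  have hk1 : 0 < k := (le_max_right _ _).trans hk
  have hk0' : (0 : ℝ) < k := by exact_mod_cast hk1
  refine h k ((le_max_left _ _).trans hk) hk1 o ⟨?_, ?_⟩
  · rwa [le_div_iff₀ hk0']
  · rwa [div_le_iff₀ hk0']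

end Pool.Agent.N685.FD.Bivu

namespace Pool.Agent.N685.FD

/-- Part BIVU. -/
theorem t_BIVU : S_BIVU := by
  intro p d hA A c hc η ρ₁ hη H ε hε
  refine Bivu.core (fun k o => ((HT p d A k o).ncard : ℝ)) (fun z => -Real.log z)
    (fun z => -Real.log (tt p z)) (Q p) (Fp p) (Fp_cont p) ?_ ?_ ε hε
  · intro z hz ε' hε'
    obtain ⟨C, hC, h⟩ := hit_upper hA hz A hc hε'
    exact ⟨C, hC, fun k o => (h k o).2⟩
  · intro ρ h0 h1 ε' hε'
    exact H ρ h0 h1 ε' hε'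

end Pool.Agent.N685.FD
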