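import Pool.Agent.N685.FD.Stm7
import Pool.Agent.N685.FD.UL

/-!
# Project FD, part 7, file Chn: number of the starting points of chains of record pieces
-/

set_option autoImplicit false

namespace Pool.Agent.N685.FD

open Finset

namespace Chn

/-- the bound for one piece, uniform over a finite set of tilts -/
lemma unif {p : ℕ} {d : ℤ} (hA : Adm p d) (Z : Finset ℝ) (hZ : ∀ z ∈ Z, Q p z) :
    ∃ c₀ : ℤ, 1 ≤ c₀ ∧ ∀ c : ℤ, c₀ ≤ c → ∀ ε : ℝ, 0 < ε → ∃ C : ℝ, 1 ≤ C ∧
      ∀ z ∈ Z, ∀ (b : ℤ) (k o : ℕ) (F : Finset ℤ), 1 ≤ b → (∀ n ∈ F, Rc p d c k o n b) →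
        (F.card : ℝ) ≤ C * Real.exp (ε * k + lz p z k o) := by
  classical
  induction Z using Finset.induction_on with
  | empty => exact ⟨1, le_rfl, fun c _ ε _ => ⟨1, le_rfl, fun z hz => absurd hz (notMem_empty z)⟩⟩
  | insert z Z hz ih =>
    obtain ⟨c1, h1, k1⟩ := ih fun z hz => hZ z (mem_insert_of_mem hz)
    obtain ⟨c2, h2, k2⟩ := UL.at_upper hA (hZ z (mem_insert_self z Z))
    refine ⟨max c1 c2, le_trans h1 (le_max_left _ _), fun c hc ε hε => ?_⟩
    obtain ⟨C1, hC1, l1⟩ := k1 c ((le_max_left _ _).trans hc) ε hε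
    obtain ⟨C2, hC2, l2⟩ := k2 c ((le_max_right _ _).trans hc) ε hε
    refine ⟨max C1 C2, hC1.trans (le_max_left _ _), fun w hw b k o F hb hF => ?_⟩
    rcases mem_insert.1 hw with rfl | hw
    · refine (l2 b k o F hb hF).trans ?_
      unfold lz
      rw [← add_assoc]
      exact mul_le_mul_of_nonneg_right (le_max_right _ _) (Real.exp_pos _).le
    · refine (l1 w hw b k o F hb hF).trans ?_
      exact mul_le_mul_of_nonneg_right (le_max_left _ _) (Real.exp_pos _).le

end Chn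

theorem t_CHN : S_CHN := by
  classical
  intro p d hA Z hZ
  obtain ⟨c₀, h1, h2⟩ := Chn.unif hA Z hZ
  refine ⟨c₀, h1, fun c hc ε hε => ?_⟩
  obtain ⟨C, hC, h3⟩ := h2 c hc ε hε
  refine ⟨C, hC, fun L => ?_⟩
  induction L with
  | nil =>
    intro A F _ _ hF
    have hsub : F ⊆ A := by
      intro n hn
      obtain ⟨a, ha, h⟩ := hF n hn
      have : n = a := h
      rw [this]; exact ha
    simp only [List.length_nil, pow_zero, mul_one, List.map_nil, List.sum_nil, Real.exp_zero]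
    exact_mod_cast card_le_card hsub
  | cons q L ih =>
    intro A F hL hA1 hF
    have hex : ∀ n : ℤ, ∃ b : ℤ, n ∈ F → 1 ≤ b ∧ Rc p d c q.1 q.2.1 n b ∧
        ∃ a ∈ A, Chn p d c L b a := by
      intro n
      by_cases hn : n ∈ F
      · obtain ⟨a, ha, b, hb1, hb2, hb3⟩ := hF n hn
        exact ⟨b, fun _ => ⟨hb1, hb2, a, ha, hb3⟩⟩
      · exact ⟨0, fun h => absurd h hn⟩
    choose g hg using hex
    have hB : ((F.image g).card : ℝ) ≤ A.card * C ^ L.length *
        Real.exp ((L.map fun q => ε * q.1 + lz p q.2.2 q.1 q.2.1).sum) := by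
      refine ih A (F.image g) (fun q hq => hL q (List.mem_cons_of_mem _ hq)) hA1 fun b hb => ?_
      obtain ⟨n, hn, rfl⟩ := mem_image.1 hb
      exact (hg n hn).2.2
    have hcard : (F.card : ℝ) = ∑ b ∈ F.image g, ((F.filter fun n => g n = b).card : ℝ) := by
      exact_mod_cast card_eq_sum_card_image g F
    have hq : q.2.2 ∈ Z := hL q List.mem_cons_self
    have hpc : ∀ b ∈ F.image g, ((F.filter fun n => g n = b).card : ℝ) ≤
        C * Real.exp (ε * q.1 + lz p q.2.2 q.1 q.2.1) := by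
      intro b hb
      obtain ⟨n, hn, hnb⟩ := mem_image.1 hb
      refine h3 q.2.2 hq b q.1 q.2.1 _ (by rw [← hnb]; exact (hg n hn).1) fun m hm => ?_
      obtain ⟨hm1, hm2⟩ := mem_filter.1 hm
      rw [← hm2]
      exact (hg m hm1).2.1
    rw [List.length_cons, List.map_cons, List.sum_cons, Real.exp_add, hcard]
    refine (sum_le_card_nsmul _ _ _ hpc).trans ?_
    rw [nsmul_eq_mul]
    have hpos : 0 ≤ C * Real.exp (ε * q.1 + lz p q.2.2 q.1 q.2.1) := by positivity
    refine (mul_le_mul_of_nonneg_right hB hpos).trans (le_of_eq ?_)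
    rw [pow_succ]
    ring

end Pool.Agent.N685.FD
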