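import Pool.Agent.N685.FD.Hit
import Pool.Agent.N685.FT.Ht
import Pool.Agent.Y966.Ng.C

/-! Project FD: negative integers under the `3x+1` map which reach a given number for the first time
after given numbers of steps: upper bound, for frequencies of the odd steps up to one half. -/

set_option autoImplicit false
set_option linter.unusedVariables false

namespace Pool.Agent.N685.FD

open Finset Pool.Agent.H395R2.G3 Pool.Agent.Y966.LD

theorem adm_neg : Adm 3 (-1) := ⟨Or.inl rfl, by norm_num, by norm_num⟩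

theorem tt_three (z : ℝ) : tt 3 z = 3 * (1 - z) / z := by
  unfold tt
  norm_num

theorem q_three {z : ℝ} (h0 : 1 / 2 < z) (h1 : z < 1) : Q 3 z := by
  refine ⟨by linarith, h1, ?_⟩
  have h := FT.q_lt_one h0 h1
  have e : FT.tt z = tt 3 z := by rw [tt_three]; rfl
  rw [e] at h
  exact_mod_cast h

theorem T_neg (x : ℤ) : T 3 (-1) (-x) = -TZ x := by
  unfold T TZ
  split_ifs with h1 h2 h2
  · omega
  · omega
  · omega
  · push_cast
    omega

theorem T_neg_iter (k : ℕ) (x : ℤ) : (T 3 (-1))^[k] (-x) = -TZ^[k] x := by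
  induction k generalizing x with
  | zero => rfl
  | succ k ih => rw [Function.iterate_succ_apply, Function.iterate_succ_apply, T_neg, ih]

theorem oT_neg (k : ℕ) (x : ℤ) : oT 3 (-1) k (-x) = oc k x := by
  unfold oT oc
  congr 1
  ext i
  simp only [mem_filter, T_neg_iter]
  refine and_congr_right fun _ => ?_
  omega

/-- the negative `n` which reach `c` for the first time at the time `k`, after `o` odd steps -/
def Hn (c : ℤ) (k o : ℕ) : Set ℤ :=
  {n : ℤ | n < 0 ∧ TZ^[k] n = c ∧ oc k n = o ∧ ∀ i < k, TZ^[i] n ≠ c}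

theorem hn_upper (c : ℤ) {z : ℝ} (h0 : 1 / 2 < z) (h1 : z < 1) {ε : ℝ} (hε : 0 < ε) :
    ∃ C : ℝ, 0 < C ∧ ∀ (k o : ℕ), (Hn c k o).Finite ∧
      ((Hn c k o).ncard : ℝ) ≤ C * Real.exp (ε * k + k * (-Real.log z) +
        o * (-Real.log (3 * (1 - z) / z))) := by
  obtain ⟨C, hC, h⟩ := hit_upper adm_neg (q_three h0 h1) {-c} (c := -c)
    (fun y hy => by rw [Set.mem_singleton_iff] at hy; exact hy.le) hε
  refine ⟨C, hC, fun k o => ?_⟩
  obtain ⟨hfin, hle⟩ := h k o
  have hmaps : ∀ n ∈ Hn c k o, -n ∈ HT 3 (-1) {-c} k o := by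
    rintro n ⟨g1, g2, g3, g4⟩
    refine ⟨by omega, fun j hj => ?_, ?_, ?_⟩
    · rw [T_neg_iter, Set.mem_singleton_iff]
      have := g4 j hj
      omega
    · rw [T_neg_iter, g2]
      exact rfl
    · rw [oT_neg, g3]
  have hinj : Set.InjOn (fun n : ℤ => -n) (Hn c k o) := fun a _ b _ hab => neg_injective hab
  refine ⟨Set.Finite.of_injOn hmaps hinj hfin, ?_⟩
  rw [tt_three] at hle
  refine le_trans ?_ hle
  exact_mod_cast Set.ncard_le_ncard_of_injOn _ hmaps hinj hfin

end Pool.Agent.N685.FD
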