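import Pool.Agent.N685.FD.Asm2
import Pool.Agent.N685.FD.UL
import Pool.Agent.N685.FD.Hit

/-!
PROJECT FD (helper685), part 3: statements of the uniform lower bound.
-/

set_option autoImplicit false

namespace Pool.Agent.N685.FD

open Finset

/-- STEPS: a word is a piece of trajectory -/
def S_STEPS : Prop := ∀ (p : ℕ) (d : ℤ), Adm p d → ∀ (a : ℤ) (w : List ℕ), ok p d a w →
  (T p d)^[w.sum] (fin p d a w) = a ∧ oT p d w.sum (fin p d a w) = w.length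

/-- INJ: the endpoint determines the start (in a dyadic interval) and the word, for given length -/
def S_INJ : Prop := ∀ (p : ℕ) (d : ℤ), Adm p d → ∀ (y : ℝ) (a a' : ℤ) (w w' : List ℕ), 0 < y →
  y / 2 < a → (a : ℝ) ≤ y → y / 2 < a' → (a' : ℝ) ≤ y → ok p d a w → ok p d a' w' →
    above p d 0 a w → above p d 0 a' w' → w.length = w'.length →
      fin p d a w = fin p d a' w' → a = a' ∧ w = w'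

/-- ULB: the uniform lower bound, large `y` -/
def S_ULB : Prop := ∀ (p : ℕ) (d : ℤ), Adm p d → ∀ α : ℝ, 1 / Real.log 2 < α →
  0 < Fp p (rp p α) → ∀ ε : ℝ, 0 < ε → ∃ M₁ Λ₀ : ℝ, 1 ≤ M₁ ∧ 0 ≤ Λ₀ ∧ ∀ y : ℝ, M₁ ≤ y →
    ∀ x : ℝ, y * Real.exp Λ₀ ≤ x → ∃ F : Finset ℤ,
      (∀ n ∈ F, y < n ∧ (n : ℝ) ≤ x ∧ ∃ k : ℕ, 1 ≤ (T p d)^[k] n ∧ (((T p d)^[k] n : ℤ) : ℝ) ≤ y ∧
        (k : ℝ) ≤ α * (Real.log n - Real.log y)) ∧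
      y * (x / y) ^ (α * Fp p (rp p α) - ε) ≤ (F.card : ℝ)

/-- UCB: the lower bound for bounded `y`, with the target `m` -/
def S_UCB : Prop := ∀ (p : ℕ) (d : ℤ), Adm p d → ∀ α : ℝ, 1 / Real.log 2 < α →
  0 < Fp p (rp p α) → ∀ m : ℤ, 1 ≤ m → ¬ (p : ℤ) ∣ m → ∀ M : ℝ, 1 ≤ M → ∀ ε : ℝ, 0 < ε →
    ∃ X₀ : ℝ, 1 ≤ X₀ ∧ ∀ x : ℝ, X₀ ≤ x → ∃ F : Finset ℤ,
      (∀ n ∈ F, 1 ≤ n ∧ (m : ℝ) < n ∧ (n : ℝ) ≤ x ∧ ∃ k : ℕ, (T p d)^[k] n = m ∧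
        (∀ j < k, m < (T p d)^[j] n) ∧ (k : ℝ) ≤ α * (Real.log n - Real.log M)) ∧
      M * x ^ (α * Fp p (rp p α) - ε) ≤ (F.card : ℝ)

/-- UL: the uniform lower bound -/
def S_UL : Prop := ∀ (p : ℕ) (d : ℤ), Adm p d → ∀ α : ℝ, 1 / Real.log 2 < α →
  0 < Fp p (rp p α) → ∀ ε : ℝ, 0 < ε → ∃ Λ₀ : ℝ, 0 ≤ Λ₀ ∧ ∀ y : ℝ, 1 ≤ y →
    ∀ x : ℝ, y * Real.exp Λ₀ ≤ x → ∃ F : Finset ℤ,
      (∀ n ∈ F, y < n ∧ (n : ℝ) ≤ x ∧ ∃ k : ℕ, 1 ≤ (T p d)^[k] n ∧ (((T p d)^[k] n : ℤ) : ℝ) ≤ y ∧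
        (k : ℝ) ≤ α * (Real.log n - Real.log y)) ∧
      y * (x / y) ^ (α * Fp p (rp p α) - ε) ≤ (F.card : ℝ)

end Pool.Agent.N685.FD
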