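import Pool.Agent.N685.FD.Stm4
import Pool.Agent.N685.FD.Stm3
import Pool.Agent.N685.FD.NgU
import Pool.Agent.N685.FT.Main3

/-! Project FD: the maps `3x+d` on the integers of both signs: levels, pressure and counts of the first
hitting time of a finite set. -/

set_option autoImplicit false
set_option linter.unusedVariables false

namespace Pool.Agent.N685.FD

open Finset Filter Topology Pool.Agent.H395R2.G3 Pool.Agent.Y966.LD

namespace D3

theorem T_negg {d : ℤ} (hd : ¬ (2 : ℤ) ∣ d) (x : ℤ) : T 3 (-d) (-x) = -T 3 d x := by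
  unfold T
  split_ifs with h1 h2 h2
  · omega
  · omega
  · omega
  · push_cast
    omega

theorem iter_negg {d : ℤ} (hd : ¬ (2 : ℤ) ∣ d) (k : ℕ) (x : ℤ) :
    (T 3 (-d))^[k] (-x) = -(T 3 d)^[k] x := by
  induction k generalizing x with
  | zero => rfl
  | succ k ih => rw [Function.iterate_succ_apply, Function.iterate_succ_apply, T_negg hd, ih]

theorem adm_neg' {d : ℤ} (h : Adm 3 d) : Adm 3 (-d) := by
  refine ⟨h.1, fun h2 => h.2.1 ((Int.dvd_neg).1 h2), fun h2 => h.2.2 ((Int.dvd_neg).1 h2)⟩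

/-- the first time at which the trajectory of `n` is in `A` is `k` -/
def HA (d : ℤ) (A : Set ℤ) (n : ℤ) (k : ℕ) : Prop :=
  (∀ j < k, (T 3 d)^[j] n ∉ A) ∧ (T 3 d)^[k] n ∈ A

/-- the set `-A` -/
def ng (A : Set ℤ) : Set ℤ := {y | -y ∈ A}

theorem HA_neg {d : ℤ} (hd : ¬ (2 : ℤ) ∣ d) {A : Set ℤ} {n : ℤ} {k : ℕ} :
    HA (-d) (ng A) (-n) k ↔ HA d A n k := by
  unfold HA ng
  simp only [Set.mem_setOf_eq, iter_negg hd, neg_neg]

theorem mem_LM {d : ℤ} {A : Set ℤ} {n : ℤ} {k : ℕ} : n ∈ LM 3 d A k ↔ 1 ≤ n ∧ HA d A n k := Iff.rfl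

/-- the level: the `n ≠ 0` with first hitting time `k` of `A` -/
def Lvl (d : ℤ) (A : Set ℤ) (k : ℕ) : Set ℤ := {n : ℤ | n ≠ 0 ∧ HA d A n k}

theorem neg_mem {d : ℤ} (hd : ¬ (2 : ℤ) ∣ d) {A : Set ℤ} {n : ℤ} {k : ℕ} (hn : n < 0)
    (h : HA d A n k) : -n ∈ LM 3 (-d) (ng A) k := by
  rw [mem_LM]
  exact ⟨by omega, (HA_neg hd).2 h⟩

theorem of_neg_mem {d : ℤ} (hd : ¬ (2 : ℤ) ∣ d) {A : Set ℤ} {n : ℤ} {k : ℕ}
    (h : n ∈ LM 3 (-d) (ng A) k) : -n < 0 ∧ HA d A (-n) k := by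
  rw [mem_LM] at h
  refine ⟨by omega, ?_⟩
  have h2 := h.2
  rw [show n = -(-n) by ring, HA_neg hd] at h2
  exact h2

/-- the two halves of a set of integers of a level -/
theorem split_upper {d : ℤ} (hd : ¬ (2 : ℤ) ∣ d) {A : Set ℤ} {k : ℕ} (P : ℝ → Prop)
    (h1 : {n : ℤ | n ∈ LM 3 d A k ∧ P n}.Finite)
    (h2 : {n : ℤ | n ∈ LM 3 (-d) (ng A) k ∧ P n}.Finite) :
    {n : ℤ | n ≠ 0 ∧ HA d A n k ∧ P |(n : ℝ)|}.Finite ∧
    {n : ℤ | n ≠ 0 ∧ HA d A n k ∧ P |(n : ℝ)|}.ncard ≤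
      {n : ℤ | n ∈ LM 3 d A k ∧ P n}.ncard + {n : ℤ | n ∈ LM 3 (-d) (ng A) k ∧ P n}.ncard := by
  have hsub : {n : ℤ | n ≠ 0 ∧ HA d A n k ∧ P |(n : ℝ)|} ⊆
      {n : ℤ | n ∈ LM 3 d A k ∧ P n} ∪ (fun n : ℤ => -n) '' {n : ℤ | n ∈ LM 3 (-d) (ng A) k ∧ P n} := by
    rintro n ⟨hn0, hn1, hn2⟩
    rcases lt_or_gt_of_ne hn0 with hn | hn
    · right
      refine ⟨-n, ⟨neg_mem hd hn hn1, ?_⟩, by simp⟩
      have : (n : ℝ) < 0 := by exact_mod_cast hn
      rw [abs_of_neg this] at hn2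
      push_cast
      exact hn2
    · left
      refine ⟨⟨by omega, hn1⟩, ?_⟩
      have : (0 : ℝ) < n := by exact_mod_cast hn
      rwa [abs_of_pos this] at hn2
  have hfin := h1.union (h2.image (fun n : ℤ => -n))
  refine ⟨hfin.subset hsub, ?_⟩
  refine (Set.ncard_le_ncard hsub hfin).trans ((Set.ncard_union_le _ _).trans ?_)
  exact Nat.add_le_add_left (Set.ncard_image_le h2) _

theorem split_lower {d : ℤ} (hd : ¬ (2 : ℤ) ∣ d) {A : Set ℤ} {k : ℕ} (P : ℝ → Prop)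
    (hfin : {n : ℤ | n ≠ 0 ∧ HA d A n k ∧ P |(n : ℝ)|}.Finite) (F : Finset ℤ)
    (h : (∀ n ∈ F, n ∈ LM 3 d A k ∧ P n) ∨ (∀ n ∈ F, n ∈ LM 3 (-d) (ng A) k ∧ P n)) :
    F.card ≤ {n : ℤ | n ≠ 0 ∧ HA d A n k ∧ P |(n : ℝ)|}.ncard := by
  rcases h with h | h
  · rw [← Set.ncard_coe_finset]
    refine Set.ncard_le_ncard ?_ hfin
    intro n hn
    obtain ⟨h1, h2⟩ := h n hn
    have h3 := mem_LM.1 h1
    have : (0 : ℝ) < n := by exact_mod_cast (by omega : 0 < n)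
    refine ⟨by omega, h3.2, ?_⟩
    rwa [abs_of_pos this]
  · rw [← Set.ncard_coe_finset, ← Set.ncard_image_of_injective (F : Set ℤ) neg_injective]
    refine Set.ncard_le_ncard ?_ hfin
    rintro _ ⟨n, hn, rfl⟩
    obtain ⟨h1, h2⟩ := h n hn
    obtain ⟨h3, h4⟩ := of_neg_mem hd h1
    have h5 := (mem_LM.1 h1).1
    have : (0 : ℝ) < n := by exact_mod_cast (by omega : 0 < n)
    refine ⟨h3.ne, h4, ?_⟩
    push_cast
    rwa [abs_neg, abs_of_pos this]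

/-- `A` finite, with an element `m ≠ 0` prime to `3` -/
def Good (A : Set ℤ) : Prop := A.Finite ∧ ∃ m ∈ A, m ≠ 0 ∧ ¬ (3 : ℤ) ∣ m

theorem bdd {A : Set ℤ} (hA : A.Finite) : ∃ c : ℤ, (∀ y ∈ A, y ≤ c) ∧ (∀ y ∈ ng A, y ≤ c) := by
  obtain ⟨c, hc⟩ := hA.bddAbove
  obtain ⟨c', hc'⟩ := hA.bddBelow
  refine ⟨max c (-c'), fun y hy => (hc hy).trans (le_max_left _ _), fun y hy => ?_⟩
  have h1 : c' ≤ -y := hc' hy
  exact le_trans (by omega) (le_max_right c (-c'))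

theorem three_dvd {m : ℤ} : ((3 : ℕ) : ℤ) ∣ m ↔ (3 : ℤ) ∣ m := Iff.rfl

/-- the lower bound for one of the two signs -/
theorem lev_low (hL : S_LEVL) {d : ℤ} (hd : Adm 3 d) {A : Set ℤ} (hA : Good A) {r : ℝ} (h0 : 0 < r)
    (h1 : r < 1) (hF : 0 < Fp 3 r) (hr : r * Real.log 3 < Real.log 2) {δ : ℝ} (hδ : 0 < δ) :
    ∃ k₀ : ℕ, ∀ k : ℕ, k₀ ≤ k → ∃ F : Finset ℤ, Real.exp ((Fp 3 r - δ) * k) ≤ (F.card : ℝ) ∧
      ((∀ n ∈ F, n ∈ LM 3 d A k ∧ |Real.log n - (Real.log 2 - r * Real.log 3) * k| ≤ δ * k) ∨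
      (∀ n ∈ F, n ∈ LM 3 (-d) (ng A) k ∧
        |Real.log n - (Real.log 2 - r * Real.log 3) * k| ≤ δ * k)) := by
  obtain ⟨hfin, m, hm, hm0, hm3⟩ := hA
  obtain ⟨c, hc, hc'⟩ := bdd hfin
  have hr' : r * Real.log ((3 : ℕ) : ℝ) < Real.log 2 := by exact_mod_cast hr
  rcases lt_or_gt_of_ne hm0 with hneg | hpos
  · obtain ⟨k₀, h⟩ := hL 3 (-d) (adm_neg' hd) (ng A) c hc' (-m) (by omega)
      (fun h => hm3 ((Int.dvd_neg).1 h)) (by
        change -(-m) ∈ A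
        rwa [neg_neg]) r h0 h1 hF hr' δ hδ
    refine ⟨k₀, fun k hk => ?_⟩
    obtain ⟨F, hF1, hF2⟩ := h k hk
    exact ⟨F, hF1, Or.inr fun n hn => by
      have := hF2 n hn
      exact_mod_cast this⟩
  · obtain ⟨k₀, h⟩ := hL 3 d hd A c hc m (by omega) (fun h => hm3 h) hm r h0 h1 hF hr' δ hδ
    refine ⟨k₀, fun k hk => ?_⟩
    obtain ⟨F, hF1, hF2⟩ := h k hk
    exact ⟨F, hF1, Or.inl fun n hn => by
      have := hF2 n hn
      exact_mod_cast this⟩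

theorem Fp_three (r : ℝ) : Fp 3 r = FF r := by
  unfold Fp FF
  norm_num

theorem php_three (ρ z : ℝ) : php 3 ρ z = phi ρ z := by
  unfold php phi
  rw [tt_three]

theorem rp_three (α : ℝ) : rp 3 α = rr α := by
  unfold rp rr
  norm_num

theorem two_exp {a ε : ℝ} (hε : 0 < ε) : ∃ k₀ : ℕ, ∀ k : ℕ, k₀ ≤ k →
    2 * Real.exp ((a + ε / 2) * k) ≤ Real.exp ((a + ε) * k) := by
  obtain ⟨k₀, hk₀⟩ := exists_nat_ge (2 * Real.log 2 / ε)
  refine ⟨k₀, fun k hk => ?_⟩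
  have h1 : 2 * Real.log 2 / ε ≤ k := hk₀.trans (by exact_mod_cast hk)
  rw [div_le_iff₀ hε] at h1
  have e : (2 : ℝ) = Real.exp (Real.log 2) := (Real.exp_log (by norm_num)).symm
  nth_rewrite 1 [e]
  rw [← Real.exp_add]
  apply Real.exp_le_exp.2
  linarith

/-- the small members of the levels -/
def Sm (d : ℤ) (A : Set ℤ) (k : ℕ) (t : ℝ) : Set ℤ :=
  {n : ℤ | n ≠ 0 ∧ HA d A n k ∧ Real.log |(n : ℝ)| ≤ t * k}

/-- the large members of the levels -/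
def La (d : ℤ) (A : Set ℤ) (k : ℕ) (t : ℝ) : Set ℤ :=
  {n : ℤ | n ≠ 0 ∧ HA d A n k ∧ t * k ≤ Real.log |(n : ℝ)|}

theorem sm_upper (hU : S_LEVU) {d : ℤ} (hd : Adm 3 d) {A : Set ℤ} (hA : A.Finite) {ρ : ℝ}
    (h0 : 1 / 4 ≤ ρ) (h1 : ρ ≤ 1 / 2) {ε : ℝ} (hε : 0 < ε) : ∃ k₀ : ℕ, ∀ k : ℕ, k₀ ≤ k →
    ((Sm d A k (Real.log 2 - ρ * Real.log 3)).ncard : ℝ) ≤ Real.exp ((FF ρ + ε) * k) := by
  obtain ⟨c, hc, hc'⟩ := bdd hA
  obtain ⟨z, hz0, hz1, hz2, hz3, -⟩ := FT.exists_z (show 0 < ρ by linarith) h1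
    (show 0 < ε / 4 by positivity)
  have hz34 : z ≤ 3 / 4 := hz3 h0
  have htt : 1 ≤ tt 3 z := by
    rw [tt_three, le_div_iff₀ (by linarith)]
    linarith
  obtain ⟨hf1, hu1⟩ := hU 3 d hd A c hc
  obtain ⟨hf2, hu2⟩ := hU 3 (-d) (adm_neg' hd) (ng A) c hc'
  obtain ⟨k₁, hk₁⟩ := hu1 z (q_three hz0 hz1) ρ (by linarith) (ε / 4) (by positivity)
  obtain ⟨k₂, hk₂⟩ := hu2 z (q_three hz0 hz1) ρ (by linarith) (ε / 4) (by positivity)
  obtain ⟨k₃, hk₃⟩ := two_exp (a := FF ρ) hε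
  refine ⟨max k₁ (max k₂ k₃), fun k hk => ?_⟩
  have g1 := (hk₁ k ((le_max_left _ _).trans hk)).1 htt
  have g2 := (hk₂ k (((le_max_left _ _).trans (le_max_right _ _)).trans hk)).1 htt
  have g3 := hk₃ k (((le_max_right _ _).trans (le_max_right _ _)).trans hk)
  have hkn : (0 : ℝ) ≤ k := Nat.cast_nonneg k
  have h5 := (split_upper (d := d) hd.2.1 (A := A) (k := k)
    (fun s : ℝ => Real.log s ≤ (Real.log 2 - ρ * Real.log 3) * k)
    ((hf1 k).subset fun n hn => hn.1) ((hf2 k).subset fun n hn => hn.1)).2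
  have h6 : ((Sm d A k (Real.log 2 - ρ * Real.log 3)).ncard : ℝ) ≤
      Real.exp ((php 3 ρ z + ε / 4) * k) + Real.exp ((php 3 ρ z + ε / 4) * k) := by
    refine le_trans ?_ (add_le_add g1 g2)
    norm_cast
  have h7 : Real.exp ((php 3 ρ z + ε / 4) * k) ≤ Real.exp ((FF ρ + ε / 2) * k) := by
    apply Real.exp_le_exp.2
    apply mul_le_mul_of_nonneg_right _ hkn
    rw [php_three]
    linarith
  linarith

theorem la_upper (hU : S_LEVU) {d : ℤ} (hd : Adm 3 d) {A : Set ℤ} (hA : A.Finite) {ρ : ℝ}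
    (h0 : 0 < ρ) (h1 : ρ ≤ 1 / 4) {ε : ℝ} (hε : 0 < ε) : ∃ k₀ : ℕ, ∀ k : ℕ, k₀ ≤ k →
    ((La d A k (Real.log 2 - ρ * Real.log 3)).ncard : ℝ) ≤ Real.exp ((FF ρ + ε) * k) := by
  obtain ⟨c, hc, hc'⟩ := bdd hA
  obtain ⟨z, hz0, hz1, hz2, -, hz3⟩ := FT.exists_z h0 (by linarith)
    (show 0 < ε / 4 by positivity)
  have hz34 : 3 / 4 ≤ z := hz3 h1
  have htt : tt 3 z ≤ 1 := by
    rw [tt_three, div_le_one (by linarith)]
    linarith
  obtain ⟨hf1, hu1⟩ := hU 3 d hd A c hc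
  obtain ⟨hf2, hu2⟩ := hU 3 (-d) (adm_neg' hd) (ng A) c hc'
  obtain ⟨k₁, hk₁⟩ := hu1 z (q_three hz0 hz1) ρ h0.le (ε / 4) (by positivity)
  obtain ⟨k₂, hk₂⟩ := hu2 z (q_three hz0 hz1) ρ h0.le (ε / 4) (by positivity)
  obtain ⟨k₃, hk₃⟩ := two_exp (a := FF ρ) hε
  refine ⟨max k₁ (max k₂ k₃), fun k hk => ?_⟩
  have g1 := (hk₁ k ((le_max_left _ _).trans hk)).2 htt
  have g2 := (hk₂ k (((le_max_left _ _).trans (le_max_right _ _)).trans hk)).2 htt
  have g3 := hk₃ k (((le_max_right _ _).trans (le_max_right _ _)).trans hk)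
  have hkn : (0 : ℝ) ≤ k := Nat.cast_nonneg k
  have h5 := (split_upper (d := d) hd.2.1 (A := A) (k := k)
    (fun s : ℝ => (Real.log 2 - ρ * Real.log 3) * k ≤ Real.log s)
    ((hf1 k).subset fun n hn => hn.1) ((hf2 k).subset fun n hn => hn.1)).2
  have h6 : ((La d A k (Real.log 2 - ρ * Real.log 3)).ncard : ℝ) ≤
      Real.exp ((php 3 ρ z + ε / 4) * k) + Real.exp ((php 3 ρ z + ε / 4) * k) := by
    refine le_trans ?_ (add_le_add g1 g2)
    norm_cast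
  have h7 : Real.exp ((php 3 ρ z + ε / 4) * k) ≤ Real.exp ((FF ρ + ε / 2) * k) := by
    apply Real.exp_le_exp.2
    apply mul_le_mul_of_nonneg_right _ hkn
    rw [php_three]
    linarith
  linarith

theorem fin_all (hU : S_LEVU) {d : ℤ} (hd : Adm 3 d) {A : Set ℤ} (hA : A.Finite) (k : ℕ)
    (P : ℝ → Prop) : {n : ℤ | n ≠ 0 ∧ HA d A n k ∧ P |(n : ℝ)|}.Finite := by
  obtain ⟨c, hc, hc'⟩ := bdd hA
  obtain ⟨hf1, hu1⟩ := hU 3 d hd A c hc
  obtain ⟨hf2, hu2⟩ := hU 3 (-d) (adm_neg' hd) (ng A) c hc'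
  exact (split_upper (d := d) hd.2.1 (A := A) (k := k) P
    ((hf1 k).subset fun n hn => hn.1) ((hf2 k).subset fun n hn => hn.1)).1

theorem sm_lower (hU : S_LEVU) (hL : S_LEVL) {d : ℤ} (hd : Adm 3 d) {A : Set ℤ} (hA : Good A) {ρ : ℝ}
    (h0 : 1 / 4 ≤ ρ) (h1 : ρ ≤ 1 / 2) {ε : ℝ} (hε : 0 < ε) : ∃ k₀ : ℕ, ∀ k : ℕ, k₀ ≤ k →
    Real.exp ((FF ρ - ε) * k) ≤ ((Sm d A k (Real.log 2 - ρ * Real.log 3)).ncard : ℝ) := by
  have hl3 : 0 < Real.log 3 := Real.log_pos (by norm_num)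
  have hl23 : 1 / 2 * Real.log 3 < Real.log 2 := by
    have : Real.log 3 < 2 * Real.log 2 := by
      rw [show (2 : ℝ) * Real.log 2 = Real.log (2 ^ 2) by rw [Real.log_pow]; norm_num]
      exact Real.log_lt_log (by norm_num) (by norm_num)
    linarith
  have h2 : ∀ᶠ r in 𝓝[>] ρ, FF ρ - ε / 2 < FF r :=
    (FF_cont.continuousAt.mono_left nhdsWithin_le_nhds).eventually (lt_mem_nhds (by linarith))
  have h3 : ∀ᶠ r in 𝓝[>] ρ, r < 4771 / 7833 :=
    (gt_mem_nhds (lt_of_le_of_lt h1 FT.half_lt)).filter_mono nhdsWithin_le_nhds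
  have h4 : ∀ᶠ r in 𝓝[>] ρ, r < Real.log 2 / Real.log 3 := by
    refine (gt_mem_nhds ?_).filter_mono nhdsWithin_le_nhds
    rw [lt_div_iff₀ hl3]
    nlinarith
  obtain ⟨r, hr1, hr2, hr4, hr3⟩ := (h2.and (h3.and (h4.and self_mem_nhdsWithin))).exists
  have hr3' : ρ < r := hr3
  have hr0 : 0 < r := by linarith
  have hFr : 0 < FF r := FF_pos_of hr0 hr2 (by norm_num) FF_low.le
  have hrl : r * Real.log 3 < Real.log 2 := by
    rwa [lt_div_iff₀ hl3] at hr4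
  have hδ : 0 < min ((r - ρ) * Real.log 3) (ε / 2) := by
    have : 0 < r - ρ := by linarith
    positivity
  obtain ⟨k₀, hk₀⟩ := lev_low hL hd hA hr0 (by norm_num at hr2; linarith)
    (by rw [Fp_three]; exact hFr) hrl hδ
  refine ⟨k₀, fun k hk => ?_⟩
  obtain ⟨F, hF1, hF2⟩ := hk₀ k hk
  have hkn : (0 : ℝ) ≤ k := Nat.cast_nonneg k
  have e1 : min ((r - ρ) * Real.log 3) (ε / 2) * k ≤ (r - ρ) * Real.log 3 * k :=
    mul_le_mul_of_nonneg_right (min_le_left _ _) hkn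
  have key : ∀ s : ℝ, |s - (Real.log 2 - r * Real.log 3) * k| ≤
      min ((r - ρ) * Real.log 3) (ε / 2) * k → s ≤ (Real.log 2 - ρ * Real.log 3) * k := by
    intro s hs
    have := (abs_le.1 hs).2
    nlinarith
  have h5 := split_lower (d := d) hd.2.1 (A := A) (k := k)
    (fun s : ℝ => Real.log s ≤ (Real.log 2 - ρ * Real.log 3) * k)
    (fin_all hU hd hA.1 k (fun s : ℝ => Real.log s ≤ (Real.log 2 - ρ * Real.log 3) * k)) F (by
      rcases hF2 with h | h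
      · exact Or.inl fun n hn => ⟨(h n hn).1, key _ (h n hn).2⟩
      · exact Or.inr fun n hn => ⟨(h n hn).1, key _ (h n hn).2⟩)
  have h6 : (F.card : ℝ) ≤ ((Sm d A k (Real.log 2 - ρ * Real.log 3)).ncard : ℝ) :=
    (Nat.cast_le (α := ℝ)).2 h5
  refine le_trans ?_ (hF1.trans h6)
  apply Real.exp_le_exp.2
  apply mul_le_mul_of_nonneg_right _ hkn
  rw [Fp_three]
  have := min_le_right ((r - ρ) * Real.log 3) (ε / 2)
  linarith

theorem la_lower (hU : S_LEVU) (hL : S_LEVL) {d : ℤ} (hd : Adm 3 d) {A : Set ℤ} (hA : Good A) {ρ : ℝ}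
    (h0 : 0 < ρ) (h1 : ρ ≤ 1 / 4) {ε : ℝ} (hε : 0 < ε) : ∃ k₀ : ℕ, ∀ k : ℕ, k₀ ≤ k →
    Real.exp ((FF ρ - ε) * k) ≤ ((La d A k (Real.log 2 - ρ * Real.log 3)).ncard : ℝ) := by
  have hl3 : 0 < Real.log 3 := Real.log_pos (by norm_num)
  have hl23 : 1 / 2 * Real.log 3 < Real.log 2 := by
    have : Real.log 3 < 2 * Real.log 2 := by
      rw [show (2 : ℝ) * Real.log 2 = Real.log (2 ^ 2) by rw [Real.log_pow]; norm_num]
      exact Real.log_lt_log (by norm_num) (by norm_num)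
    linarith
  have h2 : ∀ᶠ r in 𝓝[<] ρ, FF ρ - ε / 2 < FF r :=
    (FF_cont.continuousAt.mono_left nhdsWithin_le_nhds).eventually (lt_mem_nhds (by linarith))
  have h3 : ∀ᶠ r in 𝓝[<] ρ, 0 < r :=
    (lt_mem_nhds h0).filter_mono nhdsWithin_le_nhds
  obtain ⟨r, hr1, hr2, hr3⟩ := (h2.and (h3.and self_mem_nhdsWithin)).exists
  have hr3' : r < ρ := hr3
  have hFr : 0 < FF r := FF_pos_of hr2 (show r < 4771 / 7833 by linarith) (by norm_num) FF_low.le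
  have hrl : r * Real.log 3 < Real.log 2 := by nlinarith
  have hδ : 0 < min ((ρ - r) * Real.log 3) (ε / 2) := by
    have : 0 < ρ - r := by linarith
    positivity
  obtain ⟨k₀, hk₀⟩ := lev_low hL hd hA hr2 (by linarith)
    (by rw [Fp_three]; exact hFr) hrl hδ
  refine ⟨k₀, fun k hk => ?_⟩
  obtain ⟨F, hF1, hF2⟩ := hk₀ k hk
  have hkn : (0 : ℝ) ≤ k := Nat.cast_nonneg k
  have e1 : min ((ρ - r) * Real.log 3) (ε / 2) * k ≤ (ρ - r) * Real.log 3 * k :=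
    mul_le_mul_of_nonneg_right (min_le_left _ _) hkn
  have key : ∀ s : ℝ, |s - (Real.log 2 - r * Real.log 3) * k| ≤
      min ((ρ - r) * Real.log 3) (ε / 2) * k → (Real.log 2 - ρ * Real.log 3) * k ≤ s := by
    intro s hs
    have := (abs_le.1 hs).1
    nlinarith
  have h5 := split_lower (d := d) hd.2.1 (A := A) (k := k)
    (fun s : ℝ => (Real.log 2 - ρ * Real.log 3) * k ≤ Real.log s)
    (fin_all hU hd hA.1 k (fun s : ℝ => (Real.log 2 - ρ * Real.log 3) * k ≤ Real.log s)) F (by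
      rcases hF2 with h | h
      · exact Or.inl fun n hn => ⟨(h n hn).1, key _ (h n hn).2⟩
      · exact Or.inr fun n hn => ⟨(h n hn).1, key _ (h n hn).2⟩)
  have h6 : (F.card : ℝ) ≤ ((La d A k (Real.log 2 - ρ * Real.log 3)).ncard : ℝ) :=
    (Nat.cast_le (α := ℝ)).2 h5
  refine le_trans ?_ (hF1.trans h6)
  apply Real.exp_le_exp.2
  apply mul_le_mul_of_nonneg_right _ hkn
  rw [Fp_three]
  have := min_le_right ((ρ - r) * Real.log 3) (ε / 2)
  linarith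

/-- the level sets -/
theorem levels (hU : S_LEVU) (hL : S_LEVL) {d : ℤ} (hd : Adm 3 d) {A : Set ℤ} (hA : Good A) :
    (∀ t : ℝ, Real.log (4 / 3) / 2 ≤ t → t ≤ Real.log (16 / 3) / 4 → ∀ ε : ℝ, 0 < ε →
      ∃ k₀ : ℕ, ∀ k : ℕ, k₀ ≤ k →
        Real.exp ((t - rate t - ε) * k) ≤ ((Sm d A k t).ncard : ℝ) ∧
        ((Sm d A k t).ncard : ℝ) ≤ Real.exp ((t - rate t + ε) * k)) ∧
    (∀ t : ℝ, Real.log (16 / 3) / 4 ≤ t → t < Real.log 2 → ∀ ε : ℝ, 0 < ε →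
      ∃ k₀ : ℕ, ∀ k : ℕ, k₀ ≤ k →
        Real.exp ((t - rate t - ε) * k) ≤ ((La d A k t).ncard : ℝ) ∧
        ((La d A k t).ncard : ℝ) ≤ Real.exp ((t - rate t + ε) * k)) := by
  have hl3 : 0 < Real.log 3 := Real.log_pos (by norm_num)
  have e16 : Real.log (16 / 3) = 4 * Real.log 2 - Real.log 3 := by
    rw [Real.log_div (by norm_num) (by norm_num), show (16 : ℝ) = 2 ^ 4 by norm_num, Real.log_pow]
    norm_num
  have key : ∀ t : ℝ, ∃ ρ : ℝ, t = Real.log 2 - ρ * Real.log 3 := by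
    intro t
    refine ⟨(Real.log 2 - t) / Real.log 3, ?_⟩
    field_simp
    ring
  have key2 : ∀ ρ : ℝ, 0 < ρ → ρ < 1 → (Real.log 2 - ρ * Real.log 3) -
      rate (Real.log 2 - ρ * Real.log 3) = FF ρ := by
    intro ρ h0 h1
    rw [rate_eq h0 h1]
    unfold FF
    ring
  constructor
  · intro t h1 h2 ε hε
    obtain ⟨ρ, rfl⟩ := key t
    have hρ1 : ρ ≤ 1 / 2 := by
      rw [FT.log43] at h1
      have : ρ * Real.log 3 ≤ 1 / 2 * Real.log 3 := by linarith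
      exact le_of_mul_le_mul_right this hl3
    have hρ0 : 1 / 4 ≤ ρ := by
      rw [e16] at h2
      have : 1 / 4 * Real.log 3 ≤ ρ * Real.log 3 := by linarith
      exact le_of_mul_le_mul_right this hl3
    rw [key2 ρ (by linarith) (by linarith)]
    obtain ⟨k₁, hk₁⟩ := sm_lower hU hL hd hA hρ0 hρ1 hε
    obtain ⟨k₂, hk₂⟩ := sm_upper hU hd hA.1 hρ0 hρ1 hε
    exact ⟨max k₁ k₂, fun k hk => ⟨hk₁ k ((le_max_left _ _).trans hk),
      hk₂ k ((le_max_right _ _).trans hk)⟩⟩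
  · intro t h1 h2 ε hε
    obtain ⟨ρ, rfl⟩ := key t
    have hρ1 : ρ ≤ 1 / 4 := by
      rw [e16] at h1
      have : ρ * Real.log 3 ≤ 1 / 4 * Real.log 3 := by linarith
      exact le_of_mul_le_mul_right this hl3
    have hρ0 : 0 < ρ := by
      have : 0 < ρ * Real.log 3 := by linarith
      exact (pos_iff_pos_of_mul_pos this).2 hl3
    rw [key2 ρ (by linarith) (by linarith)]
    obtain ⟨k₁, hk₁⟩ := la_lower hU hL hd hA hρ0 hρ1 hε
    obtain ⟨k₂, hk₂⟩ := la_upper hU hd hA.1 hρ0 hρ1 hε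
    exact ⟨max k₁ k₂, fun k hk => ⟨hk₁ k ((le_max_left _ _).trans hk),
      hk₂ k ((le_max_right _ _).trans hk)⟩⟩

/-! ### The pressure -/

theorem zp_three (θ : ℝ) : zp 3 θ = FT.zt θ := by
  unfold zp FT.zt
  norm_num

theorem MM_three (θ : ℝ) : MM 3 θ = FT.MM θ := by
  unfold MM FT.MM
  norm_num

/-- the pressure of both signs -/
noncomputable def Pz (d : ℤ) (A : Set ℤ) (θ : ℝ) (k : ℕ) : ℝ :=
  ∑ᶠ n ∈ Lvl d A k, |(n : ℝ)| ^ (θ - 1)

theorem Lvl_eq {d : ℤ} (hd : ¬ (2 : ℤ) ∣ d) (A : Set ℤ) (k : ℕ) :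
    Lvl d A k = LM 3 d A k ∪ (fun n : ℤ => -n) '' LM 3 (-d) (ng A) k := by
  ext n
  constructor
  · rintro ⟨hn0, hn1⟩
    rcases lt_or_gt_of_ne hn0 with hn | hn
    · exact Or.inr ⟨-n, neg_mem hd hn hn1, by simp⟩
    · exact Or.inl ⟨by omega, hn1⟩
  · rintro (h | ⟨m, hm, rfl⟩)
    · have h1 := mem_LM.1 h
      exact ⟨by omega, h1.2⟩
    · obtain ⟨h1, h2⟩ := of_neg_mem hd hm
      exact ⟨h1.ne, h2⟩

theorem Pz_eq (hU : S_LEVU) {d : ℤ} (hd : Adm 3 d) {A : Set ℤ} (hA : A.Finite) (θ : ℝ) (k : ℕ) :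
    (Lvl d A k).Finite ∧ Pz d A θ k = PrS 3 d A θ k + PrS 3 (-d) (ng A) θ k := by
  obtain ⟨c, hc, hc'⟩ := bdd hA
  have hf1 := (hU 3 d hd A c hc).1 k
  have hf2 := (hU 3 (-d) (adm_neg' hd) (ng A) c hc').1 k
  refine ⟨by rw [Lvl_eq hd.2.1]; exact hf1.union (hf2.image _), ?_⟩
  unfold Pz
  rw [Lvl_eq hd.2.1, finsum_mem_union ?_ hf1 (hf2.image _)]
  · congr 1
    · unfold PrS
      refine finsum_mem_congr rfl fun n hn => ?_
      have : (0 : ℝ) < n := by exact_mod_cast (by have := (mem_LM.1 hn).1; omega : 0 < n)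
      rw [abs_of_pos this]
    · unfold PrS
      rw [finsum_mem_image neg_injective.injOn]
      refine finsum_mem_congr rfl fun n hn => ?_
      have : (0 : ℝ) < n := by exact_mod_cast (by have := (mem_LM.1 hn).1; omega : 0 < n)
      push_cast
      rw [abs_neg, abs_of_pos this]
  · rw [Set.disjoint_left]
    rintro n h1 ⟨m, h2, rfl⟩
    have h3 := (mem_LM.1 h1).1
    have h4 := (mem_LM.1 h2).1
    simp only at h3
    omega

theorem PrS_nonneg (p : ℕ) (d : ℤ) (A : Set ℤ) (θ : ℝ) (k : ℕ) : 0 ≤ PrS p d A θ k := by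
  unfold PrS
  refine finsum_nonneg fun n => finsum_nonneg fun hn => ?_
  have : (0 : ℝ) ≤ n := by exact_mod_cast (by have := hn.1; omega : 0 ≤ n)
  positivity

theorem pressure (hU : S_LEVU) (hP : S_PRU) (hP0 : S_PRU0) (hL : S_PRL) {d : ℤ} (hd : Adm 3 d)
    {A : Set ℤ} (hA : Good A) : ∀ θ : ℝ, 0 ≤ θ → ∀ ε : ℝ, 0 < ε → ∃ k₀ : ℕ, ∀ k : ℕ, k₀ ≤ k →
    Real.exp ((Real.log (FT.MM θ) - ε) * k) ≤ Pz d A θ k ∧
      Pz d A θ k ≤ Real.exp ((Real.log (FT.MM θ) + ε) * k) := by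
  intro θ hθ ε hε
  have hl3 : 0 < Real.log 3 := Real.log_pos (by norm_num)
  have hl23 : 1 / 2 * Real.log 3 < Real.log 2 := by
    have : Real.log 3 < 2 * Real.log 2 := by
      rw [show (2 : ℝ) * Real.log 2 = Real.log (2 ^ 2) by rw [Real.log_pow]; norm_num]
      exact Real.log_lt_log (by norm_num) (by norm_num)
    linarith
  obtain ⟨c, hc, hc'⟩ := bdd hA.1
  have hM := MM_three θ
  -- upper bounds
  have hup : ∀ (d' : ℤ), Adm 3 d' → ∀ A' : Set ℤ, (∀ y ∈ A', y ≤ c) → ∃ k₀ : ℕ, ∀ k : ℕ, k₀ ≤ k →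
      PrS 3 d' A' θ k ≤ Real.exp ((Real.log (FT.MM θ) + ε / 2) * k) := by
    intro d' hd' A' hA'
    rcases hθ.lt_or_eq with h | h
    · have := hP 3 d' hd' A' c hA' θ (by
        rw [zp_three]
        exact q_three (FT.zt_half h) (FT.zt_lt θ)) (ε / 2) (by positivity)
      rwa [hM] at this
    · obtain ⟨k₀, hk₀⟩ := hP0 3 d' hd' A' c hA' (ε / 2) (by positivity)
      refine ⟨k₀, fun k hk => ?_⟩
      have e : Real.log (FT.MM θ) = 0 := by
        rw [← h]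
        unfold FT.MM
        norm_num
      rw [e, zero_add, ← h]
      exact hk₀ k hk
  have hlo : ∃ k₀ : ℕ, ∀ k : ℕ, k₀ ≤ k → Real.exp ((Real.log (FT.MM θ) - ε) * k) ≤
      PrS 3 d A θ k + PrS 3 (-d) (ng A) θ k := by
    obtain ⟨hfin, m, hm, hm0, hm3⟩ := hA
    have hz1 : 0 < Fp 3 (1 - zp 3 θ) := by
      rw [Fp_three, zp_three]
      exact FT.zt_freq hθ
    have hz2 : (1 - zp 3 θ) * Real.log ((3 : ℕ) : ℝ) < Real.log 2 := by
      rw [zp_three]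
      have := FT.zt_half' hθ
      push_cast
      nlinarith
    rcases lt_or_gt_of_ne hm0 with hneg | hpos
    · obtain ⟨k₀, h⟩ := hL 3 (-d) (adm_neg' hd) (ng A) c hc' (-m) (by omega)
        (fun h => hm3 ((Int.dvd_neg).1 h)) (by
          change -(-m) ∈ A
          rwa [neg_neg]) θ hz1 hz2 ε hε
      refine ⟨k₀, fun k hk => ?_⟩
      have h1 := h k hk
      rw [hM] at h1
      have h2 := PrS_nonneg 3 d A θ k
      linarith
    · obtain ⟨k₀, h⟩ := hL 3 d hd A c hc m (by omega) (fun h => hm3 h) hm θ hz1 hz2 ε hε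
      refine ⟨k₀, fun k hk => ?_⟩
      have h1 := h k hk
      rw [hM] at h1
      have h2 := PrS_nonneg 3 (-d) (ng A) θ k
      linarith
  obtain ⟨k₁, hk₁⟩ := hup d hd A hc
  obtain ⟨k₂, hk₂⟩ := hup (-d) (adm_neg' hd) (ng A) hc'
  obtain ⟨k₃, hk₃⟩ := two_exp (a := Real.log (FT.MM θ)) hε
  obtain ⟨k₄, hk₄⟩ := hlo
  refine ⟨max (max k₁ k₂) (max k₃ k₄), fun k hk => ?_⟩
  rw [(Pz_eq hU hd hA.1 θ k).2]
  have g1 := hk₁ k (((le_max_left _ _).trans (le_max_left _ _)).trans hk)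
  have g2 := hk₂ k (((le_max_right _ _).trans (le_max_left _ _)).trans hk)
  have g3 := hk₃ k (((le_max_left _ _).trans (le_max_right _ _)).trans hk)
  have g4 := hk₄ k (((le_max_right _ _).trans (le_max_right _ _)).trans hk)
  exact ⟨g4, by linarith⟩

/-! ### Counts up to `x` -/

/-- the integers `n`, `1 ≤ |n| ≤ x`, whose trajectory is in `A` at a time at most `α log |n|` -/
def Ct (d : ℤ) (A : Set ℤ) (α x : ℝ) : Set ℤ :=
  {n : ℤ | n ≠ 0 ∧ |(n : ℝ)| ≤ x ∧ ∃ k : ℕ, HA d A n k ∧ (k : ℝ) ≤ α * Real.log |(n : ℝ)|}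

theorem Ct_fin (d : ℤ) (A : Set ℤ) (α x : ℝ) : (Ct d A α x).Finite := by
  refine (Finset.Icc (-⌊x⌋) ⌊x⌋).finite_toSet.subset ?_
  rintro n ⟨-, hn, -⟩
  rw [mem_coe, mem_Icc]
  have h1 := abs_le.1 hn
  have h2 : n ≤ ⌊x⌋ := Int.le_floor.2 h1.2
  have h3 : -n ≤ ⌊x⌋ := Int.le_floor.2 (by push_cast; linarith [h1.1])
  exact ⟨by omega, h2⟩

theorem exists_first {d : ℤ} {A : Set ℤ} {n : ℤ} {k : ℕ} (h : (T 3 d)^[k] n ∈ A) :
    ∃ j ≤ k, HA d A n j := by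
  classical
  have hex : ∃ j, (T 3 d)^[j] n ∈ A := ⟨k, h⟩
  exact ⟨Nat.find hex, Nat.find_min' hex h, fun j hj => Nat.find_min hex hj, Nat.find_spec hex⟩

theorem expo_mean : ∀ α : ℝ, 1 / Real.log 2 < α → α ≤ 2 / Real.log (4 / 3) → rr α ≤ 1 / 2 := by
  intro α h1 h2
  have hl2 : 0 < Real.log 2 := Real.log_pos (by norm_num)
  have hl3 : 0 < Real.log 3 := Real.log_pos (by norm_num)
  have hα : 0 < α := lt_trans (by positivity) h1
  have h43 : 0 < Real.log (4 / 3) := Real.log_pos (by norm_num)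
  have e := rr_spec α
  have h3 : Real.log (4 / 3) / 2 ≤ 1 / α := by
    rw [le_div_iff₀ hα]
    rw [le_div_iff₀ h43] at h2
    linarith
  rw [e, FT.log43] at h3
  have : rr α * Real.log 3 ≤ 1 / 2 * Real.log 3 := by linarith
  exact le_of_mul_le_mul_right this hl3

/-- the lower bound -/
theorem ct_lower (hB : S_UCB) {d : ℤ} (hd : Adm 3 d) {A : Set ℤ} (hA : Good A) {α : ℝ}
    (h1 : 1 / Real.log 2 < α) (h2 : α ≤ 2 / Real.log (4 / 3)) {ε : ℝ} (hε : 0 < ε) :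
    ∃ X₀ : ℝ, ∀ x : ℝ, X₀ ≤ x → x ^ (1 - α * rate (1 / α) - ε) ≤ ((Ct d A α x).ncard : ℝ) := by
  rw [expo_eq h1]
  have hF : 0 < Fp 3 (rp 3 α) := by
    rw [Fp_three, rp_three]
    exact FF_pos_of (rr_pos h1) (lt_of_le_of_lt (expo_mean α h1 h2) FT.half_lt) (by norm_num)
      FF_low.le
  obtain ⟨hfin, m, hm, hm0, hm3⟩ := hA
  rcases lt_or_gt_of_ne hm0 with hneg | hpos
  · obtain ⟨X₀, hX₀, h⟩ := hB 3 (-d) (adm_neg' hd) α h1 hF (-m) (by omega)
      (fun h => hm3 ((Int.dvd_neg).1 h)) 1 le_rfl ε hε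
    refine ⟨X₀, fun x hx => ?_⟩
    obtain ⟨F, hF1, hF2⟩ := h x hx
    rw [Fp_three, rp_three, one_mul] at hF2
    refine hF2.trans ?_
    rw [← Set.ncard_coe_finset, ← Set.ncard_image_of_injective (F : Set ℤ) neg_injective]
    refine (Nat.cast_le (α := ℝ)).2 (Set.ncard_le_ncard ?_ (Ct_fin d A α x))
    rintro _ ⟨n, hn, rfl⟩
    obtain ⟨h3, h4, h5, k, h6, h7, h8⟩ := hF1 n hn
    have h9 : (T 3 d)^[k] (-n) ∈ A := by
      have h10 := iter_negg hd.2.1 k (-n)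
      rw [neg_neg, h6] at h10
      have h11 : (T 3 d)^[k] (-n) = m := by linarith
      rwa [h11]
    obtain ⟨j, hj, h10⟩ := exists_first h9
    have hn0 : (0 : ℝ) < n := by exact_mod_cast (by omega : 0 < n)
    refine ⟨by omega, ?_, j, h10, ?_⟩
    · push_cast
      rw [abs_neg, abs_of_pos hn0]
      exact h5
    · push_cast
      rw [abs_neg, abs_of_pos hn0]
      rw [Real.log_one, sub_zero] at h8
      have : (j : ℝ) ≤ k := by exact_mod_cast hj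
      linarith
  · obtain ⟨X₀, hX₀, h⟩ := hB 3 d hd α h1 hF m (by omega) (fun h => hm3 h) 1 le_rfl ε hε
    refine ⟨X₀, fun x hx => ?_⟩
    obtain ⟨F, hF1, hF2⟩ := h x hx
    rw [Fp_three, rp_three, one_mul] at hF2
    refine hF2.trans ?_
    rw [← Set.ncard_coe_finset]
    refine (Nat.cast_le (α := ℝ)).2 (Set.ncard_le_ncard ?_ (Ct_fin d A α x))
    intro n hn
    obtain ⟨h3, h4, h5, k, h6, h7, h8⟩ := hF1 n hn
    have h9 : (T 3 d)^[k] n ∈ A := by rwa [h6]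
    obtain ⟨j, hj, h10⟩ := exists_first h9
    have hn0 : (0 : ℝ) < n := by exact_mod_cast (by omega : 0 < n)
    refine ⟨by omega, ?_, j, h10, ?_⟩
    · rw [abs_of_pos hn0]
      exact h5
    · rw [abs_of_pos hn0]
      rw [Real.log_one, sub_zero] at h8
      have : (j : ℝ) ≤ k := by exact_mod_cast hj
      linarith

theorem two_pow {a ε : ℝ} (hε : 0 < ε) : ∃ X₀ : ℝ, 1 ≤ X₀ ∧ ∀ x : ℝ, X₀ ≤ x →
    3 * x ^ (a + ε / 2) ≤ x ^ (a + ε) := by
  refine ⟨Real.exp (2 * Real.log 3 / ε), Real.one_le_exp (by positivity), fun x hx => ?_⟩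
  have hx0 : 0 < x := lt_of_lt_of_le (Real.exp_pos _) hx
  have h1 : 2 * Real.log 3 / ε ≤ Real.log x := by
    rw [Real.le_log_iff_exp_le hx0]
    exact hx
  rw [div_le_iff₀ hε] at h1
  have e : (3 : ℝ) = Real.exp (Real.log 3) := (Real.exp_log (by norm_num)).symm
  rw [Real.rpow_def_of_pos hx0, Real.rpow_def_of_pos hx0]
  nth_rewrite 1 [e]
  rw [← Real.exp_add]
  apply Real.exp_le_exp.2
  linarith

/-- the upper bound -/
theorem ct_upper (hC : S_CNTU) {d : ℤ} (hd : Adm 3 d) {A : Set ℤ} (hA : A.Finite) {α : ℝ}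
    (h1 : 1 / Real.log 2 < α) (h2 : α ≤ 2 / Real.log (4 / 3)) {ε : ℝ} (hε : 0 < ε) :
    ∃ X₀ : ℝ, ∀ x : ℝ, X₀ ≤ x → ((Ct d A α x).ncard : ℝ) ≤ x ^ (1 - α * rate (1 / α) + ε) := by
  have hl2 : 0 < Real.log 2 := Real.log_pos (by norm_num)
  have hl3 : 0 < Real.log 3 := Real.log_pos (by norm_num)
  have hα : 0 < α := lt_trans (by positivity) h1
  have h43 : 0 < Real.log (4 / 3) := Real.log_pos (by norm_num)
  rw [expo_eq h1]
  obtain ⟨c, hc, hc'⟩ := bdd hA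
  rcases h2.lt_or_eq with h2' | h2'
  · -- below the mean
    have hr0 := rr_pos h1
    have hr1 : rr α < 1 / 2 := by
      have e := rr_spec α
      have h3 : Real.log (4 / 3) / 2 < 1 / α := by
        rw [lt_div_iff₀ hα]
        rw [lt_div_iff₀ h43] at h2'
        linarith
      rw [e, FT.log43] at h3
      have : rr α * Real.log 3 < 1 / 2 * Real.log 3 := by linarith
      exact lt_of_mul_lt_mul_right this hl3.le
    have hphi : php 3 (rp 3 α) (1 - rr α) = FF (rr α) := by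
      rw [php_three, rp_three, phi_eq hr0 (by linarith)]
    have hlt : α * FF (rr α) < 1 := by
      have e := rr_spec α
      have h3 : FF (rr α) < 1 / α := by
        rw [e]
        unfold FF
        have := (Real.binEntropy_lt_log_two (p := rr α)).2 (by norm_num; exact hr1.ne)
        linarith
      calc α * FF (rr α) < α * (1 / α) := mul_lt_mul_of_pos_left h3 hα
        _ = 1 := by field_simp
    obtain ⟨X₁, hX₁, g1⟩ := hC 3 d hd (1 - rr α) (q_three (by linarith) (by linarith)) α h1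
      (by rw [hphi]; exact hlt) c (ε / 2) (by positivity)
    obtain ⟨X₂, hX₂, g2⟩ := hC 3 (-d) (adm_neg' hd) (1 - rr α) (q_three (by linarith) (by linarith))
      α h1 (by rw [hphi]; exact hlt) c (ε / 2) (by positivity)
    obtain ⟨X₃, hX₃, g3⟩ := two_pow (a := α * FF (rr α)) hε
    refine ⟨max X₁ (max X₂ X₃), fun x hx => ?_⟩
    have k1 := g1 x ((le_max_left _ _).trans hx)
    have k2 := g2 x (((le_max_left _ _).trans (le_max_right _ _)).trans hx)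
    have k3 := g3 x (((le_max_right _ _).trans (le_max_right _ _)).trans hx)
    have hx1 : 1 ≤ x := hX₁.trans ((le_max_left _ _).trans hx)
    rw [hphi] at k1 k2
    classical
    obtain ⟨S, hS⟩ : ∃ S : Finset ℤ, S = (Ct_fin d A α x).toFinset := ⟨_, rfl⟩
    have hmem : ∀ n, n ∈ S ↔ n ∈ Ct d A α x := fun n => by rw [hS, Set.Finite.mem_toFinset]
    rw [Set.ncard_eq_toFinset_card _ (Ct_fin d A α x), ← hS]
    have hsplit : S.card ≤ (S.filter fun n => 0 < n).card +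
        ((S.filter fun n => n < 0).image fun n => -n).card := by
      rw [card_image_of_injective _ neg_injective, ← card_union_of_disjoint]
      · refine card_le_card fun n hn => ?_
        rw [mem_union, mem_filter, mem_filter]
        have h5 := ((hmem n).1 hn).1
        rcases lt_or_gt_of_ne h5 with h | h
        · exact Or.inr ⟨hn, h⟩
        · exact Or.inl ⟨hn, h⟩
      · rw [disjoint_left]
        intro n h5 h6
        have := (mem_filter.1 h5).2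
        have := (mem_filter.1 h6).2
        omega
    have k4 := k1 (S.filter fun n => 0 < n) (by
      intro n hn
      obtain ⟨h5, h6⟩ := mem_filter.1 hn
      obtain ⟨h7, h8, k, h9, h10⟩ := (hmem n).1 h5
      have hn0 : (0 : ℝ) < n := by exact_mod_cast h6
      rw [abs_of_pos hn0] at h8 h10
      exact ⟨by omega, h8, k, hc _ h9.2, h10⟩)
    have k5 := k2 ((S.filter fun n => n < 0).image fun n => -n) (by
      intro n hn
      obtain ⟨m, hm, rfl⟩ := mem_image.1 hn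
      obtain ⟨h5, h6⟩ := mem_filter.1 hm
      obtain ⟨h7, h8, k, h9, h10⟩ := (hmem m).1 h5
      have hn0 : (m : ℝ) < 0 := by exact_mod_cast h6
      rw [abs_of_neg hn0] at h8 h10
      refine ⟨by omega, by push_cast; exact h8, k, ?_, by push_cast; exact h10⟩
      have h11 := iter_negg hd.2.1 k m
      rw [h11]
      exact hc' _ (by
        change -(-(T 3 d)^[k] m) ∈ A
        rw [neg_neg]
        exact h9.2))
    have k6 : (S.card : ℝ) ≤ ((S.filter fun n => 0 < n).card : ℝ) +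
        (((S.filter fun n => n < 0).image fun n => -n).card : ℝ) := by exact_mod_cast hsplit
    have k7 : 0 ≤ x ^ (α * FF (rr α) + ε / 2) := by positivity
    linarith
  · -- at the mean the bound is trivial
    have hs1 : α * FF (rr α) = 1 := by
      have e := rr_spec α
      have h3 : 1 / α = Real.log (4 / 3) / 2 := by
        rw [h2']
        field_simp
      have hr : rr α = 1 / 2 := by
        rw [e, FT.log43] at h3
        have : rr α * Real.log 3 = 1 / 2 * Real.log 3 := by linarith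
        exact mul_right_cancel₀ hl3.ne' this
      have hF : FF (rr α) = 1 / α := by
        rw [e, hr]
        unfold FF
        rw [show (1 / 2 : ℝ) = 2⁻¹ by norm_num, Real.binEntropy_two_inv]
      rw [hF]
      field_simp
    obtain ⟨X₃, hX₃, g3⟩ := two_pow (a := 1) hε
    refine ⟨X₃, fun x hx => ?_⟩
    have hx1 : 1 ≤ x := hX₃.trans hx
    rw [hs1]
    refine le_trans ?_ (g3 x hx)
    have h5 : ((Ct d A α x).ncard : ℝ) ≤ 3 * x := by
      have hsub : Ct d A α x ⊆ ((Finset.Icc (-⌊x⌋) ⌊x⌋ : Finset ℤ) : Set ℤ) := by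
        rintro n ⟨-, hn, -⟩
        rw [mem_coe, mem_Icc]
        have h1 := abs_le.1 hn
        have h2 : n ≤ ⌊x⌋ := Int.le_floor.2 h1.2
        have h3 : -n ≤ ⌊x⌋ := Int.le_floor.2 (by push_cast; linarith [h1.1])
        exact ⟨by omega, h2⟩
      have h6 := Set.ncard_le_ncard hsub (Finset.finite_toSet _)
      rw [Set.ncard_coe_finset, Int.card_Icc] at h6
      have h7 : (1 : ℤ) ≤ ⌊x⌋ := Int.le_floor.2 (by exact_mod_cast hx1)
      have h8 : (⌊x⌋ : ℝ) ≤ x := Int.floor_le x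
      have h9 : (((⌊x⌋ + 1 - -⌊x⌋).toNat : ℕ) : ℤ) = ⌊x⌋ + 1 - -⌊x⌋ := Int.toNat_of_nonneg (by omega)
      have h10 : (((⌊x⌋ + 1 - -⌊x⌋).toNat : ℕ) : ℝ) = 2 * (⌊x⌋ : ℝ) + 1 := by
        have : (((⌊x⌋ + 1 - -⌊x⌋).toNat : ℤ) : ℝ) = ((⌊x⌋ + 1 - -⌊x⌋ : ℤ) : ℝ) := by exact_mod_cast h9
        rw [Int.cast_natCast] at this
        rw [this]
        push_cast
        ring
      have h11 : ((Ct d A α x).ncard : ℝ) ≤ (((⌊x⌋ + 1 - -⌊x⌋).toNat : ℕ) : ℝ) := by exact_mod_cast h6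
      rw [h10] at h11
      linarith
    refine h5.trans ?_
    apply mul_le_mul_of_nonneg_left _ (by norm_num)
    calc x = x ^ (1 : ℝ) := (Real.rpow_one x).symm
      _ ≤ x ^ (1 + ε / 2) := Real.rpow_le_rpow_of_exponent_le hx1 (by linarith)

end D3

end Pool.Agent.N685.FD
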