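import Pool.Agent.N685.FD.Stm5

/-!
PROJECT FD (helper685), part 5: lower bound for the exceptional set of the fast descent (helper769).
-/

set_option autoImplicit false

namespace Pool.Agent.N685.FD

open Finset

theorem t_EXL (h : S_UU) : S_EXL := by
  classical
  intro p d hA α hα hF hT he1 δ hδ hδ1 ε hε
  have hl2 : 0 < Real.log 2 := Real.log_pos (by norm_num)
  have hα0 : 0 < α := lt_trans (by positivity) hα
  obtain ⟨e, he⟩ : ∃ e : ℝ, e = ex p α := ⟨_, rfl⟩
  have he' : e = α * Fp p (rp p α) := he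
  have he0 : 0 < e := by rw [he']; exact mul_pos hα0 hF
  rw [← he] at hT he1 ⊢
  obtain ⟨κ, hκ⟩ : ∃ κ : ℝ, κ = min (ε / 4) (1 / 2) := ⟨_, rfl⟩
  have hκ0 : 0 < κ := by rw [hκ]; exact lt_min (by positivity) (by norm_num)
  have hκ1 : κ ≤ ε / 4 := by rw [hκ]; exact min_le_left _ _
  have hκ2 : κ ≤ 1 / 2 := by rw [hκ]; exact min_le_right _ _
  obtain ⟨η, hη⟩ : ∃ η : ℝ, η = κ * e / 8 := ⟨_, rfl⟩
  have hη0 : 0 < η := by rw [hη]; positivity
  have hηκ : η ≤ κ / 8 := by
    rw [hη]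
    have h1 : κ * e ≤ κ * 1 := mul_le_mul_of_nonneg_left he1.le hκ0.le
    linarith
  obtain ⟨Λ₀, hΛ₀, hL⟩ := ul_main p d hA α hα hF η hη0
  rw [← he'] at hL
  obtain ⟨X₁, hX₁, hB⟩ := h p d hA α e hα hT he1 η hη0
  -- the threshold
  obtain ⟨a0, ha0⟩ : ∃ a0 : ℝ, a0 = Λ₀ / κ + 2 * Real.log X₁ + Real.log 2 / (6 * η) +
      2 * Real.log 2 / ε := ⟨_, rfl⟩
  have hlX : 0 ≤ Real.log X₁ := Real.log_nonneg hX₁
  have q1 : 0 ≤ Λ₀ / κ := by positivity
  have q2 : 0 ≤ Real.log 2 / (6 * η) := by positivity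
  have q3 : 0 ≤ 2 * Real.log 2 / ε := by positivity
  have ha00 : 0 ≤ a0 := by rw [ha0]; positivity
  refine ⟨Real.exp a0, Real.one_le_exp ha00, fun x hx => ?_⟩
  have hx0 : 0 < x := lt_of_lt_of_le (Real.exp_pos _) hx
  obtain ⟨a, ha⟩ : ∃ a : ℝ, a = Real.log x := ⟨_, rfl⟩
  have hxa : x = Real.exp a := by rw [ha, Real.exp_log hx0]
  have haa : a0 ≤ a := by
    rw [hxa] at hx
    exact Real.exp_le_exp.1 hx
  have ha1 : 0 ≤ a := ha00.trans haa
  -- the four consequences
  have c1 : Λ₀ ≤ κ * a := by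
    have h1 : Λ₀ / κ ≤ a := by linarith
    rw [div_le_iff₀ hκ0] at h1
    linarith
  have c2 : Real.log X₁ ≤ (1 - κ) * a := by
    have h1 : 2 * Real.log X₁ ≤ a := by linarith
    have h2 : κ * a ≤ 1 / 2 * a := mul_le_mul_of_nonneg_right hκ2 ha1
    linarith only [h1, h2]
  have c3 : Real.log 2 ≤ 6 * η * a := by
    have h1 : Real.log 2 / (6 * η) ≤ a := by linarith
    rw [div_le_iff₀ (by positivity)] at h1
    linarith
  have c4 : Real.log 2 ≤ ε / 2 * a := by
    have h1 : 2 * Real.log 2 / ε ≤ a := by linarith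
    rw [div_le_iff₀ hε] at h1
    linarith
  -- the points
  obtain ⟨b, hb⟩ : ∃ b : ℝ, b = (1 - κ) * (1 - δ) * a := ⟨_, rfl⟩
  obtain ⟨y, hy⟩ : ∃ y : ℝ, y = Real.exp b := ⟨_, rfl⟩
  obtain ⟨x1, hx1⟩ : ∃ x1 : ℝ, x1 = Real.exp ((1 - κ) * a) := ⟨_, rfl⟩
  have hy0 : 0 < y := by rw [hy]; exact Real.exp_pos _
  have hx10 : 0 < x1 := by rw [hx1]; exact Real.exp_pos _
  have hκa : 0 ≤ (1 - κ) * a := mul_nonneg (by linarith) ha1
  have hb0 : 0 ≤ b := by
    rw [hb]
    have : 0 ≤ 1 - δ := by linarith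
    have : 0 ≤ 1 - κ := by linarith
    positivity
  have hb1 : b ≤ (1 - κ) * a := by
    have h1 : (1 - δ) * ((1 - κ) * a) ≤ 1 * ((1 - κ) * a) :=
      mul_le_mul_of_nonneg_right (by linarith) hκa
    rw [hb]
    linarith
  have hba : b ≤ a := by
    have : 0 ≤ κ * a := by positivity
    linarith
  have hy1 : 1 ≤ y := by rw [hy]; exact Real.one_le_exp hb0
  have hyx1 : y ≤ x1 := by rw [hy, hx1]; exact Real.exp_le_exp.2 hb1
  have hX1x1 : X₁ ≤ x1 := by
    rw [hx1, ← Real.exp_log (by linarith : 0 < X₁)]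
    exact Real.exp_le_exp.2 c2
  have hlogy : Real.log y = b := by rw [hy, Real.log_exp]
  obtain ⟨F0, hF0, hcard⟩ := hL y hy1 x (by
    rw [hy, hxa, ← Real.exp_add]
    apply Real.exp_le_exp.2
    linarith)
  -- the small members
  have hsm := hB x1 hX1x1 y hy1 hyx1 (F0.filter fun n : ℤ => (n : ℝ) ≤ x1) (by
    intro n hn
    obtain ⟨hn1, hn2⟩ := mem_filter.1 hn
    obtain ⟨h1, -, k, -, h3, h4⟩ := hF0 n hn1
    exact ⟨h1, hn2, k, h3, h4⟩)
  have e1 : x1 ^ η * (y * (x1 / y) ^ e) = Real.exp ((1 - κ) * a * η + (b + ((1 - κ) * a - b) * e)) := by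
    rw [hx1, hy, ← Real.exp_sub, ← Real.exp_mul, ← Real.exp_mul, ← Real.exp_add, ← Real.exp_add]
  have e2 : y * (x / y) ^ (e - η) = Real.exp (b + (a - b) * (e - η)) := by
    rw [hxa, hy, ← Real.exp_sub, ← Real.exp_mul, ← Real.exp_add]
  rw [e1] at hsm
  rw [e2] at hcard
  have hkey : (1 - κ) * a * η + (b + ((1 - κ) * a - b) * e) + Real.log 2 ≤ b + (a - b) * (e - η) := by
    -- difference: κ a e - (a - b) η - (1 - κ) a η ≥ 8 η a - 2 η a
    have h1 : κ * e = 8 * η := by rw [hη]; ring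
    have h2 : 0 ≤ b * η := by positivity
    have h3 : 0 ≤ κ * a * η := by positivity
    have h4 : b + (a - b) * (e - η) - ((1 - κ) * a * η + (b + ((1 - κ) * a - b) * e)) =
        (κ * e) * a - 2 * (a * η) + b * η + κ * a * η := by ring
    rw [h1] at h4
    linarith
  have hsm2 : ((F0.filter fun n : ℤ => (n : ℝ) ≤ x1).card : ℝ) ≤
      Real.exp (b + (a - b) * (e - η)) / 2 := by
    refine hsm.trans ?_
    rw [le_div_iff₀ (by norm_num)]
    calc Real.exp ((1 - κ) * a * η + (b + ((1 - κ) * a - b) * e)) * 2 =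
          Real.exp ((1 - κ) * a * η + (b + ((1 - κ) * a - b) * e) + Real.log 2) := by
          rw [Real.exp_add _ (Real.log 2), Real.exp_log (by norm_num)]
      _ ≤ _ := Real.exp_le_exp.2 hkey
  refine ⟨F0.filter fun n : ℤ => ¬ (n : ℝ) ≤ x1, fun n hn => ?_, ?_⟩
  · obtain ⟨hn1, hn2⟩ := mem_filter.1 hn
    obtain ⟨h1, h2, k, h3, h4, h5⟩ := hF0 n hn1
    push Not at hn2
    have hn1' : (1 : ℝ) < n := by linarith
    have hn0 : (0 : ℝ) < n := by linarith
    refine ⟨by exact_mod_cast hn1'.le, h2, k, h3, ?_, ?_⟩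
    · refine h4.trans ?_
      have e3 : y = x1 ^ (1 - δ) := by
        rw [hy, hx1, hb, ← Real.exp_mul]
        congr 1
        ring
      rw [e3]
      exact Real.rpow_le_rpow hx10.le hn2.le (by linarith)
    · refine h5.trans ?_
      have h6 : (0 : ℝ) < (((T p d)^[k] n : ℤ) : ℝ) := by
        exact_mod_cast (by omega : 0 < (T p d)^[k] n)
      have h7 := Real.log_le_log h6 h4
      exact mul_le_mul_of_nonneg_left (by linarith) hα0.le
  · have h1 := card_filter_add_card_filter_not (s := F0) (fun n : ℤ => (n : ℝ) ≤ x1)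
    have h2 : ((F0.filter fun n : ℤ => (n : ℝ) ≤ x1).card : ℝ) +
        ((F0.filter fun n : ℤ => ¬ (n : ℝ) ≤ x1).card : ℝ) = (F0.card : ℝ) := by
      exact_mod_cast h1
    have h3 : Real.exp (b + (a - b) * (e - η)) / 2 ≤
        ((F0.filter fun n : ℤ => ¬ (n : ℝ) ≤ x1).card : ℝ) := by linarith
    refine le_trans ?_ h3
    rw [le_div_iff₀ (by norm_num), hxa, ← Real.exp_mul]
    calc Real.exp (a * (1 - δ * (1 - e) - ε)) * 2 =
          Real.exp (a * (1 - δ * (1 - e) - ε) + Real.log 2) := by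
          rw [Real.exp_add _ (Real.log 2), Real.exp_log (by norm_num)]
      _ ≤ _ := by
          apply Real.exp_le_exp.2
          have g1 : b + (a - b) * (e - η) = b * (1 - e) + b * η + e * a - η * a := by ring
          have g2 : b * (1 - e) = (1 - δ) * (1 - e) * a - κ * ((1 - δ) * (1 - e) * a) := by
            rw [hb]; ring
          have g3 : κ * ((1 - δ) * (1 - e) * a) ≤ κ * a := by
            have g4 : (1 - δ) * (1 - e) ≤ 1 :=
              mul_le_one₀ (by linarith only [hδ]) (by linarith only [he1]) (by linarith only [he0])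
            have g5 : (1 - δ) * (1 - e) * a ≤ 1 * a := mul_le_mul_of_nonneg_right g4 ha1
            rw [one_mul] at g5
            exact mul_le_mul_of_nonneg_left g5 hκ0.le
          have g6 : 0 ≤ b * η := by positivity
          have g7 : η * a ≤ κ / 8 * a := mul_le_mul_of_nonneg_right hηκ ha1
          have g8 : κ * a ≤ ε / 4 * a := mul_le_mul_of_nonneg_right hκ1 ha1
          rw [g1, g2]
          have g9 : 0 ≤ ε * a := by positivity
          linarith only [g3, g6, g7, g8, g9, c4]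

end Pool.Agent.N685.FD
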