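import Pool.Agent.N685.FD.Stm5
import Pool.Agent.N685.FD.UL2

/-!
PROJECT FD (helper685), part 5: upper bounds for the exceptional set of the fast descent (helper769).
-/

set_option autoImplicit false

namespace Pool.Agent.N685.FD

open Finset

namespace Exu

/-- the exponent is an affine function of the slope -/
theorem affine {p : ℕ} (hp : p = 3 ∨ p = 5) {α α' z : ℝ} (hα : 0 < α) (hα' : 0 < α') :
    α' * php p (rp p α') z = α * php p (rp p α) z +
      (α' - α) * ((-Real.log z * Real.log p + -Real.log (tt p z) * Real.log 2) / Real.log p) := by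
  have hl := (UL.p_facts hp).2.1
  unfold php rp
  field_simp
  ring

/-- the exponent is nonnegative -/
theorem e_nonneg {p : ℕ} (hp : p = 3 ∨ p = 5) {α e : ℝ} (hα : 1 / Real.log 2 < α)
    (hT : Tight p α e) : 0 ≤ e := by
  have hl2 : 0 < Real.log 2 := Real.log_pos (by norm_num)
  have hα0 : 0 < α := lt_trans (by positivity) hα
  by_contra hcon
  push Not at hcon
  obtain ⟨z, hQ, hU⟩ := hT (-e / 2) (by linarith)
  have h1 := UL.php_nonneg hp hQ (UL.rp_pos hp hα).le (UL.rp_mul_lt hp hα0).le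
  have h2 := mul_nonneg hα0.le h1
  linarith

/-- the elementary inequality at the end -/
theorem final (ε N : ℝ) (hε : 0 < ε) : ∃ X₀ : ℝ, 1 ≤ X₀ ∧ ∀ x : ℝ, X₀ ≤ x → ∀ a : ℝ, 0 ≤ a →
    N + (2 * Real.log x + 2) * (2 * x ^ (a + 5 * ε / 8)) ≤ x ^ (a + ε) := by
  have h1 : (fun x : ℝ => Real.log x) =o[Filter.atTop] fun x : ℝ => x ^ (3 * ε / 8) :=
    isLittleO_log_rpow_atTop (by positivity)
  have h2 := h1.bound (c := 1 / 16) (by norm_num)
  have h3 := (tendsto_rpow_atTop (show 0 < 3 * ε / 8 by positivity)).eventually_ge_atTop (16 : ℝ)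
  have h4 := (tendsto_rpow_atTop hε).eventually_ge_atTop (2 * N)
  obtain ⟨X, hX⟩ := Filter.eventually_atTop.1 ((h2.and h3).and h4)
  refine ⟨max X 1, le_max_right _ _, fun x hx a ha => ?_⟩
  have hx1 : 1 ≤ x := (le_max_right _ _).trans hx
  have hx0 : 0 < x := by linarith
  obtain ⟨⟨h5, h6⟩, h7⟩ := hX x ((le_max_left _ _).trans hx)
  have hlog : 0 ≤ Real.log x := Real.log_nonneg hx1
  rw [Real.norm_of_nonneg hlog, Real.norm_of_nonneg (by positivity)] at h5
  have e1 : x ^ (a + ε) = x ^ (a + 5 * ε / 8) * x ^ (3 * ε / 8) := by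
    rw [← Real.rpow_add hx0]
    congr 1
    ring
  have e2 : x ^ (a + ε) = x ^ a * x ^ ε := Real.rpow_add hx0 _ _
  have h8 : 1 ≤ x ^ a := Real.one_le_rpow hx1 ha
  have h9 : 2 * N ≤ x ^ (a + ε) := by
    rw [e2]
    have h10 : 0 < x ^ ε := by positivity
    nlinarith
  have h11 : (2 * Real.log x + 2) * (2 * x ^ (a + 5 * ε / 8)) ≤ x ^ (a + ε) / 2 := by
    rw [e1]
    have h12 : 0 < x ^ (a + 5 * ε / 8) := by positivity
    have h13 : 2 * (2 * Real.log x + 2) ≤ x ^ (3 * ε / 8) / 2 := by linarith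
    nlinarith
  linarith

end Exu

theorem t_UU : S_UU := by
  intro p d hA α e hα hT he ε hε
  obtain ⟨z, hQ, hU⟩ := hT (min (ε / 2) (1 - e)) (lt_min (by positivity) (by linarith))
  have h1 := min_le_left (ε / 2) (1 - e)
  have h2 := min_le_right (ε / 2) (1 - e)
  obtain ⟨X₀, hX₀, hB⟩ := ul_upper hA hQ hα (by linarith) (show 0 < ε / 2 by positivity)
  refine ⟨X₀, hX₀, fun x hx y hy1 hyx F hF => (hB x hx y hy1 hyx F hF).trans ?_⟩
  have hy0 : 0 < y := by linarith
  have hx0 : 0 < x := by linarith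
  have hxy : 1 ≤ x / y := (one_le_div hy0).2 hyx
  have h3 : (x / y) ^ (α * php p (rp p α) z) ≤ (x / y) ^ e * x ^ (ε / 2) := by
    calc (x / y) ^ (α * php p (rp p α) z) ≤ (x / y) ^ (e + ε / 2) :=
          Real.rpow_le_rpow_of_exponent_le hxy (by linarith)
      _ = (x / y) ^ e * (x / y) ^ (ε / 2) := Real.rpow_add (by positivity) _ _
      _ ≤ (x / y) ^ e * x ^ (ε / 2) := by
          have : x / y ≤ x := div_le_self hx0.le hy1
          gcongr
  calc x ^ (ε / 2) * (y * (x / y) ^ (α * php p (rp p α) z))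
      ≤ x ^ (ε / 2) * (y * ((x / y) ^ e * x ^ (ε / 2))) := by gcongr
    _ = (x ^ (ε / 2) * x ^ (ε / 2)) * (y * (x / y) ^ e) := by ring
    _ = x ^ ε * (y * (x / y) ^ e) := by rw [← Real.rpow_add hx0, add_halves]

theorem t_EXU (_h : S_UU) : S_EXU := by
  classical
  intro p d hA α e hα hT he δ hδ hδ1 ε hε
  have hp := hA.1
  have hl2 : 0 < Real.log 2 := Real.log_pos (by norm_num)
  have hl2' : 1 / 2 < Real.log 2 := by have := Real.log_two_gt_d9; linarith
  have hl := (UL.p_facts hp).2.1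
  have hα0 : 0 < α := lt_trans (by positivity) hα
  have he0 := Exu.e_nonneg hp hα hT
  obtain ⟨κ, hκ⟩ : ∃ κ : ℝ, κ = min (ε / 4) ((1 - e) / 4) := ⟨_, rfl⟩
  have hκ0 : 0 < κ := by rw [hκ]; exact lt_min (by positivity) (by linarith)
  have hκ1 : κ ≤ ε / 4 := by rw [hκ]; exact min_le_left _ _
  have hκ2 : κ ≤ (1 - e) / 4 := by rw [hκ]; exact min_le_right _ _
  obtain ⟨z, hQ, hU⟩ := hT κ hκ0
  obtain ⟨-, hab⟩ := UL.q_facts hQ
  obtain ⟨s, hs⟩ : ∃ s : ℝ,
    s = (-Real.log z * Real.log p + -Real.log (tt p z) * Real.log 2) / Real.log p := ⟨_, rfl⟩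
  have hs0 : 0 < s := by rw [hs]; exact div_pos hab hl
  obtain ⟨τ, hτ⟩ : ∃ τ : ℝ, τ = κ / s := ⟨_, rfl⟩
  have hτ0 : 0 < τ := by rw [hτ]; positivity
  have hτs : τ * s = κ := by rw [hτ]; field_simp
  obtain ⟨α', hα'⟩ : ∃ α' : ℝ, α' = α + τ := ⟨_, rfl⟩
  have hα'0 : 0 < α' := by rw [hα']; positivity
  have hα'1 : 1 / Real.log 2 < α' := by rw [hα']; linarith
  obtain ⟨U, hUd⟩ : ∃ U : ℝ, U = α' * php p (rp p α') z := ⟨_, rfl⟩
  have hUe : U ≤ e + 2 * κ := by
    have h1 := Exu.affine hp (z := z) hα0 hα'0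
    rw [← hs, hα', add_sub_cancel_left, hτs] at h1
    rw [hUd, hα', h1]
    linarith
  have hU1 : U ≤ 1 := by linarith
  obtain ⟨X₁, hX₁, hB⟩ := ul_upper hA hQ hα'1 (hUd ▸ hU1) (show 0 < ε / 8 by positivity)
  rw [← hUd] at hB
  obtain ⟨N0, hN0⟩ : ∃ N0 : ℝ, N0 = Real.exp (Real.log 2 * (1 + α / τ) / δ) := ⟨_, rfl⟩
  have hN00 : 0 < N0 := by rw [hN0]; exact Real.exp_pos _
  obtain ⟨X₂, hX₂, hfin⟩ := Exu.final ε N0 hε
  refine ⟨max X₁ X₂, hX₁.trans (le_max_left _ _), fun x hx F hF => ?_⟩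
  have hx1 : X₁ ≤ x := (le_max_left _ _).trans hx
  have hx2 : X₂ ≤ x := (le_max_right _ _).trans hx
  have hx1' : 1 ≤ x := hX₁.trans hx1
  have hx0 : 0 < x := by linarith
  have hlx : 0 ≤ Real.log x := Real.log_nonneg hx1'
  -- the key step
  have key : ∀ n ∈ F, N0 < (n : ℝ) → ∃ i : ℕ, i < ⌊2 * Real.log x + 1⌋₊ + 1 ∧
      (2 : ℝ) ^ i < n ∧ (2 : ℝ) ^ i ≤ 2 * x ^ (1 - δ) ∧
      ∃ k : ℕ, (((T p d)^[k] n : ℤ) : ℝ) ≤ 2 ^ i ∧
        (k : ℝ) ≤ α' * (Real.log n - Real.log (2 ^ i)) := by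
    intro n hn hnN
    obtain ⟨hn1, hnx, k, y, hy1, hyn, hT', hk⟩ := hF n hn
    have hn0 : (0 : ℝ) < n := by exact_mod_cast (by omega : 0 < n)
    have hn1' : (1 : ℝ) ≤ n := by exact_mod_cast hn1
    have hy0 : 0 < y := by linarith
    have hly : 0 ≤ Real.log y := Real.log_nonneg hy1
    have hln : 0 ≤ Real.log n := Real.log_nonneg hn1'
    have hlog : Real.log 2 * (1 + α / τ) ≤ δ * Real.log n := by
      have h1 : Real.log N0 ≤ Real.log n := Real.log_le_log hN00 hnN.le
      rw [hN0, Real.log_exp, div_le_iff₀ hδ] at h1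
      linarith
    obtain ⟨i, hi⟩ : ∃ i : ℕ, i = ⌈Real.log y / Real.log 2⌉₊ := ⟨_, rfl⟩
    have hi1 : Real.log y ≤ i * Real.log 2 := by
      have h1 := Nat.le_ceil (Real.log y / Real.log 2)
      rw [← hi, div_le_iff₀ hl2] at h1
      exact h1
    have hi2 : i * Real.log 2 < Real.log y + Real.log 2 := by
      have h1 := Nat.ceil_lt_add_one (show 0 ≤ Real.log y / Real.log 2 by positivity)
      rw [← hi] at h1
      have h2 := mul_lt_mul_of_pos_right h1 hl2
      rw [add_mul, one_mul, div_mul_cancel₀ _ hl2.ne'] at h2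
      exact h2
    have hlY : Real.log ((2 : ℝ) ^ i) = i * Real.log 2 := by rw [Real.log_pow]
    have hyY : y ≤ 2 ^ i := by
      rw [← Real.log_le_log_iff hy0 (by positivity), hlY]
      exact hi1
    have hY2 : (2 : ℝ) ^ i ≤ 2 * y := by
      rw [← Real.log_le_log_iff (by positivity) (by positivity), hlY,
        Real.log_mul (by norm_num) hy0.ne']
      linarith
    have hlyn : Real.log y ≤ (1 - δ) * Real.log n := by
      rw [← Real.log_rpow hn0]
      exact Real.log_le_log hy0 hyn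
    have hατ : 0 < Real.log 2 * (α / τ) := by positivity
    have hgap : Real.log 2 * (α / τ) ≤ Real.log n - Real.log (2 ^ i) := by
      rw [hlY]
      linarith only [hlog, hi2, hlyn]
    refine ⟨i, ?_, ?_, ?_, k, ?_, ?_⟩
    · rw [Nat.lt_succ_iff]
      apply Nat.le_floor
      have h1 : Real.log y ≤ Real.log x := by
        have h2 : Real.log n ≤ Real.log x := Real.log_le_log hn0 hnx
        have h3 : 0 ≤ δ * Real.log n := by positivity
        linarith
      have h4 : (i : ℝ) * Real.log 2 < (2 * Real.log x + 1) * Real.log 2 := by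
        have h5 : Real.log x ≤ 2 * Real.log x * Real.log 2 := by
          have h6 := mul_le_mul_of_nonneg_left hl2'.le (by positivity : 0 ≤ 2 * Real.log x)
          linarith only [h6]
        have h7 : 0 < Real.log 2 := hl2
        linarith only [h1, h5, hi2]
      exact (lt_of_mul_lt_mul_right h4 hl2.le).le
    · rw [← Real.log_lt_log_iff (by positivity) hn0]
      linarith only [hgap, hατ]
    · have h1 : (n : ℝ) ^ (1 - δ) ≤ x ^ (1 - δ) :=
        Real.rpow_le_rpow hn0.le hnx (by linarith only [hδ1])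
      linarith only [h1, hY2, hyn]
    · exact hT'.trans hyY
    · have h1 : α * (Real.log n - Real.log y) ≤
          α * (Real.log n - Real.log (2 ^ i)) + α * Real.log 2 := by
        rw [hlY]
        have h5 : α * (i * Real.log 2 - Real.log y) ≤ α * Real.log 2 :=
          mul_le_mul_of_nonneg_left (by linarith only [hi2]) hα0.le
        linarith only [h5]
      have h2 : α * Real.log 2 ≤ τ * (Real.log n - Real.log (2 ^ i)) := by
        have h3 := mul_le_mul_of_nonneg_left hgap hτ0.le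
        have h4 : τ * (Real.log 2 * (α / τ)) = α * Real.log 2 := by field_simp
        rw [h4] at h3
        exact h3
      rw [hα', add_mul]
      linarith only [hk, h1, h2]
  -- the families
  set I : ℕ := ⌊2 * Real.log x + 1⌋₊ + 1 with hI
  set G : ℕ → Finset ℤ := fun i => F.filter fun n => (2 : ℝ) ^ i < n ∧
    (2 : ℝ) ^ i ≤ 2 * x ^ (1 - δ) ∧ ∃ k : ℕ, (((T p d)^[k] n : ℤ) : ℝ) ≤ 2 ^ i ∧
      (k : ℝ) ≤ α' * (Real.log n - Real.log (2 ^ i)) with hG
  have hcov : F ⊆ (Finset.Icc 1 ⌊N0⌋) ∪ (range I).biUnion G := by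
    intro n hn
    rw [mem_union]
    rcases le_or_gt (n : ℝ) N0 with h1 | h1
    · left
      rw [mem_Icc]
      exact ⟨(hF n hn).1, Int.le_floor.2 h1⟩
    · right
      obtain ⟨i, hi, hi2⟩ := key n hn h1
      rw [mem_biUnion]
      exact ⟨i, mem_range.2 hi, mem_filter.2 ⟨hn, hi2⟩⟩
  have hcard : (F.card : ℝ) ≤ N0 + ∑ i ∈ range I, ((G i).card : ℝ) := by
    have h1 := (card_le_card hcov).trans (card_union_le _ _)
    have h2 := h1.trans (Nat.add_le_add_left card_biUnion_le _)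
    have h3 : (((Finset.Icc 1 ⌊N0⌋).card : ℕ) : ℝ) ≤ N0 := by
      rw [Int.card_Icc, add_sub_cancel_right]
      have h4 : 0 ≤ ⌊N0⌋ := Int.floor_nonneg.2 hN00.le
      have h5 : ((⌊N0⌋.toNat : ℕ) : ℝ) = ((⌊N0⌋ : ℤ) : ℝ) := by
        exact_mod_cast congrArg (fun m : ℤ => (m : ℝ)) (Int.toNat_of_nonneg h4)
      rw [h5]
      exact Int.floor_le N0
    have h6 : (F.card : ℝ) ≤ ((Finset.Icc 1 ⌊N0⌋).card : ℝ) + ∑ i ∈ range I, ((G i).card : ℝ) := by
      exact_mod_cast h2
    linarith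
  have hGi : ∀ i ∈ range I, ((G i).card : ℝ) ≤ 2 * x ^ ((1 - δ * (1 - e)) + 5 * ε / 8) := by
    intro i _
    rcases (G i).eq_empty_or_nonempty with h0 | ⟨n, hn⟩
    · rw [h0, card_empty]
      push_cast
      positivity
    · have hn' := (mem_filter.1 hn).2
      have hnx := (hF n (mem_filter.1 hn).1).2.1
      have hY1 : (1 : ℝ) ≤ 2 ^ i := one_le_pow₀ (by norm_num)
      have hYx : (2 : ℝ) ^ i ≤ x := hn'.1.le.trans hnx
      have h1 := hB x hx1 (2 ^ i) hY1 hYx (G i) (fun m hm => by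
        have h2 := mem_filter.1 hm
        exact ⟨h2.2.1, (hF m h2.1).2.1, h2.2.2.2⟩)
      refine h1.trans ?_
      set Y : ℝ := 2 ^ i with hY
      have hY0 : 0 < Y := by positivity
      have e1 : Y * (x / Y) ^ U = x ^ U * Y ^ (1 - U) := by
        rw [Real.div_rpow hx0.le hY0.le, Real.rpow_sub hY0, Real.rpow_one]
        ring
      have h3 : Y ^ (1 - U) ≤ 2 * x ^ ((1 - δ) * (1 - U)) := by
        calc Y ^ (1 - U) ≤ (2 * x ^ (1 - δ)) ^ (1 - U) :=
              Real.rpow_le_rpow hY0.le hn'.2.1 (by linarith)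
          _ = 2 ^ (1 - U) * (x ^ (1 - δ)) ^ (1 - U) :=
              Real.mul_rpow (by norm_num) (by positivity)
          _ ≤ 2 * (x ^ (1 - δ)) ^ (1 - U) := by
              have h4 : (2 : ℝ) ^ (1 - U) ≤ 2 ^ (1 : ℝ) := by
                refine Real.rpow_le_rpow_of_exponent_le (by norm_num) ?_
                have h5 := UL.php_nonneg hp hQ (UL.rp_pos hp hα'1).le (UL.rp_mul_lt hp hα'0).le
                have h6 := mul_nonneg hα'0.le h5
                rw [← hUd] at h6
                linarith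
              rw [Real.rpow_one] at h4
              gcongr
          _ = 2 * x ^ ((1 - δ) * (1 - U)) := by rw [← Real.rpow_mul hx0.le]
      rw [e1]
      calc x ^ (ε / 8) * (x ^ U * Y ^ (1 - U)) ≤
            x ^ (ε / 8) * (x ^ U * (2 * x ^ ((1 - δ) * (1 - U)))) := by gcongr
        _ = 2 * x ^ (ε / 8 + U + (1 - δ) * (1 - U)) := by
            rw [Real.rpow_add hx0, Real.rpow_add hx0]
            ring
        _ ≤ 2 * x ^ ((1 - δ * (1 - e)) + 5 * ε / 8) := by
            refine mul_le_mul_of_nonneg_left ?_ (by norm_num)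
            refine Real.rpow_le_rpow_of_exponent_le hx1' ?_
            have h7 : δ * U ≤ δ * (e + 2 * κ) := mul_le_mul_of_nonneg_left hUe hδ.le
            have h8 : δ * (2 * κ) ≤ 1 * (2 * κ) := mul_le_mul_of_nonneg_right hδ1 (by positivity)
            linarith only [h7, h8, hκ1]
  have hsum : ∑ i ∈ range I, ((G i).card : ℝ) ≤
      (2 * Real.log x + 2) * (2 * x ^ ((1 - δ * (1 - e)) + 5 * ε / 8)) := by
    refine (sum_le_sum hGi).trans ?_
    rw [sum_const, card_range, nsmul_eq_mul]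
    refine mul_le_mul_of_nonneg_right ?_ (by positivity)
    rw [hI]
    push_cast
    have h1 := Nat.floor_le (show 0 ≤ 2 * Real.log x + 1 by positivity)
    linarith
  have ha : 0 ≤ 1 - δ * (1 - e) := by
    have h1 : δ * (1 - e) ≤ 1 * (1 - e) := mul_le_mul_of_nonneg_right hδ1 (by linarith only [he])
    linarith only [h1, he0]
  have h9 := hfin x hx2 (1 - δ * (1 - e)) ha
  linarith only [h9, hsum, hcard]

end Pool.Agent.N685.FD
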