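import Pool.Agent.N685.FD.Stm3
import Pool.Agent.N685.FD.Low

/-!
# (STEPS) and (INJ): words and trajectories

Project FD (helper685), part 3.
-/

set_option autoImplicit false
set_option linter.all false

namespace Pool.Agent.N685.FD

open Finset

namespace INJ

open PC LOW

lemma letter_path' {p : ℕ} {d : ℤ} (hA : Adm p d) {e : ℕ} {x : ℤ} (he : 1 ≤ e)
    (hdv : (p : ℤ) ∣ 2 ^ e * x - d) :
    (T p d)^[e] (st p d e x) = x ∧ oT p d e (st p d e x) = 1 := by
  obtain ⟨h1, h2⟩ := letter hA he hdv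
  obtain ⟨i, rfl⟩ : ∃ i, e = i + 1 := ⟨e - 1, by omega⟩
  rw [Nat.add_sub_cancel] at h1
  refine ⟨?_, ?_⟩
  · rw [Function.iterate_succ_apply, h1, T_pow']
  · rw [add_comm i 1, oT_add, Function.iterate_one, add_comm 1 i, h1, oT_pow, add_zero]
    have h3 := oT_succ p d 0 (st p d (i + 1) x)
    rw [zero_add, Function.iterate_zero, id, if_pos h2] at h3
    rw [h3]
    simp [oT]

lemma steps {p : ℕ} {d : ℤ} (hA : Adm p d) : ∀ (w : List ℕ) (x : ℤ), ok p d x w →
    (T p d)^[w.sum] (fin p d x w) = x ∧ oT p d w.sum (fin p d x w) = w.length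
  | [], x, _ => by
      refine ⟨rfl, ?_⟩
      simp [oT]
  | e :: w, x, hok => by
      obtain ⟨h1, h2⟩ := steps hA w (st p d e x) hok.2.2
      obtain ⟨g1, g2⟩ := letter_path' hA hok.1 hok.2.1
      have hf : fin p d x (e :: w) = fin p d (st p d e x) w := rfl
      rw [hf, List.sum_cons, List.length_cons, add_comm e w.sum]
      refine ⟨?_, ?_⟩
      · rw [add_comm w.sum e, Function.iterate_add_apply, h1, g1]
      · rw [oT_add, h1, h2, g2]

lemma uniq {p : ℕ} {d : ℤ} (hA : Adm p d) : ∀ (v v' : List ℕ) (x x' : ℤ), x % 2 = 1 →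
    x' % 2 = 1 → ok p d x v → ok p d x' v' → v.length = v'.length →
    fin p d x v = fin p d x' v' → x = x' ∧ v = v'
  | [], [], x, x', _, _, _, _, _, hf => ⟨hf, rfl⟩
  | [], _ :: _, _, _, _, _, _, _, hl, _ => by simp at hl
  | _ :: _, [], _, _, _, _, _, _, hl, _ => by simp at hl
  | f :: v, f' :: v', x, x', hx, hx', hok, hok', hl, hf => by
      have o1 := (letter hA hok.1 hok.2.1).2
      have o2 := (letter hA hok'.1 hok'.2.1).2
      obtain ⟨h1, h2⟩ := uniq hA v v' (st p d f x) (st p d f' x') o1 o2 hok.2.2 hok'.2.2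
        (by simpa using hl) hf
      have e1 := st_eq hok.2.1
      have e2 := st_eq hok'.2.1
      rw [h1, ← e2] at e1
      obtain ⟨h3, h4⟩ := odd_part hx hx' e1
      exact ⟨h4, by rw [h3, h2]⟩

lemma first_letter {e e' : ℕ} {a a' : ℤ} {y : ℝ} (hy : 0 < y) (h1 : y / 2 < a') 
    (h2 : (a : ℝ) ≤ y) (h : (2 : ℤ) ^ e * a = 2 ^ e' * a') : ¬ e < e' := by
  intro hlt
  obtain ⟨i, rfl⟩ : ∃ i, e' = e + (i + 1) := ⟨e' - e - 1, by omega⟩
  rw [pow_add, mul_assoc] at h
  have h3 := mul_left_cancel₀ (pow_ne_zero e (by norm_num : (2 : ℤ) ≠ 0)) h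
  have h0 : 0 < a' := by
    have : (0 : ℝ) < a' := by linarith
    exact_mod_cast this
  have h4 : (1 : ℤ) ≤ 2 ^ i := one_le_pow₀ (by norm_num)
  have h5 : 2 * a' ≤ a := by
    rw [h3, pow_succ]
    nlinarith
  have h6 : (2 : ℝ) * a' ≤ a := by exact_mod_cast h5
  linarith

end INJ

open INJ PC LOW

/-- **(STEPS)** -/
theorem t_STEPS : S_STEPS := fun _ _ hA a w hok => steps hA w a hok

/-- **(INJ)** -/
theorem t_INJ : S_INJ := by
  intro p d hA y a a' w w' hy h1 h2 h3 h4 hok hok' _ _ hl hf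
  match w, w', hok, hok', hl, hf with
  | [], [], _, _, _, hf => exact ⟨hf, rfl⟩
  | [], _ :: _, _, _, hl, _ => simp at hl
  | _ :: _, [], _, _, hl, _ => simp at hl
  | e :: v, e' :: v', hok, hok', hl, hf =>
    have o1 := (letter hA hok.1 hok.2.1).2
    have o2 := (letter hA hok'.1 hok'.2.1).2
    obtain ⟨g1, g2⟩ := uniq hA v v' (st p d e a) (st p d e' a') o1 o2 hok.2.2 hok'.2.2
      (by simpa using hl) hf
    have e1 := st_eq hok.2.1
    have e2 := st_eq hok'.2.1
    rw [g1, ← e2] at e1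
    have n1 := first_letter hy h3 h2 e1
    have n2 := first_letter hy h1 h4 e1.symm
    have hee : e = e' := by omega
    subst hee
    exact ⟨mul_left_cancel₀ (pow_ne_zero e (by norm_num : (2 : ℤ) ≠ 0)) e1, by rw [g2]⟩

end Pool.Agent.N685.FD
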