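import Pool.Agent.N685.FD.Stm7
import Pool.Agent.N685.FD.Lw
import Pool.Agent.N685.FD.Cc
import Pool.Agent.N685.FD.Sz
import Pool.Agent.N685.FD.Code
import Pool.Agent.N685.FD.Low
import Pool.Agent.N685.FD.Inj

/-! Project FD (helper685), part 7, PCL (helper575): straight pieces of trajectory into every large `b`. -/

set_option autoImplicit false

namespace Pool.Agent.N685.FD

open Finset

namespace PCL

variable {p : ℕ} {d : ℤ}

theorem ok_take {x : ℤ} {w : List ℕ} (h : ok p d x w) (i : ℕ) : ok p d x (w.take i) := by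
  have h1 := h
  rw [← List.take_append_drop i w, CC.ok_append] at h1
  exact h1.1

theorem above_take {c x : ℤ} {w : List ℕ} (h : above p d c x w) (i : ℕ) :
    above p d c x (w.take i) := by
  have h1 := h
  rw [← List.take_append_drop i w, CC.above_append] at h1
  exact h1.1

theorem above_fin {c : ℤ} : ∀ (w : List ℕ) (x : ℤ), c < x → above p d c x w → c < fin p d x w
  | [], _, hx, _ => hx
  | _ :: w, _, _, h => above_fin w _ h.1 h.2

theorem above_mono {c c' : ℤ} (hc : c' ≤ c) : ∀ (w : List ℕ) (x : ℤ), above p d c x w →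
    above p d c' x w
  | [], _, _ => trivial
  | _ :: w, _, h => ⟨lt_of_le_of_lt hc h.1, above_mono hc w _ h.2⟩

/-- the points of the trajectory are the points of the word times powers of `2` -/
theorem path (hA : Adm p d) : ∀ (w : List ℕ) (x : ℤ), ok p d x w → ∀ j ≤ w.sum,
    ∃ i ≤ w.length, ∃ m : ℕ, (m = 0 ∨ ∃ e ∈ w, m ≤ e) ∧
      (T p d)^[j] (fin p d x w) = 2 ^ m * fin p d x (w.take i) ∧
      (w.take i).sum + m + j = w.sum
  | [], x, _, j, hj => by
      have hj0 : j = 0 := by simpa using hj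
      subst hj0
      exact ⟨0, le_rfl, 0, Or.inl rfl, by simp [fin], by simp⟩
  | e :: w, x, hok, j, hj => by
      have hf : fin p d x (e :: w) = fin p d (st p d e x) w := rfl
      rcases le_or_gt j w.sum with h | h
      · obtain ⟨i, hi, m, hm, h1, h2⟩ := path hA w (st p d e x) hok.2.2 j h
        refine ⟨i + 1, by simpa using hi, m, ?_, ?_, ?_⟩
        · rcases hm with hm | ⟨f, hf1, hf2⟩
          · exact Or.inl hm
          · exact Or.inr ⟨f, List.mem_cons_of_mem _ hf1, hf2⟩
        · rw [hf, h1]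
          rfl
        · rw [List.take_succ_cons, List.sum_cons, List.sum_cons]
          omega
      · rw [List.sum_cons] at hj
        obtain ⟨t, rfl⟩ : ∃ t, j = (t + 1) + w.sum := ⟨j - w.sum - 1, by omega⟩
        refine ⟨0, Nat.zero_le _, e - (t + 1), Or.inr ⟨e, List.mem_cons_self, Nat.sub_le _ _⟩,
          ?_, ?_⟩
        · rw [hf, Function.iterate_add_apply, (INJ.steps hA w (st p d e x) hok.2.2).1,
            Function.iterate_succ_apply, (LOW.letter hA hok.1 hok.2.1).1,
            LOW.T_pow'' p d (by omega), List.take_zero]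
          have : e - 1 - t = e - (t + 1) := by omega
          rw [this]
          rfl
        · rw [List.take_zero, List.sum_nil, List.sum_cons]
          omega

/-- words with controlled prefixes -/
theorem words (hA : Adm p d) {r : ℝ} (hr0 : 0 < r) (hr1 : r < 1) (hF : 0 < Fp p r)
    (hrp : r * Real.log p < Real.log 2) {δ : ℝ} (hδ : 0 < δ) (c : ℤ) :
    ∃ (L E : ℕ) (M : ℤ) (C : ℝ), 1 ≤ L ∧ 1 ≤ M ∧ 0 ≤ C ∧
      ∀ (N : ℕ) (x : ℤ), M ≤ x → ¬ (p : ℤ) ∣ x → ∃ S : Finset (List ℕ),
        Real.exp ((Fp p r / r - δ) * (L * N : ℕ)) ≤ (S.card : ℝ) ∧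
        ∀ w ∈ S, w.length = L * N ∧ |(w.sum : ℝ) - (L * N : ℕ) / r| ≤ δ * (L * N : ℕ) ∧
          (∀ e ∈ w, e ≤ E) ∧ ok p d x w ∧ above p d c x w ∧ ¬ (p : ℤ) ∣ fin p d x w ∧
          M ≤ fin p d x w ∧
          ∀ i ≤ w.length, |((w.take i).sum : ℝ) - i / r| ≤ δ * i + C := by
  classical
  have hp : 2 ≤ p := by
    rcases hA.1 with h | h <;> omega
  have hpR : (0 : ℝ) < p := by
    have : 0 < p := by omega
    exact_mod_cast this
  have hl2 : 0 < Real.log 2 := Real.log_pos (by norm_num)
  obtain ⟨δ₁, hδ₁, hδ₁δ, hδ₁p⟩ : ∃ δ₁ : ℝ, 0 < δ₁ ∧ δ₁ ≤ δ ∧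
      Real.log p < (1 / r - δ₁) * Real.log 2 := by
    have h1 : 0 < Real.log 2 / r - Real.log p := by
      rw [sub_pos, lt_div_iff₀ hr0]
      linarith
    refine ⟨min δ ((Real.log 2 / r - Real.log p) / (2 * Real.log 2)), ?_, min_le_left _ _, ?_⟩
    · exact lt_min hδ (by positivity)
    · have h2 := min_le_right δ ((Real.log 2 / r - Real.log p) / (2 * Real.log 2))
      have h3 := mul_le_mul_of_nonneg_right h2 hl2.le
      have h4 : (Real.log 2 / r - Real.log p) / (2 * Real.log 2) * Real.log 2 =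
          (Real.log 2 / r - Real.log p) / 2 := by field_simp
      rw [h4] at h3
      have h5 : (1 / r - min δ ((Real.log 2 / r - Real.log p) / (2 * Real.log 2))) * Real.log 2 =
          Real.log 2 / r - min δ ((Real.log 2 / r - Real.log p) / (2 * Real.log 2)) * Real.log 2 := by
        ring
      rw [h5]
      linarith
  obtain ⟨E, n₀, hLW⟩ := t_LW p d hA r hr0 hr1 hF δ₁ hδ₁
  obtain ⟨L, hL⟩ : ∃ L, L = max n₀ 1 := ⟨_, rfl⟩
  have hL1 : 1 ≤ L := by rw [hL]; exact le_max_right _ _
  have hLn : n₀ ≤ L := by rw [hL]; exact le_max_left _ _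
  have hLR : (0 : ℝ) < L := by
    have : 0 < L := by omega
    exact_mod_cast this
  have hLW' := hLW L hLn
  clear hLW
  have hC0 : (0 : ℝ) ≤ L * E + L / r := by positivity
  refine ⟨L, E, max (max 1 (CC.Mq p d c L)) (|d| * CC.Bq p E L), L * E + L / r, hL1,
    (le_max_left _ _).trans (le_max_left _ _), hC0, ?_⟩
  intro N
  induction N with
  | zero =>
    intro x hx hpx
    refine ⟨{[]}, ?_, ?_⟩
    · simp
    · intro w hw
      rw [mem_singleton] at hw
      subst hw
      refine ⟨by simp, by simp, by simp, trivial, trivial, hpx, hx, ?_⟩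
      intro i hi
      have hi0 : i = 0 := by simpa using hi
      subst hi0
      simpa using hC0
  | succ N ih =>
    intro x hx hpx
    obtain ⟨s, S0, hs, hcard, hS0⟩ := hLW' x hpx
    have hM1 : (1 : ℤ) ≤ x := ((le_max_left _ _).trans (le_max_left _ _)).trans hx
    have hMq : CC.Mq p d c L ≤ x := ((le_max_right _ _).trans (le_max_left _ _)).trans hx
    have hB : |d| * CC.Bq p E L ≤ x := (le_max_right _ _).trans hx
    -- `2 ^ s` is larger than `p ^ L`
    have h2s : (p : ℤ) ^ L + 1 ≤ 2 ^ s := by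
      have h1 : (L : ℝ) * Real.log p < s * Real.log 2 := by
        have h3 := (abs_le.1 hs).1
        have h4 : (L : ℝ) * (1 / r - δ₁) ≤ s := by
          have : (L : ℝ) * (1 / r - δ₁) = L / r - δ₁ * L := by ring
          rw [this]
          linarith
        calc (L : ℝ) * Real.log p < L * ((1 / r - δ₁) * Real.log 2) :=
              mul_lt_mul_of_pos_left hδ₁p hLR
          _ = (L * (1 / r - δ₁)) * Real.log 2 := by ring
          _ ≤ s * Real.log 2 := mul_le_mul_of_nonneg_right h4 hl2.le
      rw [← Real.log_pow, ← Real.log_pow] at h1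
      have h2 : (p : ℝ) ^ L < 2 ^ s := by
        exact (Real.log_lt_log_iff (by positivity) (by positivity)).1 h1
      have h3 : p ^ L < 2 ^ s := by exact_mod_cast h2
      have h4 : p ^ L + 1 ≤ 2 ^ s := h3
      exact_mod_cast h4
    have hfin : ∀ u ∈ S0, x ≤ fin p d x u := by
      intro u hu
      obtain ⟨h1, h2, h3, h4, h5⟩ := hS0 u hu
      have h6 := CC.fin_ge u h3 x h4
      rw [h1, h2] at h6
      have h7 : (p : ℤ) ^ L * x ≤ (p : ℤ) ^ L * fin p d x u := by
        have h8 : ((p : ℤ) ^ L + 1) * x ≤ 2 ^ s * x := mul_le_mul_of_nonneg_right h2s (by omega)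
        nlinarith
      have h8 : (0 : ℤ) < (p : ℤ) ^ L := by
        have : (0 : ℤ) < p := by exact_mod_cast (by omega : 0 < p)
        positivity
      exact le_of_mul_le_mul_left h7 h8
    have hex : ∀ u : List ℕ, ∃ Su : Finset (List ℕ), u ∈ S0 →
        (Real.exp ((Fp p r / r - δ) * (L * N : ℕ)) ≤ (Su.card : ℝ) ∧
        ∀ w ∈ Su, w.length = L * N ∧ |(w.sum : ℝ) - (L * N : ℕ) / r| ≤ δ * (L * N : ℕ) ∧
          (∀ e ∈ w, e ≤ E) ∧ ok p d (fin p d x u) w ∧ above p d c (fin p d x u) w ∧
          ¬ (p : ℤ) ∣ fin p d (fin p d x u) w ∧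
          max (max 1 (CC.Mq p d c L)) (|d| * CC.Bq p E L) ≤ fin p d (fin p d x u) w ∧
          ∀ i ≤ w.length, |((w.take i).sum : ℝ) - i / r| ≤ δ * i + (L * E + L / r)) := by
      intro u
      by_cases hu : u ∈ S0
      · obtain ⟨Su, h1, h2⟩ := ih (fin p d x u) (hx.trans (hfin u hu)) (hS0 u hu).2.2.2.2
        exact ⟨Su, fun _ => ⟨h1, h2⟩⟩
      · exact ⟨∅, fun h => absurd h hu⟩
    choose Su hSu using hex
    refine ⟨S0.biUnion fun u => (Su u).image fun v => u ++ v, ?_, ?_⟩
    · have hc : (S0.biUnion fun u => (Su u).image fun v => u ++ v).card =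
          ∑ u ∈ S0, (Su u).card := by
        rw [card_biUnion]
        · refine sum_congr rfl fun u _ => ?_
          exact card_image_of_injective _ fun a b hab => List.append_cancel_left hab
        · intro u hu u' hu' hne
          rw [Function.onFun, Finset.disjoint_left]
          intro w hw hw'
          rw [mem_image] at hw hw'
          obtain ⟨v, _, h1⟩ := hw
          obtain ⟨v', _, h2⟩ := hw'
          apply hne
          have h3 : u ++ v = u' ++ v' := by rw [h1, h2]
          exact (List.append_inj h3 (by rw [(hS0 u hu).1, (hS0 u' hu').1])).1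
      rw [hc, Nat.cast_sum]
      have h1 : ∀ u ∈ S0, Real.exp ((Fp p r / r - δ) * (L * N : ℕ)) ≤ ((Su u).card : ℝ) :=
        fun u hu => (hSu u hu).1
      have h2 := Finset.card_nsmul_le_sum _ _ _ h1
      rw [nsmul_eq_mul] at h2
      refine le_trans ?_ h2
      have h3 : Real.exp ((Fp p r / r - δ) * (L * (N + 1) : ℕ)) =
          Real.exp ((Fp p r / r - δ) * L) * Real.exp ((Fp p r / r - δ) * (L * N : ℕ)) := by
        rw [← Real.exp_add]
        congr 1
        push_cast
        ring
      rw [h3]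
      refine mul_le_mul_of_nonneg_right (le_trans ?_ hcard) (Real.exp_pos _).le
      apply Real.exp_le_exp.2
      apply mul_le_mul_of_nonneg_right _ hLR.le
      linarith
    · intro w hw
      rw [mem_biUnion] at hw
      obtain ⟨u, hu, hw⟩ := hw
      rw [mem_image] at hw
      obtain ⟨v, hv, rfl⟩ := hw
      obtain ⟨h1, h2, h3, h4, h5⟩ := hS0 u hu
      obtain ⟨g1, g2, g3, g4, g5, g6, g7, g8⟩ := (hSu u hu).2 v hv
      refine ⟨?_, ?_, ?_, ?_, ?_, ?_, ?_, ?_⟩
      · rw [List.length_append, h1, g1]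
        ring
      · rw [List.sum_append, h2]
        have e : (((s + v.sum : ℕ) : ℝ) - (L * (N + 1) : ℕ) / r) =
            ((s : ℝ) - L / r) + ((v.sum : ℝ) - (L * N : ℕ) / r) := by
          push_cast
          ring
        rw [e]
        refine (abs_add_le _ _).trans ?_
        have e2 : δ * (L * (N + 1) : ℕ) = δ * L + δ * (L * N : ℕ) := by
          push_cast
          ring
        rw [e2]
        refine add_le_add (hs.trans ?_) g2
        exact mul_le_mul_of_nonneg_right hδ₁δ hLR.le
      · intro e he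
        rcases List.mem_append.1 he with he | he
        · exact h3 e he
        · exact g3 e he
      · rw [CC.ok_append]
        exact ⟨h4, g4⟩
      · rw [CC.above_append]
        refine ⟨?_, g5⟩
        apply CC.above_of_ge (by omega) c u x _ h4
        rw [h1]
        exact hMq
      · rw [Code.fin_append]
        exact g6
      · rw [Code.fin_append]
        exact g7
      · intro i hi
        rcases le_or_gt i L with hiL | hiL
        · -- inside the first block
          have e1 : (u ++ v).take i = u.take i := by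
            rw [List.take_append_of_le_length (by omega)]
          rw [e1]
          have e2 : (u.take i).sum ≤ E * (u.take i).length :=
            CC.sum_le _ fun e he => h3 e (List.mem_of_mem_take he)
          have e3 : (u.take i).length ≤ L := by
            rw [List.length_take]
            exact (min_le_left _ _).trans hiL
          have e4 : ((u.take i).sum : ℝ) ≤ L * E := by
            have : (u.take i).sum ≤ L * E := by
              calc (u.take i).sum ≤ E * (u.take i).length := e2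
                _ ≤ E * L := Nat.mul_le_mul_left _ e3
                _ = L * E := Nat.mul_comm _ _
            exact_mod_cast this
          have e5 : (0 : ℝ) ≤ ((u.take i).sum : ℝ) := Nat.cast_nonneg _
          have e6 : (i : ℝ) / r ≤ L / r := by
            apply div_le_div_of_nonneg_right _ hr0.le
            exact_mod_cast hiL
          have e7 : (0 : ℝ) ≤ (i : ℝ) / r := by positivity
          have e8 : 0 ≤ δ * (i : ℝ) := by positivity
          have e9 : (0 : ℝ) ≤ L * E := by positivity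
          have e10 : (0 : ℝ) ≤ L / r := by positivity
          rw [abs_le]
          constructor <;> linarith
        · obtain ⟨t, rfl⟩ : ∃ t, i = L + t := ⟨i - L, by omega⟩
          have e1 : (u ++ v).take (L + t) = u ++ v.take t := by
            rw [← h1, List.take_length_add_append]
          rw [e1, List.sum_append, h2]
          have ht : t ≤ v.length := by
            rw [List.length_append, h1] at hi
            omega
          have e2 := g8 t ht
          have e3 : (((s + (v.take t).sum : ℕ) : ℝ) - ((L + t : ℕ) : ℝ) / r) =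
              ((s : ℝ) - L / r) + (((v.take t).sum : ℝ) - t / r) := by
            push_cast
            ring
          rw [e3]
          refine (abs_add_le _ _).trans ?_
          have e4 : δ * ((L + t : ℕ) : ℝ) + (L * E + L / r) = δ * L + (δ * t + (L * E + L / r)) := by
            push_cast
            ring
          rw [e4]
          refine add_le_add (hs.trans ?_) e2
          exact mul_le_mul_of_nonneg_right hδ₁δ hLR.le

theorem arith {ws vs wl vl m j ln lf lb l2 lp a r η δ₁ C E : ℝ} (hlp : 0 < lp) (hr : 0 < r)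
    (hr1 : r < 1) (hrl : r * lp = l2 - a)
    (h1 : |ln - (ws * l2 - wl * lp + lb)| ≤ η * wl)
    (h2 : |lf - (vs * l2 - vl * lp + lb)| ≤ η * vl) (h3 : vs + m + j = ws)
    (h4 : |ws - wl / r| ≤ δ₁ * wl) (h5 : |vs - vl / r| ≤ δ₁ * vl + C) (hvl : vl ≤ wl)
    (hvl0 : 0 ≤ vl) (hη : 0 ≤ η) (hδ : 0 ≤ δ₁) (hm : 0 ≤ m) (hmE : m ≤ E) (hC : 0 ≤ C) :
    |m * l2 + lf - (ln - a * j)| ≤ lp * (2 * δ₁ * wl + C + E) + 2 * η * wl := by
  have hδw : δ₁ * vl ≤ δ₁ * wl := mul_le_mul_of_nonneg_left hvl hδ
  have hηw : η * vl ≤ η * wl := mul_le_mul_of_nonneg_left hvl hη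
  have hwl0 : 0 ≤ δ₁ * wl := mul_nonneg hδ (hvl0.trans hvl)
  obtain ⟨D, hD⟩ : ∃ D, D = (wl - vl) - r * (ws - vs) := ⟨_, rfl⟩
  have hDe : D = r * (vs - vl / r) - r * (ws - wl / r) := by
    rw [hD]
    field_simp
    ring
  have hDb : |D| ≤ 2 * δ₁ * wl + C := by
    rw [hDe]
    refine (abs_sub _ _).trans ?_
    rw [abs_mul, abs_mul, abs_of_pos hr]
    have e1 : r * |vs - vl / r| ≤ 1 * (δ₁ * wl + C) :=
      mul_le_mul hr1.le (h5.trans (by linarith)) (abs_nonneg _) zero_le_one
    have e2 : r * |ws - wl / r| ≤ 1 * (δ₁ * wl) :=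
      mul_le_mul hr1.le h4 (abs_nonneg _) zero_le_one
    linarith
  have hrm : r * m ≤ E := by
    have : r * m ≤ 1 * m := mul_le_mul_of_nonneg_right hr1.le hm
    linarith
  have hrm0 : 0 ≤ r * m := by positivity
  have key : m * l2 + lf - (ln - a * j) =
      (lf - (vs * l2 - vl * lp + lb)) - (ln - (ws * l2 - wl * lp + lb)) + lp * (D + r * m) := by
    have hj : j = ws - vs - m := by linarith
    have ha : a = l2 - r * lp := by linarith
    rw [hD, hj, ha]
    ring
  rw [key]
  have hDm : |D + r * m| ≤ 2 * δ₁ * wl + C + E := by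
    refine (abs_add_le _ _).trans ?_
    rw [abs_of_nonneg hrm0]
    linarith
  have e1 : |lp * (D + r * m)| ≤ lp * (2 * δ₁ * wl + C + E) := by
    rw [abs_mul, abs_of_pos hlp]
    exact mul_le_mul_of_nonneg_left hDm hlp.le
  refine (abs_add_le _ _).trans ?_
  have e2 := abs_sub (lf - (vs * l2 - vl * lp + lb)) (ln - (ws * l2 - wl * lp + lb))
  linarith

end PCL

open PCL in
/-- **(PCL)** -/
theorem t_PCL : S_PCL := by
  classical
  intro p d hA a ha ha2 hF τ hτ δ hδ v hv
  have hp3 : 3 ≤ p := by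
    rcases hA.1 with h | h <;> omega
  have hpR : (2 : ℝ) < p := by
    have : (3 : ℝ) ≤ p := by exact_mod_cast hp3
    linarith
  have hl2 : 0 < Real.log 2 := Real.log_pos (by norm_num)
  have hl2p : Real.log 2 < Real.log p := Real.log_lt_log (by norm_num) hpR
  have hlp : 0 < Real.log p := hl2.trans hl2p
  obtain ⟨r, hr⟩ : ∃ r, r = fr p a := ⟨_, rfl⟩
  rw [← hr] at hF ⊢
  have hrl : r * Real.log p = Real.log 2 - a := by
    rw [hr]
    unfold fr
    field_simp
  have hr0 : 0 < r := by
    rw [hr]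
    unfold fr
    exact div_pos (by linarith) hlp
  have hr1 : r < 1 := by
    rw [hr]
    unfold fr
    rw [div_lt_one hlp]
    linarith
  have hrp : r * Real.log p < Real.log 2 := by linarith
  -- the constants
  obtain ⟨δ₁, hδ₁, d1, d2, d3, d4⟩ : ∃ δ₁ : ℝ, 0 < δ₁ ∧ δ₁ ≤ Fp p r / r ∧ δ₁ ≤ 1 / (2 * r) ∧
      δ₁ ≤ δ / (16 * τ) ∧ δ₁ ≤ δ / (16 * τ * Real.log p) := by
    refine ⟨min (min (Fp p r / r) (1 / (2 * r))) (min (δ / (16 * τ)) (δ / (16 * τ * Real.log p))),
      by positivity, ?_, ?_, ?_, ?_⟩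
    · exact (min_le_left _ _).trans (min_le_left _ _)
    · exact (min_le_left _ _).trans (min_le_right _ _)
    · exact (min_le_right _ _).trans (min_le_left _ _)
    · exact (min_le_right _ _).trans (min_le_right _ _)
  obtain ⟨η, hη⟩ : ∃ η : ℝ, η = δ / (16 * τ) := ⟨_, rfl⟩
  have hη0 : 0 < η := by rw [hη]; positivity
  have hητ : η * τ = δ / 16 := by rw [hη]; field_simp
  have hd3 : δ₁ * τ ≤ δ / 16 := by
    calc δ₁ * τ ≤ δ / (16 * τ) * τ := mul_le_mul_of_nonneg_right d3 hτ.le
      _ = δ / 16 := by field_simp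
  have hd4 : Real.log p * (δ₁ * τ) ≤ δ / 16 := by
    calc Real.log p * (δ₁ * τ) = δ₁ * (τ * Real.log p) := by ring
      _ ≤ δ / (16 * τ * Real.log p) * (τ * Real.log p) :=
        mul_le_mul_of_nonneg_right d4 (by positivity)
      _ = δ / 16 := by field_simp
  have hd2 : δ₁ * r ≤ 1 / 2 := by
    calc δ₁ * r ≤ 1 / (2 * r) * r := mul_le_mul_of_nonneg_right d2 hr0.le
      _ = 1 / 2 := by field_simp
  obtain ⟨c, hc1, hSZ⟩ := t_SZ p d hA η hη0
  obtain ⟨L, E, M, C, hL1, hM1, hC0, H⟩ := words hA hr0 hr1 hF hrp hδ₁ c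
  have hLR : (0 : ℝ) < L := by exact_mod_cast (by omega : 0 < L)
  obtain ⟨K1, hK1⟩ : ∃ K1 : ℝ, K1 = L / r + 4 * δ₁ * L := ⟨_, rfl⟩
  obtain ⟨K2, hK2⟩ : ∃ K2 : ℝ, K2 = Real.log p * (4 * δ₁ * L + C + E) + 4 * η * L := ⟨_, rfl⟩
  refine ⟨max (max 1 ((|(M : ℝ)| + |(c : ℝ)|) / v)) (max (2 * K1 / δ) (4 * K2 / δ)),
    (le_max_left _ _).trans (le_max_left _ _), ?_⟩
  intro X hX b hb hpb
  have hX1 : 1 ≤ X := ((le_max_left _ _).trans (le_max_left _ _)).trans hX
  have hX2 : (|(M : ℝ)| + |(c : ℝ)|) / v ≤ X :=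
    ((le_max_right _ _).trans (le_max_left _ _)).trans hX
  have hX3 : 2 * K1 / δ ≤ X := ((le_max_left _ _).trans (le_max_right _ _)).trans hX
  have hX4 : 4 * K2 / δ ≤ X := ((le_max_right _ _).trans (le_max_right _ _)).trans hX
  have hX0 : 0 < X := by linarith
  rw [div_le_iff₀ hv] at hX2
  rw [div_le_iff₀ hδ] at hX3 hX4
  have hb1 : |(M : ℝ)| + |(c : ℝ)| < b := by
    have h1 := Real.add_one_le_exp (v * X)
    linarith
  have hMb : M ≤ b := by
    have h1 : (M : ℝ) < b := by linarith [le_abs_self (M : ℝ), abs_nonneg (c : ℝ)]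
    have h2 : M < b := by exact_mod_cast h1
    omega
  have hcb : c < b := by
    have h1 : (c : ℝ) < b := by linarith [le_abs_self (c : ℝ), abs_nonneg (M : ℝ)]
    exact_mod_cast h1
  have hbpos : 1 ≤ b := by omega
  -- the number of blocks
  obtain ⟨q, hq⟩ : ∃ q : ℝ, q = 1 / r - δ₁ := ⟨_, rfl⟩
  have hrq : r * q = 1 - δ₁ * r := by
    rw [hq]
    field_simp
  have hq0 : 0 < q := by
    by_contra hcon
    push Not at hcon
    nlinarith
  obtain ⟨N, hN⟩ : ∃ N : ℕ, N = ⌈τ * X / (L * q)⌉₊ := ⟨_, rfl⟩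
  have hLq : 0 < (L : ℝ) * q := by positivity
  obtain ⟨n, hn⟩ : ∃ n : ℕ, n = L * N := ⟨_, rfl⟩
  have hn0 : (0 : ℝ) ≤ n := Nat.cast_nonneg _
  have hnlow : τ * X ≤ n * q := by
    have h1 : τ * X / (L * q) ≤ N := by rw [hN]; exact Nat.le_ceil _
    rw [div_le_iff₀ hLq] at h1
    rw [hn]
    push_cast
    linarith
  have hnup : n * q ≤ τ * X + L / r := by
    have h1 : (N : ℝ) < τ * X / (L * q) + 1 := by
      rw [hN]
      exact Nat.ceil_lt_add_one (by positivity)
    have h2 : (N : ℝ) * (L * q) ≤ τ * X + L * q := by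
      have h3 : (N : ℝ) * (L * q) ≤ (τ * X / (L * q) + 1) * (L * q) :=
        mul_le_mul_of_nonneg_right h1.le hLq.le
      have h4 : (τ * X / (L * q) + 1) * (L * q) = τ * X + L * q := by
        field_simp
      linarith
    have h5 : (L : ℝ) * q ≤ L / r := by
      rw [hq]
      have : (L : ℝ) * (1 / r - δ₁) = L / r - L * δ₁ := by ring
      rw [this]
      have : 0 ≤ (L : ℝ) * δ₁ := by positivity
      linarith
    rw [hn]
    push_cast
    linarith
  have hn2 : (n : ℝ) ≤ 2 * τ * X + 2 * L := by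
    -- `n (1 / 2) ≤ n r q ≤ r (τ X + L / r)`
    have h1 : (n : ℝ) * (1 / 2) ≤ n * (r * q) := by
      apply mul_le_mul_of_nonneg_left _ hn0
      rw [hrq]
      linarith
    have h2 : (n : ℝ) * (r * q) ≤ r * (τ * X + L / r) := by
      calc (n : ℝ) * (r * q) = r * (n * q) := by ring
        _ ≤ _ := mul_le_mul_of_nonneg_left hnup hr0.le
    have h3 : r * (τ * X + L / r) = r * (τ * X) + L := by
      field_simp
    have h4 : r * (τ * X) ≤ 1 * (τ * X) := mul_le_mul_of_nonneg_right hr1.le (by positivity)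
    linarith
  have hn3 : r * (τ * X) ≤ n := by
    have h1 : (n : ℝ) * (r * q) ≤ n * 1 := by
      apply mul_le_mul_of_nonneg_left _ hn0
      rw [hrq]
      have : 0 ≤ δ₁ * r := by positivity
      linarith
    have h2 : r * (τ * X) ≤ n * (r * q) := by
      calc r * (τ * X) ≤ r * (n * q) := mul_le_mul_of_nonneg_left hnlow hr0.le
        _ = _ := by ring
    linarith
  obtain ⟨S, hS1, hS2⟩ := H N b hMb hpb
  rw [← hn] at hS1
  have hδn : δ₁ * n ≤ 2 * (δ₁ * τ) * X + 2 * δ₁ * L := by
    calc δ₁ * n ≤ δ₁ * (2 * τ * X + 2 * L) := mul_le_mul_of_nonneg_left hn2 hδ₁.le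
      _ = _ := by ring
  have hinj : Set.InjOn (fin p d b) S := by
    intro w hw w' hw' h
    obtain ⟨h1, -, -, h4, h5, -⟩ := hS2 w hw
    obtain ⟨g1, -, -, g4, g5, -⟩ := hS2 w' hw'
    have hb0 : (0 : ℝ) < b := by exact_mod_cast hbpos
    exact (t_INJ p d hA b b b w w' hb0 (by linarith) le_rfl (by linarith) le_rfl h4 g4
      (above_mono (by omega) w b h5) (above_mono (by omega) w' b g5) (by rw [h1, g1]) h).2
  refine ⟨S.image (fin p d b), ?_, ?_⟩
  · rw [card_image_of_injOn hinj]
    refine le_trans ?_ hS1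
    apply Real.exp_le_exp.2
    have h1 : (Fp p r / r - δ₁) * (r * (τ * X)) ≤ (Fp p r / r - δ₁) * n :=
      mul_le_mul_of_nonneg_left hn3 (by linarith)
    have h2 : (Fp p r / r - δ₁) * (r * (τ * X)) = τ * Fp p r * X - (δ₁ * τ) * X * r := by
      field_simp
    have h3 : (δ₁ * τ) * X * r ≤ δ * X := by
      have h4 : (δ₁ * τ) * X * r ≤ (δ₁ * τ) * X * 1 :=
        mul_le_mul_of_nonneg_left hr1.le (by positivity)
      have h5 : (δ₁ * τ) * X ≤ δ / 16 * X := mul_le_mul_of_nonneg_right hd3 hX0.le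
      have h6 : 0 ≤ δ * X := by positivity
      linarith
    have h4 : (τ * Fp p r - δ) * X = τ * Fp p r * X - δ * X := by ring
    linarith
  · intro m hm
    rw [mem_image] at hm
    obtain ⟨w, hw, rfl⟩ := hm
    obtain ⟨h1, h2, h3, h4, h5, h6, h7, h8⟩ := hS2 w hw
    rw [← hn] at h1 h2
    have hsteps := t_STEPS p d hA b w h4
    refine ⟨hM1.trans h7, h6, w.sum, ?_, ?_, hsteps.1, ?_⟩
    · -- the lower bound for the number of steps
      have e1 := (abs_le.1 h2).1
      have e2 : (n : ℝ) * q = n / r - δ₁ * n := by rw [hq]; ring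
      linarith
    · have e1 := (abs_le.1 h2).2
      have e2 : (n : ℝ) * q = n / r - δ₁ * n := by rw [hq]; ring
      have e3 : (w.sum : ℝ) ≤ τ * X + L / r + 2 * (δ₁ * n) := by linarith
      have e4 : (δ₁ * τ) * X ≤ δ / 16 * X := mul_le_mul_of_nonneg_right hd3 hX0.le
      have e5 : (τ + δ) * X = τ * X + δ * X := by ring
      have e6 : 0 ≤ δ * X := by positivity
      rw [hK1] at hX3
      linarith
    · intro j hj
      obtain ⟨i, hi, t, ht, e1, e2⟩ := path hA w b h4 j hj
      have hfi : c < fin p d b (w.take i) := above_fin _ _ hcb (above_take h5 i)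
      have hfi1 : 1 ≤ fin p d b (w.take i) := by omega
      have hfR : (0 : ℝ) < (fin p d b (w.take i) : ℝ) := by exact_mod_cast (by omega : 0 < fin p d b (w.take i))
      have hpow : (1 : ℤ) ≤ 2 ^ t := one_le_pow₀ (by norm_num)
      have htE : (t : ℝ) ≤ E := by
        have : t ≤ E := by
          rcases ht with ht | ⟨e, he, hte⟩
          · omega
          · exact hte.trans (h3 e he)
        exact_mod_cast this
      rw [e1]
      refine ⟨by nlinarith, ?_⟩
      have hcast : (((2 : ℤ) ^ t * fin p d b (w.take i) : ℤ) : ℝ) =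
          2 ^ t * (fin p d b (w.take i) : ℝ) := by push_cast; ring
      rw [hcast, Real.log_mul (by positivity) hfR.ne', Real.log_pow]
      have z1 := hSZ c b w le_rfl hbpos h4 h5
      have z2 := hSZ c b (w.take i) le_rfl hbpos (ok_take h4 i) (above_take h5 i)
      have hlen : (w.take i).length = i := by
        rw [List.length_take]
        exact min_eq_left hi
      rw [hlen] at z2
      rw [h1] at z1
      have z3 : (((w.take i).sum : ℕ) : ℝ) + t + j = (w.sum : ℝ) := by exact_mod_cast e2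
      have z5 := h8 i hi
      have hin : (i : ℝ) ≤ n := by
        have : i ≤ n := by omega
        exact_mod_cast this
      have z := arith (m := (t : ℝ)) (j := (j : ℝ)) (E := (E : ℝ)) (C := C) hlp hr0 hr1 hrl z1 z2 z3 h2 z5
        hin (Nat.cast_nonneg _) hη0.le hδ₁.le (Nat.cast_nonneg _) htE hC0
      refine z.trans ?_
      have y1 : Real.log p * (δ₁ * n) ≤ Real.log p * (2 * (δ₁ * τ) * X + 2 * δ₁ * L) :=
        mul_le_mul_of_nonneg_left hδn hlp.le
      have y2 : Real.log p * (δ₁ * τ) * X ≤ δ / 16 * X := mul_le_mul_of_nonneg_right hd4 hX0.le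
      have y3 : η * n ≤ η * (2 * τ * X + 2 * L) := mul_le_mul_of_nonneg_left hn2 hη0.le
      have y4 : η * (2 * τ * X + 2 * L) = 2 * (η * τ) * X + 2 * η * L := by ring
      rw [y4, hητ] at y3
      have y5 : Real.log p * (2 * δ₁ * n + C + E) =
          2 * (Real.log p * (δ₁ * n)) + Real.log p * (C + E) := by ring
      have y6 : Real.log p * (2 * (δ₁ * τ) * X + 2 * δ₁ * L) =
          2 * (Real.log p * (δ₁ * τ) * X) + 2 * (Real.log p * δ₁ * L) := by ring
      have y7 : Real.log p * (4 * δ₁ * L + C + E) =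
          4 * (Real.log p * δ₁ * L) + Real.log p * (C + E) := by ring
      rw [hK2, y7] at hX4
      have y8 : 0 ≤ δ * X := by positivity
      rw [y5]
      rw [y6] at y1
      have y9 : δ / 16 * X = δ * X / 16 := by ring
      rw [y9] at y2
      have y10 : 2 * (δ / 16) * X = δ * X / 8 := by ring
      rw [y10] at y3
      have y11 : 4 * η * L = 4 * (η * L) := by ring
      have y12 : 2 * η * L = 2 * (η * L) := by ring
      have y13 : 2 * η * n = 2 * (η * n) := by ring
      rw [y13]
      rw [y12] at y3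
      rw [y11] at hX4
      linarith

end Pool.Agent.N685.FD
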