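import Pool.Agent.N685.FD.Stm10
import Pool.Agent.N685.FD.Pcl
import Pool.Agent.N368.FD.FollC

/-!
PROJECT FD (helper685), part 10: FBL, lower bound for the number of the `n` which follow a list of straight
pieces down to `b`, for every `b ≥ 1` prime to `p`.
-/

set_option autoImplicit false

namespace Pool.Agent.N685.FD

open Finset Filter

namespace Fbl

open Pool.Agent.N368.FD (SpT PclT count)

/-- trajectories which consist of straight pieces followed by halvings only, down to `b` -/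
def FolBT (T : ℤ → ℤ) (δ X : ℝ) : List (ℝ × ℝ) → ℤ → ℤ → Prop
  | [], b, n => ∃ i : ℕ, (i : ℝ) ≤ δ * X ∧ n = 2 ^ i * b
  | q :: L, b, n => ∃ k : ℕ, q.2 * X ≤ k ∧ (k : ℝ) ≤ (q.2 + δ) * X ∧ SpT T q.1 (δ * X) k n ∧
      FolBT T δ X L b (T^[k] n)

theorem base (p : ℕ) (hp : Nat.Coprime p 2) (δ : ℝ) (hδ : 0 < δ) (X : ℝ) (hX : 1 ≤ X) (hX' : 2 / δ ≤ X)
    (b : ℤ) (hb : 1 ≤ b) (hpb : ¬ (p : ℤ) ∣ b) :
    ∃ n : ℤ, (∃ i : ℕ, (i : ℝ) ≤ δ * X ∧ n = 2 ^ i * b) ∧ ¬ (p : ℤ) ∣ n ∧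
      Real.exp (δ * Real.log 2 / 2 * X) ≤ n := by
  have hX0 : 0 < X := by linarith
  have hl2 : 0 < Real.log 2 := Real.log_pos (by norm_num)
  refine ⟨2 ^ ⌊δ * X⌋₊ * b, ⟨⌊δ * X⌋₊, Nat.floor_le (by positivity), rfl⟩, ?_, ?_⟩
  · intro hd
    have h1 : IsCoprime (p : ℤ) ((2 : ℤ) ^ ⌊δ * X⌋₊) := by
      apply IsCoprime.pow_right
      exact_mod_cast Nat.isCoprime_iff_coprime.2 hp
    exact hpb (h1.dvd_of_dvd_mul_left hd)
  · have h1 : δ * X - 1 ≤ (⌊δ * X⌋₊ : ℝ) := by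
      have := Nat.lt_floor_add_one (δ * X)
      linarith
    have h2 : δ * X / 2 ≤ (⌊δ * X⌋₊ : ℝ) := by
      rw [div_le_iff₀ hδ] at hX'
      nlinarith
    have h3 : Real.exp (δ * Real.log 2 / 2 * X) ≤ (2 : ℝ) ^ ⌊δ * X⌋₊ := by
      rw [← Real.rpow_natCast, Real.rpow_def_of_pos (by norm_num)]
      apply Real.exp_le_exp.2
      nlinarith
    have h4 : (1 : ℝ) ≤ b := by exact_mod_cast hb
    push_cast
    have h5 : (0 : ℝ) < (2 : ℝ) ^ ⌊δ * X⌋₊ := by positivity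
    nlinarith

theorem foll (T : ℤ → ℤ) (p : ℕ) (hp : Nat.Coprime p 2) (φ : ℝ → ℝ) (δ : ℝ) (hδ : 0 < δ)
    (L : List (ℝ × ℝ)) :
    (∀ q ∈ L, 0 < q.1 ∧ 0 < q.2 ∧ PclT T p φ q.1 q.2) → ∀ ε : ℝ, 0 < ε →
    ∃ v : ℝ, 0 < v ∧ ∃ X₀ : ℝ, 1 ≤ X₀ ∧ ∀ X : ℝ, X₀ ≤ X → ∀ b : ℤ, 1 ≤ b → ¬ (p : ℤ) ∣ b →
    ∃ F : Finset ℤ,
      (∀ n ∈ F, FolBT T δ X L b n ∧ ¬ (p : ℤ) ∣ n ∧ Real.exp (v * X) ≤ n) ∧
      Real.exp (((L.map fun q => q.2 * φ q.1).sum - ε) * X) ≤ (F.card : ℝ) := by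
  classical
  induction L with
  | nil =>
    intro _ ε hε
    refine ⟨δ * Real.log 2 / 2, by
      have := Real.log_pos (by norm_num : (1 : ℝ) < 2)
      positivity, max 1 (2 / δ), le_max_left _ _, fun X hX b hb hpb => ?_⟩
    have hX1 : 1 ≤ X := (le_max_left _ _).trans hX
    obtain ⟨n, h1, h2, h3⟩ := base p hp δ hδ X hX1 ((le_max_right _ _).trans hX) b hb hpb
    refine ⟨{n}, fun m hm => ?_, ?_⟩
    · rw [mem_singleton] at hm
      subst hm
      exact ⟨h1, h2, h3⟩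
    · rw [card_singleton, List.map_nil, List.sum_nil, Nat.cast_one]
      apply Real.exp_le_one_iff.2
      nlinarith
  | cons q L ih =>
    intro hL ε hε
    obtain ⟨hq1, hq2, hP⟩ := hL q List.mem_cons_self
    obtain ⟨v, hv, X₁, hX₁, H₁⟩ := ih (fun q' hq' => hL q' (List.mem_cons_of_mem _ hq'))
      (ε / 3) (by positivity)
    obtain ⟨δ', hδ'⟩ : ∃ δ' : ℝ, δ' = min δ (min (ε / 3) (q.1 * q.2)) := ⟨_, rfl⟩
    have hδ'0 : 0 < δ' := by
      rw [hδ']
      exact lt_min hδ (lt_min (by positivity) (by positivity))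
    have hδ'1 : δ' ≤ δ := by rw [hδ']; exact min_le_left _ _
    have hδ'2 : δ' ≤ ε / 3 := by rw [hδ']; exact (min_le_right _ _).trans (min_le_left _ _)
    have hδ'3 : δ' ≤ q.1 * q.2 := by rw [hδ']; exact (min_le_right _ _).trans (min_le_right _ _)
    obtain ⟨X₂, hX₂, H₂⟩ := hP δ' hδ'0 v hv
    -- the threshold for the number of the times
    have hev : ∀ᶠ X : ℝ in atTop, δ' * X + 2 ≤ Real.exp (ε / 3 * X) := by
      have h1 : Tendsto (fun X : ℝ => Real.exp (ε / 3 * X) / (ε / 3 * X)) atTop atTop := by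
        have h2 := Real.tendsto_exp_div_pow_atTop 1
        simp only [pow_one] at h2
        exact h2.comp (tendsto_id.const_mul_atTop (by positivity : (0 : ℝ) < ε / 3))
      filter_upwards [h1.eventually_ge_atTop (1 + 6 / ε), eventually_ge_atTop (1 : ℝ)] with X h3 h4
      have hX0 : 0 < ε / 3 * X := by positivity
      rw [le_div_iff₀ hX0] at h3
      have h5 : (1 + 6 / ε) * (ε / 3 * X) = ε / 3 * X + 2 * X := by field_simp; ring
      rw [h5] at h3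
      have h6 : δ' * X ≤ ε / 3 * X := mul_le_mul_of_nonneg_right hδ'2 (by linarith)
      linarith
    obtain ⟨X₃, hX₃⟩ := eventually_atTop.1 hev
    refine ⟨v, hv, max X₁ (max X₂ X₃), hX₁.trans (le_max_left _ _), fun X hX b₀ hb₀ hpb₀ => ?_⟩
    have hXa : X₁ ≤ X := (le_max_left _ _).trans hX
    have hXb : X₂ ≤ X := (le_max_left _ _).trans ((le_max_right _ _).trans hX)
    have hXc : X₃ ≤ X := (le_max_right _ _).trans ((le_max_right _ _).trans hX)
    have hX1 : 1 ≤ X := hX₁.trans hXa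
    have hX0 : 0 < X := by linarith
    obtain ⟨B, hB1, hB2⟩ := H₁ X hXa b₀ hb₀ hpb₀
    have hG : ∀ b : ℤ, ∃ G : Finset ℤ, b ∈ B → Real.exp ((q.2 * φ q.1 - δ') * X) ≤ (G.card : ℝ) ∧
        ∀ n ∈ G, 1 ≤ n ∧ ¬ (p : ℤ) ∣ n ∧ ∃ k : ℕ, q.2 * X ≤ k ∧ (k : ℝ) ≤ (q.2 + δ') * X ∧
          T^[k] n = b ∧ SpT T q.1 (δ' * X) k n := by
      intro b
      by_cases hb : b ∈ B
      · obtain ⟨G, hG⟩ := H₂ X hXb b (hB1 b hb).2.2 (hB1 b hb).2.1
        exact ⟨G, fun _ => hG⟩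
      · exact ⟨∅, fun h => absurd h hb⟩
    choose G hG using hG
    refine ⟨B.biUnion G, ?_, ?_⟩
    · intro n hn
      rw [mem_biUnion] at hn
      obtain ⟨b, hb, hnb⟩ := hn
      obtain ⟨hn1, hnp, k, k1, k2, k3, k4⟩ := (hG b hb).2 n hnb
      obtain ⟨hb1, hb2, hb3⟩ := hB1 b hb
      refine ⟨⟨k, k1, k2.trans ?_, k4.mono ?_, ?_⟩, hnp, ?_⟩
      · exact mul_le_mul_of_nonneg_right (by linarith) hX0.le
      · exact mul_le_mul_of_nonneg_right hδ'1 hX0.le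
      · rw [k3]
        exact hb1
      · have h5 := (k4 k le_rfl).2
        rw [k3] at h5
        have hbpos : (0 : ℝ) < b := (Real.exp_pos _).trans_le hb3
        have hnpos : (0 : ℝ) < n := by
          have : (0 : ℤ) < n := by linarith
          exact_mod_cast this
        rw [← Real.le_log_iff_exp_le hbpos] at hb3
        rw [← Real.le_log_iff_exp_le hnpos]
        have h6 := (abs_le.1 h5).2
        have h7 : q.1 * (q.2 * X) ≤ q.1 * k := mul_le_mul_of_nonneg_left k1 hq1.le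
        have h8 : δ' * X ≤ q.1 * q.2 * X := mul_le_mul_of_nonneg_right hδ'3 hX0.le
        linarith
    · have hc := count (B := B) (G := G) (T := T) (x := q.2 * X) (y := (q.2 + δ') * X)
        (g := Real.exp ((q.2 * φ q.1 - δ') * X)) (by positivity) (by nlinarith) (fun b hb => (hG b hb).1) (by
          intro b hb n hn
          obtain ⟨-, -, k, k1, k2, k3, -⟩ := (hG b hb).2 n hn
          exact ⟨k, k1, k2, k3⟩)
      have h3 := hX₃ X hXc
      have h4 : (q.2 + δ') * X - q.2 * X + 2 ≤ Real.exp (ε / 3 * X) := by linarith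
      have h5 : (B.card : ℝ) * Real.exp ((q.2 * φ q.1 - δ') * X) ≤
          ((B.biUnion G).card : ℝ) * Real.exp (ε / 3 * X) :=
        hc.trans (mul_le_mul_of_nonneg_left h4 (Nat.cast_nonneg _))
      have h6 : Real.exp (((L.map fun q => q.2 * φ q.1).sum - ε / 3) * X) *
          Real.exp ((q.2 * φ q.1 - δ') * X) ≤ ((B.biUnion G).card : ℝ) * Real.exp (ε / 3 * X) :=
        (mul_le_mul_of_nonneg_right hB2 (Real.exp_pos _).le).trans h5
      rw [← Real.exp_add] at h6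
      rw [List.map_cons, List.sum_cons]
      have h7 : Real.exp ((q.2 * φ q.1 + (L.map fun q => q.2 * φ q.1).sum - ε) * X) * Real.exp (ε / 3 * X) ≤
          ((B.biUnion G).card : ℝ) * Real.exp (ε / 3 * X) := by
        refine le_trans ?_ h6
        rw [← Real.exp_add]
        apply Real.exp_le_exp.2
        nlinarith
      exact le_of_mul_le_mul_right h7 (Real.exp_pos _)

theorem fol_eq (p : ℕ) (d : ℤ) (δ X : ℝ) (L : List (ℝ × ℝ)) : ∀ (b n : ℤ),
    FolBT (T p d) δ X L b n → FolB p d δ X L b n := by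
  induction L with
  | nil => exact fun b n h => h
  | cons q L ih =>
    rintro b n ⟨k, h1, h2, h3, h4⟩
    exact ⟨k, h1, h2, h3, ih _ _ h4⟩

end Fbl

theorem t_FBL : S_FBL := by
  intro p d hA L hL δ hδ ε hε
  have hp : Nat.Coprime p 2 := by rcases hA.1 with h | h <;> subst h <;> norm_num
  obtain ⟨v, _, X₀, _, H⟩ := Fbl.foll (T p d) p hp (fun a => Fp p (fr p a)) δ hδ L
    (fun q hq => ⟨(hL q hq).1, (hL q hq).2.2.1, fun δ' hδ' v hv =>
      t_PCL p d hA q.1 (hL q hq).1 (hL q hq).2.1 (hL q hq).2.2.2 q.2 (hL q hq).2.2.1 δ' hδ' v hv⟩) ε hε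
  refine ⟨X₀, fun X hX b hb hpb => ?_⟩
  obtain ⟨F, hF1, hF2⟩ := H X hX b hb hpb
  exact ⟨F, fun n hn => Fbl.fol_eq p d δ X L b n (hF1 n hn).1, hF2⟩

end Pool.Agent.N685.FD
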