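import Pool.Agent.N685.FD.Stm7

/-!
PROJECT FD (helper685), part 7, FT (helper559): who follows the list is in the tube
-/

set_option autoImplicit false

namespace Pool.Agent.N685.FD

namespace Ft

theorem pro_zero : ∀ (L : List (ℝ × ℝ)), (∀ q ∈ L, 0 ≤ q.1 ∧ q.1 ≤ 1 ∧ 0 ≤ q.2) → ∀ u : ℝ,
    pro L u 0 = u
  | [], _, u => rfl
  | q :: L, h, u => by
    rw [pro, if_pos (h q (List.mem_cons_self ..)).2.2, mul_zero, sub_zero]

theorem pro_lip : ∀ (L : List (ℝ × ℝ)), (∀ q ∈ L, 0 ≤ q.1 ∧ q.1 ≤ 1 ∧ 0 ≤ q.2) →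
    ∀ u s t : ℝ, 0 ≤ s → s ≤ t → 0 ≤ pro L u s - pro L u t ∧ pro L u s - pro L u t ≤ t - s
  | [], _, u, s, t, hs, hst => by
    simp only [pro]
    constructor <;> linarith
  | q :: L, h, u, s, t, hs, hst => by
    obtain ⟨h1, h2, h3⟩ := h q (List.mem_cons_self ..)
    have h' : ∀ q ∈ L, 0 ≤ q.1 ∧ q.1 ≤ 1 ∧ 0 ≤ q.2 := fun q hq => h q (List.mem_cons_of_mem _ hq)
    by_cases ht : t ≤ q.2
    · rw [pro, pro, if_pos ht, if_pos (hst.trans ht)]
      constructor <;> nlinarith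
    · by_cases hs2 : s ≤ q.2
      · rw [pro, pro, if_pos hs2, if_neg ht]
        obtain ⟨i1, i2⟩ := pro_lip L h' (u - q.1 * q.2) 0 (t - q.2) le_rfl
          (by linarith [not_le.1 ht])
        rw [pro_zero L h'] at i1 i2
        constructor <;> nlinarith
      · rw [pro, pro, if_neg hs2, if_neg ht]
        obtain ⟨i1, i2⟩ := pro_lip L h' (u - q.1 * q.2) (s - q.2) (t - q.2)
          (by linarith [not_le.1 hs2]) (by linarith)
        constructor <;> linarith

theorem pro_abs {L : List (ℝ × ℝ)} (h : ∀ q ∈ L, 0 ≤ q.1 ∧ q.1 ≤ 1 ∧ 0 ≤ q.2) (u : ℝ) {s t : ℝ}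
    (hs : 0 ≤ s) (ht : 0 ≤ t) : |pro L u s - pro L u t| ≤ |s - t| := by
  rcases le_total s t with hst | hst
  · obtain ⟨i1, i2⟩ := pro_lip L h u s t hs hst
    rw [abs_of_nonneg i1, abs_of_nonpos (by linarith)]
    linarith
  · obtain ⟨i1, i2⟩ := pro_lip L h u t s ht hst
    rw [abs_of_nonpos (by linarith), abs_of_nonneg (by linarith)]
    linarith

theorem Fol_mono {p : ℕ} {d : ℤ} {δ₁ δ₂ X : ℝ} (hX : 0 < X) (h : δ₁ ≤ δ₂) :
    ∀ (L : List (ℝ × ℝ)) (u : ℝ) (n : ℤ), Fol p d δ₁ X L u n → Fol p d δ₂ X L u n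
  | [], u, n, hf => ⟨hf.1, hf.2.trans (mul_le_mul_of_nonneg_right h hX.le)⟩
  | q :: L, u, n, hf => by
    obtain ⟨k, h1, h2, h3, h4⟩ := hf
    exact ⟨k, h1, h2.trans (mul_le_mul_of_nonneg_right (by linarith) hX.le),
      fun j hj => ⟨(h3 j hj).1, (h3 j hj).2.trans (mul_le_mul_of_nonneg_right h hX.le)⟩,
      Fol_mono hX h L _ _ h4⟩

theorem main (p : ℕ) (d : ℤ) : ∀ L : List (ℝ × ℝ), (∀ q ∈ L, 0 ≤ q.1 ∧ q.1 ≤ 1 ∧ 0 ≤ q.2) →
    ∀ u δ : ℝ, 0 < δ → ∃ δ' : ℝ, 0 < δ' ∧ ∀ (X : ℝ) (n : ℤ), 0 < X → Fol p d δ' X L u n →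
      n ∈ Tub p d L u δ X
  | [], _, u, δ, hδ => by
    refine ⟨δ, hδ, fun X n hX hf => ⟨hf.1, fun j hj => ?_⟩⟩
    have h0 : (j : ℝ) ≤ 0 := by simpa [dur] using hj
    have hj0 : j = 0 := by
      have : j ≤ 0 := by exact_mod_cast h0
      omega
    subst hj0
    exact ⟨hf.1, hf.2⟩
  | q :: L, h, u, δ, hδ => by
    obtain ⟨h1, h2, h3⟩ := h q (List.mem_cons_self ..)
    have h' : ∀ q ∈ L, 0 ≤ q.1 ∧ q.1 ≤ 1 ∧ 0 ≤ q.2 := fun q hq => h q (List.mem_cons_of_mem _ hq)
    set u' : ℝ := u - q.1 * q.2 with hu'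
    obtain ⟨δL, hδL, IH⟩ := main p d L h' u' (δ / 4) (by linarith)
    refine ⟨min δL (δ / 8), lt_min hδL (by linarith), fun X n hX hf => ?_⟩
    set δ' := min δL (δ / 8) with hδ'
    have hd8 : δ' ≤ δ / 8 := min_le_right _ _
    have hd0 : 0 < δ' := lt_min hδL (by linarith)
    obtain ⟨k, hk1, hk2, hSp, hF⟩ := hf
    set b := (T p d)^[k] n with hb
    obtain ⟨hb1, hbT⟩ := IH X b hX (Fol_mono hX (min_le_left _ _) L u' b hF)
    have hdur : 0 ≤ dur L := by
      unfold dur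
      apply List.sum_nonneg
      intro x hx
      obtain ⟨q', hq', rfl⟩ := List.mem_map.1 hx
      exact (h' q' hq').2.2
    -- the heights
    have t0 := (hbT 0 (by rw [Nat.cast_zero]; positivity)).2
    rw [Nat.cast_zero, zero_div, pro_zero L h', Function.iterate_zero, id] at t0
    have s0 := (hSp k le_rfl).2
    rw [← hb] at s0
    have ak1 : q.1 * (q.2 * X) ≤ q.1 * k := mul_le_mul_of_nonneg_left hk1 h1
    have ak2 : q.1 * (k - q.2 * X) ≤ δ' * X := by
      have e1 : (k : ℝ) - q.2 * X ≤ δ' * X := by linarith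
      have e2 : 0 ≤ (k : ℝ) - q.2 * X := by linarith
      nlinarith
    have hdX : δ' * X ≤ δ / 8 * X := mul_le_mul_of_nonneg_right hd8 hX.le
    have hdX0 : 0 ≤ δ' * X := by positivity
    have huX : u' * X = u * X - q.1 * (q.2 * X) := by rw [hu']; ring
    rw [abs_le] at t0 s0
    have n0 : |Real.log n - u * X| ≤ δ / 2 * X := by
      rw [abs_le]
      constructor <;> nlinarith [t0.1, t0.2, s0.1, s0.2]
    have hn1 : 1 ≤ n := (hSp 0 (Nat.zero_le _)).1
    refine ⟨hn1, fun j hj => ?_⟩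
    have hdc : dur (q :: L) = q.2 + dur L := by simp [dur]
    rw [hdc] at hj
    have hjX : (j : ℝ) / X * X = j := div_mul_cancel₀ _ hX.ne'
    rw [abs_le] at n0
    by_cases hjk : j ≤ k
    · obtain ⟨c1, c2⟩ := hSp j hjk
      refine ⟨c1, ?_⟩
      rw [abs_le] at c2
      have hjk' : (j : ℝ) ≤ k := by exact_mod_cast hjk
      by_cases hjt : (j : ℝ) / X ≤ q.2
      · have e : pro (q :: L) u ((j : ℝ) / X) * X = u * X - q.1 * j := by
          rw [pro, if_pos hjt, sub_mul, mul_assoc, hjX]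
        rw [e, abs_le]
        constructor <;> nlinarith [c2.1, c2.2, n0.1, n0.2]
      · have hjt' := not_le.1 hjt
        have hjt2 : q.2 * X ≤ j := by
          have := mul_le_mul_of_nonneg_right hjt'.le hX.le
          rwa [hjX] at this
        have e : pro (q :: L) u ((j : ℝ) / X) = pro L u' ((j : ℝ) / X - q.2) := by
          rw [pro, if_neg hjt]
        have l1 := pro_abs h' u' (s := (j : ℝ) / X - q.2) (t := 0) (by linarith) le_rfl
        rw [pro_zero L h', sub_zero, abs_of_nonneg (a := (j : ℝ) / X - q.2) (by linarith)] at l1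
        have l2 : |pro L u' ((j : ℝ) / X - q.2) * X - u' * X| ≤ δ' * X := by
          rw [← sub_mul, abs_mul, abs_of_pos hX]
          refine mul_le_mul_of_nonneg_right (l1.trans ?_) hX.le
          rw [sub_le_iff_le_add, div_le_iff₀ hX]
          linarith
        rw [e, abs_le]
        rw [abs_le] at l2
        have aj1 : q.1 * (q.2 * X) ≤ q.1 * j := mul_le_mul_of_nonneg_left hjt2 h1
        have aj2 : q.1 * j ≤ q.1 * k := mul_le_mul_of_nonneg_left hjk' h1
        constructor <;> nlinarith [c2.1, c2.2, n0.1, n0.2, l2.1, l2.2]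
    · have hkj : k ≤ j := by omega
      have hkj' : (k : ℝ) < j := by exact_mod_cast (not_le.1 hjk)
      obtain ⟨m, rfl⟩ := Nat.exists_eq_add_of_le hkj
      have hit : (T p d)^[k + m] n = (T p d)^[m] b := by
        rw [hb, ← Function.iterate_add_apply, add_comm]
      rw [Nat.cast_add] at hj hkj' hjX
      have hmd : (m : ℝ) ≤ dur L * X := by nlinarith
      obtain ⟨c1, c2⟩ := hbT m hmd
      rw [hit]
      refine ⟨c1, ?_⟩
      have hjt : ¬ ((k + m : ℕ) : ℝ) / X ≤ q.2 := by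
        rw [not_le, lt_div_iff₀ hX, Nat.cast_add]
        linarith
      have e : pro (q :: L) u (((k + m : ℕ) : ℝ) / X) =
          pro L u' (((k + m : ℕ) : ℝ) / X - q.2) := by
        rw [pro, if_neg hjt]
      have l1 := pro_abs h' u' (s := ((k + m : ℕ) : ℝ) / X - q.2) (t := (m : ℝ) / X)
        (by linarith [not_le.1 hjt]) (by positivity)
      have e2 : ((k + m : ℕ) : ℝ) / X - q.2 - (m : ℝ) / X = (k : ℝ) / X - q.2 := by
        rw [Nat.cast_add, add_div]
        ring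
      have hkX : q.2 ≤ (k : ℝ) / X := by
        rw [le_div_iff₀ hX]
        exact hk1
      rw [e2, abs_of_nonneg (a := (k : ℝ) / X - q.2) (by linarith)] at l1
      have l2 : |pro L u' (((k + m : ℕ) : ℝ) / X - q.2) * X - pro L u' ((m : ℝ) / X) * X| ≤
          δ' * X := by
        rw [← sub_mul, abs_mul, abs_of_pos hX]
        refine mul_le_mul_of_nonneg_right (l1.trans ?_) hX.le
        rw [sub_le_iff_le_add, div_le_iff₀ hX]
        linarith
      rw [e]
      rw [abs_le] at l2 c2 ⊢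
      constructor <;> nlinarith [c2.1, c2.2, l2.1, l2.2]

end Ft

/-- **FT** -/
theorem t_FT : S_FT := by
  intro p d _ L hL u δ hδ
  refine Ft.main p d L (fun q hq => ?_) u δ hδ
  obtain ⟨h1, h2, h3⟩ := hL q hq
  exact ⟨h1.le, h2.le.trans (by linarith [Real.log_two_lt_d9]), h3.le⟩

end Pool.Agent.N685.FD
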