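import Pool.Agent.N685.FD.Stm10
import Pool.Agent.N685.FD.Ft

/-!
PROJECT FD (helper685), part 10, FBT (helper617): who follows the list down to `b` is in the tube.
The induction is the one of `Ft.main` (helper559).
-/

set_option autoImplicit false

namespace Pool.Agent.N685.FD

namespace Fbt

theorem T_even (p : ℕ) (d : ℤ) (m : ℕ) (b : ℤ) : T p d (2 ^ (m + 1) * b) = 2 ^ m * b := by
  have e : (2 : ℤ) ^ (m + 1) * b = 2 * (2 ^ m * b) := by ring
  rw [T, e, if_pos (by omega)]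
  omega

theorem iter_even (p : ℕ) (d : ℤ) (b : ℤ) : ∀ j i : ℕ, j ≤ i →
    (T p d)^[j] (2 ^ i * b) = 2 ^ (i - j) * b
  | 0, i, _ => by simp
  | j + 1, i, h => by
    obtain ⟨m, rfl⟩ : ∃ m, i = m + 1 := ⟨i - 1, by omega⟩
    rw [Function.iterate_succ_apply, T_even, iter_even p d b j m (by omega)]
    congr 2
    omega

theorem FolB_mono {p : ℕ} {d : ℤ} {δ₁ δ₂ X : ℝ} (hX : 0 < X) (h : δ₁ ≤ δ₂) :
    ∀ (L : List (ℝ × ℝ)) (b n : ℤ), FolB p d δ₁ X L b n → FolB p d δ₂ X L b n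
  | [], b, n, hf => by
    obtain ⟨i, h1, h2⟩ := hf
    exact ⟨i, h1.trans (mul_le_mul_of_nonneg_right h hX.le), h2⟩
  | q :: L, b, n, hf => by
    obtain ⟨k, h1, h2, h3, h4⟩ := hf
    exact ⟨k, h1, h2.trans (mul_le_mul_of_nonneg_right (by linarith) hX.le),
      fun j hj => ⟨(h3 j hj).1, (h3 j hj).2.trans (mul_le_mul_of_nonneg_right h hX.le)⟩,
      FolB_mono hX h L _ _ h4⟩

theorem main (p : ℕ) (d : ℤ) : ∀ L : List (ℝ × ℝ), (∀ q ∈ L, 0 ≤ q.1 ∧ q.1 ≤ 1 ∧ 0 ≤ q.2) →
    ∀ δ : ℝ, 0 < δ → ∃ δ' : ℝ, 0 < δ' ∧ ∀ (X : ℝ) (b n : ℤ), 0 < X → 1 ≤ b →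
      FolB p d δ' X L b n → n ∈ TubB p d L δ X b
  | [], _, δ, hδ => by
    refine ⟨δ, hδ, fun X b n hX hb hf => ?_⟩
    obtain ⟨i, hi, rfl⟩ := hf
    have hdur : dur [] = 0 := by simp [dur]
    refine ⟨i, ?_, ?_, fun j hj => ?_⟩
    · rw [hdur, zero_mul, sub_zero, abs_of_nonneg (Nat.cast_nonneg i)]
      exact hi
    · rw [iter_even p d b i i le_rfl, Nat.sub_self, pow_zero, one_mul]
    · rw [iter_even p d b j i hj]
      have hp : (1 : ℤ) ≤ 2 ^ (i - j) := one_le_pow₀ (by norm_num)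
      refine ⟨by nlinarith, ?_⟩
      have hb0 : (b : ℝ) ≠ 0 := by
        have : (b : ℤ) ≠ 0 := by omega
        exact_mod_cast this
      have e : Real.log ((2 ^ (i - j) * b : ℤ) : ℝ) = ((i - j : ℕ) : ℝ) * Real.log 2 + Real.log b := by
        push_cast
        rw [Real.log_mul (by positivity) hb0, Real.log_pow]
      have e2 : pro [] (fal []) ((j : ℝ) / X) = 0 := by simp [pro, fal]
      rw [e, e2, zero_mul, sub_zero, add_sub_cancel_right]
      have hl0 : 0 ≤ Real.log 2 := Real.log_nonneg (by norm_num)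
      have hl1 : Real.log 2 ≤ 1 := by linarith [Real.log_two_lt_d9]
      have hc : ((i - j : ℕ) : ℝ) ≤ i := by exact_mod_cast Nat.sub_le i j
      have hc0 : (0 : ℝ) ≤ ((i - j : ℕ) : ℝ) := Nat.cast_nonneg _
      rw [abs_of_nonneg (mul_nonneg hc0 hl0)]
      nlinarith
  | q :: L, h, δ, hδ => by
    obtain ⟨h1, h2, h3⟩ := h q (List.mem_cons_self ..)
    have h' : ∀ q ∈ L, 0 ≤ q.1 ∧ q.1 ≤ 1 ∧ 0 ≤ q.2 := fun q hq => h q (List.mem_cons_of_mem _ hq)
    have hfal : fal (q :: L) = q.1 * q.2 + fal L := by simp [fal]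
    have hdc : dur (q :: L) = q.2 + dur L := by simp [dur]
    have hfs : fal (q :: L) - q.1 * q.2 = fal L := by rw [hfal]; ring
    obtain ⟨δL, hδL, IH⟩ := main p d L h' (δ / 4) (by linarith)
    refine ⟨min δL (δ / 8), lt_min hδL (by linarith), fun X b n hX hb1 hf => ?_⟩
    set δ' := min δL (δ / 8) with hδ'
    have hd8 : δ' ≤ δ / 8 := min_le_right _ _
    have hd0 : 0 < δ' := lt_min hδL (by linarith)
    obtain ⟨k, hk1, hk2, hSp, hF⟩ := hf
    set c := (T p d)^[k] n with hc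
    obtain ⟨K, hK1, hK2, hcT⟩ := IH X b c hX hb1 (FolB_mono hX (min_le_left _ _) L b c hF)
    -- the heights
    have t0 := (hcT 0 (Nat.zero_le _)).2
    rw [Nat.cast_zero, zero_div, Ft.pro_zero L h', Function.iterate_zero, id] at t0
    have s0 := (hSp k le_rfl).2
    rw [← hc] at s0
    have ak1 : q.1 * (q.2 * X) ≤ q.1 * k := mul_le_mul_of_nonneg_left hk1 h1
    have ak2 : q.1 * (k - q.2 * X) ≤ δ' * X := by
      have e1 : (k : ℝ) - q.2 * X ≤ δ' * X := by linarith
      have e2 : 0 ≤ (k : ℝ) - q.2 * X := by linarith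
      nlinarith
    have hdX : δ' * X ≤ δ / 8 * X := mul_le_mul_of_nonneg_right hd8 hX.le
    have hdX0 : 0 ≤ δ' * X := by positivity
    have huX : fal (q :: L) * X = q.1 * (q.2 * X) + fal L * X := by rw [hfal]; ring
    rw [abs_le] at t0 s0 hK1
    refine ⟨K + k, ?_, ?_, fun j hj => ?_⟩
    · rw [hdc, abs_le, Nat.cast_add]
      constructor <;> linarith [hK1.1, hK1.2]
    · rw [Function.iterate_add_apply, ← hc, hK2]
    have hjX : (j : ℝ) / X * X = j := div_mul_cancel₀ _ hX.ne'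
    by_cases hjk : j ≤ k
    · obtain ⟨c1, c2⟩ := hSp j hjk
      refine ⟨c1, ?_⟩
      rw [abs_le] at c2
      have hjk' : (j : ℝ) ≤ k := by exact_mod_cast hjk
      by_cases hjt : (j : ℝ) / X ≤ q.2
      · have e : pro (q :: L) (fal (q :: L)) ((j : ℝ) / X) * X = fal (q :: L) * X - q.1 * j := by
          rw [pro, if_pos hjt, sub_mul, mul_assoc, hjX]
        rw [e, abs_le]
        constructor <;> linarith [c2.1, c2.2, t0.1, t0.2, s0.1, s0.2]
      · have hjt' := not_le.1 hjt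
        have hjt2 : q.2 * X ≤ j := by
          have := mul_le_mul_of_nonneg_right hjt'.le hX.le
          rwa [hjX] at this
        have e : pro (q :: L) (fal (q :: L)) ((j : ℝ) / X) = pro L (fal L) ((j : ℝ) / X - q.2) := by
          rw [pro, if_neg hjt, hfs]
        have l1 := Ft.pro_abs h' (fal L) (s := (j : ℝ) / X - q.2) (t := 0) (by linarith) le_rfl
        rw [Ft.pro_zero L h', sub_zero, abs_of_nonneg (a := (j : ℝ) / X - q.2) (by linarith)] at l1
        have l2 : |pro L (fal L) ((j : ℝ) / X - q.2) * X - fal L * X| ≤ δ' * X := by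
          rw [← sub_mul, abs_mul, abs_of_pos hX]
          refine mul_le_mul_of_nonneg_right (l1.trans ?_) hX.le
          rw [sub_le_iff_le_add, div_le_iff₀ hX]
          linarith
        rw [e, abs_le]
        rw [abs_le] at l2
        have aj1 : q.1 * (q.2 * X) ≤ q.1 * j := mul_le_mul_of_nonneg_left hjt2 h1
        have aj2 : q.1 * j ≤ q.1 * k := mul_le_mul_of_nonneg_left hjk' h1
        constructor <;> linarith [c2.1, c2.2, t0.1, t0.2, s0.1, s0.2, l2.1, l2.2]
    · have hkj : k ≤ j := by omega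
      have hkj' : (k : ℝ) < j := by exact_mod_cast (not_le.1 hjk)
      obtain ⟨m, rfl⟩ := Nat.exists_eq_add_of_le hkj
      have hit : (T p d)^[k + m] n = (T p d)^[m] c := by
        rw [hc, ← Function.iterate_add_apply, add_comm]
      rw [Nat.cast_add] at hkj' hjX
      obtain ⟨c1, c2⟩ := hcT m (by omega)
      rw [hit]
      refine ⟨c1, ?_⟩
      have hjt : ¬ ((k + m : ℕ) : ℝ) / X ≤ q.2 := by
        rw [not_le, lt_div_iff₀ hX, Nat.cast_add]
        linarith
      have e : pro (q :: L) (fal (q :: L)) (((k + m : ℕ) : ℝ) / X) =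
          pro L (fal L) (((k + m : ℕ) : ℝ) / X - q.2) := by
        rw [pro, if_neg hjt, hfs]
      have l1 := Ft.pro_abs h' (fal L) (s := ((k + m : ℕ) : ℝ) / X - q.2) (t := (m : ℝ) / X)
        (by linarith [not_le.1 hjt]) (by positivity)
      have e2 : ((k + m : ℕ) : ℝ) / X - q.2 - (m : ℝ) / X = (k : ℝ) / X - q.2 := by
        rw [Nat.cast_add, add_div]
        ring
      have hkX : q.2 ≤ (k : ℝ) / X := by
        rw [le_div_iff₀ hX]
        exact hk1
      rw [e2, abs_of_nonneg (a := (k : ℝ) / X - q.2) (by linarith)] at l1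
      have l2 : |pro L (fal L) (((k + m : ℕ) : ℝ) / X - q.2) * X - pro L (fal L) ((m : ℝ) / X) * X| ≤
          δ' * X := by
        rw [← sub_mul, abs_mul, abs_of_pos hX]
        refine mul_le_mul_of_nonneg_right (l1.trans ?_) hX.le
        rw [sub_le_iff_le_add, div_le_iff₀ hX]
        linarith
      rw [e]
      rw [abs_le] at l2 c2 ⊢
      constructor <;> linarith [c2.1, c2.2, l2.1, l2.2]

end Fbt

/-- **FBT** -/
theorem t_FBT : S_FBT := by
  intro p d _ L hL δ hδ
  obtain ⟨δ', h1, h2⟩ := Fbt.main p d L (fun q hq => by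
    obtain ⟨h1, h2, h3⟩ := hL q hq
    exact ⟨h1.le, h2.le.trans (by linarith [Real.log_two_lt_d9]), h3.le⟩) δ hδ
  exact ⟨δ', h1, 1, one_pos, fun X hX b n hb hf => h2 X b n (by linarith) hb hf⟩

end Pool.Agent.N685.FD
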