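import Pool.Agent.N685.FD.NgU

/-! Project FD: negative odd integers entering a cycle at a given element after exactly `k` steps, for
all `k` up to the mean (compare `Pool/Agent/Y966/Ng`). -/

set_option autoImplicit false
set_option linter.unusedVariables false

namespace Pool.Agent.N685.FD

open Finset Filter Topology Pool.Agent.H395R2.G3 Pool.Agent.Y966.LD Pool.Agent.Y966.Ng

/-- upper bound -/
theorem ng_up_core {c : ℤ} (hc : c % 2 = 1) (hp : Per c) {z : ℝ} (h0 : 1 / 2 < z) (h1 : z < 1) {ε : ℝ}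
    (hε : 0 < ε) :
    ∃ X₀ : ℝ, 1 < X₀ ∧ ∀ x : ℝ, X₀ ≤ x → ∀ k : ℕ, (k : ℝ) ≤ 4 * Real.log x →
      ((ES c x k).ncard : ℝ) ≤ Real.exp (Real.log x * (uu (k / Real.log x) z + ε)) := by
  have hl2 : 0 < Real.log 2 := Real.log_pos (by norm_num)
  have hl3 : 0 < Real.log 3 := Real.log_pos (by norm_num)
  have hl23 : Real.log 2 < Real.log 3 := Real.log_lt_log (by norm_num) (by norm_num)
  obtain ⟨ha, hab⟩ := FT.tilt_facts h0 h1
  set W : ℝ := (1 + 4 * Real.log 3) / Real.log 2 with hW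
  have hW0 : 0 < W := by positivity
  obtain ⟨C, hC, hup⟩ := hn_upper c h0 h1 (show 0 < ε / (4 * W) by positivity)
  set A : ℝ := -Real.log z / Real.log 2 with hA
  have hA0 : 0 < A := by positivity
  obtain ⟨K₂, hK₂0, hK₂⟩ := log_lin (show 0 < ε / (4 * W) by positivity)
  set L₀ : ℝ := max 1 (4 * (K₂ + |Real.log C|) / ε) with hL₀
  refine ⟨Real.exp L₀, ?_, fun x hx k hk => ?_⟩
  · have : 1 ≤ L₀ := le_max_left _ _
    have h2 := Real.add_one_le_exp L₀
    linarith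
  have hx0 : 0 < x := lt_of_lt_of_le (Real.exp_pos _) hx
  have hL : L₀ ≤ Real.log x := by
    rw [Real.le_log_iff_exp_le hx0]
    exact hx
  set L : ℝ := Real.log x with hLdef
  have hL1 : 1 ≤ L := (le_max_left _ _).trans hL
  have hL2 : 4 * (K₂ + |Real.log C|) / ε ≤ L := (le_max_right _ _).trans hL
  have hkn : (0 : ℝ) ≤ k := Nat.cast_nonneg k
  set a : ℝ := -Real.log z with hadef
  set b : ℝ := -Real.log (3 * (1 - z) / z) with hbdef
  set Sr : ℝ := (L + k * Real.log 3) / Real.log 2 with hSr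
  have hSr0 : 0 ≤ Sr := by positivity
  have hSrW : Sr ≤ W * L := by
    rw [hSr, hW, div_mul_eq_mul_div]
    apply div_le_div_of_nonneg_right _ hl2.le
    have : k * Real.log 3 ≤ 4 * L * Real.log 3 := mul_le_mul_of_nonneg_right hk hl3.le
    linarith
  set K : ℕ := ⌊Sr⌋₊ with hK
  have hKle : (K : ℝ) ≤ Sr := Nat.floor_le hSr0
  classical
  have hcov : ∀ m ∈ ES c x k, ∃ s ∈ range (K + 1), m ∈ Hn c s k := by
    rintro m ⟨hm1, hm2, hm3, hm4, hm5⟩
    obtain ⟨s, hs1, hs2⟩ := Sy_to_T k m hm1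
    rw [hm4] at hs1
    refine ⟨s, ?_, hm2, hs1, hs2, ?_⟩
    swap
    · intro i hi hic
      have e1 := T_to_Sy i m hm1 (by rw [hic]; exact hc)
      rw [hic] at e1
      have e2 : oc s m = oc i m + oc (s - i) (TZ^[i] m) := by
        rw [← oc_add, Nat.add_sub_cancel' hi.le]
      have e3 : 1 ≤ oc (s - i) (TZ^[i] m) := by
        rw [hic]
        obtain ⟨j, hj⟩ : ∃ j, s - i = j + 1 := ⟨s - i - 1, by omega⟩
        rw [hj, oc_succ', if_pos hc]
        omega
      refine hm5 (oc i m) (by omega) ?_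
      rw [e1]
      exact hp
    rw [mem_range, Nat.lt_succ_iff]
    apply Nat.le_floor
    have hge := size_ge hm2 s
    rw [hs2] at hge
    have hTn := TZ_iter_neg hm2 s
    have h1' : (1 : ℝ) ≤ |((TZ^[s] m : ℤ) : ℝ)| := by
      have : (1 : ℤ) ≤ |TZ^[s] m| := by rw [abs_of_neg hTn]; omega
      exact_mod_cast this
    have hmx : |(m : ℝ)| ≤ x := by
      have : (m : ℝ) < 0 := by exact_mod_cast hm2
      rw [abs_of_neg this]
      linarith
    have h2' : (2 : ℝ) ^ s ≤ 3 ^ k * x := by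
      calc (2 : ℝ) ^ s = 2 ^ s * 1 := by ring
        _ ≤ 2 ^ s * |((TZ^[s] m : ℤ) : ℝ)| := mul_le_mul_of_nonneg_left h1' (by positivity)
        _ ≤ 3 ^ k * |(m : ℝ)| := hge
        _ ≤ 3 ^ k * x := mul_le_mul_of_nonneg_left hmx (by positivity)
    have h3' := Real.log_le_log (by positivity) h2'
    rw [Real.log_mul (by positivity) hx0.ne', Real.log_pow, Real.log_pow] at h3'
    rw [hSr, le_div_iff₀ hl2]
    linarith
  obtain ⟨hfin, hncard⟩ := ncard_le_sum' (range (K + 1)) (fun s => Hn c s k)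
    (fun s _ => (hup s k).1) (ES c x k) hcov
  have hncard' : ((ES c x k).ncard : ℝ) ≤
      ∑ s ∈ range (K + 1), ((Hn c s k).ncard : ℝ) := by
    exact_mod_cast hncard
  set B : ℝ := C * Real.exp (ε / (4 * W) * Sr + Sr * a + k * b) with hB
  have hB0 : 0 ≤ B := by positivity
  have hterm : ∀ s ∈ range (K + 1), ((Hn c s k).ncard : ℝ) ≤ B := by
    intro s hs
    have hsK : s ≤ K := by
      rw [mem_range] at hs
      omega
    have hsS : (s : ℝ) ≤ Sr := (by exact_mod_cast hsK : (s : ℝ) ≤ K).trans hKle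
    refine (hup s k).2.trans ?_
    apply mul_le_mul_of_nonneg_left _ hC.le
    apply Real.exp_le_exp.2
    have g1 : ε / (4 * W) * (s : ℝ) ≤ ε / (4 * W) * Sr := mul_le_mul_of_nonneg_left hsS (by positivity)
    have g2 : (s : ℝ) * a ≤ Sr * a := mul_le_mul_of_nonneg_right hsS ha.le
    linarith
  have hsum : ∑ s ∈ range (K + 1), ((Hn c s k).ncard : ℝ) ≤ (Sr + 1) * B := by
    calc ∑ s ∈ range (K + 1), ((Hn c s k).ncard : ℝ)
        ≤ ∑ s ∈ range (K + 1), B := sum_le_sum hterm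
      _ = ((K : ℝ) + 1) * B := by
          rw [sum_const, card_range, nsmul_eq_mul]
          push_cast
          ring
      _ ≤ (Sr + 1) * B := by
          apply mul_le_mul_of_nonneg_right _ hB0
          linarith
  refine (hncard'.trans hsum).trans ?_
  have hL0 : 0 < L := by linarith
  have hSa : Sr * a = L * (SS (k / L) * a) := by
    rw [hSr]
    unfold SS
    field_simp
  have hkb : (k : ℝ) * b = L * (k / L * b) := by
    field_simp
  have huu : L * uu (k / L) z = L * (SS (k / L) * a) + L * (k / L * b) := by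
    unfold uu
    ring
  have hS1 : (0 : ℝ) < Sr + 1 := by linarith
  have e3 : (Sr + 1) * B = Real.exp (Real.log (Sr + 1) + (Real.log C +
      (ε / (4 * W) * Sr + Sr * a + k * b))) := by
    rw [Real.exp_add, Real.exp_add, Real.exp_log hS1, Real.exp_log hC, hB]
  have g5 : Real.log (Sr + 1) ≤ ε / 4 * L + K₂ := by
    have g6 := hK₂ Sr hSr0
    have g7 : ε / (4 * W) * Sr ≤ ε / (4 * W) * (W * L) :=
      mul_le_mul_of_nonneg_left hSrW (by positivity)
    have g8 : ε / (4 * W) * (W * L) = ε / 4 * L := by field_simp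
    linarith
  have g9 : ε / (4 * W) * Sr ≤ ε / 4 * L := by
    have g7 : ε / (4 * W) * Sr ≤ ε / (4 * W) * (W * L) :=
      mul_le_mul_of_nonneg_left hSrW (by positivity)
    have g8 : ε / (4 * W) * (W * L) = ε / 4 * L := by field_simp
    linarith
  have g10 : K₂ + |Real.log C| ≤ ε / 4 * L := by
    rw [div_le_iff₀ hε] at hL2
    linarith
  have g11 := le_abs_self (Real.log C)
  rw [e3]
  apply Real.exp_le_exp.2
  rw [hSa, hkb]
  have : L * (uu (k / L) z + ε) = L * uu (k / L) z + ε * L := by ring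
  rw [this, huu]
  have hεL : 0 ≤ ε * L := by positivity
  linarith

/-- local upper bound -/
theorem ng_up_local {c : ℤ} (hc : c % 2 = 1) (hp : Per c) {β : ℝ} (h : 0 ≤ β)
    (h1 : β ≤ 1 / Real.log (4 / 3)) {ε : ℝ} (hε : 0 < ε) :
    ∃ δ : ℝ, 0 < δ ∧ ∃ X₀ : ℝ, 1 < X₀ ∧ ∀ x : ℝ, X₀ ≤ x → ∀ k : ℕ, (k : ℝ) ≤ 4 * Real.log x →
      |(k : ℝ) / Real.log x - β| < δ →
      ((ES c x k).ncard : ℝ) ≤ Real.exp (Real.log x * (ee (k / Real.log x) + ε)) := by
  obtain ⟨z, hz0, hz1, hz2⟩ := FT.exists_tilt h h1 (show 0 < ε / 4 by positivity)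
  have c1 := (uu_cont z).continuousAt (x := β)
  have c2 := ee_contAt h
  have e1 : ∀ᶠ y in 𝓝 β, uu y z < uu β z + ε / 4 := c1.eventually (gt_mem_nhds (by linarith))
  have e2 : ∀ᶠ y in 𝓝 β, ee β - ε / 4 < ee y := c2.eventually (lt_mem_nhds (by linarith))
  obtain ⟨δ, hδ, hball⟩ := Metric.eventually_nhds_iff.1 (e1.and e2)
  obtain ⟨X₀, hX₀, hup⟩ := ng_up_core hc hp hz0 hz1 (show 0 < ε / 4 by positivity)
  refine ⟨δ, hδ, X₀, hX₀, fun x hx k hk hkβ => ?_⟩
  have hlog : 0 < Real.log x := Real.log_pos (by linarith)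
  obtain ⟨g1, g2⟩ := hball (y := (k : ℝ) / Real.log x) (by rw [Real.dist_eq]; exact hkβ)
  refine (hup x hx k hk).trans (Real.exp_le_exp.2 ?_)
  apply mul_le_mul_of_nonneg_left _ hlog.le
  linarith

/-- local lower bound away from `0` -/
theorem ng_lo_pos {c : ℤ} (hc : c % 2 = 1) (hc0 : c < 0) (hp : Per c) {β : ℝ} (h : 0 < β)
    (h1 : β ≤ 1 / Real.log (4 / 3)) (hβ2 : β ≤ 4) {ε : ℝ} (hε : 0 < ε) :
    ∃ δ : ℝ, 0 < δ ∧ ∃ X₀ : ℝ, 1 < X₀ ∧ ∀ x : ℝ, X₀ ≤ x → ∀ k : ℕ, 1 ≤ k →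
      |(k : ℝ) / Real.log x - β| < δ →
      Real.exp (Real.log x * (ee (k / Real.log x) - ε)) ≤ ((ES c x k).ncard : ℝ) := by
  have hl2 : 0 < Real.log 2 := Real.log_pos (by norm_num)
  have hl3 : 0 < Real.log 3 := Real.log_pos (by norm_num)
  obtain ⟨c', a1, a2, a3, a4, a5⟩ := exists_entry hc hc0 hp
  obtain ⟨g1, g2⟩ := FT.SS_rho_half h h1
  have hS := SS_pos h.le
  set ρ : ℝ := β / SS β with hρ
  -- the choice of `r`
  have hval : β * (FF ρ / ρ) = ee β := by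
    rw [ee_eq h.le, hρ]
    field_simp
  have hval2 : β * (Real.log 2 / ρ - Real.log 3) = 1 := by
    rw [hρ]
    unfold SS
    field_simp
    ring
  have c1 : ContinuousAt (fun r => β * (FF r / r)) ρ :=
    continuousAt_const.mul (FF_cont.continuousAt.div continuousAt_id g1.ne')
  have e1 : ∀ᶠ r in 𝓝[>] ρ, ee β - ε / 4 < β * (FF r / r) := by
    refine (c1.mono_left nhdsWithin_le_nhds).eventually (lt_mem_nhds ?_)
    change ee β - ε / 4 < β * (FF ρ / ρ)
    rw [hval]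
    linarith
  have e2 : ∀ᶠ r in 𝓝[>] ρ, r < 4771 / 7833 :=
    (gt_mem_nhds (lt_of_le_of_lt g2 FT.half_lt)).filter_mono nhdsWithin_le_nhds
  obtain ⟨r, hr1, hr2, hr3⟩ := (e1.and (e2.and self_mem_nhdsWithin)).exists
  have hr3' : ρ < r := hr3
  have hr0 : 0 < r := by linarith
  have hr11 : r < 1 := by
    norm_num at hr2
    linarith
  have hFr : 0 < FF r := FF_pos_of hr0 hr2 (by norm_num) FF_low.le
  have hsz : β * (Real.log 2 / r - Real.log 3) < 1 := by
    rw [← hval2]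
    apply mul_lt_mul_of_pos_left _ h
    have : Real.log 2 / r < Real.log 2 / ρ := div_lt_div_of_pos_left hl2 g1 hr3'
    linarith
  -- the choice of `δ`
  have c2 := ee_contAt h.le
  have e3 : ∀ᶠ y in 𝓝 β, ee y < ee β + ε / 8 := c2.eventually (gt_mem_nhds (by linarith))
  have e4 : ∀ᶠ y in 𝓝 β, 0 < y := lt_mem_nhds h
  have c3 : ContinuousAt (fun q : ℝ × ℝ => q.1 * ((1 / r + q.2) * Real.log 2 - Real.log 3) + q.2)
      (β, 0) := by fun_prop
  have e5 : ∀ᶠ q in 𝓝 ((β, 0) : ℝ × ℝ), q.1 * ((1 / r + q.2) * Real.log 2 - Real.log 3) + q.2 < 1 := by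
    refine c3.eventually (gt_mem_nhds ?_)
    have : β * ((1 / r + 0) * Real.log 2 - Real.log 3) + 0 = β * (Real.log 2 / r - Real.log 3) := by
      ring
    change β * ((1 / r + 0) * Real.log 2 - Real.log 3) + 0 < 1
    rw [this]
    exact hsz
  have c4 : ContinuousAt (fun q : ℝ × ℝ => q.1 * (FF r / r - q.2)) (β, 0) := by fun_prop
  have e6 : ∀ᶠ q in 𝓝 ((β, 0) : ℝ × ℝ), ee β - ε / 2 < q.1 * (FF r / r - q.2) := by
    refine c4.eventually (lt_mem_nhds ?_)
    change ee β - ε / 2 < β * (FF r / r - 0)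
    rw [sub_zero]
    linarith
  obtain ⟨δ₁, hδ₁, hball₁⟩ := Metric.eventually_nhds_iff.1 (e3.and e4)
  obtain ⟨δ₂, hδ₂, hball₂⟩ := Metric.eventually_nhds_iff.1 (e5.and e6)
  set d : ℝ := δ₂ / 2 with hd
  have hd0 : 0 < d := by positivity
  obtain ⟨n₀, hn₀⟩ := joint_lower hr0 hr11 hFr hd0
  obtain ⟨K, hK0, hK⟩ := log_lin (show 0 < d / 24 by positivity)
  set κ : ℝ := (1 / r + d) * Real.log 2 - Real.log 3 with hκ
  set G : ℝ := FF r / r - d with hG
  set Q : ℝ := |κ| + abs (Real.log |(c' : ℝ)|) + K with hQ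
  have hQ0 : 0 ≤ Q := by positivity
  set δ : ℝ := min (min δ₁ δ₂) (β / 2) with hδ
  have hδ0 : 0 < δ := lt_min (lt_min hδ₁ hδ₂) (by positivity)
  refine ⟨δ, hδ0, Real.exp (max 1 (max (2 * (n₀ + 1) / β) (max (2 * Q / d) (4 * |G| / ε)))), ?_,
    fun x hx k hk1 hkβ => ?_⟩
  · have h5 := Real.add_one_le_exp (max 1 (max (2 * ((n₀ : ℝ) + 1) / β) (max (2 * Q / d) (4 * |G| / ε))))
    have h6 : (1 : ℝ) ≤ max 1 (max (2 * ((n₀ : ℝ) + 1) / β) (max (2 * Q / d) (4 * |G| / ε))) :=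
      le_max_left _ _
    linarith
  have hx0 : 0 < x := lt_of_lt_of_le (Real.exp_pos _) hx
  have hL : max 1 (max (2 * ((n₀ : ℝ) + 1) / β) (max (2 * Q / d) (4 * |G| / ε))) ≤ Real.log x := by
    rw [Real.le_log_iff_exp_le hx0]
    exact hx
  set L : ℝ := Real.log x with hLdef
  have hL1 : 1 ≤ L := (le_max_left _ _).trans hL
  have hL2 : 2 * ((n₀ : ℝ) + 1) / β ≤ L := ((le_max_left _ _).trans (le_max_right _ _)).trans hL
  have hL3 : 2 * Q / d ≤ L :=
    ((le_max_left _ _).trans ((le_max_right _ _).trans (le_max_right _ _))).trans hL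
  have hL4 : 4 * |G| / ε ≤ L :=
    ((le_max_right _ _).trans ((le_max_right _ _).trans (le_max_right _ _))).trans hL
  have hL0 : 0 < L := by linarith
  set y : ℝ := (k : ℝ) / L with hy
  have hky : (k : ℝ) = L * y := by
    rw [hy]
    field_simp
  have hδa : δ ≤ δ₁ := (min_le_left _ _).trans (min_le_left _ _)
  have hδb : δ ≤ δ₂ := (min_le_left _ _).trans (min_le_right _ _)
  have hδc : δ ≤ β / 2 := min_le_right _ _
  obtain ⟨p1, p2⟩ := hball₁ (y := y) (by rw [Real.dist_eq]; linarith)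
  have hdist : dist ((y, d) : ℝ × ℝ) (β, 0) < δ₂ := by
    rw [Prod.dist_eq, max_lt_iff]
    constructor
    · rw [Real.dist_eq]
      change |y - β| < δ₂
      linarith
    · rw [Real.dist_eq]
      change |d - 0| < δ₂
      rw [sub_zero, abs_of_pos hd0, hd]
      linarith
  obtain ⟨p3, p4⟩ := hball₂ hdist
  change y * ((1 / r + d) * Real.log 2 - Real.log 3) + d < 1 at p3
  change ee β - ε / 2 < y * (FF r / r - d) at p4
  rw [← hκ] at p3
  rw [← hG] at p4
  have hy3 : y ≤ 6 := by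
    have := (abs_lt.1 hkβ).2
    linarith
  obtain ⟨n, rfl⟩ : ∃ n, k = n + 1 := ⟨k - 1, by omega⟩
  have hkn0 : n₀ ≤ n := by
    have h5 : β / 2 ≤ y := by
      have := (abs_lt.1 hkβ).1
      linarith
    have h6 : (n₀ : ℝ) + 1 ≤ ((n + 1 : ℕ) : ℝ) := by
      rw [hky]
      rw [div_le_iff₀ h] at hL2
      nlinarith
    push_cast at h6
    have h7 : (n₀ : ℝ) ≤ n := by linarith
    exact_mod_cast h7
  have hnr : (n : ℝ) = L * y - 1 := by
    have := hky
    push_cast at this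
    linarith
  have hn0 : (0 : ℝ) ≤ n := Nat.cast_nonneg n
  obtain ⟨s, hs1, hs2⟩ := hn₀ n hkn0 c' a3
  have hs3 := (abs_le.1 hs1).2
  have hsize : (s : ℝ) * Real.log 2 - n * Real.log 3 + Real.log |(c' : ℝ)| + Real.log (n + 1) ≤
      Real.log x := by
    have h5 : (s : ℝ) ≤ n * (1 / r + d) := by
      have : (n : ℝ) / r + d * n = n * (1 / r + d) := by ring
      linarith
    have h6 : (s : ℝ) * Real.log 2 ≤ n * (1 / r + d) * Real.log 2 :=
      mul_le_mul_of_nonneg_right h5 hl2.le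
    have h9 : n * (1 / r + d) * Real.log 2 - n * Real.log 3 = L * (y * κ) - κ := by
      have : n * (1 / r + d) * Real.log 2 - n * Real.log 3 = (n : ℝ) * κ := by
        rw [hκ]
        ring
      rw [this, hnr]
      ring
    have h10 : L * (y * κ) + L * d ≤ L := by
      have := mul_le_mul_of_nonneg_left p3.le hL0.le
      linarith
    have h11 : Real.log ((n : ℝ) + 1) ≤ d / 4 * L + K := by
      have h12 := hK n hn0
      have h13 : (n : ℝ) ≤ 6 * L := by
        rw [hnr]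
        nlinarith
      have h14 : d / 24 * (n : ℝ) ≤ d / 24 * (6 * L) := mul_le_mul_of_nonneg_left h13 (by positivity)
      linarith
    have h15 : 2 * Q ≤ L * d := by
      rw [div_le_iff₀ hd0] at hL3
      exact hL3
    have h16 := neg_abs_le κ
    have h17 := le_abs_self (Real.log |(c' : ℝ)|)
    have h18 : 0 ≤ L * d := by positivity
    rw [← hLdef]
    linarith
  have hcard : ({m : ℤ | TZ^[s] m = c' ∧ oc s m = n ∧ m % 2 = 1 ∧ ¬ (3 : ℤ) ∣ m ∧
      (0 < c' → 0 < m) ∧ (c' < 0 → m < 0)}.ncard : ℝ) ≤ ((ES c x (n + 1)).ncard : ℝ) := by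
    exact_mod_cast Set.ncard_le_ncard (entry_ES a4 a1 a2 a5 hx0 hsize) (ES_finite c x (n + 1))
  refine le_trans (Real.exp_le_exp.2 ?_) (hs2.trans hcard)
  rw [hnr]
  have h19 : G * (L * y - 1) = L * (y * G) - G := by ring
  rw [h19]
  have h20 : L * (ee β - ε / 2) ≤ L * (y * G) := mul_le_mul_of_nonneg_left p4.le hL0.le
  have h21 : L * (ee y - ε) ≤ L * (ee β + ε / 8 - ε) :=
    mul_le_mul_of_nonneg_left (by linarith) hL0.le
  have h22 : 4 * |G| ≤ L * ε := by
    rw [div_le_iff₀ hε] at hL4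
    exact hL4
  have h23 := le_abs_self G
  have h24 : 0 ≤ L * ε := by positivity
  change L * (ee y - ε) ≤ _
  linarith

/-- local lower bound -/
theorem ng_lo_local {c : ℤ} (hc : c % 2 = 1) (hc0 : c < 0) (hp : Per c) {β : ℝ} (h : 0 ≤ β)
    (h1 : β ≤ 1 / Real.log (4 / 3)) (hβ2 : β ≤ 4) {ε : ℝ} (hε : 0 < ε) :
    ∃ δ : ℝ, 0 < δ ∧ ∃ X₀ : ℝ, 1 < X₀ ∧ ∀ x : ℝ, X₀ ≤ x → ∀ k : ℕ, 1 ≤ k →
      |(k : ℝ) / Real.log x - β| < δ →
      Real.exp (Real.log x * (ee (k / Real.log x) - ε)) ≤ ((ES c x k).ncard : ℝ) := by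
  rcases eq_or_lt_of_le h with rfl | h0
  · have c2 := ee_contAt (le_refl (0 : ℝ))
    have e3 : ∀ᶠ y in 𝓝 (0 : ℝ), ee y < ε := c2.eventually (gt_mem_nhds (by rw [ee_zero]; exact hε))
    obtain ⟨δ₁, hδ₁, hball₁⟩ := Metric.eventually_nhds_iff.1 e3
    obtain ⟨δ₂, hδ₂, X₀, hX₀, hne⟩ := small_times hc hc0 hp
    refine ⟨min δ₁ δ₂, lt_min hδ₁ hδ₂, X₀, hX₀, fun x hx k hk hkβ => ?_⟩
    have hlog : 0 < Real.log x := Real.log_pos (by linarith)
    have h5 := hball₁ (y := (k : ℝ) / Real.log x) (by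
      rw [Real.dist_eq]
      exact hkβ.trans_le (min_le_left _ _))
    have h6 : (k : ℝ) ≤ δ₂ * Real.log x := by
      have h7 := (le_abs_self _).trans (hkβ.trans_le (min_le_right _ _)).le
      rw [sub_zero, div_le_iff₀ hlog] at h7
      exact h7
    have h8 : 1 ≤ (ES c x k).ncard := by
      have := (Set.ncard_pos (ES_finite c x k)).2 (hne x hx k hk h6)
      omega
    have h9 : (1 : ℝ) ≤ ((ES c x k).ncard : ℝ) := by exact_mod_cast h8
    refine le_trans ?_ h9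
    rw [Real.exp_le_one_iff]
    apply mul_nonpos_of_nonneg_of_nonpos hlog.le
    linarith
  · exact ng_lo_pos hc hc0 hp h0 h1 hβ2 hε

/-- THE UNIFORM THEOREM -/
theorem ng_main_entry {c : ℤ} (hc : c % 2 = 1) (hc0 : c < 0) (hp : Per c) {ε : ℝ} (hε : 0 < ε) :
    ∃ X₀ : ℝ, 1 < X₀ ∧ ∀ x : ℝ, X₀ ≤ x → ∀ k : ℕ, 1 ≤ k →
    (k : ℝ) ≤ 1 / Real.log (4 / 3) * Real.log x →
    x ^ (ee (k / Real.log x) - ε) ≤ ((ES c x k).ncard : ℝ) ∧
      ((ES c x k).ncard : ℝ) ≤ x ^ (ee (k / Real.log x) + ε) := by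
  have h43 : 0 < Real.log (4 / 3) := Real.log_pos (by norm_num)
  have h43' : 1 / 4 ≤ Real.log (4 / 3) := by
    have e := FT.log43
    have l2a := Real.log_two_gt_d9
    have l3b := Real.log_three_lt_d9
    norm_num at l2a l3b
    rw [e]
    linarith
  have hB2 : 1 / Real.log (4 / 3) ≤ 4 := by
    rw [div_le_iff₀ h43]
    linarith
  set B : ℝ := 1 / Real.log (4 / 3) with hB
  have hcomp : IsCompact (Set.Icc (0 : ℝ) B) := isCompact_Icc
  have key := hcomp.induction_on (p := fun S : Set ℝ => ∃ X₀ : ℝ, 1 < X₀ ∧ ∀ x : ℝ, X₀ ≤ x →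
      ∀ k : ℕ, 1 ≤ k → (k : ℝ) / Real.log x ∈ S ∩ Set.Icc (0 : ℝ) B →
      Real.exp (Real.log x * (ee (k / Real.log x) - ε)) ≤ ((ES c x k).ncard : ℝ) ∧
      ((ES c x k).ncard : ℝ) ≤ Real.exp (Real.log x * (ee (k / Real.log x) + ε)))
    ⟨2, by norm_num, fun x _ k _ hk => absurd hk.1 (Set.notMem_empty _)⟩
    (by
      rintro s t hst ⟨X₀, hX, h⟩
      exact ⟨X₀, hX, fun x hx k hk hks => h x hx k hk ⟨hst hks.1, hks.2⟩⟩)
    (by
      rintro s t ⟨X₀, hX, h⟩ ⟨X₁, hX', h'⟩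
      refine ⟨max X₀ X₁, lt_max_of_lt_left hX, fun x hx k hk hks => ?_⟩
      rcases hks.1 with h5 | h5
      · exact h x ((le_max_left _ _).trans hx) k hk ⟨h5, hks.2⟩
      · exact h' x ((le_max_right _ _).trans hx) k hk ⟨h5, hks.2⟩)
    (by
      intro β hβ
      obtain ⟨δ₁, hδ₁, X₁, hX₁, h₁⟩ := ng_up_local hc hp hβ.1 hβ.2 hε
      obtain ⟨δ₂, hδ₂, X₂, hX₂, h₂⟩ := ng_lo_local hc hc0 hp hβ.1 hβ.2 (hβ.2.trans hB2) hε
      refine ⟨Metric.ball β (min δ₁ δ₂), mem_nhdsWithin_of_mem_nhds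
        (Metric.ball_mem_nhds β (lt_min hδ₁ hδ₂)), max X₁ X₂, lt_max_of_lt_left hX₁,
        fun x hx k hk hks => ?_⟩
      have hlog : 0 < Real.log x := Real.log_pos (by
        have := (le_max_left X₁ X₂).trans hx
        linarith)
      have hd : |(k : ℝ) / Real.log x - β| < min δ₁ δ₂ := by
        have := hks.1
        rwa [Metric.mem_ball, Real.dist_eq] at this
      have hk2 : (k : ℝ) ≤ 4 * Real.log x := by
        have := hks.2.2
        rw [div_le_iff₀ hlog] at this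
        have h5 : B * Real.log x ≤ 4 * Real.log x := mul_le_mul_of_nonneg_right hB2 hlog.le
        linarith
      exact ⟨h₂ x ((le_max_right _ _).trans hx) k hk (hd.trans_le (min_le_right _ _)),
        h₁ x ((le_max_left _ _).trans hx) k hk2 (hd.trans_le (min_le_left _ _))⟩)
  obtain ⟨X₀, hX₀, h⟩ := key
  refine ⟨X₀, hX₀, fun x hx k hk hkB => ?_⟩
  have hx0 : 0 < x := by linarith
  have hlog : 0 < Real.log x := Real.log_pos (by linarith)
  have hmem : (k : ℝ) / Real.log x ∈ Set.Icc (0 : ℝ) B := by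
    refine ⟨by positivity, ?_⟩
    rw [div_le_iff₀ hlog]
    exact hkB
  rw [Real.rpow_def_of_pos hx0, Real.rpow_def_of_pos hx0]
  exact h x hx k hk ⟨hmem, hmem⟩

end Pool.Agent.N685.FD
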