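import Pool.Agent.N685.FD.Stm7

/-! Project FD: the path level laws for the `3x+1` map on the natural numbers. -/

set_option autoImplicit false
set_option linter.unusedVariables false

namespace Pool.Agent.N685.FD

open Finset Filter Topology Pool.Agent.H395R2.G3 Pool.Agent.Y966.LD

namespace P3

/-- the shortcut map -/
def S (n : ℕ) : ℕ := if n % 2 = 0 then n / 2 else (3 * n + 1) / 2

theorem S_cast (n : ℕ) : T 3 1 (n : ℤ) = ((S n : ℕ) : ℤ) := by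
  unfold T S
  split_ifs with h1 h2 h2
  · omega
  · omega
  · omega
  · push_cast
    omega

theorem S_iter (k n : ℕ) : (T 3 1)^[k] (n : ℤ) = ((S^[k] n : ℕ) : ℤ) := by
  induction k generalizing n with
  | zero => rfl
  | succ k ih => rw [Function.iterate_succ_apply, Function.iterate_succ_apply, S_cast, ih]

theorem adm1 : Adm 3 1 := ⟨Or.inl rfl, by norm_num, by norm_num⟩

theorem fr_three (a : ℝ) : fr 3 a = (Real.log 2 - a) / Real.log 3 := by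
  unfold fr
  norm_num

theorem fr_spec (a : ℝ) : a = Real.log 2 - fr 3 a * Real.log 3 := by
  have hl3 : 0 < Real.log 3 := Real.log_pos (by norm_num)
  rw [fr_three]
  field_simp
  ring

theorem fr_pos {a : ℝ} (h : a < Real.log 2) : 0 < fr 3 a := by
  have hl3 : 0 < Real.log 3 := Real.log_pos (by norm_num)
  rw [fr_three]
  exact div_pos (by linarith) hl3

theorem fr_lt_one {a : ℝ} (h : 0 < a) : fr 3 a < 1 := by
  have hl3 : 0 < Real.log 3 := Real.log_pos (by norm_num)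
  have h23 : Real.log 2 < Real.log 3 := Real.log_lt_log (by norm_num) (by norm_num)
  rw [fr_three, div_lt_one hl3]
  linarith

theorem fr_half {a : ℝ} (h : Real.log (4 / 3) / 2 ≤ a) : fr 3 a ≤ 1 / 2 := by
  have hl3 : 0 < Real.log 3 := Real.log_pos (by norm_num)
  rw [FT.log43] at h
  rw [fr_three, div_le_iff₀ hl3]
  linarith

/-- `F(ρ(a)) = a - g(a)` -/
theorem FF_fr {a : ℝ} (h0 : 0 < a) (h1 : a < Real.log 2) : FF (fr 3 a) = a - rate a := by
  have h2 := rate_eq (fr_pos h1) (fr_lt_one h0)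
  rw [← fr_spec a] at h2
  rw [h2]
  unfold FF
  have := fr_spec a
  linarith

theorem log43_pos : 0 < Real.log (4 / 3) / 2 := by
  have : 0 < Real.log (4 / 3) := Real.log_pos (by norm_num)
  positivity

/-- the growth along a list -/
theorem gr_eq : ∀ L : List (ℝ × ℝ), (∀ q ∈ L, 0 < q.1 ∧ q.1 < Real.log 2) →
    gr 3 L = fal L - (L.map fun q => q.2 * rate q.1).sum
  | [], _ => by simp [gr, fal]
  | q :: L, h => by
      have h1 := gr_eq L fun r hr => h r (List.mem_cons_of_mem _ hr)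
      have h2 := h q List.mem_cons_self
      unfold gr fal at h1 ⊢
      simp only [List.map_cons, List.sum_cons]
      rw [h1, D3.Fp_three, FF_fr h2.1 h2.2]
      ring

/-- the profile, as a function on the natural numbers -/
def InTube (L : List (ℝ × ℝ)) (u δ X : ℝ) (n : ℕ) : Prop :=
  ∀ j : ℕ, (j : ℝ) ≤ dur L * X → |Real.log (S^[j] n : ℕ) - pro L u (j / X) * X| ≤ δ * X

theorem S_pos {n : ℕ} (h : 1 ≤ n) : 1 ≤ S n := by
  unfold S
  split_ifs <;> omega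

theorem S_iter_pos {n : ℕ} (h : 1 ≤ n) (k : ℕ) : 1 ≤ S^[k] n := by
  induction k with
  | zero => exact h
  | succ k ih => rw [Function.iterate_succ_apply']; exact S_pos ih

theorem tube_iff {L : List (ℝ × ℝ)} {u δ X : ℝ} {n : ℕ} (hn : 1 ≤ n) :
    (n : ℤ) ∈ Tub 3 1 L u δ X ↔ InTube L u δ X n := by
  unfold Tub InTube
  rw [Set.mem_ofPred_eq]
  constructor
  · rintro ⟨-, h⟩ j hj
    have h1 := (h j hj).2
    rw [S_iter] at h1
    exact_mod_cast h1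
  · intro h
    refine ⟨by exact_mod_cast hn, fun j hj => ?_⟩
    rw [S_iter]
    refine ⟨by exact_mod_cast S_iter_pos hn j, ?_⟩
    exact_mod_cast h j hj

/-- the members of the tube -/
def TS (L : List (ℝ × ℝ)) (u δ X : ℝ) : Set ℕ := {n : ℕ | 1 ≤ n ∧ InTube L u δ X n}

theorem ts_fin {L : List (ℝ × ℝ)} {u δ X : ℝ} (hL : 0 ≤ dur L * X) :
    ∃ B : ℕ, ∀ n ∈ TS L u δ X, n ≤ B := by
  refine ⟨⌈Real.exp (pro L u 0 * X + δ * X)⌉₊, ?_⟩
  rintro n ⟨h1, h2⟩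
  have h3 := h2 0 (by push_cast; exact hL)
  simp only [Function.iterate_zero, id_eq, Nat.cast_zero, zero_div] at h3
  have h4 := (abs_le.1 h3).2
  have hn0 : (0 : ℝ) < n := by exact_mod_cast h1
  have h5 : (n : ℝ) ≤ Real.exp (pro L u 0 * X + δ * X) := by
    rw [← Real.exp_log hn0]
    exact Real.exp_le_exp.2 (by linarith)
  exact_mod_cast h5.trans (Nat.le_ceil _)

theorem dur_nonneg {L : List (ℝ × ℝ)} (h : ∀ q ∈ L, 0 < q.2) : 0 ≤ dur L := by
  unfold dur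
  apply List.sum_nonneg
  intro x hx
  obtain ⟨q, hq, rfl⟩ := List.mem_map.1 hx
  exact (h q hq).le

theorem ts_finite {L : List (ℝ × ℝ)} {u δ X : ℝ} (hL : 0 ≤ dur L * X) : (TS L u δ X).Finite := by
  obtain ⟨B, hB⟩ := ts_fin (u := u) (δ := δ) hL
  exact (Set.finite_Iic B).subset fun n hn => hB n hn

theorem tube_lower (hT : S_TUBL) {L : List (ℝ × ℝ)}
    (hL : ∀ q ∈ L, 0 < q.1 ∧ q.1 < Real.log 2 ∧ 0 < q.2 ∧ 0 < q.1 - rate q.1) {u : ℝ}
    (hu : fal L ≤ u) {δ : ℝ} (hδ : 0 < δ) {ε : ℝ} (hε : 0 < ε) : ∃ X₀ : ℝ, ∀ X : ℝ, X₀ ≤ X →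
    Real.exp ((u - (L.map fun q => q.2 * rate q.1).sum - ε) * X) ≤ ((TS L u δ X).ncard : ℝ) := by
  obtain ⟨X₀, h⟩ := hT 3 1 adm1 L (fun q hq => by
    obtain ⟨h1, h2, h3, h4⟩ := hL q hq
    exact ⟨h1, h2, h3, by rw [D3.Fp_three, FF_fr h1 h2]; exact h4⟩) u hu δ hδ ε hε
  refine ⟨max X₀ 0, fun X hX => ?_⟩
  have hX0 : 0 ≤ X := (le_max_right _ _).trans hX
  obtain ⟨F, h1, h2⟩ := h X ((le_max_left _ _).trans hX)
  rw [gr_eq L fun q hq => ⟨(hL q hq).1, (hL q hq).2.1⟩] at h2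
  have e : u - fal L + (fal L - (L.map fun q => q.2 * rate q.1).sum) - ε =
      u - (L.map fun q => q.2 * rate q.1).sum - ε := by ring
  rw [e] at h2
  refine h2.trans ?_
  have hd := mul_nonneg (dur_nonneg fun q hq => (hL q hq).2.2.1) hX0
  rw [← Set.ncard_coe_finset]
  refine (Nat.cast_le (α := ℝ)).2 (Set.ncard_le_ncard_of_injOn (fun n : ℤ => n.toNat) ?_ ?_
    (ts_finite hd))
  · intro n hn
    have h3 := h1 n hn
    have h4 : 1 ≤ n := h3.1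
    have h5 : ((n.toNat : ℕ) : ℤ) = n := Int.toNat_of_nonneg (by omega)
    have h6 : 1 ≤ n.toNat := by omega
    refine ⟨h6, (tube_iff h6).1 ?_⟩
    rw [h5]
    exact h3
  · intro n hn m hm hnm
    have h3 : 1 ≤ n := (h1 n hn).1
    have h4 : 1 ≤ m := (h1 m hm).1
    simp only at hnm
    omega

theorem tube_upper (hT : S_TUBU) {L : List (ℝ × ℝ)}
    (hL : ∀ q ∈ L, Real.log (4 / 3) / 2 ≤ q.1 ∧ q.1 < Real.log 2 ∧ 0 < q.2) {u : ℝ}
    (hu : fal L ≤ u) {ε : ℝ} (hε : 0 < ε) : ∃ δ₀ : ℝ, 0 < δ₀ ∧ ∀ δ : ℝ, 0 < δ → δ ≤ δ₀ →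
    ∃ X₀ : ℝ, ∀ X : ℝ, X₀ ≤ X →
    ((TS L u δ X).ncard : ℝ) ≤ Real.exp ((u - (L.map fun q => q.2 * rate q.1).sum + ε) * X) := by
  have hpos : ∀ q ∈ L, 0 < q.1 := fun q hq => lt_of_lt_of_le log43_pos (hL q hq).1
  obtain ⟨δ₀, hδ₀, h⟩ := hT 3 1 adm1 L (fun q hq => by
    obtain ⟨h1, h2, h3⟩ := hL q hq
    refine ⟨hpos q hq, h2, h3, fun ε' hε' => ?_⟩
    obtain ⟨z, hz0, hz1, hz2, -⟩ := FT.exists_z (fr_pos h2) (fr_half h1) hε'
    exact ⟨z, q_three hz0 hz1, by rw [D3.php_three, D3.Fp_three]; exact hz2⟩) u hu ε hε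
  refine ⟨δ₀, hδ₀, fun δ hδ hδ1 => ?_⟩
  obtain ⟨X₀, h2⟩ := h δ hδ hδ1
  refine ⟨max X₀ 0, fun X hX => ?_⟩
  have hX0 : 0 ≤ X := (le_max_right _ _).trans hX
  have hd := mul_nonneg (dur_nonneg fun q hq => (hL q hq).2.2) hX0
  have hfin := ts_finite (L := L) (u := u) (δ := δ) hd
  classical
  have h3 := h2 X ((le_max_left _ _).trans hX) (hfin.toFinset.image fun n : ℕ => (n : ℤ)) (by
    intro n hn
    obtain ⟨m, hm, rfl⟩ := mem_image.1 hn
    have h4 := hfin.mem_toFinset.1 hm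
    exact (tube_iff h4.1).2 h4.2)
  rw [card_image_of_injective _ Nat.cast_injective, ← Set.ncard_eq_toFinset_card _ hfin,
    gr_eq L fun q hq => ⟨hpos q hq, (hL q hq).2.1⟩] at h3
  have e : u - fal L + (fal L - (L.map fun q => q.2 * rate q.1).sum) + ε =
      u - (L.map fun q => q.2 * rate q.1).sum + ε := by ring
  rwa [e] at h3

/-! ### straightness -/

/-- the `n`, `y < n ≤ x`, which are at most `y` for the first time at a time `k ≤ α log (n / y)` -/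
def All (α x y : ℝ) : Set ℕ :=
  {n : ℕ | y < n ∧ (n : ℝ) ≤ x ∧ ∃ k : ℕ, ((S^[k] n : ℕ) : ℝ) ≤ y ∧
    (∀ j < k, y < ((S^[j] n : ℕ) : ℝ)) ∧ (k : ℝ) ≤ α * (Real.log n - Real.log y)}

/-- those whose trajectory is not straight -/
def Bad (α ε x y : ℝ) : Set ℕ :=
  {n : ℕ | y < n ∧ (n : ℝ) ≤ x ∧ ∃ k : ℕ, ((S^[k] n : ℕ) : ℝ) ≤ y ∧
    (∀ j < k, y < ((S^[j] n : ℕ) : ℝ)) ∧ (k : ℝ) ≤ α * (Real.log n - Real.log y) ∧
    ∃ j < k, ε * Real.log x < |Real.log (S^[j] n : ℕ) - (Real.log n - j / α)|}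

theorem fin_le {A : Set ℕ} {x : ℝ} (h : ∀ n ∈ A, (n : ℝ) ≤ x) : A.Finite := by
  refine (Set.finite_Iic ⌊x⌋₊).subset fun n hn => ?_
  exact Nat.le_floor (h n hn)

theorem bad_upper (hS : S_STR) {α : ℝ} (h1 : 1 / Real.log 2 < α) (h2 : α < 2 / Real.log (4 / 3))
    {ε : ℝ} (hε : 0 < ε) : ∃ κ : ℝ, 0 < κ ∧ ∃ X₀ : ℝ, 1 ≤ X₀ ∧ ∀ x : ℝ, X₀ ≤ x → ∀ y : ℝ, 1 ≤ y →
    y ≤ x → ((Bad α ε x y).ncard : ℝ) ≤ x ^ (-κ) * (y * (x / y) ^ (ex 3 α)) := by
  have hr0 := rr_pos h1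
  have hr1 := UN.rr_lt_half h1 h2
  obtain ⟨κ, hκ, X₀, hX₀, h⟩ := hS 3 1 adm1 α h1 (by
    rw [D3.rp_three]
    exact q_three (by linarith) (by linarith)) ε hε
  refine ⟨κ, hκ, X₀, hX₀, fun x hx y hy hyx => ?_⟩
  have hfin : (Bad α ε x y).Finite := fin_le fun n hn => hn.2.1
  classical
  have h3 := h x hx y hy hyx (hfin.toFinset.image fun n : ℕ => (n : ℤ)) (by
    intro n hn
    obtain ⟨m, hm, rfl⟩ := mem_image.1 hn
    obtain ⟨g1, g2, k, g3, g4, g5, j, g6, g7⟩ := hfin.mem_toFinset.1 hm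
    refine ⟨by exact_mod_cast g1, by exact_mod_cast g2, k, ?_, fun i hi => ?_, ?_, j, g6, ?_⟩
    · rw [S_iter]
      exact_mod_cast g3
    · rw [S_iter]
      exact_mod_cast g4 i hi
    · exact_mod_cast g5
    · rw [S_iter]
      exact_mod_cast g7)
  rwa [card_image_of_injective _ Nat.cast_injective, ← Set.ncard_eq_toFinset_card _ hfin] at h3

/-- the first entrance -/
theorem first_le {y : ℝ} {n k : ℕ} (h : ((S^[k] n : ℕ) : ℝ) ≤ y) : ∃ i ≤ k,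
    ((S^[i] n : ℕ) : ℝ) ≤ y ∧ ∀ j < i, y < ((S^[j] n : ℕ) : ℝ) := by
  classical
  have hex : ∃ j, ((S^[j] n : ℕ) : ℝ) ≤ y := ⟨k, h⟩
  exact ⟨Nat.find hex, Nat.find_min' hex h, Nat.find_spec hex, fun j hj => not_le.1 (Nat.find_min hex hj)⟩

theorem all_lower {α : ℝ} (h1 : 1 / Real.log 2 < α) (h2 : α ≤ 2 / Real.log (4 / 3))
    {ε : ℝ} (hε : 0 < ε) : ∃ C : ℝ, 1 ≤ C ∧ ∀ y : ℝ, 1 ≤ y → ∀ x : ℝ, C * y ≤ x →
    y * (x / y) ^ (ex 3 α - ε) ≤ ((All α x y).ncard : ℝ) := by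
  obtain ⟨Λ₀, hΛ, h⟩ := ul_main 3 1 adm1 α h1 (UN.Fp_pos3 h1 h2) ε hε
  refine ⟨Real.exp Λ₀, Real.one_le_exp hΛ, fun y hy x hx => ?_⟩
  obtain ⟨F, h3, h4⟩ := h y hy x (by linarith)
  refine h4.trans ?_
  have hfin : (All α x y).Finite := fin_le fun n hn => hn.2.1
  have hpos : ∀ n ∈ F, 0 < n := by
    intro n hn
    have h5 := (h3 n hn).1
    have : (0 : ℝ) < n := by linarith
    exact_mod_cast this
  rw [← Set.ncard_coe_finset]
  refine (Nat.cast_le (α := ℝ)).2 (Set.ncard_le_ncard_of_injOn (fun n : ℤ => n.toNat) ?_ ?_ hfin)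
  · intro n hn
    obtain ⟨h5, h6, k, h7, h8, h9⟩ := h3 n hn
    have hp := hpos n hn
    obtain ⟨m, hm⟩ : ∃ m : ℕ, (m : ℤ) = n := ⟨n.toNat, Int.toNat_of_nonneg hp.le⟩
    have hm' : n.toNat = m := by omega
    simp only [hm']
    subst hm
    rw [S_iter] at h8
    have h8' : ((S^[k] m : ℕ) : ℝ) ≤ y := by exact_mod_cast h8
    obtain ⟨i, hi, h10, h11⟩ := first_le h8'
    refine ⟨by exact_mod_cast h5, by exact_mod_cast h6, i, h10, h11, ?_⟩
    have h12 : (i : ℝ) ≤ k := by exact_mod_cast hi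
    refine h12.trans ?_
    exact_mod_cast h9
  · intro n hn m hm hnm
    have h5 := hpos n hn
    have h6 := hpos m hm
    simp only at hnm
    omega

/-- **straightness**: the proportion of the trajectories which are not straight -/
theorem straight (hS : S_STR) {α : ℝ} (h1 : 1 / Real.log 2 < α) (h2 : α < 2 / Real.log (4 / 3))
    {ε : ℝ} (hε : 0 < ε) : ∃ κ : ℝ, 0 < κ ∧ ∃ C : ℝ, 1 ≤ C ∧ ∀ x y : ℝ, 1 ≤ y → C * y ≤ x →
    ((Bad α ε x y).ncard : ℝ) ≤ x ^ (-κ) * ((All α x y).ncard : ℝ) := by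
  obtain ⟨κ, hκ, X₀, hX₀, h3⟩ := bad_upper hS h1 h2 hε
  obtain ⟨C, hC, h4⟩ := all_lower h1 h2.le (show 0 < κ / 2 by positivity)
  refine ⟨κ / 2, by positivity, max C X₀, hC.trans (le_max_left _ _), fun x y hy hx => ?_⟩
  have hy0 : 0 < y := by linarith
  have h5 : C * y ≤ max C X₀ * y := mul_le_mul_of_nonneg_right (le_max_left _ _) hy0.le
  have h6 : X₀ * y ≤ max C X₀ * y := mul_le_mul_of_nonneg_right (le_max_right _ _) hy0.le
  have h7 : X₀ ≤ X₀ * y := le_mul_of_one_le_right (by linarith) hy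
  have h8 : y ≤ X₀ * y := le_mul_of_one_le_left hy0.le hX₀
  have hyx : y ≤ x := by linarith
  have hx0 : 0 < x := by linarith
  have hx1 : 1 ≤ x := by linarith
  have g1 := h3 x (by linarith) y hy hyx
  have g2 := h4 y hy x (by linarith)
  have hxy : 0 < x / y := by positivity
  have hxy1 : x / y ≤ x := div_le_self hx0.le hy
  refine g1.trans ?_
  have g3 : (x / y) ^ (ex 3 α) = (x / y) ^ (ex 3 α - κ / 2) * (x / y) ^ (κ / 2) := by
    rw [← Real.rpow_add hxy]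
    congr 1
    ring
  have g4 : (x / y) ^ (κ / 2) ≤ x ^ (κ / 2) := Real.rpow_le_rpow hxy.le hxy1 (by positivity)
  calc x ^ (-κ) * (y * (x / y) ^ (ex 3 α)) =
        x ^ (-κ) * (x / y) ^ (κ / 2) * (y * (x / y) ^ (ex 3 α - κ / 2)) := by rw [g3]; ring
    _ ≤ x ^ (-κ) * x ^ (κ / 2) * (y * (x / y) ^ (ex 3 α - κ / 2)) := by
        apply mul_le_mul_of_nonneg_right _ (by positivity)
        exact mul_le_mul_of_nonneg_left g4 (by positivity)
    _ = x ^ (-(κ / 2)) * (y * (x / y) ^ (ex 3 α - κ / 2)) := by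
        rw [← Real.rpow_add hx0]
        congr 2
        ring
    _ ≤ x ^ (-(κ / 2)) * ((All α x y).ncard : ℝ) :=
        mul_le_mul_of_nonneg_left g2 (by positivity)

end P3

end Pool.Agent.N685.FD
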