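import Pool.Agent.N685.FD.Stm7
import Pool.Agent.N685.FD.UL2
import Pool.Agent.N685.FD.Five

/-!
PROJECT FD (helper685), part 7: straightness of the fast trajectories (`S_STR` from `S_CHN`).
-/

set_option autoImplicit false
set_option linter.unusedVariables false

namespace Pool.Agent.N685.FD

open Finset Topology

namespace Str

/-! ### The tilts -/

theorem log_ge {v : ℝ} (h : -(1 / 2) ≤ v) : v - 2 * v ^ 2 ≤ Real.log (1 + v) := by
  have h1 : 0 < 1 + v := by linarith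
  refine le_trans ?_ (Real.one_sub_inv_le_log_of_pos h1)
  rw [← sub_nonneg]
  have e : 1 - (1 + v)⁻¹ - (v - 2 * v ^ 2) = v ^ 2 * (1 + 2 * v) / (1 + v) := by
    field_simp
    ring
  rw [e]
  apply div_nonneg _ h1.le
  apply mul_nonneg (sq_nonneg v)
  linarith

theorem lz_eq {p : ℕ} (hp : p = 3 ∨ p = 5) {z : ℝ} (h0 : 0 < z) (h1 : z < 1) (k o : ℕ) :
    lz p z k o = -((k : ℝ) - o) * Real.log z - o * Real.log (1 - z) - o * Real.log p := by
  have hp0 : (0 : ℝ) < p := lt_trans one_pos (UL.p_facts hp).1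
  have h2 : 0 < 1 - z := by linarith
  unfold lz tt
  rw [Real.log_div (by positivity) h0.ne', Real.log_mul hp0.ne' h2.ne']
  ring

/-- the effect of a change of the tilt -/
theorem tilt {p : ℕ} (hp : p = 3 ∨ p = 5) {r s : ℝ} (h0 : 0 < r) (h1 : r < 1)
    (hs1 : |s| ≤ r / 2) (hs2 : |s| ≤ (1 - r) / 2) {k o : ℕ} (hok : o ≤ k) :
    lz p (1 - r + s) k o ≤ lz p (1 - r) k o + s * (o - r * k) / (r * (1 - r)) +
      2 * s ^ 2 * k * (1 / (1 - r) ^ 2 + 1 / r ^ 2) := by
  have hr : 0 < 1 - r := by linarith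
  obtain ⟨a1, a2⟩ := abs_le.1 hs1
  obtain ⟨b1, b2⟩ := abs_le.1 hs2
  have hok' : (o : ℝ) ≤ k := by exact_mod_cast hok
  have ho0 : (0 : ℝ) ≤ o := Nat.cast_nonneg o
  rw [lz_eq hp (by linarith) (by linarith), lz_eq hp hr (by linarith)]
  have v1 : -(1 / 2) ≤ s / (1 - r) := by
    rw [le_div_iff₀ hr]
    linarith
  have v2 : -(1 / 2) ≤ -s / r := by
    rw [le_div_iff₀ h0]
    linarith
  have w1 : 0 < 1 + s / (1 - r) := by linarith
  have w2 : 0 < 1 + -s / r := by linarith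
  have e1 : Real.log (1 - r + s) = Real.log (1 - r) + Real.log (1 + s / (1 - r)) := by
    rw [← Real.log_mul hr.ne' w1.ne']
    congr 1
    field_simp
  have e2 : Real.log (1 - (1 - r + s)) = Real.log r + Real.log (1 + -s / r) := by
    rw [← Real.log_mul h0.ne' w2.ne']
    congr 1
    field_simp
    ring
  have e3 : (1 : ℝ) - (1 - r) = r := by ring
  rw [e1, e2, e3]
  have g1 := mul_le_mul_of_nonneg_left (log_ge v1) (sub_nonneg.2 hok')
  have g2 := mul_le_mul_of_nonneg_left (log_ge v2) ho0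
  have k1 : ((k : ℝ) - o) * (s / (1 - r)) ^ 2 ≤ k * (s / (1 - r)) ^ 2 :=
    mul_le_mul_of_nonneg_right (by linarith) (sq_nonneg _)
  have k2 : (o : ℝ) * (-s / r) ^ 2 ≤ k * (-s / r) ^ 2 :=
    mul_le_mul_of_nonneg_right hok' (sq_nonneg _)
  have f1 : s * (o - r * k) / (r * (1 - r)) = -(((k : ℝ) - o) * (s / (1 - r))) - o * (-s / r) := by
    field_simp
    ring
  have f2 : 2 * s ^ 2 * k * (1 / (1 - r) ^ 2 + 1 / r ^ 2) =
      2 * (k * (s / (1 - r)) ^ 2) + 2 * (k * (-s / r) ^ 2) := by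
    field_simp
  rw [f1, f2]
  nlinarith

theorem Q_open {p : ℕ} (hp : p = 3 ∨ p = 5) {z : ℝ} (hQ : Q p z) :
    ∃ δ : ℝ, 0 < δ ∧ ∀ w : ℝ, |w - z| < δ → Q p w := by
  have hp0 : (0 : ℝ) < p := lt_trans one_pos (UL.p_facts hp).1
  obtain ⟨h0, h1, h2⟩ := hQ
  have h3 : (p : ℝ) * (1 - z) / z ≠ 0 := by
    have : 0 < 1 - z := by linarith
    positivity
  have c1 : ContinuousAt (fun w => Real.log (tt p w) * Real.log 2) z := by
    unfold tt
    refine ContinuousAt.mul ?_ continuousAt_const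
    refine ContinuousAt.log ?_ h3
    refine ContinuousAt.div ?_ continuousAt_id h0.ne'
    fun_prop
  have c2 : ContinuousAt (fun w : ℝ => Real.log p * Real.log (1 / w)) z := by
    refine ContinuousAt.mul continuousAt_const ?_
    refine ContinuousAt.log ?_ (by positivity)
    exact ContinuousAt.div continuousAt_const continuousAt_id h0.ne'
  have e1 := c1.eventually_lt c2 h2
  have e2 : ∀ᶠ w in 𝓝 z, 0 < w := lt_mem_nhds h0
  have e3 : ∀ᶠ w in 𝓝 z, w < 1 := gt_mem_nhds h1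
  have e4 : ∀ᶠ w in 𝓝 z, Q p w := by
    filter_upwards [e1, e2, e3] with w g1 g2 g3
    exact ⟨g2, g3, g1⟩
  rw [Metric.eventually_nhds_iff] at e4
  obtain ⟨δ, g0, g1⟩ := e4
  exact ⟨δ, g0, fun w hw => g1 (by rwa [Real.dist_eq])⟩

/-- the gain at the frequencies off `r` -/
theorem gain {p : ℕ} (hp : p = 3 ∨ p = 5) {r α δ : ℝ} (hα : 0 < α) (hQ : Q p (1 - r)) (hδ : 0 < δ) :
    ∃ κ : ℝ, 0 < κ ∧ ∃ z₁ z₂ : ℝ, Q p z₁ ∧ Q p z₂ ∧ ∀ (k o : ℕ) (L : ℝ), o ≤ k → (k : ℝ) ≤ α * L →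
      δ * L < |(o : ℝ) - r * k| →
        lz p z₁ k o ≤ lz p (1 - r) k o - κ * L ∨ lz p z₂ k o ≤ lz p (1 - r) k o - κ * L := by
  have hr : 0 < 1 - r := hQ.1
  have h0 : 0 < r := by linarith [hQ.2.1]
  obtain ⟨δ', hδ', hopen⟩ := Q_open hp hQ
  set K : ℝ := 2 * (1 / (1 - r) ^ 2 + 1 / r ^ 2) with hK
  have hK0 : 0 < K := by positivity
  set P : ℝ := r * (1 - r) with hP
  have hP0 : 0 < P := by positivity
  obtain ⟨σ, hσ0, hσ1, hσ2, hσ3, hσ4⟩ : ∃ σ : ℝ, 0 < σ ∧ σ < δ' ∧ σ ≤ r / 2 ∧ σ ≤ (1 - r) / 2 ∧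
      σ ≤ δ / (2 * P * (K * α)) := by
    refine ⟨min (min (δ' / 2) (r / 2)) (min ((1 - r) / 2) (δ / (2 * P * (K * α)))), ?_, ?_, ?_, ?_, ?_⟩
    · positivity
    · have : min (min (δ' / 2) (r / 2)) (min ((1 - r) / 2) (δ / (2 * P * (K * α)))) ≤ δ' / 2 :=
        (min_le_left _ _).trans (min_le_left _ _)
      linarith
    · exact (min_le_left _ _).trans (min_le_right _ _)
    · exact (min_le_right _ _).trans (min_le_left _ _)
    · exact (min_le_right _ _).trans (min_le_right _ _)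
  have habs : |σ| = σ := abs_of_pos hσ0
  refine ⟨σ * δ / (2 * P), by positivity, 1 - r + σ, 1 - r + -σ, ?_, ?_, ?_⟩
  · apply hopen
    rw [show 1 - r + σ - (1 - r) = σ by ring, habs]
    exact hσ1
  · apply hopen
    rw [show 1 - r + -σ - (1 - r) = -σ by ring, abs_neg, habs]
    exact hσ1
  intro k o L hok hk hdev
  have hk0 : (0 : ℝ) ≤ k := Nat.cast_nonneg k
  have t1 := tilt hp h0 (by linarith) (s := σ) (by rw [habs]; exact hσ2) (by rw [habs]; exact hσ3) hok
  have t2 := tilt hp h0 (by linarith) (s := -σ) (by rw [abs_neg, habs]; exact hσ2)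
    (by rw [abs_neg, habs]; exact hσ3) hok
  rw [← hP] at t1 t2
  have q1 : 2 * σ ^ 2 * (k : ℝ) * (1 / (1 - r) ^ 2 + 1 / r ^ 2) ≤ σ * δ / (2 * P) * L := by
    have e1 : 2 * σ ^ 2 * (k : ℝ) * (1 / (1 - r) ^ 2 + 1 / r ^ 2) = σ * (σ * (K * k)) := by
      rw [hK]
      ring
    have e2 : σ * δ / (2 * P) * L = σ * (δ / (2 * P) * L) := by ring
    rw [e1, e2]
    apply mul_le_mul_of_nonneg_left _ hσ0.le
    have e3 : σ * (K * k) ≤ σ * (K * (α * L)) :=
      mul_le_mul_of_nonneg_left (mul_le_mul_of_nonneg_left hk hK0.le) hσ0.le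
    refine e3.trans ?_
    have hL : 0 ≤ L := by
      have : 0 ≤ α * L := hk0.trans hk
      exact nonneg_of_mul_nonneg_right this hα
    have e4 : σ * (2 * P * (K * α)) ≤ δ := by
      rwa [le_div_iff₀ (by positivity)] at hσ4
    have e5 : σ * (K * (α * L)) = (σ * (2 * P * (K * α))) / (2 * P) * L := by
      field_simp
    rw [e5]
    apply mul_le_mul_of_nonneg_right _ hL
    exact div_le_div_of_nonneg_right e4 (by positivity)
  have q2 : σ * (δ * L) / P = 2 * (σ * δ / (2 * P) * L) := by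
    field_simp
  rcases le_or_gt ((o : ℝ) - r * k) 0 with hneg | hpos
  · left
    rw [abs_of_nonpos hneg] at hdev
    have q3 : σ * ((o : ℝ) - r * k) / P ≤ -(σ * (δ * L) / P) := by
      rw [← neg_div]
      apply div_le_div_of_nonneg_right _ hP0.le
      nlinarith
    linarith
  · right
    rw [abs_of_pos hpos] at hdev
    have q3 : -σ * ((o : ℝ) - r * k) / P ≤ -(σ * (δ * L) / P) := by
      rw [← neg_div]
      apply div_le_div_of_nonneg_right _ hP0.le
      nlinarith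
    have q4 : (-σ) ^ 2 = σ ^ 2 := by ring
    rw [q4] at t2
    linarith

/-- the exponent -/
theorem ex_facts {p : ℕ} (hp : p = 3 ∨ p = 5) {α : ℝ} (hα : 1 / Real.log 2 < α)
    (hQ : Q p (1 - rp p α)) : ex p α = α * php p (rp p α) (1 - rp p α) ∧ ex p α ≤ 1 := by
  have hl2 : 0 < Real.log 2 := Real.log_pos (by norm_num)
  have hα0 : 0 < α := lt_trans (by positivity) hα
  have hr : 0 < 1 - rp p α := hQ.1
  have h0 : 0 < rp p α := by linarith [hQ.2.1]
  have hspec := UL.rp_spec hp α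
  constructor
  · unfold ex
    rw [php_eq hp h0 (by linarith)]
  · unfold ex
    have h1 : Fp p (rp p α) ≤ 1 / α := by
      unfold Fp
      have := Real.binEntropy_le_log_two (p := rp p α)
      linarith
    calc α * Fp p (rp p α) ≤ α * (1 / α) := mul_le_mul_of_nonneg_left h1 hα0.le
      _ = 1 := by field_simp

/-! ### Trajectories -/

theorem T_low {p : ℕ} {d : ℤ} (hA : Adm p d) {x : ℤ} (h1 : 1 ≤ x) (h2 : |d| ≤ x) :
    x ≤ 2 * T p d x := by
  have hp := (UL.p_facts hA.1).2.2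
  have hd := neg_abs_le d
  unfold T
  split_ifs with h
  · omega
  · have : 3 * x ≤ p * x := mul_le_mul_of_nonneg_right hp (by omega)
    omega

theorem T_high {p : ℕ} {d : ℤ} (hA : Adm p d) {x : ℤ} (h1 : 1 ≤ x) (h2 : |d| ≤ x) :
    T p d x ≤ p * x := by
  have hp := (UL.p_facts hA.1).2.2
  have hd := le_abs_self d
  have : 3 * x ≤ p * x := mul_le_mul_of_nonneg_right hp (by omega)
  unfold T
  split_ifs with h
  · omega
  · omega

theorem it_high {p : ℕ} {d : ℤ} (hA : Adm p d) (b : ℤ) : ∀ m : ℕ,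
    (∀ i < m, 1 ≤ (T p d)^[i] b ∧ |d| ≤ (T p d)^[i] b) → (T p d)^[m] b ≤ (p : ℤ) ^ m * b
  | 0, _ => by simp
  | m + 1, h => by
      have h1 := it_high hA b m fun i hi => h i (by omega)
      obtain ⟨h2, h3⟩ := h m (by omega)
      rw [Function.iterate_succ_apply']
      refine (T_high hA h2 h3).trans ?_
      have hp0 : (0 : ℤ) ≤ p := Int.natCast_nonneg p
      calc (p : ℤ) * (T p d)^[m] b ≤ p * (p ^ m * b) := mul_le_mul_of_nonneg_left h1 hp0
        _ = (p : ℤ) ^ (m + 1) * b := by ring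

theorem oT_add (p : ℕ) (d : ℤ) (j k : ℕ) (n : ℤ) :
    oT p d (j + k) n = oT p d j n + oT p d k ((T p d)^[j] n) := by
  induction k with
  | zero => simp [oT]
  | succ k ih =>
    have e : ∀ (m : ℕ) (x : ℤ), oT p d (m + 1) x =
        oT p d m x + if (T p d)^[m] x % 2 = 1 then 1 else 0 := by
      intro m x
      unfold oT
      rw [range_add_one, filter_insert]
      split_ifs with h
      · rw [card_insert_of_notMem (by simp)]
      · simp
    rw [← add_assoc, e, ih, e, ← Function.iterate_add_apply, add_comm k j]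
    ring

/-- the trajectory between the records -/
theorem line {p : ℕ} {d : ℤ} (hA : Adm p d) {α : ℝ} (hα : 0 < α) {Y : ℤ} (hY1 : 1 ≤ Y)
    (hYd : |d| ≤ Y) {n : ℤ} {k : ℕ} (hk : ∀ i < k, Y < (T p d)^[i] n) (hk0 : 1 ≤ (T p d)^[k] n)
    (hkY : (T p d)^[k] n ≤ Y) {E : ℝ}
    (hE : ∀ t ≤ k, (∀ i < t, (T p d)^[t] n < (T p d)^[i] n) →
      |Real.log n - Real.log ((T p d)^[t] n : ℤ) - t / α| ≤ E) {j : ℕ} (hj : j < k) :
    |Real.log ((T p d)^[j] n : ℤ) - (Real.log n - j / α)| ≤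
      α * (Real.log 2 + 2 * E) * (Real.log p + 1 / α) + E := by
  classical
  obtain ⟨hp1, hlp, hp3⟩ := UL.p_facts hA.1
  -- the minimum up to the time `j`
  obtain ⟨i₀, hi₀, hmin⟩ := Finset.exists_min_image (range (j + 1)) (fun i => (T p d)^[i] n)
    ⟨0, by simp⟩
  rw [mem_range] at hi₀
  have hex : ∃ t, t ≤ j ∧ (T p d)^[t] n ≤ (T p d)^[i₀] n := ⟨i₀, by omega, le_rfl⟩
  obtain ⟨t, ht, htmin⟩ : ∃ t, (t ≤ j ∧ (T p d)^[t] n ≤ (T p d)^[i₀] n) ∧
      ∀ i < t, ¬ (i ≤ j ∧ (T p d)^[i] n ≤ (T p d)^[i₀] n) :=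
    ⟨Nat.find hex, Nat.find_spec hex, fun i hi => Nat.find_min hex hi⟩
  obtain ⟨htj, htle⟩ := ht
  have hall : ∀ i ≤ j, (T p d)^[t] n ≤ (T p d)^[i] n := by
    intro i hi
    exact htle.trans (hmin i (by rw [mem_range]; omega))
  have hrec : ∀ i < t, (T p d)^[t] n < (T p d)^[i] n := by
    intro i hi
    have h1 := htmin i hi
    have h2 : i ≤ j := by omega
    have h3 : ¬ (T p d)^[i] n ≤ (T p d)^[i₀] n := fun h => h1 ⟨h2, h⟩
    omega
  have htY := hk t (by omega)
  -- the next record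
  have hex' : ∃ t', (T p d)^[t'] n < (T p d)^[t] n := ⟨k, by omega⟩
  obtain ⟨t', ht', htmin'⟩ : ∃ t', (T p d)^[t'] n < (T p d)^[t] n ∧
      ∀ i < t', ¬ (T p d)^[i] n < (T p d)^[t] n :=
    ⟨Nat.find hex', Nat.find_spec hex', fun i hi => Nat.find_min hex' hi⟩
  have ht'k : t' ≤ k := by
    by_contra h
    exact htmin' k (by omega) (by omega)
  have hjt' : j < t' := by
    by_contra h
    have := hall t' (by omega)
    omega
  have hrec' : ∀ i < t', (T p d)^[t'] n < (T p d)^[i] n := by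
    intro i hi
    have := htmin' i hi
    omega
  obtain ⟨s, rfl⟩ : ∃ s, t' = s + 1 := ⟨t' - 1, by omega⟩
  have hsY := hk s (by omega)
  have hs1 : (T p d)^[t] n ≤ (T p d)^[s] n := not_lt.1 (htmin' s (by omega))
  have hlow : (T p d)^[t] n ≤ 2 * (T p d)^[s + 1] n := by
    rw [Function.iterate_succ_apply']
    have := T_low hA (x := (T p d)^[s] n) (by omega) (by omega)
    omega
  set b := (T p d)^[t] n with hb
  set b' := (T p d)^[s + 1] n with hb'
  have hb0 : (0 : ℝ) < b := by exact_mod_cast (by omega : (0 : ℤ) < b)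
  have hb'0 : (0 : ℝ) < b' := by exact_mod_cast (by omega : (0 : ℤ) < b')
  have hlog : Real.log b ≤ Real.log 2 + Real.log b' := by
    rw [← Real.log_mul (by norm_num) hb'0.ne']
    apply Real.log_le_log hb0
    exact_mod_cast hlow
  have e1 := hE t (by omega) hrec
  have e2 := hE (s + 1) ht'k hrec'
  rw [← hb'] at e2
  obtain ⟨e1a, e1b⟩ := abs_le.1 e1
  obtain ⟨e2a, e2b⟩ := abs_le.1 e2
  have hE0 : 0 ≤ E := (abs_nonneg _).trans e1
  have hl2 : 0 < Real.log 2 := Real.log_pos (by norm_num)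
  have htime : ((s + 1 : ℕ) : ℝ) - t ≤ α * (Real.log 2 + 2 * E) := by
    have h1 : ((s + 1 : ℕ) : ℝ) / α - t / α ≤ Real.log 2 + 2 * E := by linarith
    rw [← sub_div, div_le_iff₀ hα] at h1
    linarith
  have hjt : (j : ℝ) - t ≤ α * (Real.log 2 + 2 * E) := by
    have : (j : ℝ) ≤ ((s + 1 : ℕ) : ℝ) := by exact_mod_cast hjt'.le
    linarith
  have hjt0 : (0 : ℝ) ≤ (j : ℝ) - t := by
    have : (t : ℝ) ≤ j := by exact_mod_cast htj
    linarith
  -- the value at the time `j`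
  have hTj : (T p d)^[j] n = (T p d)^[j - t] b := by
    rw [hb, ← Function.iterate_add_apply]
    congr 2
    omega
  have hjb : b ≤ (T p d)^[j] n := hall j le_rfl
  have hup : (T p d)^[j] n ≤ (p : ℤ) ^ (j - t) * b := by
    rw [hTj]
    apply it_high hA
    intro i hi
    have h1 := hk (i + t) (by omega)
    rw [Function.iterate_add_apply, ← hb] at h1
    omega
  have hj0 : (0 : ℝ) < ((T p d)^[j] n : ℤ) := by
    exact_mod_cast (by omega : (0 : ℤ) < (T p d)^[j] n)
  have hlog1 : Real.log b ≤ Real.log ((T p d)^[j] n : ℤ) := by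
    apply Real.log_le_log hb0
    exact_mod_cast hjb
  have hlog2 : Real.log ((T p d)^[j] n : ℤ) ≤ ((j : ℝ) - t) * Real.log p + Real.log b := by
    have hpp : (0 : ℝ) < (p : ℝ) ^ (j - t) := by positivity
    have h1 : ((T p d)^[j] n : ℝ) ≤ (p : ℝ) ^ (j - t) * b := by exact_mod_cast hup
    have h2 := Real.log_le_log hj0 h1
    rw [Real.log_mul hpp.ne' hb0.ne', Real.log_pow, Nat.cast_sub htj] at h2
    exact h2
  have hpa : 0 ≤ Real.log p + 1 / α := by positivity
  have hbig := mul_le_mul_of_nonneg_right hjt hpa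
  have hx1 : 0 ≤ ((j : ℝ) - t) * Real.log p := mul_nonneg hjt0 hlp.le
  have hx2 : 0 ≤ ((j : ℝ) - t) * (1 / α) := by positivity
  have hx3 : ((j : ℝ) - t) * (Real.log p + 1 / α) =
      ((j : ℝ) - t) * Real.log p + ((j : ℝ) - t) * (1 / α) := by ring
  have hx4 : (j : ℝ) / α = t / α + ((j : ℝ) - t) * (1 / α) := by ring
  rw [abs_le]
  constructor
  · linarith
  · linarith

/-- entrance times from a bounded set -/
theorem bdd (p : ℕ) (d c : ℤ) : ∃ (B : ℕ) (M : ℝ), 0 ≤ M ∧ ∀ a v : ℤ, 1 ≤ a → a ≤ c → 1 ≤ v →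
    v ≤ c → ∀ m : ℕ, (∀ i < m, v < (T p d)^[i] a) → (T p d)^[m] a ≤ v →
      m ≤ B ∧ ∀ i < m, Real.log ((T p d)^[i] a : ℤ) ≤ M := by
  classical
  have hq : ∀ q : ℤ × ℤ, ∃ BM : ℕ × ℝ, 0 ≤ BM.2 ∧ ∀ m : ℕ, (∀ i < m, q.2 < (T p d)^[i] q.1) →
      (T p d)^[m] q.1 ≤ q.2 → m ≤ BM.1 ∧ ∀ i < m, Real.log ((T p d)^[i] q.1 : ℤ) ≤ BM.2 := by
    intro q
    by_cases hex : ∃ m, (T p d)^[m] q.1 ≤ q.2
    · refine ⟨(Nat.find hex, ∑ i ∈ range (Nat.find hex), |Real.log ((T p d)^[i] q.1 : ℤ)|),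
        ?_, fun m hm hm' => ?_⟩
      · show 0 ≤ ∑ i ∈ range (Nat.find hex), |Real.log ((T p d)^[i] q.1 : ℤ)|
        positivity
      have h1 : m ≤ Nat.find hex := by
        by_contra h
        have := hm (Nat.find hex) (by omega)
        have := Nat.find_spec hex
        omega
      refine ⟨h1, fun i hi => (le_abs_self _).trans ?_⟩
      exact single_le_sum (f := fun i => |Real.log ((T p d)^[i] q.1 : ℤ)|)
        (fun i _ => abs_nonneg _) (mem_range.2 (by omega))
    · exact ⟨(0, 0), le_rfl, fun m hm hm' => absurd ⟨m, hm'⟩ hex⟩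
  choose f hf0 hf using hq
  refine ⟨∑ q ∈ Icc 1 c ×ˢ Icc 1 c, (f q).1, ∑ q ∈ Icc 1 c ×ˢ Icc 1 c, (f q).2,
    sum_nonneg fun q _ => hf0 q, fun a v h1 h2 h3 h4 m hm hm' => ?_⟩
  have hmem : (a, v) ∈ Icc 1 c ×ˢ Icc 1 c := by
    simp only [mem_product, mem_Icc]
    exact ⟨⟨h1, h2⟩, h3, h4⟩
  obtain ⟨g1, g2⟩ := hf (a, v) m hm hm'
  refine ⟨g1.trans ?_, fun i hi => (g2 i hi).trans ?_⟩
  · exact single_le_sum (f := fun q => (f q).1) (fun i _ => Nat.zero_le _) hmem
  · exact single_le_sum (f := fun q => (f q).2) (fun i _ => hf0 i) hmem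

/-! ### The number of the trajectories with a record off the line -/

open UL in
theorem count (h : S_CHN) {p : ℕ} {d : ℤ} (hA : Adm p d) {α : ℝ} (hα : 1 / Real.log 2 < α)
    (hQ : Q p (1 - rp p α)) {δ : ℝ} (hδ : 0 < δ) :
    ∃ κ : ℝ, 0 < κ ∧ ∃ c₀ : ℤ, 1 ≤ c₀ ∧ ∀ c : ℤ, c₀ ≤ c → ∃ X₀ : ℝ, 1 ≤ X₀ ∧ ∀ x : ℝ, X₀ ≤ x →
      ∀ y : ℝ, 1 ≤ y → y ≤ x → ∀ F : Finset ℤ,
      (∀ n ∈ F, (n : ℝ) ≤ x ∧ 1 ≤ n ∧ ∃ k t : ℕ, t ≤ k ∧
        (k : ℝ) ≤ α * (Real.log n - Real.log y) ∧
        (∀ j < k, max ⌊y⌋ c < (T p d)^[j] n) ∧ 1 ≤ (T p d)^[k] n ∧ (T p d)^[k] n ≤ max ⌊y⌋ c ∧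
        (∀ i < t, (T p d)^[t] n < (T p d)^[i] n) ∧
        δ * Real.log x < |(oT p d t n : ℝ) - rp p α * t|) →
      (F.card : ℝ) ≤ x ^ (-κ) * (y * (x / y) ^ (ex p α)) := by
  classical
  have hp := hA.1
  have hl2 : 0 < Real.log 2 := Real.log_pos (by norm_num)
  have hl := (p_facts hp).2.1
  have hα0 : 0 < α := lt_trans (by positivity) hα
  obtain ⟨κ, hκ, z₁, z₂, hQ1, hQ2, hgain⟩ := gain hp hα0 hQ hδ
  obtain ⟨ha, hab⟩ := q_facts hQ
  obtain ⟨hex, hU⟩ := ex_facts hp hα hQ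
  set z : ℝ := 1 - rp p α with hz
  have hU0 : 0 ≤ ex p α := by
    rw [hex]
    exact mul_nonneg hα0.le (php_nonneg hp hQ (rp_pos hp hα).le (rp_mul_lt hp hα0).le)
  set U : ℝ := ex p α with hUdef
  set R : ℝ := (-Real.log z * Real.log p + -Real.log (tt p z) * Real.log 2) / Real.log p with hR
  have hR0 : 0 < R := div_pos hab hl
  -- the small constants
  set η : ℝ := κ / (8 * α * (1 + α * R)) with hη
  have hη0 : 0 < η := by positivity
  obtain ⟨c₁, hc₁, hup0⟩ := h p d hA {z, z₁, z₂} (by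
    intro w hw
    simp only [mem_insert, mem_singleton] at hw
    rcases hw with rfl | rfl | rfl
    · exact hQ
    · exact hQ1
    · exact hQ2)
  obtain ⟨c₂, hc₂, hsz0⟩ := at_size hA hη0
  refine ⟨κ / 2, by positivity, max c₁ c₂, hc₁.trans (le_max_left _ _), fun c hc => ?_⟩
  have hcc1 : c₁ ≤ c := (le_max_left _ _).trans hc
  have hcc2 : c₂ ≤ c := (le_max_right _ _).trans hc
  have hc1 : 1 ≤ c := hc₁.trans hcc1
  have hcR : (1 : ℝ) ≤ c := by exact_mod_cast hc1
  have hlc : 0 ≤ Real.log (c : ℝ) := Real.log_nonneg hcR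
  obtain ⟨C, hC, hup⟩ := hup0 c hcc1 (κ / (8 * α)) (by positivity)
  have hC0 : 0 < C := by linarith
  have hsz := hsz0 c hcc2
  set B : ℝ := α * Real.log c with hB
  have hB0 : 0 ≤ B := by positivity
  -- the polynomial factor
  obtain ⟨K', hK'0, hK'⟩ := Pool.Agent.Y966.LD.log_lin (show 0 < κ / 40 by positivity)
  set G : ℝ := (max 1 α) ^ 4 * C ^ 2 * Real.exp (R * B) * c * (1 + Real.log c) with hG
  have hG0 : 0 < G := by
    have : (0 : ℝ) < max 1 α := lt_max_of_lt_left one_pos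
    positivity
  set L₀ : ℝ := 8 * (|Real.log G| + 5 * K') / κ with hL₀
  have hL₀0 : 0 ≤ L₀ := by positivity
  refine ⟨Real.exp L₀, Real.one_le_exp hL₀0, fun x hx y hy hyx F hF => ?_⟩
  have hx0 : 0 < x := lt_of_lt_of_le (Real.exp_pos _) hx
  have hL : L₀ ≤ Real.log x := by
    rw [Real.le_log_iff_exp_le hx0]
    exact hx
  set L : ℝ := Real.log x with hLdef
  have hLn : 0 ≤ L := hL₀0.trans hL
  have hy0 : 0 < y := by linarith
  have hly : 0 ≤ Real.log y := Real.log_nonneg hy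
  have hlyL : Real.log y ≤ L := Real.log_le_log hy0 hyx
  have hxy : 1 ≤ x / y := by
    rw [le_div_iff₀ hy0]
    linarith
  have hpow1 : 1 ≤ (x / y) ^ U := Real.one_le_rpow hxy hU0
  -- the threshold
  set Y : ℤ := max ⌊y⌋ c with hY
  have hYc : c ≤ Y := le_max_right _ _
  have hYcy : (Y : ℝ) ≤ c * y := by
    rcases max_choice ⌊y⌋ c with h | h
    · rw [hY, h]
      have h1 := Int.floor_le y
      nlinarith
    · rw [hY, h]
      nlinarith
  -- the classes
  set K : ℕ := ⌊α * L⌋₊ with hK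
  have hKle : (K : ℝ) ≤ α * L := Nat.floor_le (by positivity)
  have hent : ∀ n : ℤ, ∃ k t : ℕ, n ∈ F → (k ≤ K ∧ t ≤ k ∧
      (k : ℝ) ≤ α * (Real.log n - Real.log y) ∧
      (∀ j < k, Y < (T p d)^[j] n) ∧ 1 ≤ (T p d)^[k] n ∧ (T p d)^[k] n ≤ Y ∧
      (∀ i < t, (T p d)^[t] n < (T p d)^[i] n) ∧
      δ * L < |(oT p d t n : ℝ) - rp p α * t|) := by
    intro n
    by_cases hn : n ∈ F
    · obtain ⟨h3, h4, k, t, h5, h6, h7⟩ := hF n hn
      refine ⟨k, t, fun _ => ⟨?_, h5, h6, h7⟩⟩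
      apply Nat.le_floor
      refine h6.trans ?_
      apply mul_le_mul_of_nonneg_left _ hα0.le
      have hn0 : (0 : ℝ) < n := by exact_mod_cast (by omega : (0 : ℤ) < n)
      have := Real.log_le_log hn0 h3
      linarith
    · exact ⟨0, 0, fun h => absurd h hn⟩
  choose kf tf hkf using hent
  set I : Finset (ℤ × ℕ × ℕ × ℕ × ℕ) := (Finset.Icc 1 Y) ×ˢ (range (K + 1)) ×ˢ (range (K + 1)) ×ˢ
    (range (K + 1)) ×ˢ (range (K + 1)) with hI
  set g : ℤ → ℤ × ℕ × ℕ × ℕ × ℕ := fun n => ((T p d)^[kf n] n, kf n, tf n, oT p d (tf n) n,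
    oT p d (kf n - tf n) ((T p d)^[tf n] n)) with hg
  have hmaps : ∀ n ∈ F, g n ∈ I := by
    intro n hn
    obtain ⟨h1, h1', h2, h3, h4, h5, _⟩ := hkf n hn
    have h6 := oT_le p d (tf n) n
    have h7 := oT_le p d (kf n - tf n) ((T p d)^[tf n] n)
    simp only [hI, hg, mem_product, mem_Icc, mem_range]
    exact ⟨⟨h4, h5⟩, by omega, by omega, by omega, by omega⟩
  have hcard : F.card = ∑ i ∈ I, (F.filter fun n => g n = i).card :=
    Finset.card_eq_sum_card_fiberwise hmaps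
  -- the bound of a class
  set D : ℝ := C ^ 2 * Real.exp (κ / 4 * L - κ * L + R * B) * (x / y) ^ U * (c * y) with hD
  have hD0 : 0 ≤ D := by positivity
  have hclass : ∀ i ∈ I, ((F.filter fun n => g n = i).card : ℝ) ≤ D * (1 / (i.1 : ℝ)) := by
    rintro ⟨a, k, t, o₁, o₂⟩ hi
    simp only [hI, mem_product, mem_Icc, mem_range] at hi
    obtain ⟨⟨ha1, ha2⟩, hk, ht, ho₁, ho₂⟩ := hi
    simp only
    have haR : (1 : ℝ) ≤ a := by exact_mod_cast ha1
    have ha0 : (0 : ℝ) < a := by linarith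
    have haY : (a : ℝ) ≤ c * y := le_trans (by exact_mod_cast ha2) hYcy
    set H := F.filter fun n => g n = (a, k, t, o₁, o₂) with hH
    rcases H.eq_empty_or_nonempty with he | ⟨n, hn⟩
    · rw [he]
      simp only [card_empty, Nat.cast_zero]
      positivity
    have hmem : ∀ n ∈ H, n ∈ F ∧ (T p d)^[k] n = a ∧ kf n = k ∧ tf n = t ∧ oT p d t n = o₁ ∧
        oT p d (k - t) ((T p d)^[t] n) = o₂ := by
      intro n hn
      obtain ⟨h1, h2⟩ := Finset.mem_filter.1 hn
      simp only [hg, Prod.mk.injEq] at h2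
      obtain ⟨h3, h4, h5, h6, h7⟩ := h2
      rw [h5] at h6
      rw [h4, h5] at h7
      rw [h4] at h3
      exact ⟨h1, h3, h4, h5, h6, h7⟩
    -- the tilt of the first piece
    obtain ⟨n2, n3, n4, n5, n6, n7⟩ := hmem n hn
    obtain ⟨g1, g1', g2, g3, g4, g5, g6, g7⟩ := hkf n n2
    rw [n4] at g1 g2 g3
    rw [n4, n5] at g1'
    rw [n5, n6] at g7
    have hkK : (k : ℝ) ≤ α * L := le_trans (by exact_mod_cast g1) hKle
    have htk : (t : ℝ) ≤ k := by exact_mod_cast g1'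
    have hot : o₁ ≤ t := by
      rw [← n6]
      exact oT_le p d t n
    obtain ⟨z', hz', hz'2⟩ : ∃ z' ∈ ({z, z₁, z₂} : Finset ℝ), lz p z' t o₁ ≤ lz p z t o₁ - κ * L := by
      rcases hgain t o₁ L hot (htk.trans hkK) g7 with h | h
      · exact ⟨z₁, by simp, h⟩
      · exact ⟨z₂, by simp, h⟩
    have h1 := hup [(t, o₁, z'), (k - t, o₂, z)] {a} H (by
      intro q hq
      simp only [List.mem_cons, List.not_mem_nil, or_false] at hq
      rcases hq with rfl | rfl
      · exact hz'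
      · simp) (by
      intro a' ha'
      rw [mem_singleton] at ha'
      rw [ha']
      exact ha1) (by
      intro n hn
      obtain ⟨n2, n3, n4, n5, n6, n7⟩ := hmem n hn
      obtain ⟨g1, g1', g2, g3, g4, g5, g6, g7⟩ := hkf n n2
      rw [n4] at g1 g2 g3
      rw [n4, n5] at g1'
      rw [n5] at g6
      have hsplit : ∀ i : ℕ, (T p d)^[i] ((T p d)^[t] n) = (T p d)^[i + t] n := by
        intro i
        rw [Function.iterate_add_apply]
      have hend : (T p d)^[k - t] ((T p d)^[t] n) = a := by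
        rw [hsplit, Nat.sub_add_cancel g1', n3]
      have hb1 : 1 ≤ (T p d)^[t] n := by
        rcases g1'.lt_or_eq with h | h
        · have := g3 t h
          omega
        · rw [h, n3]
          exact ha1
      refine ⟨a, mem_singleton_self a, (T p d)^[t] n, hb1, ⟨rfl, ?_, n6⟩, a, ha1,
        ⟨hend, ?_, n7⟩, rfl⟩
      · intro j hj
        exact ⟨lt_of_le_of_lt hYc (g3 j (lt_of_lt_of_le hj g1')), g6 j hj⟩
      · intro j hj
        have hj' : j < k - t := hj
        have := g3 (j + t) (by omega)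
        rw [hsplit]
        exact ⟨lt_of_le_of_lt hYc this, lt_of_le_of_lt ha2 this⟩)
    have e0 : (([(t, o₁, z'), (k - t, o₂, z)] : List (ℕ × ℕ × ℝ)).map
        fun q => κ / (8 * α) * q.1 + lz p q.2.2 q.1 q.2.1).sum =
        κ / (8 * α) * k + (lz p z' t o₁ + lz p z (k - t) o₂) := by
      simp only [List.map_cons, List.map_nil, List.sum_cons, List.sum_nil]
      rw [Nat.cast_sub g1']
      ring
    rw [e0, card_singleton, Nat.cast_one, one_mul] at h1
    have e00 : ([(t, o₁, z'), (k - t, o₂, z)] : List (ℕ × ℕ × ℝ)).length = 2 := rfl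
    rw [e00] at h1
    refine h1.trans ?_
    -- the constraint
    obtain ⟨f3, f4, _⟩ := hF n n2
    have hn0 : (0 : ℝ) < n := by exact_mod_cast (by omega : (0 : ℤ) < n)
    have hs := hsz n k (by rw [n3]; exact ha1) (fun j hj => lt_of_le_of_lt hYc (g3 j hj))
    have hoo : oT p d k n = o₁ + o₂ := by
      have := oT_add p d t (k - t) n
      rw [Nat.add_sub_cancel' g1', n6, n7] at this
      exact this
    rw [n3, hoo] at hs
    set o : ℝ := ((o₁ + o₂ : ℕ) : ℝ) with ho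
    obtain ⟨hs1, hs2⟩ := abs_le.1 hs
    have hkn : (0 : ℝ) ≤ k := Nat.cast_nonneg k
    have hlay : Real.log a ≤ Real.log c + Real.log y := by
      rw [← Real.log_mul (by positivity) hy0.ne']
      exact Real.log_le_log ha0 haY
    have hlnx : Real.log n ≤ L := Real.log_le_log hn0 f3
    have hE : (k : ℝ) ≤ α * (k * Real.log 2 - o * Real.log p) + (α * (η * k) + B) := by
      have h6 : α * (Real.log n - Real.log y) ≤
          α * ((k * Real.log 2 - o * Real.log p) + η * k + Real.log c) := by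
        apply mul_le_mul_of_nonneg_left _ hα0.le
        linarith
      rw [hB]
      linarith
    have h7 := lin_bound hp hQ hα hE
    rw [← hex, ← hR] at h7
    have h8 : U * (k * Real.log 2 - o * Real.log p) ≤ U * (L - Real.log a + η * k) := by
      apply mul_le_mul_of_nonneg_left _ hU0
      linarith
    have h9 : U * (η * k) ≤ η * k := mul_le_of_le_one_left (by positivity) hU
    have h10 : κ / (8 * α) * k + η * k + α * (η * k) * R ≤ κ / 4 * L := by
      have e1 : η * k + α * (η * k) * R = κ / (8 * α) * k := by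
        rw [hη]
        field_simp
      have e2 : κ / (8 * α) * k ≤ κ / (8 * α) * (α * L) := mul_le_mul_of_nonneg_left hkK (by positivity)
      have e3 : κ / (8 * α) * (α * L) = κ / 8 * L := by field_simp
      linarith
    have hlz : lz p z t o₁ + lz p z (k - t) o₂ =
        k * (-Real.log z) + o * (-Real.log (tt p z)) := by
      unfold lz
      rw [ho, Nat.cast_sub g1']
      push_cast
      ring
    have h11 : Real.exp (κ / (8 * α) * k + (lz p z' t o₁ + lz p z (k - t) o₂)) ≤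
        Real.exp (κ / 4 * L - κ * L + R * B) * Real.exp (U * (L - Real.log a)) := by
      rw [← Real.exp_add]
      apply Real.exp_le_exp.2
      have e1 : (α * (η * k) + B) * R = α * (η * k) * R + R * B := by ring
      rw [e1] at h7
      have e2 : U * (L - Real.log a + η * k) = U * (L - Real.log a) + U * (η * k) := by ring
      rw [e2] at h8
      linarith
    have h12 : Real.exp (U * (L - Real.log a)) ≤ (x / y) ^ U * (c * y / a) := by
      have hcya : 1 ≤ c * y / a := by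
        rw [le_div_iff₀ ha0]
        linarith
      have e1 : Real.exp (U * (L - Real.log a)) = (x / a) ^ U := by
        rw [Real.rpow_def_of_pos (by positivity), Real.log_div hx0.ne' ha0.ne', mul_comm]
      have e2 : x / a ≤ (x / y) * (c * y / a) := by
        have : (x / y) * (c * y / a) = c * (x / a) := by field_simp
        rw [this]
        have : 0 ≤ x / a := by positivity
        nlinarith
      rw [e1]
      calc (x / a) ^ U ≤ ((x / y) * (c * y / a)) ^ U :=
            Real.rpow_le_rpow (by positivity) e2 hU0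
        _ = (x / y) ^ U * (c * y / a) ^ U := Real.mul_rpow (by positivity) (by positivity)
        _ ≤ (x / y) ^ U * (c * y / a) ^ (1 : ℝ) :=
            mul_le_mul_of_nonneg_left (Real.rpow_le_rpow_of_exponent_le hcya hU) (by positivity)
        _ = (x / y) ^ U * (c * y / a) := by rw [Real.rpow_one]
    calc C ^ 2 * Real.exp (κ / (8 * α) * k + (lz p z' t o₁ + lz p z (k - t) o₂))
        ≤ C ^ 2 * (Real.exp (κ / 4 * L - κ * L + R * B) * ((x / y) ^ U * (c * y / a))) :=
          mul_le_mul_of_nonneg_left (h11.trans (mul_le_mul_of_nonneg_left h12 (Real.exp_pos _).le))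
            (by positivity)
      _ = D * (1 / (a : ℝ)) := by
          rw [hD]
          ring
  have hbig : (F.card : ℝ) ≤ D * (1 + Real.log Y) * ((K : ℝ) + 1) ^ 4 := by
    have h1 : (F.card : ℝ) ≤ ∑ i ∈ I, D * (1 / (i.1 : ℝ)) := by
      rw [hcard]
      push_cast
      exact sum_le_sum hclass
    have h2 : ∑ i ∈ I, D * (1 / (i.1 : ℝ)) =
        D * (∑ a ∈ Finset.Icc (1 : ℤ) Y, (1 : ℝ) / a) * ((K : ℝ) + 1) ^ 4 := by
      rw [hI, sum_product]
      simp only [sum_const, card_product, card_range, nsmul_eq_mul]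
      rw [mul_sum, sum_mul]
      refine sum_congr rfl fun a _ => ?_
      push_cast
      ring
    rw [h2] at h1
    refine h1.trans ?_
    apply mul_le_mul_of_nonneg_right _ (by positivity)
    apply mul_le_mul_of_nonneg_left _ hD0
    obtain ⟨A, hAY⟩ : ∃ A : ℕ, Y = (A : ℤ) := ⟨Y.toNat, by omega⟩
    rw [hAY]
    exact_mod_cast harm A
  -- collect
  have hY0 : (1 : ℝ) ≤ Y := by exact_mod_cast (by omega : (1 : ℤ) ≤ Y)
  have hlogY : Real.log Y ≤ Real.log c + L := by
    have h1 : Real.log (Y : ℝ) ≤ Real.log (c * y) := Real.log_le_log (by linarith) hYcy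
    rw [Real.log_mul (by positivity) hy0.ne'] at h1
    linarith
  have hfac : (1 + Real.log Y) * ((K : ℝ) + 1) ^ 4 ≤
      (max 1 α) ^ 4 * (1 + Real.log c) * (L + 1) ^ 5 := by
    have hm1 : (1 : ℝ) ≤ max 1 α := le_max_left _ _
    have hmα : α ≤ max 1 α := le_max_right _ _
    have h1 : 1 + Real.log Y ≤ (1 + Real.log c) * (L + 1) := by nlinarith
    have h2 : (K : ℝ) + 1 ≤ max 1 α * (L + 1) := by nlinarith
    have h3 : ((K : ℝ) + 1) ^ 4 ≤ (max 1 α * (L + 1)) ^ 4 := by gcongr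
    have hlY : 0 ≤ 1 + Real.log Y := by
      have := Real.log_nonneg hY0
      linarith
    calc (1 + Real.log Y) * ((K : ℝ) + 1) ^ 4
        ≤ ((1 + Real.log c) * (L + 1)) * (max 1 α * (L + 1)) ^ 4 := by
          apply mul_le_mul h1 h3 (by positivity) (by positivity)
      _ = _ := by ring
  have hL5 : (L + 1) ^ 5 ≤ Real.exp (κ / 8 * L + 5 * K') := by
    have h1 := hK' L hLn
    have h2 : (L + 1) ^ 5 = Real.exp (5 * Real.log (L + 1)) := by
      rw [show (5 : ℝ) * Real.log (L + 1) = ((5 : ℕ) : ℝ) * Real.log (L + 1) by norm_num,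
        Real.exp_nat_mul, Real.exp_log (by linarith)]
    rw [h2]
    apply Real.exp_le_exp.2
    linarith
  have hxe : x ^ (-(κ / 2)) = Real.exp (-(κ / 2) * L) := by
    rw [Real.rpow_def_of_pos hx0, mul_comm]
  refine hbig.trans ?_
  have h1 : D * (1 + Real.log Y) * ((K : ℝ) + 1) ^ 4 ≤
      D * ((max 1 α) ^ 4 * (1 + Real.log c) * Real.exp (κ / 8 * L + 5 * K')) := by
    rw [mul_assoc]
    apply mul_le_mul_of_nonneg_left _ hD0
    refine hfac.trans ?_
    apply mul_le_mul_of_nonneg_left hL5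
    positivity
  refine h1.trans ?_
  have h2 : D * ((max 1 α) ^ 4 * (1 + Real.log c) * Real.exp (κ / 8 * L + 5 * K')) =
      (G * (Real.exp (κ / 4 * L - κ * L) * Real.exp (κ / 8 * L + 5 * K'))) *
        (y * (x / y) ^ U) := by
    rw [hD, hG, Real.exp_add (κ / 4 * L - κ * L)]
    ring
  rw [h2]
  apply mul_le_mul_of_nonneg_right _ (by positivity)
  rw [hxe, ← Real.exp_add]
  have e1 : G = Real.exp (Real.log G) := (Real.exp_log hG0).symm
  rw [e1, ← Real.exp_add]
  apply Real.exp_le_exp.2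
  have h4 : L₀ ≤ L := hL
  rw [hL₀, div_le_iff₀ hκ] at h4
  have h5 := le_abs_self (Real.log G)
  nlinarith

end Str

theorem t_STR (h : S_CHN) : S_STR := by
  intro p d hA α hα hQ ε hε
  classical
  have hp := hA.1
  obtain ⟨hp1, hlp, hp3⟩ := UL.p_facts hp
  have hl2 : 0 < Real.log 2 := Real.log_pos (by norm_num)
  have hα0 : 0 < α := lt_trans (by positivity) hα
  have hspec := UL.rp_spec hp α
  -- the constants
  set W : ℝ := 2 * α * (Real.log p + 1 / α) + 1 with hW
  have hW1 : 1 ≤ W := by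
    have : 0 ≤ 2 * α * (Real.log p + 1 / α) := by positivity
    linarith
  have hW0 : 0 < W := by linarith
  set δ : ℝ := ε / (4 * W) with hδ
  have hδ0 : 0 < δ := by positivity
  have hδW : δ * W = ε / 4 := by
    rw [hδ]
    field_simp
  have hδε : δ ≤ ε / 4 := by nlinarith
  obtain ⟨κ, hκ, c₁, hc₁, hcount⟩ := Str.count h hA hα hQ
    (show 0 < δ / (2 * Real.log p) by positivity)
  obtain ⟨c₂, hc₂, hsz0⟩ := UL.at_size hA (show 0 < δ / (2 * α) by positivity)
  set c : ℤ := max (max c₁ c₂) |d| with hc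
  have hcc1 : c₁ ≤ c := (le_max_left _ _).trans (le_max_left _ _)
  have hcc2 : c₂ ≤ c := (le_max_right _ _).trans (le_max_left _ _)
  have hcd : |d| ≤ c := le_max_right _ _
  have hc1 : 1 ≤ c := hc₁.trans hcc1
  have hcR : (1 : ℝ) ≤ c := by exact_mod_cast hc1
  have hlc : 0 ≤ Real.log (c : ℝ) := Real.log_nonneg hcR
  have hsz := hsz0 c hcc2
  obtain ⟨X₁, hX₁, hcnt⟩ := hcount c hcc1
  obtain ⟨B, M, hM, hbdd⟩ := Str.bdd p d c
  set L₀ : ℝ := 4 * (α * Real.log 2 * (Real.log p + 1 / α) + M + Real.log c + B / α + 1) / ε with hL₀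
  have hL₀0 : 0 ≤ L₀ := by positivity
  refine ⟨κ, hκ, max X₁ (Real.exp L₀), hX₁.trans (le_max_left _ _),
    fun x hx y hy hyx F hF => ?_⟩
  have hx1 : X₁ ≤ x := (le_max_left _ _).trans hx
  have hx2 : Real.exp L₀ ≤ x := (le_max_right _ _).trans hx
  have hx0 : 0 < x := lt_of_lt_of_le (Real.exp_pos _) hx2
  have hL : L₀ ≤ Real.log x := by
    rw [Real.le_log_iff_exp_le hx0]
    exact hx2
  refine hcnt x hx1 y hy hyx F fun n hn => ?_
  obtain ⟨h1, h2, k, h3, h4, h5, j, h6, h7⟩ := hF n hn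
  set L : ℝ := Real.log x with hLdef
  have hLn : 0 ≤ L := hL₀0.trans hL
  have hL4 : α * Real.log 2 * (Real.log p + 1 / α) + M + Real.log c + B / α + 1 ≤ ε / 4 * L := by
    have h8 := hL
    rw [hL₀, div_le_iff₀ hε] at h8
    linarith
  have hn1R : (1 : ℝ) < n := by linarith
  have hn1 : 1 < n := by exact_mod_cast hn1R
  have hy0 : 0 < y := by linarith
  have hly : 0 ≤ Real.log y := Real.log_nonneg hy
  set Y : ℤ := max ⌊y⌋ c with hY
  have hYc : c ≤ Y := le_max_right _ _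
  have hYy : ⌊y⌋ ≤ Y := le_max_left _ _
  -- the first entrance
  have hkY : (T p d)^[k] n ≤ Y := (Int.le_floor.2 h3).trans hYy
  have hexk : ∃ k, (T p d)^[k] n ≤ Y := ⟨k, hkY⟩
  obtain ⟨k₁, hk₁Y, hk₁min⟩ : ∃ k₁, (T p d)^[k₁] n ≤ Y ∧ ∀ i < k₁, ¬ (T p d)^[i] n ≤ Y :=
    ⟨Nat.find hexk, Nat.find_spec hexk, fun i hi => Nat.find_min hexk hi⟩
  have hk₁lt : ∀ i < k₁, Y < (T p d)^[i] n := fun i hi => not_le.1 (hk₁min i hi)
  have hk₁k : k₁ ≤ k := by
    by_contra hcon
    exact hk₁min k (by omega) hkY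
  have hk₁1 : 1 ≤ (T p d)^[k₁] n := by
    rcases Nat.eq_zero_or_pos k₁ with h0 | hpos
    · rw [h0]
      simp only [Function.iterate_zero, id]
      omega
    · obtain ⟨m, rfl⟩ : ∃ m, k₁ = m + 1 := ⟨k₁ - 1, by omega⟩
      have := hk₁lt m (by omega)
      rw [Function.iterate_succ_apply']
      exact UL.T_pos hA (by omega) (by omega)
  have hk₁n : (k₁ : ℝ) ≤ α * (Real.log n - Real.log y) := by
    have : (k₁ : ℝ) ≤ k := by exact_mod_cast hk₁k
    linarith
  have hk₁L : (k₁ : ℝ) ≤ α * L := by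
    refine hk₁n.trans ?_
    apply mul_le_mul_of_nonneg_left _ hα0.le
    have := Real.log_le_log (by linarith : (0 : ℝ) < n) h2
    linarith
  refine ⟨h2, by omega, k₁, ?_⟩
  by_contra hcon
  push Not at hcon
  -- all records are on the line
  have hE : ∀ t ≤ k₁, (∀ i < t, (T p d)^[t] n < (T p d)^[i] n) →
      |Real.log n - Real.log ((T p d)^[t] n : ℤ) - t / α| ≤ δ * L := by
    intro t ht hrec
    have h8 := hcon t ht hk₁n hk₁lt hk₁1 hk₁Y hrec
    have ht1 : 1 ≤ (T p d)^[t] n := by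
      rcases ht.lt_or_eq with h9 | h9
      · have := hk₁lt t h9
        omega
      · rw [h9]
        exact hk₁1
    have h10 := hsz n t ht1 fun i hi => lt_of_le_of_lt hYc (hk₁lt i (by omega))
    have htL : (t : ℝ) ≤ α * L := le_trans (by exact_mod_cast ht) hk₁L
    have h11 : δ / (2 * α) * t ≤ δ / 2 * L := by
      calc δ / (2 * α) * t ≤ δ / (2 * α) * (α * L) := mul_le_mul_of_nonneg_left htL (by positivity)
        _ = δ / 2 * L := by field_simp
    have h12 : |((oT p d t n : ℝ) - rp p α * t) * Real.log p| ≤ δ / 2 * L := by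
      rw [abs_mul, abs_of_pos hlp]
      calc |(oT p d t n : ℝ) - rp p α * t| * Real.log p
          ≤ (δ / (2 * Real.log p) * L) * Real.log p := mul_le_mul_of_nonneg_right h8 hlp.le
        _ = δ / 2 * L := by field_simp
    have h13 : (t : ℝ) / α = t * Real.log 2 - rp p α * t * Real.log p := by
      rw [div_eq_mul_one_div, hspec]
      ring
    obtain ⟨a1, a2⟩ := abs_le.1 h10
    obtain ⟨b1, b2⟩ := abs_le.1 h12
    rw [h13, abs_le]
    constructor
    · nlinarith
    · nlinarith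
  rcases lt_or_ge j k₁ with hj | hj
  · have h8 := Str.line hA hα0 (by omega : 1 ≤ Y) (by omega) hk₁lt hk₁1 hk₁Y hE hj
    have h9 : α * (Real.log 2 + 2 * (δ * L)) * (Real.log p + 1 / α) + δ * L =
        α * Real.log 2 * (Real.log p + 1 / α) + (δ * W) * L := by
      rw [hW]
      ring
    rw [h9, hδW] at h8
    have h10 : 0 ≤ (B : ℝ) / α := by positivity
    have h11 : ε * L = ε / 4 * L + ε / 4 * L + ε / 2 * L := by ring
    have h12 : 0 ≤ ε / 2 * L := by positivity
    linarith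
  · -- the bounded part
    have hk₁y : y < (((T p d)^[k₁] n : ℤ) : ℝ) := h4 k₁ (by omega)
    have hfl : ⌊y⌋ < (T p d)^[k₁] n := Int.floor_lt.2 hk₁y
    have hYeq : Y = c := by
      rcases max_choice ⌊y⌋ c with h | h
      · exfalso
        rw [hY, h] at hk₁Y
        omega
      · rw [hY, h]
    rw [hYeq] at hk₁Y
    have hfl1 : 1 ≤ ⌊y⌋ := Int.le_floor.2 (by exact_mod_cast hy)
    have hsplit : ∀ i : ℕ, (T p d)^[i] ((T p d)^[k₁] n) = (T p d)^[i + k₁] n := by
      intro i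
      rw [Function.iterate_add_apply]
    obtain ⟨g1, g2⟩ := hbdd ((T p d)^[k₁] n) ⌊y⌋ hk₁1 hk₁Y hfl1 (by omega) (k - k₁) (by
      intro i hi
      rw [hsplit]
      exact Int.floor_lt.2 (h4 (i + k₁) (by omega))) (by
      rw [hsplit, Nat.sub_add_cancel hk₁k]
      exact Int.le_floor.2 h3)
    have g3 := g2 (j - k₁) (by omega)
    rw [hsplit, Nat.sub_add_cancel hj] at g3
    have g4 : 0 ≤ Real.log ((T p d)^[j] n : ℤ) := by
      apply Real.log_nonneg
      have := h4 j h6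
      linarith
    have g5 := hE k₁ le_rfl (by
      intro i hi
      have := hk₁lt i hi
      omega)
    have g6 : 0 ≤ Real.log ((T p d)^[k₁] n : ℤ) :=
      Real.log_nonneg (by exact_mod_cast hk₁1)
    have g7 : Real.log ((T p d)^[k₁] n : ℤ) ≤ Real.log c :=
      Real.log_le_log (by exact_mod_cast hk₁1) (by exact_mod_cast hk₁Y)
    have g8 : (j : ℝ) / α = k₁ / α + ((j : ℝ) - k₁) / α := by ring
    have g9 : 0 ≤ ((j : ℝ) - k₁) / α := by
      apply div_nonneg _ hα0.le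
      have : (k₁ : ℝ) ≤ j := by exact_mod_cast hj
      linarith
    have g10 : ((j : ℝ) - k₁) / α ≤ B / α := by
      apply div_le_div_of_nonneg_right _ hα0.le
      have h8 : j ≤ k₁ + B := by omega
      have : (j : ℝ) ≤ k₁ + B := by exact_mod_cast h8
      linarith
    obtain ⟨a1, a2⟩ := abs_le.1 g5
    have g11 : |Real.log ((T p d)^[j] n : ℤ) - (Real.log n - j / α)| ≤
        δ * L + (M + Real.log c + B / α) := by
      rw [abs_le]
      constructor
      · linarith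
      · linarith
    have g12 : δ * L ≤ ε / 4 * L := mul_le_mul_of_nonneg_right hδε hLn
    have g13 : 0 ≤ α * Real.log 2 * (Real.log p + 1 / α) := by positivity
    have h12 : 0 ≤ ε / 2 * L := by positivity
    linarith

end Pool.Agent.N685.FD
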