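import Pool.Agent.N685.FD.Stm7

/-!
PROJECT FD (helper685), part 7: upper bound for tubes (helper353).  Induction over the profile: the
trajectory reaches the level of the next piece for the first time (a record), and the number of the
records with a given next point is bounded by `UL.at_upper`.
-/

set_option autoImplicit false

namespace Pool.Agent.N685.FD

open Finset

namespace Tubu

theorem pro_zero : ∀ (L : List (ℝ × ℝ)) (u : ℝ), (∀ q ∈ L, 0 < q.1 ∧ q.1 < 1 ∧ 0 < q.2) →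
    pro L u 0 = u
  | [], u, _ => rfl
  | q :: L, u, h => by
    have h1 : (0 : ℝ) ≤ q.2 := (h q List.mem_cons_self).2.2.le
    show (if (0 : ℝ) ≤ q.2 then u - q.1 * 0 else pro L (u - q.1 * q.2) (0 - q.2)) = u
    rw [if_pos h1]
    ring

theorem pro_lip : ∀ (L : List (ℝ × ℝ)) (u s s' : ℝ), (∀ q ∈ L, 0 < q.1 ∧ q.1 < 1 ∧ 0 < q.2) →
    0 ≤ s → s ≤ s' → |pro L u s - pro L u s'| ≤ s' - s
  | [], u, s, s', _, _, h => by
    show |u - u| ≤ s' - s
    rw [sub_self, abs_zero]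
    linarith
  | q :: L, u, s, s', hL, h0, h => by
    obtain ⟨hq1, hq2, hq3⟩ := hL q List.mem_cons_self
    have hL' : ∀ x ∈ L, 0 < x.1 ∧ x.1 < 1 ∧ 0 < x.2 := fun x hx => hL x (List.mem_cons_of_mem _ hx)
    show |(if s ≤ q.2 then u - q.1 * s else pro L (u - q.1 * q.2) (s - q.2)) -
      (if s' ≤ q.2 then u - q.1 * s' else pro L (u - q.1 * q.2) (s' - q.2))| ≤ s' - s
    by_cases c1 : s' ≤ q.2
    · rw [if_pos (h.trans c1), if_pos c1, abs_le]
      constructor <;> nlinarith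
    · rw [if_neg c1]
      push Not at c1
      by_cases c2 : s ≤ q.2
      · rw [if_pos c2]
        have ih := pro_lip L (u - q.1 * q.2) 0 (s' - q.2) hL' le_rfl (by linarith)
        rw [pro_zero L _ hL', abs_le] at ih
        rw [abs_le]
        constructor <;> nlinarith
      · rw [if_neg c2]
        push Not at c2
        have ih := pro_lip L (u - q.1 * q.2) (s - q.2) (s' - q.2) hL' (by linarith) (by linarith)
        calc _ ≤ _ := ih
          _ = _ := by ring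

theorem pro_shift {q : ℝ × ℝ} {L : List (ℝ × ℝ)} (hL : ∀ x ∈ q :: L, 0 < x.1 ∧ x.1 < 1 ∧ 0 < x.2)
    (u : ℝ) {s : ℝ} (hs : 0 ≤ s) : pro (q :: L) u (s + q.2) = pro L (u - q.1 * q.2) s := by
  have hL' : ∀ x ∈ L, 0 < x.1 ∧ x.1 < 1 ∧ 0 < x.2 := fun x hx => hL x (List.mem_cons_of_mem _ hx)
  show (if s + q.2 ≤ q.2 then u - q.1 * (s + q.2) else pro L (u - q.1 * q.2) (s + q.2 - q.2)) = _
  by_cases c : s + q.2 ≤ q.2
  · have hs0 : s = 0 := by linarith
    rw [if_pos c, hs0, pro_zero L _ hL', zero_add]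
  · rw [if_neg c, add_sub_cancel_right]

theorem dur_nonneg : ∀ (L : List (ℝ × ℝ)), (∀ q ∈ L, 0 < q.1 ∧ q.1 < 1 ∧ 0 < q.2) → 0 ≤ dur L
  | [], _ => by simp [dur]
  | q :: L, h => by
    have h1 := (h q List.mem_cons_self).2.2
    have h2 := dur_nonneg L fun x hx => h x (List.mem_cons_of_mem _ hx)
    unfold dur at h2 ⊢
    rw [List.map_cons, List.sum_cons]
    linarith

theorem fal_nonneg : ∀ (L : List (ℝ × ℝ)), (∀ q ∈ L, 0 < q.1 ∧ q.1 < 1 ∧ 0 < q.2) → 0 ≤ fal L
  | [], _ => by simp [fal]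
  | q :: L, h => by
    have h0 := h q List.mem_cons_self
    have h1 : 0 ≤ q.1 * q.2 := mul_nonneg h0.1.le h0.2.2.le
    have h2 := fal_nonneg L fun x hx => h x (List.mem_cons_of_mem _ hx)
    unfold fal at h2 ⊢
    rw [List.map_cons, List.sum_cons]
    linarith

/-- the first piece of a trajectory in a tube -/
theorem piece {p : ℕ} {d : ℤ} {q : ℝ × ℝ} {L : List (ℝ × ℝ)}
    (hL : ∀ x ∈ q :: L, 0 < x.1 ∧ x.1 < 1 ∧ 0 < x.2) {u δ X : ℝ} (hδ : 0 < δ) (hX : 0 < X)
    (hX1 : q.1 ≤ δ * X) {n : ℤ} (hn : n ∈ Tub p d (q :: L) u δ X) :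
    ∃ t : ℕ, (t : ℝ) ≤ q.2 * X ∧ q.2 * X - 3 * δ / q.1 * X ≤ t ∧
      (T p d)^[t] n ∈ Tub p d L (u - q.1 * q.2) ((1 + 3 / q.1) * δ) X ∧
      (∀ j < t, Real.exp ((u - q.1 * q.2 + 2 * δ) * X) < (((T p d)^[j] n : ℤ) : ℝ)) ∧
      (((T p d)^[t] n : ℤ) : ℝ) ≤ Real.exp ((u - q.1 * q.2 + 2 * δ) * X) ∧
      |Real.log n - Real.log ((T p d)^[t] n : ℤ) - q.1 * t| ≤ 2 * δ * X := by
  classical
  obtain ⟨hn1, hn2⟩ := hn
  obtain ⟨hq1, hq2, hq3⟩ := hL q List.mem_cons_self
  have hL' : ∀ x ∈ L, 0 < x.1 ∧ x.1 < 1 ∧ 0 < x.2 := fun x hx => hL x (List.mem_cons_of_mem _ hx)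
  have hdur : dur (q :: L) = q.2 + dur L := by
    unfold dur
    rw [List.map_cons, List.sum_cons]
  have hdL := dur_nonneg L hL'
  -- the first part of the tube
  have hj : ∀ j : ℕ, (j : ℝ) ≤ q.2 * X → 1 ≤ (T p d)^[j] n ∧
      |Real.log ((T p d)^[j] n : ℤ) - (u * X - q.1 * j)| ≤ δ * X := by
    intro j hj
    have h1 : (j : ℝ) ≤ dur (q :: L) * X := by
      rw [hdur, add_mul]
      have : 0 ≤ dur L * X := mul_nonneg hdL hX.le
      linarith
    obtain ⟨h2, h3⟩ := hn2 j h1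
    refine ⟨h2, ?_⟩
    have h4 : pro (q :: L) u (j / X) * X = u * X - q.1 * j := by
      show (if (j : ℝ) / X ≤ q.2 then u - q.1 * (j / X) else
        pro L (u - q.1 * q.2) (j / X - q.2)) * X = _
      rw [if_pos (by rw [div_le_iff₀ hX]; exact hj)]
      field_simp
    rwa [h4] at h3
  set Y := Real.exp ((u - q.1 * q.2 + 2 * δ) * X) with hY
  have hfl1 : ((⌊q.2 * X⌋₊ : ℕ) : ℝ) ≤ q.2 * X := Nat.floor_le (by positivity)
  have hfl2 : q.2 * X < ((⌊q.2 * X⌋₊ : ℕ) : ℝ) + 1 := Nat.lt_floor_add_one _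
  have hex : ∃ k : ℕ, (((T p d)^[k] n : ℤ) : ℝ) ≤ Y := by
    refine ⟨⌊q.2 * X⌋₊, ?_⟩
    obtain ⟨h1, h2⟩ := hj _ hfl1
    have h3 : (0 : ℝ) < ((T p d)^[⌊q.2 * X⌋₊] n : ℤ) := by exact_mod_cast h1
    rw [hY, ← Real.log_le_iff_le_exp h3]
    have h4 := (abs_le.1 h2).2
    have h5 : q.1 * (q.2 * X) ≤ q.1 * (((⌊q.2 * X⌋₊ : ℕ) : ℝ) + 1) :=
      mul_le_mul_of_nonneg_left hfl2.le hq1.le
    nlinarith
  have hmin : ∀ j < Nat.find hex, Y < (((T p d)^[j] n : ℤ) : ℝ) := fun j hj =>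
    not_le.1 (Nat.find_min hex hj)
  have ht0 : Nat.find hex ≤ ⌊q.2 * X⌋₊ := by
    by_contra hcon
    push Not at hcon
    have h1 := hmin _ hcon
    obtain ⟨h1', h2⟩ := hj _ hfl1
    have h3 : (0 : ℝ) < ((T p d)^[⌊q.2 * X⌋₊] n : ℤ) := by exact_mod_cast h1'
    rw [hY, ← Real.lt_log_iff_exp_lt h3] at h1
    have h4 := (abs_le.1 h2).2
    have h5 : q.1 * (q.2 * X) ≤ q.1 * (((⌊q.2 * X⌋₊ : ℕ) : ℝ) + 1) :=
      mul_le_mul_of_nonneg_left hfl2.le hq1.le
    nlinarith
  set t := Nat.find hex with ht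
  have htX : (t : ℝ) ≤ q.2 * X := by
    have : (t : ℝ) ≤ ((⌊q.2 * X⌋₊ : ℕ) : ℝ) := by exact_mod_cast ht0
    linarith
  have hbY : (((T p d)^[t] n : ℤ) : ℝ) ≤ Y := Nat.find_spec hex
  obtain ⟨hb1, hb2⟩ := hj t htX
  have hb0 : (0 : ℝ) < ((T p d)^[t] n : ℤ) := by exact_mod_cast hb1
  have hlogb : Real.log ((T p d)^[t] n : ℤ) ≤ (u - q.1 * q.2 + 2 * δ) * X := by
    rw [Real.log_le_iff_le_exp hb0]
    exact hbY
  have ht1 : q.2 * X - 3 * δ / q.1 * X ≤ t := by
    have h1 := (abs_le.1 hb2).1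
    have h2 : q.1 * (q.2 * X) - 3 * δ * X ≤ q.1 * t := by nlinarith
    have h3 : q.1 * (q.2 * X - 3 * δ / q.1 * X) = q.1 * (q.2 * X) - 3 * δ * X := by
      field_simp
    have h4 : q.1 * (q.2 * X - 3 * δ / q.1 * X) ≤ q.1 * t := by
      rw [h3]
      exact h2
    exact le_of_mul_le_mul_left h4 hq1
  refine ⟨t, htX, ht1, ⟨hb1, fun j hjL => ?_⟩, hmin, hbY, ?_⟩
  · rw [← Function.iterate_add_apply]
    have h1 : ((j + t : ℕ) : ℝ) ≤ dur (q :: L) * X := by
      rw [hdur, add_mul]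
      push_cast
      linarith
    obtain ⟨h2, h3⟩ := hn2 (j + t) h1
    refine ⟨h2, ?_⟩
    have hjX : (0 : ℝ) ≤ (j : ℝ) / X := by positivity
    have h4 := pro_shift hL u hjX
    have h5 : ((j + t : ℕ) : ℝ) / X ≤ (j : ℝ) / X + q.2 := by
      push_cast
      rw [add_div]
      have : (t : ℝ) / X ≤ q.2 := by rw [div_le_iff₀ hX]; exact htX
      linarith
    have h6 := pro_lip (q :: L) u _ _ hL (by positivity : (0 : ℝ) ≤ ((j + t : ℕ) : ℝ) / X) h5
    rw [h4] at h6
    have h7 : ((j : ℝ) / X + q.2 - ((j + t : ℕ) : ℝ) / X) * X ≤ 3 * δ / q.1 * X := by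
      have : ((j : ℝ) / X + q.2 - ((j + t : ℕ) : ℝ) / X) * X = q.2 * X - t := by
        push_cast
        field_simp
        ring
      rw [this]
      linarith
    have h8 : |pro (q :: L) u (((j + t : ℕ) : ℝ) / X) * X -
        pro L (u - q.1 * q.2) ((j : ℝ) / X) * X| ≤ 3 * δ / q.1 * X := by
      rw [← sub_mul, abs_mul, abs_of_pos hX]
      exact (mul_le_mul_of_nonneg_right h6 hX.le).trans h7
    have h9 : (1 + 3 / q.1) * δ * X = δ * X + 3 * δ / q.1 * X := by
      field_simp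
    rw [h9]
    rw [abs_le] at h3 h8 ⊢
    constructor <;> linarith [h3.1, h3.2, h8.1, h8.2]
  · obtain ⟨_, hb3⟩ := hj 0 (by push_cast; positivity)
    simp only [Function.iterate_zero, id] at hb3
    push_cast at hb3
    rw [abs_le] at hb2 hb3 ⊢
    constructor <;> linarith [hb2.1, hb2.2, hb3.1, hb3.2]

theorem count {F : Finset ℤ} (φ : ℤ → ℤ × (ℕ × ℕ)) (S : Finset (ℤ × (ℕ × ℕ)))
    (hφ : ∀ n ∈ F, φ n ∈ S) (M : ℝ)
    (hM : ∀ x ∈ S, ((F.filter (fun n => φ n = x)).card : ℝ) ≤ M) :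
    (F.card : ℝ) ≤ S.card * M := by
  rw [card_eq_sum_card_fiberwise hφ]
  push_cast
  refine (sum_le_sum hM).trans ?_
  rw [sum_const, nsmul_eq_mul]

/-- polynomials and exponentials -/
theorem poly_exp {C τ θ : ℝ} (hC : 0 < C) (hτ : 0 < τ) (hθ : 0 < θ) : ∃ X₁ : ℝ, 0 < X₁ ∧
    ∀ X : ℝ, X₁ ≤ X → C * (τ * X + 2) ^ 2 ≤ Real.exp (θ * X) := by
  obtain ⟨K, hK⟩ : ∃ K : ℝ, K = 3 * τ / θ + 2 := ⟨_, rfl⟩
  have hK0 : 0 < K := by rw [hK]; positivity
  refine ⟨3 * (C * K ^ 2) / θ, by positivity, fun X hX => ?_⟩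
  have hX0 : 0 < X := lt_of_lt_of_le (by positivity) hX
  have h1 : C * K ^ 2 ≤ 1 + θ * X / 3 := by
    rw [div_le_iff₀ hθ] at hX
    linarith
  have h2 : τ * X + 2 ≤ K * (1 + θ * X / 3) := by
    have e : K * (1 + θ * X / 3) = 3 * τ / θ + 2 + (τ * X + 2 * (θ * X / 3)) := by
      rw [hK]
      field_simp
    rw [e]
    have : 0 < 3 * τ / θ := by positivity
    have : 0 < θ * X / 3 := by positivity
    linarith
  have h3 : (1 + θ * X / 3) ^ 3 ≤ Real.exp (θ * X) := by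
    have e : Real.exp (θ * X) = Real.exp (θ * X / 3) ^ 3 := by
      rw [← Real.exp_nat_mul]
      congr 1
      push_cast
      ring
    rw [e]
    have h4 := Real.add_one_le_exp (θ * X / 3)
    exact pow_le_pow_left₀ (by positivity) (by linarith) 3
  have h5 : 0 < τ * X + 2 := by positivity
  have h6 : 0 < 1 + θ * X / 3 := by positivity
  calc C * (τ * X + 2) ^ 2 ≤ C * (K * (1 + θ * X / 3)) ^ 2 :=
        mul_le_mul_of_nonneg_left (pow_le_pow_left₀ h5.le h2 2) hC.le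
    _ = (C * K ^ 2) * (1 + θ * X / 3) ^ 2 := by ring
    _ ≤ (1 + θ * X / 3) * (1 + θ * X / 3) ^ 2 := mul_le_mul_of_nonneg_right h1 (by positivity)
    _ = (1 + θ * X / 3) ^ 3 := by ring
    _ ≤ _ := h3

theorem main {p : ℕ} {d : ℤ} (hA : Adm p d) : ∀ L : List (ℝ × ℝ),
    (∀ q ∈ L, 0 < q.1 ∧ q.1 < 1 ∧ 0 < q.2 ∧
      ∀ ε : ℝ, 0 < ε → ∃ z : ℝ, Q p z ∧ php p (fr p q.1) z ≤ Fp p (fr p q.1) + ε) →
    ∀ u : ℝ, fal L ≤ u → ∀ ε : ℝ, 0 < ε → ∃ δ₀ : ℝ, 0 < δ₀ ∧ ∀ δ : ℝ, 0 < δ → δ ≤ δ₀ →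
      ∃ X₀ : ℝ, ∀ X : ℝ, X₀ ≤ X → ∀ F : Finset ℤ, (∀ n ∈ F, n ∈ Tub p d L u δ X) →
        (F.card : ℝ) ≤ Real.exp ((u - fal L + gr p L + ε) * X)
  | [], _, u, _, ε, hε => by
    refine ⟨ε, hε, fun δ hδ hδε => ⟨0, fun X hX F hF => ?_⟩⟩
    have e1 : fal [] = 0 := by simp [fal]
    have e2 : gr p [] = 0 := by simp [gr]
    rw [e1, e2, sub_zero, add_zero]
    have hsub : F ⊆ Icc 1 ⌊Real.exp ((u + ε) * X)⌋ := by
      intro n hn
      obtain ⟨h1, h2⟩ := hF n hn
      have h3 := (h2 0 (by simp [dur])).2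
      have h4 : pro [] u ((0 : ℕ) / X) = u := rfl
      rw [h4] at h3
      simp only [Function.iterate_zero, id] at h3
      have hn0 : (0 : ℝ) < n := by exact_mod_cast h1
      rw [mem_Icc]
      refine ⟨h1, Int.le_floor.2 ?_⟩
      rw [← Real.log_le_iff_le_exp hn0]
      have h5 := (abs_le.1 h3).2
      have h6 : δ * X ≤ ε * X := mul_le_mul_of_nonneg_right hδε hX
      linarith
    have h1 := card_le_card hsub
    rw [Int.card_Icc, add_sub_cancel_right] at h1
    have h2 : (0 : ℤ) ≤ ⌊Real.exp ((u + ε) * X)⌋ := Int.floor_nonneg.2 (Real.exp_pos _).le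
    have h3 : ((⌊Real.exp ((u + ε) * X)⌋.toNat : ℕ) : ℝ) = (⌊Real.exp ((u + ε) * X)⌋ : ℝ) := by
      exact_mod_cast congrArg (fun z : ℤ => (z : ℝ)) (Int.toNat_of_nonneg h2)
    calc (F.card : ℝ) ≤ ((⌊Real.exp ((u + ε) * X)⌋.toNat : ℕ) : ℝ) := by exact_mod_cast h1
      _ = (⌊Real.exp ((u + ε) * X)⌋ : ℝ) := h3
      _ ≤ _ := Int.floor_le _
  | q :: L, hL0, u, hu, ε, hε => by
    classical
    have hL : ∀ x ∈ q :: L, 0 < x.1 ∧ x.1 < 1 ∧ 0 < x.2 := fun x hx =>
      ⟨(hL0 x hx).1, (hL0 x hx).2.1, (hL0 x hx).2.2.1⟩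
    have hL' : ∀ x ∈ L, 0 < x.1 ∧ x.1 < 1 ∧ 0 < x.2 := fun x hx => hL x (List.mem_cons_of_mem _ hx)
    obtain ⟨hq1, hq2, hq3, hq4⟩ := hL0 q List.mem_cons_self
    have hfal : fal (q :: L) = q.1 * q.2 + fal L := by
      unfold fal
      rw [List.map_cons, List.sum_cons]
    have hgr : gr p (q :: L) = q.2 * Fp p (fr p q.1) + gr p L := by
      unfold gr
      rw [List.map_cons, List.sum_cons]
    have hfalL := fal_nonneg L hL'
    obtain ⟨_, hlp, _⟩ := UL.p_facts hA.1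
    -- the tilt
    obtain ⟨z, hQ, hz⟩ := hq4 (ε / (8 * q.2)) (by positivity)
    set K1 : ℝ := |php p (fr p q.1) z| with hK1
    set K2 : ℝ := |Real.log (tt p z)| / Real.log p with hK2
    have hK10 : 0 ≤ K1 := abs_nonneg _
    have hK20 : 0 ≤ K2 := by positivity
    -- constants
    obtain ⟨c1, hc1, hsz⟩ := UL.at_size hA (η := ε / (8 * (K2 * q.2 + 1))) (by positivity)
    obtain ⟨c2, hc2, hup⟩ := UL.at_upper hA hQ
    set c : ℤ := max c1 c2 with hc
    obtain ⟨C, hC, hupC⟩ := hup c (le_max_right _ _) (ε / (8 * q.2)) (by positivity)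
    obtain ⟨δ₁, hδ₁, ih⟩ := main hA L (fun x hx => hL0 x (List.mem_cons_of_mem _ hx))
      (u - q.1 * q.2) (by linarith) (ε / 8) (by positivity)
    obtain ⟨X₁, hX₁, hpe⟩ := poly_exp (C := C) (τ := q.2) (θ := ε / 8) hC hq3 (by positivity)
    refine ⟨min (δ₁ / (1 + 3 / q.1)) (ε / (8 * (3 * K1 / q.1 + 2 * K2 + 1))), by positivity,
      fun δ hδ hδle => ?_⟩
    have hδ1 : (1 + 3 / q.1) * δ ≤ δ₁ := by
      have h1 := hδle.trans (min_le_left _ _)
      rw [le_div_iff₀ (by positivity)] at h1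
      linarith
    have hδ2 : δ * (3 * K1 / q.1 + 2 * K2 + 1) ≤ ε / 8 := by
      have h1 := hδle.trans (min_le_right _ _)
      rw [le_div_iff₀ (by positivity)] at h1
      linarith
    obtain ⟨X₂, hX₂⟩ := ih ((1 + 3 / q.1) * δ) (by positivity) hδ1
    refine ⟨max (max X₁ X₂) (max (q.1 / δ) ((c : ℝ) / (2 * δ))), fun X hX F hF => ?_⟩
    have hXX1 : X₁ ≤ X := (le_max_left _ _).trans ((le_max_left _ _).trans hX)
    have hXX2 : X₂ ≤ X := (le_max_right _ _).trans ((le_max_left _ _).trans hX)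
    have hXX3 : q.1 / δ ≤ X := (le_max_left _ _).trans ((le_max_right _ _).trans hX)
    have hXX4 : (c : ℝ) / (2 * δ) ≤ X := (le_max_right _ _).trans ((le_max_right _ _).trans hX)
    have hX0 : 0 < X := lt_of_lt_of_le hX₁ hXX1
    have hqδ : q.1 ≤ δ * X := by
      rw [div_le_iff₀ hδ] at hXX3
      linarith
    have hcY : (c : ℝ) < Real.exp ((u - q.1 * q.2 + 2 * δ) * X) := by
      rw [div_le_iff₀ (by positivity)] at hXX4
      have h1 : 0 ≤ (u - q.1 * q.2) * X := mul_nonneg (by linarith) hX0.le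
      have h2 := Real.add_one_le_exp ((u - q.1 * q.2 + 2 * δ) * X)
      nlinarith
    -- the first pieces
    have hch : ∀ n : ℤ, ∃ t : ℕ, n ∈ F → (t : ℝ) ≤ q.2 * X ∧ q.2 * X - 3 * δ / q.1 * X ≤ t ∧
        (T p d)^[t] n ∈ Tub p d L (u - q.1 * q.2) ((1 + 3 / q.1) * δ) X ∧
        (∀ j < t, Real.exp ((u - q.1 * q.2 + 2 * δ) * X) < (((T p d)^[j] n : ℤ) : ℝ)) ∧
        (((T p d)^[t] n : ℤ) : ℝ) ≤ Real.exp ((u - q.1 * q.2 + 2 * δ) * X) ∧
        |Real.log n - Real.log ((T p d)^[t] n : ℤ) - q.1 * t| ≤ 2 * δ * X := by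
      intro n
      by_cases hn : n ∈ F
      · obtain ⟨t, ht⟩ := piece hL hδ hX0 hqδ (hF n hn)
        exact ⟨t, fun _ => ht⟩
      · exact ⟨0, fun h => absurd h hn⟩
    choose t ht using hch
    set B : Finset ℤ := F.image fun n => (T p d)^[t n] n with hB
    have hBc : (B.card : ℝ) ≤ Real.exp ((u - q.1 * q.2 - fal L + gr p L + ε / 8) * X) := by
      refine hX₂ X hXX2 B fun b hb => ?_
      obtain ⟨n, hn, rfl⟩ := mem_image.1 hb
      exact (ht n hn).2.2.1
    set N : ℕ := ⌊q.2 * X⌋₊ + 1 with hN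
    set S : Finset (ℤ × (ℕ × ℕ)) := B ×ˢ (range N ×ˢ range N) with hS
    set φ : ℤ → ℤ × (ℕ × ℕ) := fun n => ((T p d)^[t n] n, (t n, oT p d (t n) n)) with hφ
    set E : ℝ := (q.2 * Fp p (fr p q.1) + ε / 8 + ε / 8 + ε / 8 + ε / 8) * X with hE
    have hφS : ∀ n ∈ F, φ n ∈ S := by
      intro n hn
      have h1 := (ht n hn).1
      have h2 : t n < N := by
        rw [hN, Nat.lt_add_one_iff]
        exact Nat.le_floor h1
      have h3 := UL.oT_le p d (t n) n
      rw [hS, mem_product, mem_product]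
      exact ⟨mem_image_of_mem _ hn, mem_range.2 h2, mem_range.2 (by show oT p d (t n) n < N; omega)⟩
    have hM : ∀ x ∈ S, ((F.filter (fun n => φ n = x)).card : ℝ) ≤ C * Real.exp E := by
      intro x _
      rcases (F.filter (fun n => φ n = x)).eq_empty_or_nonempty with h0 | ⟨n₀, hn₀⟩
      · rw [h0, card_empty]
        push_cast
        positivity
      obtain ⟨hn₀F, hn₀x⟩ := mem_filter.1 hn₀
      obtain ⟨f1, f2, f3, f4, f5, f6⟩ := ht n₀ hn₀F
      have hx1 : x.1 = (T p d)^[t n₀] n₀ := by rw [← hn₀x]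
      have hx2 : x.2.1 = t n₀ := by rw [← hn₀x]
      have hx3 : x.2.2 = oT p d (t n₀) n₀ := by rw [← hn₀x]
      have hx11 : 1 ≤ x.1 := by
        rw [hx1]
        exact f3.1
      have h1 := hupC x.1 x.2.1 x.2.2 (F.filter (fun n => φ n = x)) hx11 (by
        intro n hn
        obtain ⟨hnF, hnx⟩ := mem_filter.1 hn
        obtain ⟨g1, g2, g3, g4, g5, g6⟩ := ht n hnF
        have hy1 : x.1 = (T p d)^[t n] n := by rw [← hnx]
        have hy2 : x.2.1 = t n := by rw [← hnx]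
        have hy3 : x.2.2 = oT p d (t n) n := by rw [← hnx]
        rw [hy1, hy2, hy3]
        refine ⟨rfl, fun j hj => ⟨?_, ?_⟩, rfl⟩
        · have := hcY.trans (g4 j hj)
          exact_mod_cast this
        · have := lt_of_le_of_lt g5 (g4 j hj)
          exact_mod_cast this)
      refine h1.trans (mul_le_mul_of_nonneg_left (Real.exp_le_exp.2 ?_) hC.le)
      rw [hx2, hx3]
      set k : ℝ := (t n₀ : ℝ) with hk
      set o : ℝ := (oT p d (t n₀) n₀ : ℝ) with ho
      have hk0 : 0 ≤ k := Nat.cast_nonneg _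
      -- the number of the odd steps
      have h2 := hsz c (le_max_left _ _) n₀ (t n₀) f3.1 (by
        intro j hj
        have := hcY.trans (f4 j hj)
        exact_mod_cast this)
      have h3 : |k * (Real.log 2 - q.1) - o * Real.log p| ≤
          ε / (8 * (K2 * q.2 + 1)) * k + 2 * δ * X := by
        rw [abs_le] at h2 f6 ⊢
        constructor <;> nlinarith [h2.1, h2.2, f6.1, f6.2]
      have h4 : |o - k * fr p q.1| * Real.log p ≤ ε / (8 * (K2 * q.2 + 1)) * k + 2 * δ * X := by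
        have e : (o - k * fr p q.1) * Real.log p = -(k * (Real.log 2 - q.1) - o * Real.log p) := by
          unfold fr
          field_simp
          ring
        calc |o - k * fr p q.1| * Real.log p = |(o - k * fr p q.1) * Real.log p| := by
              rw [abs_mul, abs_of_pos hlp]
          _ ≤ _ := by rw [e, abs_neg]; exact h3
      -- the exponent
      have e1 : ε / (8 * q.2) * k + k * (-Real.log z) + o * (-Real.log (tt p z)) =
          ε / (8 * q.2) * k + k * php p (fr p q.1) z + (o - k * fr p q.1) *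
            (-Real.log (tt p z)) := by
        unfold php
        ring
      rw [e1]
      have b1 : ε / (8 * q.2) * k ≤ ε / 8 * X := by
        calc ε / (8 * q.2) * k ≤ ε / (8 * q.2) * (q.2 * X) :=
              mul_le_mul_of_nonneg_left f1 (by positivity)
          _ = _ := by field_simp
      have b2 : k * php p (fr p q.1) z ≤ (q.2 * Fp p (fr p q.1) + ε / 8) * X +
          δ * (3 * K1 / q.1) * X := by
        have a1 : (k - q.2 * X) * php p (fr p q.1) z ≤ 3 * δ / q.1 * X * K1 := by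
          have a2 : |k - q.2 * X| ≤ 3 * δ / q.1 * X := by
            rw [abs_le]
            have : 0 ≤ 3 * δ / q.1 * X := by positivity
            constructor <;> linarith
          calc (k - q.2 * X) * php p (fr p q.1) z ≤ |(k - q.2 * X) * php p (fr p q.1) z| :=
                le_abs_self _
            _ = |k - q.2 * X| * K1 := by rw [abs_mul]
            _ ≤ _ := mul_le_mul_of_nonneg_right a2 hK10
        have a3 : q.2 * X * php p (fr p q.1) z ≤ q.2 * X * (Fp p (fr p q.1) + ε / (8 * q.2)) :=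
          mul_le_mul_of_nonneg_left hz (by positivity)
        have a4 : q.2 * X * (Fp p (fr p q.1) + ε / (8 * q.2)) =
            (q.2 * Fp p (fr p q.1) + ε / 8) * X := by field_simp
        have a5 : δ * (3 * K1 / q.1) * X = 3 * δ / q.1 * X * K1 := by ring
        rw [a4] at a3
        rw [a5]
        linarith
      have b3 : (o - k * fr p q.1) * (-Real.log (tt p z)) ≤ ε / 8 * X + δ * (2 * K2) * X := by
        have a1 : (o - k * fr p q.1) * (-Real.log (tt p z)) ≤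
            (|o - k * fr p q.1| * Real.log p) * K2 := by
          calc (o - k * fr p q.1) * (-Real.log (tt p z)) ≤
                |(o - k * fr p q.1) * (-Real.log (tt p z))| := le_abs_self _
            _ = |o - k * fr p q.1| * |Real.log (tt p z)| := by rw [abs_mul, abs_neg]
            _ = _ := by rw [hK2]; field_simp
        have a2 := mul_le_mul_of_nonneg_right h4 hK20
        have a3 : ε / (8 * (K2 * q.2 + 1)) * k * K2 ≤ ε / 8 * X := by
          have c1 : k * K2 ≤ (K2 * q.2 + 1) * X := by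
            have := mul_le_mul_of_nonneg_right f1 hK20
            nlinarith
          calc ε / (8 * (K2 * q.2 + 1)) * k * K2 = ε / (8 * (K2 * q.2 + 1)) * (k * K2) := by ring
            _ ≤ ε / (8 * (K2 * q.2 + 1)) * ((K2 * q.2 + 1) * X) :=
                mul_le_mul_of_nonneg_left c1 (by positivity)
            _ = _ := by field_simp
        have a4 : (ε / (8 * (K2 * q.2 + 1)) * k + 2 * δ * X) * K2 =
            ε / (8 * (K2 * q.2 + 1)) * k * K2 + δ * (2 * K2) * X := by ring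
        rw [a4] at a2
        linarith
      have b4 : δ * (3 * K1 / q.1) * X + δ * (2 * K2) * X ≤ ε / 8 * X := by
        have a1 : δ * (3 * K1 / q.1) + δ * (2 * K2) ≤ ε / 8 := by nlinarith
        have := mul_le_mul_of_nonneg_right a1 hX0.le
        linarith
      rw [hE]
      linarith
    have hcount := count φ S hφS (C * Real.exp E) hM
    have hSc : (S.card : ℝ) ≤ B.card * (q.2 * X + 2) ^ 2 := by
      rw [hS, card_product, card_product, card_range]
      push_cast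
      apply mul_le_mul_of_nonneg_left _ (Nat.cast_nonneg _)
      have h1 : (N : ℝ) ≤ q.2 * X + 2 := by
        rw [hN]
        push_cast
        have := Nat.floor_le (show 0 ≤ q.2 * X by positivity)
        linarith
      rw [sq]
      exact mul_le_mul h1 h1 (Nat.cast_nonneg _) (by positivity)
    calc (F.card : ℝ) ≤ S.card * (C * Real.exp E) := hcount
      _ ≤ (B.card * (q.2 * X + 2) ^ 2) * (C * Real.exp E) :=
          mul_le_mul_of_nonneg_right hSc (by positivity)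
      _ = B.card * (C * (q.2 * X + 2) ^ 2) * Real.exp E := by ring
      _ ≤ Real.exp ((u - q.1 * q.2 - fal L + gr p L + ε / 8) * X) * Real.exp (ε / 8 * X) *
            Real.exp E := by
          apply mul_le_mul_of_nonneg_right _ (Real.exp_pos _).le
          exact mul_le_mul hBc (hpe X hXX1) (by positivity) (Real.exp_pos _).le
      _ = Real.exp ((u - q.1 * q.2 - fal L + gr p L + ε / 8) * X + ε / 8 * X + E) := by
          rw [← Real.exp_add, ← Real.exp_add]
      _ ≤ Real.exp ((u - fal (q :: L) + gr p (q :: L) + ε) * X) := by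
          apply Real.exp_le_exp.2
          rw [hfal, hgr, hE]
          have : 0 < ε * X := by positivity
          nlinarith

end Tubu

/-- TUBU, unconditionally -/
theorem t_TUBU0 : S_TUBU := by
  intro p d hA L hL u hu ε hε
  have h2 : Real.log 2 < 1 := by linarith [Real.log_two_lt_d9]
  exact Tubu.main hA L (fun q hq => ⟨(hL q hq).1, (hL q hq).2.1.trans h2, (hL q hq).2.2.1,
    (hL q hq).2.2.2⟩) u hu ε hε

/-- TUBU (the hypothesis is not needed) -/
theorem t_TUBU (_ : S_CHN) : S_TUBU := t_TUBU0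

end Pool.Agent.N685.FD
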