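import Pool.Agent.N685.FD.Stm7

/-!
PROJECT FD (helper685), part 9: straightness with a constant slack in the time.
-/

set_option autoImplicit false

namespace Pool.Agent.N685.FD

open Finset

/-- STRB: like STR, for the `n ≤ x` which reach `y` (for the first time) after at most
`α log (n / y) + B` steps; `κ` does not depend on `B` -/
def S_STRB : Prop := ∀ (p : ℕ) (d : ℤ), Adm p d → ∀ α : ℝ, 1 / Real.log 2 < α → Q p (1 - rp p α) →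
  ∀ ε : ℝ, 0 < ε → ∃ κ : ℝ, 0 < κ ∧ ∀ B : ℝ, 0 ≤ B → ∃ X₀ : ℝ, 1 ≤ X₀ ∧
    ∀ x : ℝ, X₀ ≤ x → ∀ y : ℝ, 1 ≤ y → y ≤ x → ∀ F : Finset ℤ,
    (∀ n ∈ F, y < n ∧ (n : ℝ) ≤ x ∧ ∃ k : ℕ, (((T p d)^[k] n : ℤ) : ℝ) ≤ y ∧
      (∀ j < k, y < (((T p d)^[j] n : ℤ) : ℝ)) ∧ (k : ℝ) ≤ α * (Real.log n - Real.log y) + B ∧
      ∃ j < k, ε * Real.log x < |Real.log ((T p d)^[j] n : ℤ) - (Real.log n - j / α)|) →
    (F.card : ℝ) ≤ x ^ (-κ) * (y * (x / y) ^ (ex p α))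

end Pool.Agent.N685.FD
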