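import Pool.Agent.N685.FD.Stm8
import Pool.Agent.N685.FD.Stm9
import Pool.Agent.N685.FD.D3
import Pool.Agent.N685.FD.Levu

/-! Project FD: the bivariate law and straightness for the first hitting time of a finite set of
integers, maps `3x+d`. -/

set_option autoImplicit false
set_option linter.unusedVariables false

namespace Pool.Agent.N685.FD

open Finset Filter Topology Pool.Agent.H395R2.G3 Pool.Agent.Y966.LD

namespace P5

open D3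

theorem oT_neg {d : ℤ} (hd : ¬ (2 : ℤ) ∣ d) (k : ℕ) (x : ℤ) : oT 3 (-d) k (-x) = oT 3 d k x := by
  unfold oT
  congr 1
  apply Finset.filter_congr
  intro i _
  rw [iter_negg hd]
  omega

/-- the `n ≠ 0` with first hitting time `k` of `A` and `o` odd steps -/
def BS (d : ℤ) (A : Set ℤ) (k o : ℕ) : Set ℤ := {n : ℤ | n ≠ 0 ∧ HA d A n k ∧ oT 3 d k n = o}

theorem bs_fin {d : ℤ} (hd : Adm 3 d) {A : Set ℤ} (hA : A.Finite) (k o : ℕ) : (BS d A k o).Finite := by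
  refine (fin_all t_LEVU hd hA k (fun _ => True)).subset ?_
  rintro n ⟨h1, h2, h3⟩
  exact ⟨h1, h2, trivial⟩

theorem mem_HT {d : ℤ} {A : Set ℤ} {n : ℤ} {k o : ℕ} :
    n ∈ HT 3 d A k o ↔ 1 ≤ n ∧ HA d A n k ∧ oT 3 d k n = o := by
  unfold HT HA
  constructor
  · rintro ⟨h1, h2, h3, h4⟩
    exact ⟨h1, ⟨h2, h3⟩, h4⟩
  · rintro ⟨h1, ⟨h2, h3⟩, h4⟩
    exact ⟨h1, h2, h3, h4⟩

theorem ht_sub {d : ℤ} {A : Set ℤ} {k o : ℕ} : HT 3 d A k o ⊆ BS d A k o := by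
  intro n hn
  obtain ⟨h1, h2, h3⟩ := mem_HT.1 hn
  exact ⟨by omega, h2, h3⟩

theorem neg_sub {d : ℤ} (hd : ¬ (2 : ℤ) ∣ d) {A : Set ℤ} {k o : ℕ} :
    (fun n : ℤ => -n) '' HT 3 (-d) (ng A) k o ⊆ BS d A k o := by
  rintro _ ⟨n, hn, rfl⟩
  obtain ⟨h1, h2, h3⟩ := mem_HT.1 hn
  have h4 := of_neg_mem hd (mem_LM.2 ⟨h1, h2⟩)
  refine ⟨h4.1.ne, h4.2, ?_⟩
  simp only
  rw [← h3]
  have h5 := oT_neg hd k (-n)
  rw [neg_neg] at h5
  exact h5.symm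

theorem sub_union {d : ℤ} (hd : ¬ (2 : ℤ) ∣ d) {A : Set ℤ} {k o : ℕ} :
    BS d A k o ⊆ HT 3 d A k o ∪ (fun n : ℤ => -n) '' HT 3 (-d) (ng A) k o := by
  rintro n ⟨h1, h2, h3⟩
  rcases lt_or_gt_of_ne h1 with hn | hn
  · right
    refine ⟨-n, ?_, by simp⟩
    have h4 := neg_mem hd hn h2
    rw [mem_LM] at h4
    exact mem_HT.2 ⟨h4.1, h4.2, by rw [oT_neg hd]; exact h3⟩
  · left
    exact mem_HT.2 ⟨by omega, h2, h3⟩

theorem ht_fin {d : ℤ} (hd : Adm 3 d) {A : Set ℤ} (hA : A.Finite) (k o : ℕ) :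
    (HT 3 d A k o).Finite := (bs_fin hd hA k o).subset ht_sub

theorem ng_fin {A : Set ℤ} (hA : A.Finite) : (ng A).Finite := by
  have : ng A = (fun n : ℤ => -n) '' A := by
    ext y
    unfold ng
    simp only [Set.mem_image]
    constructor
    · intro h
      exact ⟨-y, h, by simp⟩
    · rintro ⟨x, hx, rfl⟩
      change -(-x) ∈ A
      rwa [neg_neg]
  rw [this]
  exact hA.image _

/-- lower bound -/
theorem biv_low (hB : S_BIVL) {d : ℤ} (hd : Adm 3 d) {A : Set ℤ} (hA : Good A) {η ρ₁ : ℝ}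
    (hη : 0 < η) (h1 : ρ₁ < 1) (hF : 0 < Fp 3 ρ₁) (hr : ρ₁ * Real.log 3 < Real.log 2) {ε : ℝ}
    (hε : 0 < ε) : ∃ k₀ : ℕ, ∀ k : ℕ, k₀ ≤ k → ∀ o : ℕ, η * k ≤ o → (o : ℝ) ≤ ρ₁ * k →
    Real.exp ((Fp 3 ((o : ℝ) / k) - ε) * k) ≤ ((BS d A k o).ncard : ℝ) := by
  obtain ⟨hfin, m, hm, hm0, hm3⟩ := hA
  obtain ⟨c, hc, hc'⟩ := bdd hfin
  have hr' : ρ₁ * Real.log ((3 : ℕ) : ℝ) < Real.log 2 := by exact_mod_cast hr
  rcases lt_or_gt_of_ne hm0 with hneg | hpos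
  · obtain ⟨k₀, h⟩ := hB 3 (-d) (adm_neg' hd) (ng A) c hc' (-m) (by omega)
      (fun h => hm3 ((Int.dvd_neg).1 h)) (by
        change -(-m) ∈ A
        rwa [neg_neg]) η ρ₁ hη h1 hF hr' ε hε
    refine ⟨k₀, fun k hk o ho1 ho2 => (h k hk o ho1 ho2).trans ?_⟩
    refine (Nat.cast_le (α := ℝ)).2 ?_
    rw [← Set.ncard_image_of_injective (HT 3 (-d) (ng A) k o) neg_injective]
    exact Set.ncard_le_ncard (neg_sub hd.2.1) (bs_fin hd hfin k o)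
  · obtain ⟨k₀, h⟩ := hB 3 d hd A c hc m (by omega) (fun h => hm3 h) hm η ρ₁ hη h1 hF hr' ε hε
    refine ⟨k₀, fun k hk o ho1 ho2 => (h k hk o ho1 ho2).trans ?_⟩
    exact (Nat.cast_le (α := ℝ)).2 (Set.ncard_le_ncard ht_sub (bs_fin hd hfin k o))

/-- upper bound -/
theorem biv_up (hB : S_BIVU) {d : ℤ} (hd : Adm 3 d) {A : Set ℤ} (hA : A.Finite) {η : ℝ}
    (hη : 0 < η) {ε : ℝ} (hε : 0 < ε) : ∃ k₀ : ℕ, ∀ k : ℕ, k₀ ≤ k → ∀ o : ℕ, η * k ≤ o →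
    2 * o ≤ k → ((BS d A k o).ncard : ℝ) ≤ Real.exp ((Fp 3 ((o : ℝ) / k) + ε) * k) := by
  obtain ⟨c, hc, hc'⟩ := bdd hA
  have hz : ∀ ρ : ℝ, η ≤ ρ → ρ ≤ 1 / 2 → ∀ ε : ℝ, 0 < ε → ∃ z : ℝ, Q 3 z ∧ php 3 ρ z ≤ Fp 3 ρ + ε := by
    intro ρ h1 h2 ε' hε'
    obtain ⟨z, hz0, hz1, hz2, -⟩ := FT.exists_z (lt_of_lt_of_le hη h1) h2 hε'
    exact ⟨z, q_three hz0 hz1, by rw [php_three, Fp_three]; exact hz2⟩
  obtain ⟨k₁, h1⟩ := hB 3 d hd A c hc η (1 / 2) hη hz (ε / 2) (by positivity)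
  obtain ⟨k₂, h2⟩ := hB 3 (-d) (adm_neg' hd) (ng A) c hc' η (1 / 2) hη hz (ε / 2) (by positivity)
  refine ⟨max (max k₁ k₂) (⌈2 * Real.log 2 / ε⌉₊), fun k hk o ho1 ho2 => ?_⟩
  have hk1 : k₁ ≤ k := (le_max_left _ _).trans ((le_max_left _ _).trans hk)
  have hk2 : k₂ ≤ k := (le_max_right _ _).trans ((le_max_left _ _).trans hk)
  have hk3 : 2 * Real.log 2 / ε ≤ k := (Nat.le_ceil _).trans
    (Nat.cast_le.2 ((le_max_right _ _).trans hk))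
  have ho3 : (o : ℝ) ≤ 1 / 2 * k := by
    have : ((2 * o : ℕ) : ℝ) ≤ k := by exact_mod_cast ho2
    push_cast at this
    linarith
  have g1 := h1 k hk1 o ho1 ho3
  have g2 := h2 k hk2 o ho1 ho3
  have f1 := ht_fin hd hA k o
  have f2 := ht_fin (adm_neg' hd) (ng_fin hA) k o
  have g3 : ((BS d A k o).ncard : ℝ) ≤ (HT 3 d A k o).ncard + (HT 3 (-d) (ng A) k o).ncard := by
    have h3 := Set.ncard_le_ncard (sub_union hd.2.1 (A := A) (k := k) (o := o))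
      (f1.union (f2.image (fun n : ℤ => -n)))
    have h4 := h3.trans (Set.ncard_union_le _ _)
    rw [Set.ncard_image_of_injective _ neg_injective] at h4
    exact_mod_cast h4
  have hkn : (0 : ℝ) ≤ k := Nat.cast_nonneg k
  have g4 : Real.log 2 ≤ ε / 2 * k := by
    rw [div_le_iff₀ hε] at hk3
    linarith
  have g5 : Real.exp ((Fp 3 ((o : ℝ) / k) + ε) * k) =
      Real.exp ((Fp 3 ((o : ℝ) / k) + ε / 2) * k) * Real.exp (ε / 2 * k) := by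
    rw [← Real.exp_add]
    congr 1
    ring
  have g6 : (2 : ℝ) ≤ Real.exp (ε / 2 * k) := by
    have := Real.exp_le_exp.2 g4
    rwa [Real.exp_log (by norm_num)] at this
  rw [g5]
  have g7 := (Real.exp_pos ((Fp 3 ((o : ℝ) / k) + ε / 2) * k)).le
  nlinarith

end P5

end Pool.Agent.N685.FD
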