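import Pool.Agent.N685.FD.Five
import Pool.Agent.N685.FD.D3
import Pool.Agent.N685.FD.Exu
import Pool.Agent.N685.FD.Exl

/-! Project FD: the uniform law of the fast descent, positive and negative integers. -/

set_option autoImplicit false
set_option linter.unusedVariables false

namespace Pool.Agent.N685.FD

open Finset Filter Topology

namespace UN

/-! ### signs, general `p` -/

theorem T_negp {p : ℕ} {d : ℤ} (hA : Adm p d) (x : ℤ) : T p (-d) (-x) = -T p d x := by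
  obtain ⟨hp, hd, -⟩ := hA
  unfold T
  rcases hp with rfl | rfl
  · split_ifs with h1 h2 h2
    · omega
    · omega
    · omega
    · push_cast
      omega
  · split_ifs with h1 h2 h2
    · omega
    · omega
    · omega
    · push_cast
      omega

theorem iter_negp {p : ℕ} {d : ℤ} (hA : Adm p d) (k : ℕ) (x : ℤ) :
    (T p (-d))^[k] (-x) = -(T p d)^[k] x := by
  induction k generalizing x with
  | zero => rfl
  | succ k ih => rw [Function.iterate_succ_apply, Function.iterate_succ_apply, T_negp hA, ih]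

theorem adm_negp {p : ℕ} {d : ℤ} (h : Adm p d) : Adm p (-d) :=
  ⟨h.1, fun h2 => h.2.1 ((Int.dvd_neg).1 h2), fun h2 => h.2.2 ((Int.dvd_neg).1 h2)⟩

/-- a sign -/
def Sg (s : ℤ) : Prop := s = 1 ∨ s = -1

theorem adm_sg {p : ℕ} {d s : ℤ} (h : Adm p d) (hs : Sg s) : Adm p (s * d) := by
  rcases hs with rfl | rfl
  · rwa [one_mul]
  · rw [neg_one_mul]
    exact adm_negp h

theorem iter_sg {p : ℕ} {d s : ℤ} (h : Adm p d) (hs : Sg s) (k : ℕ) (x : ℤ) :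
    (T p (s * d))^[k] (s * x) = s * (T p d)^[k] x := by
  rcases hs with rfl | rfl
  · rw [one_mul, one_mul, one_mul]
  · rw [neg_one_mul, neg_one_mul, neg_one_mul]
    exact iter_negp h k x

theorem sg_inj {s : ℤ} (hs : Sg s) : Function.Injective (fun n : ℤ => s * n) := by
  intro a b hab
  rcases hs with rfl | rfl
  · simpa using hab
  · simpa using hab

theorem sg_sq {s : ℤ} (hs : Sg s) (n : ℤ) : s * (s * n) = n := by
  rcases hs with rfl | rfl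
  · ring
  · ring

theorem abs_sg {s : ℤ} (hs : Sg s) {n : ℤ} (h : 0 < s * n) : |(n : ℝ)| = ((s * n : ℤ) : ℝ) := by
  rcases hs with rfl | rfl
  · have : (0 : ℝ) < n := by exact_mod_cast (by omega : 0 < n)
    rw [abs_of_pos this]
    push_cast
    ring
  · have : (n : ℝ) < 0 := by exact_mod_cast (by omega : n < 0)
    rw [abs_of_neg this]
    push_cast
    ring

theorem le_abs_sg {s : ℤ} (hs : Sg s) (n : ℤ) : ((s * n : ℤ) : ℝ) ≤ |(n : ℝ)| := by
  rcases hs with rfl | rfl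
  · rw [one_mul]
    exact le_abs_self _
  · rw [neg_one_mul]
    push_cast
    exact neg_le_abs _

/-- the `n` of the sign of `s` with `y < |n| ≤ x` whose trajectory is at most `y` in absolute value at
a time at most `α log (|n| / y)` -/
def PS (p : ℕ) (d s : ℤ) (α x y : ℝ) : Set ℤ :=
  {n : ℤ | 0 < s * n ∧ y < |(n : ℝ)| ∧ |(n : ℝ)| ≤ x ∧
    ∃ k : ℕ, |(((T p d)^[k] n : ℤ) : ℝ)| ≤ y ∧ (k : ℝ) ≤ α * (Real.log |(n : ℝ)| - Real.log y)}

/-- the `n` of the sign of `s` with `|n| ≤ x` whose trajectory, at some time `k`, is at most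
`|n| ^ (1 - δ)` and at most `|n| exp (- k / α)` in absolute value -/
def ES (p : ℕ) (d s : ℤ) (α δ x : ℝ) : Set ℤ :=
  {n : ℤ | 0 < s * n ∧ |(n : ℝ)| ≤ x ∧
    ∃ k : ℕ, |(((T p d)^[k] n : ℤ) : ℝ)| ≤ |(n : ℝ)| ^ (1 - δ) ∧
      (k : ℝ) ≤ α * (Real.log |(n : ℝ)| - Real.log |(((T p d)^[k] n : ℤ) : ℝ)|)}

theorem fin_of {A : Set ℤ} {x : ℝ} (h : ∀ n ∈ A, |(n : ℝ)| ≤ x) : A.Finite := by
  refine (Finset.Icc (-⌊x⌋) ⌊x⌋).finite_toSet.subset ?_
  intro n hn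
  rw [mem_coe, mem_Icc]
  have h1 := abs_le.1 (h n hn)
  have h2 : n ≤ ⌊x⌋ := Int.le_floor.2 h1.2
  have h3 : -n ≤ ⌊x⌋ := Int.le_floor.2 (by push_cast; linarith [h1.1])
  exact ⟨by omega, h2⟩

/-- transport of an upper bound -/
theorem up_of {A : Set ℤ} {x B : ℝ} {s : ℤ} (hs : Sg s) (h : ∀ n ∈ A, |(n : ℝ)| ≤ x)
    (P : ℤ → Prop) (hP : ∀ n ∈ A, P (s * n)) (hB : ∀ F : Finset ℤ, (∀ n ∈ F, P n) → (F.card : ℝ) ≤ B) :
    (A.ncard : ℝ) ≤ B := by
  classical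
  have hfin := fin_of h
  have h1 := hB (hfin.toFinset.image fun n => s * n) (by
    intro n hn
    obtain ⟨m, hm, rfl⟩ := mem_image.1 hn
    exact hP m (hfin.mem_toFinset.1 hm))
  rw [card_image_of_injective _ (sg_inj hs), ← Set.ncard_eq_toFinset_card _ hfin] at h1
  exact h1

/-- transport of a lower bound -/
theorem lo_of {A : Set ℤ} {x B : ℝ} {s : ℤ} (hs : Sg s) (h : ∀ n ∈ A, |(n : ℝ)| ≤ x) (F : Finset ℤ)
    (hF : ∀ n ∈ F, s * n ∈ A) (hB : B ≤ (F.card : ℝ)) : B ≤ (A.ncard : ℝ) := by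
  refine hB.trans ?_
  rw [← Set.ncard_coe_finset, ← Set.ncard_image_of_injective (F : Set ℤ) (sg_inj hs)]
  refine (Nat.cast_le (α := ℝ)).2 (Set.ncard_le_ncard ?_ (fin_of h))
  rintro _ ⟨n, hn, rfl⟩
  exact hF n hn

theorem ps_upper {p : ℕ} {d s : ℤ} (hA : Adm p d) (hs : Sg s) {α e : ℝ} (hα : 1 / Real.log 2 < α)
    (ht : Tight p α e) (he : e < 1) {ε : ℝ} (hε : 0 < ε) : ∃ X₀ : ℝ, 1 ≤ X₀ ∧ ∀ x : ℝ, X₀ ≤ x →
    ∀ y : ℝ, 1 ≤ y → y ≤ x → ((PS p d s α x y).ncard : ℝ) ≤ x ^ ε * (y * (x / y) ^ e) := by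
  obtain ⟨X₀, hX₀, h⟩ := t_UU p (s * d) (adm_sg hA hs) α e hα ht he ε hε
  refine ⟨X₀, hX₀, fun x hx y hy hyx => ?_⟩
  refine up_of hs (fun n hn => hn.2.2.1) _ ?_ (h x hx y hy hyx)
  rintro n ⟨h1, h2, h3, k, h4, h5⟩
  rw [abs_sg hs h1] at h2 h3 h5
  refine ⟨h2, h3, k, ?_, h5⟩
  rw [iter_sg hA hs]
  exact (le_abs_sg hs _).trans h4

theorem ps_lower {p : ℕ} {d s : ℤ} (hA : Adm p d) (hs : Sg s) {α : ℝ} (hα : 1 / Real.log 2 < α)
    (hF : 0 < Fp p (rp p α)) {ε : ℝ} (hε : 0 < ε) : ∃ Λ₀ : ℝ, 0 ≤ Λ₀ ∧ ∀ y : ℝ, 1 ≤ y →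
    ∀ x : ℝ, y * Real.exp Λ₀ ≤ x → y * (x / y) ^ (ex p α - ε) ≤ ((PS p d s α x y).ncard : ℝ) := by
  obtain ⟨Λ₀, hΛ, h⟩ := ul_main p (s * d) (adm_sg hA hs) α hα hF ε hε
  refine ⟨Λ₀, hΛ, fun y hy x hx => ?_⟩
  obtain ⟨F, h1, h2⟩ := h y hy x hx
  refine lo_of hs (fun n hn => hn.2.2.1) F ?_ h2
  intro n hn
  obtain ⟨h3, h4, k, h5, h6, h7⟩ := h1 n hn
  have hn0 : (0 : ℝ) < n := by linarith
  have hn0' : 0 < n := by exact_mod_cast hn0
  have h8 : 0 < s * (s * n) := by rwa [sg_sq hs]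
  have h9 : |((s * n : ℤ) : ℝ)| = n := by
    rw [abs_sg hs h8, sg_sq hs]
  have h10 : (T p d)^[k] (s * n) = s * (T p (s * d))^[k] n := by
    have := iter_sg hA hs k (s * n)
    rw [sg_sq hs] at this
    rw [this, sg_sq hs]
  refine ⟨h8, by rw [h9]; exact h3, by rw [h9]; exact h4, k, ?_, by rw [h9]; exact h7⟩
  rw [h10]
  have h11 : 0 < s * (s * (T p (s * d))^[k] n) := by rw [sg_sq hs]; omega
  rw [abs_sg hs h11, sg_sq hs]
  exact h6

theorem es_upper {p : ℕ} {d s : ℤ} (hA : Adm p d) (hs : Sg s) {α e : ℝ} (hα : 1 / Real.log 2 < α)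
    (ht : Tight p α e) (he : e < 1) {δ : ℝ} (hδ : 0 < δ) (hδ1 : δ ≤ 1) {ε : ℝ} (hε : 0 < ε) :
    ∃ X₀ : ℝ, 1 ≤ X₀ ∧ ∀ x : ℝ, X₀ ≤ x →
    ((ES p d s α δ x).ncard : ℝ) ≤ x ^ (1 - δ * (1 - e) + ε) := by
  obtain ⟨X₀, hX₀, h⟩ := t_EXU t_UU p (s * d) (adm_sg hA hs) α e hα ht he δ hδ hδ1 ε hε
  refine ⟨X₀, hX₀, fun x hx => ?_⟩
  refine up_of hs (fun n hn => hn.2.1) _ ?_ (h x hx)
  rintro n ⟨h1, h2, k, h4, h5⟩
  rw [abs_sg hs h1] at h2 h4 h5
  have hn1 : (1 : ℝ) ≤ ((s * n : ℤ) : ℝ) := by exact_mod_cast h1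
  refine ⟨by omega, h2, k, max 1 |(((T p d)^[k] n : ℤ) : ℝ)|, le_max_left _ _, ?_, ?_, ?_⟩
  · exact max_le (Real.one_le_rpow hn1 (by linarith)) h4
  · rw [iter_sg hA hs]
    exact (le_abs_sg hs _).trans (le_max_right _ _)
  · rcases eq_or_ne ((T p d)^[k] n) 0 with h6 | h6
    · rw [h6] at h5 ⊢
      simp only [Int.cast_zero, abs_zero, Real.log_zero, sub_zero] at h5
      have : max 1 |((0 : ℤ) : ℝ)| = 1 := by simp
      rw [this, Real.log_one, sub_zero]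
      exact h5
    · have h7 : (1 : ℝ) ≤ |(((T p d)^[k] n : ℤ) : ℝ)| := by
        rw [← Int.cast_abs]
        exact_mod_cast Int.one_le_abs h6
      rw [max_eq_right h7]
      exact h5

theorem es_lower {p : ℕ} {d s : ℤ} (hA : Adm p d) (hs : Sg s) {α : ℝ} (hα : 1 / Real.log 2 < α)
    (hF : 0 < Fp p (rp p α)) (ht : Tight p α (ex p α)) (he : ex p α < 1) {δ : ℝ} (hδ : 0 < δ)
    (hδ1 : δ ≤ 1) {ε : ℝ} (hε : 0 < ε) : ∃ X₀ : ℝ, 1 ≤ X₀ ∧ ∀ x : ℝ, X₀ ≤ x →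
    x ^ (1 - δ * (1 - ex p α) - ε) ≤ ((ES p d s α δ x).ncard : ℝ) := by
  obtain ⟨X₀, hX₀, h⟩ := t_EXL t_UU p (s * d) (adm_sg hA hs) α hα hF ht he δ hδ hδ1 ε hε
  refine ⟨X₀, hX₀, fun x hx => ?_⟩
  obtain ⟨F, h1, h2⟩ := h x hx
  refine lo_of hs (fun n hn => hn.2.1) F ?_ h2
  intro n hn
  obtain ⟨h3, h4, k, h5, h6, h7⟩ := h1 n hn
  have hn0 : 0 < n := by omega
  have h8 : 0 < s * (s * n) := by rwa [sg_sq hs]
  have h9 : |((s * n : ℤ) : ℝ)| = n := by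
    rw [abs_sg hs h8, sg_sq hs]
  have h10 : (T p d)^[k] (s * n) = s * (T p (s * d))^[k] n := by
    have := iter_sg hA hs k (s * n)
    rw [sg_sq hs] at this
    rw [this, sg_sq hs]
  have h11 : 0 < s * (s * (T p (s * d))^[k] n) := by rw [sg_sq hs]; omega
  have h12 : |(((T p d)^[k] (s * n) : ℤ) : ℝ)| = ((T p (s * d))^[k] n : ℤ) := by
    rw [h10, abs_sg hs h11, sg_sq hs]
  exact ⟨h8, by rw [h9]; exact h4, k, by rw [h9, h12]; exact h6, by rw [h9, h12]; exact h7⟩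

theorem es_mono {p : ℕ} {d s : ℤ} {α α' δ x : ℝ} (h0 : 0 ≤ α) (h : α ≤ α') (hδ : 0 ≤ δ) :
    (ES p d s α δ x).ncard ≤ (ES p d s α' δ x).ncard := by
  refine Set.ncard_le_ncard ?_ (fin_of fun n hn => hn.2.1)
  rintro n ⟨h1, h2, k, h3, h4⟩
  refine ⟨h1, h2, k, h3, h4.trans ?_⟩
  have hn1 : (1 : ℝ) ≤ |(n : ℝ)| := by
    rw [← Int.cast_abs]
    exact_mod_cast Int.one_le_abs (by rintro rfl; simp at h1)
  have h5 : 0 ≤ Real.log |(n : ℝ)| - Real.log |(((T p d)^[k] n : ℤ) : ℝ)| := by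
    rcases eq_or_ne ((T p d)^[k] n) 0 with h6 | h6
    · rw [h6]
      simp only [Int.cast_zero, abs_zero, Real.log_zero, sub_zero]
      exact Real.log_nonneg hn1
    · have h7 : (1 : ℝ) ≤ |(((T p d)^[k] n : ℤ) : ℝ)| := by
        rw [← Int.cast_abs]
        exact_mod_cast Int.one_le_abs h6
      have h8 : |(((T p d)^[k] n : ℤ) : ℝ)| ≤ |(n : ℝ)| := by
        refine h3.trans ?_
        calc |(n : ℝ)| ^ (1 - δ) ≤ |(n : ℝ)| ^ (1 : ℝ) :=
              Real.rpow_le_rpow_of_exponent_le hn1 (by linarith)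
          _ = |(n : ℝ)| := Real.rpow_one _
      linarith [Real.log_le_log (by linarith) h8]
  exact mul_le_mul_of_nonneg_right h h5

/-! ### `p = 3` -/

open Pool.Agent.H395R2.G3 Pool.Agent.Y966.LD

/-- the exponent -/
theorem ex_three (α : ℝ) : ex 3 α = α * FF (rr α) := by
  unfold ex
  rw [D3.Fp_three, D3.rp_three]

theorem rr_lt_half {α : ℝ} (h1 : 1 / Real.log 2 < α) (h2 : α < 2 / Real.log (4 / 3)) :
    rr α < 1 / 2 := by
  have hl2 : 0 < Real.log 2 := Real.log_pos (by norm_num)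
  have hl3 : 0 < Real.log 3 := Real.log_pos (by norm_num)
  have hα : 0 < α := lt_trans (by positivity) h1
  have h43 : 0 < Real.log (4 / 3) := Real.log_pos (by norm_num)
  have e := rr_spec α
  have h3 : Real.log (4 / 3) / 2 < 1 / α := by
    rw [lt_div_iff₀ hα]
    rw [lt_div_iff₀ h43] at h2
    linarith
  rw [e, FT.log43] at h3
  have : rr α * Real.log 3 < 1 / 2 * Real.log 3 := by linarith
  exact lt_of_mul_lt_mul_right this hl3.le

theorem ex_lt_one {α : ℝ} (h1 : 1 / Real.log 2 < α) (h2 : α < 2 / Real.log (4 / 3)) : ex 3 α < 1 := by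
  have hl2 : 0 < Real.log 2 := Real.log_pos (by norm_num)
  have hα : 0 < α := lt_trans (by positivity) h1
  have hr1 := rr_lt_half h1 h2
  rw [ex_three]
  have e := rr_spec α
  have h3 : FF (rr α) < 1 / α := by
    rw [e]
    unfold FF
    have := (Real.binEntropy_lt_log_two (p := rr α)).2 (by norm_num; exact hr1.ne)
    linarith
  calc α * FF (rr α) < α * (1 / α) := mul_lt_mul_of_pos_left h3 hα
    _ = 1 := by field_simp

theorem ex_mean : ex 3 (2 / Real.log (4 / 3)) = 1 := by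
  have hl3 : 0 < Real.log 3 := Real.log_pos (by norm_num)
  have h43 : 0 < Real.log (4 / 3) := Real.log_pos (by norm_num)
  rw [ex_three]
  have e := rr_spec (2 / Real.log (4 / 3))
  have h3 : 1 / (2 / Real.log (4 / 3)) = Real.log (4 / 3) / 2 := by
    field_simp
  have hr : rr (2 / Real.log (4 / 3)) = 1 / 2 := by
    have h4 := h3
    rw [e, FT.log43] at h4
    have : rr (2 / Real.log (4 / 3)) * Real.log 3 = 1 / 2 * Real.log 3 := by
      rw [FT.log43]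
      linarith
    exact mul_right_cancel₀ hl3.ne' this
  have hF : FF (rr (2 / Real.log (4 / 3))) = Real.log (4 / 3) / 2 := by
    rw [hr, FT.log43]
    unfold FF
    rw [show (1 / 2 : ℝ) = 2⁻¹ by norm_num, Real.binEntropy_two_inv]
    ring
  rw [hF]
  field_simp

theorem Fp_pos3 {α : ℝ} (h1 : 1 / Real.log 2 < α) (h2 : α ≤ 2 / Real.log (4 / 3)) :
    0 < Fp 3 (rp 3 α) := by
  rw [D3.Fp_three, D3.rp_three]
  exact FF_pos_of (rr_pos h1) (lt_of_le_of_lt (D3.expo_mean α h1 h2) FT.half_lt) (by norm_num)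
    FF_low.le

theorem tight3 {α : ℝ} (h1 : 1 / Real.log 2 < α) (h2 : α < 2 / Real.log (4 / 3)) :
    Tight 3 α (ex 3 α) := by
  intro ε hε
  have hr0 := rr_pos h1
  have hr1 := rr_lt_half h1 h2
  refine ⟨1 - rr α, q_three (by linarith) (by linarith), ?_⟩
  rw [D3.php_three, D3.rp_three, phi_eq hr0 (by linarith), ex_three]
  linarith

theorem mean_gt : 1 / Real.log 2 < 2 / Real.log (4 / 3) := by
  have hl2 : 0 < Real.log 2 := Real.log_pos (by norm_num)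
  have h43 : 0 < Real.log (4 / 3) := Real.log_pos (by norm_num)
  have h : Real.log (4 / 3) < Real.log 2 := Real.log_lt_log (by norm_num) (by norm_num)
  rw [div_lt_div_iff₀ hl2 h43]
  linarith

/-- **the uniform law for `3x+d`** -/
theorem law3 {d s : ℤ} (hA : Adm 3 d) (hs : Sg s) {α : ℝ} (h1 : 1 / Real.log 2 < α)
    (h2 : α ≤ 2 / Real.log (4 / 3)) {ε : ℝ} (hε : 0 < ε) : ∃ C : ℝ, 1 ≤ C ∧ ∀ x y : ℝ, 1 ≤ y →
    C * y ≤ x → y * (x / y) ^ (1 - α * rate (1 / α) - ε) ≤ ((PS 3 d s α x y).ncard : ℝ) ∧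
      ((PS 3 d s α x y).ncard : ℝ) ≤ x ^ ε * (y * (x / y) ^ (1 - α * rate (1 / α))) := by
  rw [expo_eq h1, ← ex_three]
  obtain ⟨Λ₀, hΛ, hlo⟩ := ps_lower hA hs h1 (Fp_pos3 h1 h2) hε
  have hup : ∃ X₀ : ℝ, 1 ≤ X₀ ∧ ∀ x : ℝ, X₀ ≤ x → ∀ y : ℝ, 1 ≤ y → y ≤ x →
      ((PS 3 d s α x y).ncard : ℝ) ≤ x ^ ε * (y * (x / y) ^ (ex 3 α)) := by
    rcases h2.lt_or_eq with h | h
    · exact ps_upper hA hs h1 (tight3 h1 h) (ex_lt_one h1 h) hε
    · obtain ⟨X₀, hX₀⟩ : ∃ X₀ : ℝ, X₀ = Real.exp (Real.log 3 / ε) := ⟨_, rfl⟩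
      refine ⟨X₀, by rw [hX₀]; exact Real.one_le_exp (by positivity), fun x hx y hy hyx => ?_⟩
      have hx1 : 1 ≤ x := hy.trans hyx
      have hx0 : 0 < x := by linarith
      have hy0 : 0 < y := by linarith
      rw [h, ex_mean, Real.rpow_one]
      have e1 : y * (x / y) = x := by field_simp
      rw [e1]
      have h3 : 3 ≤ x ^ ε := by
        have h4 : Real.log 3 / ε ≤ Real.log x := by
          rw [Real.le_log_iff_exp_le hx0, ← hX₀]
          exact hx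
        rw [div_le_iff₀ hε] at h4
        rw [Real.rpow_def_of_pos hx0]
        have e : (3 : ℝ) = Real.exp (Real.log 3) := (Real.exp_log (by norm_num)).symm
        rw [e]
        exact Real.exp_le_exp.2 h4
      have h5 : ((PS 3 d s (2 / Real.log (4 / 3)) x y).ncard : ℝ) ≤ 3 * x := by
        have hsub : PS 3 d s (2 / Real.log (4 / 3)) x y ⊆
            ((Finset.Icc (-⌊x⌋) ⌊x⌋ : Finset ℤ) : Set ℤ) := by
          rintro n ⟨-, -, hn, -⟩
          rw [mem_coe, mem_Icc]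
          have h1 := abs_le.1 hn
          have h2 : n ≤ ⌊x⌋ := Int.le_floor.2 h1.2
          have h3 : -n ≤ ⌊x⌋ := Int.le_floor.2 (by push_cast; linarith [h1.1])
          exact ⟨by omega, h2⟩
        have h6 := Set.ncard_le_ncard hsub (Finset.finite_toSet _)
        rw [Set.ncard_coe_finset, Int.card_Icc] at h6
        have h7 : (1 : ℤ) ≤ ⌊x⌋ := Int.le_floor.2 (by exact_mod_cast hx1)
        have h8 : (⌊x⌋ : ℝ) ≤ x := Int.floor_le x
        have h9 : (((⌊x⌋ + 1 - -⌊x⌋).toNat : ℕ) : ℤ) = ⌊x⌋ + 1 - -⌊x⌋ :=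
          Int.toNat_of_nonneg (by omega)
        have h10 : (((⌊x⌋ + 1 - -⌊x⌋).toNat : ℕ) : ℝ) = 2 * (⌊x⌋ : ℝ) + 1 := by
          have : (((⌊x⌋ + 1 - -⌊x⌋).toNat : ℤ) : ℝ) = ((⌊x⌋ + 1 - -⌊x⌋ : ℤ) : ℝ) := by
            exact_mod_cast h9
          rw [Int.cast_natCast] at this
          rw [this]
          push_cast
          ring
        have h11 : ((PS 3 d s (2 / Real.log (4 / 3)) x y).ncard : ℝ) ≤
            (((⌊x⌋ + 1 - -⌊x⌋).toNat : ℕ) : ℝ) := by exact_mod_cast h6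
        rw [h10] at h11
        linarith
      exact h5.trans (mul_le_mul_of_nonneg_right h3 hx0.le)
  obtain ⟨X₀, hX₀, hup⟩ := hup
  refine ⟨max (Real.exp Λ₀) X₀, (Real.one_le_exp hΛ).trans (le_max_left _ _), fun x y hy hx => ?_⟩
  have hy0 : 0 < y := by linarith
  have h3 : Real.exp Λ₀ * y ≤ max (Real.exp Λ₀) X₀ * y :=
    mul_le_mul_of_nonneg_right (le_max_left _ _) hy0.le
  have h4 : X₀ * y ≤ max (Real.exp Λ₀) X₀ * y :=
    mul_le_mul_of_nonneg_right (le_max_right _ _) hy0.le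
  have h5 : X₀ ≤ X₀ * y := le_mul_of_one_le_right (by linarith) hy
  have h6 : y ≤ X₀ * y := le_mul_of_one_le_left hy0.le hX₀
  exact ⟨hlo y hy x (by linarith), hup x (by linarith) y hy (by linarith)⟩

/-- **the exceptional set for `3x+d`** -/
theorem exc3 {d s : ℤ} (hA : Adm 3 d) (hs : Sg s) {α : ℝ} (h1 : 1 / Real.log 2 < α)
    (h2 : α ≤ 2 / Real.log (4 / 3)) {δ : ℝ} (hδ : 0 < δ) (hδ1 : δ ≤ 1) {ε : ℝ} (hε : 0 < ε) :
    ∃ X₀ : ℝ, 1 ≤ X₀ ∧ ∀ x : ℝ, X₀ ≤ x →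
    x ^ (1 - δ * (α * rate (1 / α)) - ε) ≤ ((ES 3 d s α δ x).ncard : ℝ) ∧
      ((ES 3 d s α δ x).ncard : ℝ) ≤ x ^ (1 - δ * (α * rate (1 / α)) + ε) := by
  have e0 : α * rate (1 / α) = 1 - ex 3 α := by
    have := expo_eq h1
    rw [← ex_three] at this
    linarith
  rw [e0]
  have hl2 : 0 < Real.log 2 := Real.log_pos (by norm_num)
  have hα0 : 0 < α := lt_trans (by positivity) h1
  rcases h2.lt_or_eq with h | h
  · obtain ⟨X₁, hX₁, hlo⟩ := es_lower hA hs h1 (Fp_pos3 h1 h2) (tight3 h1 h) (ex_lt_one h1 h) hδ hδ1 hε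
    obtain ⟨X₂, hX₂, hup⟩ := es_upper hA hs h1 (tight3 h1 h) (ex_lt_one h1 h) hδ hδ1 hε
    exact ⟨max X₁ X₂, hX₁.trans (le_max_left _ _), fun x hx =>
      ⟨hlo x ((le_max_left _ _).trans hx), hup x ((le_max_right _ _).trans hx)⟩⟩
  · -- the mean
    have hcont : ContinuousAt (ex 3) α := by
      have hf : ex 3 = fun a => a * Fp 3 (rp 3 a) := rfl
      rw [hf]
      refine continuousAt_id.mul ((Fp_cont 3).continuousAt.comp ?_)
      unfold rp
      have h43 : Real.log ((3 : ℕ) : ℝ) ≠ 0 := (Real.log_pos (by norm_num)).ne'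
      exact (continuousAt_const.sub (continuousAt_const.div continuousAt_id hα0.ne')).div
        continuousAt_const h43
    have hex : ex 3 α = 1 := by rw [h, ex_mean]
    have g1 : ∀ᶠ a in 𝓝[<] α, 1 - ε / 2 < ex 3 a := by
      refine (hcont.mono_left nhdsWithin_le_nhds).eventually (lt_mem_nhds ?_)
      rw [hex]
      linarith
    have g2 : ∀ᶠ a in 𝓝[<] α, 1 / Real.log 2 < a :=
      (lt_mem_nhds h1).filter_mono nhdsWithin_le_nhds
    obtain ⟨a, ha1, ha2, ha3⟩ := (g1.and (g2.and self_mem_nhdsWithin)).exists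
    have ha3' : a < α := ha3
    obtain ⟨X₁, hX₁, hlo⟩ := es_lower hA hs ha2 (Fp_pos3 ha2 (by linarith)) (tight3 ha2 (by linarith))
      (ex_lt_one ha2 (by linarith)) hδ hδ1 (show 0 < ε / 2 by positivity)
    obtain ⟨X₂, hX₂, hX₂'⟩ := D3.two_pow (a := 1) hε
    refine ⟨max X₁ X₂, hX₁.trans (le_max_left _ _), fun x hx => ?_⟩
    have hx1 : 1 ≤ x := hX₁.trans ((le_max_left _ _).trans hx)
    rw [hex, sub_self, mul_zero, sub_zero]
    constructor
    · refine le_trans ?_ ((hlo x ((le_max_left _ _).trans hx)).trans ?_)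
      · apply Real.rpow_le_rpow_of_exponent_le hx1
        nlinarith
      · have hl2' : 0 < a := lt_trans (by positivity) ha2
        exact_mod_cast es_mono hl2'.le ha3'.le hδ.le
    · refine le_trans ?_ (hX₂' x ((le_max_right _ _).trans hx))
      have h5 : ((ES 3 d s α δ x).ncard : ℝ) ≤ 3 * x := by
        have hsub : ES 3 d s α δ x ⊆ ((Finset.Icc (-⌊x⌋) ⌊x⌋ : Finset ℤ) : Set ℤ) := by
          rintro n ⟨-, hn, -⟩
          rw [mem_coe, mem_Icc]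
          have h1 := abs_le.1 hn
          have h2 : n ≤ ⌊x⌋ := Int.le_floor.2 h1.2
          have h3 : -n ≤ ⌊x⌋ := Int.le_floor.2 (by push_cast; linarith [h1.1])
          exact ⟨by omega, h2⟩
        have h6 := Set.ncard_le_ncard hsub (Finset.finite_toSet _)
        rw [Set.ncard_coe_finset, Int.card_Icc] at h6
        have h7 : (1 : ℤ) ≤ ⌊x⌋ := Int.le_floor.2 (by exact_mod_cast hx1)
        have h8 : (⌊x⌋ : ℝ) ≤ x := Int.floor_le x
        have h9 : (((⌊x⌋ + 1 - -⌊x⌋).toNat : ℕ) : ℤ) = ⌊x⌋ + 1 - -⌊x⌋ :=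
          Int.toNat_of_nonneg (by omega)
        have h10 : (((⌊x⌋ + 1 - -⌊x⌋).toNat : ℕ) : ℝ) = 2 * (⌊x⌋ : ℝ) + 1 := by
          have : (((⌊x⌋ + 1 - -⌊x⌋).toNat : ℤ) : ℝ) = ((⌊x⌋ + 1 - -⌊x⌋ : ℤ) : ℝ) := by
            exact_mod_cast h9
          rw [Int.cast_natCast] at this
          rw [this]
          push_cast
          ring
        have h11 : ((ES 3 d s α δ x).ncard : ℝ) ≤
            (((⌊x⌋ + 1 - -⌊x⌋).toNat : ℕ) : ℝ) := by exact_mod_cast h6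
        rw [h10] at h11
        linarith
      refine h5.trans ?_
      apply mul_le_mul_of_nonneg_left _ (by norm_num)
      calc x = x ^ (1 : ℝ) := (Real.rpow_one x).symm
        _ ≤ x ^ (1 + ε / 2) := Real.rpow_le_rpow_of_exponent_le hx1 (by linarith)

end UN

end Pool.Agent.N685.FD
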