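import Pool.Agent.N685.FD.P5
import Pool.Agent.N685.FD.UL
import Pool.Agent.N685.FD.Asm3
import Pool.Agent.N685.FD.UN

/-! Project FD: straightness for the first hitting time of a finite set of integers, maps `3x+d`. -/

set_option autoImplicit false
set_option linter.unusedVariables false

namespace Pool.Agent.N685.FD

open Finset Filter Topology Pool.Agent.H395R2.G3 Pool.Agent.Y966.LD

namespace P6

open D3 P5

theorem bdd_one (d : ℤ) (A : Set ℤ) (v : ℤ) : ∃ B M : ℝ, 0 ≤ B ∧ 0 ≤ M ∧ ∀ i : ℕ, HA d A v i →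
    (i : ℝ) ≤ B ∧ ∀ j ≤ i, |Real.log ((T 3 d)^[j] v : ℤ)| ≤ M := by
  by_cases h : ∃ i, HA d A v i
  · obtain ⟨i, hi⟩ := h
    refine ⟨i, ∑ j ∈ range (i + 1), |Real.log ((T 3 d)^[j] v : ℤ)|, Nat.cast_nonneg i,
      sum_nonneg fun _ _ => abs_nonneg _, fun i' hi' => ?_⟩
    have he : i' = i := by
      rcases lt_trichotomy i' i with h1 | h1 | h1
      · exact absurd hi'.2 (hi.1 i' h1)
      · exact h1
      · exact absurd hi.2 (hi'.1 i h1)
    subst he
    refine ⟨le_rfl, fun j hj => ?_⟩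
    exact single_le_sum (f := fun j => |Real.log ((T 3 d)^[j] v : ℤ)|) (fun _ _ => abs_nonneg _)
      (mem_range.2 (by omega))
  · push Not at h
    exact ⟨0, 0, le_rfl, le_rfl, fun i hi => absurd hi (h i)⟩

theorem bdd_all (d : ℤ) (A : Set ℤ) (c : ℤ) : ∃ B M : ℝ, 0 ≤ B ∧ 0 ≤ M ∧ ∀ v : ℤ, 1 ≤ v → v ≤ c →
    ∀ i : ℕ, HA d A v i → (i : ℝ) ≤ B ∧ ∀ j ≤ i, |Real.log ((T 3 d)^[j] v : ℤ)| ≤ M := by
  choose B M hB hM h using bdd_one d A
  refine ⟨∑ v ∈ Finset.Icc 1 c, B v, ∑ v ∈ Finset.Icc 1 c, M v, sum_nonneg fun v _ => hB v,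
    sum_nonneg fun v _ => hM v, fun v hv1 hv2 i hi => ?_⟩
  obtain ⟨h1, h2⟩ := h v i hi
  have hv : v ∈ Finset.Icc 1 c := mem_Icc.2 ⟨hv1, hv2⟩
  exact ⟨h1.trans (single_le_sum (fun v _ => hB v) hv), fun j hj => (h2 j hj).trans
    (single_le_sum (fun v _ => hM v) hv)⟩

theorem T_le {d c : ℤ} (hc : |d| ≤ c) {x : ℤ} (h : T 3 d x ≤ c) : x ≤ 2 * c := by
  have h6 := neg_abs_le d
  have h7 := abs_nonneg d
  unfold T at h
  split_ifs at h
  · omega
  · push_cast at h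
    omega

/-- one sign -/
theorem bent_pos (hS : S_STRB) {d : ℤ} (hd : Adm 3 d) {A : Set ℤ} {c₀ : ℤ} (hc₀ : ∀ y ∈ A, y ≤ c₀)
    {α : ℝ} (h1 : 1 / Real.log 2 < α) (h2 : α < 2 / Real.log (4 / 3)) {ε : ℝ} (hε : 0 < ε) :
    ∃ κ : ℝ, 0 < κ ∧ ∃ X₀ : ℝ, 1 ≤ X₀ ∧ ∀ x : ℝ, X₀ ≤ x → ∀ F : Finset ℤ,
    (∀ n ∈ F, 1 ≤ n ∧ (n : ℝ) ≤ x ∧ ∃ k : ℕ, HA d A n k ∧ (k : ℝ) ≤ α * Real.log n ∧
      ∃ j ≤ k, ε * Real.log x < |Real.log ((T 3 d)^[j] n : ℤ) - (Real.log n - j / α)|) →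
    (F.card : ℝ) ≤ x ^ (ex 3 α - κ) := by
  have hl2 : 0 < Real.log 2 := Real.log_pos (by norm_num)
  have hα : 0 < α := lt_trans (by positivity) h1
  have hr0 := rr_pos h1
  have hr1 := UN.rr_lt_half h1 h2
  have hex : 0 < ex 3 α := mul_pos hα (UN.Fp_pos3 h1 h2.le)
  have hex1 : ex 3 α < 1 := UN.ex_lt_one h1 h2
  obtain ⟨κ, hκ, h⟩ := hS 3 d hd α h1 (by
    rw [rp_three]
    exact q_three (by linarith) (by linarith)) (ε / 2) (by positivity)
  set c : ℤ := max (max c₀ |d|) 1 with hc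
  have hcc : c₀ ≤ c := (le_max_left _ _).trans (le_max_left _ _)
  have hcd : |d| ≤ c := (le_max_right _ _).trans (le_max_left _ _)
  have hc1 : 1 ≤ c := le_max_right _ _
  have hcR : (1 : ℝ) ≤ c := by exact_mod_cast hc1
  have hlc : 0 ≤ Real.log (c : ℝ) := Real.log_nonneg hcR
  obtain ⟨B, M, hB, hM, hbd⟩ := bdd_all d A c
  obtain ⟨X₁, hX₁, g⟩ := h (α * Real.log c) (by positivity)
  -- the thresholds
  set κ' : ℝ := min (κ / 2) (ex 3 α / 2) with hκ'
  have hκ'0 : 0 < κ' := lt_min (by positivity) (by positivity)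
  have hκ'1 : κ' ≤ κ / 2 := min_le_left _ _
  have hκ'2 : κ' ≤ ex 3 α / 2 := min_le_right _ _
  set W : ℝ := 2 * (M + Real.log c + B / α + Real.log 2 + Real.log c + 1 / α + 1) / ε with hW
  have hlog2c : Real.log (2 * c) = Real.log 2 + Real.log c :=
    Real.log_mul (by norm_num) (by positivity)
  set Z : ℝ := Real.log (2 * c) / κ' with hZ
  refine ⟨κ', hκ'0, max (max X₁ c) (max (Real.exp W) (Real.exp Z)),
    hX₁.trans ((le_max_left _ _).trans (le_max_left _ _)), fun x hx F hF => ?_⟩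
  have hx1 : X₁ ≤ x := ((le_max_left _ _).trans (le_max_left _ _)).trans hx
  have hx2 : (c : ℝ) ≤ x := ((le_max_right _ _).trans (le_max_left _ _)).trans hx
  have hx3 : Real.exp W ≤ x := ((le_max_left _ _).trans (le_max_right _ _)).trans hx
  have hx4 : Real.exp Z ≤ x := ((le_max_right _ _).trans (le_max_right _ _)).trans hx
  have hx0 : 0 < x := lt_of_lt_of_le (Real.exp_pos _) hx3
  have hxx1 : 1 ≤ x := hcR.trans hx2
  have hLW : W ≤ Real.log x := by
    rw [Real.le_log_iff_exp_le hx0]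
    exact hx3
  have hLZ : Z ≤ Real.log x := by
    rw [Real.le_log_iff_exp_le hx0]
    exact hx4
  have hW2 : M + Real.log c + B / α + Real.log 2 + Real.log c + 1 / α + 1 ≤ ε / 2 * Real.log x := by
    rw [hW, div_le_iff₀ hε] at hLW
    linarith
  have hZ2 : Real.log (2 * c) ≤ κ' * Real.log x := by
    rw [hZ, div_le_iff₀ hκ'0] at hLZ
    linarith
  -- split
  classical
  have hsplit : F.card ≤ (Finset.Icc 1 c).card + (F.filter fun n => c < n).card := by
    refine le_trans (card_le_card fun n hn => ?_) (card_union_le _ _)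
    rw [mem_union, mem_filter, mem_Icc]
    by_cases h5 : c < n
    · exact Or.inr ⟨hn, h5⟩
    · exact Or.inl ⟨(hF n hn).1, by omega⟩
  have hfirst : ((Finset.Icc 1 c).card : ℝ) = c := by
    rw [Int.card_Icc]
    have : (((c + 1 - 1).toNat : ℕ) : ℤ) = c := by
      rw [Int.toNat_of_nonneg (by omega)]
      ring
    exact_mod_cast this
  have hmain := g x hx1 c hcR hx2 (F.filter fun n => c < n) (by
    intro n hn
    obtain ⟨hnF, hnc⟩ := mem_filter.1 hn
    obtain ⟨f1, f2, k, f3, f4, j, f5, f6⟩ := hF n hnF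
    have hncR : (c : ℝ) < n := by exact_mod_cast hnc
    have hn0 : (0 : ℝ) < n := by linarith
    have hexk : ∃ i, (T 3 d)^[i] n ≤ c := ⟨k, (hc₀ _ f3.2).trans hcc⟩
    obtain ⟨k', hk', hmin⟩ : ∃ k', (T 3 d)^[k'] n ≤ c ∧ ∀ i < k', ¬ (T 3 d)^[i] n ≤ c :=
      ⟨Nat.find hexk, Nat.find_spec hexk, fun i hi => Nat.find_min hexk hi⟩
    have hlt : ∀ i < k', c < (T 3 d)^[i] n := fun i hi => not_le.1 (hmin i hi)
    have hkk : k' ≤ k := by
      by_contra hcon
      exact hmin k (by omega) ((hc₀ _ f3.2).trans hcc)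
    have hk0 : k' ≠ 0 := by
      rintro rfl
      simp only [Function.iterate_zero, id_eq] at hk'
      omega
    obtain ⟨m, rfl⟩ : ∃ m, k' = m + 1 := ⟨k' - 1, by omega⟩
    have hm : c < (T 3 d)^[m] n := hlt m (by omega)
    have hv1 : 1 ≤ (T 3 d)^[m + 1] n := by
      rw [Function.iterate_succ_apply']
      exact UL.T_pos hd (by omega) (by omega)
    have hv : HA d A ((T 3 d)^[m + 1] n) (k - (m + 1)) := by
      constructor
      · intro i hi
        rw [← Function.iterate_add_apply]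
        exact f3.1 _ (by omega)
      · rw [← Function.iterate_add_apply, Nat.sub_add_cancel hkk]
        exact f3.2
    obtain ⟨b1, b2⟩ := hbd _ hv1 hk' _ hv
    -- the last term above `c`
    have hm2 : (T 3 d)^[m] n ≤ 2 * c := by
      have h5 : T 3 d ((T 3 d)^[m] n) ≤ c := by
        rw [← Function.iterate_succ_apply' (T 3 d)]
        exact hk'
      exact T_le hcd h5
    have hmR : (c : ℝ) < ((T 3 d)^[m] n : ℤ) := by exact_mod_cast hm
    have hm2R : (((T 3 d)^[m] n : ℤ) : ℝ) ≤ 2 * c := by exact_mod_cast hm2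
    have hlm1 : 0 ≤ Real.log ((T 3 d)^[m] n : ℤ) := Real.log_nonneg (by linarith)
    have hlm2 : Real.log ((T 3 d)^[m] n : ℤ) ≤ Real.log 2 + Real.log c := by
      rw [← hlog2c]
      exact Real.log_le_log (by linarith) hm2R
    have hkα : ((m + 1 : ℕ) : ℝ) ≤ α * (Real.log n - Real.log c) + α * Real.log c := by
      have h5 : ((m + 1 : ℕ) : ℝ) ≤ k := by exact_mod_cast hkk
      linarith
    refine ⟨hncR, f2, m + 1, by exact_mod_cast hk', fun i hi => by exact_mod_cast hlt i hi, hkα, ?_⟩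
    by_cases hj : j < m + 1
    · refine ⟨j, hj, ?_⟩
      have : 0 ≤ ε / 2 * Real.log x := by
        have := Real.log_nonneg hxx1
        positivity
      linarith
    · refine ⟨m, by omega, ?_⟩
      have hj2 : m + 1 ≤ j := by omega
      have h5 := b2 (j - (m + 1)) (by omega)
      rw [← Function.iterate_add_apply, Nat.sub_add_cancel hj2] at h5
      have h6 : (j : ℝ) ≤ m + 1 + B := by
        have h7 : ((j - (m + 1) : ℕ) : ℝ) ≤ ((k - (m + 1) : ℕ) : ℝ) := by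
          have : j - (m + 1) ≤ k - (m + 1) := by omega
          exact_mod_cast this
        have h8 : ((j - (m + 1) : ℕ) : ℝ) = j - (m + 1) := by
          rw [Nat.cast_sub hj2]
          push_cast
          ring
        linarith
      have h7 : (m : ℝ) + 1 ≤ j := by exact_mod_cast hj2
      have e1 : (j : ℝ) / α ≤ m / α + 1 / α + B / α := by
        rw [← add_div, ← add_div]
        exact div_le_div_of_nonneg_right h6 hα.le
      have e2 : (m : ℝ) / α ≤ j / α := div_le_div_of_nonneg_right (by linarith) hα.le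
      have e3 : 0 < 1 / α := by positivity
      have e4 : 0 ≤ B / α := by positivity
      obtain ⟨h9, h10⟩ := abs_le.1 h5
      rcases lt_abs.1 f6 with h11 | h11
      · rw [lt_abs]
        left
        linarith
      · rw [lt_abs]
        right
        linarith)
  have hc0 : (0 : ℝ) < c := by linarith
  have hsum : (F.card : ℝ) ≤ c + x ^ (-κ) * (c * (x / c) ^ (ex 3 α)) := by
    have h5 : (F.card : ℝ) ≤ ((Finset.Icc 1 c).card : ℝ) + ((F.filter fun n => c < n).card : ℝ) := by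
      exact_mod_cast hsplit
    rw [hfirst] at h5
    linarith
  refine hsum.trans ?_
  have k1 : (x / c) ^ (ex 3 α) ≤ x ^ (ex 3 α) :=
    Real.rpow_le_rpow (by positivity) (div_le_self hx0.le hcR) hex.le
  have k2 : x ^ (-κ) * (c * (x / c) ^ (ex 3 α)) ≤ c * x ^ (ex 3 α - 2 * κ') := by
    calc x ^ (-κ) * (c * (x / c) ^ (ex 3 α)) ≤ x ^ (-κ) * (c * x ^ (ex 3 α)) := by gcongr
      _ = c * x ^ (ex 3 α - κ) := by
          rw [Real.rpow_sub hx0, Real.rpow_neg hx0.le]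
          field_simp
      _ ≤ c * x ^ (ex 3 α - 2 * κ') := by
          apply mul_le_mul_of_nonneg_left _ hc0.le
          exact Real.rpow_le_rpow_of_exponent_le hxx1 (by linarith)
  have k3 : (c : ℝ) ≤ c * x ^ (ex 3 α - 2 * κ') := by
    apply le_mul_of_one_le_right hc0.le
    exact Real.one_le_rpow hxx1 (by linarith)
  have k4 : 2 * c * x ^ (ex 3 α - 2 * κ') ≤ x ^ (ex 3 α - κ') := by
    have e : (2 : ℝ) * c = Real.exp (Real.log (2 * c)) := (Real.exp_log (by positivity)).symm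
    rw [e, Real.rpow_def_of_pos hx0, Real.rpow_def_of_pos hx0, ← Real.exp_add]
    apply Real.exp_le_exp.2
    linarith
  linarith

/-- the exceptions: hitting `A` within `α log |n|` steps, not straight -/
def Be (d : ℤ) (A : Set ℤ) (α ε x : ℝ) : Set ℤ :=
  {n : ℤ | n ≠ 0 ∧ |(n : ℝ)| ≤ x ∧ ∃ k : ℕ, HA d A n k ∧ (k : ℝ) ≤ α * Real.log |(n : ℝ)| ∧
    ∃ j ≤ k, ε * Real.log x <
      |Real.log |(((T 3 d)^[j] n : ℤ) : ℝ)| - (Real.log |(n : ℝ)| - j / α)|}

theorem be_sub {d : ℤ} {A : Set ℤ} {α ε x : ℝ} : Be d A α ε x ⊆ Ct d A α x := by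
  rintro n ⟨h1, h2, k, h3, h4, -⟩
  exact ⟨h1, h2, k, h3, h4⟩

theorem be_fin (d : ℤ) (A : Set ℤ) (α ε x : ℝ) : (Be d A α ε x).Finite :=
  (Ct_fin d A α x).subset be_sub

/-- straightness for the first hitting time of `A` -/
theorem straight_hit (hS : S_STRB) {d : ℤ} (hd : Adm 3 d) {A : Set ℤ} (hA : Good A)
    {α : ℝ} (h1 : 1 / Real.log 2 < α) (h2 : α < 2 / Real.log (4 / 3)) {ε : ℝ} (hε : 0 < ε) :
    ∃ κ : ℝ, 0 < κ ∧ ∃ X₀ : ℝ, ∀ x : ℝ, X₀ ≤ x →
      ((Be d A α ε x).ncard : ℝ) ≤ x ^ (-κ) * ((Ct d A α x).ncard : ℝ) := by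
  obtain ⟨c, hc, hc'⟩ := bdd hA.1
  obtain ⟨κ₁, hκ₁, X₁, hX₁, g1⟩ := bent_pos hS hd hc h1 h2 hε
  obtain ⟨κ₂, hκ₂, X₂, hX₂, g2⟩ := bent_pos hS (adm_neg' hd) hc' h1 h2 hε
  set κ₀ : ℝ := min κ₁ κ₂ with hκ₀
  have hκ0 : 0 < κ₀ := lt_min hκ₁ hκ₂
  obtain ⟨X₃, g3⟩ := ct_lower ucb_main hd hA h1 h2.le (show 0 < κ₀ / 4 by positivity)
  have hexe : 1 - α * rate (1 / α) = ex 3 α := by
    rw [UN.ex_three, expo_eq h1]
  rw [hexe] at g3
  refine ⟨κ₀ / 2, by positivity, max (max X₁ X₂) (max X₃ (Real.exp (4 * Real.log 2 / κ₀))),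
    fun x hx => ?_⟩
  have hx1 : X₁ ≤ x := ((le_max_left _ _).trans (le_max_left _ _)).trans hx
  have hx2 : X₂ ≤ x := ((le_max_right _ _).trans (le_max_left _ _)).trans hx
  have hx3 : X₃ ≤ x := ((le_max_left _ _).trans (le_max_right _ _)).trans hx
  have hx4 : Real.exp (4 * Real.log 2 / κ₀) ≤ x :=
    ((le_max_right _ _).trans (le_max_right _ _)).trans hx
  have hx0 : 0 < x := by linarith
  have hxx1 : 1 ≤ x := by linarith
  have hL : 4 * Real.log 2 / κ₀ ≤ Real.log x := by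
    rw [Real.le_log_iff_exp_le hx0]
    exact hx4
  rw [div_le_iff₀ hκ0] at hL
  classical
  have hfin := be_fin d A α ε x
  obtain ⟨S, hS'⟩ : ∃ S : Finset ℤ, S = hfin.toFinset := ⟨_, rfl⟩
  have hmem : ∀ n, n ∈ S ↔ n ∈ Be d A α ε x := fun n => by rw [hS', Set.Finite.mem_toFinset]
  rw [Set.ncard_eq_toFinset_card _ hfin, ← hS']
  have hsplit : S.card ≤ (S.filter fun n => 0 < n).card +
      ((S.filter fun n => n < 0).image fun n => -n).card := by
    rw [card_image_of_injective _ neg_injective, ← card_union_of_disjoint]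
    · refine card_le_card fun n hn => ?_
      rw [mem_union, mem_filter, mem_filter]
      have h5 := ((hmem n).1 hn).1
      rcases lt_or_gt_of_ne h5 with h | h
      · exact Or.inr ⟨hn, h⟩
      · exact Or.inl ⟨hn, h⟩
    · rw [disjoint_left]
      intro n h5 h6
      have := (mem_filter.1 h5).2
      have := (mem_filter.1 h6).2
      omega
  have k1 := g1 x hx1 (S.filter fun n => 0 < n) (by
    intro n hn
    obtain ⟨h5, h6⟩ := mem_filter.1 hn
    obtain ⟨h7, h8, k, h9, h10, j, h11, h12⟩ := (hmem n).1 h5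
    have hn0 : (0 : ℝ) < n := by exact_mod_cast h6
    rw [abs_of_pos hn0] at h8 h10 h12
    refine ⟨by omega, h8, k, h9, h10, j, h11, ?_⟩
    rwa [Real.log_abs] at h12)
  have k2 := g2 x hx2 ((S.filter fun n => n < 0).image fun n => -n) (by
    intro m hm
    obtain ⟨n, hn, rfl⟩ := mem_image.1 hm
    obtain ⟨h5, h6⟩ := mem_filter.1 hn
    obtain ⟨h7, h8, k, h9, h10, j, h11, h12⟩ := (hmem n).1 h5
    have hn0 : (n : ℝ) < 0 := by exact_mod_cast h6
    rw [abs_of_neg hn0] at h8 h10 h12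
    refine ⟨by omega, by push_cast; exact h8, k, (HA_neg hd.2.1).2 h9, by push_cast; exact h10, j,
      h11, ?_⟩
    rw [iter_negg hd.2.1]
    rw [Real.log_abs] at h12
    push_cast
    rw [Real.log_neg_eq_log]
    exact h12)
  have k3 := g3 x hx3
  have k4 : x ^ (ex 3 α - κ₁) ≤ x ^ (ex 3 α - κ₀) :=
    Real.rpow_le_rpow_of_exponent_le hxx1 (by linarith [min_le_left κ₁ κ₂])
  have k5 : x ^ (ex 3 α - κ₂) ≤ x ^ (ex 3 α - κ₀) :=
    Real.rpow_le_rpow_of_exponent_le hxx1 (by linarith [min_le_right κ₁ κ₂])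
  have k6 : (S.card : ℝ) ≤ 2 * x ^ (ex 3 α - κ₀) := by
    have h5 : (S.card : ℝ) ≤ ((S.filter fun n => 0 < n).card : ℝ) +
        (((S.filter fun n => n < 0).image fun n => -n).card : ℝ) := by exact_mod_cast hsplit
    linarith
  refine k6.trans ?_
  have k7 : 2 * x ^ (ex 3 α - κ₀) ≤ x ^ (-(κ₀ / 2)) * x ^ (ex 3 α - κ₀ / 4) := by
    have e : (2 : ℝ) = Real.exp (Real.log 2) := (Real.exp_log (by norm_num)).symm
    nth_rewrite 1 [e]
    rw [← Real.rpow_add hx0, Real.rpow_def_of_pos hx0, Real.rpow_def_of_pos hx0, ← Real.exp_add]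
    apply Real.exp_le_exp.2
    linarith
  exact k7.trans (mul_le_mul_of_nonneg_left k3 (by positivity))

end P6

end Pool.Agent.N685.FD
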