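import Pool.Agent.N685.FD.Stm7

/-!
PROJECT FD (helper685), part 10: the predecessor tree of EVERY integer `b` prime to `p`, at path level,
uniformly in `b`.
-/

set_option autoImplicit false

namespace Pool.Agent.N685.FD

open Finset

/-- the `n` whose trajectory reaches `b` at a time close to `dur L * X` and follows the profile of `L`
(from the height `fal L` down to `0`, relative to `log b`) until then -/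
def TubB (p : ℕ) (d : ℤ) (L : List (ℝ × ℝ)) (δ X : ℝ) (b : ℤ) : Set ℤ :=
  {n : ℤ | ∃ K : ℕ, |(K : ℝ) - dur L * X| ≤ δ * X ∧ (T p d)^[K] n = b ∧
    ∀ j : ℕ, j ≤ K → 1 ≤ (T p d)^[j] n ∧
      |Real.log ((T p d)^[j] n : ℤ) - Real.log b - pro L (fal L) (j / X) * X| ≤ δ * X}

/-- trajectories which consist of straight pieces as prescribed by the list, with tolerance `δ`, followed
by halvings only, down to `b` -/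
def FolB (p : ℕ) (d : ℤ) (δ X : ℝ) : List (ℝ × ℝ) → ℤ → ℤ → Prop
  | [], b, n => ∃ i : ℕ, (i : ℝ) ≤ δ * X ∧ n = 2 ^ i * b
  | q :: L, b, n => ∃ k : ℕ, q.2 * X ≤ k ∧ (k : ℝ) ≤ (q.2 + δ) * X ∧ Sp p d q.1 (δ * X) k n ∧
      FolB p d δ X L b ((T p d)^[k] n)

/-- FBL: lower bound for the number of the `n` which follow the list down to `b`, for every `b ≥ 1` prime
to `p` -/
def S_FBL : Prop := ∀ (p : ℕ) (d : ℤ), Adm p d → ∀ L : List (ℝ × ℝ),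
  (∀ q ∈ L, 0 < q.1 ∧ q.1 < Real.log 2 ∧ 0 < q.2 ∧ 0 < Fp p (fr p q.1)) →
  ∀ δ : ℝ, 0 < δ → ∀ ε : ℝ, 0 < ε →
    ∃ X₀ : ℝ, ∀ X : ℝ, X₀ ≤ X → ∀ b : ℤ, 1 ≤ b → ¬ (p : ℤ) ∣ b →
      ∃ F : Finset ℤ, (∀ n ∈ F, FolB p d δ X L b n) ∧ Real.exp ((gr p L - ε) * X) ≤ (F.card : ℝ)

/-- FBT: who follows the list down to `b` is in the tube -/
def S_FBT : Prop := ∀ (p : ℕ) (d : ℤ), Adm p d → ∀ L : List (ℝ × ℝ),
  (∀ q ∈ L, 0 < q.1 ∧ q.1 < Real.log 2 ∧ 0 < q.2) → ∀ δ : ℝ, 0 < δ →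
    ∃ δ' : ℝ, 0 < δ' ∧ ∃ X₀ : ℝ, 0 < X₀ ∧ ∀ X : ℝ, X₀ ≤ X → ∀ b n : ℤ, 1 ≤ b →
      FolB p d δ' X L b n → n ∈ TubB p d L δ X b

/-- TBU: upper bound for the tubes down to `b`, for every `b ≥ 1` -/
def S_TBU : Prop := ∀ (p : ℕ) (d : ℤ), Adm p d → ∀ L : List (ℝ × ℝ),
  (∀ q ∈ L, 0 < q.1 ∧ q.1 < Real.log 2 ∧ 0 < q.2 ∧
    ∀ ε : ℝ, 0 < ε → ∃ z : ℝ, Q p z ∧ php p (fr p q.1) z ≤ Fp p (fr p q.1) + ε) →
  ∀ ε : ℝ, 0 < ε → ∃ δ₀ : ℝ, 0 < δ₀ ∧ ∀ δ : ℝ, 0 < δ → δ ≤ δ₀ →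
    ∃ X₀ : ℝ, ∀ X : ℝ, X₀ ≤ X → ∀ b : ℤ, 1 ≤ b → ∀ F : Finset ℤ,
      (∀ n ∈ F, n ∈ TubB p d L δ X b) → (F.card : ℝ) ≤ Real.exp ((gr p L + ε) * X)

end Pool.Agent.N685.FD
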