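import Pool.Agent.N685.FD.P3
import Pool.Agent.N685.FD.Stm10

/-! Project FD: the predecessor tree of every integer at path level, for the `3x+1` map on the natural
numbers. -/

set_option autoImplicit false
set_option linter.unusedVariables false

namespace Pool.Agent.N685.FD

open Finset Filter Topology Pool.Agent.H395R2.G3 Pool.Agent.Y966.LD

namespace P7

open P3

/-- the tube down to `b` -/
def TS (L : List (ℝ × ℝ)) (δ X : ℝ) (b : ℕ) : Set ℕ :=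
  {n : ℕ | 1 ≤ n ∧ ∃ K : ℕ, |(K : ℝ) - dur L * X| ≤ δ * X ∧ S^[K] n = b ∧
    ∀ j : ℕ, j ≤ K →
      |Real.log (S^[j] n : ℕ) - Real.log b - pro L (fal L) (j / X) * X| ≤ δ * X}

theorem mem_iff {L : List (ℝ × ℝ)} {δ X : ℝ} {b n : ℕ} (hn : 1 ≤ n) :
    (n : ℤ) ∈ TubB 3 1 L δ X b ↔ n ∈ TS L δ X b := by
  unfold TubB TS
  constructor
  · rintro ⟨K, h1, h2, h3⟩
    refine ⟨hn, K, h1, ?_, fun j hj => ?_⟩
    · rw [S_iter] at h2
      exact_mod_cast h2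
    · have h4 := (h3 j hj).2
      rw [S_iter] at h4
      exact_mod_cast h4
  · rintro ⟨-, K, h1, h2, h3⟩
    refine ⟨K, h1, ?_, fun j hj => ?_⟩
    · rw [S_iter, h2]
    · rw [S_iter]
      refine ⟨by exact_mod_cast S_iter_pos hn j, ?_⟩
      exact_mod_cast h3 j hj

theorem pos_of {L : List (ℝ × ℝ)} {δ X : ℝ} {b : ℕ} {n : ℤ} (h : n ∈ TubB 3 1 L δ X b) : 1 ≤ n := by
  obtain ⟨K, -, -, h3⟩ := h
  exact (h3 0 (Nat.zero_le _)).1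

theorem ts_finite (L : List (ℝ × ℝ)) (δ X : ℝ) (b : ℕ) : (TS L δ X b).Finite := by
  refine (Set.finite_Iic ⌈Real.exp (Real.log b + pro L (fal L) 0 * X + δ * X)⌉₊).subset ?_
  rintro n ⟨h1, K, -, -, h2⟩
  have h3 := h2 0 (Nat.zero_le _)
  simp only [Function.iterate_zero, id_eq, Nat.cast_zero, zero_div] at h3
  have h4 := (abs_le.1 h3).2
  have hn0 : (0 : ℝ) < n := by exact_mod_cast h1
  have h5 : (n : ℝ) ≤ Real.exp (Real.log b + pro L (fal L) 0 * X + δ * X) := by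
    rw [← Real.exp_log hn0]
    exact Real.exp_le_exp.2 (by linarith)
  exact_mod_cast h5.trans (Nat.le_ceil _)

theorem lower (hL1 : S_FBL) (hL2 : S_FBT) {L : List (ℝ × ℝ)}
    (hL : ∀ q ∈ L, 0 < q.1 ∧ q.1 < Real.log 2 ∧ 0 < q.2 ∧ 0 < q.1 - rate q.1)
    {δ : ℝ} (hδ : 0 < δ) {ε : ℝ} (hε : 0 < ε) : ∃ X₀ : ℝ, ∀ X : ℝ, X₀ ≤ X → ∀ b : ℕ, 1 ≤ b →
    ¬ 3 ∣ b → Real.exp ((fal L - (L.map fun q => q.2 * rate q.1).sum - ε) * X) ≤
      ((TS L δ X b).ncard : ℝ) := by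
  obtain ⟨δ', hδ', X₁, hX₁, h1⟩ := hL2 3 1 adm1 L
    (fun q hq => ⟨(hL q hq).1, (hL q hq).2.1, (hL q hq).2.2.1⟩) δ hδ
  obtain ⟨X₀, h2⟩ := hL1 3 1 adm1 L (fun q hq => by
    obtain ⟨h1, h2, h3, h4⟩ := hL q hq
    exact ⟨h1, h2, h3, by rw [D3.Fp_three, FF_fr h1 h2]; exact h4⟩) δ' hδ' ε hε
  refine ⟨max X₀ X₁, fun X hX b hb hb3 => ?_⟩
  have hX0 : X₀ ≤ X := (le_max_left _ _).trans hX
  have hX1 : X₁ ≤ X := (le_max_right _ _).trans hX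
  have hbZ : (1 : ℤ) ≤ (b : ℤ) := by exact_mod_cast hb
  obtain ⟨F, h3, h4⟩ := h2 X hX0 b hbZ (by exact_mod_cast hb3)
  rw [gr_eq L fun q hq => ⟨(hL q hq).1, (hL q hq).2.1⟩] at h4
  refine h4.trans ?_
  rw [← Set.ncard_coe_finset]
  have hmem : ∀ n ∈ F, n ∈ TubB 3 1 L δ X b := fun n hn => h1 X hX1 b n hbZ (h3 n hn)
  refine (Nat.cast_le (α := ℝ)).2 (Set.ncard_le_ncard_of_injOn (fun n : ℤ => n.toNat) ?_ ?_
    (ts_finite L δ X b))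
  · intro n hn
    have h5 := hmem n hn
    have h6 := pos_of h5
    have h7 : ((n.toNat : ℕ) : ℤ) = n := Int.toNat_of_nonneg (by omega)
    refine (mem_iff (by omega)).1 ?_
    rw [h7]
    exact h5
  · intro n hn m hm hnm
    have h5 := pos_of (hmem n hn)
    have h6 := pos_of (hmem m hm)
    simp only at hnm
    omega

theorem upper (hU : S_TBU) {L : List (ℝ × ℝ)}
    (hL : ∀ q ∈ L, Real.log (4 / 3) / 2 ≤ q.1 ∧ q.1 < Real.log 2 ∧ 0 < q.2)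
    {ε : ℝ} (hε : 0 < ε) : ∃ δ₀ : ℝ, 0 < δ₀ ∧ ∀ δ : ℝ, 0 < δ → δ ≤ δ₀ →
    ∃ X₀ : ℝ, ∀ X : ℝ, X₀ ≤ X → ∀ b : ℕ, 1 ≤ b → ((TS L δ X b).ncard : ℝ) ≤
      Real.exp ((fal L - (L.map fun q => q.2 * rate q.1).sum + ε) * X) := by
  have hpos : ∀ q ∈ L, 0 < q.1 := fun q hq => lt_of_lt_of_le log43_pos (hL q hq).1
  obtain ⟨δ₀, hδ₀, h⟩ := hU 3 1 adm1 L (fun q hq => by
    obtain ⟨h1, h2, h3⟩ := hL q hq
    refine ⟨hpos q hq, h2, h3, fun ε' hε' => ?_⟩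
    obtain ⟨z, hz0, hz1, hz2, -⟩ := FT.exists_z (fr_pos h2) (fr_half h1) hε'
    exact ⟨z, q_three hz0 hz1, by rw [D3.php_three, D3.Fp_three]; exact hz2⟩) ε hε
  refine ⟨δ₀, hδ₀, fun δ hδ hδ1 => ?_⟩
  obtain ⟨X₀, h2⟩ := h δ hδ hδ1
  refine ⟨X₀, fun X hX b hb => ?_⟩
  have hfin := ts_finite L δ X b
  classical
  have h3 := h2 X hX b (by exact_mod_cast hb) (hfin.toFinset.image fun n : ℕ => (n : ℤ)) (by
    intro n hn
    obtain ⟨m, hm, rfl⟩ := mem_image.1 hn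
    have h4 := hfin.mem_toFinset.1 hm
    exact (mem_iff h4.1).2 h4)
  rw [card_image_of_injective _ Nat.cast_injective, ← Set.ncard_eq_toFinset_card _ hfin,
    gr_eq L fun q hq => ⟨hpos q hq, (hL q hq).2.1⟩] at h3
  exact h3

end P7

end Pool.Agent.N685.FD
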