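import Pool.Agent.N685.FD.DG
import Pool.Agent.N685.FD.Stm10

/-! Project FD: the predecessor tree of every integer at path level, for the maps `p x + d` on the
integers of both signs. -/

set_option autoImplicit false
set_option linter.unusedVariables false

namespace Pool.Agent.N685.FD

open Finset Filter Topology

namespace P8

open UN

/-- the tube down to `c`, on the side `s` -/
def PS (p : ℕ) (d s : ℤ) (L : List (ℝ × ℝ)) (δ X : ℝ) (c : ℤ) : Set ℤ :=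
  {n : ℤ | ∃ K : ℕ, |(K : ℝ) - dur L * X| ≤ δ * X ∧ (T p d)^[K] n = c ∧
    ∀ j : ℕ, j ≤ K → 0 < s * (T p d)^[j] n ∧
      |Real.log |(((T p d)^[j] n : ℤ) : ℝ)| - Real.log |(c : ℝ)| - pro L (fal L) (j / X) * X| ≤ δ * X}

theorem log_sg {s : ℤ} (hs : Sg s) (y : ℤ) : Real.log ((s * y : ℤ) : ℝ) = Real.log |(y : ℝ)| := by
  rw [Real.log_abs]
  rcases hs with rfl | rfl
  · rw [one_mul]
  · push_cast
    rw [neg_one_mul, Real.log_neg_eq_log]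

theorem mem_iff {p : ℕ} {d s : ℤ} (hA : Adm p d) (hs : Sg s) {L : List (ℝ × ℝ)} {δ X : ℝ} {c n : ℤ} :
    s * n ∈ TubB p (s * d) L δ X (s * c) ↔ n ∈ PS p d s L δ X c := by
  unfold TubB PS
  simp only [Set.mem_setOf_eq, iter_sg hA hs, log_sg hs]
  refine exists_congr fun K => and_congr_right fun _ => and_congr ?_ ?_
  · exact (sg_inj hs).eq_iff
  · refine forall_congr' fun j => imp_congr_right fun _ => and_congr_left fun _ => ?_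
    omega

theorem bound {p : ℕ} {d s : ℤ} {L : List (ℝ × ℝ)} {δ X : ℝ} {c : ℤ} :
    ∀ n ∈ PS p d s L δ X c,
      |(n : ℝ)| ≤ Real.exp (Real.log |(c : ℝ)| + pro L (fal L) 0 * X + δ * X) := by
  rintro n ⟨K, -, -, h2⟩
  have h3 := h2 0 (Nat.zero_le _)
  simp only [Function.iterate_zero, id_eq, Nat.cast_zero, zero_div] at h3
  obtain ⟨h4, h5⟩ := h3
  have hn : n ≠ 0 := by
    rintro rfl
    simp at h4
  have hn0 : (0 : ℝ) < |(n : ℝ)| := abs_pos.2 (by exact_mod_cast hn)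
  have h6 := (abs_le.1 h5).2
  rw [← Real.exp_log hn0]
  exact Real.exp_le_exp.2 (by linarith)

theorem finite {p : ℕ} {d s : ℤ} {L : List (ℝ × ℝ)} {δ X : ℝ} {c : ℤ} : (PS p d s L δ X c).Finite :=
  fin_of bound

theorem lower (hL1 : S_FBL) (hL2 : S_FBT) {p : ℕ} {d s : ℤ} (hA : Adm p d) (hs : Sg s)
    {L : List (ℝ × ℝ)} (hL : ∀ q ∈ L, 0 < q.1 ∧ q.1 < Real.log 2 ∧ 0 < q.2 ∧ 0 < Fp p (fr p q.1))
    {δ : ℝ} (hδ : 0 < δ) {ε : ℝ} (hε : 0 < ε) : ∃ X₀ : ℝ, ∀ X : ℝ, X₀ ≤ X → ∀ c : ℤ, 0 < s * c →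
    ¬ (p : ℤ) ∣ c → Real.exp ((gr p L - ε) * X) ≤ ((PS p d s L δ X c).ncard : ℝ) := by
  obtain ⟨δ', hδ', X₁, hX₁, h1⟩ := hL2 p (s * d) (adm_sg hA hs) L
    (fun q hq => ⟨(hL q hq).1, (hL q hq).2.1, (hL q hq).2.2.1⟩) δ hδ
  obtain ⟨X₀, h2⟩ := hL1 p (s * d) (adm_sg hA hs) L hL δ' hδ' ε hε
  refine ⟨max X₀ X₁, fun X hX c hc hcp => ?_⟩
  have hX0 : X₀ ≤ X := (le_max_left _ _).trans hX
  have hX1 : X₁ ≤ X := (le_max_right _ _).trans hX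
  have hc1 : 1 ≤ s * c := by omega
  have hcp' : ¬ (p : ℤ) ∣ s * c := by
    rcases hs with rfl | rfl
    · rwa [one_mul]
    · rw [neg_one_mul, Int.dvd_neg]
      exact hcp
  obtain ⟨F, h3, h4⟩ := h2 X hX0 (s * c) hc1 hcp'
  refine lo_of hs bound F ?_ h4
  intro n hn
  refine (mem_iff hA hs).1 ?_
  rw [sg_sq hs]
  exact h1 X hX1 (s * c) n hc1 (h3 n hn)

theorem upper (hU : S_TBU) {p : ℕ} {d s : ℤ} (hA : Adm p d) (hs : Sg s)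
    {L : List (ℝ × ℝ)} (hL : ∀ q ∈ L, 0 < q.1 ∧ q.1 < Real.log 2 ∧ 0 < q.2 ∧
      ∀ ε : ℝ, 0 < ε → ∃ z : ℝ, Q p z ∧ php p (fr p q.1) z ≤ Fp p (fr p q.1) + ε)
    {ε : ℝ} (hε : 0 < ε) : ∃ δ₀ : ℝ, 0 < δ₀ ∧ ∀ δ : ℝ, 0 < δ → δ ≤ δ₀ →
    ∃ X₀ : ℝ, ∀ X : ℝ, X₀ ≤ X → ∀ c : ℤ, 0 < s * c → ((PS p d s L δ X c).ncard : ℝ) ≤
      Real.exp ((gr p L + ε) * X) := by
  obtain ⟨δ₀, hδ₀, h⟩ := hU p (s * d) (adm_sg hA hs) L hL ε hε
  refine ⟨δ₀, hδ₀, fun δ hδ hδ1 => ?_⟩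
  obtain ⟨X₀, h2⟩ := h δ hδ hδ1
  refine ⟨X₀, fun X hX c hc => ?_⟩
  exact up_of hs bound _ (fun n hn => (mem_iff hA hs).2 hn)
    (fun F hF => h2 X hX (s * c) (by omega) F hF)

/-! ### `p = 5` -/

open Five

theorem fr_five {a : ℝ} (ha : 0 < a) : fr 5 a = rp 5 (1 / a) := by
  unfold fr rp
  rw [one_div_one_div]

theorem tight5 {η : ℝ} (h : IsEta η) {a : ℝ} (h1 : 1 / kap η ≤ a) (h2 : a < Real.log 2)
    {ε : ℝ} (hε : 0 < ε) : ∃ z : ℝ, Q 5 z ∧ php 5 (fr 5 a) z ≤ Fp 5 (fr 5 a) + ε := by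
  have hk := kap_pos h
  have ha : 0 < a := lt_of_lt_of_le (by positivity) h1
  have h3 : 1 / Real.log 2 < 1 / a := one_div_lt_one_div_of_lt ha h2
  have h4 : 1 / a ≤ kap η := by
    rw [div_le_iff₀ ha]
    rw [div_le_iff₀ hk] at h1
    linarith
  obtain ⟨z, hz, hz1⟩ := tight_low h h3 h4 (ε * (1 / a)) (by positivity)
  refine ⟨z, hz, ?_⟩
  rw [fr_five ha]
  unfold ex at hz1
  have h5 : 0 < 1 / a := by positivity
  have h6 : 1 / a * php 5 (rp 5 (1 / a)) z ≤ 1 / a * (Fp 5 (rp 5 (1 / a)) + ε) := by linarith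
  exact le_of_mul_le_mul_left h6 h5

end P8

end Pool.Agent.N685.FD
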