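import Pool.Agent.N685.FD.Stm
import Pool.Agent.N685.WB.Stm

/-! Project FD: the sup law for the truncated weights from the project WB. -/

set_option autoImplicit false
set_option linter.unusedVariables false

namespace Pool.Agent.N685.FD

open Finset Pool.Agent.H320R2.PD Pool.Agent.H377R2.NK

namespace SGx

theorem adm_pos {p : ℕ} {d : ℤ} (h : Adm p d) : 0 < p := by
  rcases h.1 with rfl | rfl <;> norm_num

theorem adm_prime {p : ℕ} {d : ℤ} (h : Adm p d) : p.Prime := by
  rcases h.1 with rfl | rfl <;> norm_num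

theorem sg_tt_pos {p : ℕ} (hp : 0 < p) {z : ℝ} (h0 : 0 < z) (h1 : z < 1) : 0 < tt p z := by
  unfold tt
  have : 0 < 1 - z := by linarith
  have hp' : (0 : ℝ) < p := by exact_mod_cast hp
  positivity

theorem sg_wt_pos {p : ℕ} (hp : 0 < p) {z : ℝ} (h0 : 0 < z) (h1 : z < 1) (w : List ℕ) :
    0 < wt p z w := by
  have := sg_tt_pos hp h0 h1
  unfold wt
  positivity

theorem sg_sum_FW_wt {p : ℕ} (hp : 0 < p) {z : ℝ} (h0 : 0 < z) (h1 : z < 1) (A n : ℕ) :
    ∑ w ∈ FW A n, wt p z w ≤ (p : ℝ) ^ n := by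
  have ht := sg_tt_pos hp h0 h1
  have e1 : ∀ A : ℕ, ∑ e ∈ Icc 1 A, z ^ e ≤ z / (1 - z) := fun A => sum_Icc_pow_le A h0.le h1
  have e2 : ∑ w ∈ FW A n, wt p z w = (tt p z * ∑ e ∈ Icc 1 A, z ^ e) ^ n := by
    rw [mul_pow, ← Pool.Agent.H320R2.PD.sum_pow, mul_sum]
    refine sum_congr rfl fun w hw => ?_
    unfold wt
    rw [(mem_FW.1 hw).1]
  rw [e2]
  have h3 : 0 ≤ ∑ e ∈ Icc 1 A, z ^ e := sum_nonneg fun e _ => by positivity
  apply pow_le_pow_left₀ (by positivity)
  calc tt p z * ∑ e ∈ Icc 1 A, z ^ e ≤ tt p z * (z / (1 - z)) :=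
        mul_le_mul_of_nonneg_left (e1 A) ht.le
    _ = p := by
        unfold tt
        have : (1 - z) ≠ 0 := by linarith
        field_simp

/-- the weights of the blocks -/
noncomputable def sg_alph (p : ℕ) (hp : 0 < p) (z : ℝ) (h0 : 0 < z) (h1 : z < 1) (b : ℕ)
    (hb : 1 ≤ b) : WB.Alph p where
  b := b
  om := fun u => min 1 (wt p z u)
  th := tt p z
  z := z
  hb := hb
  hth := sg_tt_pos hp h0 h1
  hz := h0
  hz1 := h1
  pos := fun u => lt_min one_pos (sg_wt_pos hp h0 h1 u)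
  le1 := fun u => min_le_left _ _
  dom := fun u hu => by
    refine (min_le_right _ _).trans (le_of_eq ?_)
    unfold wt
    rw [hu]
  tot := fun A => by
    refine (sum_le_sum fun u _ => min_le_right _ _).trans ?_
    exact sg_sum_FW_wt hp h0 h1 A b

theorem sg_twn_eq {p : ℕ} (hp : 0 < p) {z : ℝ} (h0 : 0 < z) (h1 : z < 1) {b : ℕ} (hb : 1 ≤ b)
    (n : ℕ) (w : List ℕ) (hw : w.length = b * n) :
    twn p z b n w = WB.zwn (sg_alph p hp z h0 h1 b hb) n w := by
  induction n generalizing w with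
  | zero =>
    have : w = [] := List.length_eq_zero_iff.1 (by simpa using hw)
    subst this
    simp [twn, WB.zwn, wt]
  | succ n ih =>
    show min 1 (wt p z (w.take b)) * twn p z b n (w.drop b) =
      min 1 (wt p z (w.take b)) * WB.zwn (sg_alph p hp z h0 h1 b hb) n (w.drop b)
    rw [ih]
    rw [List.length_drop, hw, mul_add]
    omega

theorem sg_exists_cap (S : Finset (List ℕ)) : ∃ A : ℕ, ∀ w ∈ S, ∀ e ∈ w, e ≤ A := by
  classical
  refine ⟨S.sup List.sum, fun w hw e he => ?_⟩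
  exact (List.single_le_sum (fun _ _ => Nat.zero_le _) e he).trans
    (Finset.le_sup (f := List.sum) hw)

theorem st_spec {p : ℕ} {d : ℤ} {e : ℕ} {x : ℤ} (h : (p : ℤ) ∣ 2 ^ e * x - d) :
    (p : ℤ) * st p d e x + d = 2 ^ e * x := by
  unfold st
  rw [Int.mul_ediv_cancel' h]
  ring

theorem ok_pos {p : ℕ} {d : ℤ} {x : ℤ} {w : List ℕ} (h : ok p d x w) : ∀ e ∈ w, 1 ≤ e := by
  induction w generalizing x with
  | nil =>
    intro e he
    exact absurd he (List.not_mem_nil)
  | cons e w ih =>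
    intro f hf
    rcases List.mem_cons.1 hf with rfl | hf
    · exact h.1
    · exact ih h.2.2 f hf

/-- the endpoint of a valid word -/
theorem fin_spec {p : ℕ} {d : ℤ} {x : ℤ} {w : List ℕ} (h : ok p d x w) :
    (p : ℤ) ^ w.length * fin p d x w = 2 ^ w.sum * x - d * (Wp p w : ℤ) := by
  induction w generalizing x with
  | nil => simp [fin, Wp]
  | cons e w ih =>
    have h1 := ih h.2.2
    have h2 := st_spec h.2.1
    show (p : ℤ) ^ (e :: w).length * fin p d (st p d e x) w = _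
    rw [List.length_cons, List.sum_cons, Wp, pow_succ, pow_add]
    push_cast
    linear_combination (p : ℤ) * h1 + 2 ^ w.sum * h2

end SGx

open SGx in
theorem t_G (hU : Pool.Agent.N685.WB.S_UP) : S_G := by
  intro p d hA z h0 h1 b hb ε hε
  have hp := adm_pos hA
  obtain ⟨C, hC, hbd⟩ := hU p hA.1 (sg_alph p hp z h0 h1 b hb) ε hε
  refine ⟨C, hC, fun n x S hS => ?_⟩
  obtain ⟨A, hcap⟩ := sg_exists_cap S
  -- the inverse of `d`
  have hcop : IsCoprime d ((p : ℤ) ^ (b * n)) := by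
    refine IsCoprime.pow_right ?_
    have hpr : Prime (p : ℤ) := Nat.prime_iff_prime_int.1 (adm_prime hA)
    exact (hpr.coprime_iff_not_dvd.2 hA.2.2).symm
  obtain ⟨u, v, huv⟩ := hcop
  refine le_trans ?_ (hbd A n (u * x))
  unfold WB.DB
  have hsub : S ⊆ VW p A ((sg_alph p hp z h0 h1 b hb).b * n) (u * x) := by
    intro w hw
    have h2 := (hS w hw).2
    have hl : w.length = b * n := (hS w hw).1
    rw [mem_VW]
    refine ⟨hl, fun e he => ⟨ok_pos h2 e he, hcap w hw e he⟩, ?_⟩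
    have h3 := fin_spec h2
    rw [hl] at h3
    have h4 : (p : ℤ) ^ (b * n) ∣ d * (2 ^ w.sum * (u * x) - (Wp p w : ℤ)) := by
      refine ⟨fin p d x w - 2 ^ w.sum * v * x, ?_⟩
      linear_combination -h3 + 2 ^ w.sum * x * huv
    have hcop2 : IsCoprime ((p : ℤ) ^ (b * n)) d := ⟨v, u, by linarith⟩
    exact_mod_cast hcop2.dvd_of_dvd_mul_left h4
  refine le_trans (le_of_eq ?_) (sum_le_sum_of_subset_of_nonneg hsub
    (fun w _ _ => WB.zw_nonneg w))
  refine sum_congr rfl fun w hw => ?_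
  rw [sg_twn_eq hp h0 h1 hb n w (hS w hw).1]
  exact (WB.zw_of_length (W := sg_alph p hp z h0 h1 b hb) (hS w hw).1).symm

end Pool.Agent.N685.FD
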