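import Pool.Agent.H377R2.NK.Basic

/-!
PROJECT FD (helper685): the large deviation law for the fast trajectories of the maps `p x + d`,
`p ∈ {3, 5}`, `d` odd and prime to `p` (the project FT is the case `p = 3`, `d = 1`).  Definitions and
statements of the combinatorial part.

Words are lists of letters `e ≥ 1`; a letter leads from `x` to `y` with `p y + d = 2 ^ e x`.  A word of
weight `wt p z w = tt p z ^ length * z ^ sum`, where `∑_{e ≥ 1} tt p z * z ^ e = p`.  The aim is `S_GEN`: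
for `z` with `Q p z` there is `c₀` such that, for `c ≥ c₀`, the total weight of the words of length `N`
from `a ≥ 1` whose points are all larger than `a` and than `c` is at most `C exp (ε N)`, uniformly in `a`.
-/

set_option autoImplicit false

namespace Pool.Agent.N685.FD

open Finset

/-- the admissible parameters -/
def Adm (p : ℕ) (d : ℤ) : Prop := (p = 3 ∨ p = 5) ∧ ¬ (2 : ℤ) ∣ d ∧ ¬ (p : ℤ) ∣ d

/-- one letter: from `x` to `y` with `p y + d = 2 ^ e x` -/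
def st (p : ℕ) (d : ℤ) (e : ℕ) (x : ℤ) : ℤ := (2 ^ e * x - d) / p

/-- the word is valid at `x`, with letters `≥ 1` -/
def ok (p : ℕ) (d : ℤ) : ℤ → List ℕ → Prop
  | _, [] => True
  | x, e :: w => 1 ≤ e ∧ (p : ℤ) ∣ 2 ^ e * x - d ∧ ok p d (st p d e x) w

/-- the endpoint of the word from `x` -/
def fin (p : ℕ) (d : ℤ) : ℤ → List ℕ → ℤ
  | x, [] => x
  | x, e :: w => fin p d (st p d e x) w

/-- all points of the path from `x`, after the start, are larger than `c` -/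
def above (p : ℕ) (d : ℤ) (c : ℤ) : ℤ → List ℕ → Prop
  | _, [] => True
  | x, e :: w => c < st p d e x ∧ above p d c (st p d e x) w

/-- `∑_{e ≥ 1} tt p z * z ^ e = p` -/
noncomputable def tt (p : ℕ) (z : ℝ) : ℝ := p * (1 - z) / z

/-- the weight of a word -/
noncomputable def wt (p : ℕ) (z : ℝ) (w : List ℕ) : ℝ := tt p z ^ w.length * z ^ w.sum

/-- the truncated weight: the weights of the first `n` blocks of `b` letters are replaced by their
minimum with `1`; the weight of the rest is not changed -/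
noncomputable def twn (p : ℕ) (z : ℝ) (b : ℕ) : ℕ → List ℕ → ℝ
  | 0, w => wt p z w
  | n + 1, w => min 1 (wt p z (w.take b)) * twn p z b n (w.drop b)

/-- the truncated weight, for all the complete blocks -/
noncomputable def tw (p : ℕ) (z : ℝ) (b : ℕ) (w : List ℕ) : ℝ := twn p z b (w.length / b) w

open scoped Classical in
/-- the number of the blocks of weight larger than `1` among the first `n` blocks of `b` letters -/
noncomputable def nbn (p : ℕ) (z : ℝ) (b : ℕ) : ℕ → List ℕ → ℕ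
  | 0, _ => 0
  | n + 1, w => (if 1 < wt p z (w.take b) then 1 else 0) + nbn p z b n (w.drop b)

/-- the number of the complete blocks of `b` letters of weight larger than `1` -/
noncomputable def nb (p : ℕ) (z : ℝ) (b : ℕ) (w : List ℕ) : ℕ := nbn p z b (w.length / b) w

/-- a piece from `a`: the endpoint is larger than `a` and than `c`, and it is the smallest point
after `a` -/
def Piece (p : ℕ) (d c : ℤ) (a : ℤ) (w : List ℕ) : Prop :=
  w ≠ [] ∧ ok p d a w ∧ a < fin p d a w ∧ c < fin p d a w ∧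
    ∀ i, 0 < i → i ≤ w.length → fin p d a w ≤ fin p d a (w.take i)

/-- consecutive pieces from `a` -/
def Pieces (p : ℕ) (d c : ℤ) : ℤ → List (List ℕ) → Prop
  | _, [] => True
  | a, u :: P => Piece p d c a u ∧ Pieces p d c (fin p d a u) P

/-- total length of the pieces of length at least `lo` and smaller than `hi` -/
def mass (lo hi : ℕ) (P : List (List ℕ)) : ℕ :=
  ((P.map List.length).filter (fun l => lo ≤ l ∧ l < hi)).sum

/-- decomposition of a word from `x` into stretches (arbitrary valid words) and pieces of length at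
least `Λ`; the last argument is the number of the blocks of weight larger than `1` in the stretches -/
inductive Dec (p : ℕ) (d c : ℤ) (z : ℝ) (b Λ : ℕ) : ℤ → List ℕ → ℕ → Prop
  | stretch (x : ℤ) (w : List ℕ) : ok p d x w → Dec p d c z b Λ x w (nb p z b w)
  | cons (x : ℤ) (u v w : List ℕ) (β : ℕ) : ok p d x u → Λ ≤ v.length → 1 ≤ fin p d x u →
      Piece p d c (fin p d x u) v → Dec p d c z b Λ (fin p d x (u ++ v)) w β →
      Dec p d c z b Λ x (u ++ (v ++ w)) (nb p z b u + β)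

/-- the range of the parameter `z`: the weights of the pieces decrease exponentially -/
def Q (p : ℕ) (z : ℝ) : Prop :=
  0 < z ∧ z < 1 ∧ Real.log (tt p z) * Real.log 2 < Real.log p * Real.log (1 / z)

/-! ### Statements -/

/-- G: the sup law for the truncated weights (the analytic part of the project) -/
def S_G : Prop := ∀ (p : ℕ) (d : ℤ), Adm p d → ∀ z : ℝ, 0 < z → z < 1 → ∀ b : ℕ, 1 ≤ b →
  ∀ ε : ℝ, 0 < ε → ∃ C : ℝ, 0 < C ∧
    ∀ (n : ℕ) (x : ℤ) (S : Finset (List ℕ)), (∀ w ∈ S, w.length = b * n ∧ ok p d x w) →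
      ∑ w ∈ S, twn p z b n w ≤ C * Real.exp (ε * n)

/-- GS: the same for words of any length -/
def S_GS : Prop := ∀ (p : ℕ) (d : ℤ), Adm p d → ∀ z : ℝ, 0 < z → z < 1 → ∀ b : ℕ, 1 ≤ b →
  ∀ ε : ℝ, 0 < ε → ∃ C : ℝ, 0 < C ∧
    ∀ (m : ℕ) (x : ℤ) (S : Finset (List ℕ)), (∀ w ∈ S, w.length = m ∧ ok p d x w) →
      ∑ w ∈ S, tw p z b w ≤ C * Real.exp (ε * m)

/-- WT: the weight is at most the truncated weight times `p ^ b` for each heavy block -/
def S_WT : Prop := ∀ (p : ℕ), 1 ≤ p → ∀ z : ℝ, 0 < z → z < 1 → ∀ b : ℕ, 1 ≤ b → ∀ w : List ℕ,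
  (∀ e ∈ w, 1 ≤ e) → wt p z w ≤ tw p z b w * (p : ℝ) ^ (b * nb p z b w)

/-- PC: the number of the pieces from `a` of given length and sum -/
def S_PC : Prop := ∀ (p : ℕ) (d : ℤ), Adm p d → ∀ δ : ℝ, 0 < δ → ∃ c₀ : ℤ, 0 ≤ c₀ ∧
  ∃ K : ℝ, 0 < K ∧ ∀ (c a : ℤ) (l s : ℕ) (S : Finset (List ℕ)), c₀ ≤ c → 1 ≤ a → 1 ≤ l →
    (∀ w ∈ S, w.length = l ∧ w.sum = s ∧ Piece p d c a w) → (S.card : ℝ) ≤ K * Real.exp (δ * l)

/-- PW: the total weight of the pieces of length `l` from `a` -/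
def S_PW : Prop := ∀ (p : ℕ) (d : ℤ), Adm p d → ∀ z : ℝ, Q p z → ∃ c₀ : ℤ, 0 ≤ c₀ ∧
  ∃ κ C : ℝ, 0 < κ ∧ 0 < C ∧ ∀ (c a : ℤ) (l : ℕ) (S : Finset (List ℕ)), c₀ ≤ c → 1 ≤ a → 1 ≤ l →
    (∀ w ∈ S, w.length = l ∧ Piece p d c a w) → ∑ w ∈ S, wt p z w ≤ C * Real.exp (-(κ * l))

/-- REC: decomposition into pieces (at the records: the last times of the smallest values) -/
def S_REC : Prop := ∀ (p : ℕ) (d c a : ℤ) (w : List ℕ), ok p d a w → above p d a a w →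
  above p d c a w → ∃ P : List (List ℕ), P.flatten = w ∧ Pieces p d c a P

/-- BAD: the blocks of weight larger than one meet long pieces -/
def S_BAD : Prop := ∀ (p : ℕ) (d : ℤ), Adm p d → ∀ z : ℝ, Q p z → ∃ c₀ : ℤ, 0 ≤ c₀ ∧
  ∃ κ : ℝ, 0 < κ ∧ κ ≤ 1 ∧ ∀ (c a : ℤ) (b : ℕ) (P : List (List ℕ)), c₀ ≤ c → 1 ≤ b → 1 ≤ a →
    Pieces p d c a P →
    ((b * nb p z b P.flatten : ℕ) : ℝ) ≤ (1 + 1 / κ) * mass ⌈κ * b⌉₊ (P.flatten.length + 1) P

/-- DCM: decomposition into stretches and long pieces -/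
def S_DCM : Prop := ∀ (p : ℕ) (d : ℤ), Adm p d → ∀ z : ℝ, Q p z → ∃ c₀ : ℤ, 0 ≤ c₀ ∧
  ∃ κ : ℝ, 0 < κ ∧ κ ≤ 1 ∧ ∀ (c a : ℤ) (b Λ : ℕ) (P : List (List ℕ)), c₀ ≤ c → 1 ≤ b → 1 ≤ a →
    Pieces p d c a P →
    ∃ β : ℕ, Dec p d c z b Λ a P.flatten β ∧
      ((b * β : ℕ) : ℝ) ≤ (1 + 1 / κ) * mass ⌈κ * b⌉₊ Λ P

/-- REN: the renewal bound -/
def S_REN : Prop := ∀ (p : ℕ) (d : ℤ), Adm p d → ∀ z : ℝ, Q p z → ∃ c₀ : ℤ, 0 ≤ c₀ ∧
  ∀ c : ℤ, c₀ ≤ c → ∀ b : ℕ, 1 ≤ b → ∀ ε : ℝ, 0 < ε →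
    ∃ (C : ℝ) (Λ₀ : ℕ), 0 < C ∧ ∀ Λ : ℕ, Λ₀ ≤ Λ → ∀ (N : ℕ) (x : ℤ) (S : Finset (List ℕ))
      (β : List ℕ → ℕ), (∀ w ∈ S, w.length = N ∧ Dec p d c z b Λ x w (β w)) →
        ∑ w ∈ S, wt p z w / (p : ℝ) ^ (b * β w) ≤ C * Real.exp (ε * N)

/-- GEN: the main bound -/
def S_GEN : Prop := ∀ (p : ℕ) (d : ℤ), Adm p d → ∀ z : ℝ, Q p z → ∃ c₀ : ℤ, 0 ≤ c₀ ∧
  ∀ c : ℤ, c₀ ≤ c → ∀ ε : ℝ, 0 < ε → ∃ C : ℝ, 0 < C ∧
    ∀ (N : ℕ) (a : ℤ) (S : Finset (List ℕ)), 1 ≤ a →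
      (∀ w ∈ S, w.length = N ∧ ok p d a w ∧ above p d a a w ∧ above p d c a w) →
        ∑ w ∈ S, wt p z w ≤ C * Real.exp (ε * N)

end Pool.Agent.N685.FD
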