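import Pool.Agent.N685.FD.Stm

/-!
PROJECT FD (helper685): statements for the maps `T p d x = x / 2` (`x` even), `(p x + d) / 2` (`x` odd),
`p ∈ {3, 5}`, `d` odd and prime to `p`.  We consider the positive starting points (the negative ones are
the case of `-d`).
-/

set_option autoImplicit false

namespace Pool.Agent.N685.FD

open Finset

/-- the map `p x + d` -/
def T (p : ℕ) (d : ℤ) (x : ℤ) : ℤ := if x % 2 = 0 then x / 2 else (p * x + d) / 2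

/-- number of the odd terms among the first `k` terms of the trajectory -/
def oT (p : ℕ) (d : ℤ) (k : ℕ) (x : ℤ) : ℕ :=
  ((range k).filter fun i => (T p d)^[i] x % 2 = 1).card

/-- the numbers `n ≥ 1` whose trajectory enters `(-∞, c]` at the time `k`, after `o` odd steps -/
def LT (p : ℕ) (d c : ℤ) (k o : ℕ) : Set ℤ :=
  {n : ℤ | 1 ≤ n ∧ (∀ j < k, c < (T p d)^[j] n) ∧ (T p d)^[k] n ≤ c ∧ oT p d k n = o}

/-- `H(r) - r log p` -/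
noncomputable def Fp (p : ℕ) (r : ℝ) : ℝ := Real.binEntropy r - r * Real.log p

/-! ### Statements -/

/-- CODE: the word of a number whose trajectory is larger than `c` before the time `k` -/
def S_CODE : Prop := ∀ (p : ℕ) (d : ℤ), Adm p d → ∀ (c : ℤ) (k : ℕ) (n : ℤ),
  (∀ j < k, c < (T p d)^[j] n) →
    ∃ w : List ℕ, w.length = oT p d k n ∧ ok p d ((T p d)^[k] n) w ∧
      above p d c ((T p d)^[k] n) w ∧ w.sum ≤ k ∧
        n = 2 ^ (k - w.sum) * fin p d ((T p d)^[k] n) w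

/-- SZ: comparison of the endpoint with `2 ^ sum / p ^ length`, for the words whose points after the
start are larger than `c` -/
def S_SZ : Prop := ∀ (p : ℕ) (d : ℤ), Adm p d → ∀ η : ℝ, 0 < η → ∃ c₀ : ℤ, 1 ≤ c₀ ∧
  ∀ (c a : ℤ) (w : List ℕ), c₀ ≤ c → 1 ≤ a → ok p d a w → above p d c a w →
    |Real.log (fin p d a w) - (w.sum * Real.log 2 - w.length * Real.log p + Real.log a)| ≤
      η * w.length

/-- LV0: upper bound for the joint level sets, large `c` -/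
def S_LV0 : Prop := ∀ (p : ℕ) (d : ℤ), Adm p d → ∀ z : ℝ, Q p z → ∃ c₀ : ℤ, 1 ≤ c₀ ∧
  ∀ c : ℤ, c₀ ≤ c → ∀ ε : ℝ, 0 < ε → ∃ C : ℝ, 0 < C ∧ ∀ (k o : ℕ), (LT p d c k o).Finite ∧
    ((LT p d c k o).ncard : ℝ) ≤ C * Real.exp (ε * k + k * (-Real.log z) +
      o * (-Real.log (tt p z)))

/-- SIZE0: sizes of the members of the joint level sets, large `c` -/
def S_SIZE0 : Prop := ∀ (p : ℕ) (d : ℤ), Adm p d → ∀ η : ℝ, 0 < η → ∃ c₀ : ℤ, 1 ≤ c₀ ∧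
  ∀ c : ℤ, c₀ ≤ c → ∃ K : ℝ, ∀ (k o : ℕ) (n : ℤ), n ∈ LT p d c k o →
    |Real.log n - (k * Real.log 2 - o * Real.log p)| ≤ η * k + K

/-- LV: upper bound for the joint level sets, all `c ≥ 1` -/
def S_LV : Prop := ∀ (p : ℕ) (d : ℤ), Adm p d → ∀ z : ℝ, Q p z → ∀ c : ℤ, 1 ≤ c → ∀ ε : ℝ, 0 < ε →
  ∃ C : ℝ, 0 < C ∧ ∀ (k o : ℕ), (LT p d c k o).Finite ∧
    ((LT p d c k o).ncard : ℝ) ≤ C * Real.exp (ε * k + k * (-Real.log z) +
      o * (-Real.log (tt p z)))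

/-- SIZE: sizes of the members of the joint level sets, all `c ≥ 1` -/
def S_SIZE : Prop := ∀ (p : ℕ) (d : ℤ), Adm p d → ∀ η : ℝ, 0 < η → ∀ c : ℤ, 1 ≤ c →
  ∃ K : ℝ, ∀ (k o : ℕ) (n : ℤ), n ∈ LT p d c k o →
    |Real.log n - (k * Real.log 2 - o * Real.log p)| ≤ η * k + K

/-- LW: lower bound for the number of words from every `x` prime to `p`, with bounded letters -/
def S_LW : Prop := ∀ (p : ℕ) (d : ℤ), Adm p d → ∀ r : ℝ, 0 < r → r < 1 → 0 < Fp p r →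
  ∀ δ : ℝ, 0 < δ → ∃ E n₀ : ℕ, ∀ n : ℕ, n₀ ≤ n → ∀ x : ℤ, ¬ (p : ℤ) ∣ x →
    ∃ (s : ℕ) (S : Finset (List ℕ)), |(s : ℝ) - n / r| ≤ δ * n ∧
      Real.exp ((Fp p r / r - δ) * n) ≤ (S.card : ℝ) ∧
      ∀ w ∈ S, w.length = n ∧ w.sum = s ∧ (∀ e ∈ w, e ≤ E) ∧ ok p d x w ∧
        ¬ (p : ℤ) ∣ fin p d x w

/-- CC: the same with all points larger than a given constant, from all large `x` -/
def S_CC : Prop := ∀ (p : ℕ) (d : ℤ), Adm p d → ∀ r : ℝ, 0 < r → r < 1 → 0 < Fp p r →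
  r * Real.log p < Real.log 2 → ∀ δ : ℝ, 0 < δ → ∀ c : ℤ, ∃ (L : ℕ) (M : ℤ), 1 ≤ L ∧ 1 ≤ M ∧
    ∀ (N : ℕ) (x : ℤ), M ≤ x → ¬ (p : ℤ) ∣ x → ∃ S : Finset (List ℕ),
      Real.exp ((Fp p r / r - δ) * (L * N : ℕ)) ≤ (S.card : ℝ) ∧
      ∀ w ∈ S, w.length = L * N ∧ |(w.sum : ℝ) - (L * N : ℕ) / r| ≤ δ * (L * N : ℕ) ∧
        ok p d x w ∧ above p d c x w

/-- LOW: lower bound for the joint level sets -/
def S_LOW : Prop := ∀ (p : ℕ) (d : ℤ), Adm p d → ∀ r : ℝ, 0 < r → r < 1 → 0 < Fp p r →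
  r * Real.log p < Real.log 2 → ∀ m : ℤ, 1 ≤ m → ¬ (p : ℤ) ∣ m → ∀ δ : ℝ, 0 < δ →
    ∃ k₀ : ℕ, ∀ k : ℕ, k₀ ≤ k → ∃ (o : ℕ) (F : Finset ℤ), |(o : ℝ) - r * k| ≤ δ * k ∧
      Real.exp ((Fp p r - δ) * k) ≤ (F.card : ℝ) ∧
      ∀ n ∈ F, n ∈ LT p d m k o ∧ (T p d)^[k] n = m

end Pool.Agent.N685.FD
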