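import Pool.Agent.N685.FD.Asm3

/-!
PROJECT FD (helper685), part 5: statements on the numbers whose trajectory descends faster than a given
slope at some time, all levels together.
-/

set_option autoImplicit false

namespace Pool.Agent.N685.FD

open Finset

/-- the exponent attached to `α` -/
noncomputable def ex (p : ℕ) (α : ℝ) : ℝ := α * Fp p (rp p α)

/-- the exponents of the upper bounds reach `e` -/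
def Tight (p : ℕ) (α e : ℝ) : Prop :=
  ∀ ε : ℝ, 0 < ε → ∃ z : ℝ, Q p z ∧ α * php p (rp p α) z ≤ e + ε

/-- UU: the uniform upper bound with the exponent `e` -/
def S_UU : Prop := ∀ (p : ℕ) (d : ℤ), Adm p d → ∀ α e : ℝ, 1 / Real.log 2 < α → Tight p α e → e < 1 →
  ∀ ε : ℝ, 0 < ε → ∃ X₀ : ℝ, 1 ≤ X₀ ∧ ∀ x : ℝ, X₀ ≤ x → ∀ y : ℝ, 1 ≤ y → y ≤ x → ∀ F : Finset ℤ,
    (∀ n ∈ F, y < n ∧ (n : ℝ) ≤ x ∧ ∃ k : ℕ, (((T p d)^[k] n : ℤ) : ℝ) ≤ y ∧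
      (k : ℝ) ≤ α * (Real.log n - Real.log y)) →
    (F.card : ℝ) ≤ x ^ ε * (y * (x / y) ^ e)

/-- EXU: few numbers `n ≤ x` have a trajectory which is, at some time, smaller than `n ^ (1 - δ)` and
has descended with a slope larger than `1 / α` -/
def S_EXU : Prop := ∀ (p : ℕ) (d : ℤ), Adm p d → ∀ α e : ℝ, 1 / Real.log 2 < α → Tight p α e → e < 1 →
  ∀ δ : ℝ, 0 < δ → δ ≤ 1 → ∀ ε : ℝ, 0 < ε → ∃ X₀ : ℝ, 1 ≤ X₀ ∧ ∀ x : ℝ, X₀ ≤ x → ∀ F : Finset ℤ,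
    (∀ n ∈ F, 1 ≤ n ∧ (n : ℝ) ≤ x ∧ ∃ (k : ℕ) (y : ℝ), 1 ≤ y ∧ y ≤ (n : ℝ) ^ (1 - δ) ∧
      (((T p d)^[k] n : ℤ) : ℝ) ≤ y ∧ (k : ℝ) ≤ α * (Real.log n - Real.log y)) →
    (F.card : ℝ) ≤ x ^ (1 - δ * (1 - e) + ε)

/-- EXL: the corresponding lower bound -/
def S_EXL : Prop := ∀ (p : ℕ) (d : ℤ), Adm p d → ∀ α : ℝ, 1 / Real.log 2 < α →
  0 < Fp p (rp p α) → Tight p α (ex p α) → ex p α < 1 →
  ∀ δ : ℝ, 0 < δ → δ ≤ 1 → ∀ ε : ℝ, 0 < ε → ∃ X₀ : ℝ, 1 ≤ X₀ ∧ ∀ x : ℝ, X₀ ≤ x → ∃ F : Finset ℤ,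
    (∀ n ∈ F, 1 ≤ n ∧ (n : ℝ) ≤ x ∧ ∃ k : ℕ, 1 ≤ (T p d)^[k] n ∧
      (((T p d)^[k] n : ℤ) : ℝ) ≤ (n : ℝ) ^ (1 - δ) ∧
      (k : ℝ) ≤ α * (Real.log n - Real.log ((T p d)^[k] n : ℤ))) ∧
    x ^ (1 - δ * (1 - ex p α) - ε) ≤ (F.card : ℝ)

end Pool.Agent.N685.FD
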