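import Pool.Agent.N685.FD.DG

/-!
PROJECT FD (helper685), part 7: statements on whole trajectories (path level): chains of records,
straightness of the fast trajectories, tubes around piecewise linear profiles.
-/

set_option autoImplicit false

namespace Pool.Agent.N685.FD

open Finset

/-! ### Chains of records -/

/-- a record piece: the trajectory of `n` is at `b` at the time `k`, all earlier terms are larger than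
`b` and than `c`, and `o` of them are odd -/
def Rc (p : ℕ) (d c : ℤ) (k o : ℕ) (n b : ℤ) : Prop :=
  (T p d)^[k] n = b ∧ (∀ j < k, c < (T p d)^[j] n ∧ b < (T p d)^[j] n) ∧ oT p d k n = o

/-- a chain of record pieces `(k, o, z)` from `n` to `a` (the tilts `z` play no role here) -/
def Chn (p : ℕ) (d c : ℤ) : List (ℕ × ℕ × ℝ) → ℤ → ℤ → Prop
  | [], n, a => n = a
  | q :: L, n, a => ∃ b : ℤ, 1 ≤ b ∧ Rc p d c q.1 q.2.1 n b ∧ Chn p d c L b a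

/-- the exponent of a piece with the tilt `z` -/
noncomputable def lz (p : ℕ) (z : ℝ) (k o : ℕ) : ℝ := k * (-Real.log z) + o * (-Real.log (tt p z))

/-- CHN: number of the starting points of chains of record pieces -/
def S_CHN : Prop := ∀ (p : ℕ) (d : ℤ), Adm p d → ∀ Z : Finset ℝ, (∀ z ∈ Z, Q p z) →
  ∃ c₀ : ℤ, 1 ≤ c₀ ∧ ∀ c : ℤ, c₀ ≤ c → ∀ ε : ℝ, 0 < ε → ∃ C : ℝ, 1 ≤ C ∧
    ∀ (L : List (ℕ × ℕ × ℝ)) (A F : Finset ℤ), (∀ q ∈ L, q.2.2 ∈ Z) → (∀ a ∈ A, 1 ≤ a) →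
      (∀ n ∈ F, ∃ a ∈ A, Chn p d c L n a) →
      (F.card : ℝ) ≤ A.card * C ^ L.length *
        Real.exp ((L.map fun q => ε * q.1 + lz p q.2.2 q.1 q.2.1).sum)

/-- STR: among the `n ≤ x` which reach `y` (for the first time) after at most `α log (n / y)` steps, those
whose trajectory is not a straight line of slope `-1/α`, up to `ε log x`, are fewer by a power of `x` -/
def S_STR : Prop := ∀ (p : ℕ) (d : ℤ), Adm p d → ∀ α : ℝ, 1 / Real.log 2 < α → Q p (1 - rp p α) →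
  ∀ ε : ℝ, 0 < ε → ∃ κ : ℝ, 0 < κ ∧ ∃ X₀ : ℝ, 1 ≤ X₀ ∧ ∀ x : ℝ, X₀ ≤ x → ∀ y : ℝ, 1 ≤ y → y ≤ x →
    ∀ F : Finset ℤ,
    (∀ n ∈ F, y < n ∧ (n : ℝ) ≤ x ∧ ∃ k : ℕ, (((T p d)^[k] n : ℤ) : ℝ) ≤ y ∧
      (∀ j < k, y < (((T p d)^[j] n : ℤ) : ℝ)) ∧ (k : ℝ) ≤ α * (Real.log n - Real.log y) ∧
      ∃ j < k, ε * Real.log x < |Real.log ((T p d)^[j] n : ℤ) - (Real.log n - j / α)|) →
    (F.card : ℝ) ≤ x ^ (-κ) * (y * (x / y) ^ (ex p α))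

/-! ### Profiles and tubes -/

/-- the profile with the slopes `-q.1` during the times `q.2`, starting from the height `u` -/
noncomputable def pro : List (ℝ × ℝ) → ℝ → ℝ → ℝ
  | [], u, _ => u
  | q :: L, u, t => if t ≤ q.2 then u - q.1 * t else pro L (u - q.1 * q.2) (t - q.2)

/-- total duration -/
noncomputable def dur (L : List (ℝ × ℝ)) : ℝ := (L.map fun q => q.2).sum

/-- total fall -/
noncomputable def fal (L : List (ℝ × ℝ)) : ℝ := (L.map fun q => q.1 * q.2).sum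

/-- the frequency of the odd steps for the slope `-a` -/
noncomputable def fr (p : ℕ) (a : ℝ) : ℝ := (Real.log 2 - a) / Real.log p

/-- growth of the number of trajectories along the profile (backwards) -/
noncomputable def gr (p : ℕ) (L : List (ℝ × ℝ)) : ℝ := (L.map fun q => q.2 * Fp p (fr p q.1)).sum

/-- the tube around the profile: the `n ≥ 1` whose trajectory is close to the profile, for all times up
to `dur L * X` -/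
def Tub (p : ℕ) (d : ℤ) (L : List (ℝ × ℝ)) (u δ X : ℝ) : Set ℤ :=
  {n : ℤ | 1 ≤ n ∧ ∀ j : ℕ, (j : ℝ) ≤ dur L * X → 1 ≤ (T p d)^[j] n ∧
    |Real.log ((T p d)^[j] n : ℤ) - pro L u (j / X) * X| ≤ δ * X}

/-- TUBU: upper bound for tubes -/
def S_TUBU : Prop := ∀ (p : ℕ) (d : ℤ), Adm p d → ∀ L : List (ℝ × ℝ),
  (∀ q ∈ L, 0 < q.1 ∧ q.1 < Real.log 2 ∧ 0 < q.2 ∧
    ∀ ε : ℝ, 0 < ε → ∃ z : ℝ, Q p z ∧ php p (fr p q.1) z ≤ Fp p (fr p q.1) + ε) →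
  ∀ u : ℝ, fal L ≤ u → ∀ ε : ℝ, 0 < ε → ∃ δ₀ : ℝ, 0 < δ₀ ∧ ∀ δ : ℝ, 0 < δ → δ ≤ δ₀ →
    ∃ X₀ : ℝ, ∀ X : ℝ, X₀ ≤ X → ∀ F : Finset ℤ, (∀ n ∈ F, n ∈ Tub p d L u δ X) →
      (F.card : ℝ) ≤ Real.exp ((u - fal L + gr p L + ε) * X)

/-- TUBL: lower bound for tubes -/
def S_TUBL : Prop := ∀ (p : ℕ) (d : ℤ), Adm p d → ∀ L : List (ℝ × ℝ),
  (∀ q ∈ L, 0 < q.1 ∧ q.1 < Real.log 2 ∧ 0 < q.2 ∧ 0 < Fp p (fr p q.1)) →
  ∀ u : ℝ, fal L ≤ u → ∀ δ : ℝ, 0 < δ → ∀ ε : ℝ, 0 < ε →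
    ∃ X₀ : ℝ, ∀ X : ℝ, X₀ ≤ X → ∃ F : Finset ℤ, (∀ n ∈ F, n ∈ Tub p d L u δ X) ∧
      Real.exp ((u - fal L + gr p L - ε) * X) ≤ (F.card : ℝ)

/-- a straight piece of trajectory: slope `-a`, `k` steps, error `D` -/
def Sp (p : ℕ) (d : ℤ) (a D : ℝ) (k : ℕ) (n : ℤ) : Prop :=
  ∀ j ≤ k, 1 ≤ (T p d)^[j] n ∧ |Real.log ((T p d)^[j] n : ℤ) - (Real.log n - a * j)| ≤ D

/-- PCL: into every large `b` prime to `p` run many straight pieces of trajectory -/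
def S_PCL : Prop := ∀ (p : ℕ) (d : ℤ), Adm p d → ∀ a : ℝ, 0 < a → a < Real.log 2 →
  0 < Fp p (fr p a) → ∀ τ : ℝ, 0 < τ → ∀ δ : ℝ, 0 < δ → ∀ v : ℝ, 0 < v →
    ∃ X₀ : ℝ, 1 ≤ X₀ ∧ ∀ X : ℝ, X₀ ≤ X → ∀ b : ℤ, Real.exp (v * X) ≤ b → ¬ (p : ℤ) ∣ b →
      ∃ G : Finset ℤ, Real.exp ((τ * Fp p (fr p a) - δ) * X) ≤ (G.card : ℝ) ∧
        ∀ n ∈ G, 1 ≤ n ∧ ¬ (p : ℤ) ∣ n ∧ ∃ k : ℕ, τ * X ≤ k ∧ (k : ℝ) ≤ (τ + δ) * X ∧
          (T p d)^[k] n = b ∧ Sp p d a (δ * X) k n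

/-- trajectories which consist of straight pieces as prescribed by the list, with tolerance `δ` -/
def Fol (p : ℕ) (d : ℤ) (δ X : ℝ) : List (ℝ × ℝ) → ℝ → ℤ → Prop
  | [], u, n => 1 ≤ n ∧ |Real.log n - u * X| ≤ δ * X
  | q :: L, u, n => ∃ k : ℕ, q.2 * X ≤ k ∧ (k : ℝ) ≤ (q.2 + δ) * X ∧ Sp p d q.1 (δ * X) k n ∧
      Fol p d δ X L (u - q.1 * q.2) ((T p d)^[k] n)

/-- FOLL: lower bound for the number of the `n` which follow the list -/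
def S_FOLL : Prop := ∀ (p : ℕ) (d : ℤ), Adm p d → ∀ L : List (ℝ × ℝ),
  (∀ q ∈ L, 0 < q.1 ∧ q.1 < Real.log 2 ∧ 0 < q.2 ∧ 0 < Fp p (fr p q.1)) →
  ∀ u : ℝ, fal L ≤ u → ∀ δ : ℝ, 0 < δ → ∀ ε : ℝ, 0 < ε →
    ∃ X₀ : ℝ, ∀ X : ℝ, X₀ ≤ X → ∃ F : Finset ℤ, (∀ n ∈ F, Fol p d δ X L u n) ∧
      Real.exp ((u - fal L + gr p L - ε) * X) ≤ (F.card : ℝ)

/-- FT: who follows the list is in the tube -/
def S_FT : Prop := ∀ (p : ℕ) (d : ℤ), Adm p d → ∀ L : List (ℝ × ℝ),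
  (∀ q ∈ L, 0 < q.1 ∧ q.1 < Real.log 2 ∧ 0 < q.2) → ∀ u δ : ℝ, 0 < δ →
    ∃ δ' : ℝ, 0 < δ' ∧ ∀ (X : ℝ) (n : ℤ), 0 < X → Fol p d δ' X L u n → n ∈ Tub p d L u δ X

end Pool.Agent.N685.FD
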