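import Pool.Agent.N685.FD.DG

/-!
PROJECT FD (helper685), part 8: the bivariate law: number of the `n ≥ 1` which hit a set `A` for the
first time after exactly `k` steps, exactly `o` of them odd, uniformly in `(k, o)`.
-/

set_option autoImplicit false

namespace Pool.Agent.N685.FD

open Finset

/-- BIVL: lower bound for every single pair `(k, o)` -/
def S_BIVL : Prop := ∀ (p : ℕ) (d : ℤ), Adm p d → ∀ (A : Set ℤ) (c : ℤ), (∀ y ∈ A, y ≤ c) →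
  ∀ m : ℤ, 1 ≤ m → ¬ (p : ℤ) ∣ m → m ∈ A →
  ∀ η ρ₁ : ℝ, 0 < η → ρ₁ < 1 → 0 < Fp p ρ₁ → ρ₁ * Real.log p < Real.log 2 → ∀ ε : ℝ, 0 < ε →
    ∃ k₀ : ℕ, ∀ k : ℕ, k₀ ≤ k → ∀ o : ℕ, η * k ≤ o → (o : ℝ) ≤ ρ₁ * k →
      Real.exp ((Fp p ((o : ℝ) / k) - ε) * k) ≤ ((HT p d A k o).ncard : ℝ)

/-- BIVU: upper bound for every single pair `(k, o)` -/
def S_BIVU : Prop := ∀ (p : ℕ) (d : ℤ), Adm p d → ∀ (A : Set ℤ) (c : ℤ), (∀ y ∈ A, y ≤ c) →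
  ∀ η ρ₁ : ℝ, 0 < η → (∀ ρ : ℝ, η ≤ ρ → ρ ≤ ρ₁ → ∀ ε : ℝ, 0 < ε →
    ∃ z : ℝ, Q p z ∧ php p ρ z ≤ Fp p ρ + ε) → ∀ ε : ℝ, 0 < ε →
    ∃ k₀ : ℕ, ∀ k : ℕ, k₀ ≤ k → ∀ o : ℕ, η * k ≤ o → (o : ℝ) ≤ ρ₁ * k →
      ((HT p d A k o).ncard : ℝ) ≤ Real.exp ((Fp p ((o : ℝ) / k) + ε) * k)

end Pool.Agent.N685.FD
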