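import Pool.Agent.N685.FD.Str
import Pool.Agent.N685.FD.Chn
import Pool.Agent.N685.FD.Stm9

/-!
PROJECT FD (helper685), part 9: straightness with a constant slack in the time (`S_STRB`), after
`Str.lean` (helper849).
-/

set_option autoImplicit false
set_option linter.unusedVariables false

namespace Pool.Agent.N685.FD

open Finset Topology

namespace Strb

open Str

open UL in
theorem count (h : S_CHN) {p : ℕ} {d : ℤ} (hA : Adm p d) {α : ℝ} (hα : 1 / Real.log 2 < α)
    (hQ : Q p (1 - rp p α)) {δ : ℝ} (hδ : 0 < δ) :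
    ∃ κ : ℝ, 0 < κ ∧ ∃ c₀ : ℤ, 1 ≤ c₀ ∧ ∀ c : ℤ, c₀ ≤ c → ∀ s₀ : ℝ, 0 ≤ s₀ →
      ∃ X₀ : ℝ, 1 ≤ X₀ ∧ ∀ x : ℝ, X₀ ≤ x →
      ∀ y : ℝ, 1 ≤ y → y ≤ x → ∀ F : Finset ℤ,
      (∀ n ∈ F, (n : ℝ) ≤ x ∧ 1 ≤ n ∧ ∃ k t : ℕ, t ≤ k ∧
        (k : ℝ) ≤ α * (Real.log n - Real.log y) + s₀ ∧
        (∀ j < k, max ⌊y⌋ c < (T p d)^[j] n) ∧ 1 ≤ (T p d)^[k] n ∧ (T p d)^[k] n ≤ max ⌊y⌋ c ∧
        (∀ i < t, (T p d)^[t] n < (T p d)^[i] n) ∧
        δ * Real.log x < |(oT p d t n : ℝ) - rp p α * t|) →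
      (F.card : ℝ) ≤ x ^ (-κ) * (y * (x / y) ^ (ex p α)) := by
  classical
  have hp := hA.1
  have hl2 : 0 < Real.log 2 := Real.log_pos (by norm_num)
  have hl := (p_facts hp).2.1
  have hα0 : 0 < α := lt_trans (by positivity) hα
  obtain ⟨κ, hκ, z₁, z₂, hQ1, hQ2, hgain⟩ := gain hp (show 0 < 2 * α by positivity) hQ hδ
  obtain ⟨ha, hab⟩ := q_facts hQ
  obtain ⟨hex, hU⟩ := ex_facts hp hα hQ
  set z : ℝ := 1 - rp p α with hz
  have hU0 : 0 ≤ ex p α := by
    rw [hex]
    exact mul_nonneg hα0.le (php_nonneg hp hQ (rp_pos hp hα).le (rp_mul_lt hp hα0).le)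
  set U : ℝ := ex p α with hUdef
  set R : ℝ := (-Real.log z * Real.log p + -Real.log (tt p z) * Real.log 2) / Real.log p with hR
  have hR0 : 0 < R := div_pos hab hl
  -- the small constants
  set η : ℝ := κ / (16 * α * (1 + α * R)) with hη
  have hη0 : 0 < η := by positivity
  obtain ⟨c₁, hc₁, hup0⟩ := h p d hA {z, z₁, z₂} (by
    intro w hw
    simp only [mem_insert, mem_singleton] at hw
    rcases hw with rfl | rfl | rfl
    · exact hQ
    · exact hQ1
    · exact hQ2)
  obtain ⟨c₂, hc₂, hsz0⟩ := at_size hA hη0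
  refine ⟨κ / 2, by positivity, max c₁ c₂, hc₁.trans (le_max_left _ _), fun c hc s₀ hs₀ => ?_⟩
  have hcc1 : c₁ ≤ c := (le_max_left _ _).trans hc
  have hcc2 : c₂ ≤ c := (le_max_right _ _).trans hc
  have hc1 : 1 ≤ c := hc₁.trans hcc1
  have hcR : (1 : ℝ) ≤ c := by exact_mod_cast hc1
  have hlc : 0 ≤ Real.log (c : ℝ) := Real.log_nonneg hcR
  obtain ⟨C, hC, hup⟩ := hup0 c hcc1 (κ / (16 * α)) (by positivity)
  have hC0 : 0 < C := by linarith
  have hsz := hsz0 c hcc2
  set B : ℝ := α * Real.log c + s₀ with hB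
  have hB0 : 0 ≤ B := by positivity
  -- the polynomial factor
  obtain ⟨K', hK'0, hK'⟩ := Pool.Agent.Y966.LD.log_lin (show 0 < κ / 40 by positivity)
  set G : ℝ := (max 1 (2 * α)) ^ 4 * C ^ 2 * Real.exp (R * B) * c * (1 + Real.log c) with hG
  have hG0 : 0 < G := by
    have : (0 : ℝ) < max 1 (2 * α) := lt_max_of_lt_left one_pos
    positivity
  set L₀ : ℝ := 8 * (|Real.log G| + 5 * K') / κ + s₀ / α with hL₀
  have hL₀0 : 0 ≤ L₀ := by positivity
  refine ⟨Real.exp L₀, Real.one_le_exp hL₀0, fun x hx y hy hyx F hF => ?_⟩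
  have hx0 : 0 < x := lt_of_lt_of_le (Real.exp_pos _) hx
  have hL : L₀ ≤ Real.log x := by
    rw [Real.le_log_iff_exp_le hx0]
    exact hx
  set L : ℝ := Real.log x with hLdef
  have hLn : 0 ≤ L := hL₀0.trans hL
  have hy0 : 0 < y := by linarith
  have hly : 0 ≤ Real.log y := Real.log_nonneg hy
  have hlyL : Real.log y ≤ L := Real.log_le_log hy0 hyx
  have hxy : 1 ≤ x / y := by
    rw [le_div_iff₀ hy0]
    linarith
  have hpow1 : 1 ≤ (x / y) ^ U := Real.one_le_rpow hxy hU0
  -- the threshold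
  set Y : ℤ := max ⌊y⌋ c with hY
  have hYc : c ≤ Y := le_max_right _ _
  have hYcy : (Y : ℝ) ≤ c * y := by
    rcases max_choice ⌊y⌋ c with h | h
    · rw [hY, h]
      have h1 := Int.floor_le y
      nlinarith
    · rw [hY, h]
      nlinarith
  -- the classes
  have hs₀L : s₀ ≤ α * L := by
    have h1 : s₀ / α ≤ L := by
      have : 0 ≤ 8 * (|Real.log G| + 5 * K') / κ := by positivity
      linarith
    rw [div_le_iff₀ hα0] at h1
    linarith
  set K : ℕ := ⌊2 * α * L⌋₊ with hK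
  have hKle : (K : ℝ) ≤ 2 * α * L := Nat.floor_le (by positivity)
  have hent : ∀ n : ℤ, ∃ k t : ℕ, n ∈ F → (k ≤ K ∧ t ≤ k ∧
      (k : ℝ) ≤ α * (Real.log n - Real.log y) + s₀ ∧
      (∀ j < k, Y < (T p d)^[j] n) ∧ 1 ≤ (T p d)^[k] n ∧ (T p d)^[k] n ≤ Y ∧
      (∀ i < t, (T p d)^[t] n < (T p d)^[i] n) ∧
      δ * L < |(oT p d t n : ℝ) - rp p α * t|) := by
    intro n
    by_cases hn : n ∈ F
    · obtain ⟨h3, h4, k, t, h5, h6, h7⟩ := hF n hn
      refine ⟨k, t, fun _ => ⟨?_, h5, h6, h7⟩⟩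
      apply Nat.le_floor
      refine h6.trans ?_
      have hn0 : (0 : ℝ) < n := by exact_mod_cast (by omega : (0 : ℤ) < n)
      have h8 := Real.log_le_log hn0 h3
      have h9 : α * (Real.log n - Real.log y) ≤ α * L :=
        mul_le_mul_of_nonneg_left (by linarith) hα0.le
      linarith
    · exact ⟨0, 0, fun h => absurd h hn⟩
  choose kf tf hkf using hent
  set I : Finset (ℤ × ℕ × ℕ × ℕ × ℕ) := (Finset.Icc 1 Y) ×ˢ (range (K + 1)) ×ˢ (range (K + 1)) ×ˢ
    (range (K + 1)) ×ˢ (range (K + 1)) with hI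
  set g : ℤ → ℤ × ℕ × ℕ × ℕ × ℕ := fun n => ((T p d)^[kf n] n, kf n, tf n, oT p d (tf n) n,
    oT p d (kf n - tf n) ((T p d)^[tf n] n)) with hg
  have hmaps : ∀ n ∈ F, g n ∈ I := by
    intro n hn
    obtain ⟨h1, h1', h2, h3, h4, h5, _⟩ := hkf n hn
    have h6 := oT_le p d (tf n) n
    have h7 := oT_le p d (kf n - tf n) ((T p d)^[tf n] n)
    simp only [hI, hg, mem_product, mem_Icc, mem_range]
    exact ⟨⟨h4, h5⟩, by omega, by omega, by omega, by omega⟩
  have hcard : F.card = ∑ i ∈ I, (F.filter fun n => g n = i).card :=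
    Finset.card_eq_sum_card_fiberwise hmaps
  -- the bound of a class
  set D : ℝ := C ^ 2 * Real.exp (κ / 4 * L - κ * L + R * B) * (x / y) ^ U * (c * y) with hD
  have hD0 : 0 ≤ D := by positivity
  have hclass : ∀ i ∈ I, ((F.filter fun n => g n = i).card : ℝ) ≤ D * (1 / (i.1 : ℝ)) := by
    rintro ⟨a, k, t, o₁, o₂⟩ hi
    simp only [hI, mem_product, mem_Icc, mem_range] at hi
    obtain ⟨⟨ha1, ha2⟩, hk, ht, ho₁, ho₂⟩ := hi
    simp only
    have haR : (1 : ℝ) ≤ a := by exact_mod_cast ha1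
    have ha0 : (0 : ℝ) < a := by linarith
    have haY : (a : ℝ) ≤ c * y := le_trans (by exact_mod_cast ha2) hYcy
    set H := F.filter fun n => g n = (a, k, t, o₁, o₂) with hH
    rcases H.eq_empty_or_nonempty with he | ⟨n, hn⟩
    · rw [he]
      simp only [card_empty, Nat.cast_zero]
      positivity
    have hmem : ∀ n ∈ H, n ∈ F ∧ (T p d)^[k] n = a ∧ kf n = k ∧ tf n = t ∧ oT p d t n = o₁ ∧
        oT p d (k - t) ((T p d)^[t] n) = o₂ := by
      intro n hn
      obtain ⟨h1, h2⟩ := Finset.mem_filter.1 hn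
      simp only [hg, Prod.mk.injEq] at h2
      obtain ⟨h3, h4, h5, h6, h7⟩ := h2
      rw [h5] at h6
      rw [h4, h5] at h7
      rw [h4] at h3
      exact ⟨h1, h3, h4, h5, h6, h7⟩
    -- the tilt of the first piece
    obtain ⟨n2, n3, n4, n5, n6, n7⟩ := hmem n hn
    obtain ⟨g1, g1', g2, g3, g4, g5, g6, g7⟩ := hkf n n2
    rw [n4] at g1 g2 g3
    rw [n4, n5] at g1'
    rw [n5, n6] at g7
    have hkK : (k : ℝ) ≤ 2 * α * L := le_trans (by exact_mod_cast g1) hKle
    have htk : (t : ℝ) ≤ k := by exact_mod_cast g1'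
    have hot : o₁ ≤ t := by
      rw [← n6]
      exact oT_le p d t n
    obtain ⟨z', hz', hz'2⟩ : ∃ z' ∈ ({z, z₁, z₂} : Finset ℝ), lz p z' t o₁ ≤ lz p z t o₁ - κ * L := by
      rcases hgain t o₁ L hot (htk.trans hkK) g7 with h | h
      · exact ⟨z₁, by simp, h⟩
      · exact ⟨z₂, by simp, h⟩
    have h1 := hup [(t, o₁, z'), (k - t, o₂, z)] {a} H (by
      intro q hq
      simp only [List.mem_cons, List.not_mem_nil, or_false] at hq
      rcases hq with rfl | rfl
      · exact hz'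
      · simp) (by
      intro a' ha'
      rw [mem_singleton] at ha'
      rw [ha']
      exact ha1) (by
      intro n hn
      obtain ⟨n2, n3, n4, n5, n6, n7⟩ := hmem n hn
      obtain ⟨g1, g1', g2, g3, g4, g5, g6, g7⟩ := hkf n n2
      rw [n4] at g1 g2 g3
      rw [n4, n5] at g1'
      rw [n5] at g6
      have hsplit : ∀ i : ℕ, (T p d)^[i] ((T p d)^[t] n) = (T p d)^[i + t] n := by
        intro i
        rw [Function.iterate_add_apply]
      have hend : (T p d)^[k - t] ((T p d)^[t] n) = a := by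
        rw [hsplit, Nat.sub_add_cancel g1', n3]
      have hb1 : 1 ≤ (T p d)^[t] n := by
        rcases g1'.lt_or_eq with h | h
        · have := g3 t h
          omega
        · rw [h, n3]
          exact ha1
      refine ⟨a, mem_singleton_self a, (T p d)^[t] n, hb1, ⟨rfl, ?_, n6⟩, a, ha1,
        ⟨hend, ?_, n7⟩, rfl⟩
      · intro j hj
        exact ⟨lt_of_le_of_lt hYc (g3 j (lt_of_lt_of_le hj g1')), g6 j hj⟩
      · intro j hj
        have hj' : j < k - t := hj
        have := g3 (j + t) (by omega)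
        rw [hsplit]
        exact ⟨lt_of_le_of_lt hYc this, lt_of_le_of_lt ha2 this⟩)
    have e0 : (([(t, o₁, z'), (k - t, o₂, z)] : List (ℕ × ℕ × ℝ)).map
        fun q => κ / (16 * α) * q.1 + lz p q.2.2 q.1 q.2.1).sum =
        κ / (16 * α) * k + (lz p z' t o₁ + lz p z (k - t) o₂) := by
      simp only [List.map_cons, List.map_nil, List.sum_cons, List.sum_nil]
      rw [Nat.cast_sub g1']
      ring
    rw [e0, card_singleton, Nat.cast_one, one_mul] at h1
    have e00 : ([(t, o₁, z'), (k - t, o₂, z)] : List (ℕ × ℕ × ℝ)).length = 2 := rfl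
    rw [e00] at h1
    refine h1.trans ?_
    -- the constraint
    obtain ⟨f3, f4, _⟩ := hF n n2
    have hn0 : (0 : ℝ) < n := by exact_mod_cast (by omega : (0 : ℤ) < n)
    have hs := hsz n k (by rw [n3]; exact ha1) (fun j hj => lt_of_le_of_lt hYc (g3 j hj))
    have hoo : oT p d k n = o₁ + o₂ := by
      have := oT_add p d t (k - t) n
      rw [Nat.add_sub_cancel' g1', n6, n7] at this
      exact this
    rw [n3, hoo] at hs
    set o : ℝ := ((o₁ + o₂ : ℕ) : ℝ) with ho
    obtain ⟨hs1, hs2⟩ := abs_le.1 hs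
    have hkn : (0 : ℝ) ≤ k := Nat.cast_nonneg k
    have hlay : Real.log a ≤ Real.log c + Real.log y := by
      rw [← Real.log_mul (by positivity) hy0.ne']
      exact Real.log_le_log ha0 haY
    have hlnx : Real.log n ≤ L := Real.log_le_log hn0 f3
    have hE : (k : ℝ) ≤ α * (k * Real.log 2 - o * Real.log p) + (α * (η * k) + B) := by
      have h6 : α * (Real.log n - Real.log y) ≤
          α * ((k * Real.log 2 - o * Real.log p) + η * k + Real.log c) := by
        apply mul_le_mul_of_nonneg_left _ hα0.le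
        linarith
      rw [hB]
      linarith
    have h7 := lin_bound hp hQ hα hE
    rw [← hex, ← hR] at h7
    have h8 : U * (k * Real.log 2 - o * Real.log p) ≤ U * (L - Real.log a + η * k) := by
      apply mul_le_mul_of_nonneg_left _ hU0
      linarith
    have h9 : U * (η * k) ≤ η * k := mul_le_of_le_one_left (by positivity) hU
    have h10 : κ / (16 * α) * k + η * k + α * (η * k) * R ≤ κ / 4 * L := by
      have e1 : η * k + α * (η * k) * R = κ / (16 * α) * k := by
        rw [hη]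
        field_simp
      have e2 : κ / (16 * α) * k ≤ κ / (16 * α) * (2 * α * L) := mul_le_mul_of_nonneg_left hkK (by positivity)
      have e3 : κ / (16 * α) * (2 * α * L) = κ / 8 * L := by
        field_simp
        ring
      linarith
    have hlz : lz p z t o₁ + lz p z (k - t) o₂ =
        k * (-Real.log z) + o * (-Real.log (tt p z)) := by
      unfold lz
      rw [ho, Nat.cast_sub g1']
      push_cast
      ring
    have h11 : Real.exp (κ / (16 * α) * k + (lz p z' t o₁ + lz p z (k - t) o₂)) ≤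
        Real.exp (κ / 4 * L - κ * L + R * B) * Real.exp (U * (L - Real.log a)) := by
      rw [← Real.exp_add]
      apply Real.exp_le_exp.2
      have e1 : (α * (η * k) + B) * R = α * (η * k) * R + R * B := by ring
      rw [e1] at h7
      have e2 : U * (L - Real.log a + η * k) = U * (L - Real.log a) + U * (η * k) := by ring
      rw [e2] at h8
      linarith
    have h12 : Real.exp (U * (L - Real.log a)) ≤ (x / y) ^ U * (c * y / a) := by
      have hcya : 1 ≤ c * y / a := by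
        rw [le_div_iff₀ ha0]
        linarith
      have e1 : Real.exp (U * (L - Real.log a)) = (x / a) ^ U := by
        rw [Real.rpow_def_of_pos (by positivity), Real.log_div hx0.ne' ha0.ne', mul_comm]
      have e2 : x / a ≤ (x / y) * (c * y / a) := by
        have : (x / y) * (c * y / a) = c * (x / a) := by field_simp
        rw [this]
        have : 0 ≤ x / a := by positivity
        nlinarith
      rw [e1]
      calc (x / a) ^ U ≤ ((x / y) * (c * y / a)) ^ U :=
            Real.rpow_le_rpow (by positivity) e2 hU0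
        _ = (x / y) ^ U * (c * y / a) ^ U := Real.mul_rpow (by positivity) (by positivity)
        _ ≤ (x / y) ^ U * (c * y / a) ^ (1 : ℝ) :=
            mul_le_mul_of_nonneg_left (Real.rpow_le_rpow_of_exponent_le hcya hU) (by positivity)
        _ = (x / y) ^ U * (c * y / a) := by rw [Real.rpow_one]
    calc C ^ 2 * Real.exp (κ / (16 * α) * k + (lz p z' t o₁ + lz p z (k - t) o₂))
        ≤ C ^ 2 * (Real.exp (κ / 4 * L - κ * L + R * B) * ((x / y) ^ U * (c * y / a))) :=
          mul_le_mul_of_nonneg_left (h11.trans (mul_le_mul_of_nonneg_left h12 (Real.exp_pos _).le))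
            (by positivity)
      _ = D * (1 / (a : ℝ)) := by
          rw [hD]
          ring
  have hbig : (F.card : ℝ) ≤ D * (1 + Real.log Y) * ((K : ℝ) + 1) ^ 4 := by
    have h1 : (F.card : ℝ) ≤ ∑ i ∈ I, D * (1 / (i.1 : ℝ)) := by
      rw [hcard]
      push_cast
      exact sum_le_sum hclass
    have h2 : ∑ i ∈ I, D * (1 / (i.1 : ℝ)) =
        D * (∑ a ∈ Finset.Icc (1 : ℤ) Y, (1 : ℝ) / a) * ((K : ℝ) + 1) ^ 4 := by
      rw [hI, sum_product]
      simp only [sum_const, card_product, card_range, nsmul_eq_mul]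
      rw [mul_sum, sum_mul]
      refine sum_congr rfl fun a _ => ?_
      push_cast
      ring
    rw [h2] at h1
    refine h1.trans ?_
    apply mul_le_mul_of_nonneg_right _ (by positivity)
    apply mul_le_mul_of_nonneg_left _ hD0
    obtain ⟨A, hAY⟩ : ∃ A : ℕ, Y = (A : ℤ) := ⟨Y.toNat, by omega⟩
    rw [hAY]
    exact_mod_cast harm A
  -- collect
  have hY0 : (1 : ℝ) ≤ Y := by exact_mod_cast (by omega : (1 : ℤ) ≤ Y)
  have hlogY : Real.log Y ≤ Real.log c + L := by
    have h1 : Real.log (Y : ℝ) ≤ Real.log (c * y) := Real.log_le_log (by linarith) hYcy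
    rw [Real.log_mul (by positivity) hy0.ne'] at h1
    linarith
  have hfac : (1 + Real.log Y) * ((K : ℝ) + 1) ^ 4 ≤
      (max 1 (2 * α)) ^ 4 * (1 + Real.log c) * (L + 1) ^ 5 := by
    have hm1 : (1 : ℝ) ≤ max 1 (2 * α) := le_max_left _ _
    have hmα : 2 * α ≤ max 1 (2 * α) := le_max_right _ _
    have h1 : 1 + Real.log Y ≤ (1 + Real.log c) * (L + 1) := by nlinarith
    have h2 : (K : ℝ) + 1 ≤ max 1 (2 * α) * (L + 1) := by nlinarith
    have h3 : ((K : ℝ) + 1) ^ 4 ≤ (max 1 (2 * α) * (L + 1)) ^ 4 := by gcongr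
    have hlY : 0 ≤ 1 + Real.log Y := by
      have := Real.log_nonneg hY0
      linarith
    calc (1 + Real.log Y) * ((K : ℝ) + 1) ^ 4
        ≤ ((1 + Real.log c) * (L + 1)) * (max 1 (2 * α) * (L + 1)) ^ 4 := by
          apply mul_le_mul h1 h3 (by positivity) (by positivity)
      _ = _ := by ring
  have hL5 : (L + 1) ^ 5 ≤ Real.exp (κ / 8 * L + 5 * K') := by
    have h1 := hK' L hLn
    have h2 : (L + 1) ^ 5 = Real.exp (5 * Real.log (L + 1)) := by
      rw [show (5 : ℝ) * Real.log (L + 1) = ((5 : ℕ) : ℝ) * Real.log (L + 1) by norm_num,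
        Real.exp_nat_mul, Real.exp_log (by linarith)]
    rw [h2]
    apply Real.exp_le_exp.2
    linarith
  have hxe : x ^ (-(κ / 2)) = Real.exp (-(κ / 2) * L) := by
    rw [Real.rpow_def_of_pos hx0, mul_comm]
  refine hbig.trans ?_
  have h1 : D * (1 + Real.log Y) * ((K : ℝ) + 1) ^ 4 ≤
      D * ((max 1 (2 * α)) ^ 4 * (1 + Real.log c) * Real.exp (κ / 8 * L + 5 * K')) := by
    rw [mul_assoc]
    apply mul_le_mul_of_nonneg_left _ hD0
    refine hfac.trans ?_
    apply mul_le_mul_of_nonneg_left hL5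
    positivity
  refine h1.trans ?_
  have h2 : D * ((max 1 (2 * α)) ^ 4 * (1 + Real.log c) * Real.exp (κ / 8 * L + 5 * K')) =
      (G * (Real.exp (κ / 4 * L - κ * L) * Real.exp (κ / 8 * L + 5 * K'))) *
        (y * (x / y) ^ U) := by
    rw [hD, hG, Real.exp_add (κ / 4 * L - κ * L)]
    ring
  rw [h2]
  apply mul_le_mul_of_nonneg_right _ (by positivity)
  rw [hxe, ← Real.exp_add]
  have e1 : G = Real.exp (Real.log G) := (Real.exp_log hG0).symm
  rw [e1, ← Real.exp_add]
  apply Real.exp_le_exp.2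
  have h4 : 8 * (|Real.log G| + 5 * K') / κ ≤ L := by
    have : 0 ≤ s₀ / α := by positivity
    linarith
  rw [div_le_iff₀ hκ] at h4
  have h5 := le_abs_self (Real.log G)
  nlinarith

end Strb

theorem t_STRB' (h : S_CHN) : S_STRB := by
  intro p d hA α hα hQ ε hε
  classical
  have hp := hA.1
  obtain ⟨hp1, hlp, hp3⟩ := UL.p_facts hp
  have hl2 : 0 < Real.log 2 := Real.log_pos (by norm_num)
  have hα0 : 0 < α := lt_trans (by positivity) hα
  have hspec := UL.rp_spec hp α
  -- the constants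
  set W : ℝ := 2 * α * (Real.log p + 1 / α) + 1 with hW
  have hW1 : 1 ≤ W := by
    have : 0 ≤ 2 * α * (Real.log p + 1 / α) := by positivity
    linarith
  have hW0 : 0 < W := by linarith
  set δ : ℝ := ε / (4 * W) with hδ
  have hδ0 : 0 < δ := by positivity
  have hδW : δ * W = ε / 4 := by
    rw [hδ]
    field_simp
  have hδε : δ ≤ ε / 4 := by nlinarith
  obtain ⟨κ, hκ, c₁, hc₁, hcount⟩ := Strb.count h hA hα hQ
    (show 0 < δ / (2 * Real.log p) by positivity)
  obtain ⟨c₂, hc₂, hsz0⟩ := UL.at_size hA (show 0 < δ / (4 * α) by positivity)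
  set c : ℤ := max (max c₁ c₂) |d| with hc
  have hcc1 : c₁ ≤ c := (le_max_left _ _).trans (le_max_left _ _)
  have hcc2 : c₂ ≤ c := (le_max_right _ _).trans (le_max_left _ _)
  have hcd : |d| ≤ c := le_max_right _ _
  have hc1 : 1 ≤ c := hc₁.trans hcc1
  have hcR : (1 : ℝ) ≤ c := by exact_mod_cast hc1
  have hlc : 0 ≤ Real.log (c : ℝ) := Real.log_nonneg hcR
  have hsz := hsz0 c hcc2
  obtain ⟨B, M, hM, hbdd⟩ := Str.bdd p d c
  refine ⟨κ, hκ, fun s₀ hs₀ => ?_⟩
  obtain ⟨X₁, hX₁, hcnt⟩ := hcount c hcc1 s₀ hs₀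
  set L₀ : ℝ := 4 * (α * Real.log 2 * (Real.log p + 1 / α) + M + Real.log c + B / α + 1) / ε with hL₀
  have hL₀0 : 0 ≤ L₀ := by positivity
  refine ⟨max X₁ (Real.exp (max L₀ (s₀ / α))), hX₁.trans (le_max_left _ _),
    fun x hx y hy hyx F hF => ?_⟩
  have hx1 : X₁ ≤ x := (le_max_left _ _).trans hx
  have hx3 : Real.exp (max L₀ (s₀ / α)) ≤ x := (le_max_right _ _).trans hx
  have hx2 : Real.exp L₀ ≤ x := (Real.exp_le_exp.2 (le_max_left _ _)).trans hx3
  have hx4 : Real.exp (s₀ / α) ≤ x := (Real.exp_le_exp.2 (le_max_right _ _)).trans hx3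
  have hx0 : 0 < x := lt_of_lt_of_le (Real.exp_pos _) hx2
  have hL : L₀ ≤ Real.log x := by
    rw [Real.le_log_iff_exp_le hx0]
    exact hx2
  refine hcnt x hx1 y hy hyx F fun n hn => ?_
  obtain ⟨h1, h2, k, h3, h4, h5, j, h6, h7⟩ := hF n hn
  set L : ℝ := Real.log x with hLdef
  have hLn : 0 ≤ L := hL₀0.trans hL
  have hs₀L : s₀ ≤ α * L := by
    have h1 : s₀ / α ≤ Real.log x := by
      rw [Real.le_log_iff_exp_le hx0]
      exact hx4
    rw [div_le_iff₀ hα0] at h1
    linarith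
  have hL4 : α * Real.log 2 * (Real.log p + 1 / α) + M + Real.log c + B / α + 1 ≤ ε / 4 * L := by
    have h8 := hL
    rw [hL₀, div_le_iff₀ hε] at h8
    linarith
  have hn1R : (1 : ℝ) < n := by linarith
  have hn1 : 1 < n := by exact_mod_cast hn1R
  have hy0 : 0 < y := by linarith
  have hly : 0 ≤ Real.log y := Real.log_nonneg hy
  set Y : ℤ := max ⌊y⌋ c with hY
  have hYc : c ≤ Y := le_max_right _ _
  have hYy : ⌊y⌋ ≤ Y := le_max_left _ _
  -- the first entrance
  have hkY : (T p d)^[k] n ≤ Y := (Int.le_floor.2 h3).trans hYy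
  have hexk : ∃ k, (T p d)^[k] n ≤ Y := ⟨k, hkY⟩
  obtain ⟨k₁, hk₁Y, hk₁min⟩ : ∃ k₁, (T p d)^[k₁] n ≤ Y ∧ ∀ i < k₁, ¬ (T p d)^[i] n ≤ Y :=
    ⟨Nat.find hexk, Nat.find_spec hexk, fun i hi => Nat.find_min hexk hi⟩
  have hk₁lt : ∀ i < k₁, Y < (T p d)^[i] n := fun i hi => not_le.1 (hk₁min i hi)
  have hk₁k : k₁ ≤ k := by
    by_contra hcon
    exact hk₁min k (by omega) hkY
  have hk₁1 : 1 ≤ (T p d)^[k₁] n := by
    rcases Nat.eq_zero_or_pos k₁ with h0 | hpos
    · rw [h0]
      simp only [Function.iterate_zero, id]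
      omega
    · obtain ⟨m, rfl⟩ : ∃ m, k₁ = m + 1 := ⟨k₁ - 1, by omega⟩
      have := hk₁lt m (by omega)
      rw [Function.iterate_succ_apply']
      exact UL.T_pos hA (by omega) (by omega)
  have hk₁n : (k₁ : ℝ) ≤ α * (Real.log n - Real.log y) + s₀ := by
    have : (k₁ : ℝ) ≤ k := by exact_mod_cast hk₁k
    linarith
  have hk₁L : (k₁ : ℝ) ≤ 2 * α * L := by
    refine hk₁n.trans ?_
    have h8 := Real.log_le_log (by linarith : (0 : ℝ) < n) h2
    have h9 : α * (Real.log n - Real.log y) ≤ α * L :=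
      mul_le_mul_of_nonneg_left (by linarith) hα0.le
    linarith
  refine ⟨h2, by omega, k₁, ?_⟩
  by_contra hcon
  push Not at hcon
  -- all records are on the line
  have hE : ∀ t ≤ k₁, (∀ i < t, (T p d)^[t] n < (T p d)^[i] n) →
      |Real.log n - Real.log ((T p d)^[t] n : ℤ) - t / α| ≤ δ * L := by
    intro t ht hrec
    have h8 := hcon t ht hk₁n hk₁lt hk₁1 hk₁Y hrec
    have ht1 : 1 ≤ (T p d)^[t] n := by
      rcases ht.lt_or_eq with h9 | h9
      · have := hk₁lt t h9
        omega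
      · rw [h9]
        exact hk₁1
    have h10 := hsz n t ht1 fun i hi => lt_of_le_of_lt hYc (hk₁lt i (by omega))
    have htL : (t : ℝ) ≤ 2 * α * L := le_trans (by exact_mod_cast ht) hk₁L
    have h11 : δ / (4 * α) * t ≤ δ / 2 * L := by
      calc δ / (4 * α) * t ≤ δ / (4 * α) * (2 * α * L) :=
            mul_le_mul_of_nonneg_left htL (by positivity)
        _ = δ / 2 * L := by
            field_simp
            ring
    have h12 : |((oT p d t n : ℝ) - rp p α * t) * Real.log p| ≤ δ / 2 * L := by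
      rw [abs_mul, abs_of_pos hlp]
      calc |(oT p d t n : ℝ) - rp p α * t| * Real.log p
          ≤ (δ / (2 * Real.log p) * L) * Real.log p := mul_le_mul_of_nonneg_right h8 hlp.le
        _ = δ / 2 * L := by field_simp
    have h13 : (t : ℝ) / α = t * Real.log 2 - rp p α * t * Real.log p := by
      rw [div_eq_mul_one_div, hspec]
      ring
    obtain ⟨a1, a2⟩ := abs_le.1 h10
    obtain ⟨b1, b2⟩ := abs_le.1 h12
    rw [h13, abs_le]
    constructor
    · nlinarith
    · nlinarith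
  rcases lt_or_ge j k₁ with hj | hj
  · have h8 := Str.line hA hα0 (by omega : 1 ≤ Y) (by omega) hk₁lt hk₁1 hk₁Y hE hj
    have h9 : α * (Real.log 2 + 2 * (δ * L)) * (Real.log p + 1 / α) + δ * L =
        α * Real.log 2 * (Real.log p + 1 / α) + (δ * W) * L := by
      rw [hW]
      ring
    rw [h9, hδW] at h8
    have h10 : 0 ≤ (B : ℝ) / α := by positivity
    have h11 : ε * L = ε / 4 * L + ε / 4 * L + ε / 2 * L := by ring
    have h12 : 0 ≤ ε / 2 * L := by positivity
    linarith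
  · -- the bounded part
    have hk₁y : y < (((T p d)^[k₁] n : ℤ) : ℝ) := h4 k₁ (by omega)
    have hfl : ⌊y⌋ < (T p d)^[k₁] n := Int.floor_lt.2 hk₁y
    have hYeq : Y = c := by
      rcases max_choice ⌊y⌋ c with h | h
      · exfalso
        rw [hY, h] at hk₁Y
        omega
      · rw [hY, h]
    rw [hYeq] at hk₁Y
    have hfl1 : 1 ≤ ⌊y⌋ := Int.le_floor.2 (by exact_mod_cast hy)
    have hsplit : ∀ i : ℕ, (T p d)^[i] ((T p d)^[k₁] n) = (T p d)^[i + k₁] n := by
      intro i
      rw [Function.iterate_add_apply]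
    obtain ⟨g1, g2⟩ := hbdd ((T p d)^[k₁] n) ⌊y⌋ hk₁1 hk₁Y hfl1 (by omega) (k - k₁) (by
      intro i hi
      rw [hsplit]
      exact Int.floor_lt.2 (h4 (i + k₁) (by omega))) (by
      rw [hsplit, Nat.sub_add_cancel hk₁k]
      exact Int.le_floor.2 h3)
    have g3 := g2 (j - k₁) (by omega)
    rw [hsplit, Nat.sub_add_cancel hj] at g3
    have g4 : 0 ≤ Real.log ((T p d)^[j] n : ℤ) := by
      apply Real.log_nonneg
      have := h4 j h6
      linarith
    have g5 := hE k₁ le_rfl (by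
      intro i hi
      have := hk₁lt i hi
      omega)
    have g6 : 0 ≤ Real.log ((T p d)^[k₁] n : ℤ) :=
      Real.log_nonneg (by exact_mod_cast hk₁1)
    have g7 : Real.log ((T p d)^[k₁] n : ℤ) ≤ Real.log c :=
      Real.log_le_log (by exact_mod_cast hk₁1) (by exact_mod_cast hk₁Y)
    have g8 : (j : ℝ) / α = k₁ / α + ((j : ℝ) - k₁) / α := by ring
    have g9 : 0 ≤ ((j : ℝ) - k₁) / α := by
      apply div_nonneg _ hα0.le
      have : (k₁ : ℝ) ≤ j := by exact_mod_cast hj
      linarith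
    have g10 : ((j : ℝ) - k₁) / α ≤ B / α := by
      apply div_le_div_of_nonneg_right _ hα0.le
      have h8 : j ≤ k₁ + B := by omega
      have : (j : ℝ) ≤ k₁ + B := by exact_mod_cast h8
      linarith
    obtain ⟨a1, a2⟩ := abs_le.1 g5
    have g11 : |Real.log ((T p d)^[j] n : ℤ) - (Real.log n - j / α)| ≤
        δ * L + (M + Real.log c + B / α) := by
      rw [abs_le]
      constructor
      · linarith
      · linarith
    have g12 : δ * L ≤ ε / 4 * L := mul_le_mul_of_nonneg_right hδε hLn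
    have g13 : 0 ≤ α * Real.log 2 * (Real.log p + 1 / α) := by positivity
    have h12 : 0 ≤ ε / 2 * L := by positivity
    linarith

/-- STRB -/
theorem t_STRB : S_STRB := t_STRB' t_CHN

end Pool.Agent.N685.FD
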