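import Pool.Agent.N685.FD.Stm10
import Pool.Agent.N685.FD.Tubu

/-!
PROJECT FD (helper685), part 10: upper bound for the tubes down to `b`, uniformly in `b` (helper123;
adapted from Tubu.lean of helper353).
-/

set_option autoImplicit false

namespace Pool.Agent.N685.FD

open Finset

namespace Tbu

open Tubu

/-- a number has at most two preimages -/
theorem fib {p : ℕ} {d : ℤ} (hA : Adm p d) (m n : ℤ) (h : T p d n = m) :
    n ∈ ({2 * m, (2 * m - d) / p} : Finset ℤ) := by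
  obtain ⟨hp, hd, _⟩ := hA
  rw [mem_insert, mem_singleton]
  unfold T at h
  split_ifs at h with h1
  · left
    omega
  · right
    rcases hp with rfl | rfl
    · push_cast at h ⊢
      omega
    · push_cast at h ⊢
      omega

theorem preim {p : ℕ} {d : ℤ} (hA : Adm p d) (b : ℤ) : ∀ (K : ℕ) (F : Finset ℤ),
    (∀ n ∈ F, (T p d)^[K] n = b) → F.card ≤ 2 ^ K
  | 0, F, hF => by
    have : F ⊆ {b} := by
      intro n hn
      rw [mem_singleton]
      exact hF n hn
    exact card_le_card this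
  | K + 1, F, hF => by
    classical
    have ih := preim hA b K (F.image (T p d)) (by
      intro m hm
      obtain ⟨n, hn, rfl⟩ := mem_image.1 hm
      rw [← Function.iterate_succ_apply]
      exact hF n hn)
    have h1 : F.card ≤ 2 * (F.image (T p d)).card := by
      refine card_le_mul_card_image F 2 fun m _ => ?_
      have h2 : (F.filter fun n => T p d n = m) ⊆ ({2 * m, (2 * m - d) / p} : Finset ℤ) := by
        intro n hn
        exact fib hA m n (mem_filter.1 hn).2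
      exact (card_le_card h2).trans card_le_two
    rw [pow_succ]
    omega

theorem base {p : ℕ} {d : ℤ} (hA : Adm p d) {ε δ X : ℝ} (hδ : 0 < δ) (hδε : δ ≤ ε / 2)
    (hX : 0 ≤ X) (b : ℤ) (F : Finset ℤ) (hF : ∀ n ∈ F, n ∈ TubB p d [] δ X b) :
    (F.card : ℝ) ≤ Real.exp (ε * X) := by
  classical
  have hdX : 0 ≤ δ * X := mul_nonneg hδ.le hX
  have hex : ∀ n ∈ F, ∃ K ∈ range (⌊δ * X⌋₊ + 1), (T p d)^[K] n = b := by
    intro n hn
    obtain ⟨K, hK1, hK2, _⟩ := hF n hn
    refine ⟨K, ?_, hK2⟩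
    have h1 : dur [] = 0 := by simp [dur]
    rw [h1, zero_mul, sub_zero] at hK1
    have h2 := (abs_le.1 hK1).2
    rw [mem_range, Nat.lt_add_one_iff]
    exact Nat.le_floor h2
  have hsub : F ⊆ (range (⌊δ * X⌋₊ + 1)).biUnion fun K => F.filter fun n => (T p d)^[K] n = b := by
    intro n hn
    obtain ⟨K, hK, h⟩ := hex n hn
    exact mem_biUnion.2 ⟨K, hK, mem_filter.2 ⟨hn, h⟩⟩
  have h1 : F.card ≤ (⌊δ * X⌋₊ + 1) * 2 ^ ⌊δ * X⌋₊ := by
    refine (card_le_card hsub).trans ?_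
    refine (card_biUnion_le_card_mul _ _ (2 ^ ⌊δ * X⌋₊) fun K hK => ?_).trans ?_
    · refine (preim hA b K _ fun n hn => (mem_filter.1 hn).2).trans ?_
      exact Nat.pow_le_pow_right (by norm_num) (Nat.lt_add_one_iff.1 (mem_range.1 hK))
    · rw [card_range]
  have h2 : ((⌊δ * X⌋₊ : ℕ) : ℝ) ≤ δ * X := Nat.floor_le hdX
  have h3 : ((⌊δ * X⌋₊ : ℕ) : ℝ) + 1 ≤ Real.exp (δ * X) := by
    have := Real.add_one_le_exp (δ * X)
    linarith
  have h4 : (2 : ℝ) ^ ⌊δ * X⌋₊ ≤ Real.exp (δ * X) := by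
    have h5 : (2 : ℝ) ≤ Real.exp 1 := by
      have := Real.add_one_le_exp (1 : ℝ)
      linarith
    calc (2 : ℝ) ^ ⌊δ * X⌋₊ ≤ Real.exp 1 ^ ⌊δ * X⌋₊ := pow_le_pow_left₀ (by norm_num) h5 _
      _ = Real.exp ((⌊δ * X⌋₊ : ℕ) : ℝ) := by
        rw [← Real.exp_nat_mul, mul_one]
      _ ≤ _ := Real.exp_le_exp.2 h2
  calc (F.card : ℝ) ≤ (((⌊δ * X⌋₊ + 1) * 2 ^ ⌊δ * X⌋₊ : ℕ) : ℝ) := by exact_mod_cast h1
    _ = (((⌊δ * X⌋₊ : ℕ) : ℝ) + 1) * 2 ^ ⌊δ * X⌋₊ := by push_cast; ring
    _ ≤ Real.exp (δ * X) * Real.exp (δ * X) := mul_le_mul h3 h4 (by positivity) (by positivity)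
    _ = Real.exp (2 * δ * X) := by
      rw [← Real.exp_add]
      congr 1
      ring
    _ ≤ _ := by
      apply Real.exp_le_exp.2
      exact mul_le_mul_of_nonneg_right (by linarith) hX

/-- the first piece of a trajectory in a tube down to `b` -/
theorem piece {p : ℕ} {d : ℤ} {q : ℝ × ℝ} {L : List (ℝ × ℝ)}
    (hL : ∀ x ∈ q :: L, 0 < x.1 ∧ x.1 < 1 ∧ 0 < x.2) {δ X : ℝ} (hδ : 0 < δ) (hX : 0 < X)
    (hX1 : q.1 ≤ δ * X) {b n : ℤ} (hb : 1 ≤ b) (hn : n ∈ TubB p d (q :: L) δ X b) :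
    ∃ t : ℕ, (t : ℝ) ≤ q.2 * X ∧ q.2 * X - 3 * δ / q.1 * X ≤ t ∧
      (T p d)^[t] n ∈ TubB p d L ((1 + 3 / q.1) * δ) X b ∧ 1 ≤ (T p d)^[t] n ∧
      (∀ j < t, Real.exp (Real.log b + (fal L + 2 * δ) * X) < (((T p d)^[j] n : ℤ) : ℝ)) ∧
      (((T p d)^[t] n : ℤ) : ℝ) ≤ Real.exp (Real.log b + (fal L + 2 * δ) * X) ∧
      |Real.log n - Real.log ((T p d)^[t] n : ℤ) - q.1 * t| ≤ 2 * δ * X := by
  classical
  obtain ⟨K, hK1, hK2, hn2⟩ := hn
  obtain ⟨hq1, hq2, hq3⟩ := hL q List.mem_cons_self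
  have hL' : ∀ x ∈ L, 0 < x.1 ∧ x.1 < 1 ∧ 0 < x.2 := fun x hx => hL x (List.mem_cons_of_mem _ hx)
  have hdur : dur (q :: L) = q.2 + dur L := by
    unfold dur
    rw [List.map_cons, List.sum_cons]
  have hfal : fal (q :: L) = q.1 * q.2 + fal L := by
    unfold fal
    rw [List.map_cons, List.sum_cons]
  have hfalL := fal_nonneg L hL'
  have hbR : (1 : ℝ) ≤ b := by exact_mod_cast hb
  have hlb : 0 ≤ Real.log b := Real.log_nonneg hbR
  -- the first part of the tube
  have hj : ∀ j : ℕ, j ≤ K → (j : ℝ) ≤ q.2 * X → 1 ≤ (T p d)^[j] n ∧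
      |Real.log ((T p d)^[j] n : ℤ) - Real.log b - ((q.1 * q.2 + fal L) * X - q.1 * j)| ≤ δ * X := by
    intro j hjK hj
    obtain ⟨h2, h3⟩ := hn2 j hjK
    refine ⟨h2, ?_⟩
    have h4 : pro (q :: L) (fal (q :: L)) (j / X) * X = (q.1 * q.2 + fal L) * X - q.1 * j := by
      show (if (j : ℝ) / X ≤ q.2 then fal (q :: L) - q.1 * (j / X) else
        pro L (fal (q :: L) - q.1 * q.2) (j / X - q.2)) * X = _
      rw [if_pos (by rw [div_le_iff₀ hX]; exact hj), hfal]
      field_simp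
    rwa [h4] at h3
  set Y := Real.exp (Real.log b + (fal L + 2 * δ) * X) with hY
  have hfl1 : ((⌊q.2 * X⌋₊ : ℕ) : ℝ) ≤ q.2 * X := Nat.floor_le (by positivity)
  have hfl2 : q.2 * X < ((⌊q.2 * X⌋₊ : ℕ) : ℝ) + 1 := Nat.lt_floor_add_one _
  have hex : ∃ k : ℕ, (((T p d)^[k] n : ℤ) : ℝ) ≤ Y := by
    refine ⟨K, ?_⟩
    rw [hK2, hY, ← Real.log_le_iff_le_exp (by linarith)]
    have : 0 ≤ (fal L + 2 * δ) * X := by positivity
    linarith
  have hmin : ∀ j < Nat.find hex, Y < (((T p d)^[j] n : ℤ) : ℝ) := fun j hj =>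
    not_le.1 (Nat.find_min hex hj)
  have htK : Nat.find hex ≤ K := by
    refine Nat.find_min' hex ?_
    rw [hK2, hY, ← Real.log_le_iff_le_exp (by linarith)]
    have : 0 ≤ (fal L + 2 * δ) * X := by positivity
    linarith
  have ht0 : Nat.find hex ≤ ⌊q.2 * X⌋₊ := by
    by_contra hcon
    push Not at hcon
    have h1 := hmin _ hcon
    obtain ⟨h1', h2⟩ := hj ⌊q.2 * X⌋₊ (by omega) hfl1
    have h3 : (0 : ℝ) < ((T p d)^[⌊q.2 * X⌋₊] n : ℤ) := by exact_mod_cast h1'
    rw [hY, ← Real.lt_log_iff_exp_lt h3] at h1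
    have h4 := (abs_le.1 h2).2
    have h5 : q.1 * (q.2 * X) ≤ q.1 * (((⌊q.2 * X⌋₊ : ℕ) : ℝ) + 1) :=
      mul_le_mul_of_nonneg_left hfl2.le hq1.le
    nlinarith
  set t := Nat.find hex with ht
  have htX : (t : ℝ) ≤ q.2 * X := by
    have : (t : ℝ) ≤ ((⌊q.2 * X⌋₊ : ℕ) : ℝ) := by exact_mod_cast ht0
    linarith
  have hbY : (((T p d)^[t] n : ℤ) : ℝ) ≤ Y := Nat.find_spec hex
  obtain ⟨hb1, hb2⟩ := hj t htK htX
  have hb0 : (0 : ℝ) < ((T p d)^[t] n : ℤ) := by exact_mod_cast hb1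
  have hlogb : Real.log ((T p d)^[t] n : ℤ) ≤ Real.log b + (fal L + 2 * δ) * X := by
    rw [Real.log_le_iff_le_exp hb0]
    exact hbY
  have ht1 : q.2 * X - 3 * δ / q.1 * X ≤ t := by
    have h1 := (abs_le.1 hb2).1
    have h2 : q.1 * (q.2 * X) - 3 * δ * X ≤ q.1 * t := by nlinarith
    have h3 : q.1 * (q.2 * X - 3 * δ / q.1 * X) = q.1 * (q.2 * X) - 3 * δ * X := by
      field_simp
    have h4 : q.1 * (q.2 * X - 3 * δ / q.1 * X) ≤ q.1 * t := by
      rw [h3]
      exact h2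
    exact le_of_mul_le_mul_left h4 hq1
  have h9 : (1 + 3 / q.1) * δ * X = δ * X + 3 * δ / q.1 * X := by
    field_simp
  refine ⟨t, htX, ht1, ⟨K - t, ?_, ?_, fun j hjL => ?_⟩, hb1, hmin, hbY, ?_⟩
  · rw [h9, Nat.cast_sub htK]
    rw [hdur, add_mul] at hK1
    rw [abs_le] at hK1 ⊢
    have : 0 ≤ 3 * δ / q.1 * X := by positivity
    constructor <;> linarith [hK1.1, hK1.2]
  · rw [← Function.iterate_add_apply, Nat.sub_add_cancel htK]
    exact hK2
  · rw [← Function.iterate_add_apply]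
    obtain ⟨h2, h3⟩ := hn2 (j + t) (by omega)
    refine ⟨h2, ?_⟩
    have hjX : (0 : ℝ) ≤ (j : ℝ) / X := by positivity
    have h4 := pro_shift hL (fal (q :: L)) hjX
    have hu : fal (q :: L) - q.1 * q.2 = fal L := by
      rw [hfal]
      ring
    rw [hu] at h4
    have h5 : ((j + t : ℕ) : ℝ) / X ≤ (j : ℝ) / X + q.2 := by
      push_cast
      rw [add_div]
      have : (t : ℝ) / X ≤ q.2 := by rw [div_le_iff₀ hX]; exact htX
      linarith
    have h6 := pro_lip (q :: L) (fal (q :: L)) _ _ hL (by positivity : (0 : ℝ) ≤ ((j + t : ℕ) : ℝ) / X) h5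
    rw [h4] at h6
    have h7 : ((j : ℝ) / X + q.2 - ((j + t : ℕ) : ℝ) / X) * X ≤ 3 * δ / q.1 * X := by
      have : ((j : ℝ) / X + q.2 - ((j + t : ℕ) : ℝ) / X) * X = q.2 * X - t := by
        push_cast
        field_simp
        ring
      rw [this]
      linarith
    have h8 : |pro (q :: L) (fal (q :: L)) (((j + t : ℕ) : ℝ) / X) * X -
        pro L (fal L) ((j : ℝ) / X) * X| ≤ 3 * δ / q.1 * X := by
      rw [← sub_mul, abs_mul, abs_of_pos hX]
      exact (mul_le_mul_of_nonneg_right h6 hX.le).trans h7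
    rw [h9]
    rw [abs_le] at h3 h8 ⊢
    constructor <;> linarith [h3.1, h3.2, h8.1, h8.2]
  · obtain ⟨_, hb3⟩ := hj 0 (Nat.zero_le _) (by push_cast; positivity)
    simp only [Function.iterate_zero, id] at hb3
    push_cast at hb3
    rw [abs_le] at hb2 hb3 ⊢
    constructor <;> linarith [hb2.1, hb2.2, hb3.1, hb3.2]

theorem main {p : ℕ} {d : ℤ} (hA : Adm p d) : ∀ L : List (ℝ × ℝ),
    (∀ q ∈ L, 0 < q.1 ∧ q.1 < 1 ∧ 0 < q.2 ∧
      ∀ ε : ℝ, 0 < ε → ∃ z : ℝ, Q p z ∧ php p (fr p q.1) z ≤ Fp p (fr p q.1) + ε) →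
    ∀ ε : ℝ, 0 < ε → ∃ δ₀ : ℝ, 0 < δ₀ ∧ ∀ δ : ℝ, 0 < δ → δ ≤ δ₀ →
      ∃ X₀ : ℝ, ∀ X : ℝ, X₀ ≤ X → ∀ b : ℤ, 1 ≤ b → ∀ F : Finset ℤ,
        (∀ n ∈ F, n ∈ TubB p d L δ X b) → (F.card : ℝ) ≤ Real.exp ((gr p L + ε) * X)
  | [], _, ε, hε => by
    refine ⟨ε / 2, by positivity, fun δ hδ hδε => ⟨0, fun X hX b _ F hF => ?_⟩⟩
    have e2 : gr p [] = 0 := by simp [gr]
    rw [e2, zero_add]
    exact base hA hδ hδε hX b F hF
  | q :: L, hL0, ε, hε => by
    classical
    have hL : ∀ x ∈ q :: L, 0 < x.1 ∧ x.1 < 1 ∧ 0 < x.2 := fun x hx =>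
      ⟨(hL0 x hx).1, (hL0 x hx).2.1, (hL0 x hx).2.2.1⟩
    have hL' : ∀ x ∈ L, 0 < x.1 ∧ x.1 < 1 ∧ 0 < x.2 := fun x hx => hL x (List.mem_cons_of_mem _ hx)
    obtain ⟨hq1, hq2, hq3, hq4⟩ := hL0 q List.mem_cons_self
    have hgr : gr p (q :: L) = q.2 * Fp p (fr p q.1) + gr p L := by
      unfold gr
      rw [List.map_cons, List.sum_cons]
    have hfalL := fal_nonneg L hL'
    obtain ⟨_, hlp, _⟩ := UL.p_facts hA.1
    -- the tilt
    obtain ⟨z, hQ, hz⟩ := hq4 (ε / (8 * q.2)) (by positivity)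
    set K1 : ℝ := |php p (fr p q.1) z| with hK1
    set K2 : ℝ := |Real.log (tt p z)| / Real.log p with hK2
    have hK10 : 0 ≤ K1 := abs_nonneg _
    have hK20 : 0 ≤ K2 := by positivity
    -- constants
    obtain ⟨c1, hc1, hsz⟩ := UL.at_size hA (η := ε / (8 * (K2 * q.2 + 1))) (by positivity)
    obtain ⟨c2, hc2, hup⟩ := UL.at_upper hA hQ
    set c : ℤ := max c1 c2 with hc
    obtain ⟨C, hC, hupC⟩ := hup c (le_max_right _ _) (ε / (8 * q.2)) (by positivity)
    obtain ⟨δ₁, hδ₁, ih⟩ := main hA L (fun x hx => hL0 x (List.mem_cons_of_mem _ hx))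
      (ε / 8) (by positivity)
    obtain ⟨X₁, hX₁, hpe⟩ := poly_exp (C := C) (τ := q.2) (θ := ε / 8) hC hq3 (by positivity)
    refine ⟨min (δ₁ / (1 + 3 / q.1)) (ε / (8 * (3 * K1 / q.1 + 2 * K2 + 1))), by positivity,
      fun δ hδ hδle => ?_⟩
    have hδ1 : (1 + 3 / q.1) * δ ≤ δ₁ := by
      have h1 := hδle.trans (min_le_left _ _)
      rw [le_div_iff₀ (by positivity)] at h1
      linarith
    have hδ2 : δ * (3 * K1 / q.1 + 2 * K2 + 1) ≤ ε / 8 := by
      have h1 := hδle.trans (min_le_right _ _)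
      rw [le_div_iff₀ (by positivity)] at h1
      linarith
    obtain ⟨X₂, hX₂⟩ := ih ((1 + 3 / q.1) * δ) (by positivity) hδ1
    refine ⟨max (max X₁ X₂) (max (q.1 / δ) ((c : ℝ) / (2 * δ))), fun X hX b hb F hF => ?_⟩
    have hXX1 : X₁ ≤ X := (le_max_left _ _).trans ((le_max_left _ _).trans hX)
    have hXX2 : X₂ ≤ X := (le_max_right _ _).trans ((le_max_left _ _).trans hX)
    have hXX3 : q.1 / δ ≤ X := (le_max_left _ _).trans ((le_max_right _ _).trans hX)
    have hXX4 : (c : ℝ) / (2 * δ) ≤ X := (le_max_right _ _).trans ((le_max_right _ _).trans hX)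
    have hX0 : 0 < X := lt_of_lt_of_le hX₁ hXX1
    have hbR : (1 : ℝ) ≤ b := by exact_mod_cast hb
    have hlb : 0 ≤ Real.log b := Real.log_nonneg hbR
    have hqδ : q.1 ≤ δ * X := by
      rw [div_le_iff₀ hδ] at hXX3
      linarith
    have hcY : (c : ℝ) < Real.exp (Real.log b + (fal L + 2 * δ) * X) := by
      rw [div_le_iff₀ (by positivity)] at hXX4
      have h1 : 0 ≤ fal L * X := mul_nonneg hfalL hX0.le
      have h2 := Real.add_one_le_exp (Real.log b + (fal L + 2 * δ) * X)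
      nlinarith
    -- the first pieces
    have hch : ∀ n : ℤ, ∃ t : ℕ, n ∈ F → (t : ℝ) ≤ q.2 * X ∧ q.2 * X - 3 * δ / q.1 * X ≤ t ∧
        (T p d)^[t] n ∈ TubB p d L ((1 + 3 / q.1) * δ) X b ∧ 1 ≤ (T p d)^[t] n ∧
        (∀ j < t, Real.exp (Real.log b + (fal L + 2 * δ) * X) < (((T p d)^[j] n : ℤ) : ℝ)) ∧
        (((T p d)^[t] n : ℤ) : ℝ) ≤ Real.exp (Real.log b + (fal L + 2 * δ) * X) ∧
        |Real.log n - Real.log ((T p d)^[t] n : ℤ) - q.1 * t| ≤ 2 * δ * X := by
      intro n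
      by_cases hn : n ∈ F
      · obtain ⟨t, ht⟩ := piece hL hδ hX0 hqδ hb (hF n hn)
        exact ⟨t, fun _ => ht⟩
      · exact ⟨0, fun h => absurd h hn⟩
    choose t ht using hch
    set B : Finset ℤ := F.image fun n => (T p d)^[t n] n with hB
    have hBc : (B.card : ℝ) ≤ Real.exp ((gr p L + ε / 8) * X) := by
      refine hX₂ X hXX2 b hb B fun b hb => ?_
      obtain ⟨n, hn, rfl⟩ := mem_image.1 hb
      exact (ht n hn).2.2.1
    set N : ℕ := ⌊q.2 * X⌋₊ + 1 with hN
    set S : Finset (ℤ × (ℕ × ℕ)) := B ×ˢ (range N ×ˢ range N) with hS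
    set φ : ℤ → ℤ × (ℕ × ℕ) := fun n => ((T p d)^[t n] n, (t n, oT p d (t n) n)) with hφ
    set E : ℝ := (q.2 * Fp p (fr p q.1) + ε / 8 + ε / 8 + ε / 8 + ε / 8) * X with hE
    have hφS : ∀ n ∈ F, φ n ∈ S := by
      intro n hn
      have h1 := (ht n hn).1
      have h2 : t n < N := by
        rw [hN, Nat.lt_add_one_iff]
        exact Nat.le_floor h1
      have h3 := UL.oT_le p d (t n) n
      rw [hS, mem_product, mem_product]
      exact ⟨mem_image_of_mem _ hn, mem_range.2 h2, mem_range.2 (by show oT p d (t n) n < N; omega)⟩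
    have hM : ∀ x ∈ S, ((F.filter (fun n => φ n = x)).card : ℝ) ≤ C * Real.exp E := by
      intro x _
      rcases (F.filter (fun n => φ n = x)).eq_empty_or_nonempty with h0 | ⟨n₀, hn₀⟩
      · rw [h0, card_empty]
        push_cast
        positivity
      obtain ⟨hn₀F, hn₀x⟩ := mem_filter.1 hn₀
      obtain ⟨f1, f2, f3, f3', f4, f5, f6⟩ := ht n₀ hn₀F
      have hx1 : x.1 = (T p d)^[t n₀] n₀ := by rw [← hn₀x]
      have hx2 : x.2.1 = t n₀ := by rw [← hn₀x]
      have hx3 : x.2.2 = oT p d (t n₀) n₀ := by rw [← hn₀x]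
      have hx11 : 1 ≤ x.1 := by
        rw [hx1]
        exact f3'
      have h1 := hupC x.1 x.2.1 x.2.2 (F.filter (fun n => φ n = x)) hx11 (by
        intro n hn
        obtain ⟨hnF, hnx⟩ := mem_filter.1 hn
        obtain ⟨g1, g2, g3, g3', g4, g5, g6⟩ := ht n hnF
        have hy1 : x.1 = (T p d)^[t n] n := by rw [← hnx]
        have hy2 : x.2.1 = t n := by rw [← hnx]
        have hy3 : x.2.2 = oT p d (t n) n := by rw [← hnx]
        rw [hy1, hy2, hy3]
        refine ⟨rfl, fun j hj => ⟨?_, ?_⟩, rfl⟩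
        · have := hcY.trans (g4 j hj)
          exact_mod_cast this
        · have := lt_of_le_of_lt g5 (g4 j hj)
          exact_mod_cast this)
      refine h1.trans (mul_le_mul_of_nonneg_left (Real.exp_le_exp.2 ?_) hC.le)
      rw [hx2, hx3]
      set k : ℝ := (t n₀ : ℝ) with hk
      set o : ℝ := (oT p d (t n₀) n₀ : ℝ) with ho
      have hk0 : 0 ≤ k := Nat.cast_nonneg _
      -- the number of the odd steps
      have h2 := hsz c (le_max_left _ _) n₀ (t n₀) f3' (by
        intro j hj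
        have := hcY.trans (f4 j hj)
        exact_mod_cast this)
      have h3 : |k * (Real.log 2 - q.1) - o * Real.log p| ≤
          ε / (8 * (K2 * q.2 + 1)) * k + 2 * δ * X := by
        rw [abs_le] at h2 f6 ⊢
        constructor <;> nlinarith [h2.1, h2.2, f6.1, f6.2]
      have h4 : |o - k * fr p q.1| * Real.log p ≤ ε / (8 * (K2 * q.2 + 1)) * k + 2 * δ * X := by
        have e : (o - k * fr p q.1) * Real.log p = -(k * (Real.log 2 - q.1) - o * Real.log p) := by
          unfold fr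
          field_simp
          ring
        calc |o - k * fr p q.1| * Real.log p = |(o - k * fr p q.1) * Real.log p| := by
              rw [abs_mul, abs_of_pos hlp]
          _ ≤ _ := by rw [e, abs_neg]; exact h3
      -- the exponent
      have e1 : ε / (8 * q.2) * k + k * (-Real.log z) + o * (-Real.log (tt p z)) =
          ε / (8 * q.2) * k + k * php p (fr p q.1) z + (o - k * fr p q.1) *
            (-Real.log (tt p z)) := by
        unfold php
        ring
      rw [e1]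
      have b1 : ε / (8 * q.2) * k ≤ ε / 8 * X := by
        calc ε / (8 * q.2) * k ≤ ε / (8 * q.2) * (q.2 * X) :=
              mul_le_mul_of_nonneg_left f1 (by positivity)
          _ = _ := by field_simp
      have b2 : k * php p (fr p q.1) z ≤ (q.2 * Fp p (fr p q.1) + ε / 8) * X +
          δ * (3 * K1 / q.1) * X := by
        have a1 : (k - q.2 * X) * php p (fr p q.1) z ≤ 3 * δ / q.1 * X * K1 := by
          have a2 : |k - q.2 * X| ≤ 3 * δ / q.1 * X := by
            rw [abs_le]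
            have : 0 ≤ 3 * δ / q.1 * X := by positivity
            constructor <;> linarith
          calc (k - q.2 * X) * php p (fr p q.1) z ≤ |(k - q.2 * X) * php p (fr p q.1) z| :=
                le_abs_self _
            _ = |k - q.2 * X| * K1 := by rw [abs_mul]
            _ ≤ _ := mul_le_mul_of_nonneg_right a2 hK10
        have a3 : q.2 * X * php p (fr p q.1) z ≤ q.2 * X * (Fp p (fr p q.1) + ε / (8 * q.2)) :=
          mul_le_mul_of_nonneg_left hz (by positivity)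
        have a4 : q.2 * X * (Fp p (fr p q.1) + ε / (8 * q.2)) =
            (q.2 * Fp p (fr p q.1) + ε / 8) * X := by field_simp
        have a5 : δ * (3 * K1 / q.1) * X = 3 * δ / q.1 * X * K1 := by ring
        rw [a4] at a3
        rw [a5]
        linarith
      have b3 : (o - k * fr p q.1) * (-Real.log (tt p z)) ≤ ε / 8 * X + δ * (2 * K2) * X := by
        have a1 : (o - k * fr p q.1) * (-Real.log (tt p z)) ≤
            (|o - k * fr p q.1| * Real.log p) * K2 := by
          calc (o - k * fr p q.1) * (-Real.log (tt p z)) ≤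
                |(o - k * fr p q.1) * (-Real.log (tt p z))| := le_abs_self _
            _ = |o - k * fr p q.1| * |Real.log (tt p z)| := by rw [abs_mul, abs_neg]
            _ = _ := by rw [hK2]; field_simp
        have a2 := mul_le_mul_of_nonneg_right h4 hK20
        have a3 : ε / (8 * (K2 * q.2 + 1)) * k * K2 ≤ ε / 8 * X := by
          have c1 : k * K2 ≤ (K2 * q.2 + 1) * X := by
            have := mul_le_mul_of_nonneg_right f1 hK20
            nlinarith
          calc ε / (8 * (K2 * q.2 + 1)) * k * K2 = ε / (8 * (K2 * q.2 + 1)) * (k * K2) := by ring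
            _ ≤ ε / (8 * (K2 * q.2 + 1)) * ((K2 * q.2 + 1) * X) :=
                mul_le_mul_of_nonneg_left c1 (by positivity)
            _ = _ := by field_simp
        have a4 : (ε / (8 * (K2 * q.2 + 1)) * k + 2 * δ * X) * K2 =
            ε / (8 * (K2 * q.2 + 1)) * k * K2 + δ * (2 * K2) * X := by ring
        rw [a4] at a2
        linarith
      have b4 : δ * (3 * K1 / q.1) * X + δ * (2 * K2) * X ≤ ε / 8 * X := by
        have a1 : δ * (3 * K1 / q.1) + δ * (2 * K2) ≤ ε / 8 := by nlinarith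
        have := mul_le_mul_of_nonneg_right a1 hX0.le
        linarith
      rw [hE]
      linarith
    have hcount := count φ S hφS (C * Real.exp E) hM
    have hSc : (S.card : ℝ) ≤ B.card * (q.2 * X + 2) ^ 2 := by
      rw [hS, card_product, card_product, card_range]
      push_cast
      apply mul_le_mul_of_nonneg_left _ (Nat.cast_nonneg _)
      have h1 : (N : ℝ) ≤ q.2 * X + 2 := by
        rw [hN]
        push_cast
        have := Nat.floor_le (show 0 ≤ q.2 * X by positivity)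
        linarith
      rw [sq]
      exact mul_le_mul h1 h1 (Nat.cast_nonneg _) (by positivity)
    calc (F.card : ℝ) ≤ S.card * (C * Real.exp E) := hcount
      _ ≤ (B.card * (q.2 * X + 2) ^ 2) * (C * Real.exp E) :=
          mul_le_mul_of_nonneg_right hSc (by positivity)
      _ = B.card * (C * (q.2 * X + 2) ^ 2) * Real.exp E := by ring
      _ ≤ Real.exp ((gr p L + ε / 8) * X) * Real.exp (ε / 8 * X) * Real.exp E := by
          apply mul_le_mul_of_nonneg_right _ (Real.exp_pos _).le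
          exact mul_le_mul hBc (hpe X hXX1) (by positivity) (Real.exp_pos _).le
      _ = Real.exp ((gr p L + ε / 8) * X + ε / 8 * X + E) := by
          rw [← Real.exp_add, ← Real.exp_add]
      _ ≤ Real.exp ((gr p (q :: L) + ε) * X) := by
          apply Real.exp_le_exp.2
          rw [hgr, hE]
          have : 0 < ε * X := by positivity
          nlinarith

end Tbu

theorem t_TBU : S_TBU := by
  intro p d hA L hL ε hε
  have h2 : Real.log 2 < 1 := by linarith [Real.log_two_lt_d9]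
  exact Tbu.main hA L (fun q hq => ⟨(hL q hq).1, (hL q hq).2.1.trans h2, (hL q hq).2.2.1,
    (hL q hq).2.2.2⟩) ε hε

end Pool.Agent.N685.FD
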